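import Pool.Agent.Work.MP_a8cb64_co.UDefs

/-!
MP_a8cb64_co, Theorem S (note 2485), main part, module UP4 (helper80): a set which is hit
everywhere is explored.
-/

namespace LocTr

open Finset

/-- nodes consist of exposed points with a label in `W` (local copy). -/
theorem node_subset4 {Λ : Type} [DecidableEq Λ] {A : ℕ → Finset ℕ → Finset ℕ} {h b : ℕ}
    {W : Finset Λ} {c : ℕ → Λ} : ∀ j, ∀ Z ∈ nodes A h b W c j,
    Z ⊆ (expo A h b W c j).filter fun v => c v ∈ W := by
  intro j
  induction j with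
  | zero =>
    intro Z hZ
    rw [nodes_zero, mem_singleton] at hZ
    subst hZ
    exact empty_subset _
  | succ j ih =>
    intro Z hZ
    rw [nodes_succ] at hZ
    split_ifs at hZ with hb
    · obtain ⟨Z', hZ', hZ⟩ := mem_biUnion.1 hZ
      obtain ⟨a, ha, i, hi, rfl⟩ := mem_children.1 hZ
      rw [expo_succ]
      intro v hv
      rcases mem_union.1 hv with hv | hv
      · have h1 := mem_filter.1 (ih Z' hZ' hv)
        exact mem_filter.2 ⟨mem_union_left _ h1.1, h1.2⟩
      · have h1 := mem_filter.1 (piece_subset _ _ _ hv)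
        refine mem_filter.2 ⟨mem_union_right _ (mem_biUnion.2 ⟨Z', hZ', h1.1⟩), ?_⟩
        rw [h1.2]
        exact ha
    · exact absurd hZ (notMem_empty _)

theorem node_card4 {Λ : Type} [DecidableEq Λ] {A : ℕ → Finset ℕ → Finset ℕ} {h b : ℕ}
    {W : Finset Λ} {c : ℕ → Λ} (hh : 1 ≤ h) : ∀ j, ∀ Z ∈ nodes A h b W c j, Z.card ≤ j * h := by
  intro j
  induction j with
  | zero =>
    intro Z hZ
    rw [nodes_zero, mem_singleton] at hZ
    subst hZ
    simp
  | succ j ih =>
    intro Z hZ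
    rw [nodes_succ] at hZ
    split_ifs at hZ with hb
    · obtain ⟨Z', hZ', hZ⟩ := mem_biUnion.1 hZ
      obtain ⟨a, ha, i, hi, rfl⟩ := mem_children.1 hZ
      have h1 := card_union_le Z' (piece ((A j Z').filter fun v => c v = a) h i)
      have h2 := ih Z' hZ'
      have h3 := piece_card_le ((A j Z').filter fun v => c v = a) hh i
      rw [Nat.succ_mul]
      omega
    · exact absurd hZ (notMem_empty _)

theorem descend {Λ : Type} [DecidableEq Λ] {H : Finset (Finset ℕ)} {r m s : ℕ} {κ θ τ : ℝ}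
    {T A : ℕ → Finset ℕ → Finset ℕ} {F : ℕ → Finset ℕ → Finset (Finset ℕ)}
    (hD : CoreData H r m s κ θ τ T A F) {h b : ℕ} (hh : 1 ≤ h) (hhm : 2 * (s * h) ≤ m)
    {W : Finset Λ} {c : ℕ → Λ}
    (hb : ∀ j ≤ s, ((expo A h b W c j).filter fun v => c v ∈ W).card ≤ b)
    (X : Finset ℕ) (hX : X.card ≤ s) (hXW : ∀ v ∈ X, c v ∈ W)
    (hhit : ∀ j < s, ∀ Z ∈ nodes A h b W c j, ∀ e ∈ F j Z, ¬ Disjoint e X) :
    X ⊆ (expo A h b W c s).filter fun v => c v ∈ W := by
  have key : ∀ j ≤ s, ∃ Z ∈ nodes A h b W c j, (X \ Z).card ≤ s - j := by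
    intro j
    induction j with
    | zero =>
      intro _
      refine ⟨∅, by rw [nodes_zero]; exact mem_singleton_self _, ?_⟩
      simpa using hX
    | succ j ih =>
      intro hj
      obtain ⟨Z, hZ, hXZ⟩ := ih (by omega)
      have hjs : j < s := by omega
      have hZm : 2 * Z.card ≤ m := by
        have h1 := node_card4 (A := A) (b := b) (W := W) (c := c) hh j Z hZ
        have h2 : j * h ≤ s * h := Nat.mul_le_mul_right h hjs.le
        omega
      obtain ⟨v, hv⟩ := hD.hit j hjs Z hZm (X \ Z) hXZ (by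
        intro e he hd
        have h1 := (mem_missing.1 (hD.subF j hjs Z hZm he)).2
        refine hhit j hjs Z hZ e he ?_
        rw [disjoint_left] at hd h1 ⊢
        intro w hwe hwX
        exact hd hwe (mem_sdiff.2 ⟨hwX, h1 hwe⟩))
      rw [mem_inter, mem_sdiff] at hv
      obtain ⟨⟨hvX, hvZ⟩, hvA⟩ := hv
      have hvL : v ∈ (A j Z).filter fun w => c w = c v := mem_filter.2 ⟨hvA, rfl⟩
      obtain ⟨i, hi, hvi⟩ := exists_piece h hvL
      refine ⟨Z ∪ piece ((A j Z).filter fun w => c w = c v) h i, ?_, ?_⟩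
      · rw [nodes_succ, if_pos (hb (j + 1) hj)]
        exact mem_biUnion.2 ⟨Z, hZ, mem_children.2 ⟨c v, hXW v hvX, i, hi, rfl⟩⟩
      · have h2 : X \ (Z ∪ piece ((A j Z).filter fun w => c w = c v) h i) ⊆ (X \ Z).erase v := by
          intro w hw
          rw [mem_sdiff, mem_union, not_or] at hw
          refine mem_erase.2 ⟨?_, mem_sdiff.2 ⟨hw.1, hw.2.1⟩⟩
          rintro rfl
          exact hw.2.2 hvi
        have h3 := card_le_card h2
        have h4 := card_erase_of_mem (mem_sdiff.2 ⟨hvX, hvZ⟩)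
        omega
  obtain ⟨Z, hZ, hXZ⟩ := key s le_rfl
  have h1 : X \ Z = ∅ := by
    rw [← card_eq_zero]
    omega
  exact (sdiff_eq_empty_iff_subset.1 h1).trans (node_subset4 s Z hZ)

end LocTr
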