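import Pool.Agent.Work.MP_a8cb64_co.VDefs
import Pool.Agent.Work.MP_a8cb64_co.UP4

/-!
MP_a8cb64_co, Theorem S without the logarithm, module VP1 (helper80).
-/

namespace LocTr

open Finset

theorem descend_node {Λ : Type} [DecidableEq Λ] {H : Finset (Finset ℕ)} {r m s : ℕ} {κ θ τ : ℝ}
    {T A : ℕ → Finset ℕ → Finset ℕ} {F : ℕ → Finset ℕ → Finset (Finset ℕ)}
    (hD : CoreData H r m s κ θ τ T A F) {h b : ℕ} (hh : 1 ≤ h) (hhm : 2 * (s * h) ≤ m)
    {W : Finset Λ} {c : ℕ → Λ} (hb : ∀ j ≤ s, lab A h b W c j ≤ b)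
    (X : Finset ℕ) (hX : X.card ≤ s) (hXW : ∀ v ∈ X, c v ∈ W)
    (hhit : ∀ j < s, ∀ Z ∈ nodes A h b W c j, ∀ e ∈ F j Z, ¬ Disjoint e X) :
    ∃ Z ∈ nodes A h b W c s, X ⊆ Z := by
  have key : ∀ j ≤ s, ∃ Z ∈ nodes A h b W c j, (X \ Z).card ≤ s - j := by
    intro j
    induction j with
    | zero =>
      intro _
      refine ⟨∅, by rw [nodes_zero]; exact mem_singleton_self _, ?_⟩
      simpa using hX
    | succ j ih =>
      intro hj
      obtain ⟨Z, hZ, hXZ⟩ := ih (by omega)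
      have hjs : j < s := by omega
      have hZm : 2 * Z.card ≤ m := by
        have h1 := node_card4 (A := A) (b := b) (W := W) (c := c) hh j Z hZ
        have h2 : j * h ≤ s * h := Nat.mul_le_mul_right h hjs.le
        omega
      obtain ⟨v, hv⟩ := hD.hit j hjs Z hZm (X \ Z) hXZ (by
        intro e he hd
        have h1 := (mem_missing.1 (hD.subF j hjs Z hZm he)).2
        refine hhit j hjs Z hZ e he ?_
        rw [disjoint_left] at hd h1 ⊢
        intro w hwe hwX
        exact hd hwe (mem_sdiff.2 ⟨hwX, h1 hwe⟩))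
      rw [mem_inter, mem_sdiff] at hv
      obtain ⟨⟨hvX, hvZ⟩, hvA⟩ := hv
      have hvL : v ∈ (A j Z).filter fun w => c w = c v := mem_filter.2 ⟨hvA, rfl⟩
      obtain ⟨i, hi, hvi⟩ := exists_piece h hvL
      refine ⟨Z ∪ piece ((A j Z).filter fun w => c w = c v) h i, ?_, ?_⟩
      · have hbj : ((expo A h b W c (j + 1)).filter fun v => c v ∈ W).card ≤ b := hb (j + 1) hj
        rw [nodes_succ, if_pos hbj]
        exact mem_biUnion.2 ⟨Z, hZ, mem_children.2 ⟨c v, hXW v hvX, i, hi, rfl⟩⟩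
      · have h2 : X \ (Z ∪ piece ((A j Z).filter fun w => c w = c v) h i) ⊆ (X \ Z).erase v := by
          intro w hw
          rw [mem_sdiff, mem_union, not_or] at hw
          refine mem_erase.2 ⟨?_, mem_sdiff.2 ⟨hw.1, hw.2.1⟩⟩
          rintro rfl
          exact hw.2.2 hvi
        have h3 := card_le_card h2
        have h4 := card_erase_of_mem (mem_sdiff.2 ⟨hvX, hvZ⟩)
        omega
  obtain ⟨Z, hZ, hXZ⟩ := key s le_rfl
  have h1 : X \ Z = ∅ := by
    rw [← card_eq_zero]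
    omega
  exact ⟨Z, hZ, sdiff_eq_empty_iff_subset.1 h1⟩

end LocTr
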