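import Mathlib

/-!
MP_a8cb64_co, Theorem S (helper94, note 2485): module M3 (helper71), Chernoff bound for stopping
sets by change of measure.

A map `Φ` from labellings `c : ι → Λ` to sets of vertices is a stopping set if `Φ c' = Φ c`
whenever `c'` and `c` agree on `Φ c`.
-/

namespace LocTr

open Finset

section Stop

variable {ι Λ : Type*} [Fintype ι] [DecidableEq ι] [Fintype Λ] [DecidableEq Λ]

/-- stopping sets -/
def IsStop (Φ : (ι → Λ) → Finset ι) : Prop :=
  ∀ c c' : ι → Λ, (∀ v ∈ Φ c, c' v = c v) → Φ c' = Φ c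

/-- the labellings which agree with `c` on `A` -/
def cyl (A : Finset ι) (c : ι → Λ) : Finset (ι → Λ) :=
  Fintype.piFinset fun v => if v ∈ A then {c v} else univ

omit [DecidableEq Λ] in
theorem mem_cyl (A : Finset ι) (c c' : ι → Λ) : c' ∈ cyl A c ↔ ∀ v ∈ A, c' v = c v := by
  unfold cyl
  rw [Fintype.mem_piFinset]
  constructor
  · intro h v hv
    have := h v
    rw [if_pos hv] at this
    simpa using this
  · intro h v
    split_ifs with hv
    · simpa using h v hv
    · exact mem_univ _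

omit [DecidableEq Λ] in
theorem cyl_sum (A : Finset ι) (c : ι → Λ) (w : Λ → ℝ) :
    ∑ c' ∈ cyl A c, ∏ v, w (c' v) = (∏ v ∈ A, w (c v)) * (∑ a, w a) ^ (univ \ A).card := by
  unfold cyl
  rw [← Finset.prod_univ_sum (fun v => if v ∈ A then {c v} else univ) (fun _ a => w a)]
  rw [← Finset.prod_sdiff (Finset.subset_univ A), mul_comm]
  congr 1
  · apply Finset.prod_congr rfl
    intro v hv
    rw [if_pos hv]
    simp
  · rw [← Finset.prod_const]
    apply Finset.prod_congr rfl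
    intro v hv
    rw [if_neg (Finset.mem_sdiff.1 hv).2]

omit [DecidableEq Λ] in
theorem cyl_card (A : Finset ι) (c : ι → Λ) :
    ((cyl A c).card : ℝ) = (Fintype.card Λ : ℝ) ^ (univ \ A).card := by
  have h := cyl_sum A c (fun _ => (1 : ℝ))
  simpa using h

omit [DecidableEq Λ] in
theorem mem_cyl_symm {Φ : (ι → Λ) → Finset ι} (hΦ : IsStop Φ) (c c' : ι → Λ) :
    c' ∈ cyl (Φ c) c ↔ c ∈ cyl (Φ c') c' := by
  have key : ∀ c c' : ι → Λ, c' ∈ cyl (Φ c) c → c ∈ cyl (Φ c') c' := by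
    intro c c' h
    rw [mem_cyl] at h ⊢
    rw [hΦ c c' h]
    intro v hv
    exact (h v hv).symm
  exact ⟨key c c', key c' c⟩

omit [DecidableEq Λ] in
/-- Change of measure for stopping sets. -/
theorem stop_sum [Nonempty Λ] {Φ : (ι → Λ) → Finset ι} (hΦ : IsStop Φ) (w : Λ → ℝ)
    (hw : ∑ a, w a = Fintype.card Λ) :
    ∑ c : ι → Λ, ∏ v ∈ Φ c, w (c v) = (Fintype.card Λ : ℝ) ^ Fintype.card ι := by
  classical
  have hL : (0 : ℝ) < Fintype.card Λ := by exact_mod_cast Fintype.card_pos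
  set n : (ι → Λ) → ℝ := fun c => (Fintype.card Λ : ℝ) ^ (univ \ Φ c).card with hn
  have hn0 : ∀ c, 0 < n c := fun c => by rw [hn]; positivity
  have h1 : ∀ c : ι → Λ, ∏ v ∈ Φ c, w (c v) = (n c)⁻¹ * ∑ c' ∈ cyl (Φ c) c, ∏ v, w (c' v) := by
    intro c
    rw [cyl_sum, hw]
    have := (hn0 c).ne'
    simp only [hn] at this ⊢
    field_simp
  have h2 : ∀ c c' : ι → Λ, c' ∈ cyl (Φ c) c → n c = n c' := by
    intro c c' h
    rw [mem_cyl] at h
    simp only [hn]
    rw [hΦ c c' h]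
  calc ∑ c : ι → Λ, ∏ v ∈ Φ c, w (c v)
      = ∑ c : ι → Λ, ∑ c' ∈ cyl (Φ c) c, (n c')⁻¹ * ∏ v, w (c' v) := by
        apply Finset.sum_congr rfl
        intro c _
        rw [h1 c, Finset.mul_sum]
        apply Finset.sum_congr rfl
        intro c' hc'
        rw [h2 c c' hc']
    _ = ∑ c' : ι → Λ, ∑ c ∈ cyl (Φ c') c', (n c')⁻¹ * ∏ v, w (c' v) := by
        apply Finset.sum_comm'
        intro c c'
        simp only [mem_univ, true_and, and_true]
        exact mem_cyl_symm hΦ c c'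
    _ = ∑ c' : ι → Λ, ∏ v, w (c' v) := by
        apply Finset.sum_congr rfl
        intro c' _
        rw [Finset.sum_const, nsmul_eq_mul, cyl_card]
        have := (hn0 c').ne'
        simp only [hn] at this ⊢
        field_simp
    _ = (Fintype.card Λ : ℝ) ^ Fintype.card ι := by
        have h3 := cyl_sum (∅ : Finset ι) (fun _ => Classical.arbitrary Λ) w
        have h4 : cyl (∅ : Finset ι) (fun _ => Classical.arbitrary Λ) = univ := by
          ext c
          simp [mem_cyl]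
        rw [h4] at h3
        rw [h3, hw]
        simp

/-- Exponential moments of the number of vertices of `Φ c` with a label in `W`. -/
theorem stop_exp [Nonempty Λ] {Φ : (ι → Λ) → Finset ι} (hΦ : IsStop Φ) (R : ℕ)
    (hR : ∀ c, (Φ c).card ≤ R) (W : Finset Λ) (p z : ℝ) (hz : 1 ≤ z)
    (hp : (W.card : ℝ) ≤ p * Fintype.card Λ) :
    ∑ c : ι → Λ, z ^ ((Φ c).filter fun v => c v ∈ W).card ≤
      (1 + p * (z - 1)) ^ R * (Fintype.card Λ : ℝ) ^ Fintype.card ι := by
  have hL : (0 : ℝ) < Fintype.card Λ := by exact_mod_cast Fintype.card_pos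
  set p' : ℝ := (W.card : ℝ) / Fintype.card Λ with hp'
  have hp'0 : 0 ≤ p' := by rw [hp']; positivity
  have hpp : p' ≤ p := by rw [hp', div_le_iff₀ hL]; exact hp
  set q : ℝ := 1 + p' * (z - 1) with hq
  have hz1 : 0 ≤ z - 1 := by linarith
  have hq1 : 1 ≤ q := by
    have := mul_nonneg hp'0 hz1
    linarith
  have hq0 : 0 < q := by linarith
  set w : Λ → ℝ := fun a => (if a ∈ W then z else 1) / q with hw
  have hsum : ∑ a, w a = Fintype.card Λ := by
    simp only [hw]
    rw [← Finset.sum_div, Finset.sum_ite]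
    have e1 : (univ.filter fun a => a ∈ W) = W := by ext a; simp
    have e2 : ((univ.filter fun a => a ∉ W).card : ℝ) = Fintype.card Λ - W.card := by
      have h := Finset.card_filter_add_card_filter_not (s := (univ : Finset Λ)) (fun a => a ∈ W)
      rw [e1, Finset.card_univ] at h
      have h2 : (W.card : ℝ) + ((univ.filter fun a => a ∉ W).card : ℝ) = Fintype.card Λ := by
        exact_mod_cast h
      linarith
    rw [Finset.sum_const, Finset.sum_const, nsmul_eq_mul, nsmul_eq_mul, e1, e2,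
      div_eq_iff hq0.ne', hq, hp']
    field_simp
    ring
  have hmain := stop_sum hΦ w hsum
  have hterm : ∀ c : ι → Λ, z ^ ((Φ c).filter fun v => c v ∈ W).card ≤
      q ^ R * ∏ v ∈ Φ c, w (c v) := by
    intro c
    have e1 : ∏ v ∈ Φ c, w (c v) =
        z ^ ((Φ c).filter fun v => c v ∈ W).card / q ^ (Φ c).card := by
      simp only [hw]
      rw [Finset.prod_div_distrib, Finset.prod_const, Finset.prod_ite, Finset.prod_const,
        Finset.prod_const_one, mul_one]
    rw [e1]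
    have hz0 : (0 : ℝ) ≤ z ^ ((Φ c).filter fun v => c v ∈ W).card := by
      have : (0 : ℝ) ≤ z := by linarith
      positivity
    rw [mul_div_assoc', le_div_iff₀ (by positivity), mul_comm (q ^ R)]
    exact mul_le_mul_of_nonneg_left (pow_le_pow_right₀ hq1 (hR c)) hz0
  calc ∑ c : ι → Λ, z ^ ((Φ c).filter fun v => c v ∈ W).card
      ≤ ∑ c : ι → Λ, q ^ R * ∏ v ∈ Φ c, w (c v) := Finset.sum_le_sum fun c _ => hterm c
    _ = q ^ R * (Fintype.card Λ : ℝ) ^ Fintype.card ι := by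
        rw [← Finset.mul_sum, hmain]
    _ ≤ (1 + p * (z - 1)) ^ R * (Fintype.card Λ : ℝ) ^ Fintype.card ι := by
        apply mul_le_mul_of_nonneg_right _ (by positivity)
        apply pow_le_pow_left₀ hq0.le
        have := mul_le_mul_of_nonneg_right hpp hz1
        rw [hq]
        linarith

/-- The tail: at most an `exp(- ρ^2 m / 2)` fraction of the labellings is bad. -/
theorem stop_tail [Nonempty Λ] {Φ : (ι → Λ) → Finset ι} (hΦ : IsStop Φ) (r m ρ : ℝ)
    (hr : 0 < r) (hm : 0 ≤ m) (hρ : 0 < ρ) (hρ1 : ρ ≤ 1 / 20)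
    (hR : ∀ c, ((Φ c).card : ℝ) ≤ (1 + ρ) * r) (W : Finset Λ)
    (hp : (W.card : ℝ) * ((1 + 5 * ρ) * r) ≤ m * Fintype.card Λ) :
    ((univ.filter fun c : ι → Λ =>
      (1 - ρ) * m < (((Φ c).filter fun v => c v ∈ W).card : ℝ)).card : ℝ) ≤
      Real.exp (-(ρ ^ 2 * m / 2)) * (Fintype.card Λ : ℝ) ^ Fintype.card ι := by
  classical
  have hL : (0 : ℝ) < Fintype.card Λ := by exact_mod_cast Fintype.card_pos
  set R : ℕ := ⌊(1 + ρ) * r⌋₊ with hRdef
  have hRc : ∀ c, (Φ c).card ≤ R := fun c => Nat.le_floor (hR c)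
  have hR1 : (R : ℝ) ≤ (1 + ρ) * r := Nat.floor_le (by positivity)
  set p : ℝ := m / ((1 + 5 * ρ) * r) with hpdef
  have hp0 : 0 ≤ p := by rw [hpdef]; positivity
  have hpW : (W.card : ℝ) ≤ p * Fintype.card Λ := by
    rw [hpdef, div_mul_eq_mul_div, le_div_iff₀ (by positivity)]
    exact hp
  have h := stop_exp hΦ R hRc W p (1 + ρ) (by linarith) hpW
  set B := univ.filter fun c : ι → Λ =>
      (1 - ρ) * m < (((Φ c).filter fun v => c v ∈ W).card : ℝ) with hB
  set l : ℝ := Real.log (1 + ρ) with hl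
  have hl0 : 0 < l := Real.log_pos (by linarith)
  have hl1 : ρ - ρ ^ 2 / 2 ≤ l := by
    have h1 := Real.le_log_one_add_of_nonneg hρ.le
    refine le_trans ?_ h1
    rw [le_div_iff₀ (by linarith)]
    nlinarith [pow_pos hρ 3]
  have hpow : ∀ n : ℕ, (1 + ρ) ^ n = Real.exp (n * l) := by
    intro n
    rw [hl, mul_comm, Real.exp_mul, Real.exp_log (by linarith), Real.rpow_natCast]
  have h1 : (B.card : ℝ) * Real.exp ((1 - ρ) * m * l) ≤
      ∑ c : ι → Λ, (1 + ρ) ^ ((Φ c).filter fun v => c v ∈ W).card := by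
    calc (B.card : ℝ) * Real.exp ((1 - ρ) * m * l)
        = ∑ _c ∈ B, Real.exp ((1 - ρ) * m * l) := by rw [Finset.sum_const, nsmul_eq_mul]
      _ ≤ ∑ c ∈ B, (1 + ρ) ^ ((Φ c).filter fun v => c v ∈ W).card := by
          apply Finset.sum_le_sum
          intro c hc
          rw [hpow]
          apply Real.exp_le_exp.2
          exact mul_le_mul_of_nonneg_right (Finset.mem_filter.1 hc).2.le hl0.le
      _ ≤ ∑ c : ι → Λ, (1 + ρ) ^ ((Φ c).filter fun v => c v ∈ W).card := by
          apply Finset.sum_le_sum_of_subset_of_nonneg (Finset.subset_univ _)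
          intro c _ _
          positivity
  have h2 : (1 + p * (1 + ρ - 1)) ^ R ≤ Real.exp (p * ρ * ((1 + ρ) * r)) := by
    have e1 : 1 + p * (1 + ρ - 1) ≤ Real.exp (p * ρ) := by
      have := Real.add_one_le_exp (p * ρ)
      linarith [this]
    calc (1 + p * (1 + ρ - 1)) ^ R ≤ (Real.exp (p * ρ)) ^ R :=
          pow_le_pow_left₀ (by have := mul_nonneg hp0 hρ.le; linarith) e1 R
      _ = Real.exp (R * (p * ρ)) := by rw [← Real.exp_nat_mul]
      _ ≤ Real.exp (p * ρ * ((1 + ρ) * r)) := by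
          apply Real.exp_le_exp.2
          rw [mul_comm]
          exact mul_le_mul_of_nonneg_left hR1 (mul_nonneg hp0 hρ.le)
  have h3 : p * ρ * ((1 + ρ) * r) = ρ * m * ((1 + ρ) / (1 + 5 * ρ)) := by
    rw [hpdef]
    field_simp
  have h4 : (1 + ρ) / (1 + 5 * ρ) ≤ 1 - 3 * ρ := by
    rw [div_le_iff₀ (by linarith)]
    nlinarith
  have h5 : p * ρ * ((1 + ρ) * r) - (1 - ρ) * m * l ≤ -(ρ ^ 2 * m / 2) := by
    rw [h3]
    have e1 : ρ * m * ((1 + ρ) / (1 + 5 * ρ)) ≤ ρ * m * (1 - 3 * ρ) :=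
      mul_le_mul_of_nonneg_left h4 (by positivity)
    have e2 : (1 - ρ) * m * (ρ - ρ ^ 2 / 2) ≤ (1 - ρ) * m * l :=
      mul_le_mul_of_nonneg_left hl1 (mul_nonneg (by linarith) hm)
    have e3 : (1 - ρ) * m * (ρ - ρ ^ 2 / 2) = ρ * m * ((1 - ρ) * (1 - ρ / 2)) := by ring
    have e4 : ρ * m * (1 - 3 * ρ / 2) ≤ ρ * m * ((1 - ρ) * (1 - ρ / 2)) := by
      apply mul_le_mul_of_nonneg_left _ (by positivity)
      nlinarith
    nlinarith [mul_nonneg (mul_nonneg hρ.le hρ.le) hm]
  have h6 : (B.card : ℝ) * Real.exp ((1 - ρ) * m * l) ≤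
      Real.exp (p * ρ * ((1 + ρ) * r)) * (Fintype.card Λ : ℝ) ^ Fintype.card ι :=
    h1.trans (h.trans (mul_le_mul_of_nonneg_right h2 (by positivity)))
  have h7 : (B.card : ℝ) ≤ Real.exp (p * ρ * ((1 + ρ) * r) - (1 - ρ) * m * l) *
      (Fintype.card Λ : ℝ) ^ Fintype.card ι := by
    rw [Real.exp_sub, div_mul_eq_mul_div, le_div_iff₀ (Real.exp_pos _)]
    exact h6
  exact h7.trans (mul_le_mul_of_nonneg_right (Real.exp_le_exp.2 h5) (by positivity))

end Stop

end LocTr
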