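import Pool.Agent.Work.MP_a8cb64_co.UDefs

/-!
MP_a8cb64_co, Theorem S, module UP1 (helper72): first facts about the exploration.
-/

namespace LocTr

open Finset

section UP1

variable {Λ : Type} [DecidableEq Λ] {A : ℕ → Finset ℕ → Finset ℕ} {h b : ℕ} {W : Finset Λ}
  {c : ℕ → Λ}

/-- a node of level `j + 1` is a child of a node of level `j`, and there was no truncation. -/
theorem mem_nodes_succ {j : ℕ} {Y : Finset ℕ} : Y ∈ nodes A h b W c (j + 1) ↔
    ((expo A h b W c (j + 1)).filter fun v => c v ∈ W).card ≤ b ∧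
      ∃ Z ∈ nodes A h b W c j, ∃ a ∈ W, ∃ i < ((A j Z).filter fun v => c v = a).card / h + 1,
        Y = Z ∪ piece ((A j Z).filter fun v => c v = a) h i := by
  rw [nodes_succ]
  split_ifs with hb
  · simp only [hb, true_and, mem_biUnion, mem_children]
  · simp [hb]

theorem node_card (hh : 1 ≤ h) : ∀ j, ∀ Z ∈ nodes A h b W c j, Z.card ≤ j * h := by
  intro j
  induction j with
  | zero =>
    intro Z hZ
    rw [nodes_zero, mem_singleton] at hZ
    simp [hZ]
  | succ j ih =>
    intro Y hY
    obtain ⟨-, Z, hZ, a, -, i, -, rfl⟩ := mem_nodes_succ.1 hY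
    refine (card_union_le _ _).trans ?_
    rw [Nat.add_mul, one_mul]
    exact Nat.add_le_add (ih Z hZ) (piece_card_le _ hh i)

theorem expo_mono {i j : ℕ} (hij : i ≤ j) : expo A h b W c i ⊆ expo A h b W c j := by
  induction j with
  | zero => rw [Nat.le_zero.1 hij]
  | succ j ih =>
    rcases Nat.lt_or_ge i (j + 1) with h1 | h1
    · rw [expo_succ]
      exact (ih (by omega)).trans subset_union_left
    · rw [le_antisymm hij h1]

theorem subset_expo {i j : ℕ} (hij : i < j) {Z : Finset ℕ} (hZ : Z ∈ nodes A h b W c i) :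
    A i Z ⊆ expo A h b W c j := by
  refine subset_trans ?_ (expo_mono (Nat.succ_le_of_lt hij))
  rw [expo_succ]
  exact (subset_biUnion_of_mem (A i) hZ).trans subset_union_right

theorem node_subset : ∀ j, ∀ Z ∈ nodes A h b W c j,
    Z ⊆ (expo A h b W c j).filter fun v => c v ∈ W := by
  intro j
  induction j with
  | zero =>
    intro Z hZ
    rw [nodes_zero, mem_singleton] at hZ
    simp [hZ]
  | succ j ih =>
    intro Y hY
    obtain ⟨-, Z, hZ, a, ha, i, -, rfl⟩ := mem_nodes_succ.1 hY
    intro v hv
    rw [mem_filter]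
    rcases mem_union.1 hv with hv | hv
    · have := mem_filter.1 (ih Z hZ hv)
      exact ⟨expo_mono (Nat.le_succ j) this.1, this.2⟩
    · have h1 := mem_filter.1 (piece_subset _ _ _ hv)
      exact ⟨subset_expo (Nat.lt_succ_self j) hZ h1.1, h1.2 ▸ ha⟩

theorem expo_eq (j : ℕ) : expo A h b W c j =
    (range j).biUnion fun i => (nodes A h b W c i).biUnion (A i) := by
  induction j with
  | zero => simp [expo_zero]
  | succ j ih => rw [expo_succ, ih, range_add_one, biUnion_insert, union_comm]

theorem labelled_card_le {j : ℕ} (hne : (nodes A h b W c j).Nonempty) :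
    ((expo A h b W c j).filter fun v => c v ∈ W).card ≤ b := by
  cases j with
  | zero => simp [expo_zero]
  | succ j =>
    obtain ⟨Y, hY⟩ := hne
    exact (mem_nodes_succ.1 hY).1

theorem expo_subset {V : Finset ℕ} (hA : ∀ j Z, A j Z ⊆ V) (j : ℕ) : expo A h b W c j ⊆ V := by
  rw [expo_eq]
  intro v hv
  simp only [mem_biUnion] at hv
  obtain ⟨i, -, Z, -, hv⟩ := hv
  exact hA i Z hv

theorem children_card_le (hh : 1 ≤ h) (L Z : Finset ℕ) :
    (children h W c L Z).card ≤ (L.filter fun v => c v ∈ W).card / h + W.card := by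
  unfold children
  refine card_biUnion_le.trans ?_
  have h1 : ∀ a ∈ W, ((range ((L.filter fun v => c v = a).card / h + 1)).image fun i =>
      Z ∪ piece (L.filter fun v => c v = a) h i).card ≤
      (L.filter fun v => c v = a).card / h + 1 := by
    intro a _
    exact card_image_le.trans (by rw [card_range])
  refine (sum_le_sum h1).trans ?_
  rw [sum_add_distrib, sum_const, smul_eq_mul, mul_one]
  refine Nat.add_le_add_right ?_ _
  have h2 : ∑ a ∈ W, (L.filter fun v => c v = a).card = (L.filter fun v => c v ∈ W).card := by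
    have := card_eq_sum_card_fiberwise (f := c) (s := L.filter fun v => c v ∈ W) (t := W)
      (fun v hv => (mem_filter.1 hv).2)
    rw [this]
    refine sum_congr rfl fun a ha => ?_
    congr 1
    ext v
    simp only [mem_filter]
    constructor
    · rintro ⟨h3, h4⟩
      exact ⟨⟨h3, h4 ▸ ha⟩, h4⟩
    · rintro ⟨⟨h3, -⟩, h4⟩
      exact ⟨h3, h4⟩
  rw [← h2]
  rw [Nat.le_div_iff_mul_le (by omega), sum_mul]
  exact sum_le_sum fun a _ => Nat.div_mul_le_self _ _

/-- use `∑_{a ∈ W} |L_a| / h ≤ |⋃ L_a| / h` (truncated division is superadditive) and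
`A j Z ∩ c⁻¹(W) ⊆ expo (j+1) ∩ c⁻¹(W)`, which has at most `b` points if not truncated. -/
theorem nodes_count (hh : 1 ≤ h) : ∀ j, (nodes A h b W c j).card ≤ (b / h + W.card) ^ j := by
  intro j
  induction j with
  | zero => simp [nodes_zero]
  | succ j ih =>
    rw [nodes_succ]
    split_ifs with hb
    · refine card_biUnion_le.trans ?_
      have h1 : ∀ Z ∈ nodes A h b W c j, (children h W c (A j Z) Z).card ≤ b / h + W.card := by
        intro Z hZ
        refine (children_card_le hh _ _).trans (Nat.add_le_add_right (Nat.div_le_div_right ?_) _)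
        refine le_trans (card_le_card ?_) hb
        exact filter_subset_filter _ (subset_expo (Nat.lt_succ_self j) hZ)
      refine (sum_le_sum h1).trans ?_
      rw [sum_const, smul_eq_mul, pow_succ]
      exact Nat.mul_le_mul_right _ ih
    · simp

end UP1

end LocTr
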