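import Pool.Agent.Work.MP_a8cb64_co.UP1

/-!
MP_a8cb64_co, Theorem S (helper94, note 2485): module UP2, the exposed set is a stopping set.
-/


namespace LocTr

open Finset

section UP2

variable {Λ : Type} [DecidableEq Λ] {A : ℕ → Finset ℕ → Finset ℕ} {h b : ℕ} {W : Finset Λ}
  {c : ℕ → Λ}

theorem children_congr {c' : ℕ → Λ} {L Z : Finset ℕ} (hc : ∀ v ∈ L, c' v = c v) :
    children h W c' L Z = children h W c L Z := by
  have h1 : ∀ a, (L.filter fun v => c' v = a) = L.filter fun v => c v = a := by
    intro a
    exact filter_congr fun v hv => by rw [hc v hv]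
  unfold children
  simp only [h1]

theorem expo_stop_aux {c' : ℕ → Λ} (j : ℕ) (hc : ∀ v ∈ expo A h b W c j, c' v = c v) :
    expo A h b W c' j = expo A h b W c j ∧ nodes A h b W c' j = nodes A h b W c j := by
  induction j with
  | zero => exact ⟨rfl, rfl⟩
  | succ j ih =>
    obtain ⟨h1, h2⟩ := ih fun v hv => hc v (by rw [expo_succ]; exact mem_union_left _ hv)
    have h3 : expo A h b W c' (j + 1) = expo A h b W c (j + 1) := by
      rw [expo_succ, expo_succ, h1, h2]
    refine ⟨h3, ?_⟩
    rw [nodes_succ, nodes_succ, h3, h2]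
    have h4 : ((expo A h b W c (j + 1)).filter fun v => c' v ∈ W) =
        (expo A h b W c (j + 1)).filter fun v => c v ∈ W :=
      filter_congr fun v hv => by rw [hc v hv]
    rw [h4]
    split_ifs with h5
    · refine biUnion_congr rfl fun Z hZ => children_congr fun v hv => hc v ?_
      rw [expo_succ]
      exact mem_union_right _ (mem_biUnion.2 ⟨Z, hZ, hv⟩)
    · rfl

theorem expo_stop {c' : ℕ → Λ} (j : ℕ) (hc : ∀ v ∈ expo A h b W c j, c' v = c v) :
    expo A h b W c' j = expo A h b W c j := (expo_stop_aux j hc).1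

end UP2

end LocTr
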