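import Pool.Agent.Work.MP_a8cb64_co.VDefs

/-!
MP_a8cb64_co, Theorem S without the logarithm, module VP2 (helper9): truncation does not matter as
long as nothing is truncated.
-/

namespace LocTr

open Finset

theorem trunc_agree {Λ : Type} [DecidableEq Λ] {A : ℕ → Finset ℕ → Finset ℕ} {h b b' : ℕ}
    {W : Finset Λ} {c : ℕ → Λ} (hbb : b ≤ b') (j : ℕ) (hj : ∀ i ≤ j, lab A h b' W c i ≤ b) :
    nodes A h b W c j = nodes A h b' W c j ∧ expo A h b W c (j + 1) = expo A h b' W c (j + 1) := by
  induction j with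
  | zero =>
    refine ⟨rfl, ?_⟩
    rw [expo_succ, expo_succ]
    rfl
  | succ j ih =>
    obtain ⟨h3, h5⟩ := ih fun i hi => hj i (by omega)
    have h6 : ((expo A h b' W c (j + 1)).filter fun v => c v ∈ W).card ≤ b := hj (j + 1) le_rfl
    have h7 : nodes A h b W c (j + 1) = nodes A h b' W c (j + 1) := by
      rw [nodes_succ, nodes_succ, h5, h3, if_pos h6, if_pos (h6.trans hbb)]
    refine ⟨h7, ?_⟩
    rw [expo_succ (j := j + 1), expo_succ (j := j + 1), h7, h5]

end LocTr
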