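import Pool.Agent.Work.MP_a8cb64_co.VDefs

/-!
MP_a8cb64_co, Theorem S without the logarithm (helper72), module VP3 (helper91): growth of the
thresholds.
-/

namespace LocTr

open Finset

theorem thr_mono (g m h t : ℕ) (hg : 1 ≤ g) (ht : 1 ≤ t) (hh : 1 ≤ h) (hhm : h ≤ m) {i j : ℕ}
    (hij : i ≤ j) : thr g m h t i ≤ thr g m h t j := by
  refine Nat.rel_of_forall_rel_succ_of_le (· ≤ ·) (f := thr g m h t) ?_ hij
  intro j
  show thr g m h t j ≤ 8 * (j + 1) * t * m * (thr g m h t j / h + g) ^ j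
  rcases Nat.eq_zero_or_pos j with h0 | hj
  · subst h0
    show t * m ≤ 8 * (0 + 1) * t * m * (thr g m h t 0 / h + g) ^ 0
    rw [pow_zero, mul_one]
    nlinarith [Nat.zero_le (t * m)]
  · set x := thr g m h t j with hx
    have h1 : x / h + 1 ≤ (x / h + g) ^ j := by
      calc x / h + 1 ≤ x / h + g := by omega
        _ = (x / h + g) ^ 1 := (pow_one _).symm
        _ ≤ (x / h + g) ^ j :=
          Nat.pow_le_pow_right (le_trans hg (Nat.le_add_left _ _)) hj
    have h2 : x ≤ h * (x / h + 1) := by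
      have := Nat.lt_mul_div_succ x (by omega : 0 < h)
      exact this.le
    have h3 : 1 ≤ 8 * (j + 1) * t := Nat.one_le_iff_ne_zero.2 (by positivity)
    calc x ≤ h * (x / h + 1) := h2
      _ ≤ m * (x / h + g) ^ j := Nat.mul_le_mul hhm h1
      _ = 1 * (m * (x / h + g) ^ j) := (one_mul _).symm
      _ ≤ (8 * (j + 1) * t) * (m * (x / h + g) ^ j) := Nat.mul_le_mul_right _ h3
      _ = 8 * (j + 1) * t * m * (x / h + g) ^ j := by ring

theorem le_thr (g m h t : ℕ) (hg : 1 ≤ g) (j : ℕ) : t * m ≤ thr g m h t j := by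
  cases j with
  | zero => exact le_rfl
  | succ j =>
    show t * m ≤ 8 * (j + 1) * t * m * (thr g m h t j / h + g) ^ j
    have h1 : 1 ≤ (thr g m h t j / h + g) ^ j := 
      Nat.one_le_pow _ _ (le_trans hg (Nat.le_add_left _ _))
    calc t * m = (1 * (t * m)) * 1 := by ring
      _ ≤ (8 * (j + 1) * (t * m)) * (thr g m h t j / h + g) ^ j :=
          Nat.mul_le_mul (Nat.mul_le_mul_right _ (by omega)) h1
      _ = 8 * (j + 1) * t * m * (thr g m h t j / h + g) ^ j := by ring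

/-- `(thr s / h + g)^s ≤ K t^D`. -/
theorem thr_growth (s g : ℕ) : ∃ K D : ℕ, ∀ m h t : ℕ, 1 ≤ h → m ≤ 8 * s * h → 1 ≤ t →
    (thr g m h t s / h + g) ^ s ≤ K * t ^ D := by
  have key : ∀ j : ℕ, ∃ K D : ℕ, ∀ m h t : ℕ, 1 ≤ h → m ≤ 8 * s * h → 1 ≤ t →
      thr g m h t j / h ≤ K * t ^ D := by
    intro j
    induction j with
    | zero =>
      refine ⟨8 * s, 1, fun m h t hh hm ht => ?_⟩
      show t * m / h ≤ 8 * s * t ^ 1
      refine Nat.div_le_of_le_mul ?_
      calc t * m ≤ t * (8 * s * h) := Nat.mul_le_mul_left _ hm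
        _ = h * (8 * s * t ^ 1) := by ring
    | succ j ih =>
      obtain ⟨K, D, hKD⟩ := ih
      refine ⟨64 * (j + 1) * s * (K + g) ^ j, 1 + j * D, fun m h t hh hm ht => ?_⟩
      show 8 * (j + 1) * t * m * (thr g m h t j / h + g) ^ j / h ≤ _
      have h1 : thr g m h t j / h + g ≤ (K + g) * t ^ D := by
        have h2 := hKD m h t hh hm ht
        have h3 : 1 ≤ t ^ D := Nat.one_le_pow _ _ ht
        calc thr g m h t j / h + g ≤ K * t ^ D + g * 1 := by omega
          _ ≤ K * t ^ D + g * t ^ D := Nat.add_le_add_left (Nat.mul_le_mul_left _ h3) _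
          _ = (K + g) * t ^ D := by ring
      refine Nat.div_le_of_le_mul ?_
      calc 8 * (j + 1) * t * m * (thr g m h t j / h + g) ^ j
          ≤ 8 * (j + 1) * t * (8 * s * h) * ((K + g) * t ^ D) ^ j :=
            Nat.mul_le_mul (Nat.mul_le_mul_left _ hm) (Nat.pow_le_pow_left h1 j)
        _ = h * (64 * (j + 1) * s * (K + g) ^ j * t ^ (1 + j * D)) := by
            rw [mul_pow, ← pow_mul, pow_add, pow_one, mul_comm D j]
            ring
  obtain ⟨K, D, hKD⟩ := key s
  refine ⟨(K + g) ^ s, D * s, fun m h t hh hm ht => ?_⟩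
  have h1 : thr g m h t s / h + g ≤ (K + g) * t ^ D := by
    have h2 := hKD m h t hh hm ht
    have h3 : 1 ≤ t ^ D := Nat.one_le_pow _ _ ht
    calc thr g m h t s / h + g ≤ K * t ^ D + g * 1 := by omega
      _ ≤ K * t ^ D + g * t ^ D := Nat.add_le_add_left (Nat.mul_le_mul_left _ h3) _
      _ = (K + g) * t ^ D := by ring
  calc (thr g m h t s / h + g) ^ s ≤ ((K + g) * t ^ D) ^ s := Nat.pow_le_pow_left h1 s
    _ = (K + g) ^ s * t ^ (D * s) := by rw [mul_pow, ← pow_mul]

end LocTr
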