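import Pool.Agent.Work.MP_a8cb64_co.VDefs
import Pool.Agent.Work.MP_a8cb64_co.VP3
import Pool.Agent.Work.MP_a8cb64_co.TM3

/-!
MP_a8cb64_co, Theorem S without the logarithm (helper72): module VP4 (helper9), the tail of one
level and of one scale.
-/

namespace LocTr

open Finset

section VP4

variable {Λ : Type} [DecidableEq Λ]

private theorem lab_zero4 {A : ℕ → Finset ℕ → Finset ℕ} {h b : ℕ} {W : Finset Λ} {c : ℕ → Λ} :
    lab A h b W c 0 = 0 := by
  simp [lab, expo_zero]

private theorem lab_mono4 {A : ℕ → Finset ℕ → Finset ℕ} {h b : ℕ} {W : Finset Λ} {c : ℕ → Λ}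
    {i j : ℕ} (hij : i ≤ j) : lab A h b W c i ≤ lab A h b W c j :=
  card_le_card (filter_subset_filter _ (expo_mono hij))

private theorem agree4 {A : ℕ → Finset ℕ → Finset ℕ} {h b b' : ℕ} {W : Finset Λ} {c : ℕ → Λ}
    (j : ℕ) (h1 : lab A h b W c j ≤ b) (h2 : lab A h b W c j ≤ b') :
    nodes A h b' W c j = nodes A h b W c j ∧ expo A h b' W c j = expo A h b W c j := by
  induction j with
  | zero => exact ⟨rfl, rfl⟩
  | succ j ih =>
    obtain ⟨h3, h4⟩ := ih ((lab_mono4 (Nat.le_succ j)).trans h1)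
      ((lab_mono4 (Nat.le_succ j)).trans h2)
    have h5 : expo A h b' W c (j + 1) = expo A h b W c (j + 1) := by
      rw [expo_succ, expo_succ, h3, h4]
    refine ⟨?_, h5⟩
    have h6 : ((expo A h b W c (j + 1)).filter fun v => c v ∈ W).card ≤ b := h1
    have h7 : ((expo A h b W c (j + 1)).filter fun v => c v ∈ W).card ≤ b' := h2
    rw [nodes_succ, nodes_succ, h5, h3, if_pos h6, if_pos h7]

/-- the exposed set of the exploration which is truncated at `b`. -/
private theorem expo_card4 {A : ℕ → Finset ℕ → Finset ℕ} (s g r h b : ℕ) (hg : 1 ≤ g)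
    (hh : 1 ≤ h) (W : Finset Λ) (hW : W.card ≤ g) (c : ℕ → Λ)
    (hA2 : ∀ j < s, ∀ Z : Finset ℕ, Z.card ≤ s * h → (A j Z).card ≤ 2 * r) (j : ℕ) (hj : j < s) :
    (expo A h b W c (j + 1)).card ≤ (j + 1) * ((b / h + g) ^ j * (2 * r)) := by
  rw [expo_eq]
  refine card_biUnion_le.trans ?_
  calc ∑ i ∈ range (j + 1), ((nodes A h b W c i).biUnion (A i)).card
      ≤ ∑ _i ∈ range (j + 1), (b / h + g) ^ j * (2 * r) := by
        refine sum_le_sum fun i hi => ?_
        have hi' : i ≤ j := by have := mem_range.1 hi; omega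
        refine card_biUnion_le.trans ?_
        calc ∑ Z ∈ nodes A h b W c i, (A i Z).card ≤ ∑ _Z ∈ nodes A h b W c i, 2 * r := by
              refine sum_le_sum fun Z hZ => hA2 i (by omega) Z ?_
              exact (node_card hh i Z hZ).trans (Nat.mul_le_mul_right h (by omega))
          _ = (nodes A h b W c i).card * (2 * r) := by rw [sum_const, smul_eq_mul]
          _ ≤ (b / h + g) ^ j * (2 * r) := by
              refine Nat.mul_le_mul_right _ ?_
              refine (nodes_count hh i).trans ?_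
              refine (Nat.pow_le_pow_left (Nat.add_le_add_left hW _) i).trans ?_
              exact Nat.pow_le_pow_right (le_trans hg (Nat.le_add_left _ _)) hi'
    _ = (j + 1) * ((b / h + g) ^ j * (2 * r)) := by rw [sum_const, card_range, smul_eq_mul]

/-- the tail of one level. -/
private theorem level_tail [Fintype Λ] [Nonempty Λ]
    {A : ℕ → Finset ℕ → Finset ℕ} {V : Finset ℕ} (hA : ∀ j Z, A j Z ⊆ V) (s g r m h t : ℕ)
    (hg : 1 ≤ g) (hh : 1 ≤ h) (ht : 1 ≤ t) (W : Finset Λ)
    (hW : W.card ≤ g) (hp : (W.card : ℝ) * r ≤ m * Fintype.card Λ)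
    (hA2 : ∀ j < s, ∀ Z : Finset ℕ, Z.card ≤ s * h → (A j Z).card ≤ 2 * r) (j : ℕ) (hj : j < s) :
    ((univ.filter fun c : V → Λ => thr g m h t (j + 1) <
      lab A h (thr g m h t j) W (extLab V c) (j + 1)).card : ℝ) ≤
      Real.exp (-(t * m : ℝ)) * (Fintype.card Λ : ℝ) ^ V.card := by
  classical
  have hL : (0 : ℝ) < Fintype.card Λ := by exact_mod_cast Fintype.card_pos
  set b : ℕ := thr g m h t j with hb
  set P : ℕ := (b / h + g) ^ j with hP
  have hP1 : 1 ≤ P := Nat.one_le_pow _ _ (le_trans hg (Nat.le_add_left _ _))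
  set R : ℕ := (j + 1) * (P * (2 * r)) with hR
  set Φ : (V → Λ) → Finset V := fun c =>
    (expo A h b W (extLab V c) (j + 1)).subtype (· ∈ V) with hΦ
  have hmem : ∀ (c : V → Λ) (v : V), v ∈ Φ c ↔
      (v : ℕ) ∈ expo A h b W (extLab V c) (j + 1) := by
    intro c v
    simp only [hΦ, mem_subtype]
  have hstop : IsStop Φ := by
    intro c c' hcc
    have h1 : expo A h b W (extLab V c') (j + 1) = expo A h b W (extLab V c) (j + 1) := by
      refine expo_stop (j + 1) fun v hv => ?_
      have hvV : v ∈ V := expo_subset hA (j + 1) hv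
      rw [extLab_mem V c' hvV, extLab_mem V c hvV]
      exact hcc ⟨v, hvV⟩ ((hmem _ _).2 hv)
    simp only [hΦ, h1]
  have hcard : ∀ c, (Φ c).card ≤ R := by
    intro c
    refine le_trans ?_ (expo_card4 s g r h b hg hh W hW (extLab V c) hA2 j hj)
    simp only [hΦ, card_subtype]
    exact card_le_card (filter_subset _ _)
  have hlab : ∀ c : V → Λ, lab A h b W (extLab V c) (j + 1) ≤
      ((Φ c).filter fun v => c v ∈ W).card := by
    intro c
    have h2 : ((expo A h b W (extLab V c) (j + 1)).filter fun v => extLab V c v ∈ W) ⊆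
        ((Φ c).filter fun v => c v ∈ W).image Subtype.val := by
      intro v hv
      rw [mem_filter] at hv
      have hvV : v ∈ V := expo_subset hA (j + 1) hv.1
      refine mem_image.2 ⟨⟨v, hvV⟩, mem_filter.2 ⟨(hmem _ _).2 hv.1, ?_⟩, rfl⟩
      rw [← extLab_mem V c hvV]
      exact hv.2
    exact (card_le_card h2).trans card_image_le
  set p : ℝ := (W.card : ℝ) / Fintype.card Λ with hpdef
  have hp0 : 0 ≤ p := by rw [hpdef]; positivity
  have hpW : (W.card : ℝ) ≤ p * Fintype.card Λ := by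
    rw [hpdef, div_mul_cancel₀ _ hL.ne']
  have hpr : p * r ≤ m := by
    rw [hpdef, div_mul_eq_mul_div, div_le_iff₀ hL]
    exact hp
  have he1 : 1 ≤ Real.exp 1 := Real.one_le_exp (by norm_num)
  have he3 : Real.exp 1 - 1 ≤ 2 := by
    have := Real.exp_one_lt_three
    linarith
  have hst := stop_exp hstop R hcard W p (Real.exp 1) he1 hpW
  rw [show Fintype.card V = V.card from Fintype.card_coe V] at hst
  set B := univ.filter fun c : V → Λ => thr g m h t (j + 1) <
      lab A h b W (extLab V c) (j + 1) with hB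
  have h1 : (B.card : ℝ) * Real.exp (thr g m h t (j + 1)) ≤
      ∑ c : V → Λ, (Real.exp 1) ^ ((Φ c).filter fun v => c v ∈ W).card := by
    calc (B.card : ℝ) * Real.exp (thr g m h t (j + 1))
        = ∑ _c ∈ B, Real.exp (thr g m h t (j + 1)) := by rw [Finset.sum_const, nsmul_eq_mul]
      _ ≤ ∑ c ∈ B, (Real.exp 1) ^ ((Φ c).filter fun v => c v ∈ W).card := by
          apply Finset.sum_le_sum
          intro c hc
          rw [← Real.exp_nat_mul, mul_one]
          apply Real.exp_le_exp.2
          have h3 : thr g m h t (j + 1) ≤ ((Φ c).filter fun v => c v ∈ W).card :=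
            ((Finset.mem_filter.1 hc).2.le).trans (hlab c)
          exact_mod_cast h3
      _ ≤ ∑ c : V → Λ, (Real.exp 1) ^ ((Φ c).filter fun v => c v ∈ W).card := by
          apply Finset.sum_le_sum_of_subset_of_nonneg (Finset.subset_univ _)
          intro c _ _
          positivity
  have h2 : (1 + p * (Real.exp 1 - 1)) ^ R ≤ Real.exp (4 * (j + 1) * m * P) := by
    have e1 : 1 + p * (Real.exp 1 - 1) ≤ Real.exp (2 * p) := by
      have h5 := Real.add_one_le_exp (2 * p)
      have h6 : p * (Real.exp 1 - 1) ≤ p * 2 := mul_le_mul_of_nonneg_left he3 hp0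
      linarith
    have e0 : 0 ≤ 1 + p * (Real.exp 1 - 1) := by
      have := mul_nonneg hp0 (sub_nonneg.2 he1)
      linarith
    calc (1 + p * (Real.exp 1 - 1)) ^ R ≤ (Real.exp (2 * p)) ^ R := pow_le_pow_left₀ e0 e1 R
      _ = Real.exp (R * (2 * p)) := by rw [← Real.exp_nat_mul]
      _ ≤ Real.exp (4 * (j + 1) * m * P) := by
          apply Real.exp_le_exp.2
          rw [hR]
          push_cast
          have h7 : (4 * (j + 1) * P) * (p * r) ≤ (4 * ((j : ℝ) + 1) * P) * m :=
            mul_le_mul_of_nonneg_left hpr (by positivity)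
          calc ((j : ℝ) + 1) * (P * (2 * r)) * (2 * p) = (4 * (j + 1) * P) * (p * r) := by ring
            _ ≤ (4 * ((j : ℝ) + 1) * P) * m := h7
            _ = 4 * (j + 1) * m * P := by ring
  have h3 : (4 * ((j : ℝ) + 1) * m * P) - (thr g m h t (j + 1) : ℕ) ≤ -(t * m : ℝ) := by
    have e1 : ((thr g m h t (j + 1) : ℕ) : ℝ) = 8 * (j + 1) * t * m * P := by
      show ((8 * (j + 1) * t * m * (thr g m h t j / h + g) ^ j : ℕ) : ℝ) = _
      rw [hP, hb]
      push_cast
      ring
    rw [e1]
    have ht1 : (1 : ℝ) ≤ t := by exact_mod_cast ht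
    have hP1' : (1 : ℝ) ≤ P := by exact_mod_cast hP1
    have hm0 : (0 : ℝ) ≤ m := Nat.cast_nonneg _
    have hj0 : (0 : ℝ) ≤ j := Nat.cast_nonneg _
    have e2 : (m : ℝ) * 1 ≤ m * P := mul_le_mul_of_nonneg_left hP1' hm0
    have e3 : (1 : ℝ) * (m * P) ≤ t * (m * P) := mul_le_mul_of_nonneg_right ht1 (by positivity)
    have e4 : (t : ℝ) * (m * 1) ≤ t * (m * P) := mul_le_mul_of_nonneg_left e2 (by positivity)
    have e5 : 4 * ((j : ℝ) + 1) * (1 * (m * P)) ≤ 4 * (j + 1) * (t * (m * P)) :=
      mul_le_mul_of_nonneg_left e3 (by positivity)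
    have e6 : 1 * (t * (m * P)) ≤ 4 * ((j : ℝ) + 1) * (t * (m * P)) :=
      mul_le_mul_of_nonneg_right (by linarith) (by positivity)
    nlinarith
  have h4 : (B.card : ℝ) * Real.exp (thr g m h t (j + 1)) ≤
      Real.exp (4 * (j + 1) * m * P) * (Fintype.card Λ : ℝ) ^ V.card :=
    h1.trans (hst.trans (mul_le_mul_of_nonneg_right h2 (by positivity)))
  have h5 : (B.card : ℝ) ≤ Real.exp (4 * ((j : ℝ) + 1) * m * P - (thr g m h t (j + 1) : ℕ)) *
      (Fintype.card Λ : ℝ) ^ V.card := by
    rw [Real.exp_sub, div_mul_eq_mul_div, le_div_iff₀ (Real.exp_pos _)]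
    exact h4
  exact h5.trans (mul_le_mul_of_nonneg_right (Real.exp_le_exp.2 h3) (by positivity))

/-! ### VP4: the tail of one level and of one scale -/
theorem scale_tail {Λ : Type} [DecidableEq Λ] [Fintype Λ] [Nonempty Λ]
    {A : ℕ → Finset ℕ → Finset ℕ} {V : Finset ℕ} (hA : ∀ j Z, A j Z ⊆ V) (s g r m h t : ℕ)
    (hg : 1 ≤ g) (hm : 1 ≤ m) (hh : 1 ≤ h) (hhm : h ≤ m) (ht : 1 ≤ t) (W : Finset Λ)
    (hW : W.card ≤ g) (hp : (W.card : ℝ) * r ≤ m * Fintype.card Λ)
    (hA2 : ∀ j < s, ∀ Z : Finset ℕ, Z.card ≤ s * h → (A j Z).card ≤ 2 * r) :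
    ((univ.filter fun c : V → Λ => ¬ ∀ j ≤ s,
      lab A h V.card W (extLab V c) j ≤ thr g m h t j).card : ℝ) ≤
      s * Real.exp (-(t * m : ℝ)) * (Fintype.card Λ : ℝ) ^ V.card := by
  classical
  have hsub : (univ.filter fun c : V → Λ => ¬ ∀ j ≤ s,
      lab A h V.card W (extLab V c) j ≤ thr g m h t j) ⊆
      (range s).biUnion fun j => univ.filter fun c : V → Λ => thr g m h t (j + 1) <
        lab A h (thr g m h t j) W (extLab V c) (j + 1) := by
    intro c hc
    have hc1 := (mem_filter.1 hc).2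
    have hex : ∃ j, j ≤ s ∧ thr g m h t j < lab A h V.card W (extLab V c) j := by
      push Not at hc1
      exact hc1
    set j := Nat.find hex with hj
    obtain ⟨hjs, hjl⟩ := Nat.find_spec hex
    have hmin : ∀ i < j, lab A h V.card W (extLab V c) i ≤ thr g m h t i := by
      intro i hi
      have h1 := Nat.find_min hex hi
      push Not at h1
      exact h1 (by omega)
    rw [← hj] at hjs hjl
    rcases Nat.eq_zero_or_pos j with h0 | hpos
    · rw [h0, lab_zero4] at hjl
      exact absurd hjl (Nat.not_lt_zero _)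
    · obtain ⟨i, hi⟩ : ∃ i, j = i + 1 := ⟨j - 1, by omega⟩
      rw [hi] at hjs hjl hmin
      refine mem_biUnion.2 ⟨i, mem_range.2 (by omega), mem_filter.2 ⟨mem_univ _, ?_⟩⟩
      have h1 : lab A h V.card W (extLab V c) i ≤ V.card :=
        (card_filter_le _ _).trans (card_le_card (expo_subset hA i))
      obtain ⟨h2, h3⟩ := agree4 (b' := thr g m h t i) i h1 (hmin i (Nat.lt_succ_self i))
      have h4 : expo A h (thr g m h t i) W (extLab V c) (i + 1) =
          expo A h V.card W (extLab V c) (i + 1) := by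
        rw [expo_succ, expo_succ, h2, h3]
      have h5 : lab A h (thr g m h t i) W (extLab V c) (i + 1) =
          lab A h V.card W (extLab V c) (i + 1) := by
        unfold lab
        rw [h4]
      rw [h5]
      exact hjl
  calc ((univ.filter fun c : V → Λ => ¬ ∀ j ≤ s,
      lab A h V.card W (extLab V c) j ≤ thr g m h t j).card : ℝ)
      ≤ (((range s).biUnion fun j => univ.filter fun c : V → Λ => thr g m h t (j + 1) <
        lab A h (thr g m h t j) W (extLab V c) (j + 1)).card : ℝ) := by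
        exact_mod_cast card_le_card hsub
    _ ≤ ∑ j ∈ range s, ((univ.filter fun c : V → Λ => thr g m h t (j + 1) <
        lab A h (thr g m h t j) W (extLab V c) (j + 1)).card : ℝ) := by
        exact_mod_cast card_biUnion_le
    _ ≤ ∑ _j ∈ range s, Real.exp (-(t * m : ℝ)) * (Fintype.card Λ : ℝ) ^ V.card :=
        sum_le_sum fun j hj => level_tail hA s g r m h t hg hh ht W hW hp hA2 j (mem_range.1 hj)
    _ = s * Real.exp (-(t * m : ℝ)) * (Fintype.card Λ : ℝ) ^ V.card := by
        rw [sum_const, card_range, nsmul_eq_mul, mul_assoc]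

end VP4

end LocTr
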