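import Mathlib

/-!
MP_a8cb64_co, Theorem S without the logarithm (helper72): module VP5 `multi_scale` (helper94).
-/

namespace LocTr

open Finset

theorem multi_scale_aux (D : ℕ) (m : ℝ) (hm : 2 ≤ m) (t : ℕ) :
    ((t : ℝ) + 2) ^ D * Real.exp (-(((t + 1 : ℕ) : ℝ) * m)) ≤
      D.factorial * Real.exp 2 * Real.exp (-m) * (1 / 2) ^ t := by
  have h1 : ((t : ℝ) + 2) ^ D ≤ D.factorial * Real.exp (t + 2) := by
    have h := Real.pow_div_factorial_le_exp ((t : ℝ) + 2) (by positivity) D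
    rw [div_le_iff₀ (by exact_mod_cast Nat.factorial_pos D)] at h
    linarith
  have h2 : Real.exp (-1) ≤ 1 / 2 := by
    rw [Real.exp_neg, ← one_div]
    have : (2 : ℝ) ≤ Real.exp 1 := by
      have := Real.add_one_le_exp (1 : ℝ)
      linarith
    exact one_div_le_one_div_of_le (by norm_num) this
  have h3 : Real.exp ((t : ℝ) + 2) * Real.exp (-(((t + 1 : ℕ) : ℝ) * m)) ≤
      Real.exp 2 * Real.exp (-m) * (1 / 2) ^ t := by
    have h4 : Real.exp ((t : ℝ) + 2) * Real.exp (-(((t + 1 : ℕ) : ℝ) * m)) =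
        Real.exp 2 * Real.exp (-m) * Real.exp (t * (1 - m)) := by
      rw [← Real.exp_add, ← Real.exp_add, ← Real.exp_add]
      congr 1
      push_cast
      ring
    rw [h4]
    refine mul_le_mul_of_nonneg_left ?_ (by positivity)
    calc Real.exp (t * (1 - m)) = Real.exp (1 - m) ^ t := by rw [Real.exp_nat_mul]
      _ ≤ (1 / 2) ^ t := by
          refine pow_le_pow_left₀ (Real.exp_pos _).le ?_ t
          exact (Real.exp_le_exp.2 (by linarith)).trans h2
  calc ((t : ℝ) + 2) ^ D * Real.exp (-(((t + 1 : ℕ) : ℝ) * m))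
      ≤ (D.factorial * Real.exp (t + 2)) * Real.exp (-(((t + 1 : ℕ) : ℝ) * m)) :=
        mul_le_mul_of_nonneg_right h1 (Real.exp_pos _).le
    _ = D.factorial * (Real.exp ((t : ℝ) + 2) * Real.exp (-(((t + 1 : ℕ) : ℝ) * m))) := by ring
    _ ≤ D.factorial * (Real.exp 2 * Real.exp (-m) * (1 / 2) ^ t) :=
        mul_le_mul_of_nonneg_left h3 (by positivity)
    _ = D.factorial * Real.exp 2 * Real.exp (-m) * (1 / 2) ^ t := by ring

/-- VP5: summation over the scales. -/
theorem multi_scale {Ω : Type*} [Fintype Ω] [DecidableEq Ω] (N : Ω → ℝ) (B : Finset Ω)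
    (G : ℕ → Finset Ω) (K D s : ℕ) (m : ℝ) (hm : 2 ≤ m)
    (hN : ∀ t, 1 ≤ t → ∀ c ∈ G t, N c ≤ K * (t : ℝ) ^ D)
    (hG : ∀ t : ℕ, 1 ≤ t →
      (((univ : Finset Ω) \ G t).card : ℝ) ≤ s * Real.exp (-(t * m)) * Fintype.card Ω)
    (ht0 : ∃ t0, 1 ≤ t0 ∧ G t0 = univ) :
    ∑ c ∈ B, N c ≤ K * B.card +
      K * s * (2 * D.factorial * Real.exp 2) * Real.exp (-m) * Fintype.card Ω := by
  classical
  obtain ⟨t0, ht0, hGt0⟩ := ht0
  have hK : (0 : ℝ) ≤ K := Nat.cast_nonneg _
  have hs : (0 : ℝ) ≤ s := Nat.cast_nonneg _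
  -- pointwise bound
  have hpt : ∀ c ∈ B, N c ≤ K + ∑ t ∈ range t0,
      if c ∈ (univ : Finset Ω) \ G (t + 1) then (K : ℝ) * ((t : ℝ) + 2) ^ D else 0 := by
    intro c _
    have hex : ∃ t, 1 ≤ t ∧ c ∈ G t := ⟨t0, ht0, by rw [hGt0]; exact mem_univ c⟩
    have hspec := Nat.find_spec hex
    have hmin : ∀ t, t < Nat.find hex → ¬ (1 ≤ t ∧ c ∈ G t) := fun t ht => Nat.find_min hex ht
    have hle : Nat.find hex ≤ t0 := Nat.find_min' hex ⟨ht0, by rw [hGt0]; exact mem_univ c⟩
    set u : ℕ := Nat.find hex with hu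
    have hnn : ∀ t ∈ range t0, (0 : ℝ) ≤
        if c ∈ (univ : Finset Ω) \ G (t + 1) then (K : ℝ) * ((t : ℝ) + 2) ^ D else 0 := by
      intro t _
      split_ifs
      · positivity
      · exact le_rfl
    rcases Nat.lt_or_ge 1 u with h1 | h1
    · -- `u ≥ 2`
      have h2 : u - 2 ∈ range t0 := mem_range.2 (by omega)
      have h3 : c ∈ (univ : Finset Ω) \ G (u - 2 + 1) := by
        rw [mem_sdiff]
        refine ⟨mem_univ c, fun hc => ?_⟩
        exact hmin (u - 2 + 1) (by omega) ⟨by omega, hc⟩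
      have h4 := single_le_sum hnn h2
      rw [if_pos h3] at h4
      have h5 := hN u hspec.1 c hspec.2
      have h6 : ((u - 2 : ℕ) : ℝ) + 2 = u := by
        have : ((u - 2 + 2 : ℕ) : ℝ) = u := by
          congr 1
          omega
        push_cast at this
        exact this
      rw [h6] at h4
      linarith
    · have h2 : u = 1 := by omega
      have h5 := hN u hspec.1 c hspec.2
      rw [h2] at h5
      simp only [Nat.cast_one, one_pow, mul_one] at h5
      have := sum_nonneg hnn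
      linarith
  have hsum : ∑ c ∈ B, N c ≤ K * B.card + ∑ t ∈ range t0,
      (K : ℝ) * ((t : ℝ) + 2) ^ D * (((univ : Finset Ω) \ G (t + 1)).card : ℝ) := by
    calc ∑ c ∈ B, N c ≤ ∑ c ∈ B, (K + ∑ t ∈ range t0,
          if c ∈ (univ : Finset Ω) \ G (t + 1) then (K : ℝ) * ((t : ℝ) + 2) ^ D else 0) :=
          sum_le_sum hpt
      _ = K * B.card + ∑ t ∈ range t0, ∑ c ∈ B,
          (if c ∈ (univ : Finset Ω) \ G (t + 1) then (K : ℝ) * ((t : ℝ) + 2) ^ D else 0) := by
          rw [sum_add_distrib, sum_comm, sum_const, nsmul_eq_mul, mul_comm (B.card : ℝ)]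
      _ ≤ _ := by
          refine add_le_add_right (sum_le_sum fun t _ => ?_) _
          rw [← sum_filter, sum_const, nsmul_eq_mul, mul_comm]
          refine mul_le_mul_of_nonneg_left ?_ (by positivity)
          have : (B.filter fun c => c ∈ (univ : Finset Ω) \ G (t + 1)) ⊆
              (univ : Finset Ω) \ G (t + 1) := fun c hc => (mem_filter.1 hc).2
          exact_mod_cast card_le_card this
  refine hsum.trans (add_le_add_right ?_ _)
  calc ∑ t ∈ range t0, (K : ℝ) * ((t : ℝ) + 2) ^ D * (((univ : Finset Ω) \ G (t + 1)).card : ℝ)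
      ≤ ∑ t ∈ range t0, (K : ℝ) * s * Fintype.card Ω *
          (D.factorial * Real.exp 2 * Real.exp (-m) * (1 / 2) ^ t) := by
        refine sum_le_sum fun t _ => ?_
        have h1 := hG (t + 1) (by omega)
        calc (K : ℝ) * ((t : ℝ) + 2) ^ D * (((univ : Finset Ω) \ G (t + 1)).card : ℝ)
            ≤ (K : ℝ) * ((t : ℝ) + 2) ^ D *
              (s * Real.exp (-(((t + 1 : ℕ) : ℝ) * m)) * Fintype.card Ω) :=
              mul_le_mul_of_nonneg_left h1 (by positivity)
          _ = (K : ℝ) * s * Fintype.card Ω *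
              (((t : ℝ) + 2) ^ D * Real.exp (-(((t + 1 : ℕ) : ℝ) * m))) := by ring
          _ ≤ _ := mul_le_mul_of_nonneg_left (multi_scale_aux D m hm t) (by positivity)
    _ = (K : ℝ) * s * Fintype.card Ω * (D.factorial * Real.exp 2 * Real.exp (-m)) *
          ∑ t ∈ range t0, (1 / 2 : ℝ) ^ t := by
        rw [mul_sum]
        refine sum_congr rfl fun t _ => by ring
    _ ≤ (K : ℝ) * s * Fintype.card Ω * (D.factorial * Real.exp 2 * Real.exp (-m)) * 2 :=
        mul_le_mul_of_nonneg_left (sum_geometric_two_le t0) (by positivity)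
    _ = K * s * (2 * D.factorial * Real.exp 2) * Real.exp (-m) * Fintype.card Ω := by ring

end LocTr
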