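import Pool.Agent.Work.MP_a8cb64_co.VDefs
import Pool.Agent.Work.MP_a8cb64_co.UP1
import Pool.Agent.Work.MP_a8cb64_co.UP2
import Pool.Agent.Work.MP_a8cb64_co.TM3
import Pool.Agent.Work.MP_a8cb64_co.VP2
import Pool.Agent.Work.MP_a8cb64_co.VP3
import Pool.Agent.Work.MP_a8cb64_co.VP4
import Pool.Agent.Work.MP_a8cb64_co.VP5

/-!
MP_a8cb64_co, Theorem S without the logarithm (helper72): module VP5b (helper49), the expected number
of leaves of the bad blocks.
-/

namespace LocTr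

open Finset

section VP5b

variable {Λ : Type} [DecidableEq Λ] [Fintype Λ] [Nonempty Λ]

/-- the number of labellings which are bad for the block `W` -/
theorem bad_count (A : ℕ → Finset ℕ → Finset ℕ) (V : Finset ℕ) (hA : ∀ j Z, A j Z ⊆ V) (s h : ℕ)
    (r m ρ : ℝ) (hr : 0 < r) (hm : 0 ≤ m) (hρ : 0 < ρ) (hρ1 : ρ ≤ 1 / 20) (W : Finset Λ)
    (hR : ∀ (c : ℕ → Λ), ∀ j ≤ s,
      ((expo A h ⌊(1 - ρ) * m⌋₊ W c j).card : ℝ) ≤ (1 + ρ) * r)
    (hp : (W.card : ℝ) * ((1 + 5 * ρ) * r) ≤ m * Fintype.card Λ) :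
    ((univ.filter fun c : V → Λ => ¬ ∀ j ≤ s,
      lab A h ⌊(1 - ρ) * m⌋₊ W (extLab V c) j ≤ ⌊(1 - ρ) * m⌋₊).card : ℝ) ≤
      (s + 1) * Real.exp (-(ρ ^ 2 * m / 2)) * (Fintype.card Λ : ℝ) ^ V.card := by
  classical
  set b : ℕ := ⌊(1 - ρ) * m⌋₊ with hb
  set Φ : ℕ → (V → Λ) → Finset V := fun j c =>
    (expo A h b W (extLab V c) j).subtype (· ∈ V) with hΦ
  have hmem : ∀ (j : ℕ) (c : V → Λ) (v : V), v ∈ Φ j c ↔
      (v : ℕ) ∈ expo A h b W (extLab V c) j := by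
    intro j c v
    simp only [hΦ, mem_subtype]
  have hstop : ∀ j, IsStop (Φ j) := by
    intro j c c' hcc
    have h1 : expo A h b W (extLab V c') j = expo A h b W (extLab V c) j := by
      refine expo_stop j fun v hv => ?_
      have hvV : v ∈ V := expo_subset hA j hv
      rw [extLab_mem V c' hvV, extLab_mem V c hvV]
      exact hcc ⟨v, hvV⟩ ((hmem _ _ _).2 hv)
    simp only [hΦ, h1]
  have hcard : ∀ j ≤ s, ∀ c, ((Φ j c).card : ℝ) ≤ (1 + ρ) * r := by
    intro j hj c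
    refine le_trans ?_ (hR (extLab V c) j hj)
    simp only [hΦ, card_subtype]
    exact_mod_cast card_le_card (filter_subset _ _)
  have hlab : ∀ (j : ℕ) (c : V → Λ), lab A h b W (extLab V c) j ≤
      ((Φ j c).filter fun v => c v ∈ W).card := by
    intro j c
    have h2 : ((expo A h b W (extLab V c) j).filter fun v => extLab V c v ∈ W) ⊆
        ((Φ j c).filter fun v => c v ∈ W).image Subtype.val := by
      intro v hv
      rw [mem_filter] at hv
      have hvV : v ∈ V := expo_subset hA j hv.1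
      refine mem_image.2 ⟨⟨v, hvV⟩, mem_filter.2 ⟨(hmem _ _ _).2 hv.1, ?_⟩, rfl⟩
      rw [← extLab_mem V c hvV]
      exact hv.2
    exact (card_le_card h2).trans card_image_le
  have hsub : (univ.filter fun c : V → Λ => ¬ ∀ j ≤ s, lab A h b W (extLab V c) j ≤ b) ⊆
      (range (s + 1)).biUnion fun j => univ.filter fun c : V → Λ =>
        (1 - ρ) * m < (((Φ j c).filter fun v => c v ∈ W).card : ℝ) := by
    intro c hc
    obtain ⟨j, hj, hc'⟩ : ∃ j ≤ s, b < lab A h b W (extLab V c) j := by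
      have h1 := (mem_filter.1 hc).2
      push Not at h1
      exact h1
    refine mem_biUnion.2 ⟨j, mem_range.2 (Nat.lt_succ_of_le hj), mem_filter.2 ⟨mem_univ _, ?_⟩⟩
    exact Nat.lt_of_floor_lt (hc'.trans_le (hlab j c))
  have h1 := (card_le_card hsub).trans card_biUnion_le
  have h2 : ∑ j ∈ range (s + 1), ((univ.filter fun c : V → Λ =>
        (1 - ρ) * m < (((Φ j c).filter fun v => c v ∈ W).card : ℝ)).card : ℝ) ≤
      (range (s + 1)).card • (Real.exp (-(ρ ^ 2 * m / 2)) *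
        (Fintype.card Λ : ℝ) ^ Fintype.card V) :=
    sum_le_card_nsmul _ _ _ fun j hj => stop_tail (hstop j) r m ρ hr hm hρ hρ1
      (hcard j (Nat.le_of_lt_succ (mem_range.1 hj))) W hp
  rw [card_range, nsmul_eq_mul, Fintype.card_coe, ← mul_assoc] at h2
  push_cast at h2
  refine le_trans ?_ h2
  exact_mod_cast h1

omit [Fintype Λ] [Nonempty Λ] in
/-- few leaves at the scale `t` -/
theorem leaves_le (A : ℕ → Finset ℕ → Finset ℕ) (V : Finset ℕ) (hA : ∀ j Z, A j Z ⊆ V)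
    (s g m h t : ℕ) (hg : 1 ≤ g) (ht : 1 ≤ t) (hh : 1 ≤ h) (hhm : h ≤ m) (W : Finset Λ)
    (hW : W.card ≤ g) (c : ℕ → Λ) (hc : ∀ j ≤ s, lab A h V.card W c j ≤ thr g m h t j) :
    (nodes A h V.card W c s).card ≤ (thr g m h t s / h + g) ^ s := by
  set b : ℕ := min (thr g m h t s) V.card with hb
  have h1 : ∀ i ≤ s, lab A h V.card W c i ≤ b := by
    intro i hi
    refine le_min ((hc i hi).trans (thr_mono g m h t hg ht hh hhm hi)) ?_
    exact card_le_card ((filter_subset _ _).trans (expo_subset hA i))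
  rw [← (trunc_agree (min_le_right _ _) s h1).1]
  refine (nodes_count hh s).trans (Nat.pow_le_pow_left ?_ s)
  exact Nat.add_le_add (Nat.div_le_div_right (min_le_left _ _)) hW

end VP5b

/-- the expected number of leaves of the bad blocks -/
theorem bad_cost (s g : ℕ) (hs : 1 ≤ s) (hg : 1 ≤ g) (ρ ρ' : ℝ) (hρ : 0 < ρ) (hρ1 : ρ ≤ 1 / 20)
    (hρ' : 0 < ρ') : ∃ C : ℝ, 0 < C ∧ ∀ {Λ : Type} [DecidableEq Λ] [Fintype Λ] [Nonempty Λ]
      (A : ℕ → Finset ℕ → Finset ℕ) (V : Finset ℕ) (r m h : ℕ) (W : Finset Λ), C ≤ m → 1 ≤ r →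
      (∀ j Z, A j Z ⊆ V) → 1 ≤ h → h ≤ m → m ≤ 8 * s * h → W.card ≤ g →
      (W.card : ℝ) * ((1 + 5 * ρ) * r) ≤ m * Fintype.card Λ →
      (∀ j < s, ∀ Z : Finset ℕ, Z.card ≤ s * h → (A j Z).card ≤ 2 * r) →
      (∀ (c : ℕ → Λ), ∀ j ≤ s,
        ((expo A h ⌊(1 - ρ) * m⌋₊ W c j).card : ℝ) ≤ (1 + ρ) * r) →
      (∑ c : V → Λ, if ∀ j ≤ s,
          lab A h ⌊(1 - ρ) * m⌋₊ W (extLab V c) j ≤ ⌊(1 - ρ) * m⌋₊ then (0 : ℝ)
        else ((nodes A h V.card W (extLab V c) s).card : ℝ)) ≤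
        ρ' * (Fintype.card Λ : ℝ) ^ V.card := by
  obtain ⟨K, D, hKD⟩ := thr_growth s g
  set Q : ℝ := K * s * (2 * D.factorial * Real.exp 2) with hQ
  have hQ0 : 0 ≤ Q := by positivity
  set C : ℝ := 4 * (K * (s + 1)) / (ρ ^ 2 * ρ') + 2 * Q / ρ' + 2 with hC
  have hC1 : 0 ≤ 4 * (K * (s + 1)) / (ρ ^ 2 * ρ') := by positivity
  have hC2 : 0 ≤ 2 * Q / ρ' := by positivity
  refine ⟨C, by linarith, ?_⟩
  intro Λ _ _ _ A V r m h W hCm hr hA hh hhm hmh hW hp hA2 hR
  classical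
  have hm2 : (2 : ℝ) ≤ m := by linarith
  have hm0 : (0 : ℝ) < m := by linarith
  have hm1 : 1 ≤ m := by
    have : (1 : ℝ) ≤ m := by linarith
    exact_mod_cast this
  have hr1 : (1 : ℝ) ≤ r := by exact_mod_cast hr
  have hΩ : (Fintype.card (V → Λ) : ℝ) = (Fintype.card Λ : ℝ) ^ V.card := by
    rw [Fintype.card_fun, Fintype.card_coe]
    push_cast
    rfl
  set b : ℕ := ⌊(1 - ρ) * (m : ℝ)⌋₊ with hb
  set B : Finset (V → Λ) := univ.filter fun c : V → Λ => ¬ ∀ j ≤ s,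
      lab A h b W (extLab V c) j ≤ b with hB
  set G : ℕ → Finset (V → Λ) := fun t => univ.filter fun c : V → Λ => ∀ j ≤ s,
      lab A h V.card W (extLab V c) j ≤ thr g m h t j with hG
  have hsum : (∑ c : V → Λ, if ∀ j ≤ s, lab A h b W (extLab V c) j ≤ b then (0 : ℝ)
        else ((nodes A h V.card W (extLab V c) s).card : ℝ)) =
      ∑ c ∈ B, ((nodes A h V.card W (extLab V c) s).card : ℝ) := by
    rw [hB, sum_filter]
    refine sum_congr rfl fun c _ => ?_
    by_cases h1 : ∀ j ≤ s, lab A h b W (extLab V c) j ≤ b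
    · rw [if_pos h1, if_neg (not_not.2 h1)]
    · rw [if_neg h1, if_pos h1]
  rw [hsum]
  have hpr : (W.card : ℝ) * r ≤ m * Fintype.card Λ := by
    refine le_trans ?_ hp
    have h1 : (0 : ℝ) ≤ W.card := Nat.cast_nonneg _
    refine mul_le_mul_of_nonneg_left ?_ h1
    have h2 : 0 ≤ 5 * ρ * r := by positivity
    linarith
  have hms := multi_scale (fun c : V → Λ => ((nodes A h V.card W (extLab V c) s).card : ℝ)) B G
    K D s (m : ℝ) hm2 ?_ ?_ ?_
  · have h1 := bad_count A V hA s h (r : ℝ) (m : ℝ) ρ (by linarith) hm0.le hρ hρ1 W hR hp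
    rw [← hb, ← hB] at h1
    have hL : (0 : ℝ) ≤ (Fintype.card Λ : ℝ) ^ V.card := by positivity
    have hexp : ∀ x : ℝ, 0 < x → Real.exp (-x) ≤ 1 / x := by
      intro x hx
      rw [Real.exp_neg, ← one_div]
      refine one_div_le_one_div_of_le hx ?_
      have := Real.add_one_le_exp x
      linarith
    have h2 : K * ((s + 1) * Real.exp (-(ρ ^ 2 * m / 2))) ≤ ρ' / 2 := by
      have h3 := hexp (ρ ^ 2 * m / 2) (by positivity)
      have h4 : 4 * (K * (s + 1)) / (ρ ^ 2 * ρ') ≤ m := by linarith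
      rw [div_le_iff₀ (by positivity)] at h4
      calc K * ((s + 1) * Real.exp (-(ρ ^ 2 * m / 2)))
          ≤ K * ((s + 1) * (1 / (ρ ^ 2 * m / 2))) := by gcongr
        _ = (4 * (K * (s + 1))) / (2 * (ρ ^ 2 * m)) := by field_simp; ring
        _ ≤ (m * (ρ ^ 2 * ρ')) / (2 * (ρ ^ 2 * m)) := by gcongr
        _ = ρ' / 2 := by field_simp
    have h5 : Q * Real.exp (-(m : ℝ)) ≤ ρ' / 2 := by
      have h3 := hexp m hm0
      have h4 : 2 * Q / ρ' ≤ m := by linarith
      rw [div_le_iff₀ hρ'] at h4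
      calc Q * Real.exp (-(m : ℝ)) ≤ Q * (1 / m) := by gcongr
        _ = (2 * Q) / (2 * m) := by field_simp
        _ ≤ (m * ρ') / (2 * m) := by gcongr
        _ = ρ' / 2 := by field_simp
    calc ∑ c ∈ B, ((nodes A h V.card W (extLab V c) s).card : ℝ)
        ≤ K * B.card + Q * Real.exp (-(m : ℝ)) * (Fintype.card Λ : ℝ) ^ V.card := by
          rw [← hΩ]; exact hms
      _ ≤ K * ((s + 1) * Real.exp (-(ρ ^ 2 * m / 2)) * (Fintype.card Λ : ℝ) ^ V.card) +
          ρ' / 2 * (Fintype.card Λ : ℝ) ^ V.card := by gcongr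
      _ = K * ((s + 1) * Real.exp (-(ρ ^ 2 * m / 2))) * (Fintype.card Λ : ℝ) ^ V.card +
          ρ' / 2 * (Fintype.card Λ : ℝ) ^ V.card := by ring
      _ ≤ ρ' / 2 * (Fintype.card Λ : ℝ) ^ V.card +
          ρ' / 2 * (Fintype.card Λ : ℝ) ^ V.card := by gcongr
      _ = ρ' * (Fintype.card Λ : ℝ) ^ V.card := by ring
  · intro t ht c hc
    have h1 := leaves_le A V hA s g m h t hg ht hh hhm W hW (extLab V c) (mem_filter.1 hc).2
    have h2 := h1.trans (hKD m h t hh hmh ht)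
    exact_mod_cast h2
  · intro t ht
    have h1 := scale_tail hA s g r m h t hg hm1 hh hhm ht W hW hpr hA2
    rw [hΩ]
    refine le_trans ?_ h1
    have h2 : (univ : Finset (V → Λ)) \ G t ⊆ univ.filter fun c : V → Λ => ¬ ∀ j ≤ s,
        lab A h V.card W (extLab V c) j ≤ thr g m h t j := by
      intro c hc
      rw [mem_sdiff, hG, mem_filter] at hc
      exact mem_filter.2 ⟨mem_univ _, fun h3 => hc.2 ⟨mem_univ _, h3⟩⟩
    exact_mod_cast card_le_card h2
  · refine ⟨V.card + 1, by omega, ?_⟩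
    rw [hG]
    refine filter_true_of_mem fun c _ j _ => ?_
    refine le_trans ?_ (le_thr g m h (V.card + 1) hg j)
    have h1 : lab A h V.card W (extLab V c) j ≤ V.card :=
      card_le_card ((filter_subset _ _).trans (expo_subset hA j))
    calc lab A h V.card W (extLab V c) j ≤ V.card := h1
      _ ≤ (V.card + 1) * 1 := by omega
      _ ≤ (V.card + 1) * m := Nat.mul_le_mul_left _ hm1

end LocTr
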