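import Pool.Agent.Work.MP_a8cb64_co.LM4

/-!
MP_a8cb64_co, Theorem D (helper71, note 2363): module D8 (helper23).
Complete `r`-graph on `b + r` points.
-/

namespace LocTr

open Finset

theorem desc_ratio8 (b r : ℕ) : ∀ s : ℕ,
    b.descFactorial s * (b + r) ^ s ≤ (b + r).descFactorial s * b ^ s
  | 0 => by simp
  | s + 1 => by
    have ih := desc_ratio8 b r s
    rw [Nat.descFactorial_succ, Nat.descFactorial_succ, pow_succ, pow_succ]
    have h1 : (b - s) * (b + r) ≤ (b + r - s) * b := by
      rcases Nat.lt_or_ge b s with h | h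
      · rw [Nat.sub_eq_zero_of_le h.le, Nat.zero_mul]
        exact Nat.zero_le _
      · obtain ⟨t, rfl⟩ := Nat.exists_eq_add_of_le h
        have h2 : s + t - s = t := by omega
        have h3 : s + t + r - s = t + r := by omega
        rw [h2, h3]
        nlinarith [Nat.zero_le (r * s), Nat.zero_le (r * t)]
    calc (b - s) * b.descFactorial s * ((b + r) ^ s * (b + r))
        = (b.descFactorial s * (b + r) ^ s) * ((b - s) * (b + r)) := by ring
      _ ≤ ((b + r).descFactorial s * b ^ s) * ((b + r - s) * b) := Nat.mul_le_mul ih h1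
      _ = _ := by ring

theorem choose_ratio (b r s : ℕ) : b.choose s * (b + r) ^ s ≤ (b + r).choose s * b ^ s := by
  have h := desc_ratio8 b r s
  rw [Nat.descFactorial_eq_factorial_mul_choose, Nat.descFactorial_eq_factorial_mul_choose] at h
  have h0 : 0 < s.factorial := Nat.factorial_pos s
  refine Nat.le_of_mul_le_mul_left ?_ h0
  calc s.factorial * (b.choose s * (b + r) ^ s) = s.factorial * b.choose s * (b + r) ^ s := by ring
    _ ≤ s.factorial * (b + r).choose s * b ^ s := h
    _ = _ := by ring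

/-- the complete `r`-graph on `b + r` points. -/
theorem complete_lower (r k s b : ℕ) (hsk : s < k) (hr : 1 ≤ r)
    (hb : s < b + r → k * b.choose s < (b + r).choose s) : b < fval r k s := by
  classical
  refine lt_fval r k s b hsk (powersetCard r (range (b + r))) ?_ ?_ ?_
  · intro e he
    exact (mem_powersetCard.1 he).2
  · intro F hF hFk
    rcases Nat.lt_or_ge s (b + r) with hlt | hge
    · by_contra hcon
      push Not at hcon
      have hsub : powersetCard s (range (b + r)) ⊆
          F.biUnion fun e => powersetCard s (range (b + r) \ e) := by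
        intro S hS
        obtain ⟨hS1, hS2⟩ := mem_powersetCard.1 hS
        have h1 := hcon S hS2.le
        unfold IsTrans at h1
        push Not at h1
        obtain ⟨e, he, hne⟩ := h1
        refine mem_biUnion.2 ⟨e, he, mem_powersetCard.2 ⟨fun x hx => mem_sdiff.2 ⟨hS1 hx, ?_⟩,
          hS2⟩⟩
        intro hxe
        have h2 : x ∈ e ∩ S := mem_inter.2 ⟨hxe, hx⟩
        rw [hne] at h2
        exact notMem_empty _ h2
      have h3 := card_le_card hsub
      rw [card_powersetCard, card_range] at h3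
      have h4 : (F.biUnion fun e => powersetCard s (range (b + r) \ e)).card ≤
          F.card * b.choose s := by
        apply card_biUnion_le_card_mul
        intro e he
        obtain ⟨h5, h6⟩ := mem_powersetCard.1 (hF he)
        rw [card_powersetCard, card_sdiff_of_subset h5, card_range, h6, Nat.add_sub_cancel]
      have h7 := hb hlt
      have h8 : F.card * b.choose s ≤ k * b.choose s := Nat.mul_le_mul_right _ hFk
      omega
    · refine ⟨range (b + r), by rwa [card_range], ?_⟩
      intro e he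
      obtain ⟨h5, h6⟩ := mem_powersetCard.1 (hF he)
      rw [inter_eq_left.2 h5, ← card_pos, h6]
      exact hr
  · intro T hT hTr
    have h1 : r ≤ (range (b + r) \ T).card := by
      have h2 := le_card_sdiff T (range (b + r))
      rw [card_range] at h2
      omega
    obtain ⟨e, he, hec⟩ := exists_subset_card_eq h1
    obtain ⟨x, hx⟩ := hTr e (mem_powersetCard.2 ⟨he.trans sdiff_subset, hec⟩)
    exact (mem_sdiff.1 (he (mem_inter.1 hx).1)).2 (mem_inter.1 hx).2

/-- D8 (file `LD8.lean`).  Complete `r`-graph on `b + r` points, `b = ⌈r k^{-1/s}⌉ - 1`: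
`k C(b,s) < C(b+r,s)`, so some `s`-set is not contained in the complement of any of `k` given
edges (if `b + r ≤ s` take all points). -/
theorem fval_complete (r k s : ℕ) (hs : 1 ≤ s) (hsk : s < k) (hr : 1 ≤ r) :
    (r : ℝ) * (k : ℝ) ^ (-(1 / (s : ℝ))) ≤ (fval r k s : ℝ) := by
  have hk0 : (0 : ℝ) < k := by exact_mod_cast (Nat.zero_le s).trans_lt hsk
  have hr0 : (0 : ℝ) < r := by exact_mod_cast hr
  have hs0 : (0 : ℝ) < s := by exact_mod_cast hs
  set x : ℝ := (k : ℝ) ^ (-(1 / (s : ℝ))) with hx
  have hx0 : 0 < x := Real.rpow_pos_of_pos hk0 _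
  have hxs : (k : ℝ) * x ^ s = 1 := by
    rw [hx, ← Real.rpow_natCast, ← Real.rpow_mul hk0.le]
    have h1 : -(1 / (s : ℝ)) * s = -1 := by field_simp
    rw [h1, Real.rpow_neg_one]
    exact mul_inv_cancel₀ hk0.ne'
  have hpos : 0 < (r : ℝ) * x := by positivity
  set b : ℕ := ⌈(r : ℝ) * x⌉₊ - 1 with hb
  have hceil : 1 ≤ ⌈(r : ℝ) * x⌉₊ := Nat.one_le_iff_ne_zero.2 (Nat.ceil_pos.2 hpos).ne'
  have hb1 : b + 1 = ⌈(r : ℝ) * x⌉₊ := by omega
  have hblt : (b : ℝ) < r * x := by
    rw [← Nat.lt_ceil]; omega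
  have hmain : b < fval r k s := by
    refine complete_lower r k s b hsk hr fun hlt => ?_
    have hC : 0 < (b + r).choose s := Nat.choose_pos hlt.le
    have h1 := choose_ratio b r s
    have h2 : (k : ℝ) * (b : ℝ) ^ s < ((b : ℝ) + r) ^ s := by
      calc (k : ℝ) * (b : ℝ) ^ s < k * (r * x) ^ s := by
            apply mul_lt_mul_of_pos_left _ hk0
            exact pow_lt_pow_left₀ hblt (Nat.cast_nonneg _) (by omega)
        _ = r ^ s * (k * x ^ s) := by rw [mul_pow]; ring
        _ = (r : ℝ) ^ s := by rw [hxs, mul_one]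
        _ ≤ ((b : ℝ) + r) ^ s := by
            apply pow_le_pow_left₀ hr0.le
            have : (0 : ℝ) ≤ b := Nat.cast_nonneg _
            linarith
    have h3 : (b.choose s : ℝ) * ((b : ℝ) + r) ^ s ≤ ((b + r).choose s : ℝ) * (b : ℝ) ^ s := by
      exact_mod_cast h1
    have hC' : (0 : ℝ) < ((b + r).choose s : ℝ) := by exact_mod_cast hC
    have h4 : (0 : ℝ) < ((b : ℝ) + r) ^ s := by positivity
    have h5 : ((k : ℝ) * b.choose s) * ((b : ℝ) + r) ^ s <
        ((b + r).choose s : ℝ) * ((b : ℝ) + r) ^ s := by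
      calc ((k : ℝ) * b.choose s) * ((b : ℝ) + r) ^ s
          = k * ((b.choose s : ℝ) * ((b : ℝ) + r) ^ s) := by ring
        _ ≤ k * (((b + r).choose s : ℝ) * (b : ℝ) ^ s) := by gcongr
        _ = ((b + r).choose s : ℝ) * (k * (b : ℝ) ^ s) := by ring
        _ < ((b + r).choose s : ℝ) * ((b : ℝ) + r) ^ s := mul_lt_mul_of_pos_left h2 hC'
    have h6 := lt_of_mul_lt_mul_right h5 h4.le
    exact_mod_cast h6
  calc (r : ℝ) * x ≤ (⌈(r : ℝ) * x⌉₊ : ℝ) := Nat.le_ceil _
    _ = ((b + 1 : ℕ) : ℝ) := by rw [hb1]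
    _ ≤ (fval r k s : ℝ) := by exact_mod_cast hmain

end LocTr
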