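import Pool.Agent.Work.MP_a8cb64_co.SDefs
import Pool.Agent.Work.MP_a8cb64_co.LD8

/-!
MP_a8cb64_co, Theorem S without the logarithm (note 2521, helper72): module VP7 (helper23): final
assembly for `fval`.
-/

namespace LocTr

open Finset

/-- the combinatorial form of Theorem S: a hypergraph without transversal of `m` points has
`(1+ε) (r/m)^s` edges without transversal of `s` points. -/
def SharpStmtN (s : ℕ) : Prop := ∀ ε : ℝ, 0 < ε → ∃ C : ℝ, 0 < C ∧ ∀ r m : ℕ, C ≤ m → C * m ≤ r →
    ∀ H : Finset (Finset ℕ), (∀ e ∈ H, e.card = r) → NoTr H m →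
    ∃ F ⊆ H, (F.card : ℝ) ≤ (1 + ε) * ((r : ℝ) / m) ^ s ∧
      ∀ X : Finset ℕ, X.card ≤ s → ∃ e ∈ F, Disjoint e X

/-- Theorem S for `fval`, from its combinatorial form. -/
theorem theoremS_nolog_of (s : ℕ) (hs : 1 ≤ s) (hmain : SharpStmtN s) (ε : ℝ) (hε : 0 < ε) :
    ∃ C : ℝ, 0 < C ∧ ∀ k r : ℕ, C ≤ k → C * (k : ℝ) ^ (1 / (s : ℝ)) ≤ r →
      (r : ℝ) / (k : ℝ) ^ (1 / (s : ℝ)) ≤ (fval r k s : ℝ) ∧
        (fval r k s : ℝ) ≤ (1 + ε) * ((r : ℝ) / (k : ℝ) ^ (1 / (s : ℝ))) := by
  obtain ⟨C0, hC0, hmain⟩ := hmain (ε / 2) (by positivity)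
  set C : ℝ := C0 + 2 / ε + (C0 * (1 + ε)) ^ s + s + 3 with hC
  have hCs : (0 : ℝ) ≤ (C0 * (1 + ε)) ^ s := by positivity
  have hs0 : (0 : ℝ) ≤ s := Nat.cast_nonneg _
  have h2ε : (0 : ℝ) < 2 / ε := by positivity
  have hCpos : 0 < C := by rw [hC]; positivity
  refine ⟨C, hCpos, ?_⟩
  intro k r hk hr
  have hkR3 : (3 : ℝ) ≤ k := by
    have : (3 : ℝ) ≤ C := by rw [hC]; linarith
    linarith
  have hkR : (0 : ℝ) < k := by linarith
  have hsk : s < k := by
    have : (s : ℝ) < k := by
      have : (s : ℝ) < C := by rw [hC]; linarith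
      linarith
    exact_mod_cast this
  have hsR : (0 : ℝ) < s := by exact_mod_cast hs
  set q : ℝ := (k : ℝ) ^ (1 / (s : ℝ)) with hq
  have hq0 : 0 < q := Real.rpow_pos_of_pos hkR _
  have hqs : q ^ s = k := by
    rw [hq, ← Real.rpow_natCast, ← Real.rpow_mul hkR.le, one_div_mul_cancel hsR.ne', Real.rpow_one]
  have hq1 : 1 ≤ q := Real.one_le_rpow (by linarith) (by positivity)
  have hqk : q ≤ k := by
    calc q ≤ q ^ s := le_self_pow₀ hq1 (by omega)
      _ = k := hqs
  set y : ℝ := (r : ℝ) / q with hy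
  have hyC' : C ≤ y := by
    rw [hy, le_div_iff₀ hq0]
    exact hr
  have hy0 : 0 < y := lt_of_lt_of_le hCpos hyC'
  have hrpos : (0 : ℝ) < r := by
    have : (r : ℝ) = y * q := by rw [hy]; field_simp
    rw [this]; positivity
  have hr1 : 1 ≤ r := by exact_mod_cast hrpos
  constructor
  · have h8 := fval_complete r k s hs hsk hr1
    refine le_trans (le_of_eq ?_) h8
    rw [Real.rpow_neg hkR.le, ← hq, hy, div_eq_mul_inv]
  · set m : ℕ := ⌊(1 + ε) * y⌋₊ with hm
    have hm1 : (m : ℝ) ≤ (1 + ε) * y := Nat.floor_le (by positivity)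
    have hm2 : (1 + ε) * y < m + 1 := Nat.lt_floor_add_one _
    have hm3 : (1 + ε / 2) * y ≤ m := by
      have : 1 ≤ ε / 2 * y := by
        have h1 : 2 / ε ≤ y := by
          have : 2 / ε ≤ C := by rw [hC]; linarith
          linarith
        rw [div_le_iff₀ hε] at h1
        linarith
      linarith
    have hm0 : (0 : ℝ) < m := lt_of_lt_of_le (by positivity) hm3
    have hym : y ≤ m := by
      have : 0 ≤ ε / 2 * y := by positivity
      linarith
    have hC0C : C0 ≤ C := by rw [hC]; linarith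
    have hmC : C0 ≤ m := by linarith
    have hCm : C0 * m ≤ r := by
      have h1 : C0 * (1 + ε) ≤ q := by
        have h2 : (C0 * (1 + ε)) ^ s ≤ q ^ s := by
          rw [hqs]
          have : (C0 * (1 + ε)) ^ s ≤ C := by rw [hC]; linarith
          linarith
        exact le_of_pow_le_pow_left₀ (by omega) hq0.le h2
      calc C0 * m ≤ C0 * ((1 + ε) * y) := mul_le_mul_of_nonneg_left hm1 hC0.le
        _ = (C0 * (1 + ε)) * y := by ring
        _ ≤ q * y := mul_le_mul_of_nonneg_right h1 hy0.le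
        _ = r := by rw [hy]; field_simp
    have hrm : (r : ℝ) / m ≤ q / (1 + ε / 2) := by
      rw [div_le_div_iff₀ hm0 (by positivity)]
      have : (r : ℝ) = q * y := by rw [hy]; field_simp
      rw [this]
      calc q * y * (1 + ε / 2) = q * ((1 + ε / 2) * y) := by ring
        _ ≤ q * m := by gcongr
    have hrm0 : 0 < (r : ℝ) / m := by positivity
    have hle : fval r k s ≤ m := by
      apply Nat.sInf_le
      intro H hH hloc
      by_contra hno
      push Not at hno
      have hNo : NoTr H m := by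
        intro T hT
        have h1 := hno T hT
        unfold IsTrans at h1
        push Not at h1
        obtain ⟨e, he, h2⟩ := h1
        refine ⟨e, he, ?_⟩
        rw [Finset.disjoint_iff_inter_eq_empty]
        exact Finset.not_nonempty_iff_eq_empty.1 (by simpa using h2)
      obtain ⟨F, hF, hFc, hX⟩ := hmain r m hmC hCm H hH hNo
      have hFk : F.card ≤ k := by
        have h2 : ((r : ℝ) / m) ^ s ≤ (q / (1 + ε / 2)) ^ s :=
          pow_le_pow_left₀ hrm0.le hrm s
        have h3 : (1 + ε / 2) * (q / (1 + ε / 2)) ^ s ≤ k := by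
          rw [div_pow, hqs, mul_div_assoc', div_le_iff₀ (by positivity), mul_comm]
          have : (1 + ε / 2) ≤ (1 + ε / 2) ^ s := le_self_pow₀ (by linarith) (by omega)
          gcongr
        have h4 : (F.card : ℝ) ≤ k :=
          hFc.trans ((mul_le_mul_of_nonneg_left h2 (by positivity)).trans h3)
        exact_mod_cast h4
      obtain ⟨T, hT, hTr⟩ := hloc F hF hFk
      obtain ⟨e, he, hd⟩ := hX T hT
      obtain ⟨x, hx⟩ := hTr e he
      rw [mem_inter] at hx
      exact (disjoint_left.1 hd hx.1) hx.2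
    calc (fval r k s : ℝ) ≤ m := by exact_mod_cast hle
      _ ≤ (1 + ε) * y := hm1

end LocTr
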