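import Pool.Agent.Work.MP_a8cb64_co.UP8
import Pool.Agent.Work.MP_a8cb64_co.VP1
import Pool.Agent.Work.MP_a8cb64_co.VP5b
import Pool.Agent.Work.MP_a8cb64_co.VP7

/-!
MP_a8cb64_co, Theorem S without the logarithm: module VP6 (helper21), assembly.
-/

namespace LocTr

open Finset

/-- the cores have at most `2 r` points. -/
theorem core_card_le_two {H : Finset (Finset ℕ)} {r m s : ℕ} {κ θ τ : ℝ}
    {T A : ℕ → Finset ℕ → Finset ℕ} {F : ℕ → Finset ℕ → Finset (Finset ℕ)}
    (hD : CoreData H r m s κ θ τ T A F) (hr : ∀ e ∈ H, e.card = r) (hH : NoTr H m)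
    (hθ : θ ≤ 1) (hτ : τ ≤ 1 / 2) {j : ℕ} (hj : j < s) {Z : Finset ℕ} (hZ : 2 * Z.card ≤ m) :
    (A j Z).card ≤ 2 * r := by
  have h1 := hD.cardT j hj Z hZ
  have h2 : (Z ∪ T j Z).card ≤ m := by
    have h3 : ((Z ∪ T j Z).card : ℝ) ≤ Z.card + (T j Z).card := by
      exact_mod_cast card_union_le _ _
    have h4 : (2 * (Z.card : ℝ)) ≤ m := by exact_mod_cast hZ
    have h5 : τ * m ≤ 1 / 2 * m := mul_le_mul_of_nonneg_right hτ (Nat.cast_nonneg _)
    have h6 : ((Z ∪ T j Z).card : ℝ) ≤ m := by linarith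
    exact_mod_cast h6
  obtain ⟨e, he, hd⟩ := hH _ h2
  rw [disjoint_union_right] at hd
  have h3 := hD.near j hj Z hZ e he hd.1 hd.2
  have h4 : (A j Z).card ≤ (A j Z \ e).card + e.card := by
    exact card_le_card_sdiff_add_card
  rw [hr e he] at h4
  have h5 : ((A j Z).card : ℝ) ≤ (A j Z \ e).card + r := by exact_mod_cast h4
  have h6 : θ * (r : ℝ) ≤ 1 * r := mul_le_mul_of_nonneg_right hθ (Nat.cast_nonneg _)
  have h7 : ((A j Z).card : ℝ) ≤ 2 * r := by linarith
  exact_mod_cast h7

/-- the average of the cost over all labellings is attained. -/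
theorem exists_le_average {Ω ι : Type} [Fintype Ω] [Nonempty Ω] (WW : Finset ι) (f : ι → Ω → ℝ)
    (a : ℝ) (hf : ∀ W ∈ WW, ∑ c, f W c ≤ a * Fintype.card Ω) :
    ∃ c, ∑ W ∈ WW, f W c ≤ a * WW.card := by
  by_contra hcon
  push Not at hcon
  have h1 : ∑ _c : Ω, a * (WW.card : ℝ) < ∑ c : Ω, ∑ W ∈ WW, f W c :=
    sum_lt_sum_of_nonempty univ_nonempty fun c _ => hcon c
  rw [sum_comm, sum_const, card_univ, nsmul_eq_mul] at h1
  have h2 : ∑ W ∈ WW, ∑ c, f W c ≤ ∑ _W ∈ WW, a * (Fintype.card Ω : ℝ) := sum_le_sum hf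
  rw [sum_const, nsmul_eq_mul] at h2
  have h3 : (Fintype.card Ω : ℝ) * (a * WW.card) = WW.card * (a * Fintype.card Ω) := by ring
  linarith

/-- Theorem S, combinatorial form, without the logarithm. -/
theorem s_core_nolog (hE : ∀ t, 1 ≤ t → CoreStmt t) (s : ℕ) (hs : 1 ≤ s) : SharpStmtN s := by
  classical
  intro ε0 hε0
  set ε : ℝ := min ε0 1 with hε
  have hεpos : 0 < ε := lt_min hε0 one_pos
  have hε1 : ε ≤ 1 := min_le_right _ _
  have hεε : ε ≤ ε0 := min_le_left _ _
  have hsR : (1 : ℝ) ≤ s := by exact_mod_cast hs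
  set ρ : ℝ := ε / (28 * (s + 1)) with hρdef
  have hρ : 0 < ρ := by positivity
  have hρs : 28 * (s + 1) * ρ = ε := by rw [hρdef]; field_simp
  have hρs1 : 56 * ρ ≤ 28 * (s + 1) * ρ := by
    apply mul_le_mul_of_nonneg_right _ hρ.le
    linarith
  have hρ1 : ρ ≤ 1 / 56 := by linarith
  obtain ⟨g, hg, N0, hdes⟩ := poly_design s hs ρ hρ
  set G : ℕ := 8 * s + g with hG
  have hGR : (1 : ℝ) ≤ G := by
    have : 1 ≤ G := by omega
    exact_mod_cast this
  have hGs : (1 : ℝ) ≤ s * (G : ℝ) ^ s := by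
    have h1 : (1 : ℝ) ≤ (G : ℝ) ^ s := one_le_pow₀ hGR
    exact one_le_mul_of_one_le_of_one_le hsR h1
  set θ : ℝ := ρ / (s * (G : ℝ) ^ s) with hθ
  have hθpos : 0 < θ := by positivity
  have hθ1 : θ ≤ ρ := div_le_self hρ.le hGs
  have hθG : s * (G : ℝ) ^ s * θ = ρ := by rw [hθ]; field_simp
  set D : ℝ := 16 * s + 2 * g + 3 with hD
  have hDpos : 0 < D := by positivity
  set κ : ℝ := ε / (4 * s * D ^ s) with hκ
  have hκpos : 0 < κ := by positivity
  have hκD : s * κ * D ^ s = ε / 4 := by rw [hκ]; field_simp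
  obtain ⟨X0, hX0⟩ := exists_coreData hE s κ θ θ hκpos hθpos hθpos
  obtain ⟨C1, hC1pos, hbad⟩ := bad_cost s g hs hg ρ (ε / 8) hρ (by linarith) (by linarith)
  set C : ℝ := X0 + 8 * s + N0 + (g.factorial + 2) / (2 * ρ) + C1 with hC
  have hX0' : (0 : ℝ) ≤ X0 := Nat.cast_nonneg _
  have hN0' : (0 : ℝ) ≤ N0 := Nat.cast_nonneg _
  have hC1 : (0 : ℝ) ≤ (g.factorial + 2) / (2 * ρ) := by positivity
  have hCpos : 0 < C := by rw [hC]; linarith
  refine ⟨C, hCpos, ?_⟩
  intro r m hCm hCr H hHr hH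
  have hmR : (0 : ℝ) < m := hCpos.trans_le hCm
  have hrR : (0 : ℝ) < r := lt_of_lt_of_le (by positivity) hCr
  set x : ℝ := (r : ℝ) / m with hx
  have hxC : C ≤ x := by rw [hx, le_div_iff₀ hmR]; exact hCr
  have hx0 : 0 < x := hCpos.trans_le hxC
  have hrx : (r : ℝ) = x * m := by rw [hx]; field_simp
  -- the core data
  have hm1 : X0 ≤ m := by
    have : (X0 : ℝ) ≤ m := by linarith
    exact_mod_cast this
  have hr1 : X0 * m ≤ r := by
    have : (X0 : ℝ) * m ≤ r := by
      rw [hrx]
      exact mul_le_mul_of_nonneg_right (by linarith) hmR.le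
    exact_mod_cast this
  obtain ⟨T, A, F, hcore⟩ := hX0 r m H hm1 hr1 hHr hH
  -- the modulus
  obtain ⟨N, hN0, hN1, hNmod, hNx, hNx'⟩ := exists_modulus g N0 ρ x hρ (by linarith) (by
    have h1 : (g.factorial + 2) / (2 * ρ) ≤ x := by linarith
    rw [div_le_iff₀ (by positivity)] at h1
    linarith)
  have : NeZero N := ⟨by omega⟩
  have : Nonempty (Fin g × ZMod N) := ⟨⟨⟨0, by omega⟩, 0⟩⟩
  obtain ⟨WW, hWg, hWc, hWS⟩ := hdes N hN0 hNmod
  have hcardΛ : (Fintype.card (Fin g × ZMod N) : ℝ) = g * N := by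
    rw [Fintype.card_prod, Fintype.card_fin, ZMod.card]
    push_cast
    ring
  -- sizes
  set h : ℕ := m / (4 * s) with hh
  have h8s : 8 * s ≤ m := by
    have : (8 * (s : ℝ)) ≤ m := by linarith
    exact_mod_cast this
  have hh1 : 1 ≤ h := by
    rw [hh, Nat.le_div_iff_mul_le (by omega)]
    omega
  have hh4 : h * (4 * s) ≤ m := Nat.div_mul_le_self _ _
  have hhm : 2 * (s * h) ≤ m := by
    have h1 : h * (4 * s) = 4 * (s * h) := by ring
    omega
  have hhlow : (m : ℝ) ≤ 8 * s * h := by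
    have h1 : m < m / (4 * s) * (4 * s) + 4 * s := Nat.lt_div_mul_add (by omega)
    rw [← hh] at h1
    have h3 : 1 * (4 * s) ≤ h * (4 * s) := Nat.mul_le_mul_right _ hh1
    have h4 : 8 * s * h = 2 * (h * (4 * s)) := by ring
    have h2 : m ≤ 8 * s * h := by omega
    exact_mod_cast h2
  set b : ℕ := ⌊(1 - ρ) * (m : ℝ)⌋₊ with hb
  have hbR : (b : ℝ) ≤ (1 - ρ) * m := Nat.floor_le (mul_nonneg (by linarith) hmR.le)
  have hρm : 0 < ρ * m := mul_pos hρ hmR
  have hbm : b ≤ m := by
    have : (b : ℝ) ≤ m := by linarith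
    exact_mod_cast this
  have hbG : b / h ≤ 8 * s := by
    have h1 : m ≤ 8 * s * h := by exact_mod_cast hhlow
    apply Nat.div_le_of_le_mul
    rw [mul_comm h]
    omega
  have hhR : (0 : ℝ) < h := by exact_mod_cast hh1
  have hNpos : (0 : ℝ) < N := by
    have : 0 < N := by omega
    exact_mod_cast this
  -- good labelling
  have hNs : (1 + ρ) * (N : ℝ) ^ s ≤ (1 + ε / 2) * x ^ s := by
    have h1 : (N : ℝ) ^ s ≤ ((1 + 7 * ρ) * x) ^ s := pow_le_pow_left₀ hNpos.le hNx' s
    rw [mul_pow] at h1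
    have h2 := one_add_pow_le (7 * ρ) (by positivity) (s + 1) (by
      have h3 : ((s + 1 : ℕ) : ℝ) * (7 * ρ) = 28 * (s + 1) * ρ / 4 := by push_cast; ring
      rw [h3, hρs]
      linarith)
    have h3 : (1 + ρ) * (1 + 7 * ρ) ^ s ≤ 1 + ε / 2 := by
      calc (1 + ρ) * (1 + 7 * ρ) ^ s ≤ (1 + 7 * ρ) * (1 + 7 * ρ) ^ s := by
            apply mul_le_mul_of_nonneg_right _ (by positivity)
            linarith
        _ = (1 + 7 * ρ) ^ (s + 1) := by ring
        _ ≤ 1 + 2 * (((s + 1 : ℕ) : ℝ) * (7 * ρ)) := h2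
        _ = 1 + ε / 2 := by
            push_cast
            rw [← hρs]
            ring
    calc (1 + ρ) * (N : ℝ) ^ s ≤ (1 + ρ) * ((1 + 7 * ρ) ^ s * x ^ s) :=
          mul_le_mul_of_nonneg_left h1 (by positivity)
      _ = ((1 + ρ) * (1 + 7 * ρ) ^ s) * x ^ s := by ring
      _ ≤ (1 + ε / 2) * x ^ s := mul_le_mul_of_nonneg_right h3 (by positivity)
  have hWWc : (WW.card : ℝ) ≤ (1 + ε / 2) * x ^ s := hWc.trans hNs
  set V : Finset ℕ := H.biUnion id with hV
  have hexpo : ∀ W ∈ WW, ∀ (c : ℕ → Fin g × ZMod N), ∀ j ≤ s,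
      ((expo A h b W c j).card : ℝ) ≤ (1 + ρ) * r := by
    intro W hW c j hj
    have h1 := expo_card hcore hHr hH hθpos.le hθpos.le hh1 hhm W G (by
      have := hWg W hW
      omega) (by omega) (b := b) (by
      have : s * (G : ℝ) ^ s * (θ * m) = ρ * m := by rw [← hθG]; ring
      rw [this]
      linarith) c j hj
    refine h1.trans (le_of_eq ?_)
    have : s * (G : ℝ) ^ s * (θ * r) = ρ * r := by rw [← hθG]; ring
    rw [this]
    ring
  have hWp : ∀ W ∈ WW, (W.card : ℝ) * ((1 + 5 * ρ) * r) ≤ m * Fintype.card (Fin g × ZMod N) := by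
    intro W hW
    rw [hcardΛ]
    have h1 : (W.card : ℝ) ≤ g := by exact_mod_cast hWg W hW
    have h2 : (1 + 5 * ρ) * (r : ℝ) ≤ N * m := by
      rw [hrx, ← mul_assoc]
      exact mul_le_mul_of_nonneg_right hNx hmR.le
    calc (W.card : ℝ) * ((1 + 5 * ρ) * r) ≤ g * (N * m) :=
          mul_le_mul h1 h2 (by positivity) (by positivity)
      _ = m * (g * N) := by ring
  have hA2 : ∀ j < s, ∀ Z : Finset ℕ, Z.card ≤ s * h → (A j Z).card ≤ 2 * r := fun j hj Z hZ =>
    core_card_le_two hcore hHr hH (by linarith) (by linarith) hj (by omega)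
  -- a labelling with few leaves in bad blocks
  obtain ⟨c', hc'⟩ := exists_le_average (Ω := V → Fin g × ZMod N) WW (fun W c =>
    if ∀ j ≤ s, lab A h b W (extLab V c) j ≤ b then (0 : ℝ)
      else ((nodes A h V.card W (extLab V c) s).card : ℝ)) (ε / 8) (by
    intro W hW
    have h1 := hbad A V r m h W (by linarith) (by exact_mod_cast hrR) hcore.subA hh1
      (by
        have h2 : 1 * h ≤ 2 * (s * h) := by
          rw [← mul_assoc]
          exact Nat.mul_le_mul_right _ (by omega)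
        omega) (by exact_mod_cast hhlow) (hWg W hW) (hWp W hW) hA2 (hexpo W hW)
    have h2 : (Fintype.card (V → Fin g × ZMod N) : ℝ) =
        (Fintype.card (Fin g × ZMod N) : ℝ) ^ V.card := by
      rw [Fintype.card_fun, Fintype.card_coe]
      push_cast
      rfl
    rw [h2]
    exact h1)
  set c : ℕ → Fin g × ZMod N := extLab V c' with hcdef
  -- the edges
  have hU : ∀ T : Finset ℕ, T.card ≤ m → ∃ e ∈ H, Disjoint e T := hH
  choose! eH heH1 heH2 using hU
  have hnode : ∀ j < s, ∀ Z ∈ nodes A h V.card univ c j, 2 * Z.card ≤ m := by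
    intro j hj Z hZ
    have h1 := node_card hh1 j Z hZ
    have h2 : j * h ≤ s * h := Nat.mul_le_mul_right h hj.le
    omega
  set F1 : Finset (Finset ℕ) := (range s).biUnion fun j =>
    (nodes A h V.card univ c j).biUnion (F j) with hF1
  set WG : Finset (Finset (Fin g × ZMod N)) := WW.filter fun W => ∀ j ≤ s, lab A h b W c j ≤ b
    with hWG
  set WB : Finset (Finset (Fin g × ZMod N)) := WW.filter fun W => ¬ ∀ j ≤ s, lab A h b W c j ≤ b
    with hWB
  set F2 : Finset (Finset ℕ) := WG.image fun W => eH ((expo A h b W c s).filter fun v => c v ∈ W)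
    with hF2
  set F3 : Finset (Finset ℕ) := WB.biUnion fun W => (nodes A h V.card W c s).image eH with hF3
  refine ⟨F1 ∪ (F2 ∪ F3), ?_, ?_, ?_⟩
  · intro e he
    rcases mem_union.1 he with he | he
    · obtain ⟨j, hj, he⟩ := mem_biUnion.1 he
      obtain ⟨Z, hZ, he⟩ := mem_biUnion.1 he
      exact missing_subset H Z (hcore.subF j (mem_range.1 hj) Z (hnode j (mem_range.1 hj) Z hZ) he)
    rcases mem_union.1 he with he | he
    · obtain ⟨W, hW, rfl⟩ := mem_image.1 he
      exact heH1 _ (((mem_filter.1 hW).2 s le_rfl).trans hbm)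
    · obtain ⟨W, hW, he⟩ := mem_biUnion.1 he
      obtain ⟨Z, hZ, rfl⟩ := mem_image.1 he
      have h1 := node_card hh1 s Z hZ
      exact heH1 Z (by omega)
  · have h1 : (F1.card : ℝ) ≤ ε / 4 * x ^ s := by
      have h2 : ∀ j ∈ range s, (((nodes A h V.card univ c j).biUnion (F j)).card : ℝ) ≤
          κ * (D * x) ^ s := by
        intro j hj
        have hj' := mem_range.1 hj
        have h3 : (((nodes A h V.card univ c j).biUnion (F j)).card : ℝ) ≤
            ∑ Z ∈ nodes A h V.card univ c j, ((F j Z).card : ℝ) := by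
          exact_mod_cast card_biUnion_le
        have h4 : ∑ Z ∈ nodes A h V.card univ c j, ((F j Z).card : ℝ) ≤
            ∑ _Z ∈ nodes A h V.card univ c j, κ * (3 * (r : ℝ) / m) ^ (s - j) :=
          sum_le_sum fun Z hZ => hcore.cardF j hj' Z (hnode j hj' Z hZ)
        rw [sum_const, nsmul_eq_mul] at h4
        have h5 := nodes_univ_count hcore hHr hH (by linarith) (by linarith) hh1 hhm V.card c j
          hj'.le
        have h6 : 2 * (r : ℝ) / h + Fintype.card (Fin g × ZMod N) ≤ D * x := by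
          rw [hcardΛ]
          have h7 : 2 * (r : ℝ) / h ≤ 16 * s * x := by
            rw [div_le_iff₀ hhR, hrx]
            calc 2 * (x * m) = (2 * x) * m := by ring
              _ ≤ (2 * x) * (8 * s * h) := mul_le_mul_of_nonneg_left hhlow (by linarith)
              _ = 16 * s * x * h := by ring
          have h8 : (g : ℝ) * N ≤ 2 * g * x := by
            have h9 : (N : ℝ) ≤ 2 * x := hNx'.trans
              (mul_le_mul_of_nonneg_right (by linarith) hx0.le)
            calc (g : ℝ) * N ≤ g * (2 * x) := mul_le_mul_of_nonneg_left h9 (Nat.cast_nonneg _)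
              _ = 2 * g * x := by ring
          have h9 : D * x = 16 * s * x + 2 * g * x + 3 * x := by rw [hD]; ring
          rw [h9]
          linarith
        have h7 : 3 * (r : ℝ) / m ≤ D * x := by
          have : 3 * (r : ℝ) / m = 3 * x := by rw [hx]; ring
          rw [this]
          apply mul_le_mul_of_nonneg_right _ hx0.le
          rw [hD]
          have : (0 : ℝ) ≤ g := Nat.cast_nonneg _
          linarith
        calc (((nodes A h V.card univ c j).biUnion (F j)).card : ℝ)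
            ≤ ((nodes A h V.card univ c j).card : ℝ) * (κ * (3 * (r : ℝ) / m) ^ (s - j)) :=
              h3.trans h4
          _ ≤ (D * x) ^ j * (κ * (D * x) ^ (s - j)) := by
              apply mul_le_mul
              · exact h5.trans (pow_le_pow_left₀ (by positivity) h6 j)
              · apply mul_le_mul_of_nonneg_left _ hκpos.le
                exact pow_le_pow_left₀ (by positivity) h7 _
              · positivity
              · positivity
          _ = κ * ((D * x) ^ j * (D * x) ^ (s - j)) := by ring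
          _ = κ * (D * x) ^ s := by rw [← pow_add, Nat.add_sub_cancel' hj'.le]
      have h3 : (F1.card : ℝ) ≤
          ∑ j ∈ range s, (((nodes A h V.card univ c j).biUnion (F j)).card : ℝ) := by
        exact_mod_cast card_biUnion_le
      refine h3.trans ((sum_le_sum h2).trans (le_of_eq ?_))
      rw [sum_const, card_range, nsmul_eq_mul, mul_pow, ← hκD]
      ring
    have h2 : (F2.card : ℝ) ≤ (1 + ε / 2) * x ^ s := by
      have h3 : F2.card ≤ WW.card := card_image_le.trans (card_filter_le _ _)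
      exact le_trans (by exact_mod_cast h3) hWWc
    have h3 : (F3.card : ℝ) ≤ ε / 8 * ((1 + ε / 2) * x ^ s) := by
      have h4 : (F3.card : ℝ) ≤ ∑ W ∈ WB, ((nodes A h V.card W c s).card : ℝ) := by
        have h5 : F3.card ≤ ∑ W ∈ WB, (nodes A h V.card W c s).card :=
          card_biUnion_le.trans (sum_le_sum fun W _ => card_image_le)
        exact_mod_cast h5
      refine h4.trans (le_trans (le_of_eq ?_) (hc'.trans
        (mul_le_mul_of_nonneg_left hWWc (by linarith))))
      rw [hWB, sum_filter]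
      refine sum_congr rfl fun W _ => ?_
      by_cases hg1 : ∀ j ≤ s, lab A h b W c j ≤ b
      · rw [if_neg (not_not.2 hg1), if_pos hg1]
      · rw [if_pos hg1, if_neg hg1]
    have h4 : ((F1 ∪ (F2 ∪ F3)).card : ℝ) ≤ F1.card + (F2.card + F3.card) := by
      have h5 : (F1 ∪ (F2 ∪ F3)).card ≤ F1.card + (F2.card + F3.card) :=
        (card_union_le _ _).trans (Nat.add_le_add_left (card_union_le _ _) _)
      exact_mod_cast h5
    have hxs : 0 < x ^ s := by positivity
    calc ((F1 ∪ (F2 ∪ F3)).card : ℝ) ≤ F1.card + (F2.card + F3.card) := h4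
      _ ≤ ε / 4 * x ^ s + ((1 + ε / 2) * x ^ s + ε / 8 * ((1 + ε / 2) * x ^ s)) :=
          add_le_add h1 (add_le_add h2 h3)
      _ = (1 + (7 / 8) * ε + ε / 16 * ε) * x ^ s := by ring
      _ ≤ (1 + ε) * x ^ s := by
          apply mul_le_mul_of_nonneg_right _ hxs.le
          have : ε / 16 * ε ≤ ε / 16 * 1 := mul_le_mul_of_nonneg_left hε1 (by linarith)
          linarith
      _ ≤ (1 + ε0) * x ^ s := mul_le_mul_of_nonneg_right (by linarith) hxs.le
  · intro X hX
    by_contra hcon
    push Not at hcon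
    obtain ⟨W, hW, hSW⟩ := hWS (X.image c) (card_image_le.trans hX)
    have hXW : ∀ v ∈ X, c v ∈ W := fun v hv => hSW (mem_image_of_mem c hv)
    have hhit : ∀ b', ∀ j < s, ∀ Z ∈ nodes A h b' W c j, ∀ e ∈ F j Z, ¬ Disjoint e X := by
      intro b' j hj Z hZ e he
      refine hcon e (mem_union_left _ ?_)
      refine mem_biUnion.2 ⟨j, mem_range.2 hj, mem_biUnion.2 ⟨Z, ?_, he⟩⟩
      exact nodes_subset_univ hcore.subA h b' W c j hZ
    by_cases hgood : ∀ j ≤ s, lab A h b W c j ≤ b
    · have h1 := descend hcore hh1 hhm hgood X hX hXW (hhit b)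
      refine hcon _ (mem_union_right _ (mem_union_left _ (mem_image_of_mem _
        (mem_filter.2 ⟨hW, hgood⟩)))) (disjoint_of_subset_right h1 (heH2 _ ?_))
      exact (hgood s le_rfl).trans hbm
    · obtain ⟨Z, hZ, hXZ⟩ := descend_node hcore hh1 hhm (W := W) (c := c) (b := V.card) (by
        intro j _
        exact card_le_card ((filter_subset _ _).trans (expo_subset hcore.subA j)))
        X hX hXW (hhit V.card)
      have h1 := node_card hh1 s Z hZ
      refine hcon _ (mem_union_right _ (mem_union_right _ (mem_biUnion.2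
        ⟨W, mem_filter.2 ⟨hW, hgood⟩, mem_image_of_mem _ hZ⟩)))
        (disjoint_of_subset_right hXZ (heH2 Z (by omega)))

end LocTr
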