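import Mathlib

/-!
MP_a8cb64_co, Theorem A, module M2: the weighted greedy (note 2314, helper72).
-/

namespace LocTr

open Finset

set_option linter.unusedSectionVars false

section defs

variable {I Y : Type} [Fintype I] [DecidableEq I] [Fintype Y] [DecidableEq Y]

/-- normalised indicator of `T ⊆ S`. -/
noncomputable def aw (S : Finset I) (q : ℝ) (T : Finset I) : ℝ :=
  if T ⊆ S then (q⁻¹) ^ T.card else 0

/-- normalised surviving degree of `i`. -/
noncomputable def Lw (D : Y → Finset I) (r : ℕ) (S : Finset I) (q : ℝ) (i : I) : ℝ :=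
  (∑ y ∈ univ.filter (fun y => i ∈ D y), aw S q (D y)) / r

/-- error at `i`. -/
noncomputable def Ew (D : Y → Finset I) (r : ℕ) (S : Finset I) (q : ℝ) (i : I) : ℝ :=
  Lw D r S q i - aw S q {i}

/-- normalised number of surviving pieces. -/
noncomputable def Zw (D : Y → Finset I) (S : Finset I) (q : ℝ) : ℝ :=
  (∑ y, aw S q (D y)) / Fintype.card Y

/-- the potential. -/
noncomputable def Pw (D : Y → Finset I) (r : ℕ) (S : Finset I) (q : ℝ) : ℝ :=
  (∑ i, (Ew D r S q i) ^ 2) / Fintype.card I + (Zw D S q - 1) ^ 2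

/-- the hypotheses on the system of pieces. -/
structure Sys (R : ℕ) (δ : ℝ) (r : ℕ) (D : Y → Finset I) : Prop where
  r1 : 1 ≤ r
  size : ∀ y, (D y).card ≤ R
  ne : ∀ y, (D y).Nonempty
  deg : ∀ i, (univ.filter fun y => i ∈ D y).card = r
  codeg : ∀ i j, i ≠ j → ((univ.filter fun y => i ∈ D y ∧ j ∈ D y).card : ℝ) ≤ δ * r
  big : (1 : ℝ) ≤ δ * ((Fintype.card Y : ℝ) / r)

/-- the indicator of `D y` meets `T`. -/
noncomputable def hit (D : Y → Finset I) (T : Finset I) (y : Y) : ℝ :=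
  if Disjoint (D y) T then 0 else 1

end defs

/-- Bernoulli with remainder. -/
lemma pow_expand (t : ℕ) (u : ℝ) (h0 : 0 ≤ u) (h1 : u ≤ 1) :
    0 ≤ (1 - u) ^ t - (1 - t * u) ∧ (1 - u) ^ t - (1 - t * u) ≤ (t : ℝ) ^ 2 * u ^ 2 := by
  induction t with
  | zero => simp
  | succ t ih =>
    obtain ⟨ha, hb⟩ := ih
    have hu : 0 ≤ 1 - u := by linarith
    have ht : (0 : ℝ) ≤ t := Nat.cast_nonneg t
    constructor
    · rw [pow_succ]
      push_cast
      have : (1 - t * u) * (1 - u) ≤ (1 - u) ^ t * (1 - u) :=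
        mul_le_mul_of_nonneg_right (by linarith) hu
      linarith [mul_nonneg ht (mul_nonneg h0 h0)]
    · rw [pow_succ]
      push_cast
      have h2 : (1 - u) ^ t * (1 - u) ≤ (1 - t * u + (t : ℝ) ^ 2 * u ^ 2) * (1 - u) :=
        mul_le_mul_of_nonneg_right (by linarith) hu
      have h3 : 0 ≤ (t : ℝ) ^ 2 * u ^ 2 * u := by positivity
      have h4 : 0 ≤ (t : ℝ) * u ^ 2 := by positivity
      linarith [mul_nonneg h0 h0]

section basic

variable {I Y : Type} [Fintype I] [DecidableEq I] [Fintype Y] [DecidableEq Y]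

lemma aw_nonneg (S : Finset I) {q : ℝ} (hq : 0 < q) (T : Finset I) : 0 ≤ aw S q T := by
  unfold aw
  split_ifs
  · positivity
  · exact le_rfl

lemma inv_pow_le {η q : ℝ} {R t : ℕ} (h0 : 0 < η) (h1 : η ≤ 1) (hq : η ≤ q) (ht : t ≤ R) :
    (q⁻¹) ^ t ≤ (η⁻¹) ^ R := by
  have hq0 : 0 < q := lt_of_lt_of_le h0 hq
  have h2 : q⁻¹ ≤ η⁻¹ := inv_anti₀ h0 hq
  calc (q⁻¹) ^ t ≤ (η⁻¹) ^ t := pow_le_pow_left₀ (by positivity) h2 t
    _ ≤ (η⁻¹) ^ R := pow_le_pow_right₀ ((one_le_inv₀ h0).2 h1) ht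

lemma aw_le {η q : ℝ} {R : ℕ} (h0 : 0 < η) (h1 : η ≤ 1) (hq : η ≤ q) (S T : Finset I)
    (hT : T.card ≤ R) : aw S q T ≤ (η⁻¹) ^ R := by
  unfold aw
  split_ifs
  · exact inv_pow_le h0 h1 hq hT
  · positivity

lemma hit_nonneg (D : Y → Finset I) (T : Finset I) (y : Y) : 0 ≤ hit D T y := by
  unfold hit; split_ifs <;> norm_num

lemma hit_le_one (D : Y → Finset I) (T : Finset I) (y : Y) : hit D T y ≤ 1 := by
  unfold hit; split_ifs <;> norm_num

/-- double counting. -/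
lemma dbl {R : ℕ} {δ : ℝ} {r : ℕ} {D : Y → Finset I} (hs : Sys R δ r D) (f : I → ℝ) :
    ∑ y, ∑ i ∈ D y, f i = r * ∑ i, f i := by
  have : ∑ y, ∑ i ∈ D y, f i = ∑ i, ∑ y ∈ univ.filter (fun y => i ∈ D y), f i := by
    apply Finset.sum_comm'
    intro x y
    simp
  rw [this, mul_sum]
  apply Finset.sum_congr rfl
  intro i _
  rw [sum_const, hs.deg i, nsmul_eq_mul]

lemma dbl2 {R : ℕ} {δ : ℝ} {r : ℕ} {D : Y → Finset I} (_ : Sys R δ r D) (g : I → Y → ℝ) :
    ∑ i, ∑ y ∈ univ.filter (fun y => i ∈ D y), g i y = ∑ y, ∑ i ∈ D y, g i y := by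
  apply Finset.sum_comm'
  intro x y
  simp

/-- `1[D y meets T] ≤ ∑_{i ∈ T} 1[i ∈ D y]`. -/
lemma hit_le_sum (D : Y → Finset I) (T : Finset I) (y : Y) :
    hit D T y ≤ ∑ i ∈ T, (if i ∈ D y then (1 : ℝ) else 0) := by
  unfold hit
  split_ifs with h
  · exact Finset.sum_nonneg fun i _ => by split_ifs <;> norm_num
  · rw [Finset.not_disjoint_iff] at h
    obtain ⟨a, ha, hb⟩ := h
    have := Finset.single_le_sum (f := fun i => if i ∈ D y then (1 : ℝ) else 0)
      (fun i _ => by split_ifs <;> norm_num) hb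
    simp only [ha, if_true] at this
    exact this

/-- `∑_{i ∈ T} 1[i ∈ D y] - 1[D y meets T] ≤ ∑_{i ≠ j ∈ T} 1[i, j ∈ D y]`. -/
lemma sum_le_hit (D : Y → Finset I) (T : Finset I) (y : Y) :
    ∑ i ∈ T, (if i ∈ D y then (1 : ℝ) else 0) ≤
      hit D T y + ∑ i ∈ T, ∑ j ∈ T.erase i, (if i ∈ D y ∧ j ∈ D y then (1 : ℝ) else 0) := by
  unfold hit
  split_ifs with h
  · have : ∑ i ∈ T, (if i ∈ D y then (1 : ℝ) else 0) = 0 := by
      apply Finset.sum_eq_zero
      intro i hi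
      rw [if_neg]
      intro h2
      exact (Finset.disjoint_left.1 h h2) hi
    rw [this]
    simp only [zero_add]
    exact Finset.sum_nonneg fun i _ => Finset.sum_nonneg fun j _ => by split_ifs <;> norm_num
  · rw [Finset.not_disjoint_iff] at h
    obtain ⟨a, ha, hb⟩ := h
    -- the term `i = a` gives the `1`, the terms `i ≠ a` are bounded by the pair `(i, a)`
    rw [← Finset.add_sum_erase T _ hb, if_pos ha]
    have h2 : ∑ i ∈ T.erase a, (if i ∈ D y then (1 : ℝ) else 0) ≤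
        ∑ i ∈ T, ∑ j ∈ T.erase i, (if i ∈ D y ∧ j ∈ D y then (1 : ℝ) else 0) := by
      calc ∑ i ∈ T.erase a, (if i ∈ D y then (1 : ℝ) else 0)
          ≤ ∑ i ∈ T.erase a, ∑ j ∈ T.erase i, (if i ∈ D y ∧ j ∈ D y then (1 : ℝ) else 0) := by
            apply Finset.sum_le_sum
            intro i hi
            have hia : a ∈ T.erase i := by
              rw [Finset.mem_erase] at hi ⊢
              exact ⟨fun h => hi.1 h.symm, hb⟩
            have := Finset.single_le_sum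
              (f := fun j => if i ∈ D y ∧ j ∈ D y then (1 : ℝ) else 0)
              (fun j _ => by split_ifs <;> norm_num) hia
            simp only [ha, and_true] at this
            exact this
        _ ≤ _ := by
            apply Finset.sum_le_sum_of_subset_of_nonneg (Finset.erase_subset _ _)
            intro i _ _
            exact Finset.sum_nonneg fun j _ => by split_ifs <;> norm_num
    linarith

end basic

section step

variable {I Y : Type} [Fintype I] [DecidableEq I] [Fintype Y] [DecidableEq Y]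

/-- numeric hypotheses for one step. -/
structure Stp (η δ : ℝ) (R r : ℕ) (D : Y → Finset I) (q q' : ℝ) : Prop where
  η0 : 0 < η
  η1 : η ≤ 1
  lo : η ≤ q'
  hi : q ≤ 1
  eq : q' = q - r / Fintype.card Y

lemma card_pos {R : ℕ} {δ : ℝ} {r : ℕ} {D : Y → Finset I} (hs : Sys R δ r D) :
    (0 : ℝ) < Fintype.card Y := by
  rcases Nat.eq_zero_or_pos (Fintype.card Y) with h | h
  · have := hs.big
    rw [h] at this
    simp at this
    linarith
  · exact_mod_cast h

lemma r_pos {R : ℕ} {δ : ℝ} {r : ℕ} {D : Y → Finset I} (hs : Sys R δ r D) : (0 : ℝ) < r := by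
  exact_mod_cast hs.r1

lemma rm_le {R : ℕ} {δ : ℝ} {r : ℕ} {D : Y → Finset I} (hs : Sys R δ r D) :
    (r : ℝ) / Fintype.card Y ≤ δ := by
  have h1 := card_pos hs
  have h2 := r_pos hs
  rw [div_le_iff₀ h1]
  have := hs.big
  have h3 : δ * ((Fintype.card Y : ℝ) / r) * r = δ * Fintype.card Y := by field_simp
  linarith [mul_le_mul_of_nonneg_right this h2.le]

lemma q_lo {η δ : ℝ} {R r : ℕ} {D : Y → Finset I} {q q' : ℝ} (st : Stp η δ R r D q q') :
    η ≤ q := by
  have := st.lo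
  have h2 := st.eq
  have h3 : (0 : ℝ) ≤ (r : ℝ) / Fintype.card Y := by positivity
  linarith

lemma delta_aw (S : Finset I) (D : Y → Finset I) (q q' : ℝ) (T : Finset I) (y : Y) :
    aw (S \ D y) q' T - aw S q T =
      if T ⊆ S then ((q'⁻¹) ^ T.card - (q⁻¹) ^ T.card) - (q'⁻¹) ^ T.card * hit D T y else 0 := by
  unfold aw hit
  by_cases h1 : T ⊆ S
  · by_cases h2 : Disjoint (D y) T
    · have h3 : T ⊆ S \ D y := Finset.subset_sdiff.2 ⟨h1, h2.symm⟩
      simp [h1, h2, h3]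
    · have h3 : ¬ T ⊆ S \ D y := fun h => h2 (Finset.subset_sdiff.1 h).2.symm
      simp [h1, h2, h3]
  · have h3 : ¬ T ⊆ S \ D y := fun h => h1 (h.trans Finset.sdiff_subset)
    simp [h1, h3]

lemma sum_w {R : ℕ} {δ : ℝ} {r : ℕ} {D : Y → Finset I} (hs : Sys R δ r D) (S : Finset I) (q : ℝ) :
    ∑ y, aw S q (D y) = Fintype.card Y * Zw D S q := by
  unfold Zw
  have := card_pos hs
  field_simp

lemma sum_w_mem {R : ℕ} {δ : ℝ} {r : ℕ} {D : Y → Finset I} (hs : Sys R δ r D) (S : Finset I)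
    (q : ℝ) (i : I) :
    ∑ y, aw S q (D y) * (if i ∈ D y then (1 : ℝ) else 0) = r * Lw D r S q i := by
  unfold Lw
  have := r_pos hs
  rw [mul_div_cancel₀ _ this.ne', Finset.sum_filter]
  apply Finset.sum_congr rfl
  intro y _
  split_ifs <;> simp

lemma sum_mem {R : ℕ} {δ : ℝ} {r : ℕ} {D : Y → Finset I} (hs : Sys R δ r D) (i : I) :
    ∑ y, (if i ∈ D y then (1 : ℝ) else 0) = r := by
  rw [Finset.sum_boole, hs.deg i]

lemma sum_mem2 {R : ℕ} {δ : ℝ} {r : ℕ} {D : Y → Finset I} (hs : Sys R δ r D) {i j : I}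
    (h : i ≠ j) : ∑ y, (if i ∈ D y ∧ j ∈ D y then (1 : ℝ) else 0) ≤ δ * r := by
  rw [Finset.sum_boole]
  exact hs.codeg i j h

lemma hit_total {R : ℕ} {δ : ℝ} {r : ℕ} {D : Y → Finset I} (hs : Sys R δ r D) (hδ : 0 < δ)
    {η q : ℝ} (h0 : 0 < η) (h1 : η ≤ 1) (hq : η ≤ q) (S T : Finset I) (hT : T.card ≤ R) :
    |(r : ℝ) * ∑ i ∈ T, Lw D r S q i - ∑ y, aw S q (D y) * hit D T y| ≤
      (R : ℝ) ^ 2 * ((η⁻¹) ^ R * (δ * r)) := by
  have hq0 : 0 < q := lt_of_lt_of_le h0 hq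
  have e1 : (r : ℝ) * ∑ i ∈ T, Lw D r S q i =
      ∑ y, aw S q (D y) * ∑ i ∈ T, (if i ∈ D y then (1 : ℝ) else 0) := by
    rw [mul_sum]
    simp_rw [← sum_w_mem hs S q, mul_sum]
    rw [Finset.sum_comm]
  have hw : ∀ y, 0 ≤ aw S q (D y) := fun y => aw_nonneg S hq0 _
  have e2 : ∑ y, aw S q (D y) * hit D T y ≤ (r : ℝ) * ∑ i ∈ T, Lw D r S q i := by
    rw [e1]
    apply Finset.sum_le_sum
    intro y _
    exact mul_le_mul_of_nonneg_left (hit_le_sum D T y) (hw y)
  have e3 : (r : ℝ) * ∑ i ∈ T, Lw D r S q i ≤ ∑ y, aw S q (D y) * hit D T y +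
      ∑ y, aw S q (D y) * ∑ i ∈ T, ∑ j ∈ T.erase i,
        (if i ∈ D y ∧ j ∈ D y then (1 : ℝ) else 0) := by
    rw [e1, ← Finset.sum_add_distrib]
    apply Finset.sum_le_sum
    intro y _
    rw [← mul_add]
    exact mul_le_mul_of_nonneg_left (sum_le_hit D T y) (hw y)
  have hc : (0 : ℝ) ≤ (η⁻¹) ^ R := by positivity
  have e4 : ∑ y, aw S q (D y) * ∑ i ∈ T, ∑ j ∈ T.erase i,
        (if i ∈ D y ∧ j ∈ D y then (1 : ℝ) else 0) ≤ (R : ℝ) ^ 2 * ((η⁻¹) ^ R * (δ * r)) := by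
    calc ∑ y, aw S q (D y) * ∑ i ∈ T, ∑ j ∈ T.erase i,
          (if i ∈ D y ∧ j ∈ D y then (1 : ℝ) else 0)
        ≤ ∑ y, (η⁻¹) ^ R * ∑ i ∈ T, ∑ j ∈ T.erase i,
          (if i ∈ D y ∧ j ∈ D y then (1 : ℝ) else 0) := by
          apply Finset.sum_le_sum
          intro y _
          apply mul_le_mul_of_nonneg_right (aw_le h0 h1 hq S _ (hs.size y))
          exact Finset.sum_nonneg fun i _ => Finset.sum_nonneg fun j _ => by
            split_ifs <;> norm_num
      _ = (η⁻¹) ^ R * ∑ i ∈ T, ∑ j ∈ T.erase i, ∑ y,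
          (if i ∈ D y ∧ j ∈ D y then (1 : ℝ) else 0) := by
          rw [← mul_sum, Finset.sum_comm]
          congr 1
          apply Finset.sum_congr rfl
          intro i _
          rw [Finset.sum_comm]
      _ ≤ (η⁻¹) ^ R * ∑ i ∈ T, ∑ j ∈ T.erase i, (δ * r) := by
          apply mul_le_mul_of_nonneg_left _ hc
          apply Finset.sum_le_sum
          intro i _
          apply Finset.sum_le_sum
          intro j hj
          exact sum_mem2 hs (fun h => (Finset.mem_erase.1 hj).1 h.symm)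
      _ ≤ (η⁻¹) ^ R * ∑ i ∈ T, ((R : ℝ) * (δ * r)) := by
          apply mul_le_mul_of_nonneg_left _ hc
          apply Finset.sum_le_sum
          intro i _
          rw [sum_const, nsmul_eq_mul]
          apply mul_le_mul_of_nonneg_right _ (by positivity)
          have : (T.erase i).card ≤ R := (Finset.card_le_card (Finset.erase_subset _ _)).trans hT
          exact_mod_cast this
      _ = (η⁻¹) ^ R * (T.card * ((R : ℝ) * (δ * r))) := by
          rw [sum_const, nsmul_eq_mul]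
      _ ≤ (η⁻¹) ^ R * (R * ((R : ℝ) * (δ * r))) := by
          apply mul_le_mul_of_nonneg_left _ hc
          apply mul_le_mul_of_nonneg_right _ (by positivity)
          exact_mod_cast hT
      _ = _ := by ring
  rw [abs_le]
  constructor
  · have : 0 ≤ (R : ℝ) ^ 2 * ((η⁻¹) ^ R * (δ * r)) := by positivity
    linarith
  · linarith

/-- the first order term for one test set `T`. -/
lemma first_order {R : ℕ} {δ : ℝ} {r : ℕ} {D : Y → Finset I} (hs : Sys R δ r D) (hδ : 0 < δ)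
    {η q q' : ℝ} (st : Stp η δ R r D q q') (S T : Finset I) (hT : T.card ≤ R)
    (hZ : Zw D S q ≤ 2) (hZ0 : 0 ≤ Zw D S q) :
    |∑ y, aw S q (D y) * (aw (S \ D y) q' T - aw S q T)| ≤
      (r : ℝ) * ((η⁻¹) ^ R * ((R / η) * |Zw D S q - 1| + ∑ i ∈ T, |Ew D r S q i| +
        (2 * (R : ℝ) ^ 2 / η ^ 2 + (R : ℝ) ^ 2 * (η⁻¹) ^ R) * δ)) := by
  have hm := card_pos hs
  have hr := r_pos hs
  have hqlo := q_lo st
  have hq0 : 0 < q := lt_of_lt_of_le st.η0 hqlo
  have hq'0 : 0 < q' := lt_of_lt_of_le st.η0 st.lo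
  have hη0 := st.η0
  have hc : (0 : ℝ) ≤ (η⁻¹) ^ R := by positivity
  have hrhs : (0 : ℝ) ≤ (R / η) * |Zw D S q - 1| + ∑ i ∈ T, |Ew D r S q i| +
        (2 * (R : ℝ) ^ 2 / η ^ 2 + (R : ℝ) ^ 2 * (η⁻¹) ^ R) * δ := by
    have : 0 ≤ ∑ i ∈ T, |Ew D r S q i| := Finset.sum_nonneg fun i _ => abs_nonneg _
    positivity
  by_cases hTS : T ⊆ S
  swap
  · have : ∑ y, aw S q (D y) * (aw (S \ D y) q' T - aw S q T) = 0 := by
      apply Finset.sum_eq_zero
      intro y _
      rw [delta_aw, if_neg hTS, mul_zero]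
    rw [this, abs_zero]
    positivity
  set t := T.card with ht
  set m : ℝ := (Fintype.card Y : ℝ) with hm_def
  set Z := Zw D S q with hZdef
  set u : ℝ := r / (q * m) with hu
  have hu0 : 0 ≤ u := by positivity
  have hqu : q' = q * (1 - u) := by
    rw [st.eq, hu, ← hm_def]; field_simp
  have hu1 : u ≤ 1 := by
    by_contra h
    push Not at h
    have : q * (1 - u) < 0 := mul_neg_of_pos_of_neg hq0 (by linarith)
    linarith
  have hu1' : 0 < 1 - u := by
    by_contra h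
    push Not at h
    have : q * (1 - u) ≤ 0 := mul_nonpos_of_nonneg_of_nonpos hq0.le h
    linarith
  have hinv : q⁻¹ = q'⁻¹ * (1 - u) := by
    rw [hqu]; field_simp
  have hpow : (q⁻¹) ^ t = (q'⁻¹) ^ t * (1 - u) ^ t := by
    rw [hinv, mul_pow]
  have hsum : ∑ y, aw S q (D y) * (aw (S \ D y) q' T - aw S q T) =
      (q'⁻¹) ^ t * (m * Z * (1 - (1 - u) ^ t) - ∑ y, aw S q (D y) * hit D T y) := by
    calc ∑ y, aw S q (D y) * (aw (S \ D y) q' T - aw S q T)
        = ∑ y, ((q'⁻¹) ^ t * (1 - (1 - u) ^ t) * aw S q (D y) -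
            (q'⁻¹) ^ t * (aw S q (D y) * hit D T y)) := by
          apply Finset.sum_congr rfl
          intro y _
          rw [delta_aw, if_pos hTS, ← ht, hpow]
          ring
      _ = _ := by
          rw [Finset.sum_sub_distrib, ← mul_sum, ← mul_sum, sum_w hs S q]
          ring
  have hht := hit_total hs hδ st.η0 st.η1 hqlo S T hT
  have hL : ∑ i ∈ T, Lw D r S q i = t * q⁻¹ + ∑ i ∈ T, Ew D r S q i := by
    have : ∀ i ∈ T, Lw D r S q i = q⁻¹ + Ew D r S q i := by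
      intro i hi
      unfold Ew aw
      rw [if_pos (Finset.singleton_subset_iff.2 (hTS hi))]
      simp
    rw [Finset.sum_congr rfl this, Finset.sum_add_distrib, sum_const, nsmul_eq_mul]
  obtain ⟨hx1, hx2⟩ := pow_expand t u hu0 hu1
  -- the bracket
  have hmu : m * Z * (t * u) = r * (t * Z * q⁻¹) := by
    rw [hu]; field_simp
  have hrm := rm_le hs
  have herr : m * Z * ((t : ℝ) ^ 2 * u ^ 2) ≤ r * (2 * (R : ℝ) ^ 2 / η ^ 2 * δ) := by
    have h1 : m * Z * ((t : ℝ) ^ 2 * u ^ 2) = r * (Z * (t : ℝ) ^ 2 * (q⁻¹) ^ 2 * (r / m)) := by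
      rw [hu]; field_simp
    rw [h1]
    apply mul_le_mul_of_nonneg_left _ hr.le
    have h2 : (q⁻¹) ^ 2 ≤ (η⁻¹) ^ 2 := pow_le_pow_left₀ (by positivity) (inv_anti₀ hη0 hqlo) 2
    have h3 : (t : ℝ) ^ 2 ≤ (R : ℝ) ^ 2 := by
      apply pow_le_pow_left₀ (Nat.cast_nonneg _)
      exact_mod_cast hT
    have h4 : 2 * (R : ℝ) ^ 2 / η ^ 2 * δ = 2 * (R : ℝ) ^ 2 * (η⁻¹) ^ 2 * δ := by
      field_simp
    rw [h4]
    have h5 : (0 : ℝ) ≤ r / m := by positivity
    gcongr
  have hbr : |m * Z * (1 - (1 - u) ^ t) - ∑ y, aw S q (D y) * hit D T y| ≤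
      (r : ℝ) * ((R / η) * |Z - 1| + ∑ i ∈ T, |Ew D r S q i| +
        (2 * (R : ℝ) ^ 2 / η ^ 2 + (R : ℝ) ^ 2 * (η⁻¹) ^ R) * δ) := by
    have hmZ : 0 ≤ m * Z := by positivity
    have e1 : m * Z * (1 - (1 - u) ^ t) - ∑ y, aw S q (D y) * hit D T y =
        r * (t * q⁻¹ * (Z - 1)) - r * ∑ i ∈ T, Ew D r S q i
        - m * Z * ((1 - u) ^ t - (1 - t * u))
        + ((r : ℝ) * ∑ i ∈ T, Lw D r S q i - ∑ y, aw S q (D y) * hit D T y) := by
      rw [hL]
      have : m * Z * (1 - (1 - u) ^ t) =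
        m * Z * (t * u) - m * Z * ((1 - u) ^ t - (1 - t * u)) := by ring
      rw [this, hmu]
      ring
    rw [e1]
    have a1 : |(r : ℝ) * (t * q⁻¹ * (Z - 1))| ≤ r * ((R / η) * |Z - 1|) := by
      rw [abs_mul, abs_of_nonneg hr.le, abs_mul, abs_of_nonneg (by positivity : 0 ≤ (t:ℝ) * q⁻¹)]
      apply mul_le_mul_of_nonneg_left _ hr.le
      apply mul_le_mul_of_nonneg_right _ (abs_nonneg _)
      rw [div_eq_mul_inv]
      have h2 : q⁻¹ ≤ η⁻¹ := inv_anti₀ hη0 hqlo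
      have h3 : (t : ℝ) ≤ R := by exact_mod_cast hT
      gcongr
    have a2 : |(r : ℝ) * ∑ i ∈ T, Ew D r S q i| ≤ r * ∑ i ∈ T, |Ew D r S q i| := by
      rw [abs_mul, abs_of_nonneg hr.le]
      exact mul_le_mul_of_nonneg_left (Finset.abs_sum_le_sum_abs _ _) hr.le
    have a3 : |m * Z * ((1 - u) ^ t - (1 - t * u))| ≤ r * (2 * (R : ℝ) ^ 2 / η ^ 2 * δ) := by
      rw [abs_of_nonneg (mul_nonneg hmZ hx1)]
      exact (mul_le_mul_of_nonneg_left hx2 hmZ).trans herr
    calc _ ≤ |(r : ℝ) * (t * q⁻¹ * (Z - 1))| + |(r : ℝ) * ∑ i ∈ T, Ew D r S q i|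
          + |m * Z * ((1 - u) ^ t - (1 - t * u))|
          + |(r : ℝ) * ∑ i ∈ T, Lw D r S q i - ∑ y, aw S q (D y) * hit D T y| := by
            refine (abs_add_le _ _).trans ?_
            gcongr
            refine (abs_sub _ _).trans ?_
            gcongr
            exact abs_sub _ _
      _ ≤ _ := by
            have : (R : ℝ) ^ 2 * ((η⁻¹) ^ R * (δ * r)) = r * ((R : ℝ) ^ 2 * (η⁻¹) ^ R * δ) := by
              ring
            rw [this] at hht
            refine (add_le_add (add_le_add (add_le_add a1 a2) a3) hht).trans (le_of_eq ?_)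
            ring
  rw [hsum, abs_mul, abs_of_nonneg (by positivity : 0 ≤ (q'⁻¹) ^ t)]
  have hq't : (q'⁻¹) ^ t ≤ (η⁻¹) ^ R := inv_pow_le st.η0 st.η1 st.lo hT
  calc (q'⁻¹) ^ t * |m * Z * (1 - (1 - u) ^ t) - ∑ y, aw S q (D y) * hit D T y|
      ≤ (η⁻¹) ^ R * ((r : ℝ) * ((R / η) * |Z - 1| + ∑ i ∈ T, |Ew D r S q i| +
        (2 * (R : ℝ) ^ 2 / η ^ 2 + (R : ℝ) ^ 2 * (η⁻¹) ^ R) * δ)) := by
        apply mul_le_mul hq't hbr (abs_nonneg _) hc
    _ = _ := by ring

/-- `0 ≤ q'^{-t} - q^{-t} ≤ (c0 R/η)(r/m)`. -/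
lemma psi_bound {R : ℕ} {δ : ℝ} {r : ℕ} {D : Y → Finset I} (hs : Sys R δ r D)
    {η q q' : ℝ} (st : Stp η δ R r D q q') {t : ℕ} (ht : t ≤ R) :
    0 ≤ (q'⁻¹) ^ t - (q⁻¹) ^ t ∧
      (q'⁻¹) ^ t - (q⁻¹) ^ t ≤ (η⁻¹) ^ R * (R / η) * (r / Fintype.card Y) := by
  have hm := card_pos hs
  have hr := r_pos hs
  have hqlo := q_lo st
  have hq0 : 0 < q := lt_of_lt_of_le st.η0 hqlo
  have hq'0 : 0 < q' := lt_of_lt_of_le st.η0 st.lo
  have hη0 := st.η0
  set m : ℝ := (Fintype.card Y : ℝ) with hm_def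
  set u : ℝ := r / (q * m) with hu
  have hu0 : 0 ≤ u := by positivity
  have hqu : q' = q * (1 - u) := by
    rw [st.eq, hu, ← hm_def]; field_simp
  have hu1' : 0 < 1 - u := by
    by_contra h
    push Not at h
    have : q * (1 - u) ≤ 0 := mul_nonpos_of_nonneg_of_nonpos hq0.le h
    linarith
  have hinv : q⁻¹ = q'⁻¹ * (1 - u) := by
    rw [hqu]; field_simp
  have hpow : (q⁻¹) ^ t = (q'⁻¹) ^ t * (1 - u) ^ t := by
    rw [hinv, mul_pow]
  obtain ⟨hx1, hx2⟩ := pow_expand t u hu0 (by linarith)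
  have h1 : (1 - u) ^ t ≤ 1 := pow_le_one₀ hu1'.le (by linarith)
  have hq't : (q'⁻¹) ^ t ≤ (η⁻¹) ^ R := inv_pow_le st.η0 st.η1 st.lo ht
  have hq'n : 0 ≤ (q'⁻¹) ^ t := by positivity
  rw [hpow]
  constructor
  · exact sub_nonneg.2 (mul_le_of_le_one_right hq'n h1)
  · have h2 : (q'⁻¹) ^ t - (q'⁻¹) ^ t * (1 - u) ^ t = (q'⁻¹) ^ t * (1 - (1 - u) ^ t) := by ring
    rw [h2]
    have h3 : 1 - (1 - u) ^ t ≤ t * u := by linarith
    have h4 : (t : ℝ) * u ≤ (R / η) * (r / m) := by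
      have : u ≤ r / m * η⁻¹ := by
        rw [hu]
        have : (r : ℝ) / (q * m) = r / m * q⁻¹ := by field_simp
        rw [this]
        apply mul_le_mul_of_nonneg_left _ (by positivity)
        exact inv_anti₀ hη0 hqlo
      have h5 : (t : ℝ) ≤ R := by exact_mod_cast ht
      calc (t : ℝ) * u ≤ R * (r / m * η⁻¹) := by gcongr
        _ = _ := by field_simp
    calc (q'⁻¹) ^ t * (1 - (1 - u) ^ t) ≤ (η⁻¹) ^ R * ((R / η) * (r / m)) := by
          apply mul_le_mul hq't (h3.trans h4) (by linarith) (by positivity)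
      _ = _ := by ring

lemma abs_delta {R : ℕ} {δ : ℝ} {r : ℕ} {D : Y → Finset I} (hs : Sys R δ r D)
    {η q q' : ℝ} (st : Stp η δ R r D q q') (S T : Finset I) (hT : T.card ≤ R) (y : Y) :
    |aw (S \ D y) q' T - aw S q T| ≤
      (η⁻¹) ^ R * (R / η) * (r / Fintype.card Y) + (η⁻¹) ^ R * hit D T y := by
  obtain ⟨h1, h2⟩ := psi_bound hs st hT
  have hq'0 : 0 < q' := lt_of_lt_of_le st.η0 st.lo
  have hη0 := st.η0
  have hq't : (q'⁻¹) ^ T.card ≤ (η⁻¹) ^ R := inv_pow_le st.η0 st.η1 st.lo hT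
  have hh := hit_nonneg D T y
  rw [delta_aw]
  split_ifs
  · refine (abs_sub _ _).trans ?_
    rw [abs_of_nonneg h1, abs_of_nonneg (by positivity)]
    gcongr
  · rw [abs_zero]
    positivity

lemma hit_symm (D : Y → Finset I) (y y' : Y) : hit D (D y') y = hit D (D y) y' := by
  unfold hit
  by_cases h : Disjoint (D y) (D y')
  · rw [if_pos h, if_pos h.symm]
  · rw [if_neg h, if_neg fun h' => h h'.symm]

/-- total number of pieces meeting `D y`. -/
lemma sum_hit {R : ℕ} {δ : ℝ} {r : ℕ} {D : Y → Finset I} (hs : Sys R δ r D) (y' : Y) :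
    ∑ y, hit D (D y') y ≤ R * r := by
  calc ∑ y, hit D (D y') y ≤ ∑ y, ∑ j ∈ D y', (if j ∈ D y then (1 : ℝ) else 0) :=
        Finset.sum_le_sum fun y _ => hit_le_sum D (D y') y
    _ = ∑ j ∈ D y', ∑ y, (if j ∈ D y then (1 : ℝ) else 0) := Finset.sum_comm
    _ = ∑ j ∈ D y', (r : ℝ) := Finset.sum_congr rfl fun j _ => sum_mem hs j
    _ = (D y').card * r := by rw [sum_const, nsmul_eq_mul]
    _ ≤ R * r := by
        have : ((D y').card : ℝ) ≤ R := by exact_mod_cast hs.size y'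
        gcongr

/-- number of pieces at `i` meeting `D y`. -/
noncomputable def Nh (D : Y → Finset I) (i : I) (y : Y) : ℝ :=
  ∑ y' ∈ univ.filter (fun y' => i ∈ D y'), hit D (D y') y

lemma Nh_nonneg (D : Y → Finset I) (i : I) (y : Y) : 0 ≤ Nh D i y :=
  Finset.sum_nonneg fun _ _ => hit_nonneg _ _ _

lemma Nh_le {R : ℕ} {δ : ℝ} {r : ℕ} {D : Y → Finset I} (hs : Sys R δ r D) (hδ : 0 < δ) {i : I}
    {y : Y} (hi : i ∉ D y) : Nh D i y ≤ R * (δ * r) := by
  unfold Nh
  calc ∑ y' ∈ univ.filter (fun y' => i ∈ D y'), hit D (D y') y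
      = ∑ y' ∈ univ.filter (fun y' => i ∈ D y'), hit D (D y) y' :=
        Finset.sum_congr rfl fun y' _ => hit_symm D y y'
    _ ≤ ∑ y' ∈ univ.filter (fun y' => i ∈ D y'), ∑ j ∈ D y,
          (if j ∈ D y' then (1 : ℝ) else 0) :=
        Finset.sum_le_sum fun y' _ => hit_le_sum D (D y) y'
    _ = ∑ j ∈ D y, ∑ y' ∈ univ.filter (fun y' => i ∈ D y'),
          (if j ∈ D y' then (1 : ℝ) else 0) := Finset.sum_comm
    _ = ∑ j ∈ D y, ∑ y', (if i ∈ D y' ∧ j ∈ D y' then (1 : ℝ) else 0) := by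
        apply Finset.sum_congr rfl
        intro j _
        rw [Finset.sum_filter]
        apply Finset.sum_congr rfl
        intro y' _
        by_cases h1 : i ∈ D y' <;> by_cases h2 : j ∈ D y' <;> simp [h1, h2]
    _ ≤ ∑ j ∈ D y, (δ * r) := by
        apply Finset.sum_le_sum
        intro j hj
        exact sum_mem2 hs (fun h => hi (h ▸ hj))
    _ = (D y).card * (δ * r) := by rw [sum_const, nsmul_eq_mul]
    _ ≤ R * (δ * r) := by
        have : ((D y).card : ℝ) ≤ R := by exact_mod_cast hs.size y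
        have := r_pos hs
        gcongr

lemma sum_Nh {R : ℕ} {δ : ℝ} {r : ℕ} {D : Y → Finset I} (hs : Sys R δ r D) (i : I) :
    ∑ y, Nh D i y ≤ R * (r : ℝ) ^ 2 := by
  unfold Nh
  rw [Finset.sum_comm]
  calc ∑ y' ∈ univ.filter (fun y' => i ∈ D y'), ∑ y, hit D (D y') y
      ≤ ∑ y' ∈ univ.filter (fun y' => i ∈ D y'), ((R : ℝ) * r) :=
        Finset.sum_le_sum fun y' _ => sum_hit hs y'
    _ = R * (r : ℝ) ^ 2 := by
        rw [sum_const, hs.deg i, nsmul_eq_mul]; ring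

lemma R_pos {R : ℕ} {δ : ℝ} {r : ℕ} {D : Y → Finset I} (hs : Sys R δ r D) : 1 ≤ R := by
  have h := card_pos hs
  have h2 : 0 < Fintype.card Y := by exact_mod_cast h
  obtain ⟨y⟩ := Fintype.card_pos_iff.1 h2
  have h3 := hs.ne y
  exact (Finset.card_pos.2 h3).trans_le (hs.size y)

/-- increment of the error. -/
lemma Ew_sub {R : ℕ} {δ : ℝ} {r : ℕ} {D : Y → Finset I} (_ : Sys R δ r D) (S : Finset I)
    (q q' : ℝ) (i : I) (y : Y) :
    Ew D r (S \ D y) q' i - Ew D r S q i =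
      (∑ y' ∈ univ.filter (fun y' => i ∈ D y'), (aw (S \ D y) q' (D y') - aw S q (D y'))) / r -
        (aw (S \ D y) q' {i} - aw S q {i}) := by
  unfold Ew Lw
  rw [Finset.sum_sub_distrib]
  ring

lemma Ew_zero (D : Y → Finset I) (r : ℕ) (S : Finset I) (q' : ℝ) {i : I} {y : Y}
    (hi : i ∈ D y) : Ew D r (S \ D y) q' i = 0 := by
  unfold Ew Lw
  have h1 : ∑ y' ∈ univ.filter (fun y' => i ∈ D y'), aw (S \ D y) q' (D y') = 0 := by
    apply Finset.sum_eq_zero
    intro y' hy'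
    rw [Finset.mem_filter] at hy'
    unfold aw
    rw [if_neg]
    intro h
    exact (Finset.mem_sdiff.1 (h hy'.2)).2 hi
  have h2 : aw (S \ D y) q' {i} = 0 := by
    unfold aw
    rw [if_neg]
    intro h
    exact (Finset.mem_sdiff.1 (Finset.singleton_subset_iff.1 h)).2 hi
  rw [h1, h2]
  simp

/-- second order term at `i`. -/
lemma second_order_E {R : ℕ} {δ : ℝ} {r : ℕ} {D : Y → Finset I} (hs : Sys R δ r D) (hδ : 0 < δ)
    {η q q' : ℝ} (st : Stp η δ R r D q q') (S : Finset I) (i : I)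
    (hZ : Zw D S q ≤ 2) :
    ∑ y, aw S q (D y) * (Ew D r (S \ D y) q' i - Ew D r S q i) ^ 2 ≤
      (r : ℝ) * ((η⁻¹) ^ R * (Ew D r S q i) ^ 2 +
        (16 * ((η⁻¹) ^ R * (R / η)) ^ 2 + 2 * ((η⁻¹) ^ R) ^ 3 * (R : ℝ) ^ 2) * δ) := by
  have hm := card_pos hs
  have hr := r_pos hs
  have hqlo := q_lo st
  have hη0 := st.η0
  have hq0 : 0 < q := lt_of_lt_of_le st.η0 hqlo
  set c0 : ℝ := (η⁻¹) ^ R with hc0
  have hc : 0 < c0 := by positivity
  set m : ℝ := (Fintype.card Y : ℝ) with hm_def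
  set c2 : ℝ := c0 * (R / η) with hc2
  have hc2' : 0 ≤ c2 := by positivity
  set E := Ew D r S q i with hE
  have hw : ∀ y, 0 ≤ aw S q (D y) := fun y => aw_nonneg S hq0 _
  have hwc : ∀ y, aw S q (D y) ≤ c0 := fun y => aw_le st.η0 st.η1 hqlo S _ (hs.size y)
  have hpt : ∀ y, (Ew D r (S \ D y) q' i - E) ^ 2 ≤
      (if i ∈ D y then (1 : ℝ) else 0) * E ^ 2 + 8 * c2 ^ 2 * (r / m) ^ 2 +
        2 * (c0 / r) ^ 2 * (R * (δ * r)) * Nh D i y := by
    intro y
    have hN := Nh_nonneg D i y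
    by_cases hi : i ∈ D y
    · rw [Ew_zero D r S q' hi, if_pos hi]
      have h1 : 0 ≤ 8 * c2 ^ 2 * (r / m) ^ 2 := by positivity
      have h2 : 0 ≤ 2 * (c0 / r) ^ 2 * (R * (δ * r)) * Nh D i y := by positivity
      have h3 : (0 - E) ^ 2 = 1 * E ^ 2 := by ring
      linarith
    · rw [if_neg hi, hE, Ew_sub hs]
      have hb : |(∑ y' ∈ univ.filter (fun y' => i ∈ D y'),
          (aw (S \ D y) q' (D y') - aw S q (D y'))) / r -
          (aw (S \ D y) q' {i} - aw S q {i})| ≤ 2 * (c2 * (r / m)) + c0 / r * Nh D i y := by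
        refine (abs_sub _ _).trans ?_
        have h1 : |aw (S \ D y) q' {i} - aw S q {i}| ≤ c2 * (r / m) := by
          have := abs_delta hs st S {i} (by simpa using R_pos hs) y
          have h2 : hit D {i} y = 0 := by
            unfold hit
            rw [if_pos]
            simpa using hi
          rw [h2, mul_zero, add_zero] at this
          exact this
        have h2 : |(∑ y' ∈ univ.filter (fun y' => i ∈ D y'),
            (aw (S \ D y) q' (D y') - aw S q (D y'))) / r| ≤ c2 * (r / m) + c0 / r * Nh D i y := by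
          rw [abs_div, abs_of_pos hr, div_le_iff₀ hr]
          calc |∑ y' ∈ univ.filter (fun y' => i ∈ D y'),
                (aw (S \ D y) q' (D y') - aw S q (D y'))|
              ≤ ∑ y' ∈ univ.filter (fun y' => i ∈ D y'),
                |aw (S \ D y) q' (D y') - aw S q (D y')| := Finset.abs_sum_le_sum_abs _ _
            _ ≤ ∑ y' ∈ univ.filter (fun y' => i ∈ D y'),
                (c2 * (r / m) + c0 * hit D (D y') y) :=
                Finset.sum_le_sum fun y' _ => abs_delta hs st S (D y') (hs.size y') y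
            _ = r * (c2 * (r / m)) + c0 * Nh D i y := by
                rw [Finset.sum_add_distrib, sum_const, hs.deg i, nsmul_eq_mul, ← mul_sum]
                rfl
            _ = _ := by field_simp
        linarith
      have hsq : ((∑ y' ∈ univ.filter (fun y' => i ∈ D y'),
          (aw (S \ D y) q' (D y') - aw S q (D y'))) / r -
          (aw (S \ D y) q' {i} - aw S q {i})) ^ 2 ≤
          (2 * (c2 * (r / m)) + c0 / r * Nh D i y) ^ 2 := sq_le_sq' (abs_le.1 hb).1 (abs_le.1 hb).2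
      refine hsq.trans ?_
      have h3 := Nh_le hs hδ hi
      have h4 : (2 * (c2 * (r / m)) + c0 / r * Nh D i y) ^ 2 ≤
          2 * (2 * (c2 * (r / m))) ^ 2 + 2 * (c0 / r * Nh D i y) ^ 2 := by
        have hgen : ∀ X Z : ℝ, (X + Z) ^ 2 ≤ 2 * X ^ 2 + 2 * Z ^ 2 := fun X Z => by
          have hXZ := sq_nonneg (X - Z)
          have e1 : (X - Z) ^ 2 = X ^ 2 - 2 * (X * Z) + Z ^ 2 := by ring
          have e2 : (X + Z) ^ 2 = X ^ 2 + 2 * (X * Z) + Z ^ 2 := by ring
          rw [e1] at hXZ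
          rw [e2]
          linarith
        exact hgen _ _
      have h5 : (c0 / r * Nh D i y) ^ 2 ≤ (c0 / r) ^ 2 * (R * (δ * r)) * Nh D i y := by
        have : (c0 / r * Nh D i y) ^ 2 = (c0 / r) ^ 2 * Nh D i y * Nh D i y := by ring
        rw [this]
        gcongr
      have h6 : 2 * (2 * (c2 * (r / m))) ^ 2 = 8 * c2 ^ 2 * (r / m) ^ 2 := by ring
      have h7 : 2 * ((c0 / r) ^ 2 * (R * (δ * r)) * Nh D i y) =
          2 * (c0 / r) ^ 2 * (R * (δ * r)) * Nh D i y := by ring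
      rw [h6] at h4
      rw [zero_mul]
      linarith
  have hLc : ∑ y, aw S q (D y) * (if i ∈ D y then (1 : ℝ) else 0) ≤ r * c0 := by
    calc ∑ y, aw S q (D y) * (if i ∈ D y then (1 : ℝ) else 0)
        ≤ ∑ y, c0 * (if i ∈ D y then (1 : ℝ) else 0) := by
          apply Finset.sum_le_sum
          intro y _
          apply mul_le_mul_of_nonneg_right (hwc y)
          split_ifs <;> norm_num
      _ = r * c0 := by rw [← mul_sum, sum_mem hs i]; ring
  have hrm := rm_le hs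
  rw [← hm_def] at hrm
  calc ∑ y, aw S q (D y) * (Ew D r (S \ D y) q' i - E) ^ 2
      ≤ ∑ y, (E ^ 2 * (aw S q (D y) * (if i ∈ D y then (1 : ℝ) else 0)) +
          8 * c2 ^ 2 * (r / m) ^ 2 * aw S q (D y) +
          2 * (c0 / r) ^ 2 * (R * (δ * r)) * c0 * Nh D i y) := by
        apply Finset.sum_le_sum
        intro y _
        have hN := Nh_nonneg D i y
        calc aw S q (D y) * (Ew D r (S \ D y) q' i - E) ^ 2
            ≤ aw S q (D y) * ((if i ∈ D y then (1 : ℝ) else 0) * E ^ 2 +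
              8 * c2 ^ 2 * (r / m) ^ 2 + 2 * (c0 / r) ^ 2 * (R * (δ * r)) * Nh D i y) :=
              mul_le_mul_of_nonneg_left (hpt y) (hw y)
          _ = E ^ 2 * (aw S q (D y) * (if i ∈ D y then (1 : ℝ) else 0)) +
              8 * c2 ^ 2 * (r / m) ^ 2 * aw S q (D y) +
              aw S q (D y) * (2 * (c0 / r) ^ 2 * (R * (δ * r)) * Nh D i y) := by ring
          _ ≤ _ := by
              have h1 : aw S q (D y) * (2 * (c0 / r) ^ 2 * (R * (δ * r)) * Nh D i y) ≤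
                  c0 * (2 * (c0 / r) ^ 2 * (R * (δ * r)) * Nh D i y) :=
                mul_le_mul_of_nonneg_right (hwc y) (by positivity)
              linarith
    _ = E ^ 2 * (∑ y, aw S q (D y) * (if i ∈ D y then (1 : ℝ) else 0)) +
          8 * c2 ^ 2 * (r / m) ^ 2 * ∑ y, aw S q (D y) +
          2 * (c0 / r) ^ 2 * (R * (δ * r)) * c0 * ∑ y, Nh D i y := by
        rw [Finset.sum_add_distrib, Finset.sum_add_distrib, ← mul_sum, ← mul_sum, ← mul_sum]
    _ ≤ E ^ 2 * (r * c0) + 8 * c2 ^ 2 * (r / m) ^ 2 * (m * 2) +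
          2 * (c0 / r) ^ 2 * (R * (δ * r)) * c0 * (R * (r : ℝ) ^ 2) := by
        rw [sum_w hs S q, ← hm_def]
        have := sum_Nh hs i
        gcongr
    _ = r * (c0 * E ^ 2 + 16 * c2 ^ 2 * (r / m) + 2 * c0 ^ 3 * (R : ℝ) ^ 2 * δ) := by
        field_simp
        ring
    _ ≤ r * (c0 * E ^ 2 + 16 * c2 ^ 2 * δ + 2 * c0 ^ 3 * (R : ℝ) ^ 2 * δ) := by
        gcongr
    _ = _ := by ring

/-- second order term for `Z`. -/
lemma second_order_Z {R : ℕ} {δ : ℝ} {r : ℕ} {D : Y → Finset I} (hs : Sys R δ r D)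
    {η q q' : ℝ} (st : Stp η δ R r D q q') (S : Finset I)
    (hZ : Zw D S q ≤ 2) :
    ∑ y, aw S q (D y) * (Zw D (S \ D y) q' - Zw D S q) ^ 2 ≤
      (r : ℝ) * (2 * ((η⁻¹) ^ R * (R / η) + (η⁻¹) ^ R * R) ^ 2 * δ) := by
  have hm := card_pos hs
  have hr := r_pos hs
  have hqlo := q_lo st
  have hη0 := st.η0
  have hq0 : 0 < q := lt_of_lt_of_le st.η0 hqlo
  set c0 : ℝ := (η⁻¹) ^ R with hc0
  have hc : 0 < c0 := by positivity
  set m : ℝ := (Fintype.card Y : ℝ) with hm_def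
  set c2 : ℝ := c0 * (R / η) with hc2
  have hc2' : 0 ≤ c2 := by positivity
  have hw : ∀ y, 0 ≤ aw S q (D y) := fun y => aw_nonneg S hq0 _
  have hrm := rm_le hs
  rw [← hm_def] at hrm
  have hpt : ∀ y, (Zw D (S \ D y) q' - Zw D S q) ^ 2 ≤ ((c2 + c0 * R) * (r / m)) ^ 2 := by
    intro y
    have hb : |Zw D (S \ D y) q' - Zw D S q| ≤ (c2 + c0 * R) * (r / m) := by
      have h1 : Zw D (S \ D y) q' - Zw D S q =
          (∑ y', (aw (S \ D y) q' (D y') - aw S q (D y'))) / m := by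
        unfold Zw
        rw [Finset.sum_sub_distrib]
        ring
      rw [h1, abs_div, abs_of_pos hm, div_le_iff₀ hm]
      calc |∑ y', (aw (S \ D y) q' (D y') - aw S q (D y'))|
          ≤ ∑ y', |aw (S \ D y) q' (D y') - aw S q (D y')| := Finset.abs_sum_le_sum_abs _ _
        _ ≤ ∑ y', (c2 * (r / m) + c0 * hit D (D y') y) :=
            Finset.sum_le_sum fun y' _ => abs_delta hs st S (D y') (hs.size y') y
        _ = m * (c2 * (r / m)) + c0 * ∑ y', hit D (D y) y' := by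
            rw [Finset.sum_add_distrib, sum_const, nsmul_eq_mul, ← mul_sum, Finset.card_univ]
            congr 2
            exact Finset.sum_congr rfl fun y' _ => hit_symm D y y'
        _ ≤ m * (c2 * (r / m)) + c0 * (R * r) := by
            have := sum_hit hs y
            gcongr
        _ = _ := by field_simp
    exact sq_le_sq' (abs_le.1 hb).1 (abs_le.1 hb).2
  calc ∑ y, aw S q (D y) * (Zw D (S \ D y) q' - Zw D S q) ^ 2
      ≤ ∑ y, aw S q (D y) * ((c2 + c0 * R) * (r / m)) ^ 2 :=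
        Finset.sum_le_sum fun y _ => mul_le_mul_of_nonneg_left (hpt y) (hw y)
    _ = (m * Zw D S q) * ((c2 + c0 * R) * (r / m)) ^ 2 := by
        rw [← Finset.sum_mul, sum_w hs S q]
    _ ≤ (m * 2) * ((c2 + c0 * R) * (r / m)) ^ 2 := by gcongr
    _ = r * (2 * (c2 + c0 * R) ^ 2 * (r / m)) := by field_simp
    _ ≤ _ := by gcongr

/-- first order term at `i`, weighted by `2|E_i|`. -/
lemma first_order_E {R : ℕ} {δ : ℝ} {r : ℕ} {D : Y → Finset I} (hs : Sys R δ r D) (hδ : 0 < δ)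
    {η q q' : ℝ} (st : Stp η δ R r D q q') (S : Finset I)
    (hZ : Zw D S q ≤ 2) (hZ0 : 0 ≤ Zw D S q) :
    ∑ i, 2 * Ew D r S q i * ∑ y, aw S q (D y) * (Ew D r (S \ D y) q' i - Ew D r S q i) ≤
      (r : ℝ) * ((η⁻¹) ^ R * ((2 * (R / η) + 4 + 2 * R) * ∑ i, (Ew D r S q i) ^ 2 +
        Fintype.card I * (2 * (R / η) * (Zw D S q - 1) ^ 2 +
          2 * ((2 * (R : ℝ) ^ 2 / η ^ 2 + (R : ℝ) ^ 2 * (η⁻¹) ^ R) * δ) ^ 2))) := by
  have hm := card_pos hs
  have hr := r_pos hs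
  have hη0 := st.η0
  set c0 : ℝ := (η⁻¹) ^ R with hc0
  have hc : 0 < c0 := by positivity
  set β : ℝ := R / η with hβ
  have hβ0 : 0 ≤ β := by positivity
  set κ : ℝ := (2 * (R : ℝ) ^ 2 / η ^ 2 + (R : ℝ) ^ 2 * c0) * δ with hκ
  have hκ0 : 0 ≤ κ := by positivity
  set z : ℝ := Zw D S q - 1 with hz
  set E : I → ℝ := fun i => Ew D r S q i with hE
  set FO : Finset I → ℝ := fun T => ∑ y, aw S q (D y) * (aw (S \ D y) q' T - aw S q T) with hFO
  have hFOb : ∀ T : Finset I, T.card ≤ R →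
      |FO T| ≤ r * (c0 * (β * |z| + ∑ i ∈ T, |E i| + κ)) :=
    fun T hT => first_order hs hδ st S T hT hZ hZ0
  have hlin : ∀ i, ∑ y, aw S q (D y) * (Ew D r (S \ D y) q' i - Ew D r S q i) =
      (∑ y' ∈ univ.filter (fun y' => i ∈ D y'), FO (D y')) / r - FO {i} := by
    intro i
    simp_rw [Ew_sub hs, hFO]
    rw [Finset.sum_comm, Finset.sum_div, ← Finset.sum_sub_distrib]
    apply Finset.sum_congr rfl
    intro y _
    rw [mul_sub, mul_sub, ← mul_div_assoc, Finset.mul_sum]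
  -- pointwise bound
  have hpt : ∀ i, 2 * E i * ∑ y, aw S q (D y) * (Ew D r (S \ D y) q' i - Ew D r S q i) ≤
      c0 * (r * ((2 * β + 4) * E i ^ 2 + 2 * β * z ^ 2 + 2 * κ ^ 2) +
        ∑ y' ∈ univ.filter (fun y' => i ∈ D y'), ∑ j ∈ D y', (E i ^ 2 + E j ^ 2)) := by
    intro i
    rw [hlin i]
    have h1 : |(∑ y' ∈ univ.filter (fun y' => i ∈ D y'), FO (D y')) / r - FO {i}| ≤
        c0 * (r * (β * |z| + κ) + ∑ y' ∈ univ.filter (fun y' => i ∈ D y'), ∑ j ∈ D y', |E j|) +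
        r * (c0 * (β * |z| + |E i| + κ)) := by
      refine (abs_sub _ _).trans ?_
      apply add_le_add
      · rw [abs_div, abs_of_pos hr, div_le_iff₀ hr]
        calc |∑ y' ∈ univ.filter (fun y' => i ∈ D y'), FO (D y')|
            ≤ ∑ y' ∈ univ.filter (fun y' => i ∈ D y'), |FO (D y')| :=
              Finset.abs_sum_le_sum_abs _ _
          _ ≤ ∑ y' ∈ univ.filter (fun y' => i ∈ D y'),
              (r * (c0 * (β * |z| + κ)) + r * c0 * ∑ j ∈ D y', |E j|) := by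
              apply Finset.sum_le_sum
              intro y' _
              refine (hFOb (D y') (hs.size y')).trans (le_of_eq ?_)
              ring
          _ = r * (r * (c0 * (β * |z| + κ))) + r * c0 *
              ∑ y' ∈ univ.filter (fun y' => i ∈ D y'), ∑ j ∈ D y', |E j| := by
              rw [Finset.sum_add_distrib, sum_const, hs.deg i, nsmul_eq_mul, ← mul_sum]
          _ = _ := by ring
      · have := hFOb {i} (by simpa using R_pos hs)
        simpa using this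
    have h2 : 2 * E i * ((∑ y' ∈ univ.filter (fun y' => i ∈ D y'), FO (D y')) / r - FO {i}) ≤
        2 * |E i| * (c0 * (r * (β * |z| + κ) +
          ∑ y' ∈ univ.filter (fun y' => i ∈ D y'), ∑ j ∈ D y', |E j|) +
        r * (c0 * (β * |z| + |E i| + κ))) := by
      refine (le_abs_self _).trans ?_
      rw [abs_mul, abs_mul, abs_two]
      exact mul_le_mul_of_nonneg_left h1 (by positivity)
    refine h2.trans ?_
    have h3 : 2 * |E i| * ∑ y' ∈ univ.filter (fun y' => i ∈ D y'), ∑ j ∈ D y', |E j| ≤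
        ∑ y' ∈ univ.filter (fun y' => i ∈ D y'), ∑ j ∈ D y', (E i ^ 2 + E j ^ 2) := by
      rw [mul_sum]
      apply Finset.sum_le_sum
      intro y' _
      rw [mul_sum]
      apply Finset.sum_le_sum
      intro j _
      have := sq_nonneg (|E i| - |E j|)
      have e1 := sq_abs (E i)
      have e2 := sq_abs (E j)
      linarith
    have e1 := sq_abs (E i)
    have e2 := sq_abs z
    have h4 : 2 * |E i| * |z| ≤ E i ^ 2 + z ^ 2 := by
      linarith [sq_nonneg (|E i| - |z|)]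
    have h5 : 2 * |E i| * κ ≤ E i ^ 2 + κ ^ 2 := by
      linarith [sq_nonneg (|E i| - κ)]
    calc 2 * |E i| * (c0 * (r * (β * |z| + κ) +
          ∑ y' ∈ univ.filter (fun y' => i ∈ D y'), ∑ j ∈ D y', |E j|) +
          r * (c0 * (β * |z| + |E i| + κ)))
        = c0 * (r * (2 * β * (2 * |E i| * |z|) + 2 * (2 * |E i| * κ) + 2 * |E i| ^ 2) +
          2 * |E i| * ∑ y' ∈ univ.filter (fun y' => i ∈ D y'), ∑ j ∈ D y', |E j|) := by ring
      _ ≤ c0 * (r * (2 * β * (E i ^ 2 + z ^ 2) + 2 * (E i ^ 2 + κ ^ 2) + 2 * |E i| ^ 2) +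
          ∑ y' ∈ univ.filter (fun y' => i ∈ D y'), ∑ j ∈ D y', (E i ^ 2 + E j ^ 2)) := by
          gcongr
      _ = _ := by rw [e1]; ring
  have hdd : ∑ i, ∑ y' ∈ univ.filter (fun y' => i ∈ D y'), ∑ j ∈ D y', (E i ^ 2 + E j ^ 2) ≤
      2 * R * (r * ∑ i, E i ^ 2) := by
    rw [dbl2 hs (fun i y' => ∑ j ∈ D y', (E i ^ 2 + E j ^ 2)), ← dbl hs (fun i => E i ^ 2),
      mul_sum]
    apply Finset.sum_le_sum
    intro y' _
    have h1 : ∑ i ∈ D y', ∑ j ∈ D y', (E i ^ 2 + E j ^ 2) =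
        2 * (D y').card * ∑ i ∈ D y', E i ^ 2 := by
      simp_rw [Finset.sum_add_distrib, sum_const, nsmul_eq_mul]
      rw [← mul_sum]
      ring
    rw [h1]
    have h2 : ((D y').card : ℝ) ≤ R := by exact_mod_cast hs.size y'
    have h3 : 0 ≤ ∑ i ∈ D y', E i ^ 2 := Finset.sum_nonneg fun _ _ => sq_nonneg _
    gcongr
  calc ∑ i, 2 * E i * ∑ y, aw S q (D y) * (Ew D r (S \ D y) q' i - Ew D r S q i)
      ≤ ∑ i, c0 * (r * ((2 * β + 4) * E i ^ 2 + 2 * β * z ^ 2 + 2 * κ ^ 2) +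
        ∑ y' ∈ univ.filter (fun y' => i ∈ D y'), ∑ j ∈ D y', (E i ^ 2 + E j ^ 2)) :=
        Finset.sum_le_sum fun i _ => hpt i
    _ = c0 * (r * ((2 * β + 4) * ∑ i, E i ^ 2 + Fintype.card I * (2 * β * z ^ 2 + 2 * κ ^ 2)) +
        ∑ i, ∑ y' ∈ univ.filter (fun y' => i ∈ D y'), ∑ j ∈ D y', (E i ^ 2 + E j ^ 2)) := by
        rw [← mul_sum, Finset.sum_add_distrib, ← mul_sum, Finset.sum_add_distrib,
          Finset.sum_add_distrib, ← mul_sum]
        simp only [sum_const, nsmul_eq_mul, Finset.card_univ]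
        ring
    _ ≤ c0 * (r * ((2 * β + 4) * ∑ i, E i ^ 2 + Fintype.card I * (2 * β * z ^ 2 + 2 * κ ^ 2)) +
        2 * R * (r * ∑ i, E i ^ 2)) := by gcongr
    _ = _ := by ring

/-- first order term for `Z`. -/
lemma first_order_Z {R : ℕ} {δ : ℝ} {r : ℕ} {D : Y → Finset I} (hs : Sys R δ r D) (hδ : 0 < δ)
    {η q q' : ℝ} (st : Stp η δ R r D q q') (S : Finset I)
    (hZ : Zw D S q ≤ 2) (hZ0 : 0 ≤ Zw D S q) :
    2 * (Zw D S q - 1) * ∑ y, aw S q (D y) * (Zw D (S \ D y) q' - Zw D S q) ≤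
      (r : ℝ) * ((η⁻¹) ^ R * ((2 * (R / η) + 1 + R) * (Zw D S q - 1) ^ 2 +
        ((2 * (R : ℝ) ^ 2 / η ^ 2 + (R : ℝ) ^ 2 * (η⁻¹) ^ R) * δ) ^ 2 +
        (r / Fintype.card Y) * ∑ i, (Ew D r S q i) ^ 2)) := by
  have hm := card_pos hs
  have hr := r_pos hs
  have hη0 := st.η0
  set c0 : ℝ := (η⁻¹) ^ R with hc0
  have hc : 0 < c0 := by positivity
  set β : ℝ := R / η with hβ
  have hβ0 : 0 ≤ β := by positivity
  set κ : ℝ := (2 * (R : ℝ) ^ 2 / η ^ 2 + (R : ℝ) ^ 2 * c0) * δ with hκ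
  have hκ0 : 0 ≤ κ := by positivity
  set z : ℝ := Zw D S q - 1 with hz
  set m : ℝ := (Fintype.card Y : ℝ) with hm_def
  set E : I → ℝ := fun i => Ew D r S q i with hE
  set FO : Finset I → ℝ := fun T => ∑ y, aw S q (D y) * (aw (S \ D y) q' T - aw S q T) with hFO
  have hFOb : ∀ T : Finset I, T.card ≤ R →
      |FO T| ≤ r * (c0 * (β * |z| + ∑ i ∈ T, |E i| + κ)) :=
    fun T hT => first_order hs hδ st S T hT hZ hZ0
  have hlin : ∑ y, aw S q (D y) * (Zw D (S \ D y) q' - Zw D S q) = (∑ y', FO (D y')) / m := by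
    have : ∀ y, Zw D (S \ D y) q' - Zw D S q =
        (∑ y', (aw (S \ D y) q' (D y') - aw S q (D y'))) / m := by
      intro y
      unfold Zw
      rw [Finset.sum_sub_distrib]
      ring
    simp_rw [this, hFO]
    rw [Finset.sum_comm, Finset.sum_div]
    apply Finset.sum_congr rfl
    intro y _
    rw [← mul_div_assoc, Finset.mul_sum]
  rw [hlin]
  have h1 : |(∑ y', FO (D y')) / m| ≤ r * c0 * (β * |z| + κ) +
      r * c0 / m * ∑ y', ∑ j ∈ D y', |E j| := by
    rw [abs_div, abs_of_pos hm, div_le_iff₀ hm]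
    calc |∑ y', FO (D y')| ≤ ∑ y', |FO (D y')| := Finset.abs_sum_le_sum_abs _ _
      _ ≤ ∑ y', (r * c0 * (β * |z| + κ) + r * c0 * ∑ j ∈ D y', |E j|) := by
          apply Finset.sum_le_sum
          intro y' _
          refine (hFOb (D y') (hs.size y')).trans (le_of_eq ?_)
          ring
      _ = m * (r * c0 * (β * |z| + κ)) + r * c0 * ∑ y', ∑ j ∈ D y', |E j| := by
          rw [Finset.sum_add_distrib, sum_const, nsmul_eq_mul, Finset.card_univ, ← mul_sum]
      _ = _ := by field_simp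
  have h2 : 2 * z * ((∑ y', FO (D y')) / m) ≤ 2 * |z| * (r * c0 * (β * |z| + κ) +
      r * c0 / m * ∑ y', ∑ j ∈ D y', |E j|) := by
    refine (le_abs_self _).trans ?_
    rw [abs_mul, abs_mul, abs_two]
    exact mul_le_mul_of_nonneg_left h1 (by positivity)
  refine h2.trans ?_
  have e2 := sq_abs z
  have h3 : 2 * |z| * ∑ y', ∑ j ∈ D y', |E j| ≤ R * m * z ^ 2 + r * ∑ i, E i ^ 2 := by
    rw [← dbl hs (fun i => E i ^ 2), mul_sum]
    calc ∑ y', 2 * |z| * ∑ j ∈ D y', |E j| ≤ ∑ y', (R * z ^ 2 + ∑ j ∈ D y', E j ^ 2) := by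
          apply Finset.sum_le_sum
          intro y' _
          rw [mul_sum]
          calc ∑ j ∈ D y', 2 * |z| * |E j| ≤ ∑ j ∈ D y', (z ^ 2 + E j ^ 2) := by
                apply Finset.sum_le_sum
                intro j _
                have := sq_nonneg (|z| - |E j|)
                have e3 := sq_abs (E j)
                linarith
            _ = (D y').card * z ^ 2 + ∑ j ∈ D y', E j ^ 2 := by
                rw [Finset.sum_add_distrib, sum_const, nsmul_eq_mul]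
            _ ≤ _ := by
                have : ((D y').card : ℝ) ≤ R := by exact_mod_cast hs.size y'
                gcongr
      _ = _ := by
          rw [Finset.sum_add_distrib, sum_const, nsmul_eq_mul, Finset.card_univ]
          ring
  have h5 : 2 * |z| * κ ≤ z ^ 2 + κ ^ 2 := by
    linarith [sq_nonneg (|z| - κ)]
  calc 2 * |z| * (r * c0 * (β * |z| + κ) + r * c0 / m * ∑ y', ∑ j ∈ D y', |E j|)
      = r * c0 * (2 * β * |z| ^ 2 + 2 * |z| * κ) +
        r * c0 / m * (2 * |z| * ∑ y', ∑ j ∈ D y', |E j|) := by ring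
    _ ≤ r * c0 * (2 * β * |z| ^ 2 + (z ^ 2 + κ ^ 2)) +
        r * c0 / m * (R * m * z ^ 2 + r * ∑ i, E i ^ 2) := by gcongr
    _ = _ := by rw [e2]; field_simp; ring

/-- the constant of the one-step inequality. -/
noncomputable def Cst (R : ℕ) (η : ℝ) : ℝ :=
  (η⁻¹) ^ R * (4 * (R / η) + 5 + 3 * R) +
    3 * (η⁻¹) ^ R * (2 * (R : ℝ) ^ 2 / η ^ 2 + (R : ℝ) ^ 2 * (η⁻¹) ^ R) ^ 2 +
    (16 * ((η⁻¹) ^ R * (R / η)) ^ 2 + 2 * ((η⁻¹) ^ R) ^ 3 * (R : ℝ) ^ 2) +
    2 * ((η⁻¹) ^ R * (R / η) + (η⁻¹) ^ R * R) ^ 2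

lemma card_I_pos {R : ℕ} {δ : ℝ} {r : ℕ} {D : Y → Finset I} (hs : Sys R δ r D) :
    (0 : ℝ) < Fintype.card I := by
  have h := card_pos hs
  have h2 : 0 < Fintype.card Y := by exact_mod_cast h
  obtain ⟨y⟩ := Fintype.card_pos_iff.1 h2
  obtain ⟨i, _⟩ := hs.ne y
  have : 0 < Fintype.card I := Fintype.card_pos_iff.2 ⟨i⟩
  exact_mod_cast this

/-- `r k ≤ R m`. -/
lemma rk_le {R : ℕ} {δ : ℝ} {r : ℕ} {D : Y → Finset I} (hs : Sys R δ r D) :
    (r : ℝ) * Fintype.card I ≤ R * Fintype.card Y := by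
  have h := dbl hs (fun _ => (1 : ℝ))
  simp only [sum_const, nsmul_eq_mul, mul_one, Finset.card_univ] at h
  rw [← h]
  calc ∑ y, ((D y).card : ℝ) ≤ ∑ _y : Y, (R : ℝ) :=
        Finset.sum_le_sum fun y _ => by exact_mod_cast hs.size y
    _ = _ := by rw [sum_const, nsmul_eq_mul, Finset.card_univ]; ring

/-- `m ≤ r k`. -/
lemma m_le {R : ℕ} {δ : ℝ} {r : ℕ} {D : Y → Finset I} (hs : Sys R δ r D) :
    (Fintype.card Y : ℝ) ≤ r * Fintype.card I := by
  have h := dbl hs (fun _ => (1 : ℝ))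
  simp only [sum_const, nsmul_eq_mul, mul_one, Finset.card_univ] at h
  rw [← h]
  calc (Fintype.card Y : ℝ) = ∑ _y : Y, (1 : ℝ) := by
        rw [sum_const, nsmul_eq_mul, Finset.card_univ]; ring
    _ ≤ _ := Finset.sum_le_sum fun y _ => by
        have := Finset.card_pos.2 (hs.ne y)
        exact_mod_cast this

/-- the averaged one-step inequality. -/
lemma step_avg {R : ℕ} {δ : ℝ} {r : ℕ} {D : Y → Finset I} (hs : Sys R δ r D) (hδ : 0 < δ)
    (hδ1 : δ ≤ 1) {η q q' : ℝ} (st : Stp η δ R r D q q') (S : Finset I)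
    (hZ : Zw D S q ≤ 2) (hZ0 : 0 ≤ Zw D S q) :
    ∑ y, aw S q (D y) * (Pw D r (S \ D y) q' - Pw D r S q) ≤
      (r : ℝ) * (Cst R η * (Pw D r S q + δ)) := by
  have hm := card_pos hs
  have hr := r_pos hs
  have hk := card_I_pos hs
  have hη0 := st.η0
  have hA := first_order_E hs hδ st S hZ hZ0
  have hB := first_order_Z hs hδ st S hZ hZ0
  have hC := second_order_Z hs st S hZ
  have hD := fun i => second_order_E hs hδ st S i hZ
  have hrk := rk_le hs
  set c0 : ℝ := (η⁻¹) ^ R with hc0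
  have hc : 0 < c0 := by positivity
  set β : ℝ := R / η with hβ
  have hβ0 : 0 ≤ β := by positivity
  set κ1 : ℝ := 2 * (R : ℝ) ^ 2 / η ^ 2 + (R : ℝ) ^ 2 * c0 with hκ1
  have hκ0 : 0 ≤ κ1 := by positivity
  set z : ℝ := Zw D S q - 1 with hz
  set m : ℝ := (Fintype.card Y : ℝ) with hm_def
  set k : ℝ := (Fintype.card I : ℝ) with hk_def
  set E : I → ℝ := fun i => Ew D r S q i with hE
  set SE : ℝ := ∑ i, E i ^ 2 with hSE
  have hSE0 : 0 ≤ SE := Finset.sum_nonneg fun _ _ => sq_nonneg _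
  set a1 : ℝ := 16 * (c0 * β) ^ 2 + 2 * c0 ^ 3 * (R : ℝ) ^ 2 with ha1
  set a2 : ℝ := 2 * (c0 * β + c0 * R) ^ 2 with ha2
  have ha10 : 0 ≤ a1 := by positivity
  have ha20 : 0 ≤ a2 := by positivity
  have hP : Pw D r S q = SE / k + z ^ 2 := rfl
  have hexp : ∀ y, Pw D r (S \ D y) q' - Pw D r S q =
      (∑ i, (2 * E i * (Ew D r (S \ D y) q' i - E i) + (Ew D r (S \ D y) q' i - E i) ^ 2)) / k +
      (2 * z * (Zw D (S \ D y) q' - Zw D S q) + (Zw D (S \ D y) q' - Zw D S q) ^ 2) := by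
    intro y
    have h1 : ∑ i, (2 * E i * (Ew D r (S \ D y) q' i - E i) +
        (Ew D r (S \ D y) q' i - E i) ^ 2) =
        ∑ i, (Ew D r (S \ D y) q' i) ^ 2 - SE := by
      rw [hSE, ← Finset.sum_sub_distrib]
      apply Finset.sum_congr rfl
      intro i _
      ring
    rw [h1, hP]
    unfold Pw
    rw [← hk_def, hz]
    ring
  have hsum : ∑ y, aw S q (D y) * (Pw D r (S \ D y) q' - Pw D r S q) =
      (∑ i, 2 * E i * ∑ y, aw S q (D y) * (Ew D r (S \ D y) q' i - E i)) / k +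
      (∑ i, ∑ y, aw S q (D y) * (Ew D r (S \ D y) q' i - E i) ^ 2) / k +
      (2 * z * ∑ y, aw S q (D y) * (Zw D (S \ D y) q' - Zw D S q) +
        ∑ y, aw S q (D y) * (Zw D (S \ D y) q' - Zw D S q) ^ 2) := by
    have e1 : ∑ i, 2 * E i * ∑ y, aw S q (D y) * (Ew D r (S \ D y) q' i - E i) =
        ∑ y, aw S q (D y) * ∑ i, 2 * E i * (Ew D r (S \ D y) q' i - E i) := by
      simp_rw [mul_sum]
      rw [Finset.sum_comm]
      apply Finset.sum_congr rfl
      intro y _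
      apply Finset.sum_congr rfl
      intro i _
      ring
    have e2 : ∑ i, ∑ y, aw S q (D y) * (Ew D r (S \ D y) q' i - E i) ^ 2 =
        ∑ y, aw S q (D y) * ∑ i, (Ew D r (S \ D y) q' i - E i) ^ 2 := by
      rw [Finset.sum_comm]
      apply Finset.sum_congr rfl
      intro y _
      rw [mul_sum]
    rw [e1, e2, mul_sum, ← add_div, ← Finset.sum_add_distrib, ← Finset.sum_add_distrib,
      Finset.sum_div, ← Finset.sum_add_distrib]
    apply Finset.sum_congr rfl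
    intro y _
    rw [hexp y, Finset.sum_add_distrib]
    ring
  rw [hsum]
  have hD2 : ∑ i, ∑ y, aw S q (D y) * (Ew D r (S \ D y) q' i - E i) ^ 2 ≤
      r * (c0 * SE + k * (a1 * δ)) := by
    calc ∑ i, ∑ y, aw S q (D y) * (Ew D r (S \ D y) q' i - E i) ^ 2
        ≤ ∑ i, (r : ℝ) * (c0 * E i ^ 2 + a1 * δ) := Finset.sum_le_sum fun i _ => hD i
      _ = _ := by
          rw [← mul_sum, Finset.sum_add_distrib, ← mul_sum, sum_const, nsmul_eq_mul,
            Finset.card_univ]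
  have hrm' : r / m ≤ R / k := by
    rw [div_le_div_iff₀ hm hk]
    linarith
  have hδ2 : (κ1 * δ) ^ 2 ≤ κ1 ^ 2 * δ := by
    have : (κ1 * δ) ^ 2 = κ1 ^ 2 * (δ * δ) := by ring
    rw [this]
    apply mul_le_mul_of_nonneg_left _ (sq_nonneg _)
    exact mul_le_of_le_one_right hδ.le hδ1
  have hA' : (∑ i, 2 * E i * ∑ y, aw S q (D y) * (Ew D r (S \ D y) q' i - E i)) / k ≤
      r * (c0 * ((2 * β + 4 + 2 * R) * (SE / k) + (2 * β * z ^ 2 + 2 * (κ1 ^ 2 * δ)))) := by
    rw [div_le_iff₀ hk]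
    refine hA.trans ?_
    have : r * (c0 * ((2 * β + 4 + 2 * R) * (SE / k) + (2 * β * z ^ 2 + 2 * (κ1 ^ 2 * δ)))) * k =
        r * (c0 * ((2 * β + 4 + 2 * R) * SE + k * (2 * β * z ^ 2 + 2 * (κ1 ^ 2 * δ)))) := by
      field_simp
    rw [this]
    gcongr
  have hD' : (∑ i, ∑ y, aw S q (D y) * (Ew D r (S \ D y) q' i - E i) ^ 2) / k ≤
      r * (c0 * (SE / k) + a1 * δ) := by
    rw [div_le_iff₀ hk]
    refine hD2.trans (le_of_eq ?_)
    field_simp
  have hB' : 2 * z * ∑ y, aw S q (D y) * (Zw D (S \ D y) q' - Zw D S q) ≤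
      r * (c0 * ((2 * β + 1 + R) * z ^ 2 + κ1 ^ 2 * δ + R * (SE / k))) := by
    refine hB.trans ?_
    have h1 : r / m * SE ≤ R * (SE / k) := by
      calc r / m * SE ≤ R / k * SE := by gcongr
        _ = _ := by ring
    gcongr
  have hC' : ∑ y, aw S q (D y) * (Zw D (S \ D y) q' - Zw D S q) ^ 2 ≤ r * (a2 * δ) := hC
  have hV0 : 0 ≤ SE / k := by positivity
  have hz0 : 0 ≤ z ^ 2 := sq_nonneg _
  have hR0 : (0 : ℝ) ≤ R := Nat.cast_nonneg _
  have hfin : r * (c0 * ((2 * β + 4 + 2 * R) * (SE / k) + (2 * β * z ^ 2 + 2 * (κ1 ^ 2 * δ)))) +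
      r * (c0 * (SE / k) + a1 * δ) +
      (r * (c0 * ((2 * β + 1 + R) * z ^ 2 + κ1 ^ 2 * δ + R * (SE / k))) + r * (a2 * δ)) ≤
      r * (Cst R η * (Pw D r S q + δ)) := by
    rw [hP]
    have hCst : Cst R η = c0 * (4 * β + 5 + 3 * R) + 3 * c0 * κ1 ^ 2 + a1 + a2 := rfl
    rw [hCst]
    have : r * (c0 * ((2 * β + 4 + 2 * R) * (SE / k) + (2 * β * z ^ 2 + 2 * (κ1 ^ 2 * δ)))) +
      r * (c0 * (SE / k) + a1 * δ) +
      (r * (c0 * ((2 * β + 1 + R) * z ^ 2 + κ1 ^ 2 * δ + R * (SE / k))) + r * (a2 * δ)) =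
      r * (c0 * (2 * β + 5 + 3 * R) * (SE / k) + c0 * (4 * β + 1 + R) * z ^ 2 +
        (3 * c0 * κ1 ^ 2 + a1 + a2) * δ) := by ring
    rw [this]
    apply mul_le_mul_of_nonneg_left _ hr.le
    have g1 : c0 * (2 * β + 5 + 3 * R) * (SE / k) ≤
        (c0 * (4 * β + 5 + 3 * R) + 3 * c0 * κ1 ^ 2 + a1 + a2) * (SE / k) := by
      apply mul_le_mul_of_nonneg_right _ hV0
      have h3k : 0 ≤ 3 * c0 * κ1 ^ 2 := by positivity
      have h4k : c0 * (2 * β + 5 + 3 * R) ≤ c0 * (4 * β + 5 + 3 * R) :=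
        mul_le_mul_of_nonneg_left (by linarith) hc.le
      linarith
    have g2 : c0 * (4 * β + 1 + R) * z ^ 2 ≤
        (c0 * (4 * β + 5 + 3 * R) + 3 * c0 * κ1 ^ 2 + a1 + a2) * z ^ 2 := by
      apply mul_le_mul_of_nonneg_right _ hz0
      have h3k : 0 ≤ 3 * c0 * κ1 ^ 2 := by positivity
      have h4k : c0 * (4 * β + 1 + R) ≤ c0 * (4 * β + 5 + 3 * R) :=
        mul_le_mul_of_nonneg_left (by linarith) hc.le
      linarith
    have g3 : (3 * c0 * κ1 ^ 2 + a1 + a2) * δ ≤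
        (c0 * (4 * β + 5 + 3 * R) + 3 * c0 * κ1 ^ 2 + a1 + a2) * δ := by
      apply mul_le_mul_of_nonneg_right _ hδ.le
      have : 0 ≤ c0 * (4 * β + 5 + 3 * R) := by positivity
      linarith
    calc _ ≤ (c0 * (4 * β + 5 + 3 * R) + 3 * c0 * κ1 ^ 2 + a1 + a2) * (SE / k) +
        (c0 * (4 * β + 5 + 3 * R) + 3 * c0 * κ1 ^ 2 + a1 + a2) * z ^ 2 +
        (c0 * (4 * β + 5 + 3 * R) + 3 * c0 * κ1 ^ 2 + a1 + a2) * δ := by linarith
      _ = _ := by ring
  linarith

lemma step_ex {R : ℕ} {δ : ℝ} {r : ℕ} {D : Y → Finset I} (hs : Sys R δ r D) (hδ : 0 < δ)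
    (hδ1 : δ ≤ 1) {η q q' : ℝ} (st : Stp η δ R r D q q') (S : Finset I)
    (hP : Pw D r S q ≤ 1 / 4) :
    ∃ y, Pw D r (S \ D y) q' + δ ≤
      (1 + 2 * Cst R η * (r / Fintype.card Y)) * (Pw D r S q + δ) := by
  have hm := card_pos hs
  have hr := r_pos hs
  have hk := card_I_pos hs
  have hη0 := st.η0
  have hq0 : 0 < q := lt_of_lt_of_le st.η0 (q_lo st)
  have hV0 : 0 ≤ (∑ i, (Ew D r S q i) ^ 2) / Fintype.card I :=
    div_nonneg (Finset.sum_nonneg fun _ _ => sq_nonneg _) hk.le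
  have hP0 : 0 ≤ Pw D r S q := by
    unfold Pw
    positivity
  have hz : (Zw D S q - 1) ^ 2 ≤ 1 / 4 := by
    unfold Pw at hP
    linarith
  have hz2 : |Zw D S q - 1| ≤ 1 / 2 := by
    apply abs_le_of_sq_le_sq _ (by norm_num)
    linarith [hz, (by norm_num : ((1:ℝ)/2)^2 = 1/4)]
  obtain ⟨hz3, hz4⟩ := abs_le.1 hz2
  have havg := step_avg hs hδ hδ1 st S (by linarith) (by linarith)
  set m : ℝ := (Fintype.card Y : ℝ) with hm_def
  have hC0 : 0 ≤ Cst R η := by unfold Cst; positivity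
  by_contra hcon
  push Not at hcon
  set ξ : ℝ := 2 * Cst R η * (r / m) * (Pw D r S q + δ) with hξ
  have hξ0 : 0 ≤ ξ := by positivity
  have h1 : ∀ y, ξ < Pw D r (S \ D y) q' - Pw D r S q := by
    intro y
    have := hcon y
    have e : (1 + 2 * Cst R η * (r / m)) * (Pw D r S q + δ) = Pw D r S q + δ + ξ := by
      rw [hξ]; ring
    rw [e] at this
    linarith
  have hw : ∀ y, 0 ≤ aw S q (D y) := fun y => aw_nonneg S hq0 _
  have hsumw : ∑ y, aw S q (D y) = m * Zw D S q := sum_w hs S q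
  have hpos : 0 < ∑ y, aw S q (D y) := by
    rw [hsumw]
    have : 0 < Zw D S q := by linarith
    positivity
  obtain ⟨y0, _, hy0⟩ : ∃ y ∈ univ, 0 < aw S q (D y) := by
    by_contra h
    push Not at h
    have : ∑ y, aw S q (D y) ≤ 0 := Finset.sum_nonpos fun y hy => h y hy
    linarith
  have h2 : ∑ y, aw S q (D y) * ξ < ∑ y, aw S q (D y) * (Pw D r (S \ D y) q' - Pw D r S q) := by
    apply Finset.sum_lt_sum
    · intro y _
      exact mul_le_mul_of_nonneg_left (h1 y).le (hw y)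
    · exact ⟨y0, Finset.mem_univ _, mul_lt_mul_of_pos_left (h1 y0) hy0⟩
  rw [← Finset.sum_mul, hsumw] at h2
  have h3 : r * (Cst R η * (Pw D r S q + δ)) ≤ m * Zw D S q * ξ := by
    have h4 : m * (1 / 2) * ξ = r * (Cst R η * (Pw D r S q + δ)) := by
      rw [hξ]; field_simp
    rw [← h4]
    have : (1 : ℝ) / 2 ≤ Zw D S q := by linarith
    gcongr
  linarith

/-- the state after `j` steps. -/
lemma iterate {R : ℕ} {δ : ℝ} {r : ℕ} {D : Y → Finset I} (hs : Sys R δ r D) (hδ : 0 < δ)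
    (hδ1 : δ ≤ 1) {η : ℝ} (h0 : 0 < η) (h1 : η ≤ 1)
    (hsmall : Real.exp (2 * Cst R η) * δ ≤ 1 / 4) (j : ℕ)
    (hj : η ≤ 1 - j * ((r : ℝ) / Fintype.card Y)) :
    ∃ P : Finset Y, P.card ≤ j ∧
      Pw D r (univ \ P.biUnion D) (1 - j * ((r : ℝ) / Fintype.card Y)) + δ ≤
        (1 + 2 * Cst R η * (r / Fintype.card Y)) ^ j * δ := by
  have hm := card_pos hs
  have hr := r_pos hs
  have hk := card_I_pos hs
  set m : ℝ := (Fintype.card Y : ℝ) with hm_def
  have hC0 : 0 ≤ Cst R η := by unfold Cst; positivity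
  induction j with
  | zero =>
    refine ⟨∅, le_rfl, ?_⟩
    have haw : ∀ T : Finset I, aw (univ : Finset I) 1 T = 1 := by
      intro T
      unfold aw
      simp
    have hL : ∀ i, Lw D r (univ : Finset I) 1 i = 1 := by
      intro i
      unfold Lw
      simp_rw [haw]
      rw [sum_const, hs.deg i, nsmul_eq_mul, mul_one, div_self hr.ne']
    have hE : ∀ i, Ew D r (univ : Finset I) 1 i = 0 := by
      intro i
      unfold Ew
      rw [hL, haw]
      ring
    have hZ : Zw D (univ : Finset I) 1 = 1 := by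
      unfold Zw
      simp_rw [haw]
      rw [sum_const, Finset.card_univ, nsmul_eq_mul, mul_one]
      exact div_self hm.ne'
    have hP : Pw D r (univ : Finset I) 1 = 0 := by
      unfold Pw
      simp_rw [hE]
      rw [hZ]
      simp
    simp only [Finset.biUnion_empty, Finset.sdiff_empty, Nat.cast_zero, zero_mul, sub_zero,
      pow_zero, one_mul]
    rw [hP]
    simp
  | succ j ih =>
    have hrm0 : 0 ≤ (r : ℝ) / m := by positivity
    have hstep : (1 : ℝ) - ((j + 1 : ℕ) : ℝ) * (r / m) = (1 - j * (r / m)) - r / m := by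
      push_cast; ring
    have hj' : η ≤ 1 - j * ((r : ℝ) / m) := by
      rw [hstep] at hj
      linarith
    obtain ⟨P, hPc, hPP⟩ := ih hj'
    have hjr : (j : ℝ) * (r / m) ≤ 1 := by linarith
    have hexp : (1 + 2 * Cst R η * (r / m)) ^ j ≤ Real.exp (2 * Cst R η) := by
      calc (1 + 2 * Cst R η * (r / m)) ^ j
          ≤ (Real.exp (2 * Cst R η * (r / m))) ^ j := by
            apply pow_le_pow_left₀ (by positivity)
            have := Real.add_one_le_exp (2 * Cst R η * (r / m))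
            linarith
        _ = Real.exp (j * (2 * Cst R η * (r / m))) := by rw [← Real.exp_nat_mul]
        _ ≤ _ := by
            apply Real.exp_le_exp.2
            have : (j : ℝ) * (2 * Cst R η * (r / m)) = 2 * Cst R η * (j * (r / m)) := by ring
            rw [this]
            exact mul_le_of_le_one_right (by positivity) hjr
    have hPq : Pw D r (univ \ P.biUnion D) (1 - j * (r / m)) ≤ 1 / 4 := by
      have : (1 + 2 * Cst R η * (r / m)) ^ j * δ ≤ Real.exp (2 * Cst R η) * δ := by gcongr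
      linarith
    have st : Stp η δ R r D (1 - j * ((r : ℝ) / m)) (1 - ((j + 1 : ℕ) : ℝ) * (r / m)) :=
      { η0 := h0
        η1 := h1
        lo := hj
        hi := by
          have : 0 ≤ (j : ℝ) * (r / m) := by positivity
          linarith
        eq := hstep }
    obtain ⟨y, hy⟩ := step_ex hs hδ hδ1 st _ hPq
    refine ⟨insert y P, (Finset.card_insert_le _ _).trans (by omega), ?_⟩
    have hset : univ \ (insert y P).biUnion D = (univ \ P.biUnion D) \ D y := by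
      rw [Finset.biUnion_insert, Finset.union_comm, Finset.sdiff_union_distrib]
      ext i
      simp
    rw [hset]
    refine hy.trans ?_
    rw [← hm_def]
    calc (1 + 2 * Cst R η * (r / m)) * (Pw D r (univ \ P.biUnion D) (1 - j * (r / m)) + δ)
        ≤ (1 + 2 * Cst R η * (r / m)) * ((1 + 2 * Cst R η * (r / m)) ^ j * δ) := by
          apply mul_le_mul_of_nonneg_left hPP
          positivity
      _ = _ := by ring

/-- few elements are left. -/
lemma left_small {R : ℕ} {δ : ℝ} {r : ℕ} {D : Y → Finset I} (hs : Sys R δ r D)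
    {η q : ℝ} (h0 : 0 < η) (_h1 : η ≤ 1) (hq : 0 < q) (hq2 : q ≤ 3 / 2 * η) (S : Finset I)
    (hP : Pw D r S q ≤ 1 / 4) : (S.card : ℝ) ≤ 4 * R * η * Fintype.card I := by
  have hm := card_pos hs
  have hr := r_pos hs
  have hk := card_I_pos hs
  have hR : (1 : ℝ) ≤ R := by exact_mod_cast R_pos hs
  have hmle := m_le hs
  set m : ℝ := (Fintype.card Y : ℝ) with hm_def
  set k : ℝ := (Fintype.card I : ℝ) with hk_def
  have hV0 : 0 ≤ (∑ i, (Ew D r S q i) ^ 2) / k :=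
    div_nonneg (Finset.sum_nonneg fun _ _ => sq_nonneg _) hk.le
  have hz : (Zw D S q - 1) ^ 2 ≤ 1 / 4 := by
    unfold Pw at hP
    linarith
  have hz2 : |Zw D S q - 1| ≤ 1 / 2 := by
    apply abs_le_of_sq_le_sq _ (by norm_num)
    linarith [hz, (by norm_num : ((1:ℝ)/2)^2 = 1/4)]
  obtain ⟨hz3, hz4⟩ := abs_le.1 hz2
  have hV : (∑ i, (Ew D r S q i) ^ 2) / k ≤ 1 / 4 := by
    unfold Pw at hP
    have := sq_nonneg (Zw D S q - 1)
    linarith
  have hV' : ∑ i, (Ew D r S q i) ^ 2 ≤ 1 / 4 * k := by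
    rwa [div_le_iff₀ hk] at hV
  have hA : ∑ i, aw S q ({i} : Finset I) = S.card * q⁻¹ := by
    unfold aw
    simp only [Finset.singleton_subset_iff, Finset.card_singleton, pow_one]
    rw [Finset.sum_ite_mem, Finset.univ_inter, sum_const, nsmul_eq_mul]
  have hLs : ∑ i, Lw D r S q i ≤ R * k * (3 / 2) := by
    have e1 : ∑ i, Lw D r S q i = (∑ y, (D y).card * aw S q (D y)) / r := by
      unfold Lw
      rw [← Finset.sum_div, dbl2 hs (fun _ y => aw S q (D y))]
      simp_rw [sum_const, nsmul_eq_mul]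
    rw [e1, div_le_iff₀ hr]
    calc ∑ y, ((D y).card : ℝ) * aw S q (D y) ≤ ∑ y, (R : ℝ) * aw S q (D y) := by
          apply Finset.sum_le_sum
          intro y _
          apply mul_le_mul_of_nonneg_right _ (aw_nonneg S hq _)
          exact_mod_cast hs.size y
      _ = R * (m * Zw D S q) := by rw [← mul_sum, sum_w hs S q]
      _ ≤ R * (m * (3 / 2)) := by
          have : Zw D S q ≤ 3 / 2 := by linarith
          gcongr
      _ ≤ R * (r * k * (3 / 2)) := by gcongr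
      _ = _ := by ring
  have hEs : ∑ i, |Ew D r S q i| ≤ k := by
    calc ∑ i, |Ew D r S q i| ≤ ∑ i, (1 / 2 + 1 / 2 * (Ew D r S q i) ^ 2) := by
          apply Finset.sum_le_sum
          intro i _
          have := sq_nonneg (|Ew D r S q i| - 1)
          have e := sq_abs (Ew D r S q i)
          linarith
      _ = k * (1 / 2) + 1 / 2 * ∑ i, (Ew D r S q i) ^ 2 := by
          rw [Finset.sum_add_distrib, sum_const, nsmul_eq_mul, Finset.card_univ, ← mul_sum]
      _ ≤ k := by linarith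
  have hmain : S.card * q⁻¹ ≤ R * k * (3 / 2) + k := by
    rw [← hA]
    calc ∑ i, aw S q ({i} : Finset I) = ∑ i, (Lw D r S q i - Ew D r S q i) := by
          apply Finset.sum_congr rfl
          intro i _
          unfold Ew
          ring
      _ ≤ ∑ i, (Lw D r S q i + |Ew D r S q i|) := by
          apply Finset.sum_le_sum
          intro i _
          linarith [neg_abs_le (Ew D r S q i)]
      _ = ∑ i, Lw D r S q i + ∑ i, |Ew D r S q i| := Finset.sum_add_distrib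
      _ ≤ _ := add_le_add hLs hEs
  have h5 : (S.card : ℝ) = S.card * q⁻¹ * q := by field_simp
  rw [h5]
  calc (S.card : ℝ) * q⁻¹ * q ≤ (R * k * (3 / 2) + k) * (3 / 2 * η) := by
        apply mul_le_mul hmain hq2 hq.le
        positivity
    _ ≤ (R * k * (3 / 2) + R * k) * (3 / 2 * η) := by
        have : k ≤ R * k := by nlinarith
        gcongr
    _ ≤ _ := by
        have : 0 ≤ R * k * η := by positivity
        linarith

end step

/-- M2: the weighted greedy. -/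
theorem nibble (R : ℕ) (η : ℝ) (h0 : 0 < η) (h1 : η < 1) : ∃ δ : ℝ, 0 < δ ∧
    ∀ (I Y : Type) [Fintype I] [DecidableEq I] [Fintype Y] [DecidableEq Y]
      (D : Y → Finset I) (r : ℕ), 1 ≤ r →
      (∀ y, (D y).card ≤ R) → (∀ y, (D y).Nonempty) →
      (∀ i, (univ.filter fun y => i ∈ D y).card = r) →
      (∀ i j, i ≠ j → ((univ.filter fun y => i ∈ D y ∧ j ∈ D y).card : ℝ) ≤ δ * r) →
      (1 : ℝ) ≤ δ * ((Fintype.card Y : ℝ) / r) →
      ∃ P : Finset Y, (P.card : ℝ) ≤ (Fintype.card Y : ℝ) / r ∧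
        ((univ \ P.biUnion D).card : ℝ) ≤ 4 * R * η * Fintype.card I := by
  set δ : ℝ := min (Real.exp (-(2 * Cst R η)) / 4) (η / 2) with hδdef
  have hδ0 : 0 < δ := by
    apply lt_min
    · positivity
    · positivity
  have hδη : δ ≤ η / 2 := min_le_right _ _
  have hδ1 : δ ≤ 1 := by linarith
  have hδe : Real.exp (2 * Cst R η) * δ ≤ 1 / 4 := by
    have : δ ≤ Real.exp (-(2 * Cst R η)) / 4 := min_le_left _ _
    calc Real.exp (2 * Cst R η) * δ ≤ Real.exp (2 * Cst R η) * (Real.exp (-(2 * Cst R η)) / 4) := by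
          gcongr
      _ = Real.exp (2 * Cst R η) * Real.exp (-(2 * Cst R η)) / 4 := by ring
      _ = 1 / 4 := by rw [← Real.exp_add]; simp
  refine ⟨δ, hδ0, ?_⟩
  intro I Y _ _ _ _ D r hr1 hsize hne hdeg hcod hbig
  have hs : Sys R δ r D := ⟨hr1, hsize, hne, hdeg, hcod, hbig⟩
  have hm := card_pos hs
  have hr := r_pos hs
  have hrm := rm_le hs
  have hC0 : 0 ≤ Cst R η := by unfold Cst; positivity
  set m : ℝ := (Fintype.card Y : ℝ) with hm_def
  set j : ℕ := ⌊(1 - η) * (m / r)⌋₊ with hj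
  have hX0 : 0 ≤ (1 - η) * (m / r) := mul_nonneg (by linarith) (by positivity)
  have hj1 : (j : ℝ) ≤ (1 - η) * (m / r) := Nat.floor_le hX0
  have hj2 : (1 - η) * (m / r) < j + 1 := Nat.lt_floor_add_one _
  have hmr : (m / r) * (r / m) = 1 := by field_simp
  have hrm0 : 0 < (r : ℝ) / m := by positivity
  have hq1 : η ≤ 1 - j * ((r : ℝ) / m) := by
    have : (j : ℝ) * (r / m) ≤ (1 - η) * (m / r) * (r / m) := by gcongr
    rw [mul_assoc, hmr] at this
    linarith
  have hq2 : 1 - j * ((r : ℝ) / m) ≤ 3 / 2 * η := by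
    have : (1 - η) * (m / r) * (r / m) ≤ (j + 1) * (r / m) := by gcongr
    rw [mul_assoc, hmr] at this
    have h3 : (r : ℝ) / m ≤ η / 2 := hrm.trans hδη
    linarith
  obtain ⟨P, hP1, hP2⟩ := iterate hs hδ0 hδ1 h0 h1.le hδe j hq1
  rw [← hm_def] at hP2
  have hjr : (j : ℝ) * (r / m) ≤ 1 := by linarith
  have hexp : (1 + 2 * Cst R η * (r / m)) ^ j ≤ Real.exp (2 * Cst R η) := by
    calc (1 + 2 * Cst R η * (r / m)) ^ j
        ≤ (Real.exp (2 * Cst R η * (r / m))) ^ j := by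
          apply pow_le_pow_left₀ (by positivity)
          have := Real.add_one_le_exp (2 * Cst R η * (r / m))
          linarith
      _ = Real.exp (j * (2 * Cst R η * (r / m))) := by rw [← Real.exp_nat_mul]
      _ ≤ _ := by
          apply Real.exp_le_exp.2
          have : (j : ℝ) * (2 * Cst R η * (r / m)) = 2 * Cst R η * (j * (r / m)) := by ring
          rw [this]
          exact mul_le_of_le_one_right (by positivity) hjr
  have hPq : Pw D r (univ \ P.biUnion D) (1 - j * (r / m)) ≤ 1 / 4 := by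
    have : (1 + 2 * Cst R η * (r / m)) ^ j * δ ≤ Real.exp (2 * Cst R η) * δ := by gcongr
    linarith
  refine ⟨P, ?_, ?_⟩
  · calc (P.card : ℝ) ≤ j := by exact_mod_cast hP1
      _ ≤ (1 - η) * (m / r) := hj1
      _ ≤ 1 * (m / r) := by
          apply mul_le_mul_of_nonneg_right (by linarith) (by positivity)
      _ = _ := one_mul _
  · exact left_small hs h0 h1.le (lt_of_lt_of_le h0 hq1) hq2 _ hPq

end LocTr
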