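import Pool.Agent.Work.MP_a8cb64_co.LDefs

/-!
MP_a8cb64_co, Theorem A, module M3: the cover lemma from the nibble.
-/

namespace LocTr

open Finset

/-- the statement of the nibble -/
def Nibble : Prop := ∀ (R : ℕ) (η : ℝ), 0 < η → η < 1 → ∃ δ : ℝ, 0 < δ ∧
    ∀ (I Y : Type) [Fintype I] [DecidableEq I] [Fintype Y] [DecidableEq Y]
      (D : Y → Finset I) (r : ℕ), 1 ≤ r →
      (∀ y, (D y).card ≤ R) → (∀ y, (D y).Nonempty) →
      (∀ i, (univ.filter fun y => i ∈ D y).card = r) →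
      (∀ i j, i ≠ j → ((univ.filter fun y => i ∈ D y ∧ j ∈ D y).card : ℝ) ≤ δ * r) →
      (1 : ℝ) ≤ δ * ((Fintype.card Y : ℝ) / r) →
      ∃ P : Finset Y, (P.card : ℝ) ≤ (Fintype.card Y : ℝ) / r ∧
        ((univ \ P.biUnion D).card : ℝ) ≤ 4 * R * η * Fintype.card I

namespace M3

lemma exists_idx {I : Type} [DecidableEq I] (S : Finset I) :
    ∃ h : I → ℕ, (∀ e ∈ S, ∀ f ∈ S, h e = h f → e = f) ∧ ∀ e ∈ S, h e < S.card := by
  classical
  refine ⟨fun e => if h : e ∈ S then (S.equivFin ⟨e, h⟩ : ℕ) else 0, ?_, ?_⟩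
  · intro e he f hf hef
    simp only [dif_pos he, dif_pos hf] at hef
    have h1 : S.equivFin ⟨e, he⟩ = S.equivFin ⟨f, hf⟩ := Fin.ext hef
    have h2 := S.equivFin.injective h1
    exact congrArg Subtype.val h2
  · intro e he
    simp only [dif_pos he]
    exact (S.equivFin ⟨e, he⟩).isLt

/-- one point from every member of `G` -/
lemma pick (G : Finset (Finset ℕ)) (h : ∀ e ∈ G, e.Nonempty) :
    ∃ T : Finset ℕ, T.card ≤ G.card ∧ IsTrans G T := by
  classical
  choose! p hp using h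
  refine ⟨G.image p, card_image_le, fun e he => ⟨p e, mem_inter.2 ⟨hp e he, ?_⟩⟩⟩
  exact mem_image_of_mem _ he

/-- the pieces -/
lemma pieces (R : ℕ) (hR : 1 ≤ R) (r : ℕ) (U : Finset ℕ) (F : Finset (Finset ℕ))
    (hF : ∀ e ∈ F, e ⊆ U ∧ e.card = r) :
    ∃ (Yf : Finset (ℕ × ℕ)) (D : {y // y ∈ Yf} → Finset {e // e ∈ F}),
      (∀ y, (D y).card ≤ R) ∧ (∀ y, (D y).Nonempty) ∧
      (∀ i, (univ.filter fun y => i ∈ D y).card = r) ∧
      (∀ i j : {e // e ∈ F}, (univ.filter fun y => i ∈ D y ∧ j ∈ D y).card ≤ (i.1 ∩ j.1).card) ∧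
      (∀ y, ∀ i ∈ D y, y.1.1 ∈ i.1) ∧
      (Yf.card : ℝ) ≤ U.card + (r * F.card : ℝ) / R ∧
      r * F.card ≤ R * Yf.card := by
  classical
  have hRpos : (0 : ℝ) < R := by exact_mod_cast hR
  choose idx hidx1 hidx2 using fun x : ℕ =>
    exists_idx (univ.filter fun e : {e // e ∈ F} => x ∈ e.1)
  let Yf : Finset (ℕ × ℕ) := (univ : Finset {e // e ∈ F}).biUnion fun e =>
    e.1.image fun x => (x, idx x e / R)
  let D : {y // y ∈ Yf} → Finset {e // e ∈ F} := fun y =>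
    univ.filter fun e => y.1.1 ∈ e.1 ∧ idx y.1.1 e / R = y.1.2
  have hD : ∀ (y : {y // y ∈ Yf}) (e : {e // e ∈ F}),
      e ∈ D y ↔ y.1.1 ∈ e.1 ∧ idx y.1.1 e / R = y.1.2 := by
    intro y e
    simp only [D, mem_filter, mem_univ, true_and]
  have hYf : ∀ y : ℕ × ℕ, y ∈ Yf ↔ ∃ e : {e // e ∈ F}, y.1 ∈ e.1 ∧ idx y.1 e / R = y.2 := by
    intro y
    simp only [Yf, mem_biUnion, mem_univ, true_and, mem_image]
    constructor
    · rintro ⟨e, x, hx, rfl⟩
      exact ⟨e, hx, rfl⟩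
    · rintro ⟨e, hx, he⟩
      exact ⟨e, y.1, hx, Prod.ext rfl he⟩
  have hdeg : ∀ i : {e // e ∈ F}, (univ.filter fun y : {y // y ∈ Yf} => i ∈ D y).card = r := by
    intro i
    rw [← (hF i.1 i.2).2]
    refine card_bij (fun y _ => y.1.1) ?_ ?_ ?_
    · intro y hy
      exact ((hD y i).1 (mem_filter.1 hy).2).1
    · intro y hy y' hy' hyy
      have h1 := ((hD y i).1 (mem_filter.1 hy).2).2
      have h2 := ((hD y' i).1 (mem_filter.1 hy').2).2
      have h3 : y.1.1 = y'.1.1 := hyy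
      refine Subtype.ext (Prod.ext h3 ?_)
      rw [← h1, ← h2, h3]
    · intro x hx
      refine ⟨⟨(x, idx x i / R), (hYf _).2 ⟨i, hx, rfl⟩⟩, mem_filter.2 ⟨mem_univ _, ?_⟩, rfl⟩
      exact (hD _ i).2 ⟨hx, rfl⟩
  have hcardD : ∀ y, (D y).card ≤ R := by
    intro y
    have h1 : ((D y).image fun e => idx y.1.1 e).card = (D y).card := by
      refine card_image_of_injOn ?_
      intro e he f hf hef
      have he' := (hD y e).1 (mem_coe.1 he)
      have hf' := (hD y f).1 (mem_coe.1 hf)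
      exact hidx1 y.1.1 e (mem_filter.2 ⟨mem_univ _, he'.1⟩) f
        (mem_filter.2 ⟨mem_univ _, hf'.1⟩) hef
    have h2 : ((D y).image fun e => idx y.1.1 e) ⊆ Ico (R * y.1.2) (R * y.1.2 + R) := by
      intro t ht
      obtain ⟨e, he, rfl⟩ := mem_image.1 ht
      have he' := ((hD y e).1 he).2
      rw [mem_Ico, ← he']
      refine ⟨Nat.mul_div_le _ _, ?_⟩
      have := Nat.lt_mul_div_succ (idx y.1.1 e) (show 0 < R by omega)
      rw [Nat.mul_add, Nat.mul_one] at this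
      exact this
    have h3 := card_le_card h2
    rw [h1, Nat.card_Ico] at h3
    omega
  refine ⟨Yf, D, hcardD, ?_, hdeg, ?_, ?_, ?_, ?_⟩
  · intro y
    obtain ⟨e, h1, h2⟩ := (hYf y.1).1 y.2
    exact ⟨e, (hD y e).2 ⟨h1, h2⟩⟩
  · intro i j
    refine card_le_card_of_injOn (fun y => y.1.1) ?_ ?_
    · intro y hy
      have h1 := (mem_filter.1 (mem_coe.1 hy)).2
      exact mem_coe.2 (mem_inter.2 ⟨((hD y i).1 h1.1).1, ((hD y j).1 h1.2).1⟩)
    · intro y hy y' hy' hyy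
      have h1 := ((hD y i).1 (mem_filter.1 (mem_coe.1 hy)).2.1).2
      have h2 := ((hD y' i).1 (mem_filter.1 (mem_coe.1 hy')).2.1).2
      have h3 : y.1.1 = y'.1.1 := hyy
      refine Subtype.ext (Prod.ext h3 ?_)
      rw [← h1, ← h2, h3]
  · intro y i hi
    exact ((hD y i).1 hi).1
  · -- the number of pieces
    have hsub : Yf ⊆ U.biUnion fun x =>
        (range ((univ.filter fun e : {e // e ∈ F} => x ∈ e.1).card / R + 1)).image
          fun j => (x, j) := by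
      intro y hy
      obtain ⟨e, h1, h2⟩ := (hYf y).1 hy
      refine mem_biUnion.2 ⟨y.1, (hF e.1 e.2).1 h1, mem_image.2 ⟨y.2, ?_, rfl⟩⟩
      rw [mem_range, ← h2]
      refine Nat.lt_succ_of_le (Nat.div_le_div_right ?_)
      exact (hidx2 y.1 e (mem_filter.2 ⟨mem_univ _, h1⟩)).le
    have h1 := (card_le_card hsub).trans card_biUnion_le
    have h2 : ∀ x ∈ U, ((range ((univ.filter fun e : {e // e ∈ F} => x ∈ e.1).card / R + 1)).image
          fun j => (x, j)).card ≤ (univ.filter fun e : {e // e ∈ F} => x ∈ e.1).card / R + 1 := by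
      intro x _
      refine card_image_le.trans ?_
      rw [card_range]
    have h3 := h1.trans (sum_le_sum h2)
    have h4 : (Yf.card : ℝ) ≤ ∑ x ∈ U,
        (((univ.filter fun e : {e // e ∈ F} => x ∈ e.1).card : ℝ) / R + 1) := by
      refine le_trans (Nat.cast_le.2 h3) ?_
      rw [Nat.cast_sum]
      refine sum_le_sum fun x _ => ?_
      rw [Nat.cast_add, Nat.cast_one]
      have := Nat.cast_div_le (α := ℝ)
        (m := (univ.filter fun e : {e // e ∈ F} => x ∈ e.1).card) (n := R)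
      linarith
    rw [sum_add_distrib, sum_const, nsmul_eq_mul, mul_one, ← sum_div, ← Nat.cast_sum] at h4
    have h5 : ∑ x ∈ U, (univ.filter fun e : {e // e ∈ F} => x ∈ e.1).card ≤ r * F.card := by
      have h6 := sum_card_bipartiteAbove_eq_sum_card_bipartiteBelow (s := U)
        (t := (univ : Finset {e // e ∈ F})) (fun x e => x ∈ e.1)
      have h7 : ∑ x ∈ U, (univ.filter fun e : {e // e ∈ F} => x ∈ e.1).card =
          ∑ e : {e // e ∈ F}, (U.filter fun x => x ∈ e.1).card := h6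
      rw [h7]
      have h8 : ∀ e ∈ (univ : Finset {e // e ∈ F}), (U.filter fun x => x ∈ e.1).card ≤ r := by
        intro e _
        rw [← (hF e.1 e.2).2]
        exact card_le_card fun x hx => (mem_filter.1 hx).2
      refine (sum_le_card_nsmul _ _ _ h8).trans ?_
      rw [card_univ, Fintype.card_coe, smul_eq_mul, mul_comm]
    have h9 : ((∑ x ∈ U, (univ.filter fun e : {e // e ∈ F} => x ∈ e.1).card : ℕ) : ℝ) / R ≤
        (r * F.card : ℝ) / R := by
      refine div_le_div_of_nonneg_right ?_ hRpos.le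
      exact_mod_cast h5
    linarith
  · -- the lower bound
    have h6 := sum_card_bipartiteAbove_eq_sum_card_bipartiteBelow
      (s := (univ : Finset {e // e ∈ F})) (t := (univ : Finset {y // y ∈ Yf}))
      (fun i y => i ∈ D y)
    have h7 : ∑ i : {e // e ∈ F}, (univ.filter fun y : {y // y ∈ Yf} => i ∈ D y).card =
        ∑ y : {y // y ∈ Yf}, (univ.filter fun i : {e // e ∈ F} => i ∈ D y).card := h6
    have h8 : ∑ i : {e // e ∈ F}, (univ.filter fun y : {y // y ∈ Yf} => i ∈ D y).card =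
        r * F.card := by
      rw [sum_congr rfl fun i _ => hdeg i, sum_const, card_univ, Fintype.card_coe, smul_eq_mul,
        mul_comm]
    rw [← h8, h7]
    have h9 : ∀ y ∈ (univ : Finset {y // y ∈ Yf}),
        (univ.filter fun i : {e // e ∈ F} => i ∈ D y).card ≤ R := by
      intro y _
      refine le_trans (card_le_card fun i hi => (mem_filter.1 hi).2) (hcardD y)
    refine (sum_le_card_nsmul _ _ _ h9).trans ?_
    rw [card_univ, Fintype.card_coe, smul_eq_mul, mul_comm]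

end M3

/-- M3: the cover lemma from the nibble -/
theorem cover_lemma_of (hNib : Nibble) (K : ℕ) (ε : ℝ) (hε : 0 < ε) : ∃ b N : ℕ, 1 ≤ b ∧
    ∀ (r s : ℕ) (U : Finset ℕ) (F : Finset (Finset ℕ)), 1 ≤ r → N ≤ s →
      (∀ e ∈ F, e ⊆ U ∧ e.card = r) → (U.card : ℝ) ≤ (1 - ε) * s * r → F.card ≤ K * s →
      (∀ e ∈ F, ∀ f ∈ F, e ≠ f → b * (e ∩ f).card ≤ r) →
      ∃ T : Finset ℕ, T.card ≤ s ∧ IsTrans F T := by
  classical
  obtain ⟨R, hR1, hR2⟩ : ∃ R : ℕ, 1 ≤ R ∧ (K : ℝ) / R ≤ ε / 2 := by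
    obtain ⟨R, hR⟩ := exists_nat_gt (2 * K / ε)
    refine ⟨R + 1, by omega, ?_⟩
    rw [div_lt_iff₀ hε] at hR
    rw [div_le_div_iff₀ (by positivity) (by norm_num)]
    push_cast
    nlinarith
  have hRpos : (0 : ℝ) < R := by exact_mod_cast hR1
  obtain ⟨η, hη0, hη1, hη2⟩ : ∃ η : ℝ, 0 < η ∧ η < 1 ∧ 4 * R * η * K ≤ ε / 2 := by
    refine ⟨min (1 / 2) (ε / (8 * R * (K + 1))), lt_min (by norm_num) (by positivity),
      (min_le_left _ _).trans_lt (by norm_num), ?_⟩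
    have h1 : min (1 / 2) (ε / (8 * R * (K + 1))) ≤ ε / (8 * R * (K + 1)) := min_le_right _ _
    have hK0 : (0 : ℝ) ≤ K := Nat.cast_nonneg K
    calc 4 * R * min (1 / 2) (ε / (8 * R * (K + 1))) * K
        ≤ 4 * R * (ε / (8 * R * (K + 1))) * K := by gcongr
      _ = ε / 2 * (K / (K + 1)) := by field_simp; ring
      _ ≤ ε / 2 * 1 := by
          refine mul_le_mul_of_nonneg_left ?_ (by positivity)
          rw [div_le_one (by positivity)]
          linarith
      _ = ε / 2 := mul_one _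
  obtain ⟨δ, hδ, hnib⟩ := hNib R η hη0 hη1
  obtain ⟨b, hb⟩ := exists_nat_gt (1 / δ)
  obtain ⟨N, hN⟩ := exists_nat_gt (R / δ)
  have hb0 : (0 : ℝ) < b := lt_trans (by positivity) hb
  refine ⟨b, N, by exact_mod_cast hb0, ?_⟩
  intro r s U F hr hs hF hU hFK hint
  have hrpos : (0 : ℝ) < r := by exact_mod_cast hr
  have hne : ∀ e ∈ F, e.Nonempty := fun e he => by
    rw [← card_pos, (hF e he).2]; omega
  rcases le_or_gt F.card s with hcase | hcase
  · obtain ⟨T, hT, hT'⟩ := M3.pick F hne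
    exact ⟨T, hT.trans hcase, hT'⟩
  obtain ⟨Yf, D, hD1, hD2, hD3, hD4, hD5, hD6, hD7⟩ := M3.pieces R hR1 r U F hF
  have hscast : (N : ℝ) ≤ s := by exact_mod_cast hs
  have hFs : (s : ℝ) < F.card := by exact_mod_cast hcase
  have hFK' : (F.card : ℝ) ≤ K * s := by exact_mod_cast hFK
  have hcod : ∀ i j : {e // e ∈ F}, i ≠ j →
      ((univ.filter fun y => i ∈ D y ∧ j ∈ D y).card : ℝ) ≤ δ * r := by
    intro i j hij
    have h1 := hD4 i j
    have h2 := hint i.1 i.2 j.1 j.2 fun h => hij (Subtype.ext h)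
    have h3 : (b : ℝ) * ((i.1 ∩ j.1).card : ℝ) ≤ r := by exact_mod_cast h2
    have h4 : ((univ.filter fun y : {y // y ∈ Yf} => i ∈ D y ∧ j ∈ D y).card : ℝ) ≤
        ((i.1 ∩ j.1).card : ℝ) := by exact_mod_cast h1
    refine h4.trans ?_
    rw [div_lt_iff₀ hδ] at hb
    have h5 : (0 : ℝ) ≤ ((i.1 ∩ j.1).card : ℝ) := Nat.cast_nonneg _
    nlinarith
  have henough : (1 : ℝ) ≤ δ * ((Fintype.card {y // y ∈ Yf} : ℝ) / r) := by
    rw [Fintype.card_coe]
    have h1 : (r : ℝ) * F.card ≤ R * Yf.card := by exact_mod_cast hD7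
    rw [div_lt_iff₀ hδ] at hN
    have h2 : (s : ℝ) ≤ R * (Yf.card / r) := by
      rw [mul_div_assoc', le_div_iff₀ hrpos]
      nlinarith
    have h3 : (R : ℝ) < δ * (R * (Yf.card / r)) := by nlinarith
    have h4 : (R : ℝ) * 1 ≤ R * (δ * (Yf.card / r)) := by linarith
    exact le_of_mul_le_mul_left h4 hRpos
  obtain ⟨P, hP1, hP2⟩ := hnib {e // e ∈ F} {y // y ∈ Yf} D r hr hD1 hD2 hD3 hcod henough
  let G : Finset (Finset ℕ) := (univ \ P.biUnion D).image Subtype.val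
  have hG : ∀ e ∈ G, e.Nonempty := by
    intro e he
    obtain ⟨i, -, rfl⟩ := mem_image.1 he
    exact hne _ i.2
  obtain ⟨T₀, hT₀, hT₀'⟩ := M3.pick G hG
  refine ⟨P.image (fun y => y.1.1) ∪ T₀, ?_, ?_⟩
  · have h1 : ((P.image (fun y => y.1.1) ∪ T₀).card : ℝ) ≤ P.card + T₀.card := by
      have h2 := card_union_le (P.image (fun y => y.1.1)) T₀
      have h3 : (P.image (fun y : {y // y ∈ Yf} => y.1.1)).card ≤ P.card := card_image_le
      exact_mod_cast h2.trans (Nat.add_le_add_right h3 _)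
    have h4 : (T₀.card : ℝ) ≤ ((univ \ P.biUnion D).card : ℝ) := by
      exact_mod_cast hT₀.trans card_image_le
    rw [Fintype.card_coe] at hP1 hP2
    have h5 : (Yf.card : ℝ) / r ≤ (1 - ε) * s + F.card / R := by
      rw [div_le_iff₀ hrpos]
      have e1 : ((1 - ε) * s + (F.card : ℝ) / R) * r = (1 - ε) * s * r + (r * F.card : ℝ) / R := by
        ring
      rw [e1]
      linarith
    have hs0 : (0 : ℝ) ≤ s := Nat.cast_nonneg s
    have h6 : (F.card : ℝ) / R ≤ ε / 2 * s := by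
      calc (F.card : ℝ) / R ≤ K * s / R := div_le_div_of_nonneg_right hFK' hRpos.le
        _ = K / R * s := by ring
        _ ≤ ε / 2 * s := mul_le_mul_of_nonneg_right hR2 hs0
    have h7 : 4 * (R : ℝ) * η * F.card ≤ ε / 2 * s := by
      calc 4 * (R : ℝ) * η * F.card ≤ 4 * R * η * (K * s) := by gcongr
        _ = (4 * R * η * K) * s := by ring
        _ ≤ ε / 2 * s := mul_le_mul_of_nonneg_right hη2 hs0
    have h8 : ((P.image (fun y => y.1.1) ∪ T₀).card : ℝ) ≤ s := by linarith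
    exact_mod_cast h8
  · intro e he
    by_cases hcov : (⟨e, he⟩ : {e // e ∈ F}) ∈ P.biUnion D
    · obtain ⟨y, hy, hey⟩ := mem_biUnion.1 hcov
      exact ⟨y.1.1, mem_inter.2 ⟨hD5 y _ hey, mem_union_left _ (mem_image_of_mem _ hy)⟩⟩
    · have h1 : e ∈ G := mem_image.2 ⟨⟨e, he⟩, mem_sdiff.2 ⟨mem_univ _, hcov⟩, rfl⟩
      obtain ⟨x, hx⟩ := hT₀' e h1
      obtain ⟨hx1, hx2⟩ := mem_inter.1 hx
      exact ⟨x, mem_inter.2 ⟨hx1, mem_union_right _ hx2⟩⟩

end LocTr
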