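import Pool.Agent.Work.MP_a8cb64_co.LDefs

/-!
MP_a8cb64_co, Theorem A (helper72, note 2314): module M4 (helper80).
`fval_set_mem`, `fval_le`, `lt_fval` and the assembly `theoremA_of` from the statements of M1, M3.
-/

namespace LocTr

open Finset

/-- M4a.  The trivial matching bound. -/
theorem fval_set_mem (r k s : ℕ) (hsk : s < k) : ∀ H : Finset (Finset ℕ), (∀ e ∈ H, e.card = r) →
    LocProp k s H → ∃ T : Finset ℕ, T.card ≤ r * s ∧ IsTrans H T := by
  classical
  intro H hr hH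
  -- the pairwise disjoint subfamilies
  let P : Finset (Finset (Finset ℕ)) :=
    H.powerset.filter fun M => ∀ e ∈ M, ∀ f ∈ M, e ≠ f → Disjoint e f
  have hP : P.Nonempty := ⟨∅, by simp [P]⟩
  obtain ⟨M, hM, hmax⟩ := P.exists_max_image (fun M => M.card) hP
  have hMH : M ⊆ H := by
    have := (Finset.mem_filter.1 hM).1
    exact Finset.mem_powerset.1 this
  have hMd : ∀ e ∈ M, ∀ f ∈ M, e ≠ f → Disjoint e f := (Finset.mem_filter.1 hM).2
  -- every edge is nonempty
  have hne : ∀ e ∈ H, e.Nonempty := by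
    intro e he
    obtain ⟨T, -, hT⟩ := hH {e} (by simpa using he) (by simp; omega)
    obtain ⟨x, hx⟩ := hT e (by simp)
    exact ⟨x, (Finset.mem_inter.1 hx).1⟩
  -- the matching has at most `s` edges
  have hcard : M.card ≤ s := by
    by_contra hcon
    push Not at hcon
    obtain ⟨F, hFM, hFc⟩ := Finset.exists_subset_card_eq (n := s + 1) (s := M) (by omega)
    obtain ⟨T, hTs, hT⟩ := hH F (hFM.trans hMH) (by omega)
    choose! g hg using hT
    have hinj : Set.InjOn g (F : Set (Finset ℕ)) := by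
      intro e he f hf hef
      by_contra hne'
      have hd := hMd e (hFM he) f (hFM hf) hne'
      have h1 := Finset.mem_inter.1 (hg e he)
      have h2 := Finset.mem_inter.1 (hg f hf)
      rw [hef] at h1
      exact (Finset.disjoint_left.1 hd h1.1) h2.1
    have hle : F.card ≤ T.card := by
      apply Finset.card_le_card_of_injOn g _ hinj
      intro e he
      exact (Finset.mem_inter.1 (hg e he)).2
    omega
  refine ⟨M.biUnion id, ?_, ?_⟩
  · calc (M.biUnion id).card ≤ M.card * r := by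
          apply Finset.card_biUnion_le_card_mul
          intro e he
          exact (hr e (hMH he)).le
      _ ≤ r * s := by
          rw [mul_comm]
          exact Nat.mul_le_mul_left r hcard
  · intro e he
    by_cases heM : e ∈ M
    · obtain ⟨x, hx⟩ := hne e he
      exact ⟨x, Finset.mem_inter.2 ⟨hx, Finset.mem_biUnion.2 ⟨e, heM, hx⟩⟩⟩
    · by_contra hcon
      have hdis : ∀ f ∈ M, Disjoint e f := by
        intro f hf
        rw [Finset.disjoint_left]
        intro x hxe hxf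
        exact hcon ⟨x, Finset.mem_inter.2 ⟨hxe, Finset.mem_biUnion.2 ⟨f, hf, hxf⟩⟩⟩
      have hins : insert e M ∈ P := by
        refine Finset.mem_filter.2 ⟨Finset.mem_powerset.2 ?_, ?_⟩
        · intro f hf
          rcases Finset.mem_insert.1 hf with h | h
          · exact h ▸ he
          · exact hMH h
        · intro f hf g hg hfg
          rcases Finset.mem_insert.1 hf with h | h <;> rcases Finset.mem_insert.1 hg with h' | h'
          · exact absurd (h.trans h'.symm) hfg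
          · rw [h]; exact hdis g h'
          · rw [h']; exact (hdis f h).symm
          · exact hMd f h g h' hfg
      have := hmax _ hins
      rw [Finset.card_insert_of_notMem heM] at this
      omega

theorem fval_le (r k s : ℕ) (hsk : s < k) : fval r k s ≤ r * s :=
  Nat.sInf_le (fval_set_mem r k s hsk)

/-- M4b.  A construction gives a lower bound. -/
theorem lt_fval (r k s t : ℕ) (hsk : s < k) (H : Finset (Finset ℕ)) (hr : ∀ e ∈ H, e.card = r)
    (hH : LocProp k s H) (ht : ∀ T : Finset ℕ, T.card ≤ t → ¬ IsTrans H T) :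
    t < fval r k s := by
  have hmem : fval r k s ∈ {f : ℕ | ∀ H : Finset (Finset ℕ), (∀ e ∈ H, e.card = r) →
      LocProp k s H → ∃ T : Finset ℕ, T.card ≤ f ∧ IsTrans H T} :=
    Nat.sInf_mem ⟨r * s, fval_set_mem r k s hsk⟩
  obtain ⟨T, hTc, hT⟩ := hmem H hr hH
  by_contra hcon
  push Not at hcon
  exact ht T (hTc.trans hcon) hT

/-- statement of M1 -/
def SparseStmt : Prop := ∀ (A b : ℕ), 1 ≤ b → ∃ N : ℕ, ∀ r W m : ℕ, N ≤ r → N ≤ W → 2 ≤ m →
    m ≤ W → W - 1 ≤ A * (m - 1) →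
    ∃ H : Finset (Finset ℕ), (∀ e ∈ H, e ⊆ range (W * r) ∧ e.card = r) ∧
      (∀ Q : Finset ℕ, Q ⊆ range (W * r) → Q.card = m * r → ∃ e ∈ H, e ⊆ Q) ∧
      (∀ e ∈ H, ∀ f ∈ H, e ≠ f → b * (e ∩ f).card ≤ r)

/-- statement of M3 -/
def CoverStmt : Prop := ∀ (K : ℕ) (ε : ℝ), 0 < ε → ∃ b N : ℕ, 1 ≤ b ∧
    ∀ (r s : ℕ) (U : Finset ℕ) (F : Finset (Finset ℕ)), 1 ≤ r → N ≤ s →
      (∀ e ∈ F, e ⊆ U ∧ e.card = r) → (U.card : ℝ) ≤ (1 - ε) * s * r → F.card ≤ K * s →
      (∀ e ∈ F, ∀ f ∈ F, e ≠ f → b * (e ∩ f).card ≤ r) →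
      ∃ T : Finset ℕ, T.card ≤ s ∧ IsTrans F T

/-- M4c.  Assembly. -/
theorem theoremA_of (h1 : SparseStmt) (h3 : CoverStmt)
    (K : ℕ) (ε : ℝ) (hε : 0 < ε) : ∃ N : ℕ, ∀ r s k : ℕ, N ≤ r → N ≤ s → s < k →
    k ≤ K * s → (1 - ε) * (r * s) ≤ (fval r k s : ℝ) ∧ (fval r k s : ℝ) ≤ r * s := by
  classical
  have hup : ∀ r s k : ℕ, s < k → (fval r k s : ℝ) ≤ r * s := by
    intro r s k hsk
    exact_mod_cast fval_le r k s hsk
  rcases le_or_gt 1 ε with hε1 | hε1
  · refine ⟨0, fun r s k _ _ hsk _ => ⟨?_, hup r s k hsk⟩⟩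
    have : (1 - ε) * ((r : ℝ) * s) ≤ 0 :=
      mul_nonpos_of_nonpos_of_nonneg (by linarith) (by positivity)
    exact this.trans (Nat.cast_nonneg _)
  · set δ : ℝ := ε / 4 with hδ
    have hδ0 : 0 < δ := by positivity
    have hδ4 : δ < 1 / 4 := by rw [hδ]; linarith
    obtain ⟨b, N3, hb, h3'⟩ := h3 K δ hδ0
    obtain ⟨N1, h1'⟩ := h1 ⌈1 / δ⌉₊ b hb
    refine ⟨max (max (N3 + 1) (N1 + 1)) (max (2 * N1 + 10) (⌈4 / δ⌉₊ + 1)), ?_⟩
    intro r s k hNr hNs hsk hkK
    have hrN3 : N3 + 1 ≤ r := (le_max_left _ _).trans ((le_max_left _ _).trans hNr)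
    have hrN1 : N1 + 1 ≤ r := (le_max_right _ _).trans ((le_max_left _ _).trans hNr)
    have hsN3 : N3 + 1 ≤ s := (le_max_left _ _).trans ((le_max_left _ _).trans hNs)
    have hsN1 : 2 * N1 + 10 ≤ s := (le_max_left _ _).trans ((le_max_right _ _).trans hNs)
    have hsδ : ⌈4 / δ⌉₊ + 1 ≤ s := (le_max_right _ _).trans ((le_max_right _ _).trans hNs)
    have hsδ' : 4 ≤ δ * s := by
      have h2 : (4 / δ : ℝ) ≤ s := by
        calc (4 / δ : ℝ) ≤ (⌈4 / δ⌉₊ : ℝ) := Nat.le_ceil _
          _ ≤ s := by exact_mod_cast (by omega : ⌈4 / δ⌉₊ ≤ s)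
      rw [div_le_iff₀ hδ0] at h2
      linarith
    have hs0 : (0 : ℝ) ≤ s := Nat.cast_nonneg _
    set W : ℕ := ⌊(1 - δ) * s⌋₊ with hW
    set m : ℕ := ⌈δ * s⌉₊ + 1 with hm
    have hWle : (W : ℝ) ≤ (1 - δ) * s := Nat.floor_le (mul_nonneg (by linarith) hs0)
    have hWgt : (1 - δ) * s - 1 < W := by
      have := Nat.lt_floor_add_one ((1 - δ) * (s : ℝ))
      rw [← hW] at this
      linarith
    have hmle : (m : ℝ) < δ * s + 2 := by
      have := Nat.ceil_lt_add_one (a := δ * (s : ℝ)) (by positivity)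
      rw [hm]; push_cast; linarith
    have hmge : δ * s + 1 ≤ (m : ℝ) := by
      have := Nat.le_ceil (δ * (s : ℝ))
      rw [hm]; push_cast; linarith
    have hmW : m ≤ W := by
      have : (m : ℝ) < W := by nlinarith
      exact_mod_cast this.le
    have h2m : 2 ≤ m := by
      have : (2 : ℝ) ≤ m := by linarith
      exact_mod_cast this
    have hN1W : N1 ≤ W := by
      have h5 : (2 * N1 + 10 : ℝ) ≤ s := by exact_mod_cast hsN1
      have : (N1 : ℝ) < W := by nlinarith
      exact_mod_cast this.le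
    have hA : W - 1 ≤ ⌈1 / δ⌉₊ * (m - 1) := by
      have h6 : (s : ℝ) ≤ (⌈1 / δ⌉₊ : ℝ) * ((m : ℝ) - 1) := by
        have h7 : (1 / δ : ℝ) ≤ ⌈1 / δ⌉₊ := Nat.le_ceil _
        calc (s : ℝ) = (1 / δ) * (δ * s) := by field_simp
          _ ≤ (⌈1 / δ⌉₊ : ℝ) * ((m : ℝ) - 1) :=
            mul_le_mul h7 (by linarith) (by positivity) (Nat.cast_nonneg _)
      have h8 : s ≤ ⌈1 / δ⌉₊ * (m - 1) := by
        have h9 : ((m - 1 : ℕ) : ℝ) = (m : ℝ) - 1 := by
          rw [Nat.cast_sub (by omega)]; simp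
        rw [← h9] at h6
        exact_mod_cast h6
      have h10 : W ≤ s := by
        have : (W : ℝ) ≤ s := by nlinarith
        exact_mod_cast this
      omega
    obtain ⟨H, hHe, hHQ, hHi⟩ := h1' r W m (by omega) hN1W h2m hmW hA
    have hLoc : LocProp k s H := by
      intro F hFH hFk
      apply h3' r s (range (W * r)) F (by omega) (by omega)
      · intro e he
        exact hHe e (hFH he)
      · rw [Finset.card_range]
        push_cast
        exact mul_le_mul_of_nonneg_right hWle (Nat.cast_nonneg _)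
      · exact hFk.trans hkK
      · intro e he f hf hef
        exact hHi e (hFH he) f (hFH hf) hef
    have hT : ∀ T : Finset ℕ, T.card ≤ (W - m) * r → ¬ IsTrans H T := by
      intro T hTc hT
      have hc : m * r ≤ (range (W * r) \ T).card := by
        have h11 := Finset.le_card_sdiff T (range (W * r))
        rw [Finset.card_range] at h11
        have h12 : (W - m) * r = W * r - m * r := Nat.sub_mul W m r
        have h13 : m * r ≤ W * r := Nat.mul_le_mul_right r hmW
        omega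
      obtain ⟨Q, hQs, hQc⟩ := Finset.exists_subset_card_eq hc
      obtain ⟨e, heH, heQ⟩ := hHQ Q (hQs.trans Finset.sdiff_subset) hQc
      obtain ⟨x, hx⟩ := hT e heH
      have hx' := Finset.mem_inter.1 hx
      exact (Finset.mem_sdiff.1 (hQs (heQ hx'.1))).2 hx'.2
    have hlt := lt_fval r k s ((W - m) * r) hsk H (fun e he => (hHe e he).2) hLoc hT
    refine ⟨?_, hup r s k hsk⟩
    have h14 : (((W - m) * r : ℕ) : ℝ) ≤ fval r k s := by exact_mod_cast hlt.le
    have h15 : (((W - m) * r : ℕ) : ℝ) = ((W : ℝ) - m) * r := by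
      rw [Nat.cast_mul, Nat.cast_sub hmW]
    rw [h15] at h14
    refine le_trans ?_ h14
    have h16 : (1 - ε) * s ≤ (W : ℝ) - m := by
      rw [show ε = 4 * δ by rw [hδ]; ring]
      nlinarith
    calc (1 - ε) * ((r : ℝ) * s) = ((1 - ε) * s) * r := by ring
      _ ≤ ((W : ℝ) - m) * r := mul_le_mul_of_nonneg_right h16 (Nat.cast_nonneg _)

end LocTr
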