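import Pool.Agent.Work.MP_a8cb64_co.LD7

/-!
MP_a8cb64_co, Theorem D (helper71, note 2363): module D10 (helper80), final assembly from the
statements of D7, D8, D9.
-/

namespace LocTr

open Finset

/-- statement of D7 -/
def LowerBigStmt : Prop := ∃ C : ℝ, 0 < C ∧ ∀ s k : ℕ, 1 ≤ s → s < k → ∀ K : ℝ, 0 ≤ K →
    (k : ℝ) ≤ Real.exp (K * s) → C * (1 + K) ^ (3 / 2 : ℝ) ≤ s → ∃ r0 : ℕ, ∀ r : ℕ, r0 ≤ r →
      (r : ℝ) * s * Real.exp (-K) / (C * (1 + K) ^ (3 / 2 : ℝ)) ≤ (fval r k s : ℝ)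

/-- statement of D8 -/
def CompleteStmt : Prop := ∀ (r k s : ℕ), 1 ≤ s → s < k → 1 ≤ r →
    (r : ℝ) * (k : ℝ) ^ (-(1 / (s : ℝ))) ≤ (fval r k s : ℝ)

/-- statement of D9 -/
def RootUpperStmt : Prop := ∀ (k s : ℕ), 1 ≤ s → s < k → ∃ r0 : ℕ, ∀ r : ℕ, r0 ≤ r →
    (fval r k s : ℝ) ≤ 8 * (r * s) * (k : ℝ) ^ (-(1 / (s : ℝ)))

/-- D10.  Theorem D. -/
theorem theoremD_of (h7 : LowerBigStmt) (h8 : CompleteStmt) (h9 : RootUpperStmt) :
    ∃ C : ℝ, 0 < C ∧ ∀ k s : ℕ, 1 ≤ s → s < k → ∃ r0 : ℕ, ∀ r : ℕ, r0 ≤ r →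
    (r : ℝ) * s * (k : ℝ) ^ (-(1 / (s : ℝ))) / (C * (1 + Real.log k / s) ^ (3 / 2 : ℝ)) ≤
        (fval r k s : ℝ) ∧
      (fval r k s : ℝ) ≤ C * (r * s) * (k : ℝ) ^ (-(1 / (s : ℝ))) := by
  obtain ⟨C0, hC0, h7⟩ := h7
  refine ⟨C0 + 8, by positivity, ?_⟩
  intro k s hs hsk
  have hsR : (0 : ℝ) < s := by exact_mod_cast hs
  have hk1 : (1 : ℝ) ≤ k := by
    have : 1 ≤ k := by omega
    exact_mod_cast this
  have hk0 : (0 : ℝ) < k := by linarith
  set K : ℝ := Real.log k / s with hK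
  have hK0 : 0 ≤ K := div_nonneg (Real.log_nonneg hk1) hsR.le
  have hKs : K * s = Real.log k := by
    rw [hK]; field_simp
  have hexp : Real.exp (K * s) = k := by
    rw [hKs, Real.exp_log hk0]
  have hexpK : (k : ℝ) ^ (-(1 / (s : ℝ))) = Real.exp (-K) := by
    rw [Real.rpow_def_of_pos hk0]
    congr 1
    rw [hK]
    ring
  set D : ℝ := (1 + K) ^ (3 / 2 : ℝ) with hD
  have hD0 : 0 < D := by rw [hD]; positivity
  obtain ⟨r1, hr1⟩ := h9 k s hs hsk
  have hE := Real.exp_pos (-K)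
  by_cases hcase : C0 * D ≤ s
  · obtain ⟨r0, hr0⟩ := h7 s k hs hsk K hK0 hexp.ge hcase
    refine ⟨max r0 r1, fun r hr => ⟨?_, ?_⟩⟩
    · refine le_trans ?_ (hr0 r ((le_max_left _ _).trans hr))
      rw [hexpK]
      apply div_le_div_of_nonneg_left (by positivity) (by positivity)
      exact mul_le_mul_of_nonneg_right (by linarith) hD0.le
    · refine (hr1 r ((le_max_right _ _).trans hr)).trans ?_
      rw [hexpK]
      apply mul_le_mul_of_nonneg_right _ hE.le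
      exact mul_le_mul_of_nonneg_right (by linarith) (by positivity)
  · push Not at hcase
    refine ⟨max 1 r1, fun r hr => ⟨?_, ?_⟩⟩
    · refine le_trans ?_ (h8 r k s hs hsk ((le_max_left _ _).trans hr))
      rw [hexpK, div_le_iff₀ (by positivity)]
      have h10 : (s : ℝ) ≤ (C0 + 8) * D := by nlinarith
      calc (r : ℝ) * s * Real.exp (-K) = (r * Real.exp (-K)) * s := by ring
        _ ≤ (r * Real.exp (-K)) * ((C0 + 8) * D) := mul_le_mul_of_nonneg_left h10 (by positivity)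
    · refine (hr1 r ((le_max_right _ _).trans hr)).trans ?_
      rw [hexpK]
      apply mul_le_mul_of_nonneg_right _ hE.le
      exact mul_le_mul_of_nonneg_right (by linarith) (by positivity)

end LocTr
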