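import Pool.Agent.Work.MP_a8cb64_co.DDefs

/-!
MP_a8cb64_co, Theorem D, module D2: the information is nonnegative and supermodular.
-/

namespace LocTr

open Finset

namespace InfD2

/-- the permutations which map every member of `J` onto itself -/
def St (n : ℕ) (J : Finset (Finset ℕ)) : Subgroup (Equiv.Perm (Fin n)) where
  carrier := {σ | ∀ A ∈ J, ∀ x : Fin n, ((x : ℕ) ∈ A ↔ ((σ x : Fin n) : ℕ) ∈ A)}
  mul_mem' := by
    intro σ τ hσ hτ A hA x
    rw [Equiv.Perm.mul_apply, ← hσ A hA, ← hτ A hA]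
  one_mem' := fun A _ x => by rw [Equiv.Perm.one_apply]
  inv_mem' := by
    intro σ hσ A hA x
    have h := hσ A hA (σ⁻¹ x)
    have h1 : σ (σ⁻¹ x) = x := by
      rw [← Equiv.Perm.mul_apply, mul_inv_cancel, Equiv.Perm.one_apply]
    rw [h1] at h
    exact h.symm

lemma mem_St {n : ℕ} {J : Finset (Finset ℕ)} {σ : Equiv.Perm (Fin n)} :
    σ ∈ St n J ↔ ∀ A ∈ J, ∀ x : Fin n, ((x : ℕ) ∈ A ↔ ((σ x : Fin n) : ℕ) ∈ A) := Iff.rfl

lemma symC_eq (n : ℕ) (J : Finset (Finset ℕ)) : symC n J = Nat.card (St n J) := rfl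

lemma St_anti {n : ℕ} {J J' : Finset (Finset ℕ)} (h : J ⊆ J') : St n J' ≤ St n J :=
  fun _ hσ A hA => hσ A (h hA)

lemma St_insert (n : ℕ) (e : Finset ℕ) (J : Finset (Finset ℕ)) :
    St n (insert e J) = St n {e} ⊓ St n J := by
  ext σ
  rw [Subgroup.mem_inf, mem_St, mem_St, mem_St]
  simp only [mem_insert, mem_singleton, forall_eq_or_imp, forall_eq]

lemma card_inf (n : ℕ) (e : Finset ℕ) (J : Finset (Finset ℕ)) :
    symC n (insert e J) * (St n {e}).relIndex (St n J) = symC n J := by
  rw [symC_eq, symC_eq, St_insert, ← Subgroup.inf_relIndex_right, ← Subgroup.relIndex_bot_left,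
    ← Subgroup.relIndex_bot_left]
  exact Subgroup.relIndex_mul_relIndex _ _ _ bot_le inf_le_right

lemma symC_pos (n : ℕ) (J : Finset (Finset ℕ)) : 0 < symC n J := by
  rw [symC_eq]
  exact Nat.card_pos

lemma relIndex_pos (n : ℕ) (e : Finset ℕ) (J : Finset (Finset ℕ)) :
    0 < (St n {e}).relIndex (St n J) := by
  rcases Nat.eq_zero_or_pos ((St n {e}).relIndex (St n J)) with h | h
  · have h1 := card_inf n e J
    rw [h, mul_zero] at h1
    have := symC_pos n J
    omega
  · exact h

/-- the increment of the information -/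
lemma infoG_insert (n r : ℕ) (J : Finset (Finset ℕ)) (e : Finset ℕ) (he : e ∉ J) :
    infoG n r (insert e J) - infoG n r J =
      Real.log (n.choose r) - Real.log ((St n {e}).relIndex (St n J)) := by
  unfold infoG
  have h1 : ((symC n J : ℕ) : ℝ) = symC n (insert e J) * (St n {e}).relIndex (St n J) := by
    rw [← card_inf n e J]
    push_cast
    ring
  have h2 : (0 : ℝ) < symC n (insert e J) := by exact_mod_cast symC_pos n _
  have h3 : (0 : ℝ) < (St n {e}).relIndex (St n J) := by exact_mod_cast relIndex_pos n e J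
  rw [h1, Real.log_mul h2.ne' h3.ne', card_insert_of_notMem he]
  push_cast
  ring

/-- the trace of a set on `Fin n` -/
def tr (n : ℕ) (A : Finset ℕ) : Finset (Fin n) := univ.filter fun x => (x : ℕ) ∈ A

lemma card_tr {n : ℕ} {A : Finset ℕ} (h : A ⊆ range n) : (tr n A).card = A.card := by
  refine card_bij (fun x _ => (x : ℕ)) ?_ ?_ ?_
  · intro x hx
    exact (mem_filter.1 hx).2
  · intro x _ y _ hxy
    exact Fin.ext hxy
  · intro y hy
    exact ⟨⟨y, mem_range.1 (h hy)⟩, mem_filter.2 ⟨mem_univ _, hy⟩, rfl⟩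

lemma factorial_le (n r : ℕ) (J : Finset (Finset ℕ)) (hJ : ∀ A ∈ J, A ⊆ range n ∧ A.card = r) :
    n.factorial ≤ n.choose r ^ J.card * symC n J := by
  classical
  have h1 : n.factorial = (univ : Finset (Equiv.Perm (Fin n))).card := by
    rw [card_univ, Fintype.card_perm, Fintype.card_fin]
  let Φ : Equiv.Perm (Fin n) → (J → Finset (Fin n)) := fun σ A => (tr n A.1).map σ.toEmbedding
  let T : Finset (J → Finset (Fin n)) := Fintype.piFinset fun _ => powersetCard r univ
  have hT : T.card = n.choose r ^ J.card := by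
    rw [Fintype.card_piFinset, prod_const, card_powersetCard, card_univ, Fintype.card_fin,
      card_univ, Fintype.card_coe]
  have h2 : ∀ σ ∈ (univ : Finset (Equiv.Perm (Fin n))), Φ σ ∈ T := by
    intro σ _
    rw [Fintype.mem_piFinset]
    intro A
    rw [mem_powersetCard]
    refine ⟨subset_univ _, ?_⟩
    show ((tr n A.1).map σ.toEmbedding).card = r
    rw [card_map, card_tr (hJ A.1 A.2).1, (hJ A.1 A.2).2]
  rw [h1, ← hT, mul_comm]
  refine card_le_mul_card_image_of_maps_to h2 _ fun t ht => ?_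
  rcases (univ.filter fun σ => Φ σ = t).eq_empty_or_nonempty with h3 | ⟨σ₀, h3⟩
  · rw [h3]
    simp
  · have h4 : Φ σ₀ = t := (mem_filter.1 h3).2
    have h5 : symC n J = (univ.filter fun σ => σ ∈ St n J).card := by
      rw [symC_eq, Nat.card_eq_fintype_card, Fintype.card_subtype]
    rw [h5]
    refine card_le_card_of_injOn (fun σ => σ₀⁻¹ * σ) ?_ ?_
    · intro σ hσ
      rw [mem_coe, mem_filter] at hσ
      rw [mem_coe, mem_filter]
      refine ⟨mem_univ _, fun A hA x => ?_⟩
      have h6 : (tr n A).map σ.toEmbedding = (tr n A).map σ₀.toEmbedding := by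
        have h7 : Φ σ = Φ σ₀ := by rw [hσ.2, h4]
        exact congrFun h7 ⟨A, hA⟩
      have h8 : ∀ y : Fin n, (y : ℕ) ∈ A ↔ y ∈ tr n A := fun y => by
        unfold tr
        rw [mem_filter]
        exact ⟨fun h => ⟨mem_univ _, h⟩, fun h => h.2⟩
      rw [h8, h8]
      constructor
      · intro hx
        have h9 : σ x ∈ (tr n A).map σ₀.toEmbedding := by
          rw [← h6]
          exact mem_map_of_mem _ hx
        obtain ⟨y, hy, hyx⟩ := mem_map.1 h9
        have h10 : y = (σ₀⁻¹ * σ) x := by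
          rw [Equiv.Perm.mul_apply, Equiv.Perm.eq_inv_iff_eq]
          exact hyx
        rw [← h10]
        exact hy
      · intro hx
        have h9 : σ x ∈ (tr n A).map σ.toEmbedding := by
          rw [h6]
          refine mem_map.2 ⟨_, hx, ?_⟩
          show σ₀ ((σ₀⁻¹ * σ) x) = σ x
          rw [← Equiv.Perm.mul_apply, mul_inv_cancel_left]
        obtain ⟨z, hz, hzx⟩ := mem_map.1 h9
        have h10 : z = x := σ.injective hzx
        rw [← h10]
        exact hz
    · intro σ _ σ' _ h
      exact mul_left_cancel h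

end InfD2

open InfD2

theorem infoG_nonneg (n r : ℕ) (J : Finset (Finset ℕ))
    (hJ : ∀ A ∈ J, A ⊆ range n ∧ A.card = r) : 0 ≤ infoG n r J := by
  have h1 := factorial_le n r J hJ
  have h2 : (n.factorial : ℝ) ≤ (n.choose r : ℝ) ^ J.card * symC n J := by exact_mod_cast h1
  have h3 : (0 : ℝ) < symC n J := by exact_mod_cast symC_pos n J
  have h4 : (0 : ℝ) < (n.choose r : ℝ) ^ J.card := by
    have h5 : (0 : ℝ) < (n.choose r : ℝ) ^ J.card * symC n J :=
      lt_of_lt_of_le (by exact_mod_cast n.factorial_pos) h2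
    exact (pos_iff_pos_of_mul_pos h5).2 h3
  have h6 := Real.log_le_log (by exact_mod_cast n.factorial_pos) h2
  rw [Real.log_mul h4.ne' h3.ne', Real.log_pow] at h6
  unfold infoG
  linarith

theorem infoG_super (n r : ℕ) (J J' : Finset (Finset ℕ)) (e : Finset ℕ)
    (hJ' : ∀ A ∈ J', A ⊆ range n ∧ A.card = r) (he : e ⊆ range n ∧ e.card = r) (hJJ' : J ⊆ J')
    (heJ : e ∉ J') :
    infoG n r (insert e J) - infoG n r J ≤ infoG n r (insert e J') - infoG n r J' := by
  rw [infoG_insert n r J e fun h => heJ (hJJ' h), infoG_insert n r J' e heJ]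
  have h1 : (St n {e}).relIndex (St n J') ≤ (St n {e}).relIndex (St n J) :=
    Subgroup.relIndex_le_of_le_right (St_anti hJJ') (relIndex_pos n e J).ne'
  have h2 : (0 : ℝ) < (St n {e}).relIndex (St n J') := by exact_mod_cast relIndex_pos n e J'
  have h3 := Real.log_le_log h2 (by exact_mod_cast h1 :
    (((St n {e}).relIndex (St n J') : ℕ) : ℝ) ≤ (St n {e}).relIndex (St n J))
  linarith

end LocTr
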