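import Pool.Agent.Work.MP_a8cb64_co.LE2

/-!
MP_a8cb64_co, Theorem D, module D3: the noisy order for a nonnegative supermodular function.
-/

namespace LocTr

open Finset

namespace OrdD3

open OrdE2

variable {α : Type*} [DecidableEq α]

lemma sum_erase (u : ℝ) (A : Finset α) (f : α → Finset α → ℝ) :
    ∑ i ∈ A, (1 - u) * ∑ J ∈ (A.erase i).powerset,
        u ^ J.card * (1 - u) ^ ((A.erase i).card - J.card) * f i J =
      ∑ J ∈ A.powerset, u ^ J.card * (1 - u) ^ (A.card - J.card) * ∑ i ∈ A \ J, f i J := by
  have h1 : ∀ J ∈ A.powerset, u ^ J.card * (1 - u) ^ (A.card - J.card) * ∑ i ∈ A \ J, f i J =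
      ∑ i ∈ A, if i ∉ J then u ^ J.card * (1 - u) ^ (A.card - J.card) * f i J else 0 := by
    intro J hJ
    rw [← Finset.sum_filter, mul_sum]
    refine sum_congr ?_ fun _ _ => rfl
    ext i
    simp only [mem_filter, mem_sdiff]
  rw [sum_congr rfl h1, sum_comm]
  refine sum_congr rfl fun i hi => ?_
  rw [mul_sum, ← Finset.sum_filter]
  have h2 : (A.powerset.filter fun J => i ∉ J) = (A.erase i).powerset := by
    ext J
    simp only [mem_filter, mem_powerset]
    exact subset_erase.symm
  rw [h2]
  refine sum_congr rfl fun J hJ => ?_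
  rw [mem_powerset] at hJ
  have h3 : J.card ≤ (A.erase i).card := card_le_card hJ
  have h7 : A.card = (A.erase i).card + 1 := (card_erase_add_one hi).symm
  rw [h7, Nat.succ_sub h3, pow_succ]
  ring

/-- the order from the choice of the last element, as a list -/
theorem list_of_last {u B : ℝ} (F : Finset α) (f : α → Finset α → ℝ)
    (h : ∀ A ⊆ F, A.Nonempty → ∃ i ∈ A, ∑ J ∈ (A.erase i).powerset,
      u ^ J.card * (1 - u) ^ ((A.erase i).card - J.card) * f i J ≤ B) :
    ∃ l : List α, l.Nodup ∧ l.toFinset = F ∧ ∀ (i : ℕ) (hi : i < l.length),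
      ∑ J ∈ (l.take i).toFinset.powerset,
        u ^ J.card * (1 - u) ^ ((l.take i).toFinset.card - J.card) * f l[i] J ≤ B := by
  induction hn : F.card generalizing F with
  | zero =>
      rw [card_eq_zero] at hn
      subst hn
      exact ⟨[], by simp, by simp, by simp⟩
  | succ n ih =>
      have hF : F.Nonempty := by
        rw [← card_pos]
        omega
      obtain ⟨a, ha, hap⟩ := h F le_rfl hF
      obtain ⟨l, h1, h2, h3⟩ := ih (F.erase a)
        (fun A hA hne => h A (hA.trans (erase_subset _ _)) hne)
        (by rw [card_erase_of_mem ha, hn]; rfl)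
      have h4 : a ∉ l := by
        intro h5
        have : a ∈ F.erase a := by rw [← h2]; exact List.mem_toFinset.2 h5
        exact notMem_erase a F this
      refine ⟨l ++ [a], ?_, ?_, ?_⟩
      · rw [List.nodup_append]
        refine ⟨h1, List.nodup_singleton a, ?_⟩
        intro x hx y hy hxy
        rw [List.mem_singleton] at hy
        subst hy
        subst hxy
        exact h4 hx
      · rw [List.toFinset_append, h2]
        ext x
        simp only [mem_union, mem_erase, List.toFinset_cons, List.toFinset_nil, mem_insert]
        constructor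
        · rintro (h | h)
          · exact h.2
          · rcases h with h | h
            · rw [h]; exact ha
            · exact absurd h (notMem_empty x)
        · intro h
          by_cases hx : x = a
          · exact Or.inr (Or.inl hx)
          · exact Or.inl ⟨hx, h⟩
      · intro i hi
        rw [List.length_append, List.length_singleton] at hi
        rcases Nat.lt_succ_iff_lt_or_eq.1 hi with h6 | h6
        · rw [List.take_append_of_le_length h6.le, List.getElem_append_left h6]
          exact h3 i h6
        · subst h6
          rw [List.take_left', List.getElem_append_right le_rfl]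
          · simp only [Nat.sub_self, List.getElem_cons_zero]
            rw [h2]
            exact hap
          · rfl

/-- the order from the choice of the last element -/
theorem order_of_last {u B : ℝ} (F : Finset α) (f : α → Finset α → ℝ)
    (h : ∀ A ⊆ F, A.Nonempty → ∃ i ∈ A, ∑ J ∈ (A.erase i).powerset,
      u ^ J.card * (1 - u) ^ ((A.erase i).card - J.card) * f i J ≤ B) [Inhabited α] :
    ∃ g : ℕ → α, Set.InjOn g (range F.card) ∧ (range F.card).image g = F ∧
      ∀ i < F.card, ∑ J ∈ (range i).powerset, u ^ J.card * (1 - u) ^ (i - J.card) *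
        f (g i) (J.image g) ≤ B := by
  obtain ⟨l, h1, h2, h3⟩ := list_of_last F f h
  have hlen : l.length = F.card := by
    rw [← h2, List.toFinset_card_of_nodup h1]
  have hgi : ∀ i (hi : i < l.length), l.getD i default = l[i] := fun i hi =>
    List.getD_eq_getElem l default hi
  have hinj : Set.InjOn (fun i => l.getD i default) (range F.card) := by
    intro i hi j hj hij
    rw [mem_coe, mem_range, ← hlen] at hi hj
    simp only at hij
    rw [hgi i hi, hgi j hj] at hij
    exact (List.Nodup.getElem_inj_iff h1).1 hij
  have himg : ∀ i ≤ l.length, (range i).image (fun i => l.getD i default) =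
      (l.take i).toFinset := by
    intro i hi
    ext x
    simp only [mem_image, mem_range, List.mem_toFinset]
    constructor
    · rintro ⟨j, hj, rfl⟩
      rw [hgi j (hj.trans_le hi)]
      rw [List.mem_take_iff_getElem]
      exact ⟨j, by omega, rfl⟩
    · intro hx
      rw [List.mem_take_iff_getElem] at hx
      obtain ⟨j, hj, hjx⟩ := hx
      exact ⟨j, by omega, by rw [hgi j (by omega)]; exact hjx⟩
  refine ⟨fun i => l.getD i default, hinj, ?_, ?_⟩
  · rw [← hlen, himg _ le_rfl, List.take_length, h2]
  · intro i hi
    have hi' : i < l.length := by omega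
    have hsub : Set.InjOn (fun i => l.getD i default) (range i) := by
      refine hinj.mono (coe_subset.2 ?_)
      intro x hx
      rw [mem_range] at hx ⊢
      omega
    rw [sum_image u (fun i => l.getD i default) hsub (f (l.getD i default)), himg i hi'.le]
    have h4 := h3 i hi'
    rw [← hgi i hi'] at h4
    exact h4

/-- supermodularity: many elements at a time -/
lemma super_sum {G : Finset α → ℝ} {F : Finset α}
    (hsup : ∀ J J' : Finset α, ∀ e ∈ F, J ⊆ J' → J' ⊆ F → e ∉ J' →
      G (insert e J) - G J ≤ G (insert e J') - G J') (J : Finset α) (hJ : J ⊆ F)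
    (D : Finset α) (hD : D ⊆ F) (hJD : Disjoint J D) :
    ∑ e ∈ D, (G (insert e J) - G J) ≤ G (D ∪ J) - G J := by
  induction D using Finset.induction_on with
  | empty => simp
  | insert a D ha ih =>
      have h1 : Disjoint J D := hJD.mono_right (subset_insert _ _)
      have h2 := ih ((subset_insert _ _).trans hD) h1
      have h3 : a ∉ J := fun h => (disjoint_left.1 hJD) h (mem_insert_self _ _)
      rw [sum_insert ha, insert_union]
      have h4 := hsup J (D ∪ J) a (hD (mem_insert_self _ _)) subset_union_right
        (union_subset ((subset_insert _ _).trans hD) hJ) (by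
          rw [mem_union]
          rintro (h | h)
          · exact ha h
          · exact h3 h)
      linarith

end OrdD3

open OrdD3 OrdE2

theorem info_order (G : Finset (Finset ℕ) → ℝ) (F : Finset (Finset ℕ)) (b u : ℝ)
    (hu0 : 0 < u) (hu1 : u < 1) (h0 : ∀ J ⊆ F, 0 ≤ G J) (hb : ∀ J ⊆ F, G J ≤ b * J.card)
    (hsup : ∀ J J' : Finset (Finset ℕ), ∀ e ∈ F, J ⊆ J' → J' ⊆ F → e ∉ J' →
      G (insert e J) - G J ≤ G (insert e J') - G J') :
    ∃ g : ℕ → Finset ℕ, Set.InjOn g (range F.card) ∧ (range F.card).image g = F ∧
      ∀ i < F.card, ∑ J ∈ (range i).powerset, u ^ J.card * (1 - u) ^ (i - J.card) *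
        (G (insert (g i) (J.image g)) - G (J.image g)) ≤ b / (1 - u) := by
  refine order_of_last F (fun e J => G (insert e J) - G J) fun A hA hne => ?_
  by_contra hcon
  push Not at hcon
  have hv : 0 < 1 - u := by linarith
  have h1 : ∑ i ∈ A, (1 - u) * ∑ J ∈ (A.erase i).powerset,
      u ^ J.card * (1 - u) ^ ((A.erase i).card - J.card) * (G (insert i J) - G J) ≤
        b * A.card := by
    rw [sum_erase u A (fun e J => G (insert e J) - G J)]
    refine le_trans ?_ (hb A hA)
    have h2 : G A = ∑ J ∈ A.powerset, u ^ J.card * (1 - u) ^ (A.card - J.card) * G A := by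
      rw [← sum_mul, sum_w, one_mul]
    rw [h2]
    refine sum_le_sum fun J hJ => ?_
    rw [mem_powerset] at hJ
    have h3 : 0 ≤ u ^ J.card * (1 - u) ^ (A.card - J.card) := by positivity
    refine mul_le_mul_of_nonneg_left ?_ h3
    have h4 := super_sum hsup J (hJ.trans hA) (A \ J) (sdiff_subset.trans hA) disjoint_sdiff
    rw [sdiff_union_of_subset hJ] at h4
    have h5 := h0 J (hJ.trans hA)
    linarith
  have h2 : ∑ i ∈ A, b < ∑ i ∈ A, (1 - u) * ∑ J ∈ (A.erase i).powerset,
      u ^ J.card * (1 - u) ^ ((A.erase i).card - J.card) * (G (insert i J) - G J) := by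
    refine sum_lt_sum_of_nonempty hne fun i hi => ?_
    have h3 := hcon i hi
    have h4 : b = (1 - u) * (b / (1 - u)) := by field_simp
    calc b = (1 - u) * (b / (1 - u)) := h4
      _ < _ := mul_lt_mul_of_pos_left h3 hv
  rw [sum_const, nsmul_eq_mul] at h2
  linarith

end LocTr
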