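import Pool.Agent.Work.MP_a8cb64_co.DDefs

/-!
MP_a8cb64_co, Theorem D (helper71, note 2363): module D4 (helper80), low points cost information.
-/

namespace LocTr

open Finset

/-- the stabiliser of `J` as a finset -/
noncomputable def stabF (n : ℕ) (J : Finset (Finset ℕ)) : Finset (Equiv.Perm (Fin n)) := by
  classical
  exact Finset.univ.filter fun σ => ∀ A ∈ J, ∀ x : Fin n, ((x : ℕ) ∈ A ↔ ((σ x : Fin n) : ℕ) ∈ A)

theorem mem_stabF (n : ℕ) (J : Finset (Finset ℕ)) (σ : Equiv.Perm (Fin n)) :
    σ ∈ stabF n J ↔ ∀ A ∈ J, ∀ x : Fin n, ((x : ℕ) ∈ A ↔ ((σ x : Fin n) : ℕ) ∈ A) := by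
  classical
  simp [stabF]

theorem symC_eq (n : ℕ) (J : Finset (Finset ℕ)) : symC n J = (stabF n J).card := by
  classical
  unfold symC stabF
  rw [Nat.card_eq_fintype_card, Fintype.card_subtype]

theorem symC_pos (n : ℕ) (J : Finset (Finset ℕ)) : 0 < symC n J := by
  rw [symC_eq]
  exact Finset.card_pos.2 ⟨1, (mem_stabF n J 1).2 fun A _ x => by simp⟩

/-- the set `e` as a set of elements of `Fin n` -/
def toFin (n : ℕ) (e : Finset ℕ) : Finset (Fin n) := Finset.univ.filter fun x => (x : ℕ) ∈ e

theorem mem_toFin (n : ℕ) (e : Finset ℕ) (x : Fin n) : x ∈ toFin n e ↔ (x : ℕ) ∈ e := by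
  simp [toFin]

theorem card_toFin (n : ℕ) (e : Finset ℕ) (he : e ⊆ range n) : (toFin n e).card = e.card := by
  classical
  have h : (toFin n e).map Fin.valEmbedding = e := by
    ext y
    simp only [Finset.mem_map, mem_toFin, Fin.valEmbedding_apply]
    constructor
    · rintro ⟨x, hx, rfl⟩
      exact hx
    · intro hy
      exact ⟨⟨y, Finset.mem_range.1 (he hy)⟩, hy, rfl⟩
  rw [← h, Finset.card_map]
  congr 1
  rw [h]

/-- the index of the stabiliser of `e` in the stabiliser of `J` is at most the number of images -/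
theorem symC_le (n : ℕ) (J : Finset (Finset ℕ)) (e : Finset ℕ) (X : Finset (Finset (Fin n)))
    (hX : ∀ σ ∈ stabF n J, (toFin n e).map σ.toEmbedding ∈ X) :
    symC n J ≤ symC n (insert e J) * X.card := by
  classical
  rw [symC_eq, symC_eq]
  have h1 := Finset.card_le_mul_card_image (f := fun σ : Equiv.Perm (Fin n) =>
    (toFin n e).map σ.toEmbedding) (stabF n J) (stabF n (insert e J)).card (by
      intro E' hE'
      obtain ⟨σ0, hσ0, rfl⟩ := Finset.mem_image.1 hE'
      apply Finset.card_le_card_of_injOn (fun σ => σ0⁻¹ * σ)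
      · intro σ hσ
        have hσ' := Finset.mem_filter.1 hσ
        have hσJ := (mem_stabF n J σ).1 hσ'.1
        have hσ0J := (mem_stabF n J σ0).1 hσ0
        have hE := hσ'.2
        refine (mem_stabF n (insert e J) (σ0⁻¹ * σ)).2 ?_
        intro A hA x
        have hAe : ((σ0 ((σ0⁻¹ * σ) x) : Fin n)) = σ x := by
          simp [Equiv.Perm.mul_apply]
        rcases Finset.mem_insert.1 hA with h | h
        · rw [h]
          have e1 : (x : ℕ) ∈ e ↔ σ x ∈ (toFin n e).map σ.toEmbedding := by
            rw [Finset.mem_map_equiv]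
            simp [mem_toFin]
          have e2 : (((σ0⁻¹ * σ) x : Fin n) : ℕ) ∈ e ↔
              σ x ∈ (toFin n e).map σ0.toEmbedding := by
            rw [Finset.mem_map_equiv, mem_toFin]
            rfl
          rw [e1, e2, hE]
        · rw [hσJ A h x, ← hAe]
          exact (hσ0J A h _).symm
      · intro σ _ τ _ hστ
        exact mul_left_cancel hστ)
  refine h1.trans (Nat.mul_le_mul_left _ (Finset.card_le_card ?_))
  intro E' hE'
  obtain ⟨σ, hσ, rfl⟩ := Finset.mem_image.1 hE'
  exact hX σ hσ

/-- atoms are invariant under the stabiliser -/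
theorem atomJ_stab (n : ℕ) (U : Finset ℕ) (J : Finset (Finset ℕ)) (σ : Equiv.Perm (Fin n))
    (hσ : σ ∈ stabF n J) (x : Fin n) : atomJ U J ((σ x : Fin n) : ℕ) = atomJ U J (x : ℕ) := by
  unfold atomJ
  apply Finset.filter_congr
  intro y _
  constructor
  · intro h f hf
    rw [h f hf, (mem_stabF n J σ).1 hσ f hf x]
  · intro h f hf
    rw [h f hf, (mem_stabF n J σ).1 hσ f hf x]

theorem loPts_stab (d W n : ℕ) (J : Finset (Finset ℕ)) (e : Finset ℕ) (σ : Equiv.Perm (Fin n))
    (hσ : σ ∈ stabF n J) (x : Fin n) :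
    (((σ x : Fin n) : ℕ) ∈ loPts d W (range n) J e ↔ (x : ℕ) ∈ loPts d W (range n) J e) := by
  unfold loPts
  rw [Finset.mem_filter, Finset.mem_filter, atomJ_stab n _ J σ hσ x]
  simp

/-- low points: the intersection with `e` is small -/
theorem loPts_inter (d W : ℕ) (U : Finset ℕ) (J : Finset (Finset ℕ)) (e : Finset ℕ) :
    d * W * (e ∩ loPts d W U J e).card ≤ (loPts d W U J e).card := by
  classical
  set Q := loPts d W U J e with hQ
  -- the atoms inside `Q`
  set 𝒜 : Finset (Finset ℕ) := Q.image (atomJ U J) with h𝒜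
  have hQU : Q ⊆ U := Finset.filter_subset _ _
  have hself : ∀ x ∈ U, x ∈ atomJ U J x := by
    intro x hx
    exact Finset.mem_filter.2 ⟨hx, fun f _ => Iff.rfl⟩
  have hatom : ∀ x y, y ∈ atomJ U J x → atomJ U J y = atomJ U J x := by
    intro x y hy
    have hy' := (Finset.mem_filter.1 hy).2
    unfold atomJ
    apply Finset.filter_congr
    intro z _
    constructor
    · intro h f hf; rw [h f hf, hy' f hf]
    · intro h f hf; rw [h f hf, hy' f hf]
  have hsub : ∀ A ∈ 𝒜, A ⊆ Q := by
    intro A hA y hy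
    obtain ⟨x, hx, rfl⟩ := Finset.mem_image.1 hA
    have hyU : y ∈ U := (Finset.mem_filter.1 hy).1
    have hx' := (Finset.mem_filter.1 hx).2
    rw [hQ]
    refine Finset.mem_filter.2 ⟨hyU, ?_⟩
    rw [hatom x y hy]
    exact hx'
  have hcov : Q = 𝒜.biUnion id := by
    ext y
    rw [Finset.mem_biUnion]
    constructor
    · intro hy
      exact ⟨atomJ U J y, Finset.mem_image_of_mem _ hy, hself y (hQU hy)⟩
    · rintro ⟨A, hA, hy⟩
      exact hsub A hA hy
  have hdis : ∀ A ∈ 𝒜, ∀ B ∈ 𝒜, A ≠ B → Disjoint A B := by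
    intro A hA B hB hAB
    rw [Finset.disjoint_left]
    intro y hyA hyB
    obtain ⟨x, hx, rfl⟩ := Finset.mem_image.1 hA
    obtain ⟨z, hz, rfl⟩ := Finset.mem_image.1 hB
    exact hAB ((hatom x y hyA).symm.trans (hatom z y hyB))
  have hc1 : Q.card = ∑ A ∈ 𝒜, A.card := by
    conv_lhs => rw [hcov]
    exact Finset.card_biUnion (fun A hA B hB hAB => hdis A hA B hB hAB)
  have hc2 : (e ∩ Q).card = ∑ A ∈ 𝒜, (e ∩ A).card := by
    conv_lhs => rw [hcov]
    rw [Finset.inter_biUnion]
    rw [Finset.card_biUnion]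
    · rfl
    · intro A hA B hB hAB
      exact (hdis A hA B hB hAB).mono Finset.inter_subset_right Finset.inter_subset_right
  rw [hc1, hc2, Finset.mul_sum]
  apply Finset.sum_le_sum
  intro A hA
  obtain ⟨x, hx, rfl⟩ := Finset.mem_image.1 hA
  exact ((Finset.mem_filter.1 hx).2).le

/-- count of the `r`-sets with a given intersection -/
theorem card_inter_sets (n r j : ℕ) (Q : Finset (Fin n)) :
    ((Finset.univ : Finset (Finset (Fin n))).filter fun E => E.card = r ∧ (E ∩ Q).card = j).card ≤
      Q.card.choose j * (n - Q.card).choose (r - j) := by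
  classical
  have h1 : (Finset.powersetCard j Q ×ˢ Finset.powersetCard (r - j) Qᶜ).card =
      Q.card.choose j * (n - Q.card).choose (r - j) := by
    rw [Finset.card_product, Finset.card_powersetCard, Finset.card_powersetCard,
      Finset.card_compl, Fintype.card_fin]
  rw [← h1]
  apply Finset.card_le_card_of_injOn (fun E => (E ∩ Q, E \ Q))
  · intro E hE
    have hE' := (Finset.mem_filter.1 hE).2
    refine Finset.mem_coe.2 (Finset.mem_product.2 ⟨?_, ?_⟩)
    · exact Finset.mem_powersetCard.2 ⟨Finset.inter_subset_right, hE'.2⟩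
    · refine Finset.mem_powersetCard.2 ⟨?_, ?_⟩
      · intro x hx
        rw [Finset.mem_compl]
        exact (Finset.mem_sdiff.1 hx).2
      · have := Finset.card_sdiff_add_card_inter E Q
        change (E \ Q).card = r - j
        omega
  · intro E _ E' _ h
    have h1 : E ∩ Q = E' ∩ Q := (Prod.ext_iff.1 h).1
    have h2 : E \ Q = E' \ Q := (Prod.ext_iff.1 h).2
    rw [← Finset.sdiff_union_inter E Q, ← Finset.sdiff_union_inter E' Q, h1, h2]

theorem desc_ratio (n a : ℕ) (m : ℕ) :
    (n - a).descFactorial m * n ^ m ≤ n.descFactorial m * (n - a) ^ m := by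
  induction m with
  | zero => simp
  | succ m ih =>
    rw [Nat.descFactorial_succ, Nat.descFactorial_succ, pow_succ, pow_succ]
    have h1 : (n - a - m) * n ≤ (n - m) * (n - a) := by
      rcases Nat.lt_or_ge (n - a) m with h | h
      · rw [Nat.sub_eq_zero_of_le h.le]
        simp
      · rcases Nat.lt_or_ge n a with h' | h'
        · have : n - a = 0 := by omega
          rw [this]
          simp
        · obtain ⟨c, hc⟩ := Nat.exists_eq_add_of_le h'
          subst hc
          have e1 : a + c - a = c := by omega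
          rw [e1] at h ⊢
          obtain ⟨d, hd⟩ := Nat.exists_eq_add_of_le h
          subst hd
          have e2 : m + d - m = d := by omega
          have e3 : a + (m + d) - m = a + d := by omega
          rw [e2, e3]
          nlinarith
    calc (n - a - m) * (n - a).descFactorial m * (n ^ m * n)
        = ((n - a).descFactorial m * n ^ m) * ((n - a - m) * n) := by ring
      _ ≤ (n.descFactorial m * (n - a) ^ m) * ((n - m) * (n - a)) := Nat.mul_le_mul ih h1
      _ = (n - m) * n.descFactorial m * ((n - a) ^ m * (n - a)) := by ring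

/-- the hypergeometric tail -/
theorem hyper_tail (W r N j : ℕ) (hW : 2 ≤ W) (hr : 1 ≤ r) (hN : N ≤ W * r) (hj : j ≤ r)
    (hjN : 10 * W * j ≤ N) :
    ((N.choose j : ℝ)) * ((W * r - N).choose (r - j) : ℝ) ≤
      ((W * r).choose r : ℝ) * Real.exp (-((N : ℝ) / (2 * W))) := by
  set n := W * r with hn
  have hWR : (2 : ℝ) ≤ W := by exact_mod_cast hW
  have hrR : (1 : ℝ) ≤ r := by exact_mod_cast hr
  have hW0 : (0 : ℝ) < W := by linarith
  have hr0 : (0 : ℝ) < r := by linarith
  have hnR : (n : ℝ) = W * r := by rw [hn]; push_cast; ring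
  have hn0 : (0 : ℝ) < n := by rw [hnR]; positivity
  have hNR : (N : ℝ) ≤ n := by exact_mod_cast hN
  have hjR : (j : ℝ) ≤ r := by exact_mod_cast hj
  have hjNR : 10 * (W : ℝ) * j ≤ N := by exact_mod_cast hjN
  have hrn : r ≤ n := by
    rw [hn]
    calc r = 1 * r := (one_mul r).symm
      _ ≤ W * r := Nat.mul_le_mul_right r (by omega)
  have h2rn : 2 * r ≤ n := by
    rw [hn]
    exact Nat.mul_le_mul_right r hW
  -- (i)
  have hi : (((n - N).descFactorial (r - j) : ℕ) : ℝ) ≤
      (n.descFactorial (r - j) : ℝ) * (1 - N / n) ^ (r - j) := by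
    have h1 := desc_ratio n N (r - j)
    have h2 : (((n - N).descFactorial (r - j) : ℕ) : ℝ) * (n : ℝ) ^ (r - j) ≤
        (n.descFactorial (r - j) : ℝ) * ((n : ℝ) - N) ^ (r - j) := by
      have h3 : ((n - N : ℕ) : ℝ) = (n : ℝ) - N := by
        rw [Nat.cast_sub hN]
      rw [← h3]
      exact_mod_cast h1
    have h4 : (1 - (N : ℝ) / n) = ((n : ℝ) - N) / n := by
      field_simp
    rw [h4, div_pow, mul_div_assoc', le_div_iff₀ (by positivity)]
    exact h2
  -- (ii)
  have hii : ((N.descFactorial j : ℕ) : ℝ) ≤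
      (((n - (r - j)).descFactorial j : ℕ) : ℝ) * (2 * N / n) ^ j := by
    have h1 : ((N.descFactorial j : ℕ) : ℝ) ≤ (N : ℝ) ^ j := by
      exact_mod_cast Nat.descFactorial_le_pow N j
    have h2 : ((n : ℝ) / 2) ^ j ≤ (((n - (r - j)).descFactorial j : ℕ) : ℝ) := by
      have h3 := Nat.pow_sub_le_descFactorial (n - (r - j)) j
      have h4 : (((n - (r - j) + 1 - j : ℕ)) : ℝ) ^ j ≤
          (((n - (r - j)).descFactorial j : ℕ) : ℝ) := by exact_mod_cast h3
      refine le_trans ?_ h4
      apply pow_le_pow_left₀ (by positivity)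
      have h5 : n ≤ 2 * (n - (r - j) + 1 - j) := by omega
      have h6 : (n : ℝ) ≤ 2 * ((n - (r - j) + 1 - j : ℕ) : ℝ) := by exact_mod_cast h5
      linarith
    calc ((N.descFactorial j : ℕ) : ℝ) ≤ (N : ℝ) ^ j := h1
      _ = ((n : ℝ) / 2) ^ j * (2 * N / n) ^ j := by
          rw [← mul_pow]
          congr 1
          field_simp
      _ ≤ (((n - (r - j)).descFactorial j : ℕ) : ℝ) * (2 * N / n) ^ j :=
          mul_le_mul_of_nonneg_right h2 (by positivity)
  -- factorisation of the descending factorial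
  have hfac : (n.descFactorial r : ℝ) = (n.descFactorial (r - j) : ℝ) *
      (((n - (r - j)).descFactorial j : ℕ) : ℝ) := by
    have h1 := Nat.descFactorial_mul_descFactorial (n := n) (k := r - j) (m := r) (Nat.sub_le r j)
    rw [show r - (r - j) = j by omega] at h1
    rw [← h1]
    push_cast
    ring
  have hchN : (N.choose j : ℝ) = (N.descFactorial j : ℝ) / j.factorial := by
    rw [Nat.descFactorial_eq_factorial_mul_choose]
    push_cast
    field_simp
  have hchM : ((n - N).choose (r - j) : ℝ) =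
      ((n - N).descFactorial (r - j) : ℝ) / (r - j).factorial := by
    rw [Nat.descFactorial_eq_factorial_mul_choose]
    push_cast
    field_simp
  have hchn : (n.choose r : ℝ) = (n.descFactorial r : ℝ) / r.factorial := by
    rw [Nat.descFactorial_eq_factorial_mul_choose]
    push_cast
    field_simp
  have hchr : (r.choose j : ℝ) = (r.factorial : ℝ) / (j.factorial * (r - j).factorial) := by
    rw [Nat.cast_choose ℝ hj]
  have hdiv1 : 0 ≤ 1 - (N : ℝ) / n := by
    rw [sub_nonneg, div_le_one hn0]
    exact hNR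
  have hmain : ((N.choose j : ℝ)) * ((n - N).choose (r - j) : ℝ) ≤
      (n.choose r : ℝ) * ((r.choose j : ℝ) * (2 * N / n) ^ j * (1 - N / n) ^ (r - j)) := by
    have h1 : ((N.choose j : ℝ)) * ((n - N).choose (r - j) : ℝ) =
        (r.choose j : ℝ) * ((N.descFactorial j : ℝ) * ((n - N).descFactorial (r - j) : ℝ)) /
          r.factorial := by
      rw [hchN, hchM, hchr]
      field_simp
    have h2 : (n.choose r : ℝ) * ((r.choose j : ℝ) * (2 * N / n) ^ j * (1 - N / n) ^ (r - j)) =
        (r.choose j : ℝ) * (((((n - (r - j)).descFactorial j : ℕ) : ℝ) * (2 * N / n) ^ j) *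
          ((n.descFactorial (r - j) : ℝ) * (1 - N / n) ^ (r - j))) / r.factorial := by
      rw [hchn, hfac]
      ring
    rw [h1, h2]
    apply div_le_div_of_nonneg_right _ (by positivity)
    apply mul_le_mul_of_nonneg_left _ (by positivity)
    exact mul_le_mul hii hi (by positivity) (by positivity)
  refine hmain.trans (mul_le_mul_of_nonneg_left ?_ (by positivity))
  have hb1 : (r.choose j : ℝ) * (2 * N / n) ^ j ≤ Real.exp (4 * (N / (10 * W))) := by
    have h1 : (r.choose j : ℝ) ≤ (r : ℝ) ^ j / j.factorial := Nat.choose_le_pow_div j r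
    have h2 : ((N : ℝ) / (10 * W)) ^ j / j.factorial ≤ Real.exp (N / (10 * W)) :=
      Real.pow_div_factorial_le_exp _ (by positivity) j
    have h3 : (20 : ℝ) ^ j ≤ Real.exp (3 * (N / (10 * W))) := by
      have h4 : (20 : ℝ) ≤ Real.exp 3 := by
        have h5 : (2.7182818283 : ℝ) < Real.exp 1 := Real.exp_one_gt_d9
        have h6 : Real.exp 3 = Real.exp 1 ^ 3 := by
          rw [← Real.exp_nat_mul]
          norm_num
        rw [h6]
        calc (20 : ℝ) ≤ 2.7182818283 ^ 3 := by norm_num
          _ ≤ Real.exp 1 ^ 3 := pow_le_pow_left₀ (by norm_num) h5.le 3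
      calc (20 : ℝ) ^ j ≤ (Real.exp 3) ^ j := pow_le_pow_left₀ (by norm_num) h4 j
        _ = Real.exp (j * 3) := (Real.exp_nat_mul 3 j).symm
        _ ≤ Real.exp (3 * (N / (10 * W))) := by
          apply Real.exp_le_exp.2
          have h7 : (j : ℝ) ≤ N / (10 * W) := by
            rw [le_div_iff₀ (by positivity)]
            linarith
          linarith
    calc (r.choose j : ℝ) * (2 * N / n) ^ j ≤ ((r : ℝ) ^ j / j.factorial) * (2 * N / n) ^ j :=
          mul_le_mul_of_nonneg_right h1 (by positivity)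
      _ = (20 : ℝ) ^ j * (((N : ℝ) / (10 * W)) ^ j / j.factorial) := by
          rw [hnR, div_mul_eq_mul_div, mul_div_assoc', ← mul_pow, ← mul_pow]
          congr 2
          field_simp
          ring
      _ ≤ Real.exp (3 * (N / (10 * W))) * Real.exp (N / (10 * W)) :=
          mul_le_mul h3 h2 (by positivity) (Real.exp_pos _).le
      _ = Real.exp (4 * (N / (10 * W))) := by
          rw [← Real.exp_add]
          congr 1
          ring
  have hb2 : (1 - (N : ℝ) / n) ^ (r - j) ≤ Real.exp (-(9 * (N / (10 * W)))) := by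
    have h1 : 1 - (N : ℝ) / n ≤ Real.exp (-((N : ℝ) / n)) := by
      have := Real.add_one_le_exp (-((N : ℝ) / n))
      linarith
    calc (1 - (N : ℝ) / n) ^ (r - j) ≤ (Real.exp (-((N : ℝ) / n))) ^ (r - j) :=
          pow_le_pow_left₀ hdiv1 h1 _
      _ = Real.exp (((r - j : ℕ) : ℝ) * (-((N : ℝ) / n))) := (Real.exp_nat_mul _ _).symm
      _ ≤ Real.exp (-(9 * (N / (10 * W)))) := by
          apply Real.exp_le_exp.2
          rw [Nat.cast_sub hj]
          have h2 : (N : ℝ) / n ≤ 1 := by
            rw [div_le_one hn0]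
            exact hNR
          have h3 : (r : ℝ) * (N / n) = 10 * (N / (10 * W)) := by
            rw [hnR]
            field_simp
          have h4 : (j : ℝ) * (N / n) ≤ N / (10 * W) := by
            have h5 : (j : ℝ) ≤ N / (10 * W) := by
              rw [le_div_iff₀ (by positivity)]
              linarith
            have h6 : (j : ℝ) * (N / n) ≤ j * 1 := mul_le_mul_of_nonneg_left h2 (by positivity)
            linarith
          nlinarith
  calc (r.choose j : ℝ) * (2 * N / n) ^ j * (1 - N / n) ^ (r - j)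
      ≤ Real.exp (4 * (N / (10 * W))) * Real.exp (-(9 * (N / (10 * W)))) :=
        mul_le_mul hb1 hb2 (pow_nonneg hdiv1 _) (Real.exp_pos _).le
    _ = Real.exp (-((N : ℝ) / (2 * W))) := by
        rw [← Real.exp_add]
        congr 1
        field_simp
        ring

/-- D4 (file `LD4.lean`).  Low points cost information. -/
theorem low_info (W r : ℕ) (hW : 2 ≤ W) (hr : 1 ≤ r) (J : Finset (Finset ℕ)) (e : Finset ℕ)
    (hJ : ∀ A ∈ J, A ⊆ range (W * r) ∧ A.card = r) (he : e ⊆ range (W * r) ∧ e.card = r)
    (heJ : e ∉ J) :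
    ((loPts 10 W (range (W * r)) J e).card : ℝ) / (2 * W) ≤
      infoG (W * r) r (insert e J) - infoG (W * r) r J := by
  classical
  have _ := hJ
  set n := W * r with hn
  set Q := loPts 10 W (range n) J e with hQ
  have hQn : Q ⊆ range n := Finset.filter_subset _ _
  set N := Q.card with hN
  set j := (e ∩ Q).card with hj
  have hjr : j ≤ r := by
    rw [← he.2]
    exact Finset.card_le_card Finset.inter_subset_left
  have hjN : 10 * W * j ≤ N := loPts_inter 10 W (range n) J e
  have hNn : N ≤ n := by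
    have := Finset.card_le_card hQn
    rwa [Finset.card_range] at this
  set X : Finset (Finset (Fin n)) :=
    (Finset.univ : Finset (Finset (Fin n))).filter fun E => E.card = r ∧ (E ∩ toFin n Q).card = j
    with hX
  have hXc : X.card ≤ N.choose j * (n - N).choose (r - j) := by
    have h1 := card_inter_sets n r j (toFin n Q)
    rwa [card_toFin n Q hQn] at h1
  have hmem : ∀ σ ∈ stabF n J, (toFin n e).map σ.toEmbedding ∈ X := by
    intro σ hσ
    refine Finset.mem_filter.2 ⟨Finset.mem_univ _, ?_, ?_⟩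
    · rw [Finset.card_map, card_toFin n e he.1, he.2]
    · have h2 : (toFin n e).map σ.toEmbedding ∩ toFin n Q =
          (toFin n (e ∩ Q)).map σ.toEmbedding := by
        ext y
        rw [Finset.mem_inter, Finset.mem_map_equiv, Finset.mem_map_equiv, mem_toFin, mem_toFin,
          mem_toFin, Finset.mem_inter]
        have h3 := loPts_stab 10 W n J e σ hσ (σ.symm y)
        rw [Equiv.apply_symm_apply] at h3
        rw [h3]
      rw [h2, Finset.card_map, card_toFin n (e ∩ Q) (Finset.inter_subset_left.trans he.1)]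
  have h4 := symC_le n J e X hmem
  have h5 := hyper_tail W r N j hW hr hNn hjr hjN
  have hs1 : (0 : ℝ) < symC n J := by exact_mod_cast symC_pos n J
  have hs2 : (0 : ℝ) < symC n (insert e J) := by exact_mod_cast symC_pos n (insert e J)
  have hrn : r ≤ n := by
    rw [hn]
    calc r = 1 * r := (one_mul r).symm
      _ ≤ W * r := Nat.mul_le_mul_right r (by omega)
  have hch : (0 : ℝ) < (n.choose r : ℝ) := by exact_mod_cast Nat.choose_pos hrn
  have h6 : (symC n J : ℝ) ≤ symC n (insert e J) *
      ((n.choose r : ℝ) * Real.exp (-((N : ℝ) / (2 * W)))) := by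
    calc (symC n J : ℝ) ≤ (symC n (insert e J) : ℝ) * (X.card : ℝ) := by exact_mod_cast h4
      _ ≤ (symC n (insert e J) : ℝ) * ((N.choose j : ℝ) * ((n - N).choose (r - j) : ℝ)) := by
          apply mul_le_mul_of_nonneg_left _ hs2.le
          exact_mod_cast hXc
      _ ≤ _ := mul_le_mul_of_nonneg_left h5 hs2.le
  have h7 := Real.log_le_log hs1 h6
  rw [Real.log_mul hs2.ne' (by positivity), Real.log_mul hch.ne' (Real.exp_pos _).ne',
    Real.log_exp] at h7
  unfold infoG
  rw [Finset.card_insert_of_notMem heJ]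
  push_cast
  linarith

end LocTr
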