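import Pool.Agent.Work.MP_a8cb64_co.EDefs

/-!
MP_a8cb64_co, Theorem B (helper72, note 2344), module E5 (helper91): the chain of marks of a
random point, its transition probabilities, Lemma 3 and the point realising a set of marks.
-/

namespace LocTr

open Finset

theorem ind_nonneg (e : Finset ℕ) (x : ℕ) : 0 ≤ ind e x := by
  unfold ind; split_ifs <;> norm_num

theorem ind_le_one (e : Finset ℕ) (x : ℕ) : ind e x ≤ 1 := by
  unfold ind; split_ifs <;> norm_num

theorem qw_nonneg (U : Finset ℕ) (e : ℕ → Finset ℕ) (u B : ℝ) (hu0 : 0 < u) (hu1 : u < 1)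
    (i : ℕ) (A : Finset ℕ) (x : ℕ) : 0 ≤ qw U e u B i A x := by
  induction i with
  | zero => simp [qw]
  | succ i ih =>
    rw [qw]
    apply mul_nonneg ih
    have h1 := ind_nonneg (e i) x
    have h2 := ind_le_one (e i) x
    split_ifs
    · positivity
    · nlinarith
    · exact le_rfl
    · norm_num

/-- the good times. -/
def gd (U : Finset ℕ) (e : ℕ → Finset ℕ) (u B : ℝ) (i : ℕ) (A : Finset ℕ) : Prop :=
  (∑ y ∈ U, qw U e u B i A y * ind (e i) y) ≤ B * ∑ y ∈ U, qw U e u B i A y

theorem num_nonneg (U : Finset ℕ) (e : ℕ → Finset ℕ) (u B : ℝ) (hu0 : 0 < u) (hu1 : u < 1)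
    (i : ℕ) (A : Finset ℕ) : 0 ≤ ∑ y ∈ U, qw U e u B i A y * ind (e i) y :=
  Finset.sum_nonneg fun y _ => mul_nonneg (qw_nonneg U e u B hu0 hu1 i A y) (ind_nonneg _ _)

theorem den_nonneg (U : Finset ℕ) (e : ℕ → Finset ℕ) (u B : ℝ) (hu0 : 0 < u) (hu1 : u < 1)
    (i : ℕ) (A : Finset ℕ) : 0 ≤ ∑ y ∈ U, qw U e u B i A y :=
  Finset.sum_nonneg fun y _ => qw_nonneg U e u B hu0 hu1 i A y

theorem num_le_den (U : Finset ℕ) (e : ℕ → Finset ℕ) (u B : ℝ) (hu0 : 0 < u) (hu1 : u < 1)
    (i : ℕ) (A : Finset ℕ) : ∑ y ∈ U, qw U e u B i A y * ind (e i) y ≤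
      ∑ y ∈ U, qw U e u B i A y := by
  apply Finset.sum_le_sum
  intro y _
  have h1 := qw_nonneg U e u B hu0 hu1 i A y
  have h2 := ind_le_one (e i) y
  nlinarith

/-- E5a.  The transition probabilities are between `0` and `B`. -/
theorem tauw_bd (U : Finset ℕ) (e : ℕ → Finset ℕ) (u B : ℝ) (hu0 : 0 < u) (hu1 : u < 1)
    (hB : 0 < B) (i : ℕ) (A : Finset ℕ) : 0 ≤ tauw U e u B i A ∧ tauw U e u B i A ≤ B := by
  have hN := num_nonneg U e u B hu0 hu1 i A
  have hD := den_nonneg U e u B hu0 hu1 i A
  unfold tauw
  split_ifs with h
  · constructor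
    · positivity
    · have hr : (∑ y ∈ U, qw U e u B i A y * ind (e i) y) / ∑ y ∈ U, qw U e u B i A y ≤ B := by
        rcases hD.eq_or_lt with h0 | h0
        · rw [← h0, div_zero]; exact hB.le
        · rw [div_le_iff₀ h0]; exact h
      have hr0 : 0 ≤ (∑ y ∈ U, qw U e u B i A y * ind (e i) y) / ∑ y ∈ U, qw U e u B i A y := by
        positivity
      nlinarith
  · exact ⟨le_rfl, hB.le⟩

/-- `qw i A x` depends on `A` only through `A ∩ {0..i-1}`. -/
theorem qw_congr (U : Finset ℕ) (e : ℕ → Finset ℕ) (u B : ℝ) (i : ℕ) (A A' : Finset ℕ)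
    (h : ∀ l < i, (l ∈ A ↔ l ∈ A')) (x : ℕ) : qw U e u B i A x = qw U e u B i A' x := by
  induction i generalizing x with
  | zero => simp [qw]
  | succ i ih =>
    have ih' : ∀ x, qw U e u B i A x = qw U e u B i A' x :=
      ih fun l hl => h l (by omega)
    rw [qw, qw]
    simp only [ih', h i (by omega)]

theorem chP_congr (τ : ℕ → Finset ℕ → ℝ) (i : ℕ) (A A' : Finset ℕ)
    (h : ∀ l < i, (l ∈ A ↔ l ∈ A')) : chP τ i A = chP τ i A' := by
  unfold chP
  apply Finset.prod_congr rfl
  intro l hl
  have hl' := Finset.mem_range.1 hl
  have : A.filter (· < l) = A'.filter (· < l) := by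
    ext z
    simp only [Finset.mem_filter]
    constructor
    · rintro ⟨h1, h2⟩; exact ⟨(h z (by omega)).1 h1, h2⟩
    · rintro ⟨h1, h2⟩; exact ⟨(h z (by omega)).2 h1, h2⟩
  rw [this]
  simp only [h l hl']

/-- the probability of a set of marks is the average weight. -/
theorem chP_eq (U : Finset ℕ) (e : ℕ → Finset ℕ) (u B : ℝ) (hu0 : 0 < u) (hu1 : u < 1)
    (i : ℕ) (A : Finset ℕ) :
    (U.card : ℝ) * chP (tauw U e u B) i A = ∑ x ∈ U, qw U e u B i A x := by
  induction i with
  | zero => simp [chP, qw]
  | succ i ih =>
    have hch : chP (tauw U e u B) (i + 1) A = chP (tauw U e u B) i A *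
        (if i ∈ A then tauw U e u B i (A.filter (· < i))
          else 1 - tauw U e u B i (A.filter (· < i))) := by
      unfold chP
      rw [Finset.prod_range_succ]
    have hq : ∀ x, qw U e u B i (A.filter (· < i)) x = qw U e u B i A x := by
      intro x
      apply qw_congr
      intro l hl
      simp [hl]
    rw [hch, ← mul_assoc, ih]
    have hN := num_nonneg U e u B hu0 hu1 i A
    have hD := den_nonneg U e u B hu0 hu1 i A
    have hND := num_le_den U e u B hu0 hu1 i A
    have ht : tauw U e u B i (A.filter (· < i)) =
        if (∑ y ∈ U, qw U e u B i A y * ind (e i) y) ≤ B * ∑ y ∈ U, qw U e u B i A y then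
          u * ((∑ y ∈ U, qw U e u B i A y * ind (e i) y) / ∑ y ∈ U, qw U e u B i A y)
        else 0 := by
      unfold tauw
      simp only [hq]
    rw [ht]
    have hdiv : (∑ y ∈ U, qw U e u B i A y) *
        ((∑ y ∈ U, qw U e u B i A y * ind (e i) y) / ∑ y ∈ U, qw U e u B i A y) =
        ∑ y ∈ U, qw U e u B i A y * ind (e i) y := by
      rcases hD.eq_or_lt with h0 | h0
      · rw [← h0]; rw [← h0] at hND; rw [zero_mul]; linarith
      · field_simp
    simp only [qw]
    split_ifs with h1 h2 h2
    · rw [mul_left_comm, hdiv, Finset.mul_sum]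
      apply Finset.sum_congr rfl
      intro x _
      ring
    · simp
    · have : (∑ y ∈ U, qw U e u B i A y) * (1 - u * ((∑ y ∈ U, qw U e u B i A y * ind (e i) y) /
          ∑ y ∈ U, qw U e u B i A y)) = (∑ y ∈ U, qw U e u B i A y) -
          u * ((∑ y ∈ U, qw U e u B i A y) *
        ((∑ y ∈ U, qw U e u B i A y * ind (e i) y) / ∑ y ∈ U, qw U e u B i A y)) := by ring
      rw [this, hdiv, Finset.mul_sum, ← Finset.sum_sub_distrib]
      apply Finset.sum_congr rfl
      intro x _
      ring
    · simp

/-- E5c without conditions on `B`. -/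
theorem chain_point_gen (U : Finset ℕ) (e : ℕ → Finset ℕ) (u B : ℝ) (hu0 : 0 < u) (hu1 : u < 1)
    (hU : U.Nonempty) (k : ℕ) (S : Finset ℕ) (hS : S ⊆ range k)
    (hpos : ∀ i ∈ S, 0 < tauw U e u B i (S.filter (· < i))) : ∃ x ∈ U, ∀ i ∈ S, x ∈ e i := by
  have key : ∀ l, 0 < ∑ x ∈ U, qw U e u B l S x := by
    intro l
    induction l with
    | zero => simp [qw, hU]
    | succ l ih =>
      have hq : ∀ x, qw U e u B l (S.filter (· < l)) x = qw U e u B l S x := by
        intro x
        apply qw_congr
        intro j hj
        simp [hj]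
      have hN := num_nonneg U e u B hu0 hu1 l S
      have hND := num_le_den U e u B hu0 hu1 l S
      simp only [qw]
      split_ifs with h1 h2 h2
      · have h3 := hpos l h2
        unfold tauw at h3
        simp only [hq, h1, if_true] at h3
        have h4 : 0 < ∑ y ∈ U, qw U e u B l S y * ind (e l) y := by
          rcases hN.eq_or_lt with h0 | h0
          · rw [← h0] at h3; simp at h3
          · exact h0
        have h5 : ∑ x ∈ U, qw U e u B l S x * (u * ind (e l) x) =
            u * ∑ x ∈ U, qw U e u B l S x * ind (e l) x := by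
          rw [Finset.mul_sum]
          apply Finset.sum_congr rfl
          intro x _
          ring
        rw [h5]
        positivity
      · have h5 : ∑ x ∈ U, qw U e u B l S x * (1 - u * ind (e l) x) =
            (∑ x ∈ U, qw U e u B l S x) - u * ∑ x ∈ U, qw U e u B l S x * ind (e l) x := by
          rw [Finset.mul_sum, ← Finset.sum_sub_distrib]
          apply Finset.sum_congr rfl
          intro x _
          ring
        rw [h5]
        nlinarith
      · have h3 := hpos l h2
        unfold tauw at h3
        simp only [hq, h1, if_false] at h3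
        exact absurd h3 (lt_irrefl _)
      · simpa using ih
  have hk := key k
  obtain ⟨x, hxU, hx⟩ : ∃ x ∈ U, 0 < qw U e u B k S x := by
    by_contra hcon
    push Not at hcon
    have := Finset.sum_nonpos hcon
    linarith
  refine ⟨x, hxU, ?_⟩
  have key2 : ∀ l, 0 < qw U e u B l S x → ∀ i ∈ S, i < l → x ∈ e i := by
    intro l
    induction l with
    | zero => intro _ i _ h; omega
    | succ l ih =>
      intro hpos' i hi hil
      rw [qw] at hpos'
      have hq0 := qw_nonneg U e u B hu0 hu1 l S x
      have hq1 : 0 < qw U e u B l S x := by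
        rcases hq0.eq_or_lt with h0 | h0
        · rw [← h0, zero_mul] at hpos'; exact absurd hpos' (lt_irrefl _)
        · exact h0
      rcases Nat.lt_succ_iff_lt_or_eq.1 hil with h | h
      · exact ih hq1 i hi h
      · subst h
        by_contra hxe
        have hind : ind (e i) x = 0 := by simp [ind, hxe]
        rw [if_pos hi, if_pos hi, hind] at hpos'
        simp at hpos'
  exact fun i hi => key2 k hx i hi (Finset.mem_range.1 (hS hi))

/-- E5c.  A set of marks of positive probability is realised by a point. -/
theorem chain_point (U : Finset ℕ) (e : ℕ → Finset ℕ) (u B : ℝ) (hu0 : 0 < u) (hu1 : u < 1)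
    (hU : U.Nonempty) (_hB : 0 < B) (_hB1 : B < 1) (k : ℕ) (S : Finset ℕ) (hS : S ⊆ range k)
    (hpos : ∀ i ∈ S, 0 < tauw U e u B i (S.filter (· < i))) : ∃ x ∈ U, ∀ i ∈ S, x ∈ e i :=
  chain_point_gen U e u B hu0 hu1 hU k S hS hpos

open Classical in
/-- the marks of the point `x` up to time `i` when the revealed times are `J`. -/
noncomputable def word (U : Finset ℕ) (e : ℕ → Finset ℕ) (u B : ℝ) :
    ℕ → Finset ℕ → ℕ → Finset ℕ
  | 0, _, _ => ∅
  | i + 1, J, x =>
      if i ∈ J ∧ x ∈ e i ∧ gd U e u B i (word U e u B i J x) then
        insert i (word U e u B i J x) else word U e u B i J x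

theorem word_sub (U : Finset ℕ) (e : ℕ → Finset ℕ) (u B : ℝ) (i : ℕ) (J : Finset ℕ) (x : ℕ) :
    word U e u B i J x ⊆ range i := by
  induction i with
  | zero => simp [word]
  | succ i ih =>
    rw [word]
    split_ifs
    · intro z hz
      rcases Finset.mem_insert.1 hz with h | h
      · subst h; exact Finset.mem_range.2 (by omega)
      · exact Finset.mem_range.2 (by have := Finset.mem_range.1 (ih h); omega)
    · intro z hz
      exact Finset.mem_range.2 (by have := Finset.mem_range.1 (ih hz); omega)

theorem word_congr (U : Finset ℕ) (e : ℕ → Finset ℕ) (u B : ℝ) (i : ℕ) (J J' : Finset ℕ)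
    (x x' : ℕ) (h : ∀ l < i, (l ∈ J ↔ l ∈ J')) (h' : ∀ l < i, l ∈ J → (x ∈ e l ↔ x' ∈ e l)) :
    word U e u B i J x = word U e u B i J' x' := by
  induction i with
  | zero => simp [word]
  | succ i ih =>
    have ih' := ih (fun l hl => h l (by omega)) (fun l hl => h' l (by omega))
    rw [word, word, ih']
    have hiff : (i ∈ J ∧ x ∈ e i ∧ gd U e u B i (word U e u B i J' x')) ↔
        (i ∈ J' ∧ x' ∈ e i ∧ gd U e u B i (word U e u B i J' x')) := by
      constructor
      · rintro ⟨a, b, c⟩
        exact ⟨(h i (by omega)).1 a, (h' i (by omega) a).1 b, c⟩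
      · rintro ⟨a, b, c⟩
        have a' := (h i (by omega)).2 a
        exact ⟨a', (h' i (by omega) a').2 b, c⟩
    by_cases hc : (i ∈ J ∧ x ∈ e i ∧ gd U e u B i (word U e u B i J' x'))
    · rw [if_pos hc, if_pos (hiff.1 hc)]
    · rw [if_neg hc, if_neg (fun hh => hc (hiff.2 hh))]

/-- the weight of a set of revealed times. -/
noncomputable def wt (u : ℝ) (i : ℕ) (J : Finset ℕ) : ℝ := u ^ J.card * (1 - u) ^ (i - J.card)

theorem wt_nonneg (u : ℝ) (hu0 : 0 < u) (hu1 : u < 1) (i : ℕ) (J : Finset ℕ) : 0 ≤ wt u i J := by
  unfold wt
  have : 0 ≤ 1 - u := by linarith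
  positivity

open Classical in
/-- `qw i A x` is the probability that the marks of `x` up to time `i` are `A`. -/
theorem qw_word (U : Finset ℕ) (e : ℕ → Finset ℕ) (u B : ℝ) (i : ℕ) (A : Finset ℕ)
    (hA : A ⊆ range i) (x : ℕ) :
    qw U e u B i A x = ∑ J ∈ (range i).powerset,
      wt u i J * (if word U e u B i J x = A then 1 else 0) := by
  induction i generalizing A with
  | zero =>
    have : A = ∅ := by simpa using hA
    subst this
    simp [qw, word, wt]
  | succ i ih =>
    rw [Finset.range_add_one, Finset.sum_powerset_insert Finset.notMem_range_self]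
    have hcard : ∀ J ∈ (range i).powerset, J.card ≤ i := by
      intro J hJ
      simpa using Finset.card_le_card (Finset.mem_powerset.1 hJ)
    have hnot : ∀ J ∈ (range i).powerset, i ∉ J := by
      intro J hJ hi
      have := Finset.mem_range.1 ((Finset.mem_powerset.1 hJ) hi)
      omega
    have hw1 : ∀ J ∈ (range i).powerset, wt u (i + 1) J = (1 - u) * wt u i J := by
      intro J hJ
      have := hcard J hJ
      unfold wt
      rw [show i + 1 - J.card = (i - J.card) + 1 by omega, pow_succ]
      ring
    have hw2 : ∀ J ∈ (range i).powerset, wt u (i + 1) (insert i J) = u * wt u i J := by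
      intro J hJ
      unfold wt
      rw [Finset.card_insert_of_notMem (hnot J hJ), pow_succ,
        show i + 1 - (J.card + 1) = i - J.card by omega]
      ring
    -- words
    have hwd1 : ∀ J ∈ (range i).powerset, word U e u B (i + 1) J x = word U e u B i J x := by
      intro J hJ
      rw [word, if_neg (fun h => hnot J hJ h.1)]
    have hwd0 : ∀ J ∈ (range i).powerset, word U e u B i (insert i J) x = word U e u B i J x := by
      intro J _
      apply word_congr
      · intro l hl
        rw [Finset.mem_insert]
        constructor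
        · rintro (h | h)
          · omega
          · exact h
        · exact Or.inr
      · intros; rfl
    have hwd2 : ∀ J ∈ (range i).powerset, word U e u B (i + 1) (insert i J) x =
        if x ∈ e i ∧ gd U e u B i (word U e u B i J x) then insert i (word U e u B i J x)
        else word U e u B i J x := by
      intro J hJ
      rw [word, hwd0 J hJ]
      by_cases hc : x ∈ e i ∧ gd U e u B i (word U e u B i J x)
      · rw [if_pos ⟨Finset.mem_insert_self _ _, hc⟩, if_pos hc]
      · rw [if_neg (fun h => hc h.2), if_neg hc]
    -- reference set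
    set A' : Finset ℕ := A.filter (· < i) with hA'
    have hA'sub : A' ⊆ range i := by
      intro z hz
      exact Finset.mem_range.2 (Finset.mem_filter.1 hz).2
    have hqA : ∀ y, qw U e u B i A y = qw U e u B i A' y := by
      intro y
      apply qw_congr
      intro l hl
      simp [hA', hl]
    have hgd : gd U e u B i A ↔ gd U e u B i A' := by
      unfold gd
      simp only [hqA]
    have hiA' : i ∉ A' := by simp [hA']
    have hstep : ∀ J ∈ (range i).powerset,
        (if word U e u B (i + 1) (insert i J) x = A then (1 : ℝ) else 0) =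
        (if word U e u B i J x = A' then 1 else 0) *
          (if gd U e u B i A then (if i ∈ A then ind (e i) x else 1 - ind (e i) x)
            else (if i ∈ A then 0 else 1)) := by
      intro J hJ
      rw [hwd2 J hJ]
      have hiw : i ∉ word U e u B i J x := fun h => by
        have := Finset.mem_range.1 (word_sub U e u B i J x h)
        omega
      by_cases hwA : word U e u B i J x = A'
      · rw [if_pos hwA, one_mul, hwA]
        have e1 : A = if i ∈ A then insert i A' else A' := by
          split_ifs with hi
          · ext z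
            simp only [hA', Finset.mem_insert, Finset.mem_filter]
            constructor
            · intro hz
              have := Finset.mem_range.1 (hA hz)
              rcases Nat.lt_succ_iff_lt_or_eq.1 this with h | h
              · exact Or.inr ⟨hz, h⟩
              · exact Or.inl h
            · rintro (h | h)
              · rw [h]; exact hi
              · exact h.1
          · ext z
            simp only [hA', Finset.mem_filter]
            constructor
            · intro hz
              refine ⟨hz, ?_⟩
              have := Finset.mem_range.1 (hA hz)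
              rcases Nat.lt_succ_iff_lt_or_eq.1 this with h | h
              · exact h
              · exact absurd (h ▸ hz) hi
            · exact fun h => h.1
        have hne : insert i A' ≠ A' := fun h => hiA' (h ▸ Finset.mem_insert_self i A')
        have hiff : ((if x ∈ e i ∧ gd U e u B i A' then insert i A' else A') = A) ↔
            ((x ∈ e i ∧ gd U e u B i A') ↔ i ∈ A) := by
          by_cases hc : x ∈ e i ∧ gd U e u B i A'
          · rw [if_pos hc]
            by_cases hi : i ∈ A
            · rw [if_pos hi] at e1
              exact ⟨fun _ => ⟨fun _ => hi, fun _ => hc⟩, fun _ => e1.symm⟩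
            · rw [if_neg hi] at e1
              exact ⟨fun h => absurd (h.trans e1) hne, fun h => absurd (h.1 hc) hi⟩
          · rw [if_neg hc]
            by_cases hi : i ∈ A
            · rw [if_pos hi] at e1
              exact ⟨fun h => absurd (e1.symm.trans h.symm) hne, fun h => absurd (h.2 hi) hc⟩
            · rw [if_neg hi] at e1
              exact ⟨fun _ => ⟨fun h => absurd h hc, fun h => absurd h hi⟩, fun _ => e1.symm⟩
        rw [if_congr hiff rfl rfl, if_congr hgd rfl rfl]
        by_cases hg : gd U e u B i A' <;> by_cases hx : x ∈ e i <;> by_cases hi : i ∈ A <;>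
          simp [hg, hx, hi, ind]
      · rw [if_neg hwA, zero_mul]
        apply if_neg
        intro hh
        apply hwA
        split_ifs at hh with hc
        · rw [hA', ← hh]
          ext z
          simp only [Finset.mem_filter, Finset.mem_insert]
          constructor
          · intro hz
            exact ⟨Or.inr hz, Finset.mem_range.1 (word_sub U e u B i J x hz)⟩
          · rintro ⟨h | h, h2⟩
            · omega
            · exact h
        · rw [hA', ← hh]
          ext z
          simp only [Finset.mem_filter]
          constructor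
          · intro hz
            exact ⟨hz, Finset.mem_range.1 (word_sub U e u B i J x hz)⟩
          · exact fun h => h.1
    have hstep1 : ∀ J ∈ (range i).powerset,
        (if word U e u B (i + 1) J x = A then (1 : ℝ) else 0) =
        (if word U e u B i J x = A' then 1 else 0) * (if i ∈ A then 0 else 1) := by
      intro J hJ
      rw [hwd1 J hJ]
      have hiw : i ∉ word U e u B i J x := fun h => by
        have := Finset.mem_range.1 (word_sub U e u B i J x h)
        omega
      by_cases hi : i ∈ A
      · rw [if_neg (fun h : word U e u B i J x = A => hiw (h ▸ hi)), if_pos hi, mul_zero]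
      · have : A' = A := by
          ext z
          simp only [hA', Finset.mem_filter]
          constructor
          · exact fun h => h.1
          · intro hz
            refine ⟨hz, ?_⟩
            have := Finset.mem_range.1 (hA hz)
            rcases Nat.lt_succ_iff_lt_or_eq.1 this with h | h
            · exact h
            · exact absurd (h ▸ hz) hi
        rw [if_neg hi, mul_one, this]
    have hs1 : ∑ J ∈ (range i).powerset,
        wt u (i + 1) J * (if word U e u B (i + 1) J x = A then (1 : ℝ) else 0) =
        (1 - u) * (if i ∈ A then 0 else 1) * qw U e u B i A' x := by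
      rw [ih A' hA'sub, Finset.mul_sum]
      apply Finset.sum_congr rfl
      intro J hJ
      rw [hw1 J hJ, hstep1 J hJ]
      ring
    have hs2 : ∑ J ∈ (range i).powerset,
        wt u (i + 1) (insert i J) *
          (if word U e u B (i + 1) (insert i J) x = A then (1 : ℝ) else 0) =
        u * (if gd U e u B i A then (if i ∈ A then ind (e i) x else 1 - ind (e i) x)
            else (if i ∈ A then 0 else 1)) * qw U e u B i A' x := by
      rw [ih A' hA'sub, Finset.mul_sum]
      apply Finset.sum_congr rfl
      intro J hJ
      rw [hw2 J hJ, hstep J hJ]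
      ring
    rw [hs1, hs2, qw, hqA x]
    have hgdef : (∑ y ∈ U, qw U e u B i A y * ind (e i) y) ≤ B * ∑ y ∈ U, qw U e u B i A y ↔
        gd U e u B i A := Iff.rfl
    rw [if_congr hgdef rfl rfl]
    by_cases hg : gd U e u B i A <;> by_cases hi : i ∈ A <;> simp only [hg, hi, if_true, if_false]
    · ring
    · ring
    · ring
    · ring

/-- the number of non-high points of `e i` with given marks. -/
theorem card_nothigh_le (U : Finset ℕ) (e : ℕ → Finset ℕ) (u B : ℝ) (C W i : ℕ)
    (hei : e i ⊆ U) (J A : Finset ℕ) :
    W * ((e i).filter (fun y => word U e u B i J y = A ∧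
        y ∉ hiPts C W U (J.image e) (e i))).card ≤
      C * (U.filter (fun y => word U e u B i J y = A)).card := by
  set P := U.filter (fun y => word U e u B i J y = A) with hP
  set Q := (e i).filter (fun y => word U e u B i J y = A ∧
        y ∉ hiPts C W U (J.image e) (e i)) with hQ
  set f : ℕ → Finset ℕ := fun y => atomJ U (J.image e) y with hf
  have h1 : Q.card = ∑ T ∈ Q.image f, (Q.filter (fun y => f y = T)).card :=
    Finset.card_eq_sum_card_image f Q
  have h2 : ∑ T ∈ Q.image f, (P.filter (fun y => f y = T)).card ≤ P.card := by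
    rw [Finset.sum_card_fiberwise_eq_card_filter]
    exact Finset.card_filter_le _ _
  have h3 : ∀ T ∈ Q.image f, W * (Q.filter (fun y => f y = T)).card ≤
      C * (P.filter (fun y => f y = T)).card := by
    intro T hT
    obtain ⟨y0, hy0, rfl⟩ := Finset.mem_image.1 hT
    obtain ⟨hy0e, hy0w, hy0h⟩ := Finset.mem_filter.1 hy0
    have hlow : W * (e i ∩ atomJ U (J.image e) y0).card ≤ C * (atomJ U (J.image e) y0).card := by
      by_contra hcon
      push Not at hcon
      exact hy0h (Finset.mem_filter.2 ⟨hy0e, hcon⟩)
    have hsub1 : (Q.filter (fun y => f y = f y0)) ⊆ e i ∩ atomJ U (J.image e) y0 := by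
      intro y hy
      obtain ⟨hyQ, hyf⟩ := Finset.mem_filter.1 hy
      have hye := (Finset.mem_filter.1 hyQ).1
      refine Finset.mem_inter.2 ⟨hye, ?_⟩
      have : y ∈ atomJ U (J.image e) y := by
        unfold atomJ
        simp [hei hye]
      have h4 : atomJ U (J.image e) y = atomJ U (J.image e) y0 := hyf
      rwa [h4] at this
    have hsub2 : atomJ U (J.image e) y0 ⊆ (P.filter (fun y => f y = f y0)) := by
      intro y hy
      obtain ⟨hyU, hyat⟩ := Finset.mem_filter.1 hy
      have hw : word U e u B i J y = word U e u B i J y0 := by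
        apply word_congr
        · intros; rfl
        · intro l _ hlJ
          exact hyat (e l) (Finset.mem_image_of_mem e hlJ)
      refine Finset.mem_filter.2 ⟨Finset.mem_filter.2 ⟨hyU, hw.trans hy0w⟩, ?_⟩
      change atomJ U (J.image e) y = atomJ U (J.image e) y0
      unfold atomJ
      apply Finset.filter_congr
      intro z _
      constructor
      · intro h g hg
        exact (h g hg).trans (hyat g hg)
      · intro h g hg
        exact (h g hg).trans (hyat g hg).symm
    calc W * (Q.filter (fun y => f y = f y0)).card
        ≤ W * (e i ∩ atomJ U (J.image e) y0).card :=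
          Nat.mul_le_mul_left _ (Finset.card_le_card hsub1)
      _ ≤ C * (atomJ U (J.image e) y0).card := hlow
      _ ≤ C * (P.filter (fun y => f y = f y0)).card :=
          Nat.mul_le_mul_left _ (Finset.card_le_card hsub2)
  calc W * Q.card = ∑ T ∈ Q.image f, W * (Q.filter (fun y => f y = T)).card := by
        rw [h1, Finset.mul_sum]
    _ ≤ ∑ T ∈ Q.image f, C * (P.filter (fun y => f y = T)).card := Finset.sum_le_sum h3
    _ = C * ∑ T ∈ Q.image f, (P.filter (fun y => f y = T)).card := by rw [Finset.mul_sum]
    _ ≤ C * P.card := Nat.mul_le_mul_left _ h2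

/-- the mass of a set of marks. -/
theorem den_word (U : Finset ℕ) (e : ℕ → Finset ℕ) (u B : ℝ) (i : ℕ) (A : Finset ℕ)
    (hA : A ⊆ range i) (V : Finset ℕ) :
    ∑ y ∈ V, qw U e u B i A y = ∑ J ∈ (range i).powerset,
      wt u i J * ((V.filter (fun y => word U e u B i J y = A)).card : ℝ) := by
  have h1 : ∀ y ∈ V, qw U e u B i A y = ∑ J ∈ (range i).powerset,
      wt u i J * (if word U e u B i J y = A then 1 else 0) := fun y _ =>
    qw_word U e u B i A hA y
  rw [Finset.sum_congr rfl h1, Finset.sum_comm]
  apply Finset.sum_congr rfl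
  intro J _
  rw [← Finset.mul_sum, Finset.sum_boole]

/-- the mass of `e i` in a set of marks. -/
theorem num_eq (U : Finset ℕ) (e : ℕ → Finset ℕ) (u B : ℝ) (i : ℕ) (A : Finset ℕ)
    (hei : e i ⊆ U) :
    ∑ y ∈ U, qw U e u B i A y * ind (e i) y = ∑ y ∈ e i, qw U e u B i A y := by
  unfold ind
  simp only [mul_ite, mul_one, mul_zero]
  rw [← Finset.sum_filter]
  apply Finset.sum_congr _ (fun _ _ => rfl)
  ext y
  simp only [Finset.mem_filter]
  exact ⟨fun h => h.2, fun h => ⟨hei h, h⟩⟩

/-- total probability. -/
theorem sum_qw (U : Finset ℕ) (e : ℕ → Finset ℕ) (u B : ℝ) (i : ℕ) (y : ℕ) :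
    ∑ A ∈ (range i).powerset, qw U e u B i A y = 1 := by
  have h1 : ∀ A ∈ (range i).powerset, qw U e u B i A y = ∑ J ∈ (range i).powerset,
      wt u i J * (if word U e u B i J y = A then 1 else 0) := fun A hA =>
    qw_word U e u B i A (Finset.mem_powerset.1 hA) y
  rw [Finset.sum_congr rfl h1, Finset.sum_comm]
  have h2 : ∀ J ∈ (range i).powerset, ∑ A ∈ (range i).powerset,
      wt u i J * (if word U e u B i J y = A then (1 : ℝ) else 0) = wt u i J := by
    intro J _
    rw [← Finset.mul_sum, Finset.sum_ite_eq, if_pos, mul_one]
    exact Finset.mem_powerset.2 (word_sub U e u B i J y)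
  rw [Finset.sum_congr rfl h2]
  have h3 := Finset.sum_pow_mul_eq_add_pow u (1 - u) (range i)
  rw [Finset.card_range] at h3
  unfold wt
  rw [h3]
  simp

open Classical in
/-- E5b.  Note 2344, Lemma 3, `B = 2C/W`. -/
theorem chain_lower (U : Finset ℕ) (e : ℕ → Finset ℕ) (u δ : ℝ) (C W r k : ℕ) (hu0 : 0 < u)
    (hu1 : u < 1) (hC : 1 ≤ C) (hW : 1 ≤ W) (hr : 1 ≤ r) (hU : U.card = W * r)
    (he : ∀ i < k, e i ⊆ U ∧ (e i).card = r)
    (hi : ∀ i < k, ∑ J ∈ (range i).powerset,
        u ^ J.card * (1 - u) ^ (i - J.card) * ((hiPts C W U (J.image e) (e i)).card : ℝ) ≤ δ * r)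
    (i : ℕ) (hik : i < k) :
    u / W * (1 - 2 * δ) ≤ ∑ A ∈ (range i).powerset,
      chP (tauw U e u (2 * C / W)) i A * tauw U e u (2 * C / W) i A := by
  have hWr : (0 : ℝ) < W := by exact_mod_cast hW
  have hCr : (0 : ℝ) < C := by exact_mod_cast hC
  have hrr : (0 : ℝ) < r := by exact_mod_cast hr
  set B : ℝ := 2 * C / W with hB
  have hB0 : 0 < B := by positivity
  obtain ⟨hei, her⟩ := he i hik
  set D : Finset ℕ → ℝ := fun A => ∑ y ∈ U, qw U e u B i A y with hD
  set N : Finset ℕ → ℝ := fun A => ∑ y ∈ e i, qw U e u B i A y with hN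
  have hgd : ∀ A, gd U e u B i A ↔ N A ≤ B * D A := by
    intro A
    unfold gd
    rw [num_eq U e u B i A hei]
  have hN0 : ∀ A, 0 ≤ N A := fun A =>
    Finset.sum_nonneg fun y _ => qw_nonneg U e u B hu0 hu1 i A y
  have hD0 : ∀ A, 0 ≤ D A := fun A => den_nonneg U e u B hu0 hu1 i A
  have hND : ∀ A, N A ≤ D A := fun A =>
    Finset.sum_le_sum_of_subset_of_nonneg hei fun y _ _ => qw_nonneg U e u B hu0 hu1 i A y
  -- step 1
  have hst1 : ∀ A, (U.card : ℝ) * (chP (tauw U e u B) i A * tauw U e u B i A) =
      if gd U e u B i A then u * N A else 0 := by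
    intro A
    rw [← mul_assoc, chP_eq U e u B hu0 hu1 i A]
    have ht : tauw U e u B i A = if gd U e u B i A then u * (N A / D A) else 0 := by
      unfold tauw
      rw [num_eq U e u B i A hei]
      exact if_congr (hgd A).symm rfl rfl
    rw [ht]
    by_cases hg : gd U e u B i A
    · rw [if_pos hg, if_pos hg]
      change D A * (u * (N A / D A)) = u * N A
      rcases (hD0 A).eq_or_lt with h0 | h0
      · have := hND A
        have h1 : N A = 0 := le_antisymm (by rw [h0]; exact this) (hN0 A)
        rw [h1]; simp
      · field_simp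
    · rw [if_neg hg, if_neg hg, mul_zero]
  -- step 2
  have hst2 : ∑ A ∈ (range i).powerset, N A = r := by
    rw [hN, Finset.sum_comm]
    rw [Finset.sum_congr rfl (fun y _ => sum_qw U e u B i y)]
    simp [her]
  -- step 3
  have hst3 : ∀ A ∈ (range i).powerset, ¬ gd U e u B i A →
      N A ≤ 2 * ∑ J ∈ (range i).powerset, wt u i J *
        (((hiPts C W U (J.image e) (e i)).filter
          (fun y => word U e u B i J y = A)).card : ℝ) := by
    intro A hA hg
    have hA' := Finset.mem_powerset.1 hA
    have hbad : B * D A < N A := by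
      rw [hgd] at hg
      exact not_le.1 hg
    have hNw := den_word U e u B i A hA' (e i)
    have hDw := den_word U e u B i A hA' U
    have hsplit : ∀ J : Finset ℕ,
        (((e i).filter (fun y => word U e u B i J y = A)).card : ℝ) ≤
        (((hiPts C W U (J.image e) (e i)).filter
          (fun y => word U e u B i J y = A)).card : ℝ) +
        C / W * ((U.filter (fun y => word U e u B i J y = A)).card : ℝ) := by
      intro J
      have h1 := card_nothigh_le U e u B C W i hei J A
      have h2 : ((e i).filter (fun y => word U e u B i J y = A)).card ≤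
          ((hiPts C W U (J.image e) (e i)).filter (fun y => word U e u B i J y = A)).card +
          ((e i).filter (fun y => word U e u B i J y = A ∧
            y ∉ hiPts C W U (J.image e) (e i))).card := by
        rw [← Finset.card_union_of_disjoint]
        · apply Finset.card_le_card
          intro y hy
          obtain ⟨hy1, hy2⟩ := Finset.mem_filter.1 hy
          by_cases hh : y ∈ hiPts C W U (J.image e) (e i)
          · exact Finset.mem_union_left _ (Finset.mem_filter.2 ⟨hh, hy2⟩)
          · exact Finset.mem_union_right _ (Finset.mem_filter.2 ⟨hy1, hy2, hh⟩)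
        · rw [Finset.disjoint_left]
          intro y hy hy'
          exact (Finset.mem_filter.1 hy').2.2 (Finset.mem_filter.1 hy).1
      have h1' : (W : ℝ) * (((e i).filter (fun y => word U e u B i J y = A ∧
            y ∉ hiPts C W U (J.image e) (e i))).card : ℝ) ≤
            C * ((U.filter (fun y => word U e u B i J y = A)).card : ℝ) := by
        exact_mod_cast h1
      have h1'' : (((e i).filter (fun y => word U e u B i J y = A ∧
            y ∉ hiPts C W U (J.image e) (e i))).card : ℝ) ≤
            C / W * ((U.filter (fun y => word U e u B i J y = A)).card : ℝ) := by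
        rw [div_mul_eq_mul_div, le_div_iff₀ hWr]
        linarith
      have h2' : (((e i).filter (fun y => word U e u B i J y = A)).card : ℝ) ≤
          (((hiPts C W U (J.image e) (e i)).filter
            (fun y => word U e u B i J y = A)).card : ℝ) +
          (((e i).filter (fun y => word U e u B i J y = A ∧
            y ∉ hiPts C W U (J.image e) (e i))).card : ℝ) := by
        exact_mod_cast h2
      linarith
    have hsum : N A ≤ (∑ J ∈ (range i).powerset, wt u i J *
        (((hiPts C W U (J.image e) (e i)).filter
          (fun y => word U e u B i J y = A)).card : ℝ)) + C / W * D A := by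
      rw [show N A = ∑ y ∈ e i, qw U e u B i A y from rfl, hNw,
        show D A = ∑ y ∈ U, qw U e u B i A y from rfl, hDw, Finset.mul_sum,
        ← Finset.sum_add_distrib]
      apply Finset.sum_le_sum
      intro J _
      have h1 := hsplit J
      have h2 := wt_nonneg u hu0 hu1 i J
      calc wt u i J * (((e i).filter (fun y => word U e u B i J y = A)).card : ℝ) ≤
          wt u i J * ((((hiPts C W U (J.image e) (e i)).filter
          (fun y => word U e u B i J y = A)).card : ℝ) +
        C / W * ((U.filter (fun y => word U e u B i J y = A)).card : ℝ)) :=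
            mul_le_mul_of_nonneg_left h1 h2
        _ = _ := by ring
    have hBC : C / W * D A = (B * D A) / 2 := by
      rw [hB]; ring
    rw [hBC] at hsum
    linarith
  -- step 4
  have hst4 : ∑ A ∈ (range i).powerset with ¬ gd U e u B i A, N A ≤ 2 * (δ * r) := by
    calc ∑ A ∈ (range i).powerset with ¬ gd U e u B i A, N A
        ≤ ∑ A ∈ (range i).powerset with ¬ gd U e u B i A,
          2 * ∑ J ∈ (range i).powerset, wt u i J *
            (((hiPts C W U (J.image e) (e i)).filter
              (fun y => word U e u B i J y = A)).card : ℝ) := by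
          apply Finset.sum_le_sum
          intro A hA
          obtain ⟨hA1, hA2⟩ := Finset.mem_filter.1 hA
          exact hst3 A hA1 hA2
      _ ≤ ∑ A ∈ (range i).powerset,
          2 * ∑ J ∈ (range i).powerset, wt u i J *
            (((hiPts C W U (J.image e) (e i)).filter
              (fun y => word U e u B i J y = A)).card : ℝ) := by
          apply Finset.sum_le_sum_of_subset_of_nonneg (Finset.filter_subset _ _)
          intro A _ _
          have : 0 ≤ ∑ J ∈ (range i).powerset, wt u i J *
            (((hiPts C W U (J.image e) (e i)).filter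
              (fun y => word U e u B i J y = A)).card : ℝ) :=
            Finset.sum_nonneg fun J _ =>
              mul_nonneg (wt_nonneg u hu0 hu1 i J) (Nat.cast_nonneg _)
          linarith
      _ = 2 * ∑ J ∈ (range i).powerset, wt u i J *
            ((hiPts C W U (J.image e) (e i)).card : ℝ) := by
          rw [← Finset.mul_sum, Finset.sum_comm]
          congr 1
          apply Finset.sum_congr rfl
          intro J _
          rw [← Finset.mul_sum]
          congr 1
          rw [← Nat.cast_sum]
          congr 1
          symm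
          apply Finset.card_eq_sum_card_fiberwise
          intro y _
          exact Finset.mem_powerset.2 (word_sub U e u B i J y)
      _ ≤ 2 * (δ * r) := by
          have := hi i hik
          unfold wt
          linarith
  -- conclusion
  have hUc : (U.card : ℝ) = W * r := by rw [hU]; push_cast; ring
  have hUpos : (0 : ℝ) < U.card := by rw [hUc]; positivity
  have htot : (U.card : ℝ) * ∑ A ∈ (range i).powerset,
      chP (tauw U e u B) i A * tauw U e u B i A =
      u * ∑ A ∈ (range i).powerset with gd U e u B i A, N A := by
    rw [Finset.mul_sum, Finset.sum_congr rfl (fun A _ => hst1 A), Finset.mul_sum,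
      Finset.sum_filter]
  have hsp : ∑ A ∈ (range i).powerset with gd U e u B i A, N A +
      ∑ A ∈ (range i).powerset with ¬ gd U e u B i A, N A = r := by
    rw [Finset.sum_filter_add_sum_filter_not, hst2]
  have hfin : u * ((1 - 2 * δ) * r) ≤ (U.card : ℝ) * ∑ A ∈ (range i).powerset,
      chP (tauw U e u B) i A * tauw U e u B i A := by
    rw [htot]
    apply mul_le_mul_of_nonneg_left _ hu0.le
    linarith
  rw [hUc] at hfin
  have h5 : u / W * (1 - 2 * δ) = (u * ((1 - 2 * δ) * r)) / (W * r) := by
    field_simp
  rw [h5, div_le_iff₀ (by positivity)]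
  linarith

end LocTr
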