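import Pool.Agent.Work.MP_a8cb64_co.FDefs
import Pool.Agent.Work.MP_a8cb64_co.LE5

/-!
MP_a8cb64_co, Theorem C (helper72), module F5 (helper91): exponential moments of the transition
probabilities of the chain of marks.
-/

namespace LocTr

open Finset

/-- the number of non-low points of `U` with given marks. -/
theorem card_notlow_le (U : Finset ℕ) (e : ℕ → Finset ℕ) (u B : ℝ) (d W i : ℕ)
    (J A : Finset ℕ) :
    (U.filter (fun y => word U e u B i J y = A ∧
        y ∉ loPts d W U (J.image e) (e i))).card ≤
      d * W * ((e i).filter (fun y => word U e u B i J y = A)).card := by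
  set P := (e i).filter (fun y => word U e u B i J y = A) with hP
  set Q := U.filter (fun y => word U e u B i J y = A ∧
        y ∉ loPts d W U (J.image e) (e i)) with hQ
  set f : ℕ → Finset ℕ := fun y => atomJ U (J.image e) y with hf
  have h1 : Q.card = ∑ T ∈ Q.image f, (Q.filter (fun y => f y = T)).card :=
    Finset.card_eq_sum_card_image f Q
  have h2 : ∑ T ∈ Q.image f, (P.filter (fun y => f y = T)).card ≤ P.card := by
    rw [Finset.sum_card_fiberwise_eq_card_filter]
    exact Finset.card_filter_le _ _
  have h3 : ∀ T ∈ Q.image f, (Q.filter (fun y => f y = T)).card ≤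
      d * W * (P.filter (fun y => f y = T)).card := by
    intro T hT
    obtain ⟨y0, hy0, rfl⟩ := Finset.mem_image.1 hT
    obtain ⟨hy0U, hy0w, hy0h⟩ := Finset.mem_filter.1 hy0
    have hlow : (atomJ U (J.image e) y0).card ≤ d * W * (e i ∩ atomJ U (J.image e) y0).card := by
      by_contra hcon
      push Not at hcon
      exact hy0h (Finset.mem_filter.2 ⟨hy0U, hcon⟩)
    have hsub1 : (Q.filter (fun y => f y = f y0)) ⊆ atomJ U (J.image e) y0 := by
      intro y hy
      obtain ⟨hyQ, hyf⟩ := Finset.mem_filter.1 hy
      have hyU := (Finset.mem_filter.1 hyQ).1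
      have : y ∈ atomJ U (J.image e) y := by
        unfold atomJ
        simp [hyU]
      have h4 : atomJ U (J.image e) y = atomJ U (J.image e) y0 := hyf
      rwa [h4] at this
    have hsub2 : e i ∩ atomJ U (J.image e) y0 ⊆ (P.filter (fun y => f y = f y0)) := by
      intro y hy
      obtain ⟨hye, hyA⟩ := Finset.mem_inter.1 hy
      obtain ⟨hyU, hyat⟩ := Finset.mem_filter.1 hyA
      have hw : word U e u B i J y = word U e u B i J y0 := by
        apply word_congr
        · intros; rfl
        · intro l _ hlJ
          exact hyat (e l) (Finset.mem_image_of_mem e hlJ)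
      refine Finset.mem_filter.2 ⟨Finset.mem_filter.2 ⟨hye, hw.trans hy0w⟩, ?_⟩
      change atomJ U (J.image e) y = atomJ U (J.image e) y0
      unfold atomJ
      apply Finset.filter_congr
      intro z _
      constructor
      · intro h g hg
        exact (h g hg).trans (hyat g hg)
      · intro h g hg
        exact (h g hg).trans (hyat g hg).symm
    calc (Q.filter (fun y => f y = f y0)).card
        ≤ (atomJ U (J.image e) y0).card := Finset.card_le_card hsub1
      _ ≤ d * W * (e i ∩ atomJ U (J.image e) y0).card := hlow
      _ ≤ d * W * (P.filter (fun y => f y = f y0)).card :=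
          Nat.mul_le_mul_left _ (Finset.card_le_card hsub2)
  calc Q.card = ∑ T ∈ Q.image f, (Q.filter (fun y => f y = T)).card := h1
    _ ≤ ∑ T ∈ Q.image f, d * W * (P.filter (fun y => f y = T)).card := Finset.sum_le_sum h3
    _ = d * W * ∑ T ∈ Q.image f, (P.filter (fun y => f y = T)).card := by rw [Finset.mul_sum]
    _ ≤ d * W * P.card := Nat.mul_le_mul_left _ h2

open Classical in
/-- General form of the chain estimate, with an arbitrary truncation `B`: the words which are not
good have total mass at most `β |U|`. -/
theorem chain_exp_gen (U : Finset ℕ) (e : ℕ → Finset ℕ) (u δ θ B β : ℝ) (d W r k : ℕ)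
    (hu0 : 0 < u) (hu1 : u < 1) (hd : 1 ≤ d) (hW : 1 ≤ W) (hr : 1 ≤ r) (hU : U.card = W * r)
    (hθ : 0 ≤ θ) (he : ∀ i < k, e i ⊆ U ∧ (e i).card = r)
    (hi : ∀ i < k, ∑ J ∈ (range i).powerset,
        u ^ J.card * (1 - u) ^ (i - J.card) * ((loPts d W U (J.image e) (e i)).card : ℝ) ≤
          δ * U.card)
    (i : ℕ) (hik : i < k)
    (hβ : ∑ A ∈ (range i).powerset with ¬ gd U e u B i A, ∑ y ∈ U, qw U e u B i A y ≤
      β * U.card) :
    ∑ A ∈ (range i).powerset, chP (tauw U e u B) i A *
        Real.exp (-(θ * tauw U e u B i A)) ≤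
      2 * δ + β + Real.exp (-(θ * u / (2 * d * W))) := by
  have hWr : (0 : ℝ) < W := by exact_mod_cast hW
  have hdr : (0 : ℝ) < d := by exact_mod_cast hd
  have hrr : (0 : ℝ) < r := by exact_mod_cast hr
  obtain ⟨hei, her⟩ := he i hik
  have hUc : (U.card : ℝ) = W * r := by rw [hU]; push_cast; ring
  have hUpos : (0 : ℝ) < U.card := by rw [hUc]; positivity
  set D : Finset ℕ → ℝ := fun A => ∑ y ∈ U, qw U e u B i A y with hD
  set N : Finset ℕ → ℝ := fun A => ∑ y ∈ e i, qw U e u B i A y with hN
  have hgd : ∀ A, gd U e u B i A ↔ N A ≤ B * D A := by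
    intro A
    unfold gd
    rw [num_eq U e u B i A hei]
  have hN0 : ∀ A, 0 ≤ N A := fun A =>
    Finset.sum_nonneg fun y _ => qw_nonneg U e u B hu0 hu1 i A y
  have hD0 : ∀ A, 0 ≤ D A := fun A => den_nonneg U e u B hu0 hu1 i A
  have hND : ∀ A, N A ≤ D A := fun A =>
    Finset.sum_le_sum_of_subset_of_nonneg hei fun y _ _ => qw_nonneg U e u B hu0 hu1 i A y
  -- the low words
  set lowA : Finset ℕ → Prop := fun A => 2 * d * W * N A < D A with hlowA
  have hlow : ∀ A ∈ (range i).powerset, lowA A →
      D A ≤ 2 * ∑ J ∈ (range i).powerset, wt u i J *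
        (((loPts d W U (J.image e) (e i)).filter
          (fun y => word U e u B i J y = A)).card : ℝ) := by
    intro A hA hlo
    have hA' := Finset.mem_powerset.1 hA
    have hNw := den_word U e u B i A hA' (e i)
    have hDw := den_word U e u B i A hA' U
    have hsplit : ∀ J : Finset ℕ,
        ((U.filter (fun y => word U e u B i J y = A)).card : ℝ) ≤
        (((loPts d W U (J.image e) (e i)).filter
          (fun y => word U e u B i J y = A)).card : ℝ) +
        d * W * (((e i).filter (fun y => word U e u B i J y = A)).card : ℝ) := by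
      intro J
      have h1 := card_notlow_le U e u B d W i J A
      have h2 : (U.filter (fun y => word U e u B i J y = A)).card ≤
          ((loPts d W U (J.image e) (e i)).filter (fun y => word U e u B i J y = A)).card +
          (U.filter (fun y => word U e u B i J y = A ∧
            y ∉ loPts d W U (J.image e) (e i))).card := by
        rw [← Finset.card_union_of_disjoint]
        · apply Finset.card_le_card
          intro y hy
          obtain ⟨hy1, hy2⟩ := Finset.mem_filter.1 hy
          by_cases hh : y ∈ loPts d W U (J.image e) (e i)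
          · exact Finset.mem_union_left _ (Finset.mem_filter.2 ⟨hh, hy2⟩)
          · exact Finset.mem_union_right _ (Finset.mem_filter.2 ⟨hy1, hy2, hh⟩)
        · rw [Finset.disjoint_left]
          intro y hy hy'
          exact (Finset.mem_filter.1 hy').2.2 (Finset.mem_filter.1 hy).1
      have h3 : (U.filter (fun y => word U e u B i J y = A)).card ≤
          ((loPts d W U (J.image e) (e i)).filter (fun y => word U e u B i J y = A)).card +
          d * W * ((e i).filter (fun y => word U e u B i J y = A)).card := by omega
      exact_mod_cast h3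
    have hsum : D A ≤ (∑ J ∈ (range i).powerset, wt u i J *
        (((loPts d W U (J.image e) (e i)).filter
          (fun y => word U e u B i J y = A)).card : ℝ)) + d * W * N A := by
      rw [show N A = ∑ y ∈ e i, qw U e u B i A y from rfl, hNw,
        show D A = ∑ y ∈ U, qw U e u B i A y from rfl, hDw, Finset.mul_sum,
        ← Finset.sum_add_distrib]
      apply Finset.sum_le_sum
      intro J _
      have h1 := hsplit J
      have h2 := wt_nonneg u hu0 hu1 i J
      calc wt u i J * ((U.filter (fun y => word U e u B i J y = A)).card : ℝ) ≤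
          wt u i J * ((((loPts d W U (J.image e) (e i)).filter
          (fun y => word U e u B i J y = A)).card : ℝ) +
        d * W * (((e i).filter (fun y => word U e u B i J y = A)).card : ℝ)) :=
            mul_le_mul_of_nonneg_left h1 h2
        _ = _ := by ring
    have hlo' : 2 * d * W * N A < D A := hlo
    nlinarith
  have hlowsum : ∑ A ∈ (range i).powerset with lowA A, D A ≤ 2 * (δ * U.card) := by
    calc ∑ A ∈ (range i).powerset with lowA A, D A
        ≤ ∑ A ∈ (range i).powerset with lowA A,
          2 * ∑ J ∈ (range i).powerset, wt u i J *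
            (((loPts d W U (J.image e) (e i)).filter
              (fun y => word U e u B i J y = A)).card : ℝ) := by
          apply Finset.sum_le_sum
          intro A hA
          obtain ⟨hA1, hA2⟩ := Finset.mem_filter.1 hA
          exact hlow A hA1 hA2
      _ ≤ ∑ A ∈ (range i).powerset,
          2 * ∑ J ∈ (range i).powerset, wt u i J *
            (((loPts d W U (J.image e) (e i)).filter
              (fun y => word U e u B i J y = A)).card : ℝ) := by
          apply Finset.sum_le_sum_of_subset_of_nonneg (Finset.filter_subset _ _)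
          intro A _ _
          have : 0 ≤ ∑ J ∈ (range i).powerset, wt u i J *
            (((loPts d W U (J.image e) (e i)).filter
              (fun y => word U e u B i J y = A)).card : ℝ) :=
            Finset.sum_nonneg fun J _ =>
              mul_nonneg (wt_nonneg u hu0 hu1 i J) (Nat.cast_nonneg _)
          linarith
      _ = 2 * ∑ J ∈ (range i).powerset, wt u i J *
            ((loPts d W U (J.image e) (e i)).card : ℝ) := by
          rw [← Finset.mul_sum, Finset.sum_comm]
          congr 1
          apply Finset.sum_congr rfl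
          intro J _
          rw [← Finset.mul_sum]
          congr 1
          rw [← Nat.cast_sum]
          congr 1
          symm
          apply Finset.card_eq_sum_card_fiberwise
          intro y _
          exact Finset.mem_powerset.2 (word_sub U e u B i J y)
      _ ≤ 2 * (δ * U.card) := by
          have := hi i hik
          unfold wt
          linarith
  -- total mass
  have htotal : ∑ A ∈ (range i).powerset, D A = U.card := by
    rw [hD, Finset.sum_comm]
    rw [Finset.sum_congr rfl (fun y _ => sum_qw U e u B i y)]
    simp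
  -- term by term
  set E : ℝ := Real.exp (-(θ * u / (2 * d * W))) with hE
  have hE0 : 0 < E := Real.exp_pos _
  have hterm : ∀ A ∈ (range i).powerset,
      D A * Real.exp (-(θ * tauw U e u B i A)) ≤
      (if lowA A then D A else 0) + (if ¬ gd U e u B i A then D A else 0) + D A * E := by
    intro A _
    have ht0 : 0 ≤ tauw U e u B i A := by
      unfold tauw
      split_ifs
      · have h1 := num_nonneg U e u B hu0 hu1 i A
        have h2 := den_nonneg U e u B hu0 hu1 i A
        positivity
      · exact le_rfl
    have hexp1 : Real.exp (-(θ * tauw U e u B i A)) ≤ 1 := by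
      apply Real.exp_le_one_iff.2
      have := mul_nonneg hθ ht0
      linarith
    have hDA := hD0 A
    have hle1 : D A * Real.exp (-(θ * tauw U e u B i A)) ≤ D A := by
      have := mul_le_mul_of_nonneg_left hexp1 hDA
      linarith
    have hDE : 0 ≤ D A * E := mul_nonneg hDA hE0.le
    by_cases hlo : lowA A
    · rw [if_pos hlo]
      have : 0 ≤ (if ¬ gd U e u B i A then D A else 0) := by split_ifs <;> linarith
      linarith
    · rw [if_neg hlo]
      by_cases hg : gd U e u B i A
      · rw [if_neg (not_not.2 hg)]
        have ht : tauw U e u B i A = u * (N A / D A) := by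
          unfold tauw
          rw [num_eq U e u B i A hei]
          rw [if_pos ((hgd A).1 hg)]
        rcases hDA.eq_or_lt with h0 | h0
        · rw [← h0]; simp
        · have hnl : D A ≤ 2 * d * W * N A := not_lt.1 hlo
          have hrho : 1 / (2 * d * W) ≤ N A / D A := by
            rw [div_le_div_iff₀ (by positivity) h0]
            linarith
          have htl : θ * u / (2 * d * W) ≤ θ * tauw U e u B i A := by
            rw [ht]
            have h5 : θ * u * (1 / (2 * d * W)) ≤ θ * u * (N A / D A) :=
              mul_le_mul_of_nonneg_left hrho (mul_nonneg hθ hu0.le)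
            calc θ * u / (2 * d * W) = θ * u * (1 / (2 * d * W)) := by ring
              _ ≤ θ * u * (N A / D A) := h5
              _ = θ * (u * (N A / D A)) := by ring
          have hexp2 : Real.exp (-(θ * tauw U e u B i A)) ≤ E :=
            Real.exp_le_exp.2 (neg_le_neg htl)
          have := mul_le_mul_of_nonneg_left hexp2 hDA
          linarith
      · rw [if_pos hg]
        linarith
  have hmain : (U.card : ℝ) * ∑ A ∈ (range i).powerset, chP (tauw U e u B) i A *
        Real.exp (-(θ * tauw U e u B i A)) ≤
      U.card * (2 * δ + β + E) := by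
    calc (U.card : ℝ) * ∑ A ∈ (range i).powerset, chP (tauw U e u B) i A *
        Real.exp (-(θ * tauw U e u B i A))
        = ∑ A ∈ (range i).powerset, D A * Real.exp (-(θ * tauw U e u B i A)) := by
          rw [Finset.mul_sum]
          apply Finset.sum_congr rfl
          intro A _
          rw [← mul_assoc, chP_eq U e u B hu0 hu1 i A]
      _ ≤ ∑ A ∈ (range i).powerset,
          ((if lowA A then D A else 0) + (if ¬ gd U e u B i A then D A else 0) + D A * E) :=
          Finset.sum_le_sum hterm
      _ = ∑ A ∈ (range i).powerset with lowA A, D A +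
          ∑ A ∈ (range i).powerset with ¬ gd U e u B i A, D A +
          (∑ A ∈ (range i).powerset, D A) * E := by
          rw [Finset.sum_add_distrib, Finset.sum_add_distrib, Finset.sum_filter,
            Finset.sum_filter, Finset.sum_mul]
      _ ≤ 2 * (δ * U.card) + β * U.card + U.card * E := by
          rw [htotal]
          linarith
      _ = U.card * (2 * δ + β + E) := by ring
  exact le_of_mul_le_mul_left hmain hUpos

open Classical in
/-- F5.  The chain estimate, truncation `B = C / W`. -/
theorem chain_exp (U : Finset ℕ) (e : ℕ → Finset ℕ) (u δ θ : ℝ) (C d W r k : ℕ) (hu0 : 0 < u)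
    (hu1 : u < 1) (hC : 1 ≤ C) (hd : 1 ≤ d) (hW : 1 ≤ W) (hr : 1 ≤ r) (hU : U.card = W * r)
    (hθ : 0 ≤ θ) (he : ∀ i < k, e i ⊆ U ∧ (e i).card = r)
    (hi : ∀ i < k, ∑ J ∈ (range i).powerset,
        u ^ J.card * (1 - u) ^ (i - J.card) * ((loPts d W U (J.image e) (e i)).card : ℝ) ≤
          δ * U.card)
    (i : ℕ) (hik : i < k) :
    ∑ A ∈ (range i).powerset, chP (tauw U e u (C / W)) i A *
        Real.exp (-(θ * tauw U e u (C / W) i A)) ≤
      2 * δ + 1 / C + Real.exp (-(θ * u / (2 * d * W))) := by
  apply chain_exp_gen U e u δ θ (C / W) (1 / C) d W r k hu0 hu1 hd hW hr hU hθ he hi i hik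
  have hWr : (0 : ℝ) < W := by exact_mod_cast hW
  have hCr : (0 : ℝ) < C := by exact_mod_cast hC
  have hrr : (0 : ℝ) < r := by exact_mod_cast hr
  obtain ⟨hei, her⟩ := he i hik
  have hUc : (U.card : ℝ) = W * r := by rw [hU]; push_cast; ring
  set B : ℝ := C / W with hB
  have hB0 : 0 < B := by positivity
  have hst2 : ∑ A ∈ (range i).powerset, ∑ y ∈ e i, qw U e u B i A y = r := by
    rw [Finset.sum_comm]
    rw [Finset.sum_congr rfl (fun y _ => sum_qw U e u B i y)]
    simp [her]
  have h1 : ∑ A ∈ (range i).powerset with ¬ gd U e u B i A, ∑ y ∈ U, qw U e u B i A y ≤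
      ∑ A ∈ (range i).powerset with ¬ gd U e u B i A, (1 / B) * ∑ y ∈ e i, qw U e u B i A y := by
    apply Finset.sum_le_sum
    intro A hA
    have hg := (Finset.mem_filter.1 hA).2
    unfold gd at hg
    rw [num_eq U e u B i A hei] at hg
    have hg' := (not_le.1 hg).le
    rw [one_div, ← div_eq_inv_mul, le_div_iff₀ hB0]
    linarith
  have h2 : ∑ A ∈ (range i).powerset with ¬ gd U e u B i A,
      (1 / B) * ∑ y ∈ e i, qw U e u B i A y ≤
      ∑ A ∈ (range i).powerset, (1 / B) * ∑ y ∈ e i, qw U e u B i A y := by
    apply Finset.sum_le_sum_of_subset_of_nonneg (Finset.filter_subset _ _)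
    intro A _ _
    have : 0 ≤ ∑ y ∈ e i, qw U e u B i A y :=
      Finset.sum_nonneg fun y _ => qw_nonneg U e u B hu0 hu1 i A y
    positivity
  have h3 : ∑ A ∈ (range i).powerset, (1 / B) * ∑ y ∈ e i, qw U e u B i A y =
      1 / C * U.card := by
    rw [← Finset.mul_sum, hst2, hUc, hB]
    field_simp
  linarith

open Classical in
/-- F5 without truncation (`B = 1`). -/
theorem chain_exp_one (U : Finset ℕ) (e : ℕ → Finset ℕ) (u δ θ : ℝ) (d W r k : ℕ) (hu0 : 0 < u)
    (hu1 : u < 1) (hd : 1 ≤ d) (hW : 1 ≤ W) (hr : 1 ≤ r) (hU : U.card = W * r)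
    (hθ : 0 ≤ θ) (he : ∀ i < k, e i ⊆ U ∧ (e i).card = r)
    (hi : ∀ i < k, ∑ J ∈ (range i).powerset,
        u ^ J.card * (1 - u) ^ (i - J.card) * ((loPts d W U (J.image e) (e i)).card : ℝ) ≤
          δ * U.card)
    (i : ℕ) (hik : i < k) :
    ∑ A ∈ (range i).powerset, chP (tauw U e u 1) i A *
        Real.exp (-(θ * tauw U e u 1 i A)) ≤
      2 * δ + Real.exp (-(θ * u / (2 * d * W))) := by
  have h := chain_exp_gen U e u δ θ 1 0 d W r k hu0 hu1 hd hW hr hU hθ he hi i hik ?_
  · linarith
  · rw [Finset.sum_eq_zero, zero_mul]
    intro A hA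
    have hg := (Finset.mem_filter.1 hA).2
    exfalso
    apply hg
    unfold gd
    rw [one_mul]
    exact num_le_den U e u 1 hu0 hu1 i A

end LocTr
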