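import Pool.Agent.Work.MP_a8cb64_co.DDefs
import Pool.Agent.Work.MP_a8cb64_co.LF5

/-!
MP_a8cb64_co, Theorem D (helper71, note 2363), module D5 (helper91): the chain of marks without
truncation.  `chain_exp_one` is in `LF5.lean`.
-/

namespace LocTr

open Finset

/-- D5b.  `0 ≤ τ ≤ u`. -/
theorem tauw_bd_one (U : Finset ℕ) (e : ℕ → Finset ℕ) (u : ℝ) (hu0 : 0 < u) (hu1 : u < 1)
    (i : ℕ) (A : Finset ℕ) : 0 ≤ tauw U e u 1 i A ∧ tauw U e u 1 i A ≤ u := by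
  have hN := num_nonneg U e u 1 hu0 hu1 i A
  have hD := den_nonneg U e u 1 hu0 hu1 i A
  have hND := num_le_den U e u 1 hu0 hu1 i A
  unfold tauw
  rw [if_pos (by rw [one_mul]; exact hND)]
  have hr0 : 0 ≤ (∑ y ∈ U, qw U e u 1 i A y * ind (e i) y) / ∑ y ∈ U, qw U e u 1 i A y := by
    positivity
  have hr1 : (∑ y ∈ U, qw U e u 1 i A y * ind (e i) y) / ∑ y ∈ U, qw U e u 1 i A y ≤ 1 :=
    div_le_one_of_le₀ hND hD
  constructor
  · positivity
  · nlinarith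

/-- D5c.  A set of marks of positive probability is realised by a point. -/
theorem chain_point_one (U : Finset ℕ) (e : ℕ → Finset ℕ) (u : ℝ) (hu0 : 0 < u) (hu1 : u < 1)
    (hU : U.Nonempty) (k : ℕ) (S : Finset ℕ) (hS : S ⊆ range k)
    (hpos : ∀ i ∈ S, 0 < tauw U e u 1 i (S.filter (· < i))) : ∃ x ∈ U, ∀ i ∈ S, x ∈ e i :=
  chain_point_gen U e u 1 hu0 hu1 hU k S hS hpos

end LocTr
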