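import Pool.Agent.Work.MP_a8cb64_co.LE4

/-!
MP_a8cb64_co, Theorem D, module D6 (helper71): the coupling of `s` particles with exponent `1 + η`.
-/

namespace LocTr

open Finset

lemma piw_bd_half {Λ t : ℝ} (hΛ : 1 ≤ Λ) (h0 : 0 ≤ t) (h4 : t ≤ 1 / 2) :
    0 ≤ piw Λ t ∧ piw Λ t < 1 ∧ piw Λ t + t / Λ * (1 - piw Λ t) = t ∧ 0 < 1 - t / Λ := by
  have hΛ0 : 0 < Λ := by linarith
  have h1 : t / Λ ≤ 1 / 2 := by
    rw [div_le_iff₀ hΛ0]
    nlinarith
  have h1' : 0 ≤ t / Λ := by positivity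
  have h2 : 0 < 1 - t / Λ := by linarith
  have h3 : 1 / Λ ≤ 1 := by
    rw [div_le_one hΛ0]; exact hΛ
  have h3' : 0 < 1 / Λ := by positivity
  refine ⟨?_, ?_, ?_, h2⟩
  · unfold piw
    apply div_nonneg _ h2.le
    apply mul_nonneg h0
    linarith
  · unfold piw
    rw [div_lt_one h2]
    have e : t * (1 - 1 / Λ) = t - t / Λ := by ring
    rw [e]
    linarith
  · have e : piw Λ t * (1 - t / Λ) = t * (1 - 1 / Λ) := by
      unfold piw
      exact div_mul_cancel₀ _ h2.ne'
    have e2 : piw Λ t + t / Λ * (1 - piw Λ t) = piw Λ t * (1 - t / Λ) + t / Λ := by ring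
    rw [e2, e]
    ring

/-- `exp (x - x^2) ≤ 1 + x` for `|x| ≤ 1/3`. -/
lemma exp_sub_sq_le {x : ℝ} (h : |x| ≤ 1 / 3) : Real.exp (x - x ^ 2) ≤ 1 + x := by
  obtain ⟨h1, h2⟩ := abs_le.1 h
  set z := x - x ^ 2 with hz
  rcases le_total 0 x with hx | hx
  · have hz0 : 0 ≤ z := by rw [hz]; nlinarith
    have hz1 : |z| ≤ 1 := by
      rw [abs_of_nonneg hz0, hz]; nlinarith
    have h3 := (abs_le.1 (Real.abs_exp_sub_one_sub_id_le hz1)).2
    have h4 : Real.exp z ≤ 1 + z + z ^ 2 := by linarith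
    refine h4.trans ?_
    have e : 1 + z + z ^ 2 = 1 + x + x ^ 3 * (x - 2) := by rw [hz]; ring
    rw [e]
    have : 0 ≤ x ^ 3 := by positivity
    nlinarith
  · have hz0 : z ≤ 0 := by rw [hz]; nlinarith [sq_nonneg x]
    have hq := Real.quadratic_le_exp_of_nonneg (show 0 ≤ -z by linarith)
    have hpos : 0 < 1 + -z + (-z) ^ 2 / 2 := by
      have : 0 ≤ -z := by linarith
      positivity
    have h3 : Real.exp z ≤ 1 + z + z ^ 2 / 2 := by
      have e : Real.exp z = (Real.exp (-z))⁻¹ := by rw [Real.exp_neg, inv_inv]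
      rw [e]
      refine (inv_anti₀ hpos hq).trans ?_
      rw [inv_le_iff_one_le_mul₀ hpos]
      nlinarith [sq_nonneg (z ^ 2)]
    refine h3.trans ?_
    have e : 1 + z + z ^ 2 / 2 = 1 + x + x ^ 2 * ((1 - x) ^ 2 / 2 - 1) := by rw [hz]; ring
    rw [e]
    have h5 : (1 - x) ^ 2 / 2 - 1 ≤ 0 := by nlinarith
    nlinarith [sq_nonneg x]

/-- Hellinger form of the two point Pinsker inequality. -/
lemma two_hell {t a c : ℝ} (ht0 : 0 ≤ t) (ht1 : t ≤ 1) (ha : 0 ≤ a) (hc : 0 ≤ c)
    (hn : t * a ^ 2 + (1 - t) * c ^ 2 = 1) :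
    (t * (a ^ 2 - 1)) ^ 2 ≤ 2 * (1 - t * a - (1 - t) * c) := by
  have h1 : 0 ≤ 1 - t := by linarith
  -- `t a + (1-t) c ≤ 1`
  have hle : t * a + (1 - t) * c ≤ 1 := by
    have : (t * a + (1 - t) * c) ^ 2 ≤ 1 := by
      have e : 1 - (t * a + (1 - t) * c) ^ 2 = t * (1 - t) * (a - c) ^ 2 := by
        have : (t * a + (1 - t) * c) ^ 2 + t * (1 - t) * (a - c) ^ 2 =
          t * a ^ 2 + (1 - t) * c ^ 2 := by ring
        linarith
      have : 0 ≤ t * (1 - t) * (a - c) ^ 2 := by positivity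
      linarith
    nlinarith [mul_nonneg ht0 ha, mul_nonneg h1 hc]
  have hD : t * (a ^ 2 - 1) = -((1 - t) * (c ^ 2 - 1)) := by linarith
  set D := t * (a ^ 2 - 1) with hDd
  have h2D : 2 * D = t * ((a - 1) * (a + 1)) + (1 - t) * ((1 - c) * (c + 1)) := by
    have e1 : t * ((a - 1) * (a + 1)) = D := by rw [hDd]; ring
    have e2 : (1 - t) * ((1 - c) * (c + 1)) = D := by rw [hD]; ring
    rw [e1, e2]; ring
  have hCS : (t * ((a - 1) * (a + 1)) + (1 - t) * ((1 - c) * (c + 1))) ^ 2 ≤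
      (t * (a - 1) ^ 2 + (1 - t) * (1 - c) ^ 2) * (t * (a + 1) ^ 2 + (1 - t) * (c + 1) ^ 2) := by
    have e : (t * (a - 1) ^ 2 + (1 - t) * (1 - c) ^ 2) * (t * (a + 1) ^ 2 + (1 - t) * (c + 1) ^ 2) -
        (t * ((a - 1) * (a + 1)) + (1 - t) * ((1 - c) * (c + 1))) ^ 2 =
        t * (1 - t) * ((a - 1) * (c + 1) - (1 - c) * (a + 1)) ^ 2 := by ring
    have : 0 ≤ t * (1 - t) * ((a - 1) * (c + 1) - (1 - c) * (a + 1)) ^ 2 := by positivity
    linarith
  have e1 : t * (a - 1) ^ 2 + (1 - t) * (1 - c) ^ 2 = 2 * (1 - t * a - (1 - t) * c) := by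
    linear_combination hn
  have e2 : t * (a + 1) ^ 2 + (1 - t) * (c + 1) ^ 2 = 2 * (1 + (t * a + (1 - t) * c)) := by
    linear_combination hn
  rw [← h2D, e1, e2] at hCS
  nlinarith

/-- `v^(1+η) ≥ v + 2 η (v - √v)`. -/
lemma rpow_one_add_ge {v η : ℝ} (hv : 0 < v) (hη : 0 ≤ η) :
    v + 2 * η * (v - Real.sqrt v) ≤ v ^ (1 + η) := by
  have hs : 0 < Real.sqrt v := Real.sqrt_pos.2 hv
  rw [Real.rpow_add hv, Real.rpow_one]
  have h1 : 1 + η * Real.log v ≤ v ^ η := by
    rw [Real.rpow_def_of_pos hv]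
    have := Real.add_one_le_exp (Real.log v * η)
    linarith
  have h2 : 1 - (Real.sqrt v)⁻¹ ≤ Real.log (Real.sqrt v) := Real.one_sub_inv_le_log_of_pos hs
  have h3 : Real.log (Real.sqrt v) = Real.log v / 2 := Real.log_sqrt hv.le
  rw [h3] at h2
  have h4 : v * (1 + η * Real.log v) ≤ v * v ^ η := mul_le_mul_of_nonneg_left h1 hv.le
  refine le_trans ?_ h4
  have h5 : 2 * (1 - (Real.sqrt v)⁻¹) ≤ Real.log v := by linarith
  have h6 : v * (2 * (1 - (Real.sqrt v)⁻¹)) ≤ v * Real.log v := mul_le_mul_of_nonneg_left h5 hv.le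
  have h7 : v * (Real.sqrt v)⁻¹ = Real.sqrt v := by
    rw [← div_eq_mul_inv, Real.div_sqrt]
  have h8 : 2 * (v - Real.sqrt v) ≤ v * Real.log v := by
    have e : v * (2 * (1 - (Real.sqrt v)⁻¹)) = 2 * (v - v * (Real.sqrt v)⁻¹) := by ring
    rw [e, h7] at h6
    exact h6
  nlinarith [mul_le_mul_of_nonneg_left h8 hη]

/-- normalised power inequality. -/
lemma pow_mean_ge {t v w η : ℝ} (ht0 : 0 ≤ t) (ht1 : t ≤ 1) (hv : 0 < v) (hw : 0 < w)
    (hη : 0 ≤ η) (hn : t * v + (1 - t) * w = 1) :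
    1 + η * (t * (v - 1)) ^ 2 ≤ t * v ^ (1 + η) + (1 - t) * w ^ (1 + η) := by
  have h1 : 0 ≤ 1 - t := by linarith
  have hv1 := rpow_one_add_ge hv hη
  have hw1 := rpow_one_add_ge hw hη
  have ha := Real.sq_sqrt hv.le
  have hc := Real.sq_sqrt hw.le
  have h2 := two_hell ht0 ht1 (Real.sqrt_nonneg v) (Real.sqrt_nonneg w)
    (by rw [ha, hc]; exact hn)
  rw [ha] at h2
  have h3 := mul_le_mul_of_nonneg_left hv1 ht0
  have h4 := mul_le_mul_of_nonneg_left hw1 h1
  have h5 := mul_le_mul_of_nonneg_left h2 hη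
  have e : t * (v + 2 * η * (v - Real.sqrt v)) + (1 - t) * (w + 2 * η * (w - Real.sqrt w)) =
      1 + η * (2 * (1 - t * Real.sqrt v - (1 - t) * Real.sqrt w)) := by
    have : t * (v + 2 * η * (v - Real.sqrt v)) + (1 - t) * (w + 2 * η * (w - Real.sqrt w)) =
      (t * v + (1 - t) * w) + 2 * η * ((t * v + (1 - t) * w) - t * Real.sqrt v -
        (1 - t) * Real.sqrt w) := by ring
    rw [this, hn]; ring
  linarith

/-- the one-particle inequality. -/
lemma one_part_p {t Λ η α β : ℝ} (ht0 : 0 ≤ t) (ht : t ≤ 1 / 2) (hΛ : 4 ≤ Λ)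
    (hη : 2 ≤ η * (Λ - 1) ^ 2) (hη1 : η ≤ 1 / 4) (hα : 0 < α) (hβ : 0 < β) :
    (piw Λ t * α + (1 - piw Λ t) * β) *
      Real.exp ((t * α + (1 - t) * β) / (piw Λ t * α + (1 - piw Λ t) * β) - 1) ≤
      (t * α ^ (1 + η) + (1 - t) * β ^ (1 + η)) ^ (1 / (1 + η)) := by
  have hΛ0 : 0 < Λ := by linarith
  obtain ⟨hp0, hp1, hpt, h1t⟩ := piw_bd_half (by linarith : (1 : ℝ) ≤ Λ) ht0 ht
  set π := piw Λ t with hπ
  set M := t * α + (1 - t) * β with hM
  set ψ := π * α + (1 - π) * β with hψ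
  have hη0 : 0 < η := by
    by_contra h
    push Not at h
    have : η * (Λ - 1) ^ 2 ≤ 0 := mul_nonpos_of_nonpos_of_nonneg h (sq_nonneg _)
    linarith
  have hM0 : 0 < M := by
    have : 0 < (1 - t) * β := mul_pos (by linarith) hβ
    have : 0 ≤ t * α := mul_nonneg ht0 hα.le
    linarith
  have hψ0 : 0 < ψ := by
    have : 0 < (1 - π) * β := mul_pos (by linarith) hβ
    have : 0 ≤ π * α := mul_nonneg hp0 hα.le
    linarith
  -- `M = ψ (1 - t/Λ) + (t/Λ) α`
  have hMψ : M = ψ * (1 - t / Λ) + t / Λ * α := by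
    have e1 : ψ * (1 - t / Λ) + t / Λ * α = (π + t / Λ * (1 - π)) * α +
        (1 - (π + t / Λ * (1 - π))) * β := by rw [hψ]; ring
    rw [e1, hpt]
  have htα : t * α ≤ M := by
    have : 0 ≤ (1 - t) * β := mul_nonneg (by linarith) hβ.le
    linarith
  have hden : (Λ - 1) * M ≤ Λ * M - t * α := by nlinarith
  have hden0 : 0 < Λ * M - t * α := by
    have : 0 < (Λ - 1) * M := mul_pos (by linarith) hM0
    linarith
  set x := M / ψ - 1 with hx
  -- `x = t (α - M) / (Λ M - t α)`
  have hxe : x * (Λ * M - t * α) = t * (α - M) := by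
    have e1 : Λ * M - t * α = Λ * (ψ * (1 - t / Λ)) := by
      have : Λ * M = Λ * (ψ * (1 - t / Λ)) + t * α := by
        rw [hMψ]
        field_simp
      linarith
    have e2 : x * ψ = M - ψ := by
      rw [hx]
      field_simp
    calc x * (Λ * M - t * α) = (x * ψ) * (Λ * (1 - t / Λ)) := by rw [e1]; ring
      _ = (M - ψ) * (Λ * (1 - t / Λ)) := by rw [e2]
      _ = M * (Λ * (1 - t / Λ)) - Λ * (ψ * (1 - t / Λ)) := by ring
      _ = M * (Λ * (1 - t / Λ)) - (Λ * M - t * α) := by rw [e1]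
      _ = t * (α - M) := by
        have : Λ * (1 - t / Λ) = Λ - t := by field_simp
        rw [this]; ring
  set v := α / M with hv
  set w := β / M with hw
  have hv0 : 0 < v := div_pos hα hM0
  have hw0 : 0 < w := div_pos hβ hM0
  have hαv : α = v * M := by rw [hv]; field_simp
  have hβw : β = w * M := by rw [hw]; field_simp
  have hn : t * v + (1 - t) * w = 1 := by
    rw [hv, hw]
    field_simp
    linarith
  set D := t * (v - 1) with hD
  have hDM : t * (α - M) = D * M := by rw [hD, hαv]; ring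
  -- bounds on x
  have hxD : |x| * (Λ - 1) ≤ |D| := by
    have h1 : |x| * (Λ * M - t * α) = |D| * M := by
      have := congrArg abs hxe
      rw [abs_mul, abs_of_pos hden0, hDM, abs_mul, abs_of_pos hM0] at this
      exact this
    have h2 : |x| * ((Λ - 1) * M) ≤ |D| * M := by
      rw [← h1]
      exact mul_le_mul_of_nonneg_left hden (abs_nonneg _)
    have h3 : (|x| * (Λ - 1)) * M ≤ |D| * M := by linarith
    exact le_of_mul_le_mul_right h3 hM0
  have hD1 : |D| ≤ 1 := by
    have h1 : t * v ≤ 1 := by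
      have : 0 ≤ (1 - t) * w := mul_nonneg (by linarith) hw0.le
      linarith
    have h2 : 0 ≤ t * v := mul_nonneg ht0 hv0.le
    rw [abs_le]
    constructor
    · rw [hD]; nlinarith
    · rw [hD]; nlinarith
  have hx3 : |x| ≤ 1 / 3 := by
    have h1 : |x| * 3 ≤ |x| * (Λ - 1) := mul_le_mul_of_nonneg_left (by linarith) (abs_nonneg _)
    linarith
  have hx2 : x ^ 2 ≤ η * D ^ 2 / 2 := by
    have h1 : (|x| * (Λ - 1)) ^ 2 ≤ |D| ^ 2 := by
      apply pow_le_pow_left₀ _ hxD
      exact mul_nonneg (abs_nonneg _) (by linarith)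
    rw [mul_pow, sq_abs, sq_abs] at h1
    have h2 : 2 * x ^ 2 ≤ η * (x ^ 2 * (Λ - 1) ^ 2) := by
      have := mul_le_mul_of_nonneg_left hη (sq_nonneg x)
      nlinarith
    have h3 : η * (x ^ 2 * (Λ - 1) ^ 2) ≤ η * D ^ 2 := mul_le_mul_of_nonneg_left h1 hη0.le
    linarith
  -- step 1: `ψ exp x ≤ M exp (x^2)`
  have hs1 : ψ * Real.exp x ≤ M * Real.exp (x ^ 2) := by
    have h1 := exp_sub_sq_le hx3
    have h2 : ψ * (1 + x) = M := by
      rw [hx]
      field_simp
      ring
    have h3 : Real.exp x = Real.exp (x - x ^ 2) * Real.exp (x ^ 2) := by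
      rw [← Real.exp_add]; congr 1; ring
    rw [h3, ← h2]
    have h4 := Real.exp_pos (x ^ 2)
    calc ψ * (Real.exp (x - x ^ 2) * Real.exp (x ^ 2))
        ≤ ψ * ((1 + x) * Real.exp (x ^ 2)) := by
          apply mul_le_mul_of_nonneg_left _ hψ0.le
          exact mul_le_mul_of_nonneg_right h1 h4.le
      _ = ψ * (1 + x) * Real.exp (x ^ 2) := by ring
  refine hs1.trans ?_
  -- step 2
  have hp := pow_mean_ge ht0 (by linarith : t ≤ 1) hv0 hw0 hη0.le hn
  have hA : t * α ^ (1 + η) + (1 - t) * β ^ (1 + η) =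
      M ^ (1 + η) * (t * v ^ (1 + η) + (1 - t) * w ^ (1 + η)) := by
    rw [hαv, hβw, Real.mul_rpow hv0.le hM0.le, Real.mul_rpow hw0.le hM0.le]
    ring
  rw [hA]
  have hpos1 : 0 < 1 + η := by linarith
  have hy0 : 0 ≤ η * D ^ 2 := by positivity
  have hD2 : D ^ 2 ≤ 1 := by
    have := sq_abs D
    nlinarith [abs_nonneg D]
  have hy1 : η * D ^ 2 ≤ 1 / 4 := by nlinarith
  have hmono : (M ^ (1 + η) * (1 + η * D ^ 2)) ^ (1 / (1 + η)) ≤
      (M ^ (1 + η) * (t * v ^ (1 + η) + (1 - t) * w ^ (1 + η))) ^ (1 / (1 + η)) := by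
    apply Real.rpow_le_rpow
    · positivity
    · apply mul_le_mul_of_nonneg_left hp
      positivity
    · positivity
  refine le_trans ?_ hmono
  rw [Real.mul_rpow (by positivity) (by linarith), ← Real.rpow_mul hM0.le,
    mul_one_div_cancel hpos1.ne', Real.rpow_one]
  apply mul_le_mul_of_nonneg_left _ hM0.le
  rw [Real.rpow_def_of_pos (by linarith)]
  apply Real.exp_le_exp.2
  have hlog : η * D ^ 2 / (1 + η * D ^ 2) ≤ Real.log (1 + η * D ^ 2) := by
    have := Real.one_sub_inv_le_log_of_pos (show 0 < 1 + η * D ^ 2 by linarith)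
    have e : 1 - (1 + η * D ^ 2)⁻¹ = η * D ^ 2 / (1 + η * D ^ 2) := by
      field_simp
      ring
    linarith
  have h5 : η * D ^ 2 * (4 / 5) ≤ η * D ^ 2 / (1 + η * D ^ 2) := by
    rw [le_div_iff₀ (by linarith)]
    nlinarith
  have h6 : (4 / 5 : ℝ) ≤ 1 / (1 + η) := by
    rw [le_div_iff₀ hpos1]
    linarith
  have h7 : η * D ^ 2 * (4 / 5) * (4 / 5) ≤ Real.log (1 + η * D ^ 2) * (1 / (1 + η)) := by
    apply mul_le_mul (h5.trans hlog) h6 (by norm_num)
    exact le_trans (by positivity) (h5.trans hlog)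
  nlinarith

/-- the coupling inequality. -/
lemma coup_p {s : ℕ} {η S : ℝ} (t α β : Fin s → ℝ) (h0 : ∀ j, 0 ≤ t j) (h4 : ∀ j, t j ≤ 1 / 2)
    (hS : 4 ≤ S) (hη : 2 ≤ η * (S - 1) ^ 2) (hη1 : η ≤ 1 / 4)
    (hΛ : S ≤ ∑ j, t j) (hα : ∀ j, 0 < α j) (hβ : ∀ j, 0 < β j) :
    ∑ i, (t i / ∑ j, t j) * (α i * ∏ j ∈ univ.erase i,
      (piw (∑ j, t j) (t j) * α j + (1 - piw (∑ j, t j) (t j)) * β j)) ≤
      ∏ j, (t j * α j ^ (1 + η) + (1 - t j) * β j ^ (1 + η)) ^ (1 / (1 + η)) := by
  set Λ := ∑ j, t j with hΛd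
  have hΛ4 : 4 ≤ Λ := hS.trans hΛ
  have hΛ0 : 0 < Λ := by linarith
  have hη0 : 0 < η := by
    by_contra h
    push Not at h
    have : η * (S - 1) ^ 2 ≤ 0 := mul_nonpos_of_nonpos_of_nonneg h (sq_nonneg _)
    linarith
  have hηΛ : 2 ≤ η * (Λ - 1) ^ 2 := by
    refine hη.trans ?_
    apply mul_le_mul_of_nonneg_left _ hη0.le
    apply pow_le_pow_left₀ (by linarith)
    linarith
  have hb := fun j => piw_bd_half (by linarith : (1 : ℝ) ≤ Λ) (h0 j) (h4 j)
  set ψ : Fin s → ℝ := fun j => piw Λ (t j) * α j + (1 - piw Λ (t j)) * β j with hψ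
  have hψ0 : ∀ j, 0 < ψ j := by
    intro j
    have h1 : 0 < (1 - piw Λ (t j)) * β j := mul_pos (by linarith [(hb j).2.1]) (hβ j)
    have h2 : 0 ≤ piw Λ (t j) * α j := mul_nonneg (hb j).1 (hα j).le
    simp only [hψ]
    linarith
  set M : Fin s → ℝ := fun j => t j * α j + (1 - t j) * β j with hM
  have hMψ : ∀ j, M j = ψ j * (1 - t j / Λ) + t j / Λ * α j := by
    intro j
    have e1 : ψ j * (1 - t j / Λ) + t j / Λ * α j =
        (piw Λ (t j) + t j / Λ * (1 - piw Λ (t j))) * α j +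
        (1 - (piw Λ (t j) + t j / Λ * (1 - piw Λ (t j)))) * β j := by
      simp only [hψ]; ring
    rw [e1, (hb j).2.2.1]
  have hprod : ∀ i, (t i / Λ) * (α i * ∏ j ∈ univ.erase i, ψ j) =
      (∏ j, ψ j) * (M i / ψ i - 1 + t i / Λ) := by
    intro i
    have h1 : M i / ψ i - 1 + t i / Λ = (t i / Λ) * α i / ψ i := by
      rw [hMψ i]
      have := (hψ0 i).ne'
      field_simp
      ring
    rw [h1, ← Finset.mul_prod_erase univ ψ (Finset.mem_univ i)]
    have := (hψ0 i).ne'
    field_simp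
  have hsum : ∑ i, (t i / Λ) * (α i * ∏ j ∈ univ.erase i, ψ j) =
      (∏ j, ψ j) * (1 + ∑ i, (M i / ψ i - 1)) := by
    simp_rw [hprod]
    rw [← Finset.mul_sum, Finset.sum_add_distrib, ← Finset.sum_div, ← hΛd, div_self hΛ0.ne']
    ring
  rw [hsum]
  have h1 : (∏ j, ψ j) * (1 + ∑ i, (M i / ψ i - 1)) ≤
      ∏ j, ψ j * Real.exp (M j / ψ j - 1) := by
    rw [Finset.prod_mul_distrib, ← Real.exp_sum]
    apply mul_le_mul_of_nonneg_left _ (Finset.prod_nonneg fun j _ => (hψ0 j).le)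
    have := Real.add_one_le_exp (∑ i, (M i / ψ i - 1))
    linarith
  refine h1.trans ?_
  apply Finset.prod_le_prod
  · intro j _
    exact mul_nonneg (hψ0 j).le (Real.exp_pos _).le
  · intro j _
    exact one_part_p (h0 j) (h4 j) hΛ4 hηΛ hη1 (hα j) (hβ j)

lemma phi_pos {τ : ℕ → Finset ℕ → ℝ} {θ : ℝ} (h0 : ∀ i A, 0 ≤ τ i A)
    (h1 : ∀ i A, τ i A ≤ 1 / 2) (i n : ℕ) (A : Finset ℕ) : 0 < phi τ θ i n A := by
  induction n generalizing A with
  | zero => unfold phi; exact Real.exp_pos _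
  | succ n ih =>
    unfold phi
    have hA := ih A
    have hI := ih (insert (i - (n + 1)) A)
    have ht0 := h0 (i - (n + 1)) A
    have ht1 := h1 (i - (n + 1)) A
    have h2 : 0 < (1 - τ (i - (n + 1)) A) * phi τ θ i n A := mul_pos (by linarith) hA
    have h3 := mul_nonneg ht0 hI.le
    linarith

/-- potential. -/
noncomputable def PsiP {s : ℕ} (τ : ℕ → Finset ℕ → ℝ) (η lam S : ℝ) (k l : ℕ)
    (T : Fin s → Finset ℕ) : ℝ :=
  ∑ i ∈ Finset.Ico l k, Real.exp (lam * S) *
    ∏ j, (phi τ ((1 + η) * lam) i (i - l) (T j)) ^ (1 / (1 + η))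

/-- one step of the coupled process. -/
lemma step_coup_p {s : ℕ} {τ : ℕ → Finset ℕ → ℝ} {S η lam : ℝ} (hS : 4 ≤ S)
    (hη : 2 ≤ η * (S - 1) ^ 2) (hη1 : η ≤ 1 / 4) (hlam : 0 < lam)
    (h0 : ∀ i A, 0 ≤ τ i A) (h1 : ∀ i A, τ i A ≤ 1 / 2) {k l : ℕ}
    (hl : l < k) (T0 : Fin s → Finset ℕ) (hPsi : PsiP τ η lam S k l T0 < 1) :
    ∃ T : Finset (Fin s), T.Nonempty ∧ (∀ j ∈ T, 0 < τ l (T0 j)) ∧
      PsiP τ η lam S k (l + 1) (fun j => if j ∈ T then insert l (T0 j) else T0 j) < 1 := by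
  have hη0 : 0 < η := by
    by_contra h
    push Not at h
    have : η * (S - 1) ^ 2 ≤ 0 := mul_nonpos_of_nonpos_of_nonneg h (sq_nonneg _)
    linarith
  have hpos1 : 0 < 1 + η := by linarith
  -- notation
  set t : Fin s → ℝ := fun j => τ l (T0 j) with ht
  have ht0 : ∀ j, 0 ≤ t j := fun j => h0 _ _
  have ht4 : ∀ j, t j ≤ 1 / 2 := fun j => h1 _ _
  set θ := (1 + η) * lam with hθ
  set q := 1 / (1 + η) with hq
  have hphi_pos : ∀ i n A, 0 < phi τ θ i n A := fun i n A => phi_pos h0 h1 i n A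
  have hterm_nonneg : ∀ i, 0 ≤ Real.exp (lam * S) * ∏ j, (phi τ θ i (i - l) (T0 j)) ^ q := by
    intro i
    apply mul_nonneg (Real.exp_pos _).le
    exact Finset.prod_nonneg fun j _ => Real.rpow_nonneg (hphi_pos _ _ _).le _
  have hPsi_eq : PsiP τ η lam S k l T0 =
      Real.exp (lam * S) * ∏ j, (phi τ θ l (l - l) (T0 j)) ^ q +
      ∑ i ∈ Finset.Ico (l + 1) k, Real.exp (lam * S) *
        ∏ j, (phi τ θ i (i - l) (T0 j)) ^ q := by
    unfold PsiP
    rw [Finset.sum_eq_sum_Ico_succ_bot hl]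
  have hrest_nonneg : 0 ≤ ∑ i ∈ Finset.Ico (l + 1) k, Real.exp (lam * S) *
        ∏ j, (phi τ θ i (i - l) (T0 j)) ^ q := Finset.sum_nonneg fun i _ => hterm_nonneg i
  -- Λ ≥ S
  have hΛS : S ≤ ∑ j, t j := by
    by_contra hcon
    push Not at hcon
    have h2 : Real.exp (lam * S) * ∏ j, (phi τ θ l (l - l) (T0 j)) ^ q < 1 := by linarith
    have h3 : ∏ j, (phi τ θ l (l - l) (T0 j)) ^ q = Real.exp (-lam * ∑ j, t j) := by
      rw [mul_sum, Real.exp_sum]
      apply Finset.prod_congr rfl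
      intro j _
      rw [Nat.sub_self, phi, ← Real.exp_mul]
      congr 1
      simp only [ht, hθ, hq]
      field_simp
    rw [h3, ← Real.exp_add] at h2
    have h4 : lam * S + -lam * ∑ j, t j < 0 := by
      by_contra h5
      push Not at h5
      have := Real.one_le_exp h5
      linarith
    nlinarith
  set Λ := ∑ j, t j with hΛd
  have hΛ : 1 ≤ Λ := by linarith
  have hΛ0 : 0 < Λ := by linarith
  have hb := fun j => piw_bd_half hΛ (ht0 j) (ht4 j)
  -- weights
  set w : Fin s → Finset (Fin s) → ℝ := fun i T' =>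
    (t i / Λ) * ((∏ j ∈ T', piw Λ (t j)) * ∏ j ∈ (univ.erase i) \ T', (1 - piw Λ (t j))) with hw
  have hw0 : ∀ i T', 0 ≤ w i T' := by
    intro i T'
    apply mul_nonneg (div_nonneg (ht0 i) hΛ0.le)
    apply mul_nonneg
    · exact Finset.prod_nonneg fun j _ => (hb j).1
    · exact Finset.prod_nonneg fun j _ => by linarith [(hb j).2.1]
  -- expectation of a product functional
  have hexpect : ∀ α β : Fin s → ℝ, ∑ i, ∑ T' ∈ (univ.erase i).powerset,
      w i T' * ∏ j, (if j ∈ insert i T' then α j else β j) =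
      ∑ i, (t i / Λ) * (α i * ∏ j ∈ univ.erase i,
        (piw Λ (t j) * α j + (1 - piw Λ (t j)) * β j)) := by
    intro α β
    apply Finset.sum_congr rfl
    intro i _
    rw [Finset.prod_add, mul_sum, mul_sum]
    apply Finset.sum_congr rfl
    intro T' hT'
    have hT'' : T' ⊆ univ.erase i := Finset.mem_powerset.1 hT'
    have hiT' : i ∉ T' := fun h => (Finset.mem_erase.1 (hT'' h)).1 rfl
    have hsplit : ∏ j, (if j ∈ insert i T' then α j else β j) =
        α i * ((∏ j ∈ T', α j) * ∏ j ∈ (univ.erase i) \ T', β j) := by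
      rw [← Finset.mul_prod_erase univ _ (Finset.mem_univ i), if_pos (Finset.mem_insert_self _ _)]
      congr 1
      rw [← Finset.prod_sdiff hT'', mul_comm]
      congr 1
      · apply Finset.prod_congr rfl
        intro j hj
        rw [if_pos (Finset.mem_insert_of_mem hj)]
      · apply Finset.prod_congr rfl
        intro j hj
        rw [Finset.mem_sdiff, Finset.mem_erase] at hj
        rw [if_neg]
        rw [Finset.mem_insert]
        rintro (h | h)
        · exact hj.1.1 h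
        · exact hj.2 h
    rw [hsplit, Finset.prod_mul_distrib, Finset.prod_mul_distrib]
    simp only [hw]
    ring
  -- total weight one
  have hw1 : ∑ i, ∑ T' ∈ (univ.erase i).powerset, w i T' = 1 := by
    have h2 := hexpect (fun _ => 1) (fun _ => 1)
    have h3 : ∀ i : Fin s, ∀ T' : Finset (Fin s),
        ∏ j, (if j ∈ insert i T' then (1 : ℝ) else 1) = 1 := by
      intro i T'
      simp
    simp only [h3, mul_one] at h2
    rw [h2]
    have h4 : ∀ i : Fin s, ∏ j ∈ univ.erase i, (piw Λ (t j) + (1 - piw Λ (t j))) = 1 := by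
      intro i
      apply Finset.prod_eq_one
      intro j _
      ring
    simp only [h4, mul_one]
    rw [← Finset.sum_div, ← hΛd, div_self hΛ0.ne']
  -- one target
  have htarget : ∀ i ∈ Finset.Ico (l + 1) k, ∑ i', ∑ T' ∈ (univ.erase i').powerset,
      w i' T' * (Real.exp (lam * S) * ∏ j, (phi τ θ i (i - (l + 1))
        (if j ∈ insert i' T' then insert l (T0 j) else T0 j)) ^ q) ≤
      Real.exp (lam * S) * ∏ j, (phi τ θ i (i - l) (T0 j)) ^ q := by
    intro i hi
    rw [Finset.mem_Ico] at hi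
    set a : Fin s → ℝ := fun j => phi τ θ i (i - (l + 1)) (insert l (T0 j)) with ha
    set b : Fin s → ℝ := fun j => phi τ θ i (i - (l + 1)) (T0 j) with hbd
    have ha0 : ∀ j, 0 < a j := fun j => hphi_pos _ _ _
    have hb0 : ∀ j, 0 < b j := fun j => hphi_pos _ _ _
    have hphi : ∀ j, phi τ θ i (i - l) (T0 j) = t j * a j + (1 - t j) * b j := by
      intro j
      have e1 : i - l = (i - (l + 1)) + 1 := by omega
      rw [e1, phi]
      have e2 : i - (i - (l + 1) + 1) = l := by omega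
      rw [e2]
    have hfun : ∀ (i' : Fin s) (T' : Finset (Fin s)), ∏ j, (phi τ θ i (i - (l + 1))
        (if j ∈ insert i' T' then insert l (T0 j) else T0 j)) ^ q =
        ∏ j, (if j ∈ insert i' T' then (a j) ^ q else (b j) ^ q) := by
      intro i' T'
      apply Finset.prod_congr rfl
      intro j _
      split_ifs <;> rfl
    have h5 : ∑ i', ∑ T' ∈ (univ.erase i').powerset,
        w i' T' * (Real.exp (lam * S) * ∏ j, (phi τ θ i (i - (l + 1))
          (if j ∈ insert i' T' then insert l (T0 j) else T0 j)) ^ q) =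
        Real.exp (lam * S) * ∑ i', ∑ T' ∈ (univ.erase i').powerset,
          w i' T' * ∏ j, (if j ∈ insert i' T' then (a j) ^ q else (b j) ^ q) := by
      simp_rw [hfun, mul_sum]
      apply Finset.sum_congr rfl
      intro i' _
      apply Finset.sum_congr rfl
      intro T' _
      ring
    rw [h5, hexpect (fun j => (a j) ^ q) (fun j => (b j) ^ q)]
    apply mul_le_mul_of_nonneg_left _ (Real.exp_pos _).le
    have h6 := coup_p (η := η) t (fun j => (a j) ^ q) (fun j => (b j) ^ q) ht0 ht4 hS hη hη1 hΛS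
      (fun j => Real.rpow_pos_of_pos (ha0 j) _) (fun j => Real.rpow_pos_of_pos (hb0 j) _)
    refine h6.trans (le_of_eq ?_)
    apply Finset.prod_congr rfl
    intro j _
    have hqp : q * (1 + η) = 1 := by rw [hq]; field_simp
    rw [hphi j, ← Real.rpow_mul (ha0 j).le, ← Real.rpow_mul (hb0 j).le, hqp, Real.rpow_one,
      Real.rpow_one]
  -- average of the potential
  have havg : ∑ i', ∑ T' ∈ (univ.erase i').powerset, w i' T' *
      PsiP τ η lam S k (l + 1) (fun j => if j ∈ insert i' T' then insert l (T0 j) else T0 j) < 1 := by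
    have h2 : ∑ i', ∑ T' ∈ (univ.erase i').powerset, w i' T' *
        PsiP τ η lam S k (l + 1)
          (fun j => if j ∈ insert i' T' then insert l (T0 j) else T0 j) =
        ∑ i ∈ Finset.Ico (l + 1) k, ∑ i', ∑ T' ∈ (univ.erase i').powerset,
          w i' T' * (Real.exp (lam * S) * ∏ j, (phi τ θ i (i - (l + 1))
            (if j ∈ insert i' T' then insert l (T0 j) else T0 j)) ^ q) := by
      unfold PsiP
      simp_rw [mul_sum]
      rw [Finset.sum_comm]
      apply Finset.sum_congr rfl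
      intro i' _
      rw [Finset.sum_comm]
    rw [h2]
    refine lt_of_le_of_lt (Finset.sum_le_sum htarget) ?_
    have h3 := hterm_nonneg l
    rw [hPsi_eq] at hPsi
    linarith
  -- choose a good outcome
  by_contra hcon
  push Not at hcon
  have hge : ∀ i' : Fin s, ∀ T' ∈ (univ.erase i').powerset, w i' T' ≤ w i' T' *
      PsiP τ η lam S k (l + 1)
        (fun j => if j ∈ insert i' T' then insert l (T0 j) else T0 j) := by
    intro i' T' hT'
    rcases (hw0 i' T').eq_or_lt with h | h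
    · rw [← h]; simp
    · have hpos : ∀ j ∈ insert i' T', 0 < τ l (T0 j) := by
        intro j hj
        rw [Finset.mem_insert] at hj
        rcases hj with hj | hj
        · subst hj
          by_contra h5
          have h6 : t j = 0 := le_antisymm (not_lt.1 h5) (ht0 j)
          have : w j T' = 0 := by
            simp only [hw]
            rw [h6]
            simp
          linarith
        · by_contra h5
          have h6 : t j = 0 := le_antisymm (not_lt.1 h5) (ht0 j)
          have h7 : piw Λ (t j) = 0 := by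
            rw [h6]; unfold piw; simp
          have : w i' T' = 0 := by
            simp only [hw]
            rw [Finset.prod_eq_zero hj h7]
            simp
          linarith
      have h8 := hcon (insert i' T') ⟨i', Finset.mem_insert_self _ _⟩ hpos
      nlinarith
  have hfin : (1 : ℝ) ≤ ∑ i', ∑ T' ∈ (univ.erase i').powerset, w i' T' *
      PsiP τ η lam S k (l + 1)
        (fun j => if j ∈ insert i' T' then insert l (T0 j) else T0 j) := by
    rw [← hw1]
    apply Finset.sum_le_sum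
    intro i' _
    apply Finset.sum_le_sum
    intro T' hT'
    exact hge i' T' hT'
  linarith

/-- D6.  The coupling of `s` particles with exponent `1 + η`. -/
theorem chain_p (s k : ℕ) (τ : ℕ → Finset ℕ → ℝ) (S η lam : ℝ) (hS : 4 ≤ S)
    (hη : 2 ≤ η * (S - 1) ^ 2) (hη1 : η ≤ 1 / 4) (hlam : 0 < lam)
    (h0 : ∀ i A, 0 ≤ τ i A) (h1 : ∀ i A, τ i A ≤ 1 / 2)
    (hstart : ∑ i ∈ range k, Real.exp (lam * S) * (∑ A ∈ (range i).powerset,
      chP τ i A * Real.exp (-((1 + η) * lam * τ i A))) ^ ((s : ℝ) / (1 + η)) < 1) :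
    ∃ T : Fin s → Finset ℕ, (∀ i < k, ∃ j, i ∈ T j) ∧
      ∀ j, T j ⊆ range k ∧ ∀ i ∈ T j, 0 < τ i ((T j).filter (· < i)) := by
  have hstart : PsiP τ η lam S k 0 (fun _ : Fin s => (∅ : Finset ℕ)) < 1 := by
    refine lt_of_le_of_lt (le_of_eq ?_) hstart
    unfold PsiP
    rw [Finset.range_eq_Ico]
    apply Finset.sum_congr rfl
    intro i _
    rw [Finset.prod_const, Finset.card_univ, Fintype.card_fin, Nat.sub_zero,
      ← sum_chP_phi τ _ i i le_rfl, Nat.sub_self]
    simp only [phi]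
    congr 1
    rw [← Real.rpow_natCast, ← Real.rpow_mul]
    · congr 1
      ring
    · apply Finset.sum_nonneg
      intro A _
      apply mul_nonneg _ (Real.exp_pos _).le
      unfold chP
      apply Finset.prod_nonneg
      intro x _
      split_ifs
      · exact h0 _ _
      · have := h1 x (A.filter (· < x))
        linarith
  -- induction
  have hind : ∀ l ≤ k, ∃ T : Fin s → Finset ℕ, PsiP τ η lam S k l T < 1 ∧
      (∀ i < l, ∃ j, i ∈ T j) ∧
      ∀ j, T j ⊆ range l ∧ ∀ i ∈ T j, 0 < τ i ((T j).filter (· < i)) := by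
    intro l
    induction l with
    | zero =>
      intro _
      exact ⟨fun _ => ∅, hstart, fun i hi => absurd hi (Nat.not_lt_zero i),
        fun j => ⟨by simp, by simp⟩⟩
    | succ l ih =>
      intro hl
      obtain ⟨T0, hS1, hS2, hS3⟩ := ih (by omega)
      obtain ⟨T, hT1, hT2, hT3⟩ := step_coup_p hS hη hη1 hlam h0 h1 (by omega : l < k) T0 hS1
      refine ⟨fun j => if j ∈ T then insert l (T0 j) else T0 j, hT3, ?_, ?_⟩
      · intro i hi
        rcases Nat.lt_succ_iff_lt_or_eq.1 hi with h | h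
        · obtain ⟨j, hj⟩ := hS2 i h
          refine ⟨j, ?_⟩
          dsimp only
          split_ifs
          · exact Finset.mem_insert_of_mem hj
          · exact hj
        · obtain ⟨j, hj⟩ := hT1
          refine ⟨j, ?_⟩
          dsimp only
          rw [if_pos hj, h]
          exact Finset.mem_insert_self _ _
      · intro j
        have hSj := (hS3 j).1
        have hSj' : T0 j ⊆ range (l + 1) := by
          rw [Finset.range_add_one]
          exact hSj.trans (Finset.subset_insert _ _)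
        dsimp only
        split_ifs with hj
        · constructor
          · apply Finset.insert_subset _ hSj'
            exact Finset.mem_range.2 (by omega)
          · intro i hi
            rw [Finset.mem_insert] at hi
            rcases hi with hi | hi
            · subst hi
              have : (insert i (T0 j)).filter (· < i) = T0 j := by
                rw [Finset.filter_insert, if_neg (lt_irrefl i), filter_lt_of_subset hSj]
              rw [this]
              exact hT2 j hj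
            · have hil : i < l := Finset.mem_range.1 (hSj hi)
              have : (insert l (T0 j)).filter (· < i) = (T0 j).filter (· < i) := by
                rw [Finset.filter_insert, if_neg (by omega)]
              rw [this]
              exact (hS3 j).2 i hi
        · exact ⟨hSj', (hS3 j).2⟩
  obtain ⟨T, _, hS2, hS3⟩ := hind k le_rfl
  exact ⟨T, hS2, hS3⟩

end LocTr
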