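import Pool.Agent.Work.MP_a8cb64_co.DDefs
import Pool.Agent.Work.MP_a8cb64_co.LM4

/-!
MP_a8cb64_co, Theorem D (helper71, note 2363): module D7 (helper80), assembly of the lower bound for
`s ≥ C (1+K)^{3/2}` from the statements of D1 - D6.
-/

namespace LocTr

open Finset

/-- statement of D1 -/
def InfoStmt : Prop := ∀ (W k : ℕ) (β : ℝ), 2 ≤ W → 0 < β → β ≤ 1 / 4 →
    ∃ r0 : ℕ, ∀ r : ℕ, r0 ≤ r →
    ∃ H : Finset (Finset ℕ), (∀ e ∈ H, e ⊆ range (W * r) ∧ e.card = r) ∧
      (∀ Q : Finset ℕ, Q ⊆ range (W * r) → (1 - β) * (W * r) ≤ Q.card → ∃ e ∈ H, e ⊆ Q) ∧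
      (∀ J : Finset (Finset ℕ), J ⊆ H → J.card ≤ k →
        infoG (W * r) r J ≤ 5 * β * r * J.card)

/-- statement of D2a -/
def InfoNonnegStmt : Prop := ∀ (n r : ℕ) (J : Finset (Finset ℕ)),
    (∀ A ∈ J, A ⊆ range n ∧ A.card = r) → 0 ≤ infoG n r J

/-- statement of D2b -/
def InfoSuperStmt : Prop := ∀ (n r : ℕ) (J J' : Finset (Finset ℕ)) (e : Finset ℕ),
    (∀ A ∈ J', A ⊆ range n ∧ A.card = r) → (e ⊆ range n ∧ e.card = r) → J ⊆ J' → e ∉ J' →
    infoG n r (insert e J) - infoG n r J ≤ infoG n r (insert e J') - infoG n r J'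

/-- statement of D3 -/
def InfoOrderStmt : Prop := ∀ (G : Finset (Finset ℕ) → ℝ) (F : Finset (Finset ℕ)) (b u : ℝ),
    0 < u → u < 1 → (∀ J ⊆ F, 0 ≤ G J) → (∀ J ⊆ F, G J ≤ b * J.card) →
    (∀ J J' : Finset (Finset ℕ), ∀ e ∈ F, J ⊆ J' → J' ⊆ F → e ∉ J' →
      G (insert e J) - G J ≤ G (insert e J') - G J') →
    ∃ g : ℕ → Finset ℕ, Set.InjOn g (range F.card) ∧ (range F.card).image g = F ∧
      ∀ i < F.card, ∑ J ∈ (range i).powerset, u ^ J.card * (1 - u) ^ (i - J.card) *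
        (G (insert (g i) (J.image g)) - G (J.image g)) ≤ b / (1 - u)

/-- statement of D4 -/
def LowInfoStmt : Prop := ∀ (W r : ℕ), 2 ≤ W → 1 ≤ r → ∀ (J : Finset (Finset ℕ)) (e : Finset ℕ),
    (∀ A ∈ J, A ⊆ range (W * r) ∧ A.card = r) → (e ⊆ range (W * r) ∧ e.card = r) → e ∉ J →
    ((loPts 10 W (range (W * r)) J e).card : ℝ) / (2 * W) ≤
      infoG (W * r) r (insert e J) - infoG (W * r) r J

/-- statement of D5a -/
def ChainExpStmt : Prop := ∀ (U : Finset ℕ) (e : ℕ → Finset ℕ) (u δ θ : ℝ) (d W r k : ℕ), 0 < u →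
    u < 1 → 1 ≤ d → 1 ≤ W → 1 ≤ r → U.card = W * r → 0 ≤ θ →
    (∀ i < k, e i ⊆ U ∧ (e i).card = r) →
    (∀ i < k, ∑ J ∈ (range i).powerset,
        u ^ J.card * (1 - u) ^ (i - J.card) * ((loPts d W U (J.image e) (e i)).card : ℝ) ≤
          δ * U.card) →
    ∀ i : ℕ, i < k →
    ∑ A ∈ (range i).powerset, chP (tauw U e u 1) i A *
        Real.exp (-(θ * tauw U e u 1 i A)) ≤
      2 * δ + Real.exp (-(θ * u / (2 * d * W)))

/-- statement of D5b -/
def TauBdStmt : Prop := ∀ (U : Finset ℕ) (e : ℕ → Finset ℕ) (u : ℝ), 0 < u → u < 1 →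
    ∀ (i : ℕ) (A : Finset ℕ), 0 ≤ tauw U e u 1 i A ∧ tauw U e u 1 i A ≤ u

/-- statement of D5c -/
def ChainPointStmt : Prop := ∀ (U : Finset ℕ) (e : ℕ → Finset ℕ) (u : ℝ), 0 < u → u < 1 →
    U.Nonempty → ∀ (k : ℕ) (S : Finset ℕ), S ⊆ range k →
    (∀ i ∈ S, 0 < tauw U e u 1 i (S.filter (· < i))) → ∃ x ∈ U, ∀ i ∈ S, x ∈ e i

/-- statement of D6 -/
def ChainPStmt : Prop := ∀ (s k : ℕ) (τ : ℕ → Finset ℕ → ℝ) (S η lam : ℝ), 4 ≤ S →
    2 ≤ η * (S - 1) ^ 2 → η ≤ 1 / 4 → 0 < lam →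
    (∀ i A, 0 ≤ τ i A) → (∀ i A, τ i A ≤ 1 / 2) →
    (∑ i ∈ range k, Real.exp (lam * S) * (∑ A ∈ (range i).powerset,
      chP τ i A * Real.exp (-((1 + η) * lam * τ i A))) ^ ((s : ℝ) / (1 + η)) < 1) →
    ∃ T : Fin s → Finset ℕ, (∀ i < k, ∃ j, i ∈ T j) ∧
      ∀ j, T j ⊆ range k ∧ ∀ i ∈ T j, 0 < τ i ((T j).filter (· < i))

/-- `chP` is nonnegative -/
theorem chP_nonneg_of (τ : ℕ → Finset ℕ → ℝ) (h0 : ∀ i A, 0 ≤ τ i A) (h1 : ∀ i A, τ i A ≤ 1)
    (i : ℕ) (A : Finset ℕ) : 0 ≤ chP τ i A := by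
  unfold chP
  apply Finset.prod_nonneg
  intro l _
  split_ifs
  · exact h0 _ _
  · have := h1 l (A.filter (· < l))
    linarith

/-- the numerical condition -/
theorem lower_num (K s S η lam W : ℝ) (k : ℕ) (hK : 0 ≤ K) (hs : 0 < s)
    (hk : (k : ℝ) ≤ Real.exp (K * s)) (hη : η = 1 / (K + 8))
    (hlam : lam = 40 * W * (K + 6) / (1 + η)) (hW : W * (10 * S * (K + 6)) ≤ s) :
    (k : ℝ) * (Real.exp (lam * S) * (2 * Real.exp (-(K + 6))) ^ (s / (1 + η))) < 1 := by
  have hη0 : 0 < η := by rw [hη]; positivity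
  have hKη : K * η ≤ 1 := by
    rw [hη, mul_one_div, div_le_one (by linarith)]
    linarith
  have h2 : (2 : ℝ) * Real.exp (-(K + 6)) = Real.exp (Real.log 2 - (K + 6)) := by
    rw [sub_eq_add_neg, Real.exp_add, Real.exp_log (by norm_num)]
  rw [h2, ← Real.exp_mul, ← Real.exp_add]
  calc (k : ℝ) * Real.exp (lam * S + (Real.log 2 - (K + 6)) * (s / (1 + η)))
      ≤ Real.exp (K * s) * Real.exp (lam * S + (Real.log 2 - (K + 6)) * (s / (1 + η))) :=
        mul_le_mul_of_nonneg_right hk (Real.exp_pos _).le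
    _ = Real.exp (K * s + (lam * S + (Real.log 2 - (K + 6)) * (s / (1 + η)))) :=
        (Real.exp_add _ _).symm
    _ < 1 := by
      rw [Real.exp_lt_one_iff]
      have hlog : Real.log 2 < 0.6931471808 := Real.log_two_lt_d9
      have hpos : (0 : ℝ) < 1 + η := by linarith
      have h3 : K * s + (lam * S + (Real.log 2 - (K + 6)) * (s / (1 + η))) =
          (K * s * (1 + η) + 4 * (W * (10 * S * (K + 6))) + (Real.log 2 - (K + 6)) * s) /
            (1 + η) := by
        rw [hlam]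
        field_simp
        ring
      rw [h3]
      apply div_neg_of_neg_of_pos _ hpos
      have h4 : K * s * (1 + η) ≤ K * s + s := by
        have : K * s * η ≤ s := by
          calc K * s * η = (K * η) * s := by ring
            _ ≤ 1 * s := mul_le_mul_of_nonneg_right hKη hs.le
            _ = s := one_mul s
        linarith
      nlinarith

/-- the local property of the random hypergraph -/
theorem info_loc (h2a : InfoNonnegStmt) (h2b : InfoSuperStmt) (h3 : InfoOrderStmt)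
    (h4 : LowInfoStmt) (h5a : ChainExpStmt) (h5b : TauBdStmt) (h5c : ChainPointStmt)
    (h6 : ChainPStmt)
    (s k r W : ℕ) (K S η lam β : ℝ) (H : Finset (Finset ℕ)) (hs : 1 ≤ s) (hK : 0 ≤ K)
    (hk : (k : ℝ) ≤ Real.exp (K * s)) (hr : 1 ≤ r) (hW2 : 2 ≤ W)
    (hS : S = 1 + Real.sqrt (2 * (K + 8))) (hη : η = 1 / (K + 8))
    (hlam : lam = 40 * W * (K + 6) / (1 + η)) (hW : (W : ℝ) * (10 * S * (K + 6)) ≤ s)
    (hβ : β = Real.exp (-(K + 6)) / 40)
    (hH : ∀ e ∈ H, e ⊆ range (W * r) ∧ e.card = r)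
    (hP : ∀ J : Finset (Finset ℕ), J ⊆ H → J.card ≤ k →
        infoG (W * r) r J ≤ 5 * β * r * J.card) : LocProp k s H := by
  classical
  intro F hFH hFk
  have hsR : (0 : ℝ) < s := by exact_mod_cast hs
  have hrR : (0 : ℝ) < r := by exact_mod_cast hr
  have hWR : (0 : ℝ) < W := by
    have : 0 < W := by omega
    exact_mod_cast this
  have hη0 : 0 < η := by rw [hη]; positivity
  obtain ⟨g, hgi, hgF, hg⟩ := h3 (infoG (W * r) r) F (5 * β * r) (1 / 2) (by norm_num)
    (by norm_num)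
    (fun J hJ => h2a _ _ J fun A hA => hH A (hFH (hJ hA)))
    (fun J hJ => hP J (hJ.trans hFH) ((Finset.card_le_card hJ).trans hFk))
    (fun J J' e he hJJ' hJ'F heJ' => h2b _ _ J J' e (fun A hA => hH A (hFH (hJ'F hA)))
      (hH e (hFH he)) hJJ' heJ')
  have hgm : ∀ i < F.card, g i ∈ F := by
    intro i hi
    rw [← hgF]
    exact Finset.mem_image_of_mem _ (Finset.mem_range.2 hi)
  have he : ∀ i < F.card, g i ⊆ range (W * r) ∧ (g i).card = r := fun i hi => hH _ (hFH (hgm i hi))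
  have hi : ∀ i < F.card, ∑ J ∈ (range i).powerset,
        (1 / 2 : ℝ) ^ J.card * (1 - 1 / 2) ^ (i - J.card) *
          ((loPts 10 W (range (W * r)) (J.image g) (g i)).card : ℝ) ≤
            (Real.exp (-(K + 6)) / 2) * (range (W * r)).card := by
    intro i hi
    have hi' := hg i hi
    have h7 : ∑ J ∈ (range i).powerset, (1 / 2 : ℝ) ^ J.card * (1 - 1 / 2) ^ (i - J.card) *
          ((loPts 10 W (range (W * r)) (J.image g) (g i)).card : ℝ) ≤
        ∑ J ∈ (range i).powerset, 2 * W * ((1 / 2 : ℝ) ^ J.card * (1 - 1 / 2) ^ (i - J.card) *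
        (infoG (W * r) r (insert (g i) (J.image g)) - infoG (W * r) r (J.image g))) := by
      apply Finset.sum_le_sum
      intro J hJ
      rw [Finset.mem_powerset] at hJ
      have hJF : ∀ A ∈ J.image g, A ∈ F := by
        intro A hA
        obtain ⟨l, hl, rfl⟩ := Finset.mem_image.1 hA
        exact hgm l ((Finset.mem_range.1 (hJ hl)).trans hi)
      have hnot : g i ∉ J.image g := by
        intro hcon
        obtain ⟨l, hl, hlg⟩ := Finset.mem_image.1 hcon
        have hli : l < i := Finset.mem_range.1 (hJ hl)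
        have := hgi (by simpa using hli.trans hi) (by simpa using hi) hlg
        omega
      have h8 := h4 W r hW2 hr (J.image g) (g i) (fun A hA => hH A (hFH (hJF A hA))) (he i hi) hnot
      rw [div_le_iff₀ (by positivity)] at h8
      calc (1 / 2 : ℝ) ^ J.card * (1 - 1 / 2) ^ (i - J.card) *
          ((loPts 10 W (range (W * r)) (J.image g) (g i)).card : ℝ)
          ≤ (1 / 2 : ℝ) ^ J.card * (1 - 1 / 2) ^ (i - J.card) *
          ((infoG (W * r) r (insert (g i) (J.image g)) - infoG (W * r) r (J.image g)) *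
            (2 * W)) := mul_le_mul_of_nonneg_left h8 (by positivity)
        _ = _ := by ring
    refine h7.trans ?_
    rw [← Finset.mul_sum]
    calc 2 * (W : ℝ) * _ ≤ 2 * (W : ℝ) * (5 * β * r / (1 - 1 / 2)) :=
          mul_le_mul_of_nonneg_left hi' (by positivity)
      _ = (Real.exp (-(K + 6)) / 2) * (range (W * r)).card := by
          rw [hβ, Finset.card_range]
          push_cast
          ring
  have hτ0 : ∀ i A, 0 ≤ tauw (range (W * r)) g (1 / 2) 1 i A := fun i A =>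
    (h5b _ g (1 / 2) (by norm_num) (by norm_num) i A).1
  have hτ1 : ∀ i A, tauw (range (W * r)) g (1 / 2) 1 i A ≤ 1 / 2 := fun i A =>
    (h5b _ g (1 / 2) (by norm_num) (by norm_num) i A).2
  have hS4 : 4 ≤ S := by
    rw [hS]
    have : (3 : ℝ) ≤ Real.sqrt (2 * (K + 8)) := by
      apply Real.le_sqrt_of_sq_le
      nlinarith
    linarith
  have hηS : 2 ≤ η * (S - 1) ^ 2 := by
    have : (S - 1) ^ 2 = 2 * (K + 8) := by
      rw [hS, add_sub_cancel_left, Real.sq_sqrt (by linarith)]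
    rw [this, hη]
    have : (0 : ℝ) < K + 8 := by linarith
    apply le_of_eq
    field_simp
  have hη4 : η ≤ 1 / 4 := by
    rw [hη, div_le_div_iff₀ (by linarith) (by norm_num)]
    linarith
  have hlam0 : 0 < lam := by rw [hlam]; positivity
  have hexp : ∀ i < F.card, ∑ A ∈ (range i).powerset, chP (tauw (range (W * r)) g (1 / 2) 1) i A *
        Real.exp (-((1 + η) * lam * tauw (range (W * r)) g (1 / 2) 1 i A)) ≤
      2 * Real.exp (-(K + 6)) := by
    intro i hiF
    have h9 := h5a (range (W * r)) g (1 / 2) (Real.exp (-(K + 6)) / 2) ((1 + η) * lam) 10 W r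
      F.card (by norm_num) (by norm_num) (by norm_num) (by omega) hr (by simp) (by positivity)
      he hi i hiF
    refine h9.trans ?_
    have h10 : (1 + η) * lam * (1 / 2) / (2 * ((10 : ℕ) : ℝ) * W) = K + 6 := by
      rw [hlam]
      push_cast
      field_simp
      norm_num
    rw [h10]
    linarith
  have hstart : ∑ i ∈ range F.card, Real.exp (lam * S) * (∑ A ∈ (range i).powerset,
      chP (tauw (range (W * r)) g (1 / 2) 1) i A *
        Real.exp (-((1 + η) * lam * tauw (range (W * r)) g (1 / 2) 1 i A))) ^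
          ((s : ℝ) / (1 + η)) < 1 := by
    calc ∑ i ∈ range F.card, Real.exp (lam * S) * (∑ A ∈ (range i).powerset,
        chP (tauw (range (W * r)) g (1 / 2) 1) i A *
        Real.exp (-((1 + η) * lam * tauw (range (W * r)) g (1 / 2) 1 i A))) ^
          ((s : ℝ) / (1 + η))
        ≤ ∑ i ∈ range F.card, Real.exp (lam * S) *
            (2 * Real.exp (-(K + 6))) ^ ((s : ℝ) / (1 + η)) := by
          apply Finset.sum_le_sum
          intro i hi
          apply mul_le_mul_of_nonneg_left _ (Real.exp_pos _).le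
          apply Real.rpow_le_rpow _ (hexp i (Finset.mem_range.1 hi)) (by positivity)
          apply Finset.sum_nonneg
          intro A _
          exact mul_nonneg (chP_nonneg_of _ hτ0 (fun i A => (hτ1 i A).trans (by norm_num)) i A)
            (Real.exp_pos _).le
      _ = (F.card : ℝ) * (Real.exp (lam * S) *
            (2 * Real.exp (-(K + 6))) ^ ((s : ℝ) / (1 + η))) := by
          rw [Finset.sum_const, Finset.card_range, nsmul_eq_mul]
      _ ≤ (k : ℝ) * (Real.exp (lam * S) *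
            (2 * Real.exp (-(K + 6))) ^ ((s : ℝ) / (1 + η))) := by
          apply mul_le_mul_of_nonneg_right (by exact_mod_cast hFk)
          exact mul_nonneg (Real.exp_pos _).le (Real.rpow_nonneg (by positivity) _)
      _ < 1 := lower_num K s S η lam W k hK hsR hk hη hlam hW
  obtain ⟨T, hTcov, hT⟩ := h6 s F.card (tauw (range (W * r)) g (1 / 2) 1) S η lam hS4 hηS hη4
    hlam0 hτ0 hτ1 hstart
  have hne : (range (W * r)).Nonempty := by
    rw [Finset.nonempty_range_iff]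
    exact (Nat.mul_pos (by omega) (by omega)).ne'
  have hpt : ∀ j, ∃ x ∈ range (W * r), ∀ i ∈ T j, x ∈ g i := fun j =>
    h5c (range (W * r)) g (1 / 2) (by norm_num) (by norm_num) hne F.card (T j)
      (hT j).1 (hT j).2
  choose x hxU hx using hpt
  refine ⟨Finset.univ.image x, ?_, ?_⟩
  · exact Finset.card_image_le.trans (by simp)
  · intro f hf
    rw [← hgF] at hf
    obtain ⟨i, hi, rfl⟩ := Finset.mem_image.1 hf
    obtain ⟨j, hj⟩ := hTcov i (Finset.mem_range.1 hi)
    exact ⟨x j, Finset.mem_inter.2 ⟨hx j i hj, Finset.mem_image_of_mem _ (Finset.mem_univ _)⟩⟩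

/-- D7 (file `LD7.lean`).  Assembly of the lower bound for `s ≥ C (1+K)^{3/2}`. -/
theorem lower_big_of (h1 : InfoStmt) (h2a : InfoNonnegStmt) (h2b : InfoSuperStmt)
    (h3 : InfoOrderStmt) (h4 : LowInfoStmt) (h5a : ChainExpStmt) (h5b : TauBdStmt)
    (h5c : ChainPointStmt) (h6 : ChainPStmt) :
    ∃ C : ℝ, 0 < C ∧ ∀ s k : ℕ, 1 ≤ s → s < k → ∀ K : ℝ, 0 ≤ K →
    (k : ℝ) ≤ Real.exp (K * s) → C * (1 + K) ^ (3 / 2 : ℝ) ≤ s → ∃ r0 : ℕ, ∀ r : ℕ, r0 ≤ r →
      (r : ℝ) * s * Real.exp (-K) / (C * (1 + K) ^ (3 / 2 : ℝ)) ≤ (fval r k s : ℝ) := by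
  classical
  refine ⟨24000 * Real.exp 6, by positivity, ?_⟩
  intro s k hs hsk K hK hk hsC
  have hsR : (0 : ℝ) < s := by exact_mod_cast hs
  set S : ℝ := 1 + Real.sqrt (2 * (K + 8)) with hS
  set D : ℝ := (1 + K) ^ (3 / 2 : ℝ) with hD
  have hD0 : 0 < D := by rw [hD]; positivity
  have hDeq : D = (1 + K) * Real.sqrt (1 + K) := by
    rw [hD, Real.sqrt_eq_rpow, show (3 / 2 : ℝ) = 1 + 1 / 2 by norm_num,
      Real.rpow_add (by linarith), Real.rpow_one]
  have hSle : S ≤ 5 * Real.sqrt (1 + K) := by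
    have h1' : (1 : ℝ) ≤ Real.sqrt (1 + K) := by
      apply Real.le_sqrt_of_sq_le
      linarith
    have h2' : Real.sqrt (2 * (K + 8)) ≤ 4 * Real.sqrt (1 + K) := by
      apply Real.sqrt_le_iff.2
      refine ⟨by positivity, ?_⟩
      rw [mul_pow, Real.sq_sqrt (by linarith)]
      linarith
    rw [hS]
    linarith
  have hS1 : 1 ≤ S := by
    rw [hS]
    have := Real.sqrt_nonneg (2 * (K + 8))
    linarith
  have hSK : S * (K + 6) ≤ 30 * D := by
    rw [hDeq]
    have h3' : (0 : ℝ) ≤ Real.sqrt (1 + K) := Real.sqrt_nonneg _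
    calc S * (K + 6) ≤ (5 * Real.sqrt (1 + K)) * (6 * (1 + K)) :=
          mul_le_mul hSle (by linarith) (by linarith) (by positivity)
      _ = 30 * ((1 + K) * Real.sqrt (1 + K)) := by ring
  have hden : 0 < 10 * S * (K + 6) := by positivity
  have he6 : (1 : ℝ) ≤ Real.exp 6 := Real.one_le_exp (by norm_num)
  have hq2 : 2 ≤ (s : ℝ) / (10 * S * (K + 6)) := by
    rw [le_div_iff₀ hden]
    have h5 : 24000 * D ≤ 24000 * Real.exp 6 * D := by nlinarith
    nlinarith
  set W : ℕ := ⌊(s : ℝ) / (10 * S * (K + 6))⌋₊ with hW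
  have hWle : (W : ℝ) ≤ (s : ℝ) / (10 * S * (K + 6)) := Nat.floor_le (by positivity)
  have hWgt : (s : ℝ) / (10 * S * (K + 6)) < W + 1 := Nat.lt_floor_add_one _
  have hW2 : 2 ≤ W := by
    rw [hW]
    exact Nat.le_floor (by exact_mod_cast hq2)
  have hWge : (s : ℝ) / (20 * S * (K + 6)) ≤ W := by
    have h6 : (s : ℝ) / (20 * S * (K + 6)) = (s : ℝ) / (10 * S * (K + 6)) / 2 := by
      rw [div_div]
      congr 1
      ring
    rw [h6]
    linarith
  set β : ℝ := Real.exp (-(K + 6)) / 40 with hβ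
  have hβ0 : 0 < β := by rw [hβ]; positivity
  have hβ4 : β ≤ 1 / 4 := by
    have : Real.exp (-(K + 6)) ≤ 1 := Real.exp_le_one_iff.2 (by linarith)
    rw [hβ]
    linarith
  obtain ⟨r0, hr0⟩ := h1 W k β hW2 hβ0 hβ4
  refine ⟨r0 + 1, ?_⟩
  intro r hr
  obtain ⟨H, hHe, hHQ, hHP⟩ := hr0 r (by omega)
  have hLoc : LocProp k s H := by
    apply info_loc h2a h2b h3 h4 h5a h5b h5c h6 s k r W K S (1 / (K + 8))
      (40 * W * (K + 6) / (1 + 1 / (K + 8))) β H hs hK hk (by omega) hW2 hS rfl rfl _ hβ hHe hHP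
    rw [← le_div_iff₀ hden]
    exact hWle
  have hrR : (0 : ℝ) < r := by
    have : 0 < r := by omega
    exact_mod_cast this
  have hlt := lt_fval r k s ⌊β * (W * r)⌋₊ hsk H (fun e he => (hHe e he).2) hLoc (by
    intro T hTc hT
    have h7 : (T.card : ℝ) ≤ β * (W * r) := by
      calc (T.card : ℝ) ≤ (⌊β * (W * r)⌋₊ : ℝ) := by exact_mod_cast hTc
        _ ≤ β * (W * r) := Nat.floor_le (by positivity)
    have h8 : (1 - β) * (W * r) ≤ ((range (W * r) \ T).card : ℝ) := by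
      have h9 := Finset.le_card_sdiff T (range (W * r))
      rw [Finset.card_range] at h9
      have h10 : (((W * r : ℕ) : ℝ)) ≤ ((range (W * r) \ T).card : ℝ) + T.card := by
        have : W * r ≤ (range (W * r) \ T).card + T.card := by omega
        exact_mod_cast this
      push_cast at h10
      linarith
    obtain ⟨e, heH, heQ⟩ := hHQ _ Finset.sdiff_subset h8
    obtain ⟨x, hx⟩ := hT e heH
    have hx' := Finset.mem_inter.1 hx
    exact (Finset.mem_sdiff.1 (heQ hx'.1)).2 hx'.2)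
  have h11 : β * (W * r) ≤ fval r k s := by
    have h12 := Nat.lt_floor_add_one (β * ((W : ℝ) * r))
    have h13 : ((⌊β * ((W : ℝ) * r)⌋₊ : ℝ) + 1) ≤ fval r k s := by exact_mod_cast hlt
    linarith
  refine le_trans ?_ h11
  have h14 : Real.exp (-(K + 6)) = Real.exp (-K) / Real.exp 6 := by
    rw [← Real.exp_sub]
    congr 1
    ring
  have hE0 := Real.exp_pos (-K)
  have hE6 := Real.exp_pos 6
  calc (r : ℝ) * s * Real.exp (-K) / (24000 * Real.exp 6 * D)
      = (Real.exp (-K) / Real.exp 6 * r / 40) * (s / (600 * D)) := by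
        field_simp
        norm_num
    _ ≤ (Real.exp (-K) / Real.exp 6 * r / 40) * (s / (20 * S * (K + 6))) := by
        apply mul_le_mul_of_nonneg_left _ (by positivity)
        apply div_le_div_of_nonneg_left hsR.le (by positivity)
        nlinarith
    _ ≤ (Real.exp (-K) / Real.exp 6 * r / 40) * W :=
        mul_le_mul_of_nonneg_left hWge (by positivity)
    _ = β * (W * r) := by
        rw [hβ, h14]
        ring

end LocTr
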