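import Pool.Agent.Work.MP_a8cb64_co.LG2
import Pool.Agent.Work.MP_a8cb64_co.LM4

/-!
MP_a8cb64_co, Theorem D (helper71, note 2363): module D9 (helper23).
Upper bound for all `k > s`.
-/

namespace LocTr

open Finset

/-- cut one edge into `M` pieces. -/
theorem tree_step (M : ℕ) (hM : 1 ≤ M) (r k k' s f : ℕ) (hk : 1 + M * k' ≤ k)
    (hrec : ∀ H : Finset (Finset ℕ), (∀ e ∈ H, e.card = r) → LocProp k' s H →
      ∃ T : Finset ℕ, T.card ≤ f ∧ IsTrans H T) (H : Finset (Finset ℕ))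
    (hr : ∀ e ∈ H, e.card = r) (hH : LocProp k (s + 1) H) :
    ∃ T : Finset ℕ, T.card ≤ (r + M - 1) / M + f ∧ IsTrans H T := by
  classical
  rcases H.eq_empty_or_nonempty with hemp | ⟨e0, he0⟩
  · exact ⟨∅, by simp, fun e he => by rw [hemp] at he; exact absurd he (notMem_empty _)⟩
  obtain ⟨c, hc⟩ := exists_groups M hM e0
  rw [hr e0 he0] at hc
  by_cases hex : ∃ a : Fin M, LocProp k' s (H.filter fun e => Disjoint e
      (e0.filter fun x => c x = a))
  · obtain ⟨a, ha⟩ := hex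
    obtain ⟨T, hT, hTr⟩ := hrec _ (fun e he => hr e (mem_filter.1 he).1) ha
    refine ⟨(e0.filter fun x => c x = a) ∪ T, ?_, ?_⟩
    · exact (card_union_le _ _).trans (Nat.add_le_add (hc a) hT)
    · intro e he
      by_cases hd : Disjoint e (e0.filter fun x => c x = a)
      · obtain ⟨x, hx⟩ := hTr e (mem_filter.2 ⟨he, hd⟩)
        exact ⟨x, mem_inter.2 ⟨(mem_inter.1 hx).1, mem_union_right _ (mem_inter.1 hx).2⟩⟩
      · rw [not_disjoint_iff] at hd
        obtain ⟨x, hx, hxP⟩ := hd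
        exact ⟨x, mem_inter.2 ⟨hx, mem_union_left _ hxP⟩⟩
  · exfalso
    push Not at hex
    have hF : ∀ a : Fin M, ∃ F : Finset (Finset ℕ),
        F ⊆ (H.filter fun e => Disjoint e (e0.filter fun x => c x = a)) ∧
        F.card ≤ k' ∧ ∀ T : Finset ℕ, T.card ≤ s → ¬ IsTrans F T := by
      intro a
      have h1 := hex a
      unfold LocProp at h1
      push Not at h1
      exact h1
    choose FF hF1 hF2 hF3 using hF
    have hFsub : insert e0 (univ.biUnion FF) ⊆ H := by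
      intro e he
      rcases mem_insert.1 he with h | h
      · exact h ▸ he0
      · obtain ⟨a, -, ha⟩ := mem_biUnion.1 h
        exact (mem_filter.1 (hF1 a ha)).1
    have hFcard : (insert e0 (univ.biUnion FF)).card ≤ k := by
      have h2 : (univ.biUnion FF).card ≤ (univ : Finset (Fin M)).card * k' :=
        card_biUnion_le_card_mul _ _ _ (fun a _ => hF2 a)
      rw [card_univ, Fintype.card_fin] at h2
      have h3 := card_insert_le e0 (univ.biUnion FF)
      omega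
    obtain ⟨T, hT, hTr⟩ := hH _ hFsub hFcard
    obtain ⟨x, hx⟩ := hTr e0 (mem_insert_self _ _)
    rw [mem_inter] at hx
    refine hF3 (c x) (T.erase x) ?_ ?_
    · rw [card_erase_of_mem hx.2]
      omega
    · intro e he
      obtain ⟨z, hz⟩ := hTr e (mem_insert_of_mem (mem_biUnion.2 ⟨c x, mem_univ _, he⟩))
      rw [mem_inter] at hz
      have hd := (mem_filter.1 (hF1 (c x) he)).2
      refine ⟨z, mem_inter.2 ⟨hz.1, mem_erase.2 ⟨?_, hz.2⟩⟩⟩
      rintro rfl
      exact disjoint_left.1 hd hz.1 (mem_filter.2 ⟨hx.1, rfl⟩)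

theorem tree_iter (M : ℕ) (hM : 1 ≤ M) (r : ℕ) : ∀ s k : ℕ, ∑ j ∈ range (s + 1), M ^ j ≤ k →
    ∀ H : Finset (Finset ℕ), (∀ e ∈ H, e.card = r) → LocProp k s H →
      ∃ T : Finset ℕ, T.card ≤ s * ((r + M - 1) / M) ∧ IsTrans H T := by
  intro s
  induction s with
  | zero =>
    intro k hk H hr hH
    rw [zero_add, sum_range_one, pow_zero] at hk
    refine ⟨∅, by simp, fun e he => ?_⟩
    exfalso
    obtain ⟨T, hT, hTr⟩ := hH {e} (singleton_subset_iff.2 he) (by simpa using hk)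
    obtain ⟨x, hx⟩ := hTr e (mem_singleton_self e)
    have h1 : T = ∅ := card_eq_zero.1 (Nat.le_zero.1 hT)
    rw [h1, inter_empty] at hx
    exact notMem_empty _ hx
  | succ s ih =>
    intro k hk H hr hH
    rw [sum_range_succ'] at hk
    have hk' : 1 + M * ∑ j ∈ range (s + 1), M ^ j ≤ k := by
      have h1 : ∑ j ∈ range (s + 1), M ^ (j + 1) = M * ∑ j ∈ range (s + 1), M ^ j := by
        rw [mul_sum]
        exact sum_congr rfl fun j _ => by rw [pow_succ, mul_comm]
      rw [h1, pow_zero] at hk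
      omega
    obtain ⟨T, hT, hTr⟩ := tree_step M hM r k (∑ j ∈ range (s + 1), M ^ j) s
      (s * ((r + M - 1) / M)) hk' (fun H' hr' hH' => ih _ le_rfl H' hr' hH') H hr hH
    refine ⟨T, hT.trans (le_of_eq ?_), hTr⟩
    rw [Nat.succ_mul, add_comm]

theorem geom_le (M : ℕ) (hM : 2 ≤ M) : ∀ s : ℕ, ∑ j ∈ range (s + 1), M ^ j ≤ 2 * M ^ s
  | 0 => by simp
  | s + 1 => by
    have ih := geom_le M hM s
    rw [sum_range_succ]
    have h1 : 2 * M ^ s ≤ M ^ (s + 1) := by
      rw [pow_succ, mul_comm]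
      exact Nat.mul_le_mul_left _ hM
    omega

/-- D9 (file `LD9.lean`).  Upper bound for all `k`.  `M = ⌊(k/2)^{1/s}⌋ ≥ 1`; recursion
`f_r(1 + M k', s) ≤ ⌈r/M⌉ + f_r(k', s-1)` (cut an edge into `M` pieces), `1 + M + .. + M^s ≤ 2 M^s ≤ k`
if `M ≥ 2`; if `M = 1` then `k < 2^{s+1}` and `r s ≤ 4 r s k^{-1/s}`. -/
theorem fval_root_upper (k s : ℕ) (hs : 1 ≤ s) (hsk : s < k) : ∃ r0 : ℕ, ∀ r : ℕ, r0 ≤ r →
    (fval r k s : ℝ) ≤ 8 * (r * s) * (k : ℝ) ^ (-(1 / (s : ℝ))) := by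
  classical
  have hs0 : (0 : ℝ) < s := by exact_mod_cast hs
  set M : ℕ := Nat.findGreatest (fun m => 2 * m ^ s ≤ k) k with hMdef
  have hM2 : 2 * M ^ s ≤ k :=
    Nat.findGreatest_spec (P := fun m => 2 * m ^ s ≤ k) (m := 1) (by omega)
      (by rw [one_pow]; omega)
  have hM1 : 1 ≤ M :=
    Nat.le_findGreatest (P := fun m => 2 * m ^ s ≤ k) (by omega) (by rw [one_pow]; omega)
  have hMk : k < 2 * (M + 1) ^ s := by
    by_contra hcon
    push Not at hcon
    have h1 : M + 1 ≤ k := by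
      have h2 : M + 1 ≤ (M + 1) ^ s := Nat.le_self_pow (by omega) _
      omega
    have h3 := Nat.le_findGreatest (P := fun m => 2 * m ^ s ≤ k) h1 hcon
    rw [← hMdef] at h3
    omega
  have hM0 : (0 : ℝ) < M := by exact_mod_cast hM1
  have hk0 : (0 : ℝ) < k := by exact_mod_cast (Nat.zero_le s).trans_lt hsk
  have hroot : 1 / (4 * (M : ℝ)) ≤ (k : ℝ) ^ (-(1 / (s : ℝ))) := by
    have h1 : k ≤ (4 * M) ^ s := by
      calc k ≤ 2 * (M + 1) ^ s := hMk.le
        _ ≤ 2 ^ s * (M + 1) ^ s := Nat.mul_le_mul_right _ (Nat.le_self_pow (by omega) _)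
        _ = (2 * (M + 1)) ^ s := by rw [mul_pow]
        _ ≤ (4 * M) ^ s := Nat.pow_le_pow_left (by omega) _
    have h2 : (k : ℝ) ^ (1 / (s : ℝ)) ≤ 4 * M := by
      calc (k : ℝ) ^ (1 / (s : ℝ)) ≤ ((4 * (M : ℝ)) ^ s) ^ (1 / (s : ℝ)) := by
            apply Real.rpow_le_rpow hk0.le _ (by positivity)
            exact_mod_cast h1
        _ = 4 * M := by
            rw [one_div, Real.pow_rpow_inv_natCast (by positivity) (by omega)]
    rw [Real.rpow_neg hk0.le, one_div]
    exact inv_anti₀ (by positivity) h2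
  refine ⟨M, fun r hr => ?_⟩
  have hsum : ∑ j ∈ range (s + 1), M ^ j ≤ k := by
    rcases Nat.lt_or_ge M 2 with h | h
    · have h1 : M = 1 := by omega
      rw [h1]
      simp only [one_pow, sum_const, card_range, smul_eq_mul, mul_one]
      omega
    · exact (geom_le M h s).trans hM2
  have hfv : fval r k s ≤ s * ((r + M - 1) / M) := by
    unfold fval
    exact Nat.sInf_le fun H hrH hH => tree_iter M hM1 r s k hsum H hrH hH
  have hceil : (((r + M - 1) / M : ℕ) : ℝ) ≤ 2 * r / M := by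
    calc (((r + M - 1) / M : ℕ) : ℝ) ≤ ((r + M - 1 : ℕ) : ℝ) / M := Nat.cast_div_le
      _ ≤ (2 * r) / M := by
          gcongr
          have : r + M - 1 ≤ 2 * r := by omega
          exact_mod_cast this
  calc (fval r k s : ℝ) ≤ s * (((r + M - 1) / M : ℕ) : ℝ) := by exact_mod_cast hfv
    _ ≤ s * (2 * r / M) := by gcongr
    _ = 8 * (r * s) * (1 / (4 * M)) := by field_simp; ring
    _ ≤ 8 * (r * s) * (k : ℝ) ^ (-(1 / (s : ℝ))) := by gcongr

end LocTr
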