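import Pool.Agent.Work.MP_a8cb64_co.EDefs

/-!
MP_a8cb64_co, Theorem B, module E2: the good order.
-/

namespace LocTr

open Finset

namespace OrdE2

variable {α : Type*} [DecidableEq α]

/-- probability that a `u`-random subset of `A` has the property `p` -/
noncomputable def pr (u : ℝ) (A : Finset α) (p : Finset α → Prop) [DecidablePred p] : ℝ :=
  ∑ J ∈ A.powerset with p J, u ^ J.card * (1 - u) ^ (A.card - J.card)

omit [DecidableEq α] in
lemma sum_w (u : ℝ) (A : Finset α) :
    ∑ J ∈ A.powerset, u ^ J.card * (1 - u) ^ (A.card - J.card) = 1 := by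
  rw [Finset.sum_pow_mul_eq_add_pow]
  simp

lemma sum_w_card (u : ℝ) (A : Finset α) :
    ∑ J ∈ A.powerset, u ^ J.card * (1 - u) ^ (A.card - J.card) * J.card = u * A.card := by
  have h1 : ∀ J ∈ A.powerset, u ^ J.card * (1 - u) ^ (A.card - J.card) * (J.card : ℝ) =
      ∑ i ∈ A, if i ∈ J then u ^ J.card * (1 - u) ^ (A.card - J.card) else 0 := by
    intro J hJ
    rw [← Finset.sum_filter, Finset.sum_const, nsmul_eq_mul, mul_comm]
    congr 3
    ext i
    simp only [mem_filter]
    exact ⟨fun h => ⟨mem_powerset.1 hJ h, h⟩, fun h => h.2⟩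
  rw [sum_congr rfl h1, sum_comm]
  have h2 : ∀ i ∈ A, (∑ J ∈ A.powerset,
      if i ∈ J then u ^ J.card * (1 - u) ^ (A.card - J.card) else 0) = u := by
    intro i hi
    have h3 : A = insert i (A.erase i) := (insert_erase hi).symm
    have h4 : i ∉ A.erase i := notMem_erase i A
    rw [← Finset.sum_filter]
    have h5 : ∑ J ∈ A.powerset with i ∈ J, u ^ J.card * (1 - u) ^ (A.card - J.card) =
        ∑ J ∈ (A.erase i).powerset, u * (u ^ J.card * (1 - u) ^ ((A.erase i).card - J.card)) := by
      refine (sum_bij' (fun J _ => insert i J) (fun J _ => J.erase i) ?_ ?_ ?_ ?_ ?_).symm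
      · intro J hJ
        rw [mem_filter, mem_powerset]
        rw [mem_powerset] at hJ
        exact ⟨insert_subset hi (hJ.trans (erase_subset _ _)), mem_insert_self _ _⟩
      · intro J hJ
        rw [mem_filter, mem_powerset] at hJ
        rw [mem_powerset]
        exact erase_subset_erase _ hJ.1
      · intro J hJ
        rw [mem_powerset] at hJ
        exact erase_insert fun h => h4 (hJ h)
      · intro J hJ
        rw [mem_filter] at hJ
        exact insert_erase hJ.2
      · intro J hJ
        rw [mem_powerset] at hJ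
        have h6 : i ∉ J := fun h => h4 (hJ h)
        rw [card_insert_of_notMem h6]
        have h7 : A.card = (A.erase i).card + 1 := (card_erase_add_one hi).symm
        rw [h7, Nat.add_sub_add_right]
        ring
    rw [h5, ← mul_sum, sum_w, mul_one]
  rw [sum_congr rfl h2, sum_const, nsmul_eq_mul, mul_comm]

lemma sum_pr_erase (u : ℝ) (A : Finset α) (Bad : α → Finset α → Prop)
    [∀ i J, Decidable (Bad i J)] :
    ∑ i ∈ A, (1 - u) * pr u (A.erase i) (Bad i) =
      ∑ J ∈ A.powerset, u ^ J.card * (1 - u) ^ (A.card - J.card) *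
        (((A \ J).filter fun i => Bad i J).card : ℝ) := by
  have h1 : ∀ J ∈ A.powerset, u ^ J.card * (1 - u) ^ (A.card - J.card) *
        (((A \ J).filter fun i => Bad i J).card : ℝ) =
      ∑ i ∈ A, if i ∉ J ∧ Bad i J then u ^ J.card * (1 - u) ^ (A.card - J.card) else 0 := by
    intro J hJ
    rw [← Finset.sum_filter, Finset.sum_const, nsmul_eq_mul, mul_comm]
    congr 3
    ext i
    simp only [mem_filter, mem_sdiff, and_assoc]
  rw [sum_congr rfl h1, sum_comm]
  refine sum_congr rfl fun i hi => ?_
  unfold pr
  rw [mul_sum, ← Finset.sum_filter]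
  have h2 : (A.powerset.filter fun J => i ∉ J ∧ Bad i J) =
      ((A.erase i).powerset.filter fun J => Bad i J) := by
    ext J
    simp only [mem_filter, mem_powerset]
    constructor
    · rintro ⟨h1, h2, h3⟩
      exact ⟨subset_erase.2 ⟨h1, h2⟩, h3⟩
    · rintro ⟨h1, h2⟩
      exact ⟨(subset_erase.1 h1).1, (subset_erase.1 h1).2, h2⟩
  rw [h2]
  refine sum_congr rfl fun J hJ => ?_
  rw [mem_filter, mem_powerset] at hJ
  have h3 : J.card ≤ (A.erase i).card := card_le_card hJ.1
  have h7 : A.card = (A.erase i).card + 1 := (card_erase_add_one hi).symm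
  rw [h7, Nat.succ_sub h3, pow_succ]
  ring

/-- one step: some element of `A` can be put last -/
lemma exists_last {u b : ℝ} (hu0 : 0 ≤ u) (hu1 : u < 1) (hb : 0 < b) (A : Finset α)
    (hA : A.Nonempty) (Bad : α → Finset α → Prop) [∀ i J, Decidable (Bad i J)]
    (h : ∀ J ⊆ A, (((A \ J).filter fun i => Bad i J).card : ℝ) ≤ J.card / b) :
    ∃ i ∈ A, pr u (A.erase i) (Bad i) ≤ u / (b * (1 - u)) := by
  by_contra hcon
  push Not at hcon
  have hv : 0 < 1 - u := by linarith
  have h1 : ∑ i ∈ A, (1 - u) * pr u (A.erase i) (Bad i) ≤ u * A.card / b := by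
    rw [sum_pr_erase, ← sum_w_card u A, sum_div]
    refine sum_le_sum fun J hJ => ?_
    rw [mul_div_assoc]
    exact mul_le_mul_of_nonneg_left (h J (mem_powerset.1 hJ)) (by positivity)
  have h2 : ∑ i ∈ A, (u / b) < ∑ i ∈ A, (1 - u) * pr u (A.erase i) (Bad i) := by
    refine sum_lt_sum_of_nonempty hA fun i hi => ?_
    have h3 := hcon i hi
    have h4 : u / b = (1 - u) * (u / (b * (1 - u))) := by field_simp
    rw [h4]
    exact mul_lt_mul_of_pos_left h3 hv
  rw [sum_const, nsmul_eq_mul] at h2
  have h5 : (A.card : ℝ) * (u / b) = u * A.card / b := by ring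
  linarith

/-- the good order, as a list -/
theorem good_list {u b : ℝ} (hu0 : 0 ≤ u) (hu1 : u < 1) (hb : 0 < b) (F : Finset α)
    (Bad : α → Finset α → Prop) [∀ i J, Decidable (Bad i J)]
    (h : ∀ J ⊆ F, (((F \ J).filter fun i => Bad i J).card : ℝ) ≤ J.card / b) :
    ∃ l : List α, l.Nodup ∧ l.toFinset = F ∧ ∀ (i : ℕ) (hi : i < l.length),
      pr u (l.take i).toFinset (Bad l[i]) ≤ u / (b * (1 - u)) := by
  induction hn : F.card generalizing F with
  | zero =>
      rw [card_eq_zero] at hn
      subst hn
      exact ⟨[], by simp, by simp, by simp⟩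
  | succ n ih =>
      have hF : F.Nonempty := by
        rw [← card_pos]
        omega
      obtain ⟨a, ha, hap⟩ := exists_last hu0 hu1 hb F hF Bad h
      obtain ⟨l, h1, h2, h3⟩ := ih (F.erase a) (by
        intro J hJ
        refine le_trans ?_ (h J (hJ.trans (erase_subset _ _)))
        exact_mod_cast card_le_card (filter_subset_filter _ (sdiff_subset_sdiff
          (erase_subset _ _) le_rfl))) (by rw [card_erase_of_mem ha, hn]; rfl)
      have h4 : a ∉ l := by
        intro h5
        have : a ∈ F.erase a := by rw [← h2]; exact List.mem_toFinset.2 h5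
        exact notMem_erase a F this
      refine ⟨l ++ [a], ?_, ?_, ?_⟩
      · rw [List.nodup_append]
        refine ⟨h1, List.nodup_singleton a, ?_⟩
        intro x hx y hy hxy
        rw [List.mem_singleton] at hy
        subst hy
        subst hxy
        exact h4 hx
      · rw [List.toFinset_append, h2]
        ext x
        simp only [mem_union, mem_erase, List.toFinset_cons, List.toFinset_nil, mem_insert]
        constructor
        · rintro (h | h)
          · exact h.2
          · rcases h with h | h
            · rw [h]; exact ha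
            · exact absurd h (notMem_empty x)
        · intro h
          by_cases hx : x = a
          · exact Or.inr (Or.inl hx)
          · exact Or.inl ⟨hx, h⟩
      · intro i hi
        rw [List.length_append, List.length_singleton] at hi
        rcases Nat.lt_succ_iff_lt_or_eq.1 hi with h6 | h6
        · rw [List.take_append_of_le_length h6.le, List.getElem_append_left h6]
          exact h3 i h6
        · subst h6
          rw [List.take_left', List.getElem_append_right le_rfl]
          · simp only [Nat.sub_self, List.getElem_cons_zero]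
            rw [h2]
            exact hap
          · rfl

/-- transport of the weighted sum along an injection -/
lemma sum_image {i : ℕ} (u : ℝ) (g : ℕ → α) (hg : Set.InjOn g (range i)) (f : Finset α → ℝ) :
    ∑ J ∈ (range i).powerset, u ^ J.card * (1 - u) ^ (i - J.card) * f (J.image g) =
      ∑ J ∈ ((range i).image g).powerset,
        u ^ J.card * (1 - u) ^ (((range i).image g).card - J.card) * f J := by
  have hc : ((range i).image g).card = i := by rw [card_image_of_injOn hg, card_range]
  rw [hc]
  refine sum_bij (fun J _ => J.image g) ?_ ?_ ?_ ?_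
  · intro J hJ
    exact mem_powerset.2 (image_subset_image (mem_powerset.1 hJ))
  · intro J hJ J' hJ' h
    rw [mem_powerset] at hJ hJ'
    ext x
    constructor
    · intro hx
      have h1 : g x ∈ J'.image g := by
        rw [← h]
        exact mem_image_of_mem g hx
      obtain ⟨y, hy, hyx⟩ := mem_image.1 h1
      rw [← hg (mem_coe.2 (hJ' hy)) (mem_coe.2 (hJ hx)) hyx]
      exact hy
    · intro hx
      have h1 : g x ∈ J.image g := by
        rw [h]
        exact mem_image_of_mem g hx
      obtain ⟨y, hy, hyx⟩ := mem_image.1 h1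
      rw [← hg (mem_coe.2 (hJ hy)) (mem_coe.2 (hJ' hx)) hyx]
      exact hy
  · intro J' hJ'
    rw [mem_powerset] at hJ'
    refine ⟨(range i).filter fun x => g x ∈ J', mem_powerset.2 (filter_subset _ _), ?_⟩
    ext y
    simp only [mem_image, mem_filter]
    constructor
    · rintro ⟨x, ⟨_, hx⟩, rfl⟩
      exact hx
    · intro hy
      obtain ⟨x, hx, hxy⟩ := mem_image.1 (hJ' hy)
      exact ⟨x, ⟨hx, by rw [hxy]; exact hy⟩, hxy⟩
  · intro J hJ
    rw [mem_powerset] at hJ
    rw [card_image_of_injOn (hg.mono (coe_subset.2 hJ))]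

end OrdE2

open OrdE2

theorem good_order (C W a b r k : ℕ) (U : Finset ℕ) (H F : Finset (Finset ℕ)) (u : ℝ)
    (ha : 1 ≤ a) (hb : 1 ≤ b) (hu0 : 0 < u) (hu1 : u < 1) (hr : ∀ e ∈ H, e.card = r)
    (hP : ∀ J : Finset (Finset ℕ), J ⊆ H → J.card ≤ k →
        b * ((H \ J).filter (fun e => r ≤ a * (hiPts C W U J e).card)).card ≤ J.card)
    (hF : F ⊆ H) (hFk : F.card ≤ k) :
    ∃ g : ℕ → Finset ℕ, Set.InjOn g (range F.card) ∧ (range F.card).image g = F ∧
      ∀ i < F.card, ∑ J ∈ (range i).powerset,
        u ^ J.card * (1 - u) ^ (i - J.card) * ((hiPts C W U (J.image g) (g i)).card : ℝ) ≤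
          (1 / a + u / (b * (1 - u))) * r := by
  have ha0 : (0 : ℝ) < a := by exact_mod_cast ha
  have hb0 : (0 : ℝ) < b := by exact_mod_cast hb
  obtain ⟨l, h1, h2, h3⟩ := good_list hu0.le hu1 hb0 F
    (fun e J => r ≤ a * (hiPts C W U J e).card) (by
      intro J hJ
      rw [le_div_iff₀ hb0]
      have h4 := hP J (hJ.trans hF) ((card_le_card hJ).trans hFk)
      have h5 : ((F \ J).filter fun e => r ≤ a * (hiPts C W U J e).card).card ≤
          ((H \ J).filter fun e => r ≤ a * (hiPts C W U J e).card).card :=
        card_le_card (filter_subset_filter _ (sdiff_subset_sdiff hF le_rfl))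
      have h6 : ((F \ J).filter fun e => r ≤ a * (hiPts C W U J e).card).card * b ≤ J.card :=
        (Nat.mul_le_mul_right b h5).trans (by rw [mul_comm]; exact h4)
      exact_mod_cast h6)
  have hlen : l.length = F.card := by
    rw [← h2, List.toFinset_card_of_nodup h1]
  have hgi : ∀ i (hi : i < l.length), l.getD i ∅ = l[i] := fun i hi =>
    List.getD_eq_getElem l ∅ hi
  have hinj : Set.InjOn (fun i => l.getD i ∅) (range F.card) := by
    intro i hi j hj hij
    rw [mem_coe, mem_range, ← hlen] at hi hj
    simp only at hij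
    rw [hgi i hi, hgi j hj] at hij
    exact (List.Nodup.getElem_inj_iff h1).1 hij
  have himg : ∀ i ≤ l.length, (range i).image (fun i => l.getD i ∅) = (l.take i).toFinset := by
    intro i hi
    ext x
    simp only [mem_image, mem_range, List.mem_toFinset]
    constructor
    · rintro ⟨j, hj, rfl⟩
      rw [hgi j (hj.trans_le hi)]
      rw [List.mem_take_iff_getElem]
      exact ⟨j, by omega, rfl⟩
    · intro hx
      rw [List.mem_take_iff_getElem] at hx
      obtain ⟨j, hj, hjx⟩ := hx
      exact ⟨j, by omega, by rw [hgi j (by omega)]; exact hjx⟩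
  refine ⟨fun i => l.getD i ∅, hinj, ?_, ?_⟩
  · rw [← hlen, himg _ le_rfl, List.take_length, h2]
  · intro i hi
    have hi' : i < l.length := by omega
    have hsub : Set.InjOn (fun i => l.getD i ∅) (range i) := by
      refine hinj.mono (coe_subset.2 ?_)
      intro x hx
      rw [mem_range] at hx ⊢
      omega
    rw [sum_image u (fun i => l.getD i ∅) hsub
      (fun J => ((hiPts C W U J (l.getD i ∅)).card : ℝ)), himg i hi'.le]
    have h4 := h3 i hi'
    have he : l.getD i ∅ ∈ H := by
      apply hF
      rw [hgi i hi', ← h2]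
      exact List.mem_toFinset.2 (List.getElem_mem _)
    rw [← hgi i hi'] at h4
    unfold pr at h4
    have hv : 0 ≤ 1 - u := by linarith
    calc ∑ J ∈ (l.take i).toFinset.powerset,
          u ^ J.card * (1 - u) ^ ((l.take i).toFinset.card - J.card) *
            ((hiPts C W U J (l.getD i ∅)).card : ℝ)
        ≤ ∑ J ∈ (l.take i).toFinset.powerset,
          (u ^ J.card * (1 - u) ^ ((l.take i).toFinset.card - J.card) * (1 / a * r) +
            (if r ≤ a * (hiPts C W U J (l.getD i ∅)).card then
              u ^ J.card * (1 - u) ^ ((l.take i).toFinset.card - J.card) else 0) * r) := by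
          refine sum_le_sum fun J hJ => ?_
          have h5 : 0 ≤ u ^ J.card * (1 - u) ^ ((l.take i).toFinset.card - J.card) := by
            positivity
          split_ifs with h6
          · have h7 : ((hiPts C W U J (l.getD i ∅)).card : ℝ) ≤ r := by
              have h8 : (hiPts C W U J (l.getD i ∅)).card ≤ (l.getD i ∅).card :=
                card_le_card (filter_subset _ _)
              rw [hr _ he] at h8
              exact_mod_cast h8
            have h9 : 0 ≤ u ^ J.card * (1 - u) ^ ((l.take i).toFinset.card - J.card) *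
                (1 / a * r) := by positivity
            nlinarith [mul_le_mul_of_nonneg_left h7 h5]
          · have h7 : ((hiPts C W U J (l.getD i ∅)).card : ℝ) ≤ 1 / a * r := by
              rw [one_div, ← div_eq_inv_mul, le_div_iff₀ ha0]
              have h8 : (hiPts C W U J (l.getD i ∅)).card * a ≤ r := by
                rw [mul_comm]
                omega
              exact_mod_cast h8
            nlinarith [mul_le_mul_of_nonneg_left h7 h5]
      _ = 1 / a * r + (∑ J ∈ (l.take i).toFinset.powerset with
            r ≤ a * (hiPts C W U J (l.getD i ∅)).card,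
              u ^ J.card * (1 - u) ^ ((l.take i).toFinset.card - J.card)) * r := by
          rw [sum_add_distrib, ← sum_mul, sum_w, one_mul, ← sum_mul, sum_filter]
      _ ≤ (1 / a + u / (b * (1 - u))) * r := by
          rw [add_mul]
          have h10 : (0 : ℝ) ≤ r := Nat.cast_nonneg r
          nlinarith [mul_le_mul_of_nonneg_right h4 h10]

end LocTr
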