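import Pool.Agent.Work.MP_a8cb64_co.EDefs

/-!
MP_a8cb64_co, Theorem B, module E4 (helper72): the coupling of `s` particles (note 2344, (S4)).
-/

namespace LocTr

open Finset

/-- second marginal probability. -/
noncomputable def piw (Λ t : ℝ) : ℝ := t * (1 - 1 / Λ) / (1 - t / Λ)

lemma piw_bd {Λ t : ℝ} (hΛ : 1 ≤ Λ) (h0 : 0 ≤ t) (h4 : t ≤ 1 / 4) :
    0 ≤ piw Λ t ∧ piw Λ t < 1 ∧ piw Λ t + t / Λ * (1 - piw Λ t) = t ∧ 0 < 1 - t / Λ := by
  have hΛ0 : 0 < Λ := by linarith
  have h1 : t / Λ ≤ 1 / 4 := by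
    rw [div_le_iff₀ hΛ0]
    nlinarith
  have h1' : 0 ≤ t / Λ := by positivity
  have h2 : 0 < 1 - t / Λ := by linarith
  have h3 : 1 / Λ ≤ 1 := by
    rw [div_le_one hΛ0]; exact hΛ
  have h3' : 0 < 1 / Λ := by positivity
  refine ⟨?_, ?_, ?_, h2⟩
  · unfold piw
    apply div_nonneg _ h2.le
    apply mul_nonneg h0
    linarith
  · unfold piw
    rw [div_lt_one h2]
    have : t * (1 - 1 / Λ) ≤ t := by nlinarith
    linarith
  · have e : piw Λ t * (1 - t / Λ) = t * (1 - 1 / Λ) := by
      unfold piw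
      exact div_mul_cancel₀ _ h2.ne'
    have e2 : piw Λ t + t / Λ * (1 - piw Λ t) = piw Λ t * (1 - t / Λ) + t / Λ := by ring
    rw [e2, e]
    ring

/-- Lemma 4. -/
lemma coup {s : ℕ} (τ α β : Fin s → ℝ) (h0 : ∀ j, 0 ≤ τ j) (h4 : ∀ j, τ j ≤ 1 / 4)
    (hΛ : 1 ≤ ∑ j, τ j) (hα : ∀ j, 0 ≤ α j) (hβ : ∀ j, 0 < β j) :
    ∑ i, (τ i / ∑ j, τ j) * (α i * ∏ j ∈ univ.erase i,
      (piw (∑ j, τ j) (τ j) * α j + (1 - piw (∑ j, τ j) (τ j)) * β j)) ≤
      (∏ j, β j) * Real.exp (∑ j, τ j * (α j / β j - 1)) := by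
  set Λ := ∑ j, τ j with hΛd
  have hΛ0 : 0 < Λ := by linarith
  set π : Fin s → ℝ := fun j => piw Λ (τ j) with hπ
  have hb := fun j => piw_bd hΛ (h0 j) (h4 j)
  set y : Fin s → ℝ := fun j => α j / β j - 1 with hy
  have hy1 : ∀ j, -1 ≤ y j := by
    intro j
    have : 0 ≤ α j / β j := div_nonneg (hα j) (hβ j).le
    simp only [hy]
    linarith
  have hαy : ∀ j, α j = β j * (1 + y j) := by
    intro j
    have := (hβ j).ne'
    simp only [hy]
    field_simp
    ring
  have hpy : ∀ j, 0 < 1 + π j * y j := by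
    intro j
    have h1 := (hb j).1
    have h2 := (hb j).2.1
    have h3 := hy1 j
    have : -(π j) ≤ π j * y j := by
      simp only [hπ]
      nlinarith
    simp only [hπ] at this ⊢
    linarith
  have hfac : ∀ j, π j * α j + (1 - π j) * β j = β j * (1 + π j * y j) := by
    intro j
    rw [hαy j]; ring
  have hprod : ∀ i, α i * ∏ j ∈ univ.erase i, (π j * α j + (1 - π j) * β j) =
      (∏ j, β j) * (∏ j, (1 + π j * y j)) * ((1 + y i) / (1 + π i * y i)) := by
    intro i
    simp_rw [hfac]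
    have h1 : (∏ j, β j) * (∏ j, (1 + π j * y j)) = ∏ j, β j * (1 + π j * y j) := by
      rw [Finset.prod_mul_distrib]
    rw [h1, ← Finset.mul_prod_erase univ _ (Finset.mem_univ i), hαy i]
    have hc0 := (hpy i).ne'
    obtain ⟨c, hc⟩ : ∃ c, c = 1 + π i * y i := ⟨_, rfl⟩
    rw [← hc] at hc0 ⊢
    obtain ⟨P, hP⟩ : ∃ P, P = ∏ x ∈ univ.erase i, β x * (1 + π x * y x) := ⟨_, rfl⟩
    rw [← hP]
    field_simp
  have hsum : ∑ i, (τ i / Λ) * (α i * ∏ j ∈ univ.erase i, (π j * α j + (1 - π j) * β j)) =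
      (∏ j, β j) * ((∏ j, (1 + π j * y j)) *
        ∑ i, (τ i / Λ) * ((1 + y i) / (1 + π i * y i))) := by
    simp_rw [hprod]
    rw [mul_sum, mul_sum]
    apply Finset.sum_congr rfl
    intro i _
    ring
  rw [hsum]
  apply mul_le_mul_of_nonneg_left _ (Finset.prod_nonneg fun j _ => (hβ j).le)
  have e1 : ∏ j, (1 + π j * y j) ≤ Real.exp (∑ j, π j * y j) := by
    rw [Real.exp_sum]
    apply Finset.prod_le_prod
    · intro j _; exact (hpy j).le
    · intro j _
      have := Real.add_one_le_exp (π j * y j)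
      linarith
  have e2 : ∑ i, (τ i / Λ) * ((1 + y i) / (1 + π i * y i)) ≤
      Real.exp (∑ j, τ j / Λ * (1 - π j) * y j) := by
    calc ∑ i, (τ i / Λ) * ((1 + y i) / (1 + π i * y i))
        ≤ ∑ i, (τ i / Λ) * (1 + (1 - π i) * y i) := by
          apply Finset.sum_le_sum
          intro i _
          apply mul_le_mul_of_nonneg_left _ (div_nonneg (h0 i) hΛ0.le)
          rw [div_le_iff₀ (hpy i)]
          have h1 := (hb i).1
          have h2 := (hb i).2.1
          have : 0 ≤ π i * (1 - π i) * y i ^ 2 := by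
            simp only [hπ]
            apply mul_nonneg (mul_nonneg h1 (by linarith)) (sq_nonneg _)
          nlinarith
      _ = 1 + ∑ j, τ j / Λ * (1 - π j) * y j := by
          have : ∑ i, (τ i / Λ) * (1 + (1 - π i) * y i) =
              ∑ i, τ i / Λ + ∑ i, τ i / Λ * (1 - π i) * y i := by
            rw [← Finset.sum_add_distrib]
            apply Finset.sum_congr rfl
            intro i _
            ring
          rw [this, ← Finset.sum_div, ← hΛd, div_self hΛ0.ne']
      _ ≤ _ := by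
          have := Real.add_one_le_exp (∑ j, τ j / Λ * (1 - π j) * y j)
          linarith
  have e3 : (∏ j, (1 + π j * y j)) * ∑ i, (τ i / Λ) * ((1 + y i) / (1 + π i * y i)) ≤
      Real.exp (∑ j, π j * y j) * Real.exp (∑ j, τ j / Λ * (1 - π j) * y j) := by
    apply mul_le_mul e1 e2 _ (Real.exp_pos _).le
    apply Finset.sum_nonneg
    intro i _
    apply mul_nonneg (div_nonneg (h0 i) hΛ0.le)
    apply div_nonneg _ (hpy i).le
    linarith [hy1 i]
  refine e3.trans (le_of_eq ?_)
  rw [← Real.exp_add, ← Finset.sum_add_distrib]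
  congr 1
  apply Finset.sum_congr rfl
  intro j _
  have := (hb j).2.2.1
  have e : π j * y j + τ j / Λ * (1 - π j) * y j = (π j + τ j / Λ * (1 - π j)) * y j := by ring
  rw [e]
  simp only [hπ]
  rw [this]

/-- the one-particle inequality. -/
lemma one_part {t a b : ℝ} (h0 : 0 ≤ t) (h4 : t ≤ 1 / 4) (ha : 0 < a) (hb : 0 < b)
    (hab : a ≤ 9 * b) :
    Real.exp (t * (Real.sqrt a / Real.sqrt b - 1)) * Real.sqrt b ≤
      Real.sqrt (t * a + (1 - t) * b) := by
  set y := Real.sqrt a / Real.sqrt b - 1 with hy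
  have hsb : 0 < Real.sqrt b := Real.sqrt_pos.2 hb
  have hsa : 0 < Real.sqrt a := Real.sqrt_pos.2 ha
  have hy1 : -1 < y := by
    have : 0 < Real.sqrt a / Real.sqrt b := by positivity
    linarith
  have hy2 : y ≤ 2 := by
    have : Real.sqrt a ≤ 3 * Real.sqrt b := by
      rw [Real.sqrt_le_left (by positivity)]
      have := Real.sq_sqrt hb.le
      nlinarith
    have h3 : Real.sqrt a / Real.sqrt b ≤ 3 := by
      rw [div_le_iff₀ hsb]; exact this
    linarith
  have hay : a = b * (1 + y) ^ 2 := by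
    have e1 : 1 + y = Real.sqrt a / Real.sqrt b := by rw [hy]; ring
    rw [e1, div_pow, Real.sq_sqrt ha.le, Real.sq_sqrt hb.le]
    field_simp
  apply Real.le_sqrt_of_sq_le
  rw [mul_pow, Real.sq_sqrt hb.le, ← Real.exp_nat_mul]
  have hz : ((2 : ℕ) : ℝ) * (t * y) ≤ 1 := by
    push_cast
    nlinarith
  have hz' : |((2 : ℕ) : ℝ) * (t * y)| ≤ 1 := by
    rw [abs_le]
    constructor
    · push_cast
      nlinarith
    · exact hz
  have hexp : Real.exp (((2 : ℕ) : ℝ) * (t * y)) ≤
      1 + ((2 : ℕ) : ℝ) * (t * y) + (((2 : ℕ) : ℝ) * (t * y)) ^ 2 := by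
    have := Real.abs_exp_sub_one_sub_id_le hz'
    have h2 := (abs_le.1 this).2
    linarith
  calc Real.exp (((2 : ℕ) : ℝ) * (t * y)) * b
      ≤ (1 + ((2 : ℕ) : ℝ) * (t * y) + (((2 : ℕ) : ℝ) * (t * y)) ^ 2) * b := by gcongr
    _ ≤ (1 + 2 * (t * y) + t * y ^ 2) * b := by
        apply mul_le_mul_of_nonneg_right _ hb.le
        push_cast
        have : t * t * y ^ 2 ≤ 1 / 4 * t * y ^ 2 := by
          have h5 : t * t ≤ 1 / 4 * t := by nlinarith
          exact mul_le_mul_of_nonneg_right h5 (sq_nonneg _)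
        nlinarith
    _ = t * a + (1 - t) * b := by
        rw [hay]; ring

/-- `E[exp(-θ τ_i) | marks up to time i - n]`. -/
noncomputable def phi (τ : ℕ → Finset ℕ → ℝ) (θ : ℝ) (i : ℕ) : ℕ → Finset ℕ → ℝ
  | 0, A => Real.exp (-(θ * τ i A))
  | n + 1, A => τ (i - (n + 1)) A * phi τ θ i n (insert (i - (n + 1)) A) +
      (1 - τ (i - (n + 1)) A) * phi τ θ i n A

lemma phi_bd {τ : ℕ → Finset ℕ → ℝ} {B θ : ℝ} (hB4 : B ≤ 1 / 4) (h0 : ∀ i A, 0 ≤ τ i A)
    (h1 : ∀ i A, τ i A ≤ B) (hθ : 0 ≤ θ) (i n : ℕ) (A : Finset ℕ) :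
    Real.exp (-(θ * B)) ≤ phi τ θ i n A ∧ phi τ θ i n A ≤ 1 := by
  induction n generalizing A with
  | zero =>
    unfold phi
    constructor
    · apply Real.exp_le_exp.2
      have := mul_le_mul_of_nonneg_left (h1 i A) hθ
      linarith
    · apply Real.exp_le_one_iff.2
      have := mul_nonneg hθ (h0 i A)
      linarith
  | succ n ih =>
    unfold phi
    have hA := ih A
    have hI := ih (insert (i - (n + 1)) A)
    have ht0 := h0 (i - (n + 1)) A
    have ht1 := h1 (i - (n + 1)) A
    have ht2 : 0 ≤ 1 - τ (i - (n + 1)) A := by linarith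
    constructor
    · nlinarith [mul_le_mul_of_nonneg_left hI.1 ht0, mul_le_mul_of_nonneg_left hA.1 ht2]
    · nlinarith [mul_le_mul_of_nonneg_left hI.2 ht0, mul_le_mul_of_nonneg_left hA.2 ht2]

lemma filter_lt_of_subset {A : Finset ℕ} {l : ℕ} (h : A ⊆ range l) : A.filter (· < l) = A := by
  apply Finset.filter_true_of_mem
  intro x hx
  exact Finset.mem_range.1 (h hx)

lemma chP_succ_not (τ : ℕ → Finset ℕ → ℝ) (l : ℕ) {A : Finset ℕ} (h : A ⊆ range l) :
    chP τ (l + 1) A = chP τ l A * (1 - τ l A) := by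
  unfold chP
  rw [Finset.prod_range_succ, filter_lt_of_subset h, if_neg]
  intro h2
  exact lt_irrefl l (Finset.mem_range.1 (h h2))

lemma chP_succ_insert (τ : ℕ → Finset ℕ → ℝ) (l : ℕ) {A : Finset ℕ} (h : A ⊆ range l) :
    chP τ (l + 1) (insert l A) = chP τ l A * τ l A := by
  unfold chP
  rw [Finset.prod_range_succ, if_pos (Finset.mem_insert_self _ _)]
  have h1 : (insert l A).filter (· < l) = A := by
    rw [Finset.filter_insert, if_neg (lt_irrefl l), filter_lt_of_subset h]
  rw [h1]
  congr 1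
  apply Finset.prod_congr rfl
  intro x hx
  have hx' := Finset.mem_range.1 hx
  have h2 : (x ∈ insert l A) ↔ x ∈ A := by
    rw [Finset.mem_insert]
    constructor
    · rintro (h3 | h3)
      · omega
      · exact h3
    · exact Or.inr
  have h3 : (insert l A).filter (· < x) = A.filter (· < x) := by
    rw [Finset.filter_insert, if_neg (by omega)]
  simp only [h2, h3]

lemma chP_nonneg {τ : ℕ → Finset ℕ → ℝ} {B : ℝ} (hB4 : B ≤ 1 / 4) (h0 : ∀ i A, 0 ≤ τ i A)
    (h1 : ∀ i A, τ i A ≤ B) (l : ℕ) (A : Finset ℕ) : 0 ≤ chP τ l A := by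
  unfold chP
  apply Finset.prod_nonneg
  intro x _
  split_ifs
  · exact h0 _ _
  · have := h1 x (A.filter (· < x))
    linarith

lemma sum_chP_phi (τ : ℕ → Finset ℕ → ℝ) (θ : ℝ) (i : ℕ) (l : ℕ) (hl : l ≤ i) :
    ∑ A ∈ (range l).powerset, chP τ l A * phi τ θ i (i - l) A = phi τ θ i i ∅ := by
  induction l with
  | zero =>
    simp [chP]
  | succ l ih =>
    rw [← ih (by omega), Finset.range_add_one, Finset.sum_powerset_insert Finset.notMem_range_self,
      ← Finset.sum_add_distrib]
    apply Finset.sum_congr rfl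
    intro A hA
    have hA' : A ⊆ range l := Finset.mem_powerset.1 hA
    rw [chP_succ_not τ l hA', chP_succ_insert τ l hA']
    have h1 : i - l = (i - (l + 1)) + 1 := by omega
    rw [h1, phi]
    have h2 : i - (i - (l + 1) + 1) = l := by omega
    rw [h2]
    ring

lemma sum_chP (τ : ℕ → Finset ℕ → ℝ) (l : ℕ) : ∑ A ∈ (range l).powerset, chP τ l A = 1 := by
  induction l with
  | zero => simp [chP]
  | succ l ih =>
    rw [Finset.range_add_one, Finset.sum_powerset_insert Finset.notMem_range_self,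
      ← Finset.sum_add_distrib, ← ih]
    apply Finset.sum_congr rfl
    intro A hA
    have hA' : A ⊆ range l := Finset.mem_powerset.1 hA
    rw [chP_succ_not τ l hA', chP_succ_insert τ l hA']
    ring

lemma phi_start {τ : ℕ → Finset ℕ → ℝ} {B θ : ℝ} (hB4 : B ≤ 1 / 4) (h0 : ∀ i A, 0 ≤ τ i A)
    (h1 : ∀ i A, τ i A ≤ B) (hθ : 0 ≤ θ) (hθB : θ * B ≤ 1) (i : ℕ) :
    phi τ θ i i ∅ ≤ Real.exp (-((1 - θ * B / 2) * θ *
      ∑ A ∈ (range i).powerset, chP τ i A * τ i A)) := by
  have e := sum_chP_phi τ θ i i le_rfl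
  rw [← e, Nat.sub_self]
  have hpt : ∀ A, phi τ θ i 0 A ≤ 1 - (1 - θ * B / 2) * θ * τ i A := by
    intro A
    unfold phi
    set z := θ * τ i A with hz
    have hz0 : 0 ≤ z := mul_nonneg hθ (h0 i A)
    have hzB : z ≤ θ * B := mul_le_mul_of_nonneg_left (h1 i A) hθ
    have hz1 : z ≤ 1 := hzB.trans hθB
    have hq : Real.exp (-z) ≤ 1 - z + z ^ 2 / 2 := by
      have h := Real.quadratic_le_exp_of_nonneg hz0
      have hpos : 0 < 1 + z + z ^ 2 / 2 := by positivity
      rw [Real.exp_neg]
      have h2 : (Real.exp z)⁻¹ ≤ (1 + z + z ^ 2 / 2)⁻¹ := inv_anti₀ hpos h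
      refine h2.trans ?_
      rw [inv_le_iff_one_le_mul₀ hpos]
      nlinarith [sq_nonneg (z ^ 2), sq_nonneg z]
    have h3 : z ^ 2 / 2 ≤ θ * B / 2 * z := by nlinarith
    have h4 : (1 - θ * B / 2) * θ * τ i A = z - θ * B / 2 * z := by rw [hz]; ring
    rw [h4]
    linarith
  calc ∑ A ∈ (range i).powerset, chP τ i A * phi τ θ i 0 A
      ≤ ∑ A ∈ (range i).powerset, chP τ i A * (1 - (1 - θ * B / 2) * θ * τ i A) := by
        apply Finset.sum_le_sum
        intro A _
        exact mul_le_mul_of_nonneg_left (hpt A) (chP_nonneg hB4 h0 h1 i A)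
    _ = ∑ A ∈ (range i).powerset, chP τ i A -
          (1 - θ * B / 2) * θ * ∑ A ∈ (range i).powerset, chP τ i A * τ i A := by
        rw [mul_sum, ← Finset.sum_sub_distrib]
        apply Finset.sum_congr rfl
        intro A _
        ring
    _ = 1 - (1 - θ * B / 2) * θ * ∑ A ∈ (range i).powerset, chP τ i A * τ i A := by
        rw [sum_chP τ i]
    _ ≤ _ := by
        have := Real.add_one_le_exp (-((1 - θ * B / 2) * θ *
          ∑ A ∈ (range i).powerset, chP τ i A * τ i A))
        linarith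

/-- the potential of the states `S` at time `l`. -/
noncomputable def Psi (τ : ℕ → Finset ℕ → ℝ) (θ : ℝ) (k : ℕ) {s : ℕ} (l : ℕ)
    (S : Fin s → Finset ℕ) : ℝ :=
  ∑ i ∈ Finset.Ico l k, Real.exp (θ / 2) * ∏ j, Real.sqrt (phi τ θ i (i - l) (S j))

/-- one step of the coupled process. -/
lemma step_coup {s : ℕ} {τ : ℕ → Finset ℕ → ℝ} {B θ : ℝ} (hB4 : B ≤ 1 / 4)
    (h0 : ∀ i A, 0 ≤ τ i A) (h1 : ∀ i A, τ i A ≤ B) (hθ : 0 < θ) (hθB : θ * B ≤ 1) {k l : ℕ}
    (hl : l < k) (S : Fin s → Finset ℕ) (hPsi : Psi τ θ k l S < 1) :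
    ∃ T : Finset (Fin s), T.Nonempty ∧ (∀ j ∈ T, 0 < τ l (S j)) ∧
      Psi τ θ k (l + 1) (fun j => if j ∈ T then insert l (S j) else S j) < 1 := by
  -- notation
  set t : Fin s → ℝ := fun j => τ l (S j) with ht
  have ht0 : ∀ j, 0 ≤ t j := fun j => h0 _ _
  have ht4 : ∀ j, t j ≤ 1 / 4 := fun j => (h1 _ _).trans hB4
  -- the terms of the potential
  have hterm_nonneg : ∀ i, 0 ≤ Real.exp (θ / 2) * ∏ j, Real.sqrt (phi τ θ i (i - l) (S j)) := by
    intro i
    apply mul_nonneg (Real.exp_pos _).le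
    exact Finset.prod_nonneg fun j _ => Real.sqrt_nonneg _
  have hPsi_eq : Psi τ θ k l S =
      Real.exp (θ / 2) * ∏ j, Real.sqrt (phi τ θ l (l - l) (S j)) +
      ∑ i ∈ Finset.Ico (l + 1) k, Real.exp (θ / 2) *
        ∏ j, Real.sqrt (phi τ θ i (i - l) (S j)) := by
    unfold Psi
    rw [Finset.sum_eq_sum_Ico_succ_bot hl]
  have hrest_nonneg : 0 ≤ ∑ i ∈ Finset.Ico (l + 1) k, Real.exp (θ / 2) *
        ∏ j, Real.sqrt (phi τ θ i (i - l) (S j)) := Finset.sum_nonneg fun i _ => hterm_nonneg i
  -- Λ > 1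
  have hΛ : 1 ≤ ∑ j, t j := by
    by_contra hcon
    push Not at hcon
    have h2 : Real.exp (θ / 2) * ∏ j, Real.sqrt (phi τ θ l (l - l) (S j)) < 1 := by linarith
    have h3 : ∏ j, Real.sqrt (phi τ θ l (l - l) (S j)) = Real.exp (-(θ / 2) * ∑ j, t j) := by
      rw [mul_sum, Real.exp_sum]
      apply Finset.prod_congr rfl
      intro j _
      rw [Nat.sub_self, phi, ← Real.exp_half]
      congr 1
      simp only [ht]
      ring
    rw [h3, ← Real.exp_add] at h2
    have h4 : θ / 2 + -(θ / 2) * ∑ j, t j < 0 := by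
      by_contra h5
      push Not at h5
      have := Real.one_le_exp h5
      linarith
    nlinarith
  set Λ := ∑ j, t j with hΛd
  have hΛ0 : 0 < Λ := by linarith
  have hb := fun j => piw_bd hΛ (ht0 j) (ht4 j)
  -- weights
  set w : Fin s → Finset (Fin s) → ℝ := fun i T' =>
    (t i / Λ) * ((∏ j ∈ T', piw Λ (t j)) * ∏ j ∈ (univ.erase i) \ T', (1 - piw Λ (t j))) with hw
  have hw0 : ∀ i T', 0 ≤ w i T' := by
    intro i T'
    apply mul_nonneg (div_nonneg (ht0 i) hΛ0.le)
    apply mul_nonneg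
    · exact Finset.prod_nonneg fun j _ => (hb j).1
    · exact Finset.prod_nonneg fun j _ => by linarith [(hb j).2.1]
  -- expectation of a product functional
  have hexpect : ∀ α β : Fin s → ℝ, ∑ i, ∑ T' ∈ (univ.erase i).powerset,
      w i T' * ∏ j, (if j ∈ insert i T' then α j else β j) =
      ∑ i, (t i / Λ) * (α i * ∏ j ∈ univ.erase i,
        (piw Λ (t j) * α j + (1 - piw Λ (t j)) * β j)) := by
    intro α β
    apply Finset.sum_congr rfl
    intro i _
    rw [Finset.prod_add, mul_sum, mul_sum]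
    apply Finset.sum_congr rfl
    intro T' hT'
    have hT'' : T' ⊆ univ.erase i := Finset.mem_powerset.1 hT'
    have hiT' : i ∉ T' := fun h => (Finset.mem_erase.1 (hT'' h)).1 rfl
    have hsplit : ∏ j, (if j ∈ insert i T' then α j else β j) =
        α i * ((∏ j ∈ T', α j) * ∏ j ∈ (univ.erase i) \ T', β j) := by
      rw [← Finset.mul_prod_erase univ _ (Finset.mem_univ i), if_pos (Finset.mem_insert_self _ _)]
      congr 1
      rw [← Finset.prod_sdiff hT'', mul_comm]
      congr 1
      · apply Finset.prod_congr rfl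
        intro j hj
        rw [if_pos (Finset.mem_insert_of_mem hj)]
      · apply Finset.prod_congr rfl
        intro j hj
        rw [Finset.mem_sdiff, Finset.mem_erase] at hj
        rw [if_neg]
        rw [Finset.mem_insert]
        rintro (h | h)
        · exact hj.1.1 h
        · exact hj.2 h
    rw [hsplit, Finset.prod_mul_distrib, Finset.prod_mul_distrib]
    simp only [hw]
    ring
  -- total weight one
  have hw1 : ∑ i, ∑ T' ∈ (univ.erase i).powerset, w i T' = 1 := by
    have h2 := hexpect (fun _ => 1) (fun _ => 1)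
    have h3 : ∀ i : Fin s, ∀ T' : Finset (Fin s),
        ∏ j, (if j ∈ insert i T' then (1 : ℝ) else 1) = 1 := by
      intro i T'
      simp
    simp only [h3, mul_one] at h2
    rw [h2]
    have h4 : ∀ i : Fin s, ∏ j ∈ univ.erase i, (piw Λ (t j) + (1 - piw Λ (t j))) = 1 := by
      intro i
      apply Finset.prod_eq_one
      intro j _
      ring
    simp only [h4, mul_one]
    rw [← Finset.sum_div, ← hΛd, div_self hΛ0.ne']
  -- one target
  have htarget : ∀ i ∈ Finset.Ico (l + 1) k, ∑ i', ∑ T' ∈ (univ.erase i').powerset,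
      w i' T' * (Real.exp (θ / 2) * ∏ j, Real.sqrt (phi τ θ i (i - (l + 1))
        (if j ∈ insert i' T' then insert l (S j) else S j))) ≤
      Real.exp (θ / 2) * ∏ j, Real.sqrt (phi τ θ i (i - l) (S j)) := by
    intro i hi
    rw [Finset.mem_Ico] at hi
    set a : Fin s → ℝ := fun j => phi τ θ i (i - (l + 1)) (insert l (S j)) with ha
    set b : Fin s → ℝ := fun j => phi τ θ i (i - (l + 1)) (S j) with hbd
    have hlow : ∀ A n, Real.exp (-(θ * B)) ≤ phi τ θ i n A := fun A n =>
      (phi_bd hB4 h0 h1 hθ.le i n A).1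
    have hup : ∀ A n, phi τ θ i n A ≤ 1 := fun A n => (phi_bd hB4 h0 h1 hθ.le i n A).2
    have ha0 : ∀ j, 0 < a j := fun j => (Real.exp_pos _).trans_le (hlow _ _)
    have hb0 : ∀ j, 0 < b j := fun j => (Real.exp_pos _).trans_le (hlow _ _)
    have hab : ∀ j, a j ≤ 9 * b j := by
      intro j
      have h2 : a j ≤ 1 := hup _ _
      have h3 : Real.exp (-(θ * B)) ≤ b j := hlow _ _
      have h4 : (1 : ℝ) / 9 ≤ Real.exp (-(θ * B)) := by
        have h5 : Real.exp (-1) ≤ Real.exp (-(θ * B)) := Real.exp_le_exp.2 (by linarith)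
        have h6 : (1 : ℝ) / 9 ≤ Real.exp (-1) := by
          rw [Real.exp_neg, one_div]
          apply inv_anti₀ (Real.exp_pos _)
          have := Real.exp_one_lt_d9
          linarith
        linarith
      linarith
    have hphi : ∀ j, phi τ θ i (i - l) (S j) = t j * a j + (1 - t j) * b j := by
      intro j
      have e1 : i - l = (i - (l + 1)) + 1 := by omega
      rw [e1, phi]
      have e2 : i - (i - (l + 1) + 1) = l := by omega
      rw [e2]
    have hfun : ∀ (i' : Fin s) (T' : Finset (Fin s)), ∏ j, Real.sqrt (phi τ θ i (i - (l + 1))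
        (if j ∈ insert i' T' then insert l (S j) else S j)) =
        ∏ j, (if j ∈ insert i' T' then Real.sqrt (a j) else Real.sqrt (b j)) := by
      intro i' T'
      apply Finset.prod_congr rfl
      intro j _
      split_ifs <;> rfl
    have h5 : ∑ i', ∑ T' ∈ (univ.erase i').powerset,
        w i' T' * (Real.exp (θ / 2) * ∏ j, Real.sqrt (phi τ θ i (i - (l + 1))
          (if j ∈ insert i' T' then insert l (S j) else S j))) =
        Real.exp (θ / 2) * ∑ i', ∑ T' ∈ (univ.erase i').powerset,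
          w i' T' * ∏ j, (if j ∈ insert i' T' then Real.sqrt (a j) else Real.sqrt (b j)) := by
      simp_rw [hfun, mul_sum]
      apply Finset.sum_congr rfl
      intro i' _
      apply Finset.sum_congr rfl
      intro T' _
      ring
    rw [h5, hexpect (fun j => Real.sqrt (a j)) (fun j => Real.sqrt (b j))]
    apply mul_le_mul_of_nonneg_left _ (Real.exp_pos _).le
    have h6 := coup t (fun j => Real.sqrt (a j)) (fun j => Real.sqrt (b j)) ht0 ht4 hΛ
      (fun j => Real.sqrt_nonneg _) (fun j => Real.sqrt_pos.2 (hb0 j))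
    refine h6.trans ?_
    rw [Real.exp_sum, ← Finset.prod_mul_distrib]
    apply Finset.prod_le_prod
    · intro j _
      positivity
    · intro j _
      rw [hphi j]
      have h7 := one_part (ht0 j) (ht4 j) (ha0 j) (hb0 j) (hab j)
      rw [mul_comm]
      exact h7
  -- average of the potential
  have havg : ∑ i', ∑ T' ∈ (univ.erase i').powerset, w i' T' *
      Psi τ θ k (l + 1) (fun j => if j ∈ insert i' T' then insert l (S j) else S j) < 1 := by
    have h2 : ∑ i', ∑ T' ∈ (univ.erase i').powerset, w i' T' *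
        Psi τ θ k (l + 1) (fun j => if j ∈ insert i' T' then insert l (S j) else S j) =
        ∑ i ∈ Finset.Ico (l + 1) k, ∑ i', ∑ T' ∈ (univ.erase i').powerset,
          w i' T' * (Real.exp (θ / 2) * ∏ j, Real.sqrt (phi τ θ i (i - (l + 1))
            (if j ∈ insert i' T' then insert l (S j) else S j))) := by
      unfold Psi
      simp_rw [mul_sum]
      rw [Finset.sum_comm]
      apply Finset.sum_congr rfl
      intro i' _
      rw [Finset.sum_comm]
    rw [h2]
    refine lt_of_le_of_lt (Finset.sum_le_sum htarget) ?_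
    have h3 := hterm_nonneg l
    rw [hPsi_eq] at hPsi
    linarith
  -- choose a good outcome
  by_contra hcon
  push Not at hcon
  have hge : ∀ i' : Fin s, ∀ T' ∈ (univ.erase i').powerset, w i' T' ≤ w i' T' *
      Psi τ θ k (l + 1) (fun j => if j ∈ insert i' T' then insert l (S j) else S j) := by
    intro i' T' hT'
    have hT'' : T' ⊆ univ.erase i' := Finset.mem_powerset.1 hT'
    rcases (hw0 i' T').eq_or_lt with h | h
    · rw [← h]; simp
    · have hpos : ∀ j ∈ insert i' T', 0 < τ l (S j) := by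
        intro j hj
        rw [Finset.mem_insert] at hj
        rcases hj with hj | hj
        · subst hj
          by_contra h5
          have h6 : t j = 0 := le_antisymm (not_lt.1 h5) (ht0 j)
          have : w j T' = 0 := by
            simp only [hw]
            rw [h6]
            simp
          linarith
        · by_contra h5
          have h6 : t j = 0 := le_antisymm (not_lt.1 h5) (ht0 j)
          have h7 : piw Λ (t j) = 0 := by
            rw [h6]; unfold piw; simp
          have : w i' T' = 0 := by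
            simp only [hw]
            rw [Finset.prod_eq_zero hj h7]
            simp
          linarith
      have h8 := hcon (insert i' T') ⟨i', Finset.mem_insert_self _ _⟩ hpos
      nlinarith
  have hfin : (1 : ℝ) ≤ ∑ i', ∑ T' ∈ (univ.erase i').powerset, w i' T' *
      Psi τ θ k (l + 1) (fun j => if j ∈ insert i' T' then insert l (S j) else S j) := by
    rw [← hw1]
    apply Finset.sum_le_sum
    intro i' _
    apply Finset.sum_le_sum
    intro T' hT'
    exact hge i' T' hT'
  linarith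

/-- E4: the coupling of `s` particles. -/
theorem chain_thm (s k : ℕ) (τ : ℕ → Finset ℕ → ℝ) (B γ : ℝ) (hB : 0 < B) (hB4 : B ≤ 1 / 4)
    (h0 : ∀ i A, 0 ≤ τ i A) (h1 : ∀ i A, τ i A ≤ B) (hγ : 0 < γ) (hγ1 : γ ≤ 1)
    (hE : ∀ i < k, 1 + γ ≤ s * ∑ A ∈ (range i).powerset, chP τ i A * τ i A)
    (hk : (k : ℝ) * Real.exp (-(γ ^ 2 / (8 * B))) < 1) :
    ∃ S : Fin s → Finset ℕ, (∀ i < k, ∃ j, i ∈ S j) ∧
      ∀ j, S j ⊆ range k ∧ ∀ i ∈ S j, 0 < τ i ((S j).filter (· < i)) := by
  set θ : ℝ := γ / (2 * B) with hθd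
  have hθ : 0 < θ := by positivity
  have hθB : θ * B = γ / 2 := by rw [hθd]; field_simp
  have hθB1 : θ * B ≤ 1 := by rw [hθB]; linarith
  -- start
  have hstart : Psi τ θ k 0 (fun _ : Fin s => (∅ : Finset ℕ)) < 1 := by
    unfold Psi
    have hterm : ∀ i ∈ Finset.Ico 0 k, Real.exp (θ / 2) *
        ∏ _j : Fin s, Real.sqrt (phi τ θ i (i - 0) ∅) ≤ Real.exp (-(γ ^ 2 / (8 * B))) := by
      intro i hi
      have hik : i < k := (Finset.mem_Ico.1 hi).2
      have h2 := phi_start hB4 h0 h1 hθ.le hθB1 i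
      set E := ∑ A ∈ (range i).powerset, chP τ i A * τ i A with hEd
      have h3 : Real.sqrt (phi τ θ i (i - 0) ∅) ≤
          Real.exp (-((1 - θ * B / 2) * θ * E) / 2) := by
        rw [Nat.sub_zero, Real.exp_half]
        exact Real.sqrt_le_sqrt h2
      calc Real.exp (θ / 2) * ∏ _j : Fin s, Real.sqrt (phi τ θ i (i - 0) ∅)
          ≤ Real.exp (θ / 2) * ∏ _j : Fin s, Real.exp (-((1 - θ * B / 2) * θ * E) / 2) := by
            apply mul_le_mul_of_nonneg_left _ (Real.exp_pos _).le
            apply Finset.prod_le_prod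
            · intro j _; exact Real.sqrt_nonneg _
            · intro j _; exact h3
        _ = Real.exp (θ / 2 - (1 - θ * B / 2) * θ * (s * E) / 2) := by
            rw [Finset.prod_const, Finset.card_univ, Fintype.card_fin, ← Real.exp_nat_mul,
              ← Real.exp_add]
            congr 1
            ring
        _ ≤ _ := by
            apply Real.exp_le_exp.2
            have h4 := hE i hik
            rw [← hEd] at h4
            have h5 : 0 ≤ (1 - θ * B / 2) * θ := by
              apply mul_nonneg _ hθ.le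
              rw [hθB]; linarith
            have h6 := mul_le_mul_of_nonneg_left h4 h5
            rw [hθB] at h6 ⊢
            have h7 : γ ^ 2 / (8 * B) = θ * (γ / 4) := by rw [hθd]; field_simp; ring
            rw [h7]
            nlinarith [mul_pos hθ hγ, mul_nonneg hθ.le (mul_nonneg hγ.le (by linarith : 0 ≤ 1 - γ))]
    calc ∑ i ∈ Finset.Ico 0 k, Real.exp (θ / 2) *
          ∏ _j : Fin s, Real.sqrt (phi τ θ i (i - 0) ∅)
        ≤ ∑ _i ∈ Finset.Ico 0 k, Real.exp (-(γ ^ 2 / (8 * B))) := Finset.sum_le_sum hterm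
      _ = k * Real.exp (-(γ ^ 2 / (8 * B))) := by
          rw [sum_const, Nat.card_Ico, nsmul_eq_mul, Nat.sub_zero]
      _ < 1 := hk
  -- induction
  have hind : ∀ l ≤ k, ∃ S : Fin s → Finset ℕ, Psi τ θ k l S < 1 ∧ (∀ i < l, ∃ j, i ∈ S j) ∧
      ∀ j, S j ⊆ range l ∧ ∀ i ∈ S j, 0 < τ i ((S j).filter (· < i)) := by
    intro l
    induction l with
    | zero =>
      intro _
      exact ⟨fun _ => ∅, hstart, fun i hi => absurd hi (Nat.not_lt_zero i),
        fun j => ⟨by simp, by simp⟩⟩
    | succ l ih =>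
      intro hl
      obtain ⟨S, hS1, hS2, hS3⟩ := ih (by omega)
      obtain ⟨T, hT1, hT2, hT3⟩ := step_coup hB4 h0 h1 hθ hθB1 (by omega : l < k) S hS1
      refine ⟨fun j => if j ∈ T then insert l (S j) else S j, hT3, ?_, ?_⟩
      · intro i hi
        rcases Nat.lt_succ_iff_lt_or_eq.1 hi with h | h
        · obtain ⟨j, hj⟩ := hS2 i h
          refine ⟨j, ?_⟩
          dsimp only
          split_ifs
          · exact Finset.mem_insert_of_mem hj
          · exact hj
        · obtain ⟨j, hj⟩ := hT1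
          refine ⟨j, ?_⟩
          dsimp only
          rw [if_pos hj, h]
          exact Finset.mem_insert_self _ _
      · intro j
        have hSj := (hS3 j).1
        have hSj' : S j ⊆ range (l + 1) := by
          rw [Finset.range_add_one]
          exact hSj.trans (Finset.subset_insert _ _)
        dsimp only
        split_ifs with hj
        · constructor
          · apply Finset.insert_subset _ hSj'
            exact Finset.mem_range.2 (by omega)
          · intro i hi
            rw [Finset.mem_insert] at hi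
            rcases hi with hi | hi
            · subst hi
              have : (insert i (S j)).filter (· < i) = S j := by
                rw [Finset.filter_insert, if_neg (lt_irrefl i), filter_lt_of_subset hSj]
              rw [this]
              exact hT2 j hj
            · have hil : i < l := Finset.mem_range.1 (hSj hi)
              have : (insert l (S j)).filter (· < i) = (S j).filter (· < i) := by
                rw [Finset.filter_insert, if_neg (by omega)]
              rw [this]
              exact (hS3 j).2 i hi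
        · exact ⟨hSj', (hS3 j).2⟩
  obtain ⟨S, _, hS2, hS3⟩ := hind k le_rfl
  exact ⟨S, hS2, hS3⟩

end LocTr
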