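import Pool.Agent.Work.MP_a8cb64_co.LM4
import Pool.Agent.Work.MP_a8cb64_co.LE2
import Pool.Agent.Work.MP_a8cb64_co.LE4
import Pool.Agent.Work.MP_a8cb64_co.LE5

/-!
MP_a8cb64_co, Theorem B (helper72, note 2344): module E6 (helper80), assembly of part (1) from the
statement of E1.
-/

namespace LocTr

open Finset

/-- statement of E1 -/
def SpreadStmt : Prop := ∀ (A a b : ℕ), 1 ≤ a → 1 ≤ b → ∃ C : ℕ, 1 ≤ C ∧
    ∀ k W m : ℕ, 2 ≤ m → m ≤ W → W - 1 ≤ A * (m - 1) → ∃ r0 : ℕ, ∀ r : ℕ, r0 ≤ r →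
    ∃ H : Finset (Finset ℕ), (∀ e ∈ H, e ⊆ range (W * r) ∧ e.card = r) ∧
      (∀ Q : Finset ℕ, Q ⊆ range (W * r) → Q.card = m * r → ∃ e ∈ H, e ⊆ Q) ∧
      (∀ J : Finset (Finset ℕ), J ⊆ H → J.card ≤ k →
        b * ((H \ J).filter
          (fun e => r ≤ a * (hiPts C W (range (W * r)) J e).card)).card ≤ J.card)

/-- the local property of the random hypergraph -/
theorem exp_loc (s k r W C a b : ℕ) (u δ γ : ℝ) (H : Finset (Finset ℕ))
    (ha : 1 ≤ a) (hb : 1 ≤ b) (hC : 1 ≤ C) (hW : 1 ≤ W) (hr : 1 ≤ r)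
    (hu0 : 0 < u) (hu1 : u < 1) (hδ : 1 / a + u / (b * (1 - u)) ≤ δ)
    (hγ : 0 < γ) (hγ1 : γ ≤ 1)
    (hB4 : (2 * C / W : ℝ) ≤ 1 / 4)
    (hE : 1 + γ ≤ s * (u / W * (1 - 2 * δ)))
    (hk : (k : ℝ) * Real.exp (-(γ ^ 2 / (8 * (2 * C / W)))) < 1)
    (hH : ∀ e ∈ H, e ⊆ range (W * r) ∧ e.card = r)
    (hP : ∀ J : Finset (Finset ℕ), J ⊆ H → J.card ≤ k →
        b * ((H \ J).filter
          (fun e => r ≤ a * (hiPts C W (range (W * r)) J e).card)).card ≤ J.card) :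
    LocProp k s H := by
  classical
  intro F hFH hFk
  obtain ⟨g, hgi, hgF, hg⟩ := good_order C W a b r k (range (W * r)) H F u ha hb hu0 hu1
    (fun e he => (hH e he).2) hP hFH hFk
  have hWR : (0 : ℝ) < W := by exact_mod_cast hW
  have hCR : (0 : ℝ) < C := by exact_mod_cast hC
  have hB : (0 : ℝ) < 2 * C / W := by positivity
  have hgm : ∀ i < F.card, g i ∈ F := by
    intro i hi
    rw [← hgF]
    exact Finset.mem_image_of_mem _ (Finset.mem_range.2 hi)
  have he : ∀ i < F.card, g i ⊆ range (W * r) ∧ (g i).card = r := fun i hi => hH _ (hFH (hgm i hi))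
  have hi : ∀ i < F.card, ∑ J ∈ (range i).powerset,
        u ^ J.card * (1 - u) ^ (i - J.card) *
          ((hiPts C W (range (W * r)) (J.image g) (g i)).card : ℝ) ≤ δ * r := by
    intro i hi
    exact (hg i hi).trans (mul_le_mul_of_nonneg_right hδ (Nat.cast_nonneg _))
  have hlow := chain_lower (range (W * r)) g u δ C W r F.card hu0 hu1 hC hW hr (by simp) he hi
  obtain ⟨S, hScov, hS⟩ := chain_thm s F.card (tauw (range (W * r)) g u (2 * C / W)) (2 * C / W) γ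
    hB hB4 (fun i A => (tauw_bd (range (W * r)) g u _ hu0 hu1 hB i A).1)
    (fun i A => (tauw_bd (range (W * r)) g u _ hu0 hu1 hB i A).2) hγ hγ1
    (fun i hi => hE.trans (mul_le_mul_of_nonneg_left (hlow i hi) (Nat.cast_nonneg _)))
    (lt_of_le_of_lt (mul_le_mul_of_nonneg_right (by exact_mod_cast hFk) (Real.exp_pos _).le) hk)
  have hne : (range (W * r)).Nonempty := by
    rw [Finset.nonempty_range_iff]
    exact (Nat.mul_pos (by omega) (by omega)).ne'
  have hpt : ∀ j, ∃ x ∈ range (W * r), ∀ i ∈ S j, x ∈ g i := fun j =>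
    chain_point (range (W * r)) g u (2 * C / W) hu0 hu1 hne hB (by linarith) F.card (S j)
      (hS j).1 (hS j).2
  choose x hxU hx using hpt
  refine ⟨Finset.univ.image x, ?_, ?_⟩
  · exact Finset.card_image_le.trans (by simp)
  · intro f hf
    rw [← hgF] at hf
    obtain ⟨i, hi, rfl⟩ := Finset.mem_image.1 hf
    obtain ⟨j, hj⟩ := hScov i (Finset.mem_range.1 hi)
    exact ⟨x j, Finset.mem_inter.2 ⟨hx j i hj, Finset.mem_image_of_mem _ (Finset.mem_univ _)⟩⟩

/-- a hypergraph in which every `m r`-set contains an edge has no small transversal -/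
theorem no_trans (r W m : ℕ) (hmW : m ≤ W) (H : Finset (Finset ℕ))
    (hHQ : ∀ Q : Finset ℕ, Q ⊆ range (W * r) → Q.card = m * r → ∃ e ∈ H, e ⊆ Q)
    (T : Finset ℕ) (hTc : T.card ≤ (W - m) * r) : ¬ IsTrans H T := by
  intro hT
  have hc : m * r ≤ (range (W * r) \ T).card := by
    have h11 := Finset.le_card_sdiff T (range (W * r))
    rw [Finset.card_range] at h11
    have h12 : (W - m) * r = W * r - m * r := Nat.sub_mul W m r
    have h13 : m * r ≤ W * r := Nat.mul_le_mul_right r hmW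
    omega
  obtain ⟨Q, hQs, hQc⟩ := Finset.exists_subset_card_eq hc
  obtain ⟨e, heH, heQ⟩ := hHQ Q (hQs.trans Finset.sdiff_subset) hQc
  obtain ⟨x, hx⟩ := hT e heH
  have hx' := Finset.mem_inter.1 hx
  exact (Finset.mem_sdiff.1 (hQs (heQ hx'.1))).2 hx'.2

/-- E6 (file `LE6.lean`).  Assembly of part (1).-/
theorem exp_lower_of (hSp : SpreadStmt) (ε : ℝ) (hε : 0 < ε) (hε1 : ε < 1) :
    ∃ c : ℝ, 0 < c ∧ ∃ s0 : ℕ,
    ∀ s : ℕ, s0 ≤ s → ∀ k : ℕ, s < k → (k : ℝ) ≤ Real.exp (c * s) → ∃ r0 : ℕ, ∀ r : ℕ, r0 ≤ r →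
      (1 - ε) * (r * s) ≤ (fval r k s : ℝ) := by
  classical
  set u : ℝ := 1 - ε / 16 with hu
  have hu0 : 0 < u := by rw [hu]; linarith
  have hu1 : u < 1 := by rw [hu]; linarith
  set a : ℕ := ⌈128 / ε⌉₊ with ha
  set b : ℕ := ⌈2048 / ε ^ 2⌉₊ with hb
  have haR : 128 / ε ≤ (a : ℝ) := Nat.le_ceil _
  have hbR : 2048 / ε ^ 2 ≤ (b : ℝ) := Nat.le_ceil _
  have ha1 : 1 ≤ a := Nat.one_le_iff_ne_zero.2 (by
    intro h
    rw [h] at haR
    have : 0 < 128 / ε := by positivity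
    simp at haR
    linarith)
  have hb1 : 1 ≤ b := Nat.one_le_iff_ne_zero.2 (by
    intro h
    rw [h] at hbR
    have : 0 < 2048 / ε ^ 2 := by positivity
    simp at hbR
    linarith)
  have ha0 : (0 : ℝ) < a := by exact_mod_cast ha1
  have hb0 : (0 : ℝ) < b := by exact_mod_cast hb1
  have h1a : 1 / (a : ℝ) ≤ ε / 128 := by
    rw [div_le_div_iff₀ ha0 (by norm_num)]
    rw [div_le_iff₀ hε] at haR
    linarith
  have h1b : u / (b * (1 - u)) ≤ ε / 128 := by
    have h1u : 1 - u = ε / 16 := by rw [hu]; ring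
    rw [h1u]
    rw [div_le_div_iff₀ (by positivity) (by norm_num)]
    rw [div_le_iff₀ (by positivity)] at hbR
    have h2 : ε * (b * (ε / 16)) = (b * ε ^ 2) / 16 := by ring
    rw [h2]
    linarith
  have hδ : 1 / (a : ℝ) + u / (b * (1 - u)) ≤ ε / 64 := by linarith
  obtain ⟨C, hC1, hC⟩ := hSp ⌈4 / ε⌉₊ a b ha1 hb1
  have hC0 : (0 : ℝ) < C := by exact_mod_cast hC1
  refine ⟨ε ^ 2 / (2048 * C), by positivity, ⌈12 / ε⌉₊ + 32 * C + 12, ?_⟩
  intro s hs k hsk hkexp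
  have hs12 : 12 ≤ s := by omega
  have hsC : 32 * C + 4 ≤ s := by omega
  have hsε : 12 ≤ ε * s := by
    have h2 : (12 / ε : ℝ) ≤ s := by
      calc (12 / ε : ℝ) ≤ (⌈12 / ε⌉₊ : ℝ) := Nat.le_ceil _
        _ ≤ s := by exact_mod_cast (by omega : ⌈12 / ε⌉₊ ≤ s)
    rw [div_le_iff₀ hε] at h2
    linarith
  have hs12R : (12 : ℝ) ≤ s := by exact_mod_cast hs12
  have hsCR : (32 * C + 4 : ℝ) ≤ s := by exact_mod_cast hsC
  have hs0 : (0 : ℝ) ≤ s := Nat.cast_nonneg _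
  set W : ℕ := ⌊(1 - ε / 2) * s⌋₊ with hW
  set m : ℕ := ⌈ε / 4 * s⌉₊ + 1 with hm
  have hWle : (W : ℝ) ≤ (1 - ε / 2) * s := Nat.floor_le (mul_nonneg (by linarith) hs0)
  have hWgt : (1 - ε / 2) * s - 1 < W := by
    have := Nat.lt_floor_add_one ((1 - ε / 2) * (s : ℝ))
    rw [← hW] at this
    linarith
  have hmle : (m : ℝ) < ε / 4 * s + 2 := by
    have := Nat.ceil_lt_add_one (a := ε / 4 * (s : ℝ)) (by positivity)
    rw [hm]; push_cast; linarith
  have hmge : ε / 4 * s + 1 ≤ (m : ℝ) := by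
    have := Nat.le_ceil (ε / 4 * (s : ℝ))
    rw [hm]; push_cast; linarith
  have hW4 : (s : ℝ) / 4 ≤ W := by nlinarith
  have hW8C : (8 * C + 1 : ℝ) ≤ W := by linarith
  have hW0 : (0 : ℝ) < W := by linarith
  have hW1 : 1 ≤ W := by
    have : (0 : ℝ) < W := hW0
    exact_mod_cast this
  have hmW : m ≤ W := by
    have : (m : ℝ) < W := by nlinarith
    exact_mod_cast this.le
  have h2m : 2 ≤ m := by
    have : (2 : ℝ) ≤ m := by linarith
    exact_mod_cast this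
  have hA : W - 1 ≤ ⌈4 / ε⌉₊ * (m - 1) := by
    have h6 : (s : ℝ) ≤ (⌈4 / ε⌉₊ : ℝ) * ((m : ℝ) - 1) := by
      have h7 : (4 / ε : ℝ) ≤ ⌈4 / ε⌉₊ := Nat.le_ceil _
      calc (s : ℝ) = (4 / ε) * (ε / 4 * s) := by field_simp
        _ ≤ (⌈4 / ε⌉₊ : ℝ) * ((m : ℝ) - 1) :=
          mul_le_mul h7 (by linarith) (by positivity) (Nat.cast_nonneg _)
    have h8 : s ≤ ⌈4 / ε⌉₊ * (m - 1) := by
      have h9 : ((m - 1 : ℕ) : ℝ) = (m : ℝ) - 1 := by
        rw [Nat.cast_sub (by omega)]; simp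
      rw [← h9] at h6
      exact_mod_cast h6
    have h10 : W ≤ s := by
      have : (W : ℝ) ≤ s := by nlinarith
      exact_mod_cast this
    omega
  obtain ⟨r0, hr0⟩ := hC k W m h2m hmW hA
  refine ⟨r0 + 1, ?_⟩
  intro r hr
  obtain ⟨H, hHe, hHQ, hHP⟩ := hr0 r (by omega)
  have hLoc : LocProp k s H := by
    apply exp_loc s k r W C a b u (ε / 64) (ε / 4) H ha1 hb1 hC1 hW1 (by omega) hu0 hu1 hδ
      (by positivity) (by linarith) _ _ _ hHe hHP
    · rw [div_le_iff₀ hW0]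
      linarith
    · rw [← mul_assoc, mul_div_assoc', div_mul_eq_mul_div, le_div_iff₀ hW0]
      have h1 : (1 + ε / 4) * (W : ℝ) ≤ (1 + ε / 4) * ((1 - ε / 2) * s) :=
        mul_le_mul_of_nonneg_left hWle (by linarith)
      refine h1.trans ?_
      have h3 : (1 + ε / 4) * (1 - ε / 2) ≤ u * (1 - 2 * (ε / 64)) := by
        rw [hu]; nlinarith
      calc (1 + ε / 4) * ((1 - ε / 2) * (s : ℝ)) = ((1 + ε / 4) * (1 - ε / 2)) * s := by ring
        _ ≤ (u * (1 - 2 * (ε / 64))) * s := mul_le_mul_of_nonneg_right h3 hs0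
        _ = s * u * (1 - 2 * (ε / 64)) := by ring
    · have h1 : ε ^ 2 / (1024 * C) * s ≤ (ε / 4) ^ 2 / (8 * (2 * C / W)) := by
        have h2 : (ε / 4) ^ 2 / (8 * (2 * C / W)) = ε ^ 2 / (256 * C) * W := by
          field_simp
          ring
        rw [h2]
        calc ε ^ 2 / (1024 * C) * s = ε ^ 2 / (256 * C) * (s / 4) := by
              field_simp; ring
          _ ≤ ε ^ 2 / (256 * C) * W := mul_le_mul_of_nonneg_left hW4 (by positivity)
      calc (k : ℝ) * Real.exp (-((ε / 4) ^ 2 / (8 * (2 * C / W))))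
          ≤ Real.exp (ε ^ 2 / (2048 * C) * s) * Real.exp (-(ε ^ 2 / (1024 * C) * s)) := by
            apply mul_le_mul hkexp _ (Real.exp_pos _).le (Real.exp_pos _).le
            exact Real.exp_le_exp.2 (by linarith)
        _ = Real.exp (ε ^ 2 / (2048 * C) * s + -(ε ^ 2 / (1024 * C) * s)) := (Real.exp_add _ _).symm
        _ < 1 := by
            rw [Real.exp_lt_one_iff]
            have h4 : ε ^ 2 / (1024 * C) * s = 2 * (ε ^ 2 / (2048 * C) * s) := by
              field_simp; ring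
            rw [h4]
            have h5 : 0 < ε ^ 2 / (2048 * C) * s := by
              have : (0 : ℝ) < s := by linarith
              positivity
            linarith
  have hlt := lt_fval r k s ((W - m) * r) hsk H (fun e he => (hHe e he).2) hLoc
    (fun T hT => no_trans r W m hmW H hHQ T hT)
  have h14 : (((W - m) * r : ℕ) : ℝ) ≤ fval r k s := by exact_mod_cast hlt.le
  have h15 : (((W - m) * r : ℕ) : ℝ) = ((W : ℝ) - m) * r := by
    rw [Nat.cast_mul, Nat.cast_sub hmW]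
  rw [h15] at h14
  refine le_trans ?_ h14
  have h16 : (1 - ε) * s ≤ (W : ℝ) - m := by linarith
  calc (1 - ε) * ((r : ℝ) * s) = ((1 - ε) * s) * r := by ring
    _ ≤ ((W : ℝ) - m) * r := mul_le_mul_of_nonneg_right h16 (Nat.cast_nonneg _)

end LocTr
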