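import Pool.Agent.Work.MP_a8cb64_co.LG2
import Pool.Agent.Work.MP_a8cb64_co.LM4

/-!
MP_a8cb64_co, Theorem E (helper91, note 2366): module H2 (helper23).
Block recursion in which a box catches only `m` of the `g` points, and its iteration.
-/

namespace LocTr

open Finset

/-- H2.  Block recursion, `m` points caught. -/
theorem block_rec_ge (g M w N m : ℕ) (hm : 1 ≤ m) (hmg : m ≤ g) (hM : 1 ≤ M)
    (BB : Finset (Fin g → Finset (Fin M)))
    (hBw : ∀ β ∈ BB, ∀ i, (β i).card = w)
    (hcov : ∀ y : Fin g → Fin M, ∃ β ∈ BB, m ≤ (univ.filter fun i => y i ∈ β i).card)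
    (hN : BB.card ≤ N) (r k k' s f : ℕ) (hk : g + N * k' ≤ k)
    (hrec : ∀ H : Finset (Finset ℕ), (∀ e ∈ H, e.card = r) → LocProp k' (s - m) H →
      ∃ T : Finset ℕ, T.card ≤ f ∧ IsTrans H T) (H : Finset (Finset ℕ))
    (hr : ∀ e ∈ H, e.card = r) (hH : LocProp k s H) :
    ∃ T : Finset ℕ, T.card ≤ max (g * r) (g * w * ((r + M - 1) / M) + f) ∧ IsTrans H T := by
  classical
  have hk1 : 1 ≤ k := by omega
  have hne : ∀ e ∈ H, e.Nonempty := by
    intro e he
    obtain ⟨T, -, hTr⟩ := hH {e} (singleton_subset_iff.2 he) (by simpa using hk1)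
    obtain ⟨x, hx⟩ := hTr e (mem_singleton_self e)
    exact ⟨x, (mem_inter.1 hx).1⟩
  rcases disjoint_edges g r H hr hne with ⟨T, hT, hTr⟩ | ⟨E, hEH, hEd⟩
  · exact ⟨T, hT.trans (le_max_left _ _), hTr⟩
  · have hgr : ∀ i : Fin g, ∃ c : ℕ → Fin M, ∀ a,
        ((E i).filter fun x => c x = a).card ≤ (r + M - 1) / M := by
      intro i
      have := exists_groups M hM (E i)
      rwa [hr _ (hEH i)] at this
    choose c hc using hgr
    set P : (Fin g → Finset (Fin M)) → Finset ℕ := fun β =>
      univ.biUnion fun i : Fin g => (E i).filter fun x => c i x ∈ β i with hP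
    have hPcard : ∀ β ∈ BB, (P β).card ≤ g * w * ((r + M - 1) / M) := by
      intro β hβ
      have h1 : ∀ i : Fin g, ((E i).filter fun x => c i x ∈ β i).card ≤
          w * ((r + M - 1) / M) := by
        intro i
        have h2 : ((E i).filter fun x => c i x ∈ β i) ⊆
            (β i).biUnion fun a => (E i).filter fun x => c i x = a := by
          intro x hx
          rw [mem_filter] at hx
          exact mem_biUnion.2 ⟨c i x, hx.2, mem_filter.2 ⟨hx.1, rfl⟩⟩
        calc ((E i).filter fun x => c i x ∈ β i).card ≤ _ := card_le_card h2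
          _ ≤ (β i).card * ((r + M - 1) / M) :=
              card_biUnion_le_card_mul _ _ _ (fun a _ => hc i a)
          _ = w * ((r + M - 1) / M) := by rw [hBw β hβ i]
      calc (P β).card ≤ (univ : Finset (Fin g)).card * (w * ((r + M - 1) / M)) :=
            card_biUnion_le_card_mul _ _ _ (fun i _ => h1 i)
        _ = g * w * ((r + M - 1) / M) := by rw [card_univ, Fintype.card_fin, mul_assoc]
    by_cases hex : ∃ β ∈ BB, LocProp k' (s - m) (H.filter fun e => Disjoint e (P β))
    · obtain ⟨β, hβ, hloc⟩ := hex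
      obtain ⟨T, hT, hTr⟩ := hrec _ (fun e he => hr e (mem_filter.1 he).1) hloc
      refine ⟨P β ∪ T, ?_, ?_⟩
      · refine (card_union_le _ _).trans (le_trans ?_ (le_max_right _ _))
        exact Nat.add_le_add (hPcard β hβ) hT
      · intro e he
        by_cases hd : Disjoint e (P β)
        · obtain ⟨x, hx⟩ := hTr e (mem_filter.2 ⟨he, hd⟩)
          exact ⟨x, mem_inter.2 ⟨(mem_inter.1 hx).1, mem_union_right _ (mem_inter.1 hx).2⟩⟩
        · rw [not_disjoint_iff] at hd
          obtain ⟨x, hx, hxP⟩ := hd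
          exact ⟨x, mem_inter.2 ⟨hx, mem_union_left _ hxP⟩⟩
    · exfalso
      push Not at hex
      have hF : ∀ β ∈ BB, ∃ F : Finset (Finset ℕ), F ⊆ (H.filter fun e => Disjoint e (P β)) ∧
          F.card ≤ k' ∧ ∀ T : Finset ℕ, T.card ≤ s - m → ¬ IsTrans F T := by
        intro β hβ
        have h1 := hex β hβ
        unfold LocProp at h1
        push Not at h1
        exact h1
      choose! FF hF1 hF2 hF3 using hF
      have hFsub : univ.image E ∪ BB.biUnion FF ⊆ H := by
        intro e he
        rcases mem_union.1 he with h | h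
        · obtain ⟨i, -, rfl⟩ := mem_image.1 h
          exact hEH i
        · obtain ⟨β, hβ, heβ⟩ := mem_biUnion.1 h
          exact (mem_filter.1 (hF1 β hβ heβ)).1
      have hFcard : (univ.image E ∪ BB.biUnion FF).card ≤ k := by
        have h1 : (univ.image E).card ≤ g := by
          refine card_image_le.trans ?_
          rw [card_univ, Fintype.card_fin]
        have h2 : (BB.biUnion FF).card ≤ N * k' :=
          (card_biUnion_le_card_mul _ _ _ (fun β hβ => hF2 β hβ)).trans
            (Nat.mul_le_mul_right _ hN)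
        exact (card_union_le _ _).trans ((Nat.add_le_add h1 h2).trans hk)
      obtain ⟨T, hT, hTr⟩ := hH _ hFsub hFcard
      have hx : ∀ i : Fin g, ∃ x, x ∈ E i ∧ x ∈ T := by
        intro i
        obtain ⟨x, hx⟩ := hTr (E i) (mem_union_left _ (mem_image_of_mem _ (mem_univ i)))
        exact ⟨x, (mem_inter.1 hx).1, (mem_inter.1 hx).2⟩
      choose x hxE hxT using hx
      have hxinj : Function.Injective x := by
        intro i j hij
        by_contra hne'
        have hd := hEd i j hne'
        rw [disjoint_left] at hd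
        exact hd (hxE i) (hij ▸ hxE j)
      obtain ⟨β, hβ, hcell⟩ := hcov fun i => c i (x i)
      set I := univ.filter fun i => c i (x i) ∈ β i with hI
      have hxP : ∀ i ∈ I, x i ∈ P β := fun i hi =>
        mem_biUnion.2 ⟨i, mem_univ i, mem_filter.2 ⟨hxE i, (mem_filter.1 hi).2⟩⟩
      have himg : I.image x ⊆ T := by
        intro y hy
        obtain ⟨i, -, rfl⟩ := mem_image.1 hy
        exact hxT i
      have hc1 : (I.image x).card = I.card := card_image_of_injective _ hxinj
      refine hF3 β hβ (T \ I.image x) ?_ ?_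
      · rw [card_sdiff_of_subset himg, hc1]
        omega
      · intro e he
        obtain ⟨z, hz⟩ := hTr e (mem_union_right _ (mem_biUnion.2 ⟨β, hβ, he⟩))
        rw [mem_inter] at hz
        have hd := (mem_filter.1 (hF1 β hβ he)).2
        refine ⟨z, mem_inter.2 ⟨hz.1, mem_sdiff.2 ⟨hz.2, fun hzx => ?_⟩⟩⟩
        obtain ⟨i, hi, rfl⟩ := mem_image.1 hzx
        exact disjoint_left.1 hd hz.1 (hxP i hi)

/-- the block recursion, iterated. -/
theorem rec_iter_ge (g M w m : ℕ) (hm : 1 ≤ m) (hmg : m ≤ g) (hM : 1 ≤ M)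
    (BB : Finset (Fin g → Finset (Fin M)))
    (hBw : ∀ β ∈ BB, ∀ i, (β i).card = w)
    (hcov : ∀ y : Fin g → Fin M, ∃ β ∈ BB, m ≤ (univ.filter fun i => y i ∈ β i).card)
    (r : ℕ) : ∀ j s k : ℕ, j * m ≤ s → BB.card ^ j * ((s + 1) * (g + 1)) ≤ k →
    ∀ H : Finset (Finset ℕ), (∀ e ∈ H, e.card = r) → LocProp k s H →
      ∃ T : Finset ℕ, T.card ≤ j * (g * w * ((r + M - 1) / M)) +
        max (g * r) ((s - j * m) * r) ∧ IsTrans H T := by
  have hB1 : 1 ≤ BB.card := by
    obtain ⟨β, hβ, -⟩ := hcov (fun _ => ⟨0, hM⟩)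
    exact card_pos.2 ⟨β, hβ⟩
  intro j
  induction j with
  | zero =>
    intro s k _ hk H hr hH
    rw [pow_zero, one_mul] at hk
    have hsk : s < k := by nlinarith [Nat.zero_le (s * g), Nat.zero_le g]
    obtain ⟨T, hT, hTr⟩ := fval_set_mem r k s hsk H hr hH
    refine ⟨T, ?_, hTr⟩
    rw [Nat.zero_mul, Nat.zero_mul, Nat.zero_add, Nat.sub_zero]
    exact (hT.trans (le_of_eq (mul_comm _ _))).trans (le_max_right _ _)
  | succ j ih =>
    intro s k hms hk H hr hH
    have hms' : j * m + m ≤ s := by rwa [Nat.succ_mul] at hms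
    have hk' : g + BB.card * (BB.card ^ j * ((s - m + 1) * (g + 1))) ≤ k := by
      have h2 : 1 ≤ BB.card ^ (j + 1) := Nat.one_le_pow _ _ hB1
      have h3 : (s - m + 1) * (g + 1) + g ≤ (s + 1) * (g + 1) := by
        have h4 : s - m + 1 ≤ s := by omega
        calc (s - m + 1) * (g + 1) + g ≤ s * (g + 1) + (g + 1) :=
              Nat.add_le_add (Nat.mul_le_mul_right _ h4) (Nat.le_succ g)
          _ = (s + 1) * (g + 1) := by ring
      calc g + BB.card * (BB.card ^ j * ((s - m + 1) * (g + 1)))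
          = BB.card ^ (j + 1) * ((s - m + 1) * (g + 1)) + 1 * g := by
            rw [pow_succ]; ring
        _ ≤ BB.card ^ (j + 1) * ((s - m + 1) * (g + 1)) + BB.card ^ (j + 1) * g :=
            Nat.add_le_add_left (Nat.mul_le_mul_right _ h2) _
        _ = BB.card ^ (j + 1) * ((s - m + 1) * (g + 1) + g) := by ring
        _ ≤ BB.card ^ (j + 1) * ((s + 1) * (g + 1)) := Nat.mul_le_mul_left _ h3
        _ ≤ k := hk
    obtain ⟨T, hT, hTr⟩ := block_rec_ge g M w BB.card m hm hmg hM BB hBw hcov le_rfl r k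
      (BB.card ^ j * ((s - m + 1) * (g + 1))) s
      (j * (g * w * ((r + M - 1) / M)) + max (g * r) ((s - m - j * m) * r)) hk'
      (fun H' hr' hH' => ih (s - m) _ (by omega) le_rfl H' hr' hH') H hr hH
    refine ⟨T, hT.trans (max_le ?_ ?_), hTr⟩
    · exact (le_max_left _ _).trans (Nat.le_add_left _ _)
    · have h4 : s - m - j * m = s - (j + 1) * m := by
        rw [Nat.succ_mul]; omega
      rw [h4, Nat.succ_mul j (g * w * ((r + M - 1) / M))]
      omega

end LocTr
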