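import Pool.Agent.Work.MP_a8cb64_co.LH1
import Pool.Agent.Work.MP_a8cb64_co.LH2

/-!
MP_a8cb64_co, Theorem E (helper91, note 2366): module H3 (helper23).
Choice of the parameters and iteration.
-/

namespace LocTr

open Finset Filter Topology

theorem pow_step (m : ℕ) : Real.exp 1 * (m : ℝ) ^ (m + 1) ≤ ((m : ℝ) + 1) ^ (m + 1) := by
  have hm : (0 : ℝ) < (m : ℝ) + 1 := by positivity
  have h1 : (m : ℝ) ≤ (m + 1) * Real.exp (-(1 / ((m : ℝ) + 1))) := by
    have h2 := Real.add_one_le_exp (-(1 / ((m : ℝ) + 1)))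
    have h3 : (m : ℝ) = (m + 1) * (-(1 / ((m : ℝ) + 1)) + 1) := by field_simp; ring
    calc (m : ℝ) = (m + 1) * (-(1 / ((m : ℝ) + 1)) + 1) := h3
      _ ≤ _ := by gcongr
  calc Real.exp 1 * (m : ℝ) ^ (m + 1)
      ≤ Real.exp 1 * ((m + 1) * Real.exp (-(1 / ((m : ℝ) + 1)))) ^ (m + 1) := by gcongr
    _ = ((m : ℝ) + 1) ^ (m + 1) * (Real.exp 1 * Real.exp (-(1 / ((m : ℝ) + 1))) ^ (m + 1)) := by
        rw [mul_pow]; ring
    _ = ((m : ℝ) + 1) ^ (m + 1) := by
        rw [← Real.exp_nat_mul, ← Real.exp_add]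
        have h4 : 1 + ((m + 1 : ℕ) : ℝ) * -(1 / ((m : ℝ) + 1)) = 0 := by
          push_cast; field_simp; ring
        rw [h4, Real.exp_zero, mul_one]

theorem fact_le (m : ℕ) (hm : 1 ≤ m) :
    (m.factorial : ℝ) * Real.exp m ≤ Real.exp 1 * m * (m : ℝ) ^ m := by
  induction m, hm using Nat.le_induction with
  | base => simp
  | succ m hm ih =>
    have h1 := pow_step m
    calc ((m + 1).factorial : ℝ) * Real.exp ((m + 1 : ℕ) : ℝ)
        = ((m : ℝ) + 1) * Real.exp 1 * (m.factorial * Real.exp m) := by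
          rw [Nat.factorial_succ]; push_cast; rw [Real.exp_add]; ring
      _ ≤ ((m : ℝ) + 1) * Real.exp 1 * (Real.exp 1 * m * (m : ℝ) ^ m) := by gcongr
      _ = ((m : ℝ) + 1) * Real.exp 1 * (Real.exp 1 * (m : ℝ) ^ (m + 1)) := by
          rw [pow_succ]; ring
      _ ≤ ((m : ℝ) + 1) * Real.exp 1 * ((m : ℝ) + 1) ^ (m + 1) := by gcongr
      _ = _ := by push_cast; ring

/-- lower bound for the probability of a Poisson-like large deviation. -/
theorem binom_lower (m : ℕ) (hm : 2 ≤ m) (t : ℝ) (ht0 : 0 < t) (ht1 : t ≤ 1) :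
    Real.exp (-3) / m * (t * Real.exp (1 - t)) ^ m ≤
      ((m ^ 2).choose m : ℝ) * (t / m) ^ m * (1 - t / m) ^ (m ^ 2 - m) := by
  have hm0 : (0 : ℝ) < m := by positivity
  have hm2 : (2 : ℝ) ≤ m := by exact_mod_cast hm
  have hf0 : (0 : ℝ) < m.factorial := by exact_mod_cast Nat.factorial_pos m
  -- binomial coefficient
  have hC : ((m : ℝ) * (m - 1)) ^ m ≤ m.factorial * ((m ^ 2).choose m : ℝ) := by
    have h1 : (m ^ 2 + 1 - m) ^ m ≤ (m ^ 2).descFactorial m := Nat.pow_sub_le_descFactorial _ _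
    rw [Nat.descFactorial_eq_factorial_mul_choose] at h1
    have h2 : m * (m - 1) ≤ m ^ 2 + 1 - m := by
      rw [Nat.mul_sub, mul_one, pow_two]; omega
    have h3 : (m * (m - 1)) ^ m ≤ m.factorial * (m ^ 2).choose m :=
      (Nat.pow_le_pow_left h2 m).trans h1
    have h4 : (((m * (m - 1)) ^ m : ℕ) : ℝ) ≤ ((m.factorial * (m ^ 2).choose m : ℕ) : ℝ) := by
      exact_mod_cast h3
    push_cast [Nat.cast_sub (show 1 ≤ m by omega)] at h4
    exact h4
  -- (m-1)^m ≥ e^{-2} m^m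
  have hE : (m : ℝ) ^ m * Real.exp (-2) ≤ ((m : ℝ) - 1) ^ m := by
    have hm1 : (0 : ℝ) < (m : ℝ) - 1 := by linarith
    have h1 : (m : ℝ) ≤ (m - 1) * Real.exp (1 / ((m : ℝ) - 1)) := by
      have h2 := Real.add_one_le_exp (1 / ((m : ℝ) - 1))
      calc (m : ℝ) = (m - 1) * (1 / ((m : ℝ) - 1) + 1) := by field_simp; ring
        _ ≤ _ := by gcongr
    have h3 : Real.exp (1 / ((m : ℝ) - 1)) ^ m ≤ Real.exp 2 := by
      rw [← Real.exp_nat_mul]
      apply Real.exp_le_exp.2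
      rw [mul_one_div, div_le_iff₀ hm1]
      linarith
    calc (m : ℝ) ^ m * Real.exp (-2)
        ≤ ((m - 1) * Real.exp (1 / ((m : ℝ) - 1))) ^ m * Real.exp (-2) := by gcongr
      _ = (m - 1) ^ m * (Real.exp (1 / ((m : ℝ) - 1)) ^ m * Real.exp (-2)) := by
          rw [mul_pow]; ring
      _ ≤ (m - 1) ^ m * (Real.exp 2 * Real.exp (-2)) := by gcongr
      _ = (m - 1) ^ m := by
          rw [← Real.exp_add]; norm_num
  -- (1 - t/m)^(m^2-m) ≥ e^{-tm}
  have hq : Real.exp (-(t * m)) ≤ (1 - t / m) ^ (m ^ 2 - m) := by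
    have hmt : 0 < (m : ℝ) - t := by linarith
    have h1 : 1 ≤ (1 - t / m) * Real.exp (t / (m - t)) := by
      have h2 := Real.add_one_le_exp (t / ((m : ℝ) - t))
      have h3 : 0 ≤ 1 - t / (m : ℝ) := by
        rw [sub_nonneg, div_le_one hm0]; linarith
      calc (1 : ℝ) = (1 - t / m) * (t / (m - t) + 1) := by field_simp; ring
        _ ≤ _ := by gcongr
    have h4 : 1 ≤ (1 - t / m) ^ (m ^ 2 - m) * Real.exp (t / (m - t)) ^ (m ^ 2 - m) := by
      rw [← mul_pow]; exact one_le_pow₀ h1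
    have h5 : Real.exp (t / (m - t)) ^ (m ^ 2 - m) ≤ Real.exp (t * m) := by
      rw [← Real.exp_nat_mul]
      apply Real.exp_le_exp.2
      have h6 : ((m ^ 2 - m : ℕ) : ℝ) = m * (m - 1) := by
        have h7 : m ≤ m ^ 2 := by nlinarith
        push_cast [Nat.cast_sub h7]
        ring
      rw [h6, ← mul_div_assoc, div_le_iff₀ hmt]
      have h8 : (m : ℝ) * (m - 1) ≤ m * (m - t) := by gcongr
      calc (m : ℝ) * (m - 1) * t ≤ m * (m - t) * t := by gcongr
        _ = t * m * (m - t) := by ring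
    have h9 : 0 ≤ (1 - t / m) ^ (m ^ 2 - m) := by
      apply pow_nonneg
      rw [sub_nonneg, div_le_one hm0]; linarith
    calc Real.exp (-(t * m)) ≤ Real.exp (-(t * m)) *
          ((1 - t / m) ^ (m ^ 2 - m) * Real.exp (t / (m - t)) ^ (m ^ 2 - m)) :=
          le_mul_of_one_le_right (Real.exp_pos _).le h4
      _ ≤ Real.exp (-(t * m)) * ((1 - t / m) ^ (m ^ 2 - m) * Real.exp (t * m)) := by gcongr
      _ = (1 - t / m) ^ (m ^ 2 - m) * (Real.exp (-(t * m)) * Real.exp (t * m)) := by ring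
      _ = (1 - t / m) ^ (m ^ 2 - m) := by
          rw [← Real.exp_add, neg_add_cancel, Real.exp_zero, mul_one]
  have hf := fact_le m (by omega)
  -- e^{-3}/m e^m ≤ (m-1)^m / m!
  have hA : Real.exp (-3) / m * Real.exp m ≤ ((m : ℝ) - 1) ^ m / m.factorial := by
    rw [le_div_iff₀ hf0]
    calc Real.exp (-3) / m * Real.exp m * m.factorial
        = Real.exp (-3) / m * (m.factorial * Real.exp m) := by ring
      _ ≤ Real.exp (-3) / m * (Real.exp 1 * m * (m : ℝ) ^ m) := by gcongr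
      _ = (m : ℝ) ^ m * (Real.exp (-3) * Real.exp 1) := by field_simp
      _ = (m : ℝ) ^ m * Real.exp (-2) := by
          rw [← Real.exp_add]; norm_num
      _ ≤ _ := hE
  have hB : ((m : ℝ) - 1) ^ m / m.factorial ≤ ((m ^ 2).choose m : ℝ) * (1 / m) ^ m := by
    rw [div_le_iff₀ hf0]
    have h1 : (((m : ℝ) * (m - 1)) ^ m) * (1 / m) ^ m = ((m : ℝ) - 1) ^ m := by
      rw [← mul_pow]; congr 1; field_simp
    calc ((m : ℝ) - 1) ^ m = (((m : ℝ) * (m - 1)) ^ m) * (1 / m) ^ m := h1.symm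
      _ ≤ (m.factorial * ((m ^ 2).choose m : ℝ)) * (1 / m) ^ m := by gcongr
      _ = _ := by ring
  calc Real.exp (-3) / m * (t * Real.exp (1 - t)) ^ m
      = (Real.exp (-3) / m * Real.exp m) * t ^ m * Real.exp (-(t * m)) := by
        rw [mul_pow, ← Real.exp_nat_mul]
        have h1 : Real.exp ((m : ℝ) * (1 - t)) = Real.exp m * Real.exp (-(t * m)) := by
          rw [← Real.exp_add]; congr 1; ring
        rw [h1]; ring
    _ ≤ (((m ^ 2).choose m : ℝ) * (1 / m) ^ m) * t ^ m * (1 - t / m) ^ (m ^ 2 - m) := by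
        have h2 := hA.trans hB
        gcongr
    _ = ((m ^ 2).choose m : ℝ) * (t / m) ^ m * (1 - t / m) ^ (m ^ 2 - m) := by
        rw [div_pow t, one_div, inv_pow]; ring

/-- choice of the box parameters. -/
theorem box_params_ge (θ ε : ℝ) (hθ0 : 0 < θ) (hθ1 : θ < 1) (hε : 0 < ε) :
    ∃ (g M w m : ℕ) (b : ℝ), 1 ≤ m ∧ m ≤ g ∧ 1 ≤ M ∧ (g : ℝ) * w ≤ (θ + ε) * (M * m) ∧ 1 ≤ b ∧
      b < Real.exp (-Real.log θ - (1 - θ) + ε) ∧
      ∃ BB : Finset (Fin g → Finset (Fin M)), (∀ β ∈ BB, ∀ i, (β i).card = w) ∧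
        (∀ y : Fin g → Fin M, ∃ β ∈ BB, m ≤ (univ.filter fun i => y i ∈ β i).card) ∧
        (BB.card : ℝ) ≤ b ^ m := by
  obtain ⟨K, hK⟩ := exists_nat_ge (1 / ε + 1 / (1 - θ) + 1)
  have h1θ : 0 < 1 - θ := by linarith
  have hKr : (1 : ℝ) ≤ K := by
    have h1 : 0 < 1 / ε := by positivity
    have h2 : 0 < 1 / (1 - θ) := by positivity
    linarith
  have hK0 : (0 : ℝ) < K := by linarith
  have hK1 : 1 ≤ K := by exact_mod_cast hKr
  have hεK : 1 ≤ ε * K := by
    have h1 : 1 / ε ≤ K := by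
      have h2 : 0 < 1 / (1 - θ) := by positivity
      linarith
    rw [div_le_iff₀ hε] at h1
    linarith
  have hθK : 1 ≤ (1 - θ) * K := by
    have h1 : 1 / (1 - θ) ≤ K := by
      have h2 : 0 < 1 / ε := by positivity
      linarith
    rw [div_le_iff₀ h1θ] at h1
    linarith
  set a : ℕ := ⌊θ * K⌋₊ + 1 with ha
  have ha1 : 1 ≤ a := by omega
  have hagt : θ * K < a := by
    rw [ha]; push_cast; exact Nat.lt_floor_add_one _
  have hale : (a : ℝ) ≤ θ * K + 1 := by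
    rw [ha]; push_cast
    have := Nat.floor_le (show 0 ≤ θ * K by positivity)
    linarith
  have ha0 : (0 : ℝ) < a := by exact_mod_cast ha1
  set t : ℝ := (a : ℝ) / K with ht
  have ht0 : 0 < t := by positivity
  have hθt : θ < t := by rw [ht, lt_div_iff₀ hK0]; exact hagt
  have ht1 : t ≤ 1 := by rw [ht, div_le_one hK0]; linarith
  have htε : t ≤ θ + ε := by rw [ht, div_le_iff₀ hK0]; linarith
  have haK : a ≤ K := by
    rw [ht, div_le_one hK0] at ht1
    exact_mod_cast ht1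
  set x : ℝ := (t * Real.exp (1 - t))⁻¹ with hx
  have hte0 : 0 < t * Real.exp (1 - t) := by positivity
  have hxe : x = Real.exp (-Real.log t - (1 - t)) := by
    have h1 : Real.exp (-Real.log t - (1 - t)) = Real.exp (-Real.log t) * Real.exp (-(1 - t)) := by
      rw [← Real.exp_add]; congr 1
    rw [hx, h1, Real.exp_neg, Real.exp_log ht0, Real.exp_neg, mul_inv]
  have hx1 : 1 ≤ x := by
    rw [hxe]
    apply Real.one_le_exp
    have := Real.log_le_sub_one_of_pos ht0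
    linarith
  have hxlt : x < Real.exp (-Real.log θ - (1 - θ) + ε) := by
    rw [hxe]
    apply Real.exp_lt_exp.2
    have h1 : t - θ ≤ Real.log t - Real.log θ := by
      rw [← Real.log_div ht0.ne' hθ0.ne']
      have h2 := Real.one_sub_inv_le_log_of_pos (show 0 < t / θ by positivity)
      have h3 : t - θ ≤ 1 - (t / θ)⁻¹ := by
        rw [inv_div, le_sub_iff_add_le, ← le_sub_iff_add_le', div_le_iff₀ ht0]
        nlinarith
      linarith
    linarith
  obtain ⟨b, hxb, hbc⟩ := exists_between hxlt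
  have hb0 : 0 < b := by linarith
  -- large m
  have hev1 : ∀ᶠ m : ℕ in atTop, (K * Real.exp 3) * ((m : ℝ) ^ 4 * (x / b) ^ m) < 1 / 2 := by
    have h1 : Tendsto (fun m : ℕ => (m : ℝ) ^ 4 * (x / b) ^ m) atTop (𝓝 0) := by
      apply tendsto_pow_const_mul_const_pow_of_abs_lt_one
      rw [abs_of_nonneg (by positivity), div_lt_one hb0]
      exact hxb
    have h2 := h1.const_mul (K * Real.exp 3)
    rw [mul_zero] at h2
    exact h2.eventually_lt_const (by norm_num)
  have hev2 : ∀ᶠ m : ℕ in atTop, (1 / b) ^ m < 1 / 2 := by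
    have h1 : Tendsto (fun m : ℕ => (1 / b) ^ m) atTop (𝓝 0) := by
      apply tendsto_pow_atTop_nhds_zero_of_lt_one (by positivity)
      rw [div_lt_one hb0]; linarith
    exact h1.eventually_lt_const (by norm_num)
  obtain ⟨m, h1, h2, hm2⟩ := (hev1.and (hev2.and (eventually_ge_atTop 2))).exists
  have hm0 : (0 : ℝ) < m := by positivity
  have hmK : a < m * K := by
    calc a ≤ 1 * K := by rw [one_mul]; exact haK
      _ < m * K := Nat.mul_lt_mul_of_pos_right (by omega) (by omega)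
  have hmm : m ≤ m ^ 2 := by nlinarith
  obtain ⟨BB, hBw, hcov, hBc⟩ := exists_boxes_ge (m ^ 2) (m * K) a m ha1 hmK hmm
  refine ⟨m ^ 2, m * K, a, m, b, by omega, hmm, Nat.mul_pos (by omega) (by omega), ?_,
    by linarith, hbc, BB, hBw, hcov, hBc.trans ?_⟩
  · push_cast
    calc (m : ℝ) ^ 2 * a = (a / K) * (m * K * m) := by field_simp
      _ ≤ (θ + ε) * (m * K * m) := by gcongr
  · have hfrac : (a : ℝ) / ((m * K : ℕ) : ℝ) = t / m := by
      rw [ht]; push_cast; field_simp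
    rw [hfrac]
    have hP := binom_lower m hm2 t ht0 ht1
    have hP0 : 0 < Real.exp (-3) / m * (t * Real.exp (1 - t)) ^ m := by positivity
    have hlogM : Real.log ((m * K : ℕ) : ℝ) ≤ m * K := by
      have h3 : (0 : ℝ) < ((m * K : ℕ) : ℝ) := by push_cast; positivity
      have := Real.log_le_sub_one_of_pos h3
      push_cast at this ⊢
      linarith
    have hbm : 0 < b ^ m := by positivity
    have h3 : (K * Real.exp 3) * (m : ℝ) ^ 4 * x ^ m ≤ b ^ m / 2 := by
      have h4 := h1.le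
      rw [div_pow, ← mul_div_assoc, ← mul_div_assoc, div_le_iff₀ hbm] at h4
      linarith
    have h5 : 1 ≤ b ^ m / 2 := by
      have h6 := h2.le
      rw [one_div_pow, div_le_iff₀ hbm] at h6
      linarith
    have hnum : (0 : ℝ) ≤ ((m ^ 2 : ℕ) : ℝ) * (m * K) := by positivity
    have h7 : ((m ^ 2 : ℕ) : ℝ) * Real.log ((m * K : ℕ) : ℝ) /
        (((m ^ 2).choose m : ℝ) * (t / m) ^ m * (1 - t / m) ^ (m ^ 2 - m)) ≤
        ((m ^ 2 : ℕ) : ℝ) * (m * K) / (Real.exp (-3) / m * (t * Real.exp (1 - t)) ^ m) := by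
      gcongr
    have h8 : ((m ^ 2 : ℕ) : ℝ) * (m * K) / (Real.exp (-3) / m * (t * Real.exp (1 - t)) ^ m) =
        (K * Real.exp 3) * (m : ℝ) ^ 4 * x ^ m := by
      rw [hx, inv_pow, Real.exp_neg]
      push_cast
      field_simp
    linarith

/-- H3.  Theorem E: `k ≥ exp (s (ln (1/θ) - (1-θ) + ε))` gives `f_r(k,s) ≤ (θ+ε) r s`. -/
theorem exp_upper_sharp (θ ε : ℝ) (hθ0 : 0 < θ) (hθ1 : θ < 1) (hε : 0 < ε) :
    ∃ s0 : ℕ, ∀ s : ℕ, s0 ≤ s → ∀ k : ℕ,
      Real.exp ((-Real.log θ - (1 - θ) + ε) * s) ≤ k → ∃ r0 : ℕ, ∀ r : ℕ, r0 ≤ r →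
      (fval r k s : ℝ) ≤ (θ + ε) * (r * s) := by
  obtain ⟨g, M, w, m, b, hm1, hmg, hM1, hgw, hb1, hbc, BB, hBw, hcov, hBc⟩ :=
    box_params_ge θ (ε / 4) hθ0 hθ1 (by positivity)
  have hbc' : b < Real.exp (-Real.log θ - (1 - θ) + ε) :=
    hbc.trans (Real.exp_lt_exp.2 (by linarith))
  have hb0 : 0 < b := by linarith
  set c : ℝ := -Real.log θ - (1 - θ) + ε with hc
  have hev : ∀ᶠ s : ℕ in atTop, ((s : ℝ) + 1) * (g + 1) * (b / Real.exp c) ^ s < 1 := by
    have hq1 : b / Real.exp c < 1 := by rw [div_lt_one (Real.exp_pos _)]; exact hbc'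
    have hq0 : 0 ≤ b / Real.exp c := by positivity
    have h1 : Tendsto (fun n : ℕ => (b / Real.exp c) ^ n) atTop (𝓝 0) :=
      tendsto_pow_atTop_nhds_zero_of_lt_one hq0 hq1
    have h2 : Tendsto (fun n : ℕ => (n : ℝ) * (b / Real.exp c) ^ n) atTop (𝓝 0) := by
      have := tendsto_pow_const_mul_const_pow_of_abs_lt_one 1 (r := b / Real.exp c)
        (by rwa [abs_of_nonneg hq0])
      simpa using this
    have h3 := (h1.add h2).const_mul ((g : ℝ) + 1)
    rw [add_zero, mul_zero] at h3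
    refine (h3.eventually_lt_const (show (0 : ℝ) < 1 by norm_num)).mono fun n hn => ?_
    calc ((n : ℝ) + 1) * (g + 1) * (b / Real.exp c) ^ n
        = ((g : ℝ) + 1) * ((b / Real.exp c) ^ n + n * (b / Real.exp c) ^ n) := by ring
      _ < 1 := hn
  obtain ⟨s1, hs1⟩ := eventually_atTop.1 hev
  refine ⟨max s1 ⌈4 * g / ε⌉₊, fun s hs k hk => ⟨⌈4 * (g * w) / ε⌉₊, fun r hr => ?_⟩⟩
  have hss1 : s1 ≤ s := (le_max_left _ _).trans hs
  have hsg : (g : ℝ) ≤ ε / 4 * s := by
    have h1 : 4 * (g : ℝ) / ε ≤ s := (Nat.le_ceil _).trans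
      (by exact_mod_cast (le_max_right _ _).trans hs)
    rw [div_le_iff₀ hε] at h1
    linarith
  have hrw : (g : ℝ) * w ≤ ε / 4 * r := by
    have h1 : 4 * ((g : ℝ) * w) / ε ≤ r := (Nat.le_ceil _).trans (by exact_mod_cast hr)
    rw [div_le_iff₀ hε] at h1
    linarith
  set j : ℕ := s / m with hj
  have hjm : j * m ≤ s := Nat.div_mul_le_self _ _
  have hjm2 : s - j * m ≤ g := by
    have h1 := Nat.div_add_mod s m
    have h2 := Nat.mod_lt s (show 0 < m by omega)
    rw [← hj, mul_comm] at h1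
    omega
  have hkey : BB.card ^ j * ((s + 1) * (g + 1)) ≤ k := by
    have h1 : (BB.card : ℝ) ^ j ≤ b ^ s := by
      calc (BB.card : ℝ) ^ j ≤ (b ^ m) ^ j := by gcongr
        _ = b ^ (j * m) := by rw [← pow_mul, mul_comm]
        _ ≤ b ^ s := pow_le_pow_right₀ hb1 hjm
    have h2 := (hs1 s hss1).le
    have h3 : (0 : ℝ) < Real.exp c ^ s := by positivity
    rw [div_pow, ← mul_div_assoc, div_le_iff₀ h3, one_mul] at h2
    have h4 : (BB.card : ℝ) ^ j * (((s : ℝ) + 1) * (g + 1)) ≤ k := by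
      calc (BB.card : ℝ) ^ j * (((s : ℝ) + 1) * (g + 1))
          ≤ b ^ s * (((s : ℝ) + 1) * (g + 1)) := by gcongr
        _ = ((s : ℝ) + 1) * (g + 1) * b ^ s := by ring
        _ ≤ Real.exp c ^ s := h2
        _ = Real.exp (c * s) := by rw [mul_comm, Real.exp_nat_mul]
        _ ≤ k := hk
    exact_mod_cast h4
  have hfv : fval r k s ≤ j * (g * w * ((r + M - 1) / M)) + g * r := by
    unfold fval
    apply Nat.sInf_le
    intro H hrH hH
    obtain ⟨T, hT, hTr⟩ := rec_iter_ge g M w m hm1 hmg hM1 BB hBw hcov r j s k hjm hkey H hrH hH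
    refine ⟨T, hT.trans ?_, hTr⟩
    have h5 : (s - j * m) * r ≤ g * r := Nat.mul_le_mul_right _ hjm2
    exact Nat.add_le_add_left (max_le le_rfl h5) _
  have hM0 : (0 : ℝ) < M := by exact_mod_cast hM1
  have hm0 : (0 : ℝ) < m := by exact_mod_cast hm1
  have hceil : (((r + M - 1) / M : ℕ) : ℝ) ≤ r / M + 1 := by
    calc (((r + M - 1) / M : ℕ) : ℝ) ≤ ((r + M - 1 : ℕ) : ℝ) / M := Nat.cast_div_le
      _ ≤ ((r : ℝ) + M) / M := by
          gcongr
          have : r + M - 1 ≤ r + M := Nat.sub_le _ _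
          exact_mod_cast this
      _ = r / M + 1 := by
          rw [add_div, div_self hM0.ne']
  have hfv' : (fval r k s : ℝ) ≤ j * (g * w * (r / M + 1)) + g * r := by
    calc (fval r k s : ℝ) ≤ ((j * (g * w * ((r + M - 1) / M)) + g * r : ℕ) : ℝ) := by
          exact_mod_cast hfv
      _ = j * (g * w * (((r + M - 1) / M : ℕ) : ℝ)) + g * r := by push_cast; ring
      _ ≤ _ := by gcongr
  have hjm' : (j : ℝ) * m ≤ s := by exact_mod_cast hjm
  have hjs : (j : ℝ) ≤ s := by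
    have : j ≤ s := Nat.div_le_self _ _
    exact_mod_cast this
  have hwr : (g : ℝ) * w * (r / M) ≤ (θ + ε / 4) * r * m := by
    rw [← mul_div_assoc, div_le_iff₀ hM0]
    calc (g : ℝ) * w * r ≤ ((θ + ε / 4) * (M * m)) * r := by gcongr
      _ = _ := by ring
  calc (fval r k s : ℝ) ≤ j * (g * w * (r / M + 1)) + g * r := hfv'
    _ = j * (g * w * (r / M)) + j * (g * w) + g * r := by ring
    _ ≤ j * ((θ + ε / 4) * r * m) + s * (ε / 4 * r) + (ε / 4 * s) * r := by gcongr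
    _ = (j * m) * ((θ + ε / 4) * r) + ε / 2 * (r * s) := by ring
    _ ≤ s * ((θ + ε / 4) * r) + ε / 2 * (r * s) := by gcongr
    _ ≤ (θ + ε) * (r * s) := by
        have : (0 : ℝ) ≤ ε * (r * s) := by positivity
        nlinarith

end LocTr
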