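import Pool.Agent.Work.MP_a8cb64_co.FDefs

/-!
MP_a8cb64_co, Theorem D (helper71, note 2363): definitions used in the proof.
-/

namespace LocTr

open Finset

/-- number of permutations of `{0,..,n-1}` which map every member of `J` onto itself. -/
noncomputable def symC (n : ℕ) (J : Finset (Finset ℕ)) : ℕ :=
  Nat.card {σ : Equiv.Perm (Fin n) // ∀ A ∈ J, ∀ x : Fin n, ((x : ℕ) ∈ A ↔ ((σ x : Fin n) : ℕ) ∈ A)}

/-- information of the family `J` of `r`-subsets of `{0,..,n-1}`: minus the logarithm of the
probability that `|J|` random `r`-sets have the same Venn diagram as `J`. -/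
noncomputable def infoG (n r : ℕ) (J : Finset (Finset ℕ)) : ℝ :=
  J.card * Real.log (n.choose r) + Real.log (symC n J) - Real.log (n.factorial)

end LocTr
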