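import Pool.Agent.Work.MP_a8cb64_co.DDefs

/-!
MP_a8cb64_co, Theorem D (helper71, note 2363): skeleton.  Nobody imports this file; every
module is its own file `LD1.lean`, ... in this folder with exactly the statement below.
-/

namespace LocTr

open Finset

/-- D1 (file `LD1.lean`).  Random `H`.  `n = W r`, `N0 = C(n,r)`, `L = ⌈3 n e^{4 β r}⌉` random
`r`-sets.  `C(M,r)/C(n,r) ≥ ((M-r)/(n-r))^r ≥ (1-2β)^r ≥ e^{-4βr}` for `M ≥ (1-β) n`.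
For `j ≤ k`: number of `j`-tuples `a` of `r`-sets with `infoG > 5 β r j` is at most
`(n+1)^(2^j) N0^j e^{-5βrj}`: tuples with the same counts `#{x : ∀ i, x ∈ a_i ↔ t_i}`,
`t : Fin j → Bool`, are in one orbit of `Perm (Fin n)` (`Equiv.ofFiberEquiv`), and the orbit of `a`
has size `n!/symC(a)` (fibres of `σ ↦ σ a`).  Union bound over `j`-subsets of `Fin L`. -/
theorem exists_info (W k : ℕ) (β : ℝ) (hW : 2 ≤ W) (hβ0 : 0 < β) (hβ : β ≤ 1 / 4) :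
    ∃ r0 : ℕ, ∀ r : ℕ, r0 ≤ r →
    ∃ H : Finset (Finset ℕ), (∀ e ∈ H, e ⊆ range (W * r) ∧ e.card = r) ∧
      (∀ Q : Finset ℕ, Q ⊆ range (W * r) → (1 - β) * (W * r) ≤ Q.card → ∃ e ∈ H, e ⊆ Q) ∧
      (∀ J : Finset (Finset ℕ), J ⊆ H → J.card ≤ k →
        infoG (W * r) r J ≤ 5 * β * r * J.card) := by
  sorry

/-- D2 (file `LD2.lean`).  The information is nonnegative (the orbit of the tuple `J` has
`n!/symC` elements, all of them tuples of `r`-sets). -/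
theorem infoG_nonneg (n r : ℕ) (J : Finset (Finset ℕ))
    (hJ : ∀ A ∈ J, A ⊆ range n ∧ A.card = r) : 0 ≤ infoG n r J := by
  sorry

/-- D2.  Supermodularity: `infoG (J + e) - infoG J = log C(n,r) - log |orbit of e under Stab J|`
and `Stab J' ≤ Stab J`. -/
theorem infoG_super (n r : ℕ) (J J' : Finset (Finset ℕ)) (e : Finset ℕ)
    (hJ' : ∀ A ∈ J', A ⊆ range n ∧ A.card = r) (he : e ⊆ range n ∧ e.card = r) (hJJ' : J ⊆ J')
    (heJ : e ∉ J') :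
    infoG n r (insert e J) - infoG n r J ≤ infoG n r (insert e J') - infoG n r J' := by
  sorry

/-- D3 (file `LD3.lean`).  The noisy order for a nonnegative supermodular function.
For `A ⊆ F`, `J ⊆ A` with weights `u^|J| (1-u)^(|A|-|J|)`:
`G A ≥ G A - E G J ≥ E ∑_{e ∈ A \ J} (G (J+e) - G J) = (1-u) ∑_{e ∈ A} E_{J ⊆ A-e} (G (J+e) - G J)`;
so some `e ∈ A` has `E_{J ⊆ A - e} ≤ G A / ((1-u)|A|) ≤ b/(1-u)`: it is the last one. -/
theorem info_order (G : Finset (Finset ℕ) → ℝ) (F : Finset (Finset ℕ)) (b u : ℝ)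
    (hu0 : 0 < u) (hu1 : u < 1) (h0 : ∀ J ⊆ F, 0 ≤ G J) (hb : ∀ J ⊆ F, G J ≤ b * J.card)
    (hsup : ∀ J J' : Finset (Finset ℕ), ∀ e ∈ F, J ⊆ J' → J' ⊆ F → e ∉ J' →
      G (insert e J) - G J ≤ G (insert e J') - G J') :
    ∃ g : ℕ → Finset ℕ, Set.InjOn g (range F.card) ∧ (range F.card).image g = F ∧
      ∀ i < F.card, ∑ J ∈ (range i).powerset, u ^ J.card * (1 - u) ^ (i - J.card) *
        (G (insert (g i) (J.image g)) - G (J.image g)) ≤ b / (1 - u) := by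
  sorry

/-- D4 (file `LD4.lean`).  Low points cost information.  `Q = loPts` is a union of atoms of `J`,
so invariant under `Stab J`; `N = |Q|`, `j = |e ∩ Q|`, `10 W j ≤ N`.  The orbit of `e` under
`Stab J` is contained in `{e' : |e'| = r, |e' ∩ Q| = j}`, of size
`C(N,j) C(n-N,r-j) = C(n,r) C(r,j) (N)_j (n-N)_{r-j} / (n)_r
 ≤ C(n,r) (r^j/j!) (N/(n-r))^j (1-N/n)^{r-j} ≤ C(n,r) (2θr)^j/j! e^{-θ(r-j)}`, `θ = N/n`, and
`y^j/j! ≤ 20^j e^{y/20}` with `y = 2θr`, `j ≤ θr/10`: total `≤ C(n,r) e^{-θr/2}`. -/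
theorem low_info (W r : ℕ) (hW : 2 ≤ W) (hr : 1 ≤ r) (J : Finset (Finset ℕ)) (e : Finset ℕ)
    (hJ : ∀ A ∈ J, A ⊆ range (W * r) ∧ A.card = r) (he : e ⊆ range (W * r) ∧ e.card = r)
    (heJ : e ∉ J) :
    ((loPts 10 W (range (W * r)) J e).card : ℝ) / (2 * W) ≤
      infoG (W * r) r (insert e J) - infoG (W * r) r J := by
  sorry

/-- D5 (file `LD5.lean`).  The chain estimate without truncation (`B = 1`), as F5: words with
`ρ_i(A) < 1/(2dW)` have total probability `≤ 2δ`; on the others `τ_i(A) = u ρ_i(A) ≥ u/(2dW)`. -/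
theorem chain_exp_one (U : Finset ℕ) (e : ℕ → Finset ℕ) (u δ θ : ℝ) (d W r k : ℕ) (hu0 : 0 < u)
    (hu1 : u < 1) (hd : 1 ≤ d) (hW : 1 ≤ W) (hr : 1 ≤ r) (hU : U.card = W * r)
    (hθ : 0 ≤ θ) (he : ∀ i < k, e i ⊆ U ∧ (e i).card = r)
    (hi : ∀ i < k, ∑ J ∈ (range i).powerset,
        u ^ J.card * (1 - u) ^ (i - J.card) * ((loPts d W U (J.image e) (e i)).card : ℝ) ≤
          δ * U.card)
    (i : ℕ) (hik : i < k) :
    ∑ A ∈ (range i).powerset, chP (tauw U e u 1) i A *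
        Real.exp (-(θ * tauw U e u 1 i A)) ≤
      2 * δ + Real.exp (-(θ * u / (2 * d * W))) := by
  sorry

/-- D5b.  `0 ≤ τ ≤ u`. -/
theorem tauw_bd_one (U : Finset ℕ) (e : ℕ → Finset ℕ) (u : ℝ) (hu0 : 0 < u) (hu1 : u < 1)
    (i : ℕ) (A : Finset ℕ) : 0 ≤ tauw U e u 1 i A ∧ tauw U e u 1 i A ≤ u := by
  sorry

/-- D5c.  A set of marks of positive probability is realised by a point. -/
theorem chain_point_one (U : Finset ℕ) (e : ℕ → Finset ℕ) (u : ℝ) (hu0 : 0 < u) (hu1 : u < 1)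
    (hU : U.Nonempty) (k : ℕ) (S : Finset ℕ) (hS : S ⊆ range k)
    (hpos : ∀ i ∈ S, 0 < tauw U e u 1 i (S.filter (· < i))) : ∃ x ∈ U, ∀ i ∈ S, x ∈ e i := by
  sorry

/-- D6 (file `LD6.lean`, helper71).  The coupling of `s` particles with exponent `1 + η`. -/
theorem chain_p (s k : ℕ) (τ : ℕ → Finset ℕ → ℝ) (S η lam : ℝ) (hS : 4 ≤ S)
    (hη : 2 ≤ η * (S - 1) ^ 2) (hη1 : η ≤ 1 / 4) (hlam : 0 < lam)
    (h0 : ∀ i A, 0 ≤ τ i A) (h1 : ∀ i A, τ i A ≤ 1 / 2)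
    (hstart : ∑ i ∈ range k, Real.exp (lam * S) * (∑ A ∈ (range i).powerset,
      chP τ i A * Real.exp (-((1 + η) * lam * τ i A))) ^ ((s : ℝ) / (1 + η)) < 1) :
    ∃ T : Fin s → Finset ℕ, (∀ i < k, ∃ j, i ∈ T j) ∧
      ∀ j, T j ⊆ range k ∧ ∀ i ∈ T j, 0 < τ i ((T j).filter (· < i)) := by
  sorry

/-- D7 (file `LD7.lean`).  Assembly of the lower bound for `s ≥ C (1+K)^{3/2}`.
`u = 1/2`, `d = 10`, `S = 1 + √(2(K+8))`, `η = 1/(K+8)`, `E = e^{-(K+6)}`, `β = E/40`,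
`δ = 20 β = E/2`, `W = ⌊s/(10 S (K+6))⌋ ≥ 2`, `lam = 40 W (K+6)/(1+η)`:
`k e^{lam S} (2E)^{s/(1+η)} < 1`.  Order from `info_order` with `G = infoG (W r) r`, `b = 5βr`, and
`low_info`: `∑_J .. |loPts| ≤ 2 W · 10 β r = 20 β |U|`.  `fval > βWr`-ish: every transversal has
more than `β W r` points. -/
theorem lower_big : ∃ C : ℝ, 0 < C ∧ ∀ s k : ℕ, 1 ≤ s → s < k → ∀ K : ℝ, 0 ≤ K →
    (k : ℝ) ≤ Real.exp (K * s) → C * (1 + K) ^ (3 / 2 : ℝ) ≤ s → ∃ r0 : ℕ, ∀ r : ℕ, r0 ≤ r →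
      (r : ℝ) * s * Real.exp (-K) / (C * (1 + K) ^ (3 / 2 : ℝ)) ≤ (fval r k s : ℝ) := by
  sorry

/-- D8 (file `LD8.lean`).  Complete `r`-graph on `b + r` points, `b = ⌈r k^{-1/s}⌉ - 1`:
`k C(b,s) < C(b+r,s)`, so some `s`-set is not contained in the complement of any of `k` given
edges (if `b + r ≤ s` take all points). -/
theorem fval_complete (r k s : ℕ) (hs : 1 ≤ s) (hsk : s < k) (hr : 1 ≤ r) :
    (r : ℝ) * (k : ℝ) ^ (-(1 / (s : ℝ))) ≤ (fval r k s : ℝ) := by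
  sorry

/-- D9 (file `LD9.lean`).  Upper bound for all `k`.  `M = ⌊(k/2)^{1/s}⌋ ≥ 1`; recursion
`f_r(1 + M k', s) ≤ ⌈r/M⌉ + f_r(k', s-1)` (cut an edge into `M` pieces), `1 + M + .. + M^s ≤ 2 M^s ≤ k`
if `M ≥ 2`; if `M = 1` then `k < 2^{s+1}` and `r s ≤ 4 r s k^{-1/s}`. -/
theorem fval_root_upper (k s : ℕ) (hs : 1 ≤ s) (hsk : s < k) : ∃ r0 : ℕ, ∀ r : ℕ, r0 ≤ r →
    (fval r k s : ℝ) ≤ 8 * (r * s) * (k : ℝ) ^ (-(1 / (s : ℝ))) := by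
  sorry

/-- D10 (file `LD10.lean`).  Theorem D. -/
theorem theoremD : ∃ C : ℝ, 0 < C ∧ ∀ k s : ℕ, 1 ≤ s → s < k → ∃ r0 : ℕ, ∀ r : ℕ, r0 ≤ r →
    (r : ℝ) * s * (k : ℝ) ^ (-(1 / (s : ℝ))) / (C * (1 + Real.log k / s) ^ (3 / 2 : ℝ)) ≤
        (fval r k s : ℝ) ∧
      (fval r k s : ℝ) ≤ C * (r * s) * (k : ℝ) ^ (-(1 / (s : ℝ))) := by
  sorry

end LocTr
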