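import Pool.Agent.Work.MP_a8cb64_co.LDefs

/-!
MP_a8cb64_co, Theorem B (helper72, note 2344): definitions used in the proof.
-/

namespace LocTr

open Finset

/-- the atom of `x` with respect to the family `J` inside `U`. -/
def atomJ (U : Finset ℕ) (J : Finset (Finset ℕ)) (x : ℕ) : Finset ℕ :=
  U.filter fun y => ∀ f ∈ J, (y ∈ f ↔ x ∈ f)

/-- the high points of `e` with respect to `J`. -/
def hiPts (C W : ℕ) (U : Finset ℕ) (J : Finset (Finset ℕ)) (e : Finset ℕ) : Finset ℕ :=
  e.filter fun x => C * (atomJ U J x).card < W * (e ∩ atomJ U J x).card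

/-- the probability of the set of marks `A ∩ {0..i-1}` in a chain with transition probabilities
`τ l (A ∩ {0..l-1})`. -/
noncomputable def chP (τ : ℕ → Finset ℕ → ℝ) (i : ℕ) (A : Finset ℕ) : ℝ :=
  ∏ l ∈ range i, (if l ∈ A then τ l (A.filter (· < l)) else 1 - τ l (A.filter (· < l)))

/-- `1` if `x ∈ e`. -/
noncomputable def ind (e : Finset ℕ) (x : ℕ) : ℝ := if x ∈ e then 1 else 0

/-- weight of the point `x` when the marks up to time `i` are `A ∩ {0..i-1}` (depends on `A` only
through `A ∩ {0..i-1}`): at time `i` the point gets the mark `i` with probability `u` if `x ∈ e i`,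
unless the conditional probability of `e i` given the marks is larger than `B`. -/
noncomputable def qw (U : Finset ℕ) (e : ℕ → Finset ℕ) (u B : ℝ) : ℕ → Finset ℕ → ℕ → ℝ
  | 0, _, _ => 1
  | i + 1, A, x => qw U e u B i A x *
      (if (∑ y ∈ U, qw U e u B i A y * ind (e i) y) ≤ B * ∑ y ∈ U, qw U e u B i A y then
        (if i ∈ A then u * ind (e i) x else 1 - u * ind (e i) x)
       else (if i ∈ A then 0 else 1))

/-- transition probability of the chain of marks. -/
noncomputable def tauw (U : Finset ℕ) (e : ℕ → Finset ℕ) (u B : ℝ) (i : ℕ) (A : Finset ℕ) : ℝ :=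
  if (∑ y ∈ U, qw U e u B i A y * ind (e i) y) ≤ B * ∑ y ∈ U, qw U e u B i A y then
    u * ((∑ y ∈ U, qw U e u B i A y * ind (e i) y) / ∑ y ∈ U, qw U e u B i A y)
  else 0

end LocTr
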