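import Pool.Agent.Work.MP_a8cb64_co.EDefs

/-!
MP_a8cb64_co, Theorem B (helper72, note 2344): skeleton.  Nobody imports this file; every module
is its own file `LE1.lean`, `LE2.lean`, ... in this folder with exactly the statement below.
-/

namespace LocTr

open Finset

/-- E1 (file `LE1.lean`).  Note 2344, Lemma 1.
`n = W r`, `X` = the `r`-subsets of `range n`, `L = n (A+1)^r` (or so) random members.
* For fixed `J` and `e ∈ X` bad (`r ≤ a |hiPts|`): `Q` = union of the atoms `T` of `J` with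
  `C |T| < W |e ∩ T|`; then `C |Q| < W r = n` and `r ≤ a |e ∩ Q|`.  There are at most `2^(2^k)`
  such `Q` (unions of atoms of `J`) and for each `Q` the number of `e` with `|e ∩ Q| ≥ t = ⌈r/a⌉`
  is at most `C(|Q|,t) C(n-t,r-t) ≤ 2^r C^{-t} C(n,r)`, as
  `C(|Q|,t) C(n-t,r-t) = C(n,r) C(r,t) C(|Q|,t) / C(n,t)` and `C(|Q|,t)/C(n,t) ≤ (|Q|/n)^t`.
* Union bound over disjoint index sets `J, I ⊆ Fin L`, `1 ≤ |J| ≤ k`, `|I| = |J|/b + 1`
  (natural division; `|J| < b |I|`): `L^{|J|+|I|} P^{|I|} ≤ (L^{b+1} P)^{|I|}`, which tends to `0`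
  when `C = (4 (A+1)^{b+1})^a`.  (`J = ∅`: no bad `e`, since the only atom is `U` and
  `C * (W r) < W * r` is false for `C ≥ 1`.)
* every `m r`-subset contains an edge: as in `LM1`. -/
theorem exists_spread (A a b : ℕ) (ha : 1 ≤ a) (hb : 1 ≤ b) : ∃ C : ℕ, 1 ≤ C ∧
    ∀ k W m : ℕ, 2 ≤ m → m ≤ W → W - 1 ≤ A * (m - 1) → ∃ r0 : ℕ, ∀ r : ℕ, r0 ≤ r →
    ∃ H : Finset (Finset ℕ), (∀ e ∈ H, e ⊆ range (W * r) ∧ e.card = r) ∧
      (∀ Q : Finset ℕ, Q ⊆ range (W * r) → Q.card = m * r → ∃ e ∈ H, e ⊆ Q) ∧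
      (∀ J : Finset (Finset ℕ), J ⊆ H → J.card ≤ k →
        b * ((H \ J).filter
          (fun e => r ≤ a * (hiPts C W (range (W * r)) J e).card)).card ≤ J.card) := by
  sorry

/-- E2 (file `LE2.lean`).  Note 2344, (S2).  Induction on `|F|`: for `A ⊆ F` nonempty, sum over
`J ⊆ A` with weights `u^|J| (1-u)^(|A|-|J|)` of the number of bad `e ∈ A \ J` is `≤ u |A| / b`; hence
some `e ∈ A` has `∑_{J ⊆ A - e} u^|J| (1-u)^(|A|-1-|J|) [e bad w.r.t. J] ≤ u / (b (1-u))`: it is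
the last one.  Not bad means `|hiPts| < r/a`; always `|hiPts| ≤ r`. -/
theorem good_order (C W a b r k : ℕ) (U : Finset ℕ) (H F : Finset (Finset ℕ)) (u : ℝ)
    (ha : 1 ≤ a) (hb : 1 ≤ b) (hu0 : 0 < u) (hu1 : u < 1) (hr : ∀ e ∈ H, e.card = r)
    (hP : ∀ J : Finset (Finset ℕ), J ⊆ H → J.card ≤ k →
        b * ((H \ J).filter (fun e => r ≤ a * (hiPts C W U J e).card)).card ≤ J.card)
    (hF : F ⊆ H) (hFk : F.card ≤ k) :
    ∃ g : ℕ → Finset ℕ, Set.InjOn g (range F.card) ∧ (range F.card).image g = F ∧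
      ∀ i < F.card, ∑ J ∈ (range i).powerset,
        u ^ J.card * (1 - u) ^ (i - J.card) * ((hiPts C W U (J.image g) (g i)).card : ℝ) ≤
          (1 / a + u / (b * (1 - u))) * r := by
  sorry

/-- E4 (file `LE4.lean`, helper72).  Note 2344, (S4): the coupling of `s` particles. -/
theorem chain_thm (s k : ℕ) (τ : ℕ → Finset ℕ → ℝ) (B γ : ℝ) (hB : 0 < B) (hB4 : B ≤ 1 / 4)
    (h0 : ∀ i A, 0 ≤ τ i A) (h1 : ∀ i A, τ i A ≤ B) (hγ : 0 < γ) (hγ1 : γ ≤ 1)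
    (hE : ∀ i < k, 1 + γ ≤ s * ∑ A ∈ (range i).powerset, chP τ i A * τ i A)
    (hk : (k : ℝ) * Real.exp (-(γ ^ 2 / (8 * B))) < 1) :
    ∃ S : Fin s → Finset ℕ, (∀ i < k, ∃ j, i ∈ S j) ∧
      ∀ j, S j ⊆ range k ∧ ∀ i ∈ S j, 0 < τ i ((S j).filter (· < i)) := by
  sorry

/-- E5a (file `LE5.lean`).  The transition probabilities are between `0` and `B`. -/
theorem tauw_bd (U : Finset ℕ) (e : ℕ → Finset ℕ) (u B : ℝ) (hu0 : 0 < u) (hu1 : u < 1)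
    (hB : 0 < B) (i : ℕ) (A : Finset ℕ) : 0 ≤ tauw U e u B i A ∧ tauw U e u B i A ≤ B := by
  sorry

/-- E5b.  Note 2344, Lemma 3, `B = 2C/W`.  With `n = |U| = W r`:
`chP (tauw ..) i A = (∑_{x ∈ U} qw i A x) / n`, so the left side below is
`(u/n) ∑_{A good} ∑_{x ∈ U ∩ e i} qw i A x`; `∑_A qw i A x = 1` for each `x`; and
`qw i A x = ∑_{J ⊆ range i} u^|J| (1-u)^(i-|J|) [word i J x = A]` where `word` is defined by
`word (i+1) J x = insert i (word i J x)` if `i ∈ J`, `x ∈ e i` and time `i` is good for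
`word i J x`, else `word i J x`; `word i J x` depends on `x` only through the atom of `x` w.r.t.
`{e l : l ∈ J}`.  For `A` not good: the not-high part of `e i` has weight
`≤ (C/W) ∑_x qw i A x < (1/2) ∑_{x ∈ e i} qw i A x`. -/
theorem chain_lower (U : Finset ℕ) (e : ℕ → Finset ℕ) (u δ : ℝ) (C W r k : ℕ) (hu0 : 0 < u)
    (hu1 : u < 1) (hC : 1 ≤ C) (hW : 1 ≤ W) (hr : 1 ≤ r) (hU : U.card = W * r)
    (he : ∀ i < k, e i ⊆ U ∧ (e i).card = r)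
    (hi : ∀ i < k, ∑ J ∈ (range i).powerset,
        u ^ J.card * (1 - u) ^ (i - J.card) * ((hiPts C W U (J.image e) (e i)).card : ℝ) ≤ δ * r)
    (i : ℕ) (hik : i < k) :
    u / W * (1 - 2 * δ) ≤ ∑ A ∈ (range i).powerset,
      chP (tauw U e u (2 * C / W)) i A * tauw U e u (2 * C / W) i A := by
  sorry

/-- E5c.  A set of marks of positive probability is realised by a point. -/
theorem chain_point (U : Finset ℕ) (e : ℕ → Finset ℕ) (u B : ℝ) (hu0 : 0 < u) (hu1 : u < 1)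
    (hU : U.Nonempty) (hB : 0 < B) (hB1 : B < 1) (k : ℕ) (S : Finset ℕ) (hS : S ⊆ range k)
    (hpos : ∀ i ∈ S, 0 < tauw U e u B i (S.filter (· < i))) : ∃ x ∈ U, ∀ i ∈ S, x ∈ e i := by
  sorry

/-- E6 (file `LE6.lean`).  Assembly of part (1).  `u = 1 - ε/16`, `a`, `b` with
`1/a + u/(b(1-u)) ≤ ε/64`, `A = ⌈8/ε⌉`, `C` from E1, `W = ⌊(1-ε/2)s⌋`, `m = ⌈ε s/4⌉ + 1`,
`B = 2C/W ≤ 1/4`, `γ = ε/8` or so: `s · u/W · (1-2δ) ≥ 1+γ`. -/
theorem exp_lower (ε : ℝ) (hε : 0 < ε) (hε1 : ε < 1) : ∃ c : ℝ, 0 < c ∧ ∃ s0 : ℕ,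
    ∀ s : ℕ, s0 ≤ s → ∀ k : ℕ, s < k → (k : ℝ) ≤ Real.exp (c * s) → ∃ r0 : ℕ, ∀ r : ℕ, r0 ≤ r →
      (1 - ε) * (r * s) ≤ (fval r k s : ℝ) := by
  sorry

/-- E7 (file `LE7.lean`).  Part (2). -/
theorem fval_upper (r s m k : ℕ) (hm : m ≤ s) (hk : 2 ^ m * (s - m + 2) ≤ k + 1) (hsk : s < k) :
    fval r k s + m * (r / 2) ≤ r * s := by
  sorry

end LocTr
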