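import Pool.Agent.Work.MP_a8cb64_co.EDefs

/-!
MP_a8cb64_co, Theorem C (helper72): definitions used in the proof.
-/

namespace LocTr

open Finset

/-- the low points of `U` with respect to `J` and `e`: `|e ∩ A| < |A| / (d W)` for the atom `A` of
the point. -/
def loPts (d W : ℕ) (U : Finset ℕ) (J : Finset (Finset ℕ)) (e : Finset ℕ) : Finset ℕ :=
  U.filter fun x => d * W * (e ∩ atomJ U J x).card < (atomJ U J x).card

end LocTr
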