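import Pool.Agent.Work.MP_a8cb64_co.FDefs

/-!
MP_a8cb64_co, Theorem C / phase diagram (helper72): skeleton.  Nobody imports this file; every
module is its own file `LF1.lean`, ... in this folder with exactly the statement below.
-/

namespace LocTr

open Finset

/-- F1 (file `LF1.lean`).  Random `H` with few low-bad edges.  `d = 256 a^2`, `g = 36 a (b+1)`.
`L = ⌈n (C(n,r)/C(mr,r))⌉`, `C(n,r)/C(mr,r) ≤ ((W-1)/(m-1))^r ≤ (1 + 2/g)^r ≤ e^{2r/g}`.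
For fixed `J`, `e` low-bad: `Q = loPts` is a union of atoms of `J`, `|Q| ≥ n/a`,
`d W |e ∩ Q| < |Q|`.  Number of `e` with `|e ∩ Q| = j`:
`C(N,j) C(n-N,r-j) = C(n,r) C(r,j) (N)_j (n-N)_{r-j} / (n)_r ≤ C(n,r) C(r,j) exp(-(r-j)(N-j)/n)`.
Union bound over disjoint index sets `J, I`, `|I| = |J|/b + 1`: `(L^{b+1} P_bad)^{|I|} → 0`.
(`J = ∅` : the only atom is `U`, `d W r < W r` is false.) -/
theorem exists_low (a b : ℕ) (ha : 1 ≤ a) (hb : 1 ≤ b) : ∃ d g : ℕ, 1 ≤ d ∧ 1 ≤ g ∧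
    ∀ k W m : ℕ, 4 ≤ W → m ≤ W → 2 ≤ m → (W - m) * g ≤ W → ∃ r0 : ℕ, ∀ r : ℕ, r0 ≤ r →
    ∃ H : Finset (Finset ℕ), (∀ e ∈ H, e ⊆ range (W * r) ∧ e.card = r) ∧
      (∀ Q : Finset ℕ, Q ⊆ range (W * r) → Q.card = m * r → ∃ e ∈ H, e ⊆ Q) ∧
      (∀ J : Finset (Finset ℕ), J ⊆ H → J.card ≤ k →
        b * ((H \ J).filter
          (fun e => W * r ≤ a * (loPts d W (range (W * r)) J e).card)).card ≤ J.card) := by
  sorry

/-- F2 (file `LF2.lean`).  The order, as `good_order`. -/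
theorem good_order_low (d W a b k : ℕ) (U : Finset ℕ) (H F : Finset (Finset ℕ)) (u : ℝ)
    (ha : 1 ≤ a) (hb : 1 ≤ b) (hu0 : 0 < u) (hu1 : u < 1)
    (hP : ∀ J : Finset (Finset ℕ), J ⊆ H → J.card ≤ k →
        b * ((H \ J).filter (fun e => U.card ≤ a * (loPts d W U J e).card)).card ≤ J.card)
    (hF : F ⊆ H) (hFk : F.card ≤ k) :
    ∃ g : ℕ → Finset ℕ, Set.InjOn g (range F.card) ∧ (range F.card).image g = F ∧
      ∀ i < F.card, ∑ J ∈ (range i).powerset,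
        u ^ J.card * (1 - u) ^ (i - J.card) * ((loPts d W U (J.image g) (g i)).card : ℝ) ≤
          (1 / a + u / (b * (1 - u))) * U.card := by
  sorry

/-- F4 (file `LF4.lean`, helper72).  General form of `chain_thm`. -/
theorem chain_gen (s k : ℕ) (τ : ℕ → Finset ℕ → ℝ) (B θ : ℝ) (hB4 : B ≤ 1 / 4)
    (h0 : ∀ i A, 0 ≤ τ i A) (h1 : ∀ i A, τ i A ≤ B) (hθ : 0 < θ)
    (hθB : 2 * B * Real.exp (θ * B / 2) ≤ 1)
    (hstart : ∑ i ∈ range k, Real.exp (θ / 2) * (Real.sqrt (∑ A ∈ (range i).powerset,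
      chP τ i A * Real.exp (-(θ * τ i A)))) ^ s < 1) :
    ∃ S : Fin s → Finset ℕ, (∀ i < k, ∃ j, i ∈ S j) ∧
      ∀ j, S j ⊆ range k ∧ ∀ i ∈ S j, 0 < τ i ((S j).filter (· < i)) := by
  sorry

/-- F5 (file `LF5.lean`).  The chain estimate, truncation `B = C / W`.  With `n = |U| = W r`,
`P(A) = chP .. i A = (∑_{x ∈ U} qw i A x)/n`, `ρ_i(A)` the conditional probability of `e i`:
words with `ρ_i(A) > B` have total probability `≤ 1/(B W) = 1/C`; words with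
`ρ_i(A) < 1/(2 d W)` have total probability `≤ 2 δ`; on the others
`τ_i(A) = u ρ_i(A) ≥ u/(2 d W)`. -/
theorem chain_exp (U : Finset ℕ) (e : ℕ → Finset ℕ) (u δ θ : ℝ) (C d W r k : ℕ) (hu0 : 0 < u)
    (hu1 : u < 1) (hC : 1 ≤ C) (hd : 1 ≤ d) (hW : 1 ≤ W) (hr : 1 ≤ r) (hU : U.card = W * r)
    (hθ : 0 ≤ θ) (he : ∀ i < k, e i ⊆ U ∧ (e i).card = r)
    (hi : ∀ i < k, ∑ J ∈ (range i).powerset,
        u ^ J.card * (1 - u) ^ (i - J.card) * ((loPts d W U (J.image e) (e i)).card : ℝ) ≤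
          δ * U.card)
    (i : ℕ) (hik : i < k) :
    ∑ A ∈ (range i).powerset, chP (tauw U e u (C / W)) i A *
        Real.exp (-(θ * tauw U e u (C / W) i A)) ≤
      2 * δ + 1 / C + Real.exp (-(θ * u / (2 * d * W))) := by
  sorry

/-- F6 (file `LF6.lean`).  Assembly of part (2). -/
theorem exp_lower_all (c : ℝ) (hc : 0 < c) : ∃ δ : ℝ, 0 < δ ∧ ∃ s0 : ℕ,
    ∀ s : ℕ, s0 ≤ s → ∀ k : ℕ, s < k → (k : ℝ) ≤ Real.exp (c * s) → ∃ r0 : ℕ, ∀ r : ℕ, r0 ≤ r →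
      δ * (r * s) ≤ (fval r k s : ℝ) := by
  sorry

/-- G1 (file `LG1.lean`).  Greedy covering of `[M]^g` by boxes with sides of `w` cells. -/
theorem exists_boxes (g M w : ℕ) (hw : 1 ≤ w) (hwM : w ≤ M) :
    ∃ BB : Finset (Fin g → Finset (Fin M)), (∀ β ∈ BB, ∀ i, (β i).card = w) ∧
      (∀ y : Fin g → Fin M, ∃ β ∈ BB, ∀ i, y i ∈ β i) ∧
      (BB.card : ℝ) ≤ ((M : ℝ) / w) ^ g * (1 + g * Real.log M) + 1 := by
  sorry

/-- G2 (file `LG2.lean`).  Block recursion (note, proof of (3)).  `(r + M - 1) / M = ⌈r/M⌉`. -/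
theorem block_rec (g M w N : ℕ) (hM : 1 ≤ M) (BB : Finset (Fin g → Finset (Fin M)))
    (hBw : ∀ β ∈ BB, ∀ i, (β i).card = w) (hcov : ∀ y : Fin g → Fin M, ∃ β ∈ BB, ∀ i, y i ∈ β i)
    (hN : BB.card ≤ N) (r k k' s f : ℕ) (hgs : g ≤ s) (hk : g + N * k' ≤ k)
    (hrec : ∀ H : Finset (Finset ℕ), (∀ e ∈ H, e.card = r) → LocProp k' (s - g) H →
      ∃ T : Finset ℕ, T.card ≤ f ∧ IsTrans H T) (H : Finset (Finset ℕ))
    (hr : ∀ e ∈ H, e.card = r) (hH : LocProp k s H) :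
    ∃ T : Finset ℕ, T.card ≤ max (g * r) (g * w * ((r + M - 1) / M) + f) ∧ IsTrans H T := by
  sorry

/-- G3 (file `LG3.lean`).  Part (3). -/
theorem exp_upper_all (c ε : ℝ) (hc : 0 < c) (hε : 0 < ε) : ∃ s0 : ℕ, ∀ s : ℕ, s0 ≤ s →
    ∀ k : ℕ, Real.exp (c * s) ≤ k → ∃ r0 : ℕ, ∀ r : ℕ, r0 ≤ r →
      (fval r k s : ℝ) ≤ (Real.exp (-c) + ε) * (r * s) := by
  sorry

end LocTr
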