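import Pool.Agent.Work.MP_a8cb64_co.EDefs

/-!
MP_a8cb64_co, Theorem B, module E1 (helper94): random `r`-graphs with small independence number
and few bad edges with respect to every small subfamily.
-/

namespace LocTr

open Finset

namespace RandG

theorem mul_choose_le (a b n M r : ℕ) (h : ∀ i < r, a * (n - i) ≤ b * (M - i)) :
    a ^ r * n.choose r ≤ b ^ r * M.choose r := by
  have h1 : a ^ r * n.descFactorial r ≤ b ^ r * M.descFactorial r := by
    rw [Nat.descFactorial_eq_prod_range, Nat.descFactorial_eq_prod_range]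
    have e1 : a ^ r * ∏ i ∈ range r, (n - i) = ∏ i ∈ range r, (a * (n - i)) := by
      rw [Finset.prod_mul_distrib, Finset.prod_const, card_range]
    have e2 : b ^ r * ∏ i ∈ range r, (M - i) = ∏ i ∈ range r, (b * (M - i)) := by
      rw [Finset.prod_mul_distrib, Finset.prod_const, card_range]
    rw [e1, e2]
    exact Finset.prod_le_prod' fun i hi => h i (mem_range.1 hi)
  rw [Nat.descFactorial_eq_factorial_mul_choose, Nat.descFactorial_eq_factorial_mul_choose] at h1
  have h2 : r.factorial * (a ^ r * n.choose r) ≤ r.factorial * (b ^ r * M.choose r) := by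
    calc r.factorial * (a ^ r * n.choose r) = a ^ r * (r.factorial * n.choose r) := by ring
      _ ≤ b ^ r * (r.factorial * M.choose r) := h1
      _ = _ := by ring
  exact Nat.le_of_mul_le_mul_left h2 (Nat.factorial_pos r)

theorem card_superset (U S : Finset ℕ) (r : ℕ) (hS : S ⊆ U) :
    ((powersetCard r U).filter fun f => S ⊆ f).card ≤ (U.card - S.card).choose (r - S.card) := by
  have h1 : (U.card - S.card).choose (r - S.card) =
      (powersetCard (r - S.card) (U \ S)).card := by
    rw [card_powersetCard, card_sdiff_of_subset hS]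
  rw [h1]
  refine card_le_card_of_injOn (fun f => f \ S) ?_ ?_
  · intro f hf
    rw [mem_coe, mem_filter, mem_powersetCard] at hf
    rw [mem_coe, mem_powersetCard]
    obtain ⟨⟨h2, h3⟩, h4⟩ := hf
    refine ⟨sdiff_subset_sdiff h2 (le_refl S), ?_⟩
    rw [card_sdiff_of_subset h4, h3]
  · intro f hf g hg hfg
    rw [mem_coe, mem_filter] at hf hg
    have h5 : f \ S = g \ S := hfg
    rw [← sdiff_union_of_subset hf.2, ← sdiff_union_of_subset hg.2, h5]

/-- The number of `r`-sets meeting `T` in at least `t` points. -/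
theorem count_big (U T : Finset ℕ) (r t : ℕ) (hT : T ⊆ U) :
    ((powersetCard r U).filter fun e => t ≤ (e ∩ T).card).card ≤
      T.card.choose t * (U.card - t).choose (r - t) := by
  have h1 : ((powersetCard r U).filter fun e => t ≤ (e ∩ T).card) ⊆
      (powersetCard t T).biUnion fun S => (powersetCard r U).filter fun e => S ⊆ e := by
    intro f hf
    rw [mem_filter] at hf
    obtain ⟨S, hS, hSc⟩ := exists_subset_card_eq hf.2
    rw [mem_biUnion]
    refine ⟨S, ?_, ?_⟩
    · rw [mem_powersetCard]
      exact ⟨hS.trans inter_subset_right, hSc⟩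
    · rw [mem_filter]
      exact ⟨hf.1, hS.trans inter_subset_left⟩
  calc ((powersetCard r U).filter fun e => t ≤ (e ∩ T).card).card
      ≤ ((powersetCard t T).biUnion fun S => (powersetCard r U).filter fun e => S ⊆ e).card :=
        card_le_card h1
    _ ≤ ∑ S ∈ powersetCard t T, ((powersetCard r U).filter fun e => S ⊆ e).card :=
        card_biUnion_le
    _ ≤ ∑ _S ∈ powersetCard t T, (U.card - t).choose (r - t) := by
        refine sum_le_sum fun S hS => ?_
        rw [mem_powersetCard] at hS
        have h2 := card_superset U S r (hS.1.trans hT)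
        rw [hS.2] at h2
        exact h2
    _ = _ := by rw [sum_const, card_powersetCard, smul_eq_mul]

/-- `α^t · #{e : |e ∩ T| ≥ t} ≤ β^t C(r,t) C(n,r)` if `α (|T| - i) ≤ β (n - i)` for `i < t`. -/
theorem count_big_mul (U T : Finset ℕ) (r t α β : ℕ) (hT : T ⊆ U) (htr : t ≤ r)
    (h : ∀ i < t, α * (T.card - i) ≤ β * (U.card - i)) :
    α ^ t * ((powersetCard r U).filter fun e => t ≤ (e ∩ T).card).card ≤
      β ^ t * r.choose t * U.card.choose r := by
  have h1 := mul_choose_le α β T.card U.card t h
  have h2 := count_big U T r t hT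
  have h3 := Nat.choose_mul (n := U.card) htr
  calc α ^ t * ((powersetCard r U).filter fun e => t ≤ (e ∩ T).card).card
      ≤ α ^ t * (T.card.choose t * (U.card - t).choose (r - t)) := Nat.mul_le_mul_left _ h2
    _ = (α ^ t * T.card.choose t) * (U.card - t).choose (r - t) := by ring
    _ ≤ (β ^ t * U.card.choose t) * (U.card - t).choose (r - t) := Nat.mul_le_mul_right _ h1
    _ = β ^ t * (U.card.choose t * (U.card - t).choose (r - t)) := by ring
    _ = β ^ t * (U.card.choose r * r.choose t) := by rw [h3]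
    _ = _ := by ring

/-- The counting bound for a pair of disjoint index sets. -/
theorem count_pair (X : Finset (Finset ℕ)) (L : ℕ) (P : ℝ)
    (Bad : Finset (Finset ℕ) → Finset ℕ → Prop) [∀ J, DecidablePred (Bad J)]
    (Jx Ix : Finset (Fin L)) (hd : Disjoint Jx Ix)
    (hbad : ∀ J ⊆ X, J.card ≤ Jx.card → ((X.filter (Bad J)).card : ℝ) ≤ P * X.card) :
    (((Fintype.piFinset fun _ : Fin L => X).filter
      fun ω => ∀ i ∈ Ix, Bad (Jx.image ω) (ω i)).card : ℝ) ≤ (X.card : ℝ) ^ L * P ^ Ix.card := by
  classical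
  set Et : Fin L → Finset (Finset ℕ) := fun i => if i ∈ Jx then X else {∅} with hEt
  set G : (Fin L → Finset ℕ) → Fin L → Finset (Finset ℕ) := fun η i =>
    if i ∈ Jx then {η i} else if i ∈ Ix then X.filter (Bad (Jx.image η)) else X with hG
  have h1 : ((Fintype.piFinset fun _ : Fin L => X).filter
      fun ω => ∀ i ∈ Ix, Bad (Jx.image ω) (ω i)) ⊆
      (Fintype.piFinset Et).biUnion fun η => Fintype.piFinset (G η) := by
    intro ω hω
    rw [mem_filter, Fintype.mem_piFinset] at hω
    obtain ⟨hω1, hω2⟩ := hω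
    rw [mem_biUnion]
    set η : Fin L → Finset ℕ := fun i => if i ∈ Jx then ω i else ∅ with hη
    have him : Jx.image η = Jx.image ω := by
      refine image_congr fun i hi => ?_
      rw [mem_coe] at hi
      rw [hη]
      simp only [hi, if_true]
    refine ⟨η, ?_, ?_⟩
    · rw [Fintype.mem_piFinset]
      intro i
      rw [hEt, hη]
      by_cases hi : i ∈ Jx
      · simp only [hi, if_true]
        exact hω1 i
      · simp only [hi, if_false]
        exact mem_singleton_self _
    · rw [Fintype.mem_piFinset]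
      intro i
      rw [hG]
      by_cases hi : i ∈ Jx
      · simp only [hi, if_true]
        rw [mem_singleton, hη]
        simp only [hi, if_true]
      · simp only [hi, if_false]
        by_cases hi2 : i ∈ Ix
        · simp only [hi2, if_true]
          rw [mem_filter, him]
          exact ⟨hω1 i, hω2 i hi2⟩
        · simp only [hi2, if_false]
          exact hω1 i
  have h2 : (((Fintype.piFinset fun _ : Fin L => X).filter
      fun ω => ∀ i ∈ Ix, Bad (Jx.image ω) (ω i)).card : ℝ) ≤
      ∑ η ∈ Fintype.piFinset Et, ((Fintype.piFinset (G η)).card : ℝ) := by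
    have := (card_le_card h1).trans card_biUnion_le
    exact_mod_cast this
  refine h2.trans ?_
  have h3 : ∀ η ∈ Fintype.piFinset Et, ((Fintype.piFinset (G η)).card : ℝ) ≤
      ∏ i : Fin L, (if i ∈ Jx then (1 : ℝ) else if i ∈ Ix then P * X.card else X.card) := by
    intro η hη
    rw [Fintype.mem_piFinset] at hη
    rw [Fintype.card_piFinset]
    push_cast
    refine Finset.prod_le_prod (fun i _ => by positivity) fun i _ => ?_
    rw [hG]
    by_cases hi : i ∈ Jx
    · simp only [hi, if_true]
      simp
    · simp only [hi, if_false]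
      by_cases hi2 : i ∈ Ix
      · simp only [hi2, if_true]
        refine hbad _ ?_ card_image_le
        intro f hf
        rw [mem_image] at hf
        obtain ⟨l, hl, rfl⟩ := hf
        have := hη l
        rw [hEt] at this
        simp only [hl, if_true] at this
        exact this
      · simp only [hi2, if_false]
        exact le_rfl
  refine (Finset.sum_le_sum h3).trans ?_
  rw [sum_const, nsmul_eq_mul, Fintype.card_piFinset]
  push_cast
  rw [← Finset.prod_mul_distrib]
  have h4 : ∀ i ∈ (univ : Finset (Fin L)), ((Et i).card : ℝ) *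
      (if i ∈ Jx then (1 : ℝ) else if i ∈ Ix then P * X.card else X.card) =
      (X.card : ℝ) * (if i ∈ Ix then P else 1) := by
    intro i _
    rw [hEt]
    by_cases hi : i ∈ Jx
    · have hi2 : i ∉ Ix := disjoint_left.1 hd hi
      simp only [hi, hi2, if_true, if_false]
    · simp only [hi, if_false]
      by_cases hi2 : i ∈ Ix
      · simp only [hi2, if_true]
        simp
        ring
      · simp only [hi2, if_false]
        simp
  rw [Finset.prod_congr rfl h4, Finset.prod_mul_distrib, Finset.prod_const, card_univ,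
    Fintype.card_fin]
  refine le_of_eq ?_
  congr 1
  rw [Finset.prod_ite, Finset.prod_const, Finset.prod_const_one, mul_one]
  congr 2
  ext i
  simp

/-- The random `r`-graph. -/
theorem exists_random (n M r b k L : ℕ) (D P : ℝ)
    (Bad : Finset (Finset ℕ) → Finset ℕ → Prop) [∀ J, DecidablePred (Bad J)]
    (hn : 1 ≤ n) (hD : 0 < D) (hLD : 2 * D * n ≤ L) (hb : 1 ≤ b)
    (hcov : (n.choose r : ℝ) ≤ D * M.choose r) (hMn : M ≤ n) (hrM : r ≤ M) (hP0 : 0 ≤ P)
    (hbad : ∀ J ⊆ powersetCard r (range n), J.card ≤ k →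
      (((powersetCard r (range n)).filter (Bad J)).card : ℝ) ≤ P * n.choose r)
    (h0 : ∀ e ∈ powersetCard r (range n), ¬ Bad ∅ e)
    (hLP : (k + 1) * ((L : ℝ) ^ (b + 1) * P) ≤ 1 / 2) :
    ∃ H ⊆ powersetCard r (range n),
      (∀ Q : Finset ℕ, Q ⊆ range n → Q.card = M → ∃ e ∈ H, e ⊆ Q) ∧
      ∀ J ⊆ H, J.card ≤ k → b * ((H \ J).filter (Bad J)).card ≤ J.card := by
  classical
  set X := powersetCard r (range n) with hX
  have hXc : X.card = n.choose r := by rw [hX, card_powersetCard, card_range]
  set N : ℝ := (X.card : ℝ) with hN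
  have hNpos : 0 < N := by
    rw [hN, hXc]
    exact_mod_cast Nat.choose_pos (hrM.trans hMn)
  have hn1 : (1 : ℝ) ≤ n := by exact_mod_cast hn
  have hL1 : (1 : ℝ) ≤ L := by
    have h1 : (n.choose r : ℝ) ≤ D * n.choose r := by
      refine hcov.trans (mul_le_mul_of_nonneg_left ?_ hD.le)
      exact_mod_cast Nat.choose_le_choose r hMn
    have h2 : (0 : ℝ) < n.choose r := by exact_mod_cast Nat.choose_pos (hrM.trans hMn)
    have h3 : 1 ≤ D := by
      by_contra hcon
      push Not at hcon
      nlinarith
    nlinarith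
  set Ω : Finset (Fin L → Finset ℕ) := Fintype.piFinset fun _ : Fin L => X with hΩ
  have hΩc : (Ω.card : ℝ) = N ^ L := by
    rw [hΩ, Fintype.card_piFinset, Finset.prod_const, card_univ, Fintype.card_fin]
    push_cast
    rfl
  set B1 : Finset ℕ → Finset (Fin L → Finset ℕ) := fun Q => Ω.filter fun ω => ∀ i, ¬ ω i ⊆ Q
    with hB1
  set B2 : Finset (Fin L) → Finset (Fin L) → Finset (Fin L → Finset ℕ) := fun Jx Ix =>
    Ω.filter fun ω => Disjoint Jx Ix ∧ ∀ i ∈ Ix, Bad (Jx.image ω) (ω i) with hB2
  set U1 := (powersetCard M (range n)).biUnion B1 with hU1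
  set U2 := (Icc 1 k).biUnion fun j => (powersetCard j (univ : Finset (Fin L))).biUnion fun Jx =>
    (powersetCard (j / b + 1) (univ : Finset (Fin L))).biUnion fun Ix => B2 Jx Ix with hU2
  -- the size of `U1`
  have hU1c : (U1.card : ℝ) < N ^ L * (1 / 2) := by
    have h1 : ∀ Q ∈ powersetCard M (range n), ((B1 Q).card : ℝ) ≤
        N ^ L * Real.exp (-(2 * n : ℝ)) := by
      intro Q hQ
      rw [mem_powersetCard] at hQ
      have h2 : B1 Q = Fintype.piFinset fun _ : Fin L => X.filter fun e => ¬ e ⊆ Q := by
        ext ω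
        rw [hB1]
        simp only [mem_filter, Fintype.mem_piFinset, hΩ]
        constructor
        · rintro ⟨h3, h4⟩ i
          exact ⟨h3 i, h4 i⟩
        · intro h3
          exact ⟨fun i => (h3 i).1, fun i => (h3 i).2⟩
      rw [h2, Fintype.card_piFinset, Finset.prod_const, card_univ, Fintype.card_fin]
      have h5 : ((X.filter fun e => e ⊆ Q).card : ℝ) = M.choose r := by
        have h6 : (X.filter fun e => e ⊆ Q) = powersetCard r Q := by
          ext e
          rw [mem_filter, hX, mem_powersetCard, mem_powersetCard]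
          constructor
          · rintro ⟨⟨-, h7⟩, h8⟩
            exact ⟨h8, h7⟩
          · rintro ⟨h7, h8⟩
            exact ⟨⟨h7.trans hQ.1, h8⟩, h7⟩
        rw [h6, card_powersetCard, hQ.2]
      have h9 := card_filter_add_card_filter_not (s := X) (fun e => e ⊆ Q)
      have h10 : ((X.filter fun e => ¬ e ⊆ Q).card : ℝ) = N - M.choose r := by
        have : ((X.filter fun e => e ⊆ Q).card : ℝ) + ((X.filter fun e => ¬ e ⊆ Q).card : ℝ) =
            N := by
          rw [hN]
          exact_mod_cast h9
        rw [h5] at this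
        linarith
      have h11 : ((X.filter fun e => ¬ e ⊆ Q).card : ℝ) ≤ N * Real.exp (-(1 / D)) := by
        have h12 : N / D ≤ M.choose r := by
          rw [div_le_iff₀ hD]
          rw [hN, hXc]
          linarith
        have h13 : 1 - 1 / D ≤ Real.exp (-(1 / D)) := Real.one_sub_le_exp_neg _
        calc ((X.filter fun e => ¬ e ⊆ Q).card : ℝ) = N - M.choose r := h10
          _ ≤ N - N / D := by linarith
          _ = N * (1 - 1 / D) := by ring
          _ ≤ _ := mul_le_mul_of_nonneg_left h13 hNpos.le
      push_cast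
      calc ((X.filter fun e => ¬ e ⊆ Q).card : ℝ) ^ L ≤ (N * Real.exp (-(1 / D))) ^ L :=
            pow_le_pow_left₀ (by positivity) h11 _
        _ = N ^ L * Real.exp (-(1 / D)) ^ L := by rw [mul_pow]
        _ ≤ N ^ L * Real.exp (-(2 * n : ℝ)) := by
            refine mul_le_mul_of_nonneg_left ?_ (by positivity)
            rw [← Real.exp_nat_mul]
            refine Real.exp_le_exp.2 ?_
            have h14 : 2 * (n : ℝ) ≤ L / D := by
              rw [le_div_iff₀ hD]
              linarith
            have h15 : (L : ℝ) * -(1 / D) = -(L / D) := by ring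
            rw [h15]
            linarith
    have h16 : (U1.card : ℝ) ≤ (n.choose M : ℝ) * (N ^ L * Real.exp (-(2 * n : ℝ))) := by
      have h17 : (U1.card : ℝ) ≤ ∑ Q ∈ powersetCard M (range n), ((B1 Q).card : ℝ) := by
        have : U1.card ≤ ∑ Q ∈ powersetCard M (range n), (B1 Q).card := card_biUnion_le
        exact_mod_cast this
      refine h17.trans ((Finset.sum_le_sum h1).trans ?_)
      rw [sum_const, card_powersetCard, card_range, nsmul_eq_mul]
    refine lt_of_le_of_lt h16 ?_
    have h18 : (n.choose M : ℝ) ≤ 2 ^ n := by exact_mod_cast Nat.choose_le_two_pow _ _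
    have h19 : (2 : ℝ) ^ n * Real.exp (-(2 * n : ℝ)) < 1 / 2 := by
      have h20 : Real.exp (-(2 * n : ℝ)) = (Real.exp (-2)) ^ n := by
        rw [← Real.exp_nat_mul]
        congr 1
        ring
      rw [h20, ← mul_pow]
      have h21 : Real.exp (-2) < 1 / 4 := by
        have h22 : Real.exp (-2) = (Real.exp 1)⁻¹ * (Real.exp 1)⁻¹ := by
          rw [← Real.exp_neg, ← Real.exp_add]
          norm_num
        have h23 : (2 : ℝ) < Real.exp 1 := by
          have := Real.exp_one_gt_d9
          linarith
        have h24 : (Real.exp 1)⁻¹ < 1 / 2 := by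
          rw [inv_eq_one_div]
          exact one_div_lt_one_div_of_lt (by norm_num) h23
        have h25 : 0 < (Real.exp 1)⁻¹ := by positivity
        rw [h22]
        nlinarith
      have h26 : 0 ≤ 2 * Real.exp (-2) := by positivity
      calc (2 * Real.exp (-2)) ^ n ≤ (2 * Real.exp (-2)) ^ 1 :=
            pow_le_pow_of_le_one h26 (by linarith) hn
        _ < 1 / 2 := by
            rw [pow_one]
            linarith
    calc (n.choose M : ℝ) * (N ^ L * Real.exp (-(2 * n : ℝ)))
        ≤ 2 ^ n * (N ^ L * Real.exp (-(2 * n : ℝ))) :=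
          mul_le_mul_of_nonneg_right h18 (by positivity)
      _ = N ^ L * (2 ^ n * Real.exp (-(2 * n : ℝ))) := by ring
      _ < N ^ L * (1 / 2) := mul_lt_mul_of_pos_left h19 (by positivity)
  -- the size of `U2`
  have hU2c : (U2.card : ℝ) ≤ N ^ L * (1 / 2) := by
    set q : ℝ := (L : ℝ) ^ (b + 1) * P with hq
    have hq0 : 0 ≤ q := by positivity
    have hq1 : q ≤ 1 := by
      have : (0 : ℝ) ≤ k := by positivity
      nlinarith
    have h1 : ∀ j ∈ Icc 1 k, (((powersetCard j (univ : Finset (Fin L))).biUnion fun Jx =>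
        (powersetCard (j / b + 1) (univ : Finset (Fin L))).biUnion fun Ix => B2 Jx Ix).card : ℝ) ≤
        N ^ L * q := by
      intro j hj
      rw [mem_Icc] at hj
      have h2 : ∀ Jx ∈ powersetCard j (univ : Finset (Fin L)),
          ∀ Ix ∈ powersetCard (j / b + 1) (univ : Finset (Fin L)),
          ((B2 Jx Ix).card : ℝ) ≤ N ^ L * P ^ (j / b + 1) := by
        intro Jx hJx Ix hIx
        rw [mem_powersetCard] at hJx hIx
        by_cases hd : Disjoint Jx Ix
        · have h3 := count_pair X L P Bad Jx Ix hd (by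
            intro J hJ hJc
            rw [hXc]
            exact hbad J hJ (hJc.trans (by omega)))
          rw [hIx.2] at h3
          refine le_trans ?_ h3
          have h4 : B2 Jx Ix ⊆ Ω.filter fun ω => ∀ i ∈ Ix, Bad (Jx.image ω) (ω i) := by
            intro ω hω
            rw [hB2, mem_filter] at hω
            rw [mem_filter]
            exact ⟨hω.1, hω.2.2⟩
          exact_mod_cast card_le_card h4
        · have h5 : B2 Jx Ix = ∅ := by
            rw [hB2]
            simp only [hd, false_and, filter_false]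
          rw [h5]
          simp only [card_empty, Nat.cast_zero]
          positivity
      have h6 : (((powersetCard j (univ : Finset (Fin L))).biUnion fun Jx =>
          (powersetCard (j / b + 1) (univ : Finset (Fin L))).biUnion
            fun Ix => B2 Jx Ix).card : ℝ) ≤
          ∑ Jx ∈ powersetCard j (univ : Finset (Fin L)),
            ∑ Ix ∈ powersetCard (j / b + 1) (univ : Finset (Fin L)), ((B2 Jx Ix).card : ℝ) := by
        have h7 : ((powersetCard j (univ : Finset (Fin L))).biUnion fun Jx =>
          (powersetCard (j / b + 1) (univ : Finset (Fin L))).biUnion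
            fun Ix => B2 Jx Ix).card ≤
          ∑ Jx ∈ powersetCard j (univ : Finset (Fin L)),
            ∑ Ix ∈ powersetCard (j / b + 1) (univ : Finset (Fin L)), (B2 Jx Ix).card := by
          refine card_biUnion_le.trans (Finset.sum_le_sum fun Jx _ => card_biUnion_le)
        exact_mod_cast h7
      refine h6.trans ?_
      have h8 : ∑ Jx ∈ powersetCard j (univ : Finset (Fin L)),
            ∑ Ix ∈ powersetCard (j / b + 1) (univ : Finset (Fin L)), ((B2 Jx Ix).card : ℝ) ≤
          ∑ _Jx ∈ powersetCard j (univ : Finset (Fin L)),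
            ∑ _Ix ∈ powersetCard (j / b + 1) (univ : Finset (Fin L)),
              N ^ L * P ^ (j / b + 1) :=
        Finset.sum_le_sum fun Jx hJx => Finset.sum_le_sum fun Ix hIx => h2 Jx hJx Ix hIx
      refine h8.trans ?_
      rw [sum_const, sum_const, card_powersetCard, card_powersetCard, card_univ,
        Fintype.card_fin, nsmul_eq_mul, nsmul_eq_mul]
      have h9 : (L.choose j : ℝ) ≤ (L : ℝ) ^ (b * (j / b + 1)) := by
        have h10 : (L.choose j : ℝ) ≤ (L : ℝ) ^ j := by exact_mod_cast Nat.choose_le_pow L j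
        refine h10.trans (pow_le_pow_right₀ hL1 ?_)
        exact (Nat.lt_mul_div_succ j (by omega)).le
      have h11 : (L.choose (j / b + 1) : ℝ) ≤ (L : ℝ) ^ (j / b + 1) := by
        exact_mod_cast Nat.choose_le_pow L (j / b + 1)
      calc (L.choose j : ℝ) * ((L.choose (j / b + 1) : ℝ) * (N ^ L * P ^ (j / b + 1)))
          ≤ (L : ℝ) ^ (b * (j / b + 1)) * ((L : ℝ) ^ (j / b + 1) * (N ^ L * P ^ (j / b + 1))) := by
            refine mul_le_mul h9 ?_ (by positivity) (by positivity)
            exact mul_le_mul_of_nonneg_right h11 (by positivity)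
        _ = N ^ L * q ^ (j / b + 1) := by
            rw [hq, mul_pow, ← pow_mul]
            ring
        _ ≤ N ^ L * q := by
            refine mul_le_mul_of_nonneg_left ?_ (by positivity)
            calc q ^ (j / b + 1) ≤ q ^ 1 := pow_le_pow_of_le_one hq0 hq1 (Nat.le_add_left 1 _)
              _ = q := pow_one q
    have h12 : (U2.card : ℝ) ≤ ∑ j ∈ Icc 1 k, N ^ L * q := by
      have h13 : (U2.card : ℝ) ≤ ∑ j ∈ Icc 1 k,
          (((powersetCard j (univ : Finset (Fin L))).biUnion fun Jx =>
        (powersetCard (j / b + 1) (univ : Finset (Fin L))).biUnion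
          fun Ix => B2 Jx Ix).card : ℝ) := by
        have h14 : U2.card ≤ ∑ j ∈ Icc 1 k,
          ((powersetCard j (univ : Finset (Fin L))).biUnion fun Jx =>
        (powersetCard (j / b + 1) (univ : Finset (Fin L))).biUnion
          fun Ix => B2 Jx Ix).card := card_biUnion_le
        exact_mod_cast h14
      exact h13.trans (Finset.sum_le_sum h1)
    refine h12.trans ?_
    rw [sum_const, Nat.card_Icc, nsmul_eq_mul, Nat.add_sub_cancel]
    have h15 : (k : ℝ) * q ≤ 1 / 2 := by nlinarith
    calc (k : ℝ) * (N ^ L * q) = N ^ L * (k * q) := by ring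
      _ ≤ _ := mul_le_mul_of_nonneg_left h15 (by positivity)
  -- a good choice
  obtain ⟨ω, hω, hω1, hω2⟩ : ∃ ω ∈ Ω, ω ∉ U1 ∧ ω ∉ U2 := by
    by_contra hcon
    push Not at hcon
    have h1 : Ω ⊆ U1 ∪ U2 := by
      intro ω hω
      rw [mem_union]
      by_cases h : ω ∈ U1
      · exact Or.inl h
      · exact Or.inr (hcon ω hω h)
    have h2 : Ω.card ≤ U1.card + U2.card := (card_le_card h1).trans (card_union_le _ _)
    have h3 : (Ω.card : ℝ) ≤ U1.card + U2.card := by exact_mod_cast h2
    rw [hΩc] at h3
    linarith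
  rw [hΩ, Fintype.mem_piFinset] at hω
  refine ⟨univ.image ω, ?_, ?_, ?_⟩
  · intro e he
    rw [mem_image] at he
    obtain ⟨i, -, rfl⟩ := he
    exact hω i
  · intro Q hQ hQc
    by_contra hcon
    push Not at hcon
    refine hω1 ?_
    rw [hU1, mem_biUnion]
    refine ⟨Q, mem_powersetCard.2 ⟨hQ, hQc⟩, ?_⟩
    rw [hB1, mem_filter, hΩ, Fintype.mem_piFinset]
    exact ⟨hω, fun i => hcon (ω i) (mem_image_of_mem _ (mem_univ i))⟩
  · intro J hJ hJk
    by_contra hcon
    push Not at hcon
    have hidx : ∀ f : Finset ℕ, ∃ i : Fin L, f ∈ univ.image ω → ω i = f := by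
      intro f
      by_cases hf : f ∈ univ.image ω
      · obtain ⟨i, -, hi⟩ := mem_image.1 hf
        exact ⟨i, fun _ => hi⟩
      · have : 0 < L := by exact_mod_cast (lt_of_lt_of_le zero_lt_one hL1)
        exact ⟨⟨0, this⟩, fun h => absurd h hf⟩
    choose idx hidx' using hidx
    set H := univ.image ω with hH
    have hJpos : 1 ≤ J.card := by
      rcases J.eq_empty_or_nonempty with h | h
      · exfalso
        subst h
        have h1 : ((H \ ∅).filter (Bad ∅)) = ∅ := by
          rw [filter_eq_empty_iff]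
          intro e he
          rw [sdiff_empty] at he
          rw [hH, mem_image] at he
          obtain ⟨i, -, rfl⟩ := he
          exact h0 _ (hω i)
        rw [h1] at hcon
        simp at hcon
      · exact card_pos.2 h
    have h2 : J.card / b + 1 ≤ ((H \ J).filter (Bad J)).card := by
      have : J.card / b < ((H \ J).filter (Bad J)).card := by
        rw [Nat.div_lt_iff_lt_mul (by omega)]
        rw [mul_comm]
        exact hcon
      omega
    obtain ⟨S, hS, hSc⟩ := exists_subset_card_eq h2
    have hSH : ∀ e ∈ S, e ∈ H ∧ e ∉ J ∧ Bad J e := by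
      intro e he
      have := hS he
      rw [mem_filter, mem_sdiff] at this
      exact ⟨this.1.1, this.1.2, this.2⟩
    have hinj : Set.InjOn idx (H : Set (Finset ℕ)) := by
      intro e he f hf hef
      rw [mem_coe] at he hf
      rw [← hidx' e he, ← hidx' f hf, hef]
    refine hω2 ?_
    rw [hU2, mem_biUnion]
    refine ⟨J.card, mem_Icc.2 ⟨hJpos, hJk⟩, ?_⟩
    rw [mem_biUnion]
    refine ⟨J.image idx, ?_, ?_⟩
    · rw [mem_powersetCard]
      exact ⟨subset_univ _, card_image_of_injOn (hinj.mono (by exact_mod_cast hJ))⟩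
    rw [mem_biUnion]
    refine ⟨S.image idx, ?_, ?_⟩
    · rw [mem_powersetCard]
      refine ⟨subset_univ _, ?_⟩
      rw [card_image_of_injOn (hinj.mono ?_), hSc]
      intro e he
      exact (hSH e he).1
    rw [hB2, mem_filter, hΩ, Fintype.mem_piFinset]
    refine ⟨hω, ?_, ?_⟩
    · rw [disjoint_left]
      intro i hi hi2
      rw [mem_image] at hi hi2
      obtain ⟨f, hf, rfl⟩ := hi
      obtain ⟨g, hg, hgf⟩ := hi2
      have h3 := hinj (hSH g hg).1 (hJ hf) hgf
      subst h3
      exact (hSH g hg).2.1 hf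
    · intro i hi
      rw [mem_image] at hi
      obtain ⟨e, he, rfl⟩ := hi
      have h4 : (J.image idx).image ω = J := by
        rw [image_image]
        ext f
        rw [mem_image]
        constructor
        · rintro ⟨g, hg, rfl⟩
          rw [Function.comp_apply, hidx' g (hJ hg)]
          exact hg
        · intro hf
          exact ⟨f, hf, by rw [Function.comp_apply, hidx' f (hJ hf)]⟩
      rw [h4, hidx' e (hSH e he).1]
      exact (hSH e he).2.2

theorem mem_atomJ {U : Finset ℕ} {J : Finset (Finset ℕ)} {x y : ℕ} :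
    y ∈ atomJ U J x ↔ y ∈ U ∧ ∀ f ∈ J, (y ∈ f ↔ x ∈ f) := by
  rw [atomJ, mem_filter]

theorem self_mem_atomJ {U : Finset ℕ} {J : Finset (Finset ℕ)} {x : ℕ} (hx : x ∈ U) :
    x ∈ atomJ U J x := mem_atomJ.2 ⟨hx, fun _ _ => Iff.rfl⟩

theorem atomJ_eq {U : Finset ℕ} {J : Finset (Finset ℕ)} {x y : ℕ} (h : y ∈ atomJ U J x) :
    atomJ U J y = atomJ U J x := by
  rw [mem_atomJ] at h
  ext z
  rw [mem_atomJ, mem_atomJ]
  constructor
  · rintro ⟨h1, h2⟩
    exact ⟨h1, fun f hf => (h2 f hf).trans (h.2 f hf)⟩
  · rintro ⟨h1, h2⟩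
    exact ⟨h1, fun f hf => (h2 f hf).trans (h.2 f hf).symm⟩

/-- Summing an inequality over the atoms in a union `T` of atoms. -/
theorem union_sum (U e₁ e₂ T : Finset ℕ) (J : Finset (Finset ℕ)) (α β : ℕ) (hTU : T ⊆ U)
    (hT : ∀ x ∈ T, atomJ U J x ⊆ T)
    (h : ∀ x ∈ T, α * (e₁ ∩ atomJ U J x).card ≤ β * (e₂ ∩ atomJ U J x).card) :
    α * (e₁ ∩ T).card ≤ β * (e₂ ∩ T).card := by
  classical
  have key : ∀ e : Finset ℕ, (e ∩ T).card = ∑ A ∈ T.image (atomJ U J), (e ∩ A).card := by
    intro e
    rw [card_eq_sum_card_fiberwise (f := atomJ U J) (s := e ∩ T) (t := T.image (atomJ U J))]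
    · refine Finset.sum_congr rfl fun A hA => ?_
      rw [mem_image] at hA
      obtain ⟨x0, hx0, rfl⟩ := hA
      congr 1
      ext x
      rw [mem_filter, mem_inter, mem_inter]
      constructor
      · rintro ⟨⟨h1, h2⟩, h3⟩
        refine ⟨h1, ?_⟩
        rw [← h3]
        exact self_mem_atomJ (hTU h2)
      · rintro ⟨h1, h2⟩
        exact ⟨⟨h1, hT x0 hx0 h2⟩, atomJ_eq h2⟩
    · intro x hx
      rw [mem_coe, mem_inter] at hx
      exact mem_coe.2 (mem_image_of_mem _ hx.2)
  rw [key, key, mul_sum, mul_sum]
  refine Finset.sum_le_sum fun A hA => ?_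
  rw [mem_image] at hA
  obtain ⟨x0, hx0, rfl⟩ := hA
  exact h x0 hx0

/-- At most `2 ^ 2 ^ k` unions of atoms. -/
theorem bad_count (U : Finset ℕ) (J : Finset (Finset ℕ)) (k r t : ℕ) (hJ : J.card ≤ k) (β : ℝ)
    (hβ : 0 ≤ β) (B : Finset (Finset ℕ)) (hBX : B ⊆ powersetCard r U) (cond : Finset ℕ → Prop)
    (hB : ∀ e ∈ B, ∃ T ⊆ U, (∀ x ∈ T, atomJ U J x ⊆ T) ∧ cond T ∧ t ≤ (e ∩ T).card)
    (hc : ∀ T ⊆ U, cond T →
      (((powersetCard r U).filter fun e => t ≤ (e ∩ T).card).card : ℝ) ≤ β) :
    (B.card : ℝ) ≤ 2 ^ 2 ^ k * β := by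
  classical
  set TS : Finset (Finset (Finset ℕ)) → Finset ℕ := fun S =>
    U.filter fun x => (J.filter fun f => x ∈ f) ∈ S with hTS
  have h1 : B ⊆ ((powerset (powerset J)).filter fun S => cond (TS S)).biUnion fun S =>
      (powersetCard r U).filter fun e => t ≤ (e ∩ TS S).card := by
    intro e he
    obtain ⟨T, hTU, hT, hcT, htT⟩ := hB e he
    rw [mem_biUnion]
    have h2 : TS (T.image fun x => J.filter fun f => x ∈ f) = T := by
      rw [hTS]
      ext x
      simp only [mem_filter, mem_image]
      constructor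
      · rintro ⟨h3, y, hy, hyx⟩
        refine hT y hy ?_
        rw [mem_atomJ]
        refine ⟨h3, fun f hf => ?_⟩
        have h4 := congrArg (fun s => f ∈ s) hyx
        simp only [mem_filter, hf, true_and, eq_iff_iff] at h4
        exact h4.symm
      · intro hx
        exact ⟨hTU hx, x, hx, rfl⟩
    refine ⟨T.image fun x => J.filter fun f => x ∈ f, ?_, ?_⟩
    · rw [mem_filter, h2]
      refine ⟨?_, hcT⟩
      rw [mem_powerset]
      intro s hs
      rw [mem_image] at hs
      obtain ⟨x, -, rfl⟩ := hs
      exact mem_powerset.2 (filter_subset _ _)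
    · rw [mem_filter, h2]
      exact ⟨hBX he, htT⟩
  have h3 : (B.card : ℝ) ≤ ∑ S ∈ (powerset (powerset J)).filter fun S => cond (TS S),
      (((powersetCard r U).filter fun e => t ≤ (e ∩ TS S).card).card : ℝ) := by
    have := (card_le_card h1).trans card_biUnion_le
    exact_mod_cast this
  refine h3.trans ?_
  have h4 : ∑ S ∈ (powerset (powerset J)).filter fun S => cond (TS S),
      (((powersetCard r U).filter fun e => t ≤ (e ∩ TS S).card).card : ℝ) ≤
      ∑ _S ∈ (powerset (powerset J)).filter fun S => cond (TS S), β := by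
    refine Finset.sum_le_sum fun S hS => ?_
    rw [mem_filter] at hS
    exact hc _ (filter_subset _ _) hS.2
  refine h4.trans ?_
  rw [sum_const, nsmul_eq_mul]
  refine mul_le_mul_of_nonneg_right ?_ hβ
  have h5 : ((powerset (powerset J)).filter fun S => cond (TS S)).card ≤ 2 ^ 2 ^ k := by
    refine (card_le_card (filter_subset _ _)).trans ?_
    rw [card_powerset, card_powerset]
    exact Nat.pow_le_pow_right (by norm_num) (Nat.pow_le_pow_right (by norm_num) hJ)
  exact_mod_cast h5

end RandG

open RandG

theorem exists_spread (A a b : ℕ) (ha : 1 ≤ a) (hb : 1 ≤ b) : ∃ C : ℕ, 1 ≤ C ∧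
    ∀ k W m : ℕ, 2 ≤ m → m ≤ W → W - 1 ≤ A * (m - 1) → ∃ r0 : ℕ, ∀ r : ℕ, r0 ≤ r →
    ∃ H : Finset (Finset ℕ), (∀ e ∈ H, e ⊆ range (W * r) ∧ e.card = r) ∧
      (∀ Q : Finset ℕ, Q ⊆ range (W * r) → Q.card = m * r → ∃ e ∈ H, e ⊆ Q) ∧
      (∀ J : Finset (Finset ℕ), J ⊆ H → J.card ≤ k →
        b * ((H \ J).filter
          (fun e => r ≤ a * (hiPts C W (range (W * r)) J e).card)).card ≤ J.card) := by
  classical
  have hC1 : 1 ≤ (4 * (A + 1) ^ (b + 1)) ^ a := Nat.one_le_pow _ _ (by positivity)
  refine ⟨(4 * (A + 1) ^ (b + 1)) ^ a, hC1, ?_⟩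
  set C := (4 * (A + 1) ^ (b + 1)) ^ a with hC
  intro k W m hm hmW hWA
  have hA1 : 1 ≤ A := by
    rcases Nat.eq_zero_or_pos A with h | h
    · subst h
      omega
    · exact h
  have hW1 : 1 ≤ W := by omega
  -- the choice of `r0`
  set K : ℝ := (k + 1) * ((2 * W : ℝ) ^ (b + 1) * 2 ^ 2 ^ k) with hK
  have hKpos : 0 < K := by
    have : (0 : ℝ) < W := by exact_mod_cast hW1
    positivity
  have hlim : Filter.Tendsto (fun r : ℕ => (r : ℝ) ^ (b + 1) * (1 / 2 : ℝ) ^ r) Filter.atTop
      (nhds 0) := by
    refine tendsto_pow_const_mul_const_pow_of_abs_lt_one (b + 1) ?_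
    rw [abs_of_pos (by norm_num)]
    norm_num
  have hev : ∀ᶠ r : ℕ in Filter.atTop, (r : ℝ) ^ (b + 1) * (1 / 2 : ℝ) ^ r < 1 / (2 * K) :=
    hlim.eventually (gt_mem_nhds (by positivity))
  obtain ⟨r1, hr1⟩ := Filter.eventually_atTop.1 hev
  refine ⟨r1 + 1, fun r hr => ?_⟩
  have hrpos : 1 ≤ r := by omega
  set n := W * r with hn
  set M := m * r with hM
  set t := (r + a - 1) / a with ht
  have hat : r ≤ a * t := by
    have h1 := Nat.lt_mul_div_succ (r + a - 1) (show 0 < a by omega)
    rw [← ht] at h1
    have h2 : a * (t + 1) = a * t + a := by ring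
    omega
  have htr : t ≤ r := by
    rw [ht]
    have h0 : r ≤ a * r := Nat.le_mul_of_pos_left r ha
    have h1 : r + a - 1 < a * r + a := by omega
    have h2 : (r + a - 1) / a < r + 1 := by
      rw [Nat.div_lt_iff_lt_mul (by omega)]
      calc r + a - 1 < a * r + a := h1
        _ = (r + 1) * a := by ring
    omega
  have hn1 : 1 ≤ n := Nat.mul_pos hW1 hrpos
  have hrM : r ≤ M := Nat.le_mul_of_pos_left _ (by omega)
  have hMn : M ≤ n := Nat.mul_le_mul_right _ hmW
  have hrn : r ≤ n := hrM.trans hMn
  have hcovN : n.choose r ≤ A ^ r * M.choose r := by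
    have h1 := mul_choose_le 1 A n M r (fun i hi => by
      have e1 : n = (W - 1) * r + r := by
        rw [hn]
        obtain ⟨w, rfl⟩ : ∃ w, W = w + 1 := ⟨W - 1, by omega⟩
        simp
        ring
      have e2 : M = (m - 1) * r + r := by
        rw [hM]
        obtain ⟨w, rfl⟩ : ∃ w, m = w + 1 := ⟨m - 1, by omega⟩
        simp
        ring
      have e3 : n - i = (W - 1) * r + (r - i) := by omega
      have e4 : M - i = (m - 1) * r + (r - i) := by omega
      rw [e3, e4, one_mul, mul_add]
      refine Nat.add_le_add ?_ (Nat.le_mul_of_pos_left _ hA1)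
      calc (W - 1) * r ≤ (A * (m - 1)) * r := Nat.mul_le_mul_right _ hWA
        _ = A * ((m - 1) * r) := by ring)
    rwa [one_pow, one_mul] at h1
  set P : ℝ := 2 ^ 2 ^ k * (2 ^ r / (C : ℝ) ^ t) with hP
  have hCt : (0 : ℝ) < (C : ℝ) ^ t := by
    have : (0 : ℝ) < C := by exact_mod_cast hC1
    positivity
  have hP0 : 0 ≤ P := by positivity
  obtain ⟨H, hHX, hH1, hH2⟩ := exists_random n M r b k (2 * A ^ r * n) (A ^ r : ℝ) P
    (fun J e => r ≤ a * (hiPts C W (range n) J e).card) hn1 (by positivity)
    (by push_cast; exact le_rfl) hb (by exact_mod_cast hcovN) hMn hrM hP0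
    (by
      intro J hJ hJk
      have h1 := bad_count (range n) J k r t hJk (2 ^ r / (C : ℝ) ^ t * n.choose r)
        (by positivity)
        ((powersetCard r (range n)).filter fun e => r ≤ a * (hiPts C W (range n) J e).card)
        (filter_subset _ _) (fun T => C * T.card ≤ n)
        (by
          intro e he
          rw [mem_filter, mem_powersetCard] at he
          obtain ⟨⟨heU, hec⟩, hbad⟩ := he
          set T := (range n).filter fun x =>
            C * (atomJ (range n) J x).card < W * (e ∩ atomJ (range n) J x).card with hT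
          have hTU : T ⊆ range n := filter_subset _ _
          have hTat : ∀ x ∈ T, atomJ (range n) J x ⊆ T := by
            intro x hx y hy
            rw [hT, mem_filter] at hx ⊢
            rw [atomJ_eq hy]
            exact ⟨(mem_atomJ.1 hy).1, hx.2⟩
          have hhi : hiPts C W (range n) J e = e ∩ T := by
            rw [hiPts, hT]
            ext x
            rw [mem_filter, mem_inter, mem_filter]
            constructor
            · rintro ⟨h2, h3⟩
              exact ⟨h2, heU h2, h3⟩
            · rintro ⟨h2, -, h3⟩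
              exact ⟨h2, h3⟩
          refine ⟨T, hTU, hTat, ?_, ?_⟩
          · have h4 := union_sum (range n) (range n) e T J C W hTU hTat (by
              intro x hx
              rw [hT, mem_filter] at hx
              have h5 : range n ∩ atomJ (range n) J x = atomJ (range n) J x := by
                rw [inter_eq_right]
                intro y hy
                exact (mem_atomJ.1 hy).1
              rw [h5]
              exact hx.2.le)
            have h6 : range n ∩ T = T := inter_eq_right.2 hTU
            rw [h6] at h4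
            calc C * T.card ≤ W * (e ∩ T).card := h4
              _ ≤ W * r := Nat.mul_le_mul_left _ (by
                  rw [← hec]
                  exact card_le_card inter_subset_left)
          · rw [← hhi]
            by_contra hcon
            push Not at hcon
            have h7 : (hiPts C W (range n) J e).card + 1 ≤ t := hcon
            have h8 : a * ((hiPts C W (range n) J e).card + 1) ≤ r + a - 1 := by
              calc a * ((hiPts C W (range n) J e).card + 1) ≤ a * t := Nat.mul_le_mul_left _ h7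
                _ ≤ r + a - 1 := Nat.mul_div_le _ _
            have h9 : a * ((hiPts C W (range n) J e).card + 1) =
                a * (hiPts C W (range n) J e).card + a := by ring
            omega)
        (by
          intro T hTU hTc
          have h2 := count_big_mul (range n) T r t C 1 hTU htr (by
            intro i _
            rw [card_range, Nat.mul_sub, one_mul]
            have h3 : i ≤ C * i := Nat.le_mul_of_pos_left _ hC1
            omega)
          rw [one_pow, one_mul, card_range] at h2
          have h3 : C ^ t * ((powersetCard r (range n)).filter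
              fun e => t ≤ (e ∩ T).card).card ≤ 2 ^ r * n.choose r :=
            h2.trans (Nat.mul_le_mul_right _ (Nat.choose_le_two_pow _ _))
          have h4 : (C : ℝ) ^ t * (((powersetCard r (range n)).filter
              fun e => t ≤ (e ∩ T).card).card : ℝ) ≤ 2 ^ r * n.choose r := by exact_mod_cast h3
          rw [div_mul_eq_mul_div, le_div_iff₀ hCt]
          linarith)
      refine h1.trans (le_of_eq ?_)
      rw [hP]
      ring)
    (by
      intro e he hbad
      rw [mem_powersetCard] at he
      have h1 : hiPts C W (range n) ∅ e = ∅ := by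
        rw [hiPts, filter_eq_empty_iff]
        intro x hx
        have h2 : atomJ (range n) ∅ x = range n := by
          ext y
          rw [mem_atomJ]
          simp
        rw [h2, card_range, inter_eq_left.2 he.1, he.2, not_lt, ← hn]
        exact Nat.le_mul_of_pos_left _ hC1
      rw [h1, card_empty, mul_zero] at hbad
      omega)
    (by
      have hLe : ((2 * A ^ r * n : ℕ) : ℝ) ^ (b + 1) =
          (2 * W : ℝ) ^ (b + 1) * (r : ℝ) ^ (b + 1) * ((A : ℝ) ^ (b + 1)) ^ r := by
        rw [hn]
        push_cast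
        rw [← pow_mul, mul_comm (b + 1) r, pow_mul, ← mul_pow, ← mul_pow]
        congr 1
        ring
      have hCt2 : (4 * ((A : ℝ) + 1) ^ (b + 1)) ^ r ≤ (C : ℝ) ^ t := by
        have h1 : (C : ℝ) ^ t = (4 * ((A : ℝ) + 1) ^ (b + 1)) ^ (a * t) := by
          rw [hC]
          push_cast
          rw [← pow_mul]
        rw [h1]
        refine pow_le_pow_right₀ ?_ hat
        have h2 : (1 : ℝ) ≤ ((A : ℝ) + 1) ^ (b + 1) :=
          one_le_pow₀ (by have : (0 : ℝ) ≤ A := by positivity
                          linarith)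
        linarith
      have hq : ((A : ℝ) ^ (b + 1)) ^ r * (2 ^ r / (C : ℝ) ^ t) ≤ (1 / 2 : ℝ) ^ r := by
        rw [← mul_div_assoc, div_le_iff₀ hCt]
        calc ((A : ℝ) ^ (b + 1)) ^ r * 2 ^ r = ((A : ℝ) ^ (b + 1) * 2) ^ r := by rw [mul_pow]
          _ ≤ ((1 / 2) * (4 * ((A : ℝ) + 1) ^ (b + 1))) ^ r := by
              refine pow_le_pow_left₀ (by positivity) ?_ _
              have h3 : (A : ℝ) ^ (b + 1) ≤ ((A : ℝ) + 1) ^ (b + 1) :=
                pow_le_pow_left₀ (by positivity) (by linarith) _
              linarith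
          _ = (1 / 2) ^ r * (4 * ((A : ℝ) + 1) ^ (b + 1)) ^ r := by rw [mul_pow]
          _ ≤ (1 / 2) ^ r * (C : ℝ) ^ t := mul_le_mul_of_nonneg_left hCt2 (by positivity)
      have h4 := hr1 r (by omega)
      rw [hLe, hP]
      calc ((k : ℝ) + 1) * ((2 * W : ℝ) ^ (b + 1) * (r : ℝ) ^ (b + 1) * ((A : ℝ) ^ (b + 1)) ^ r *
            (2 ^ 2 ^ k * (2 ^ r / (C : ℝ) ^ t)))
          = K * (r : ℝ) ^ (b + 1) * (((A : ℝ) ^ (b + 1)) ^ r * (2 ^ r / (C : ℝ) ^ t)) := by
            rw [hK]
            ring
        _ ≤ K * (r : ℝ) ^ (b + 1) * (1 / 2 : ℝ) ^ r :=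
            mul_le_mul_of_nonneg_left hq (by positivity)
        _ = K * ((r : ℝ) ^ (b + 1) * (1 / 2 : ℝ) ^ r) := by ring
        _ ≤ K * (1 / (2 * K)) := mul_le_mul_of_nonneg_left h4.le hKpos.le
        _ = 1 / 2 := by field_simp)
  refine ⟨H, fun e he => mem_powersetCard.1 (hHX he), hH1, ?_⟩
  intro J hJ hJk
  exact hH2 J hJ hJk

end LocTr
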