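import Pool.Agent.Work.MP_a8cb64_co.DDefs
import Pool.Agent.Work.MP_a8cb64_co.LE1

/-!
MP_a8cb64_co, Theorem D, module D1 (helper94): random `r`-graphs all of whose small subfamilies
have little information.
-/

namespace LocTr

open Finset RandG

namespace InfoG

/-- The Venn type of a tuple of sets. -/
def typ (n j : ℕ) (a : Fin j → Finset ℕ) (t : Fin j → Bool) : ℕ :=
  ((univ : Finset (Fin n)).filter fun x : Fin n => (fun i => decide ((x : ℕ) ∈ a i)) = t).card

theorem typ_lt (n j : ℕ) (a : Fin j → Finset ℕ) (t : Fin j → Bool) : typ n j a t < n + 1 := by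
  have h : typ n j a t ≤ (univ : Finset (Fin n)).card := card_le_card (filter_subset _ _)
  rw [card_univ, Fintype.card_fin] at h
  omega

theorem exists_perm (n j : ℕ) (a₀ a : Fin j → Finset ℕ) (h : typ n j a = typ n j a₀) :
    ∃ σ : Equiv.Perm (Fin n), ∀ i, ∀ x : Fin n, ((x : ℕ) ∈ a₀ i ↔ ((σ x : Fin n) : ℕ) ∈ a i) := by
  have h1 : ∀ t : Fin j → Bool, Nonempty
      ({x : Fin n // (fun i => decide ((x : ℕ) ∈ a₀ i)) = t} ≃
        {x : Fin n // (fun i => decide ((x : ℕ) ∈ a i)) = t}) := by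
    intro t
    rw [← Fintype.card_eq, Fintype.card_subtype, Fintype.card_subtype]
    exact (congrFun h t).symm
  have E := fun t => (h1 t).some
  refine ⟨Equiv.ofFiberEquiv E, fun i x => ?_⟩
  have h2 := congrFun (Equiv.ofFiberEquiv_map (f := fun x : Fin n => fun i =>
    decide ((x : ℕ) ∈ a₀ i)) (g := fun x : Fin n => fun i => decide ((x : ℕ) ∈ a i)) E x) i
  simp only [decide_eq_decide] at h2
  exact h2.symm

/-- A Venn type class has at most `n! / symC` members. -/
theorem class_card (n j : ℕ) (a₀ : Fin j → Finset ℕ) (B : Finset (Fin j → Finset ℕ))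
    (hB : ∀ a ∈ B, (∀ i, a i ⊆ range n) ∧ typ n j a = typ n j a₀) :
    B.card * symC n (univ.image a₀) ≤ n.factorial := by
  set S : (Fin j → Finset ℕ) → Finset (Equiv.Perm (Fin n)) := fun a => univ.filter fun σ =>
    ∀ i, ∀ x : Fin n, ((x : ℕ) ∈ a₀ i ↔ ((σ x : Fin n) : ℕ) ∈ a i) with hS
  have h1 : ∀ a ∈ B, symC n (univ.image a₀) ≤ (S a).card := by
    intro a ha
    obtain ⟨σ, hσ⟩ := exists_perm n j a₀ a (hB a ha).2
    have e1 : symC n (univ.image a₀) = ((univ : Finset (Equiv.Perm (Fin n))).filter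
        fun τ : Equiv.Perm (Fin n) => ∀ A ∈ univ.image a₀, ∀ x : Fin n, ((x : ℕ) ∈ A ↔ ((τ x : Fin n) : ℕ) ∈ A)).card := by
      rw [symC, Nat.card_eq_fintype_card, Fintype.card_subtype]
    rw [e1]
    refine card_le_card_of_injOn (fun τ => σ * τ) ?_ ?_
    · intro τ hτ
      rw [mem_coe, mem_filter] at hτ
      rw [mem_coe, hS, mem_filter]
      refine ⟨mem_univ _, fun i x => ?_⟩
      rw [hτ.2 (a₀ i) (mem_image_of_mem _ (mem_univ i)) x, hσ i (τ x)]
      rfl
    · intro τ _ τ' _ h
      exact mul_left_cancel h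
  have h2 : (B : Set (Fin j → Finset ℕ)).PairwiseDisjoint S := by
    intro a ha b hb hab
    rw [Function.onFun, disjoint_left]
    intro σ hσa hσb
    rw [hS, mem_filter] at hσa hσb
    refine hab (funext fun i => ?_)
    have key : ∀ (a b : Fin j → Finset ℕ), a ∈ B →
        (∀ i, ∀ x : Fin n, ((x : ℕ) ∈ a₀ i ↔ ((σ x : Fin n) : ℕ) ∈ a i)) →
        (∀ i, ∀ x : Fin n, ((x : ℕ) ∈ a₀ i ↔ ((σ x : Fin n) : ℕ) ∈ b i)) → a i ⊆ b i := by
      intro a b ha h3 h4 y hy
      have hyn : y < n := mem_range.1 ((hB a ha).1 i hy)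
      have h5 := h3 i (σ.symm ⟨y, hyn⟩)
      have h6 := h4 i (σ.symm ⟨y, hyn⟩)
      rw [Equiv.apply_symm_apply] at h5 h6
      exact h6.1 (h5.2 hy)
    exact Subset.antisymm (key a b ha hσa.2 hσb.2) (key b a hb hσb.2 hσa.2)
  calc B.card * symC n (univ.image a₀) = ∑ _a ∈ B, symC n (univ.image a₀) := by
        rw [sum_const, smul_eq_mul]
    _ ≤ ∑ a ∈ B, (S a).card := Finset.sum_le_sum h1
    _ = (B.biUnion S).card := (card_biUnion h2).symm
    _ ≤ (univ : Finset (Equiv.Perm (Fin n))).card := card_le_card (subset_univ _)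
    _ = n.factorial := by rw [card_univ, Fintype.card_perm, Fintype.card_fin]

theorem symC_pos (n : ℕ) (J : Finset (Finset ℕ)) : 0 < symC n J := by
  rw [symC, Nat.card_pos_iff]
  exact ⟨⟨⟨1, fun A _ x => Iff.rfl⟩⟩, inferInstance⟩

theorem symC_le (n : ℕ) (J : Finset (Finset ℕ)) : symC n J ≤ n.factorial := by
  classical
  rw [symC, Nat.card_eq_fintype_card, Fintype.card_subtype]
  refine (card_le_card (filter_subset _ _)).trans ?_
  rw [card_univ, Fintype.card_perm, Fintype.card_fin]

/-- The number of tuples with much information. -/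
theorem tuples_card (n r j : ℕ) (hr : r ≤ n) (T : ℝ) (B : Finset (Fin j → Finset ℕ))
    (hB : ∀ a ∈ B, (∀ i, a i ⊆ range n) ∧ (univ.image a).card = j ∧
      T < infoG n r (univ.image a)) :
    (B.card : ℝ) ≤ ((n : ℝ) + 1) ^ 2 ^ j * ((n.choose r : ℝ) ^ j * Real.exp (-T)) := by
  classical
  have hN : (0 : ℝ) < n.choose r := by exact_mod_cast Nat.choose_pos hr
  set b : ℝ := (n.choose r : ℝ) ^ j * Real.exp (-T) with hb
  have hb0 : 0 ≤ b := by positivity
  have h1 : ∀ t ∈ B.image (typ n j), ((B.filter fun a => typ n j a = t).card : ℝ) ≤ b := by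
    intro t ht
    rw [mem_image] at ht
    obtain ⟨a₀, ha₀, rfl⟩ := ht
    have h2 := class_card n j a₀ (B.filter fun a => typ n j a = typ n j a₀) (by
      intro a ha
      rw [mem_filter] at ha
      exact ⟨(hB a ha.1).1, ha.2⟩)
    obtain ⟨-, hc, hT⟩ := hB a₀ ha₀
    rw [infoG, hc] at hT
    have hs : (0 : ℝ) < symC n (univ.image a₀) := by exact_mod_cast symC_pos _ _
    have hf : (0 : ℝ) < n.factorial := by exact_mod_cast n.factorial_pos
    have h3 : ((B.filter fun a => typ n j a = typ n j a₀).card : ℝ) *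
        symC n (univ.image a₀) ≤ n.factorial := by exact_mod_cast h2
    have h4 : (n.factorial : ℝ) ≤ b * symC n (univ.image a₀) := by
      have h5 : Real.log n.factorial ≤ Real.log (b * symC n (univ.image a₀)) := by
        rw [hb, Real.log_mul (by positivity) hs.ne', Real.log_mul (by positivity) (by positivity),
          Real.log_pow, Real.log_exp]
        linarith
      exact (Real.log_le_log_iff hf (by positivity)).1 h5
    exact le_of_mul_le_mul_right (h3.trans h4) hs
  have h2 : B.card = ∑ t ∈ B.image (typ n j), (B.filter fun a => typ n j a = t).card :=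
    card_eq_sum_card_image _ _
  have h3 : (B.card : ℝ) ≤ ∑ _t ∈ B.image (typ n j), b := by
    rw [h2]
    push_cast
    exact Finset.sum_le_sum h1
  refine h3.trans ?_
  rw [sum_const, nsmul_eq_mul]
  refine mul_le_mul_of_nonneg_right ?_ hb0
  have h4 : B.image (typ n j) ⊆ Fintype.piFinset fun _ : Fin j → Bool => range (n + 1) := by
    intro t ht
    rw [mem_image] at ht
    obtain ⟨a, -, rfl⟩ := ht
    rw [Fintype.mem_piFinset]
    exact fun t => mem_range.2 (typ_lt n j a t)
  have h5 : (B.image (typ n j)).card ≤ (n + 1) ^ 2 ^ j := by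
    refine (card_le_card h4).trans (le_of_eq ?_)
    rw [Fintype.card_piFinset, Finset.prod_const, card_range, card_univ]
    congr 1
    rw [Fintype.card_fun, Fintype.card_bool, Fintype.card_fin]
  exact_mod_cast h5

/-- The number of `j`-families with much information. -/
theorem fams_card (n r j : ℕ) (hr : r ≤ n) (T : ℝ) (B : Finset (Finset (Finset ℕ)))
    (hB : ∀ J ∈ B, J ⊆ powersetCard r (range n) ∧ J.card = j ∧ T < infoG n r J) :
    (B.card : ℝ) ≤ ((n : ℝ) + 1) ^ 2 ^ j * ((n.choose r : ℝ) ^ j * Real.exp (-T)) := by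
  classical
  have h1 : ∀ J : Finset (Finset ℕ), ∃ a : Fin j → Finset ℕ, J.card = j → univ.image a = J := by
    intro J
    by_cases h : J.card = j
    · refine ⟨fun i => ((J.equivFinOfCardEq h).symm i : Finset ℕ), fun _ => ?_⟩
      ext e
      rw [mem_image]
      constructor
      · rintro ⟨i, -, rfl⟩
        exact ((J.equivFinOfCardEq h).symm i).2
      · intro he
        exact ⟨J.equivFinOfCardEq h ⟨e, he⟩, mem_univ _, by simp⟩
    · exact ⟨fun _ => ∅, fun h' => absurd h' h⟩
  choose en hen using h1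
  have h2 : (B.image en).card = B.card := by
    refine card_image_of_injOn ?_
    intro J hJ J' hJ' h
    rw [mem_coe] at hJ hJ'
    rw [← hen J (hB J hJ).2.1, ← hen J' (hB J' hJ').2.1, h]
  rw [← h2]
  refine tuples_card n r j hr T (B.image en) ?_
  intro a ha
  rw [mem_image] at ha
  obtain ⟨J, hJ, rfl⟩ := ha
  obtain ⟨h3, h4, h5⟩ := hB J hJ
  rw [hen J h4]
  refine ⟨fun i => ?_, h4, h5⟩
  have h6 : en J i ∈ J := by
    have : en J i ∈ univ.image (en J) := mem_image_of_mem _ (mem_univ i)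
    rwa [hen J h4] at this
  exact (mem_powersetCard.1 (h3 h6)).1

theorem card_super {α : Type*} [DecidableEq α] (X J : Finset α) (L : ℕ) (hJ : J ⊆ X) :
    ((powersetCard L X).filter fun H => J ⊆ H).card ≤ (X.card - J.card).choose (L - J.card) := by
  have h1 : (X.card - J.card).choose (L - J.card) =
      (powersetCard (L - J.card) (X \ J)).card := by
    rw [card_powersetCard, card_sdiff_of_subset hJ]
  rw [h1]
  refine card_le_card_of_injOn (fun f => f \ J) ?_ ?_
  · intro f hf
    rw [mem_coe, mem_filter, mem_powersetCard] at hf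
    rw [mem_coe, mem_powersetCard]
    obtain ⟨⟨h2, h3⟩, h4⟩ := hf
    refine ⟨sdiff_subset_sdiff h2 (le_refl J), ?_⟩
    rw [card_sdiff_of_subset h4, h3]
  · intro f hf g hg hfg
    rw [mem_coe, mem_filter] at hf hg
    have h5 : f \ J = g \ J := hfg
    rw [← sdiff_union_of_subset hf.2, ← sdiff_union_of_subset hg.2, h5]

theorem choose_ratio (N L j : ℕ) (hj : j ≤ L) (hL : L ≤ N) :
    N ^ j * (N - j).choose (L - j) ≤ L ^ j * N.choose L := by
  have h1 := mul_choose_le N L L N j (fun i _ => by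
    rw [Nat.mul_sub, Nat.mul_sub, mul_comm N L]
    exact Nat.sub_le_sub_left (Nat.mul_le_mul_right _ hL) _)
  have h2 := Nat.choose_mul (n := N) hj
  have h3 : 0 < N.choose j := Nat.choose_pos (hj.trans hL)
  refine Nat.le_of_mul_le_mul_left ?_ h3
  calc N.choose j * (N ^ j * (N - j).choose (L - j))
      = N ^ j * (N.choose j * (N - j).choose (L - j)) := by ring
    _ = N ^ j * (N.choose L * L.choose j) := by rw [h2]
    _ = (N ^ j * L.choose j) * N.choose L := by ring
    _ ≤ (L ^ j * N.choose j) * N.choose L := Nat.mul_le_mul_right _ h1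
    _ = N.choose j * (L ^ j * N.choose L) := by ring

theorem real_choose_le (n M r : ℕ) (c : ℝ)
    (h : ∀ i < r, ((n - i : ℕ) : ℝ) ≤ c * ((M - i : ℕ) : ℝ)) :
    (n.choose r : ℝ) ≤ c ^ r * M.choose r := by
  have h1 : (n.descFactorial r : ℝ) ≤ c ^ r * M.descFactorial r := by
    rw [Nat.descFactorial_eq_prod_range, Nat.descFactorial_eq_prod_range]
    push_cast
    have e2 : c ^ r * ∏ i ∈ range r, ((M - i : ℕ) : ℝ) =
        ∏ i ∈ range r, (c * ((M - i : ℕ) : ℝ)) := by
      rw [Finset.prod_mul_distrib, Finset.prod_const, card_range]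
    rw [e2]
    exact Finset.prod_le_prod (fun i _ => by positivity) fun i hi => h i (mem_range.1 hi)
  rw [Nat.descFactorial_eq_factorial_mul_choose, Nat.descFactorial_eq_factorial_mul_choose] at h1
  push_cast at h1
  have h3 : (0 : ℝ) < r.factorial := by exact_mod_cast r.factorial_pos
  refine le_of_mul_le_mul_left ?_ h3
  linarith

/-- Random `L`-subsets of the set `X` of all `r`-sets. -/
theorem exists_random_set (n M r k L : ℕ) (D T : ℝ) (hn : 1 ≤ n) (hD : 0 < D)
    (hLD : 2 * D * n ≤ L) (hcov : (n.choose r : ℝ) ≤ D * M.choose r) (hMn : M ≤ n) (hrM : r ≤ M)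
    (hkL : k ≤ L) (hLN : L ≤ n.choose r)
    (hT : (k + 1) * (((n : ℝ) + 1) ^ 2 ^ k * (L * Real.exp (-T))) ≤ 1 / 2) :
    ∃ H ⊆ powersetCard r (range n),
      (∀ Q : Finset ℕ, Q ⊆ range n → Q.card = M → ∃ e ∈ H, e ⊆ Q) ∧
      ∀ J ⊆ H, J.card ≤ k → infoG n r J ≤ T * J.card := by
  classical
  set X := powersetCard r (range n) with hX
  have hXc : X.card = n.choose r := by rw [hX, card_powersetCard, card_range]
  set N := n.choose r with hN
  have hNpos : 0 < N := Nat.choose_pos (hrM.trans hMn)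
  have hNR : (0 : ℝ) < N := by exact_mod_cast hNpos
  set Ω := powersetCard L X with hΩ
  have hΩc : (Ω.card : ℝ) = N.choose L := by rw [hΩ, card_powersetCard, hXc]
  have hΩpos : (0 : ℝ) < N.choose L := by exact_mod_cast Nat.choose_pos hLN
  set B1 : Finset ℕ → Finset (Finset (Finset ℕ)) := fun Q => Ω.filter fun H => ∀ e ∈ H, ¬ e ⊆ Q
    with hB1
  set BJ : ℕ → Finset (Finset (Finset ℕ)) := fun j =>
    (powersetCard j X).filter fun J => T * j < infoG n r J with hBJ
  set U1 := (powersetCard M (range n)).biUnion B1 with hU1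
  set U2 := (Icc 1 k).biUnion fun j => (BJ j).biUnion fun J => Ω.filter fun H => J ⊆ H with hU2
  have hn1 : (1 : ℝ) ≤ n := by exact_mod_cast hn
  have hU1c : (U1.card : ℝ) < N.choose L * (1 / 2) := by
    have h1 : ∀ Q ∈ powersetCard M (range n), ((B1 Q).card : ℝ) ≤
        N.choose L * Real.exp (-(2 * n : ℝ)) := by
      intro Q hQ
      rw [mem_powersetCard] at hQ
      have h2 : B1 Q = powersetCard L (X.filter fun e => ¬ e ⊆ Q) := by
        ext H
        rw [hB1]
        simp only [hΩ, mem_filter, mem_powersetCard]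
        constructor
        · rintro ⟨⟨h3, h4⟩, h5⟩
          exact ⟨fun e he => mem_filter.2 ⟨h3 he, h5 e he⟩, h4⟩
        · rintro ⟨h3, h4⟩
          exact ⟨⟨fun e he => (mem_filter.1 (h3 he)).1, h4⟩, fun e he => (mem_filter.1 (h3 he)).2⟩
      have h5 : (X.filter fun e => e ⊆ Q).card = M.choose r := by
        have h6 : (X.filter fun e => e ⊆ Q) = powersetCard r Q := by
          ext e
          rw [mem_filter, hX, mem_powersetCard, mem_powersetCard]
          constructor
          · rintro ⟨⟨-, h7⟩, h8⟩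
            exact ⟨h8, h7⟩
          · rintro ⟨h7, h8⟩
            exact ⟨⟨h7.trans hQ.1, h8⟩, h7⟩
        rw [h6, card_powersetCard, hQ.2]
      have h9 := card_filter_add_card_filter_not (s := X) (fun e => e ⊆ Q)
      rw [h5, hXc] at h9
      have h10 : (X.filter fun e => ¬ e ⊆ Q).card = N - M.choose r := by omega
      rw [h2, card_powersetCard, h10]
      set c := M.choose r with hc
      have hcN : c ≤ N := by
        rw [hc, hN]
        exact Nat.choose_le_choose r hMn
      have h11 := mul_choose_le N (N - c) (N - c) N L (fun i _ => by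
        have e1 := Nat.mul_sub N (N - c) i
        have e2 := Nat.mul_sub (N - c) N i
        rw [e1, e2, mul_comm N (N - c)]
        exact Nat.sub_le_sub_left (Nat.mul_le_mul_right _ (Nat.sub_le _ _)) _)
      have h12 : (N : ℝ) ^ L * ((N - c).choose L : ℝ) ≤ ((N : ℝ) - c) ^ L * N.choose L := by
        have : (N : ℝ) ^ L * ((N - c).choose L : ℝ) ≤ (((N - c : ℕ) : ℝ)) ^ L * N.choose L := by
          exact_mod_cast h11
        rwa [Nat.cast_sub hcN] at this
      have h13 : (N : ℝ) - c ≤ N * Real.exp (-(1 / D)) := by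
        have h14 : (N : ℝ) / D ≤ c := by
          rw [div_le_iff₀ hD]
          linarith
        have h15 : 1 - 1 / D ≤ Real.exp (-(1 / D)) := Real.one_sub_le_exp_neg _
        calc (N : ℝ) - c ≤ N - N / D := by linarith
          _ = N * (1 - 1 / D) := by ring
          _ ≤ _ := mul_le_mul_of_nonneg_left h15 hNR.le
      have h16 : 0 ≤ (N : ℝ) - c := by
        have : (c : ℝ) ≤ N := by exact_mod_cast hcN
        linarith
      have h17 : (Real.exp (-(1 / D))) ^ L ≤ Real.exp (-(2 * n : ℝ)) := by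
        rw [← Real.exp_nat_mul]
        refine Real.exp_le_exp.2 ?_
        have h18 : 2 * (n : ℝ) ≤ L / D := by
          rw [le_div_iff₀ hD]
          linarith
        have h19 : (L : ℝ) * -(1 / D) = -(L / D) := by ring
        rw [h19]
        linarith
      have h20 : (N : ℝ) ^ L * ((N - c).choose L : ℝ) ≤
          (N : ℝ) ^ L * (N.choose L * Real.exp (-(2 * n : ℝ))) := by
        calc (N : ℝ) ^ L * ((N - c).choose L : ℝ) ≤ ((N : ℝ) - c) ^ L * N.choose L := h12
          _ ≤ (N * Real.exp (-(1 / D))) ^ L * N.choose L := by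
              refine mul_le_mul_of_nonneg_right (pow_le_pow_left₀ h16 h13 _) hΩpos.le
          _ = (N : ℝ) ^ L * (N.choose L * (Real.exp (-(1 / D))) ^ L) := by
              rw [mul_pow]
              ring
          _ ≤ (N : ℝ) ^ L * (N.choose L * Real.exp (-(2 * n : ℝ))) := by
              refine mul_le_mul_of_nonneg_left ?_ (by positivity)
              exact mul_le_mul_of_nonneg_left h17 hΩpos.le
      exact le_of_mul_le_mul_left h20 (by positivity)
    have h16 : (U1.card : ℝ) ≤ (n.choose M : ℝ) * (N.choose L * Real.exp (-(2 * n : ℝ))) := by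
      have h17 : (U1.card : ℝ) ≤ ∑ Q ∈ powersetCard M (range n), ((B1 Q).card : ℝ) := by
        have : U1.card ≤ ∑ Q ∈ powersetCard M (range n), (B1 Q).card := card_biUnion_le
        exact_mod_cast this
      refine h17.trans ((Finset.sum_le_sum h1).trans ?_)
      rw [sum_const, card_powersetCard, card_range, nsmul_eq_mul]
    refine lt_of_le_of_lt h16 ?_
    have h18 : (n.choose M : ℝ) ≤ 2 ^ n := by exact_mod_cast Nat.choose_le_two_pow _ _
    have h19 : (2 : ℝ) ^ n * Real.exp (-(2 * n : ℝ)) < 1 / 2 := by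
      have h20 : Real.exp (-(2 * n : ℝ)) = (Real.exp (-2)) ^ n := by
        rw [← Real.exp_nat_mul]
        congr 1
        ring
      rw [h20, ← mul_pow]
      have h21 : Real.exp (-2) < 1 / 4 := by
        have h22 : Real.exp (-2) = (Real.exp 1)⁻¹ * (Real.exp 1)⁻¹ := by
          rw [← Real.exp_neg, ← Real.exp_add]
          norm_num
        have h23 : (2 : ℝ) < Real.exp 1 := by
          have := Real.exp_one_gt_d9
          linarith
        have h24 : (Real.exp 1)⁻¹ < 1 / 2 := by
          rw [inv_eq_one_div]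
          exact one_div_lt_one_div_of_lt (by norm_num) h23
        have h25 : 0 < (Real.exp 1)⁻¹ := by positivity
        rw [h22]
        nlinarith
      have h26 : 0 ≤ 2 * Real.exp (-2) := by positivity
      calc (2 * Real.exp (-2)) ^ n ≤ (2 * Real.exp (-2)) ^ 1 :=
            pow_le_pow_of_le_one h26 (by linarith) hn
        _ < 1 / 2 := by
            rw [pow_one]
            linarith
    calc (n.choose M : ℝ) * (N.choose L * Real.exp (-(2 * n : ℝ)))
        ≤ 2 ^ n * (N.choose L * Real.exp (-(2 * n : ℝ))) :=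
          mul_le_mul_of_nonneg_right h18 (by positivity)
      _ = N.choose L * (2 ^ n * Real.exp (-(2 * n : ℝ))) := by ring
      _ < N.choose L * (1 / 2) := mul_lt_mul_of_pos_left h19 hΩpos
  have hU2c : (U2.card : ℝ) ≤ N.choose L * (1 / 2) := by
    set q : ℝ := L * Real.exp (-T) with hq
    have hq0 : 0 ≤ q := by positivity
    have hpow1 : (1 : ℝ) ≤ ((n : ℝ) + 1) ^ 2 ^ k := one_le_pow₀ (by linarith)
    have hk0 : (0 : ℝ) ≤ k := by positivity
    have hq1 : q ≤ 1 := by
      have h1 : q ≤ ((n : ℝ) + 1) ^ 2 ^ k * q := le_mul_of_one_le_left hq0 hpow1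
      have h2 : ((n : ℝ) + 1) ^ 2 ^ k * q ≤ (k + 1) * (((n : ℝ) + 1) ^ 2 ^ k * q) :=
        le_mul_of_one_le_left (by positivity) (by linarith)
      linarith
    have h1 : ∀ j ∈ Icc 1 k, (((BJ j).biUnion fun J => Ω.filter fun H => J ⊆ H).card : ℝ) ≤
        N.choose L * (((n : ℝ) + 1) ^ 2 ^ k * q) := by
      intro j hj
      rw [mem_Icc] at hj
      have h2 : ∀ J ∈ BJ j, ((Ω.filter fun H => J ⊆ H).card : ℝ) ≤
          (L : ℝ) ^ j / (N : ℝ) ^ j * N.choose L := by
        intro J hJ
        rw [hBJ, mem_filter, mem_powersetCard] at hJ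
        have h3 := card_super X J L hJ.1.1
        rw [hXc, hJ.1.2] at h3
        have h4 := choose_ratio N L j (hj.2.trans hkL) hLN
        have h5 : (N : ℝ) ^ j * ((N - j).choose (L - j) : ℝ) ≤ (L : ℝ) ^ j * N.choose L := by
          exact_mod_cast h4
        have h6 : ((Ω.filter fun H => J ⊆ H).card : ℝ) ≤ ((N - j).choose (L - j) : ℝ) := by
          exact_mod_cast h3
        rw [div_mul_eq_mul_div, le_div_iff₀ (by positivity)]
        nlinarith [pow_pos hNR j]
      have h7 : (((BJ j).biUnion fun J => Ω.filter fun H => J ⊆ H).card : ℝ) ≤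
          ∑ J ∈ BJ j, ((Ω.filter fun H => J ⊆ H).card : ℝ) := by
        have : ((BJ j).biUnion fun J => Ω.filter fun H => J ⊆ H).card ≤
            ∑ J ∈ BJ j, (Ω.filter fun H => J ⊆ H).card := card_biUnion_le
        exact_mod_cast this
      refine h7.trans ((Finset.sum_le_sum h2).trans ?_)
      rw [sum_const, nsmul_eq_mul]
      have h8 := fams_card n r j (hrM.trans hMn) (T * j) (BJ j) (by
        intro J hJ
        rw [hBJ, mem_filter, mem_powersetCard] at hJ
        exact ⟨hJ.1.1, hJ.1.2, hJ.2⟩)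
      have h9 : ((n : ℝ) + 1) ^ 2 ^ j ≤ ((n : ℝ) + 1) ^ 2 ^ k :=
        pow_le_pow_right₀ (by linarith) (Nat.pow_le_pow_right (by norm_num) hj.2)
      have h10 : Real.exp (-(T * j)) = (Real.exp (-T)) ^ j := by
        rw [← Real.exp_nat_mul]
        congr 1
        ring
      calc ((BJ j).card : ℝ) * ((L : ℝ) ^ j / (N : ℝ) ^ j * N.choose L)
          ≤ (((n : ℝ) + 1) ^ 2 ^ j * ((N : ℝ) ^ j * Real.exp (-(T * j)))) *
              ((L : ℝ) ^ j / (N : ℝ) ^ j * N.choose L) :=
            mul_le_mul_of_nonneg_right h8 (by positivity)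
        _ = N.choose L * (((n : ℝ) + 1) ^ 2 ^ j * q ^ j) := by
            rw [h10, hq, mul_pow]
            field_simp
        _ ≤ N.choose L * (((n : ℝ) + 1) ^ 2 ^ k * q) := by
            refine mul_le_mul_of_nonneg_left ?_ hΩpos.le
            refine mul_le_mul h9 ?_ (by positivity) (by positivity)
            calc q ^ j ≤ q ^ 1 := pow_le_pow_of_le_one hq0 hq1 hj.1
              _ = q := pow_one q
    have h12 : (U2.card : ℝ) ≤ ∑ j ∈ Icc 1 k, N.choose L * (((n : ℝ) + 1) ^ 2 ^ k * q) := by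
      have h13 : (U2.card : ℝ) ≤ ∑ j ∈ Icc 1 k,
          (((BJ j).biUnion fun J => Ω.filter fun H => J ⊆ H).card : ℝ) := by
        have h14 : U2.card ≤ ∑ j ∈ Icc 1 k,
          ((BJ j).biUnion fun J => Ω.filter fun H => J ⊆ H).card := card_biUnion_le
        exact_mod_cast h14
      exact h13.trans (Finset.sum_le_sum h1)
    refine h12.trans ?_
    rw [sum_const, Nat.card_Icc, nsmul_eq_mul, Nat.add_sub_cancel]
    have h15 : (k : ℝ) * (((n : ℝ) + 1) ^ 2 ^ k * q) ≤ 1 / 2 := by
      have : (0 : ℝ) ≤ ((n : ℝ) + 1) ^ 2 ^ k * q := by positivity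
      nlinarith
    calc (k : ℝ) * (N.choose L * (((n : ℝ) + 1) ^ 2 ^ k * q))
        = N.choose L * (k * (((n : ℝ) + 1) ^ 2 ^ k * q)) := by ring
      _ ≤ _ := mul_le_mul_of_nonneg_left h15 hΩpos.le
  obtain ⟨H, hH, hH1, hH2⟩ : ∃ H ∈ Ω, H ∉ U1 ∧ H ∉ U2 := by
    by_contra hcon
    push Not at hcon
    have h1 : Ω ⊆ U1 ∪ U2 := by
      intro ω hω
      rw [mem_union]
      by_cases h : ω ∈ U1
      · exact Or.inl h
      · exact Or.inr (hcon ω hω h)
    have h2 : Ω.card ≤ U1.card + U2.card := (card_le_card h1).trans (card_union_le _ _)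
    have h3 : (Ω.card : ℝ) ≤ U1.card + U2.card := by exact_mod_cast h2
    rw [hΩc] at h3
    linarith
  have hHX : H ⊆ X := (mem_powersetCard.1 hH).1
  refine ⟨H, hHX, ?_, ?_⟩
  · intro Q hQ hQc
    by_contra hcon
    push Not at hcon
    refine hH1 ?_
    rw [hU1, mem_biUnion]
    refine ⟨Q, mem_powersetCard.2 ⟨hQ, hQc⟩, ?_⟩
    rw [hB1, mem_filter]
    exact ⟨hH, hcon⟩
  · intro J hJ hJk
    rcases J.eq_empty_or_nonempty with h0 | h0
    · subst h0
      rw [infoG, card_empty, Nat.cast_zero, mul_zero, zero_mul, zero_add]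
      have h1 : Real.log (symC n ∅) ≤ Real.log n.factorial := by
        refine Real.log_le_log (by exact_mod_cast symC_pos n ∅) ?_
        exact_mod_cast symC_le n ∅
      linarith
    · by_contra hcon
      push Not at hcon
      refine hH2 ?_
      rw [hU2, mem_biUnion]
      refine ⟨J.card, mem_Icc.2 ⟨card_pos.2 h0, hJk⟩, ?_⟩
      rw [mem_biUnion]
      refine ⟨J, ?_, mem_filter.2 ⟨hH, hJ⟩⟩
      rw [hBJ, mem_filter, mem_powersetCard]
      exact ⟨⟨hJ.trans hHX, rfl⟩, hcon⟩

end InfoG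

open InfoG

theorem exists_info (W k : ℕ) (β : ℝ) (hW : 2 ≤ W) (hβ0 : 0 < β) (hβ : β ≤ 1 / 4) :
    ∃ r0 : ℕ, ∀ r : ℕ, r0 ≤ r →
    ∃ H : Finset (Finset ℕ), (∀ e ∈ H, e ⊆ range (W * r) ∧ e.card = r) ∧
      (∀ Q : Finset ℕ, Q ⊆ range (W * r) → (1 - β) * (W * r) ≤ Q.card → ∃ e ∈ H, e ⊆ Q) ∧
      (∀ J : Finset (Finset ℕ), J ⊆ H → J.card ≤ k →
        infoG (W * r) r J ≤ 5 * β * r * J.card) := by
  have hWR : (2 : ℝ) ≤ W := by exact_mod_cast hW
  -- the choice of `r0`
  set m := 2 ^ k + 2 with hm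
  set K : ℝ := (k + 1) * (3 * ((W : ℝ) + 1) ^ m) with hK
  have hKpos : 0 < K := by positivity
  set ρ : ℝ := Real.exp (-β) with hρ
  have hρ0 : 0 < ρ := Real.exp_pos _
  have hlim : Filter.Tendsto (fun r : ℕ => (r : ℝ) ^ m * ρ ^ r) Filter.atTop (nhds 0) := by
    refine tendsto_pow_const_mul_const_pow_of_abs_lt_one m ?_
    rw [abs_of_pos hρ0, hρ]
    calc Real.exp (-β) < Real.exp 0 := Real.exp_lt_exp.2 (by linarith)
      _ = 1 := Real.exp_zero
  have hev : ∀ᶠ r : ℕ in Filter.atTop, (r : ℝ) ^ m * ρ ^ r < 1 / (2 * K) :=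
    hlim.eventually (gt_mem_nhds (by positivity))
  obtain ⟨r1, hr1⟩ := Filter.eventually_atTop.1 hev
  refine ⟨r1 + k + 1, fun r hr => ?_⟩
  have hrpos : 1 ≤ r := by omega
  have hrR : (1 : ℝ) ≤ r := by exact_mod_cast hrpos
  set n := W * r with hn
  have hnR : (n : ℝ) = W * r := by rw [hn]; push_cast; ring
  have hrn : 2 * r ≤ n := Nat.mul_le_mul_right _ hW
  have hn1 : 1 ≤ n := by omega
  have hn1R : (1 : ℝ) ≤ n := by exact_mod_cast hn1
  set M := ⌈(1 - β) * n⌉₊ with hM
  have hM1 : (1 - β) * n ≤ M := Nat.le_ceil _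
  have hMn : M ≤ n := by
    rw [hM]
    refine Nat.ceil_le.2 ?_
    nlinarith
  have hrM : r ≤ M := by
    have h1 : (r : ℝ) ≤ M := by
      have : (2 : ℝ) * r ≤ n := by exact_mod_cast hrn
      nlinarith
    exact_mod_cast h1
  set D : ℝ := (Real.exp (4 * β)) ^ r with hD
  have hDpos : 0 < D := by positivity
  have hD1 : 1 ≤ D := one_le_pow₀ (by
    have := Real.add_one_le_exp (4 * β)
    linarith)
  have hcov : (n.choose r : ℝ) ≤ D * M.choose r := by
    refine real_choose_le n M r _ fun i hi => ?_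
    rw [Nat.cast_sub (by omega), Nat.cast_sub (by omega)]
    have h1 : (1 - 2 * β) * ((n : ℝ) - i) ≤ (M : ℝ) - i := by
      have h2 : (i : ℝ) ≤ r := by exact_mod_cast hi.le
      have h3 : (2 : ℝ) * r ≤ n := by exact_mod_cast hrn
      nlinarith
    have h4 : 1 ≤ Real.exp (4 * β) * (1 - 2 * β) := by
      have h5 := Real.add_one_le_exp (4 * β)
      nlinarith
    have h6 : 0 ≤ (n : ℝ) - i := by
      have : (i : ℝ) ≤ n := by exact_mod_cast (by omega : i ≤ n)
      linarith
    calc (n : ℝ) - i ≤ (Real.exp (4 * β) * (1 - 2 * β)) * ((n : ℝ) - i) :=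
          le_mul_of_one_le_left h6 h4
      _ = Real.exp (4 * β) * ((1 - 2 * β) * ((n : ℝ) - i)) := by ring
      _ ≤ Real.exp (4 * β) * ((M : ℝ) - i) :=
          mul_le_mul_of_nonneg_left h1 (Real.exp_pos _).le
  set L := ⌈2 * D * n⌉₊ with hL
  have hLD : 2 * D * n ≤ L := Nat.le_ceil _
  have hDn : 1 ≤ D * n := by nlinarith
  have hLle : (L : ℝ) ≤ 3 * D * n := by
    have := Nat.ceil_lt_add_one (show 0 ≤ 2 * D * n by positivity)
    rw [← hL] at this
    nlinarith
  have hkL : k ≤ L := by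
    have h1 : (k : ℝ) ≤ L := by
      have h2 : (k : ℝ) ≤ r := by exact_mod_cast (by omega : k ≤ r)
      have h3 : (2 : ℝ) * r ≤ n := by exact_mod_cast hrn
      have h4 : (n : ℝ) ≤ 2 * D * n := by nlinarith
      linarith
    exact_mod_cast h1
  -- the main estimate
  have hmain : ((k : ℝ) + 1) * (((n : ℝ) + 1) ^ (2 ^ k + 1) *
      (3 * D * n * Real.exp (-(5 * β * r)))) ≤ 1 / 2 := by
    have h1 : D * Real.exp (-(5 * β * r)) = ρ ^ r := by
      rw [hD, hρ, ← Real.exp_nat_mul, ← Real.exp_nat_mul, ← Real.exp_add]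
      congr 1
      ring
    have h2 : (n : ℝ) + 1 ≤ (W + 1) * r := by
      rw [hnR]
      nlinarith
    have h3 := hr1 r (by omega)
    calc ((k : ℝ) + 1) * (((n : ℝ) + 1) ^ (2 ^ k + 1) * (3 * D * n * Real.exp (-(5 * β * r))))
        = ((k : ℝ) + 1) * (3 * (((n : ℝ) + 1) ^ (2 ^ k + 1) * n)) *
            (D * Real.exp (-(5 * β * r))) := by ring
      _ ≤ ((k : ℝ) + 1) * (3 * (((n : ℝ) + 1) ^ (2 ^ k + 1) * ((n : ℝ) + 1))) *
            (D * Real.exp (-(5 * β * r))) := by
          refine mul_le_mul_of_nonneg_right ?_ (by positivity)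
          refine mul_le_mul_of_nonneg_left ?_ (by positivity)
          refine mul_le_mul_of_nonneg_left ?_ (by positivity)
          exact mul_le_mul_of_nonneg_left (by linarith) (by positivity)
      _ = ((k : ℝ) + 1) * (3 * ((n : ℝ) + 1) ^ m) * ρ ^ r := by
          rw [h1, hm]
          ring
      _ ≤ ((k : ℝ) + 1) * (3 * ((W + 1) * r) ^ m) * ρ ^ r := by
          refine mul_le_mul_of_nonneg_right ?_ (by positivity)
          refine mul_le_mul_of_nonneg_left ?_ (by positivity)
          refine mul_le_mul_of_nonneg_left ?_ (by positivity)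
          exact pow_le_pow_left₀ (by positivity) h2 _
      _ = K * ((r : ℝ) ^ m * ρ ^ r) := by
          rw [hK, mul_pow]
          ring
      _ ≤ K * (1 / (2 * K)) := mul_le_mul_of_nonneg_left h3.le hKpos.le
      _ = 1 / 2 := by field_simp
  have hmain2 : ((k : ℝ) + 1) * (((n : ℝ) + 1) ^ 2 ^ k * (L * Real.exp (-(5 * β * r)))) ≤
      1 / 2 := by
    refine le_trans ?_ hmain
    refine mul_le_mul_of_nonneg_left ?_ (by positivity)
    refine mul_le_mul ?_ ?_ (by positivity) (by positivity)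
    · exact pow_le_pow_right₀ (by linarith) (by omega)
    · exact mul_le_mul_of_nonneg_right hLle (by positivity)
  have hLN : L ≤ n.choose r := by
    have h1 : (n : ℝ) * (3 * D * n * Real.exp (-(5 * β * r))) ≤ 1 / 2 := by
      refine le_trans ?_ hmain
      have h2 : (n : ℝ) ≤ ((n : ℝ) + 1) ^ (2 ^ k + 1) := by
        calc (n : ℝ) ≤ ((n : ℝ) + 1) ^ 1 := by rw [pow_one]; linarith
          _ ≤ _ := pow_le_pow_right₀ (by linarith) (Nat.le_add_left 1 _)
      have h3 : (n : ℝ) * (3 * D * n * Real.exp (-(5 * β * r))) ≤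
          ((n : ℝ) + 1) ^ (2 ^ k + 1) * (3 * D * n * Real.exp (-(5 * β * r))) :=
        mul_le_mul_of_nonneg_right h2 (by positivity)
      refine h3.trans (le_mul_of_one_le_left (by positivity) ?_)
      have : (0 : ℝ) ≤ k := by positivity
      linarith
    have h4 : (n : ℝ) * L ≤ Real.exp (5 * β * r) := by
      have h5 : (n : ℝ) * L * Real.exp (-(5 * β * r)) ≤ 1 := by
        have h6 : (n : ℝ) * L * Real.exp (-(5 * β * r)) ≤
            (n : ℝ) * (3 * D * n * Real.exp (-(5 * β * r))) := by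
          rw [mul_assoc]
          refine mul_le_mul_of_nonneg_left ?_ (by positivity)
          exact mul_le_mul_of_nonneg_right hLle (by positivity)
        linarith
      have h7 : Real.exp (-(5 * β * r)) * Real.exp (5 * β * r) = 1 := by
        rw [← Real.exp_add, neg_add_cancel, Real.exp_zero]
      calc (n : ℝ) * L = (n : ℝ) * L * (Real.exp (-(5 * β * r)) * Real.exp (5 * β * r)) := by
            rw [h7, mul_one]
        _ = ((n : ℝ) * L * Real.exp (-(5 * β * r))) * Real.exp (5 * β * r) := by ring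
        _ ≤ 1 * Real.exp (5 * β * r) := mul_le_mul_of_nonneg_right h5 (Real.exp_pos _).le
        _ = _ := one_mul _
    have h8 : Real.exp (5 * β * r) ≤ 4 ^ r := by
      have h9 : Real.exp (5 / 4) ≤ 4 := by
        have h10 : (Real.exp (5 / 4)) ^ 4 ≤ 4 ^ 4 := by
          rw [← Real.exp_nat_mul]
          have h11 : ((4 : ℕ) : ℝ) * (5 / 4) = (5 : ℕ) * 1 := by norm_num
          rw [h11, Real.exp_nat_mul]
          have h12 : Real.exp 1 ≤ 2.7182818286 := Real.exp_one_lt_d9.le
          calc (Real.exp 1) ^ 5 ≤ (2.7182818286 : ℝ) ^ 5 :=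
                pow_le_pow_left₀ (Real.exp_pos _).le h12 _
            _ ≤ 4 ^ 4 := by norm_num
        exact le_of_pow_le_pow_left₀ (by norm_num) (by norm_num) h10
      calc Real.exp (5 * β * r) ≤ Real.exp (r * (5 / 4)) := by
            refine Real.exp_le_exp.2 ?_
            nlinarith
        _ = (Real.exp (5 / 4)) ^ r := by rw [Real.exp_nat_mul]
        _ ≤ 4 ^ r := pow_le_pow_left₀ (Real.exp_pos _).le h9 _
    have h13 := Nat.four_pow_le_two_mul_self_mul_centralBinom r (by omega)
    have h14 : Nat.centralBinom r ≤ n.choose r := by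
      rw [Nat.centralBinom_eq_two_mul_choose]
      exact Nat.choose_le_choose r hrn
    have h15 : (4 : ℝ) ^ r ≤ n * n.choose r := by
      have h16 : 4 ^ r ≤ n * n.choose r :=
        h13.trans (Nat.mul_le_mul hrn h14)
      exact_mod_cast h16
    have h17 : (n : ℝ) * L ≤ n * n.choose r := h4.trans (h8.trans h15)
    have h18 : (L : ℝ) ≤ n.choose r := le_of_mul_le_mul_left h17 (by linarith)
    exact_mod_cast h18
  obtain ⟨H, hHX, hH1, hH2⟩ := exists_random_set n M r k L D (5 * β * r) hn1 hDpos hLD hcov hMn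
    hrM hkL hLN hmain2
  refine ⟨H, fun e he => mem_powersetCard.1 (hHX he), ?_, hH2⟩
  intro Q hQ hQc
  have h1 : M ≤ Q.card := by
    rw [hM]
    refine Nat.ceil_le.2 ?_
    rw [hnR]
    exact hQc
  obtain ⟨Q', hQ', hQ'c⟩ := exists_subset_card_eq h1
  obtain ⟨e, he, heQ⟩ := hH1 Q' (hQ'.trans hQ) hQ'c
  exact ⟨e, he, heQ.trans hQ'⟩

end LocTr
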