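import Mathlib

/-!
MP_a8cb64_co, Theorem A (helper72, note 2314): definitions.
-/

namespace LocTr

open Finset

/-- `T` meets every member of `F`. -/
def IsTrans (F : Finset (Finset ℕ)) (T : Finset ℕ) : Prop :=
  ∀ e ∈ F, (e ∩ T).Nonempty

/-- Every subfamily of at most `k` members of `H` has a transversal with at most `s` points. -/
def LocProp (k s : ℕ) (H : Finset (Finset ℕ)) : Prop :=
  ∀ F : Finset (Finset ℕ), F ⊆ H → F.card ≤ k → ∃ T : Finset ℕ, T.card ≤ s ∧ IsTrans F T

/-- `fval r k s` is `f_r(k,s)`: the least `f` such that every finite `r`-graph all of whose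
subfamilies of at most `k` edges have a transversal of at most `s` points has a transversal
of at most `f` points. -/
noncomputable def fval (r k s : ℕ) : ℕ :=
  sInf {f : ℕ | ∀ H : Finset (Finset ℕ), (∀ e ∈ H, e.card = r) → LocProp k s H →
    ∃ T : Finset ℕ, T.card ≤ f ∧ IsTrans H T}

end LocTr
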