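import Pool.Agent.Work.MP_a8cb64_co.LM4

/-!
MP_a8cb64_co, Theorem B (helper72, note 2344): module E7 (helper23).
Part (2): `f_r(k,s) + m ⌊r/2⌋ ≤ r s` if `2^m (s-m+2) ≤ k+1`, `m ≤ s`.
-/

namespace LocTr

open Finset

/-- one halving step: either the edges missing one half of `e₀` have the local property with
`(k', s)`, or we get a contradiction with the local property `(2k'+1, s+1)`. -/
theorem half_step (k k' s : ℕ) (hk : 2 * k' + 1 ≤ k) (H : Finset (Finset ℕ))
    (hH : LocProp k (s + 1) H) (e0 : Finset ℕ) (he0 : e0 ∈ H) (P1 P2 : Finset ℕ)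
    (hP : e0 ⊆ P1 ∪ P2) :
    LocProp k' s (H.filter fun e => Disjoint e P1) ∨
      LocProp k' s (H.filter fun e => Disjoint e P2) := by
  classical
  by_contra hcon
  rw [not_or] at hcon
  obtain ⟨h1, h2⟩ := hcon
  unfold LocProp at h1 h2
  push Not at h1 h2
  obtain ⟨F1, hF1, hc1, hn1⟩ := h1
  obtain ⟨F2, hF2, hc2, hn2⟩ := h2
  have hsub : insert e0 (F1 ∪ F2) ⊆ H := by
    intro e he
    rcases Finset.mem_insert.1 he with h | h
    · exact h ▸ he0
    · rcases Finset.mem_union.1 h with h | h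
      · exact (Finset.mem_filter.1 (hF1 h)).1
      · exact (Finset.mem_filter.1 (hF2 h)).1
  have hcard : (insert e0 (F1 ∪ F2)).card ≤ k := by
    have h3 := Finset.card_insert_le e0 (F1 ∪ F2)
    have h4 := Finset.card_union_le F1 F2
    omega
  obtain ⟨T, hT, hTr⟩ := hH _ hsub hcard
  obtain ⟨x, hx⟩ := hTr e0 (Finset.mem_insert_self _ _)
  have hxe := (Finset.mem_inter.1 hx).1
  have hxT := (Finset.mem_inter.1 hx).2
  have hTx : (T.erase x).card ≤ s := by
    rw [Finset.card_erase_of_mem hxT]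
    omega
  have key : ∀ (P : Finset ℕ) (F : Finset (Finset ℕ)), x ∈ P →
      F ⊆ (H.filter fun e => Disjoint e P) → F ⊆ insert e0 (F1 ∪ F2) →
      IsTrans F (T.erase x) := by
    intro P F hxP hF hFs e he
    obtain ⟨y, hy⟩ := hTr e (hFs he)
    have hd := (Finset.mem_filter.1 (hF he)).2
    refine ⟨y, Finset.mem_inter.2 ⟨(Finset.mem_inter.1 hy).1, Finset.mem_erase.2 ⟨?_,
      (Finset.mem_inter.1 hy).2⟩⟩⟩
    rintro rfl
    exact (Finset.disjoint_left.1 hd (Finset.mem_inter.1 hy).1) hxP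
  rcases Finset.mem_union.1 (hP hxe) with h | h
  · exact hn1 (T.erase x) hTx (key P1 F1 h hF1
      (fun e he => Finset.mem_insert_of_mem (Finset.mem_union_left _ he)))
  · exact hn2 (T.erase x) hTx (key P2 F2 h hF2
      (fun e he => Finset.mem_insert_of_mem (Finset.mem_union_right _ he)))

theorem upper_aux (r : ℕ) : ∀ (m s k : ℕ), m ≤ s → 2 ^ m * (s - m + 2) ≤ k + 1 → s < k →
    ∀ H : Finset (Finset ℕ), (∀ e ∈ H, e.card = r) → LocProp k s H →
      ∃ T : Finset ℕ, T.card + m * (r / 2) ≤ r * s ∧ IsTrans H T := by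
  classical
  intro m
  induction m with
  | zero =>
    intro s k _ _ hsk H hr hH
    obtain ⟨T, hT, hTr⟩ := fval_set_mem r k s hsk H hr hH
    exact ⟨T, by simpa using hT, hTr⟩
  | succ m ih =>
    intro s k hms hk hsk H hr hH
    obtain ⟨t, rfl⟩ : ∃ t, s = t + 1 := ⟨s - 1, by omega⟩
    have hmt : m ≤ t := by omega
    have hsub : t + 1 - (m + 1) + 2 = t - m + 2 := by omega
    rw [hsub, pow_succ] at hk
    set q : ℕ := 2 ^ m * (t - m + 2) with hq
    have hk2 : 2 * q ≤ k + 1 := by
      have : 2 ^ m * 2 * (t - m + 2) = 2 * q := by rw [hq]; ring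
      omega
    have hqt : t + 2 ≤ q := by
      have h1 : m + 1 ≤ 2 ^ m := Nat.lt_two_pow_self
      obtain ⟨d, rfl⟩ : ∃ d, t = m + d := ⟨t - m, by omega⟩
      have h2 : m + d - m + 2 = d + 2 := by omega
      rw [hq, h2]
      calc m + d + 2 ≤ (m + 1) * (d + 2) := by nlinarith
        _ ≤ 2 ^ m * (d + 2) := Nat.mul_le_mul_right _ h1
    rcases H.eq_empty_or_nonempty with rfl | ⟨e0, he0⟩
    · refine ⟨∅, ?_, fun e he => absurd he (by simp)⟩
      rw [Finset.card_empty, zero_add]
      calc (m + 1) * (r / 2) ≤ (t + 1) * r :=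
            Nat.mul_le_mul (by omega) (Nat.div_le_self r 2)
        _ = r * (t + 1) := by ring
    · have hc0 := hr e0 he0
      obtain ⟨P1, hP1, hc1⟩ := Finset.exists_subset_card_eq (n := r / 2) (s := e0) (by omega)
      set P2 := e0 \ P1 with hP2
      have hc2 : P2.card = r - r / 2 := by
        rw [hP2, Finset.card_sdiff_of_subset hP1, hc0, hc1]
      have hcov : e0 ⊆ P1 ∪ P2 := by
        intro x hx
        by_cases h : x ∈ P1
        · exact Finset.mem_union_left _ h
        · exact Finset.mem_union_right _ (Finset.mem_sdiff.2 ⟨hx, h⟩)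
      have fin : ∀ P : Finset ℕ, P.card ≤ r - r / 2 →
          LocProp (q - 1) t (H.filter fun e => Disjoint e P) →
          ∃ T : Finset ℕ, T.card + (m + 1) * (r / 2) ≤ r * (t + 1) ∧ IsTrans H T := by
        intro P hPc hloc
        obtain ⟨T, hT, hTr⟩ := ih t (q - 1) hmt (by omega) (by omega)
          (H.filter fun e => Disjoint e P) (fun e he => hr e (Finset.mem_filter.1 he).1) hloc
        refine ⟨T ∪ P, ?_, ?_⟩
        · have h1 := Finset.card_union_le T P
          have h2 : (m + 1) * (r / 2) = m * (r / 2) + r / 2 := by ring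
          have h3 : r * (t + 1) = r * t + r := by ring
          have h4 : r / 2 ≤ r := Nat.div_le_self r 2
          omega
        · intro e he
          by_cases hd : Disjoint e P
          · obtain ⟨y, hy⟩ := hTr e (Finset.mem_filter.2 ⟨he, hd⟩)
            exact ⟨y, Finset.mem_inter.2 ⟨(Finset.mem_inter.1 hy).1,
              Finset.mem_union_left _ (Finset.mem_inter.1 hy).2⟩⟩
          · rw [Finset.not_disjoint_iff] at hd
            obtain ⟨y, hye, hyP⟩ := hd
            exact ⟨y, Finset.mem_inter.2 ⟨hye, Finset.mem_union_right _ hyP⟩⟩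
      rcases half_step k (q - 1) t (by omega) H hH e0 he0 P1 P2 hcov with h | h
      · exact fin P1 (by omega) h
      · exact fin P2 (by omega) h

/-- E7.  Part (2). -/
theorem fval_upper (r s m k : ℕ) (hm : m ≤ s) (hk : 2 ^ m * (s - m + 2) ≤ k + 1) (hsk : s < k) :
    fval r k s + m * (r / 2) ≤ r * s := by
  have hle : m * (r / 2) ≤ r * s := by
    calc m * (r / 2) ≤ s * r := Nat.mul_le_mul hm (Nat.div_le_self r 2)
      _ = r * s := by ring
  have hmem : r * s - m * (r / 2) ∈ {f : ℕ | ∀ H : Finset (Finset ℕ), (∀ e ∈ H, e.card = r) →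
      LocProp k s H → ∃ T : Finset ℕ, T.card ≤ f ∧ IsTrans H T} := by
    intro H hr hH
    obtain ⟨T, hT, hTr⟩ := upper_aux r m s k hm hk hsk H hr hH
    exact ⟨T, by omega, hTr⟩
  have h1 : fval r k s ≤ r * s - m * (r / 2) := Nat.sInf_le hmem
  omega

end LocTr
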