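import Pool.Agent.Work.MP_a8cb64_co.LE7

/-!
MP_a8cb64_co, Theorem B (helper72, note 2344): module E8 (helper23).
For `k ≥ e^{c s}` the trivial bound `r s` is not asymptotically sharp.
-/

namespace LocTr

open Finset

theorem exp_upper (c : ℝ) (h0 : 0 < c) (h1 : c ≤ 1) : ∃ s1 : ℕ, ∀ s : ℕ, s1 ≤ s →
    ∀ k : ℕ, Real.exp (c * s) ≤ k → ∀ r : ℕ, 2 ≤ r →
      (fval r k s : ℝ) ≤ (1 - c / 3) * (r * s) := by
  have hlog : Real.log 2 < 1 := by
    have := Real.log_two_lt_d9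
    linarith
  have hlog0 : 0 < Real.log 2 := Real.log_pos (by norm_num)
  set a : ℝ := c * (1 - Real.log 2) with ha
  have ha0 : 0 < a := mul_pos h0 (by linarith)
  refine ⟨max 2 ⌈8 / a ^ 2⌉₊, ?_⟩
  intro s hs k hk r hr
  have hs2 : 2 ≤ s := (le_max_left _ _).trans hs
  have hsa : (8 / a ^ 2 : ℝ) ≤ s := by
    calc (8 / a ^ 2 : ℝ) ≤ (⌈8 / a ^ 2⌉₊ : ℝ) := Nat.le_ceil _
      _ ≤ s := by exact_mod_cast (le_max_right _ _).trans hs
  have hs2' : (2 : ℝ) ≤ s := by exact_mod_cast hs2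
  have hsa' : 8 ≤ a ^ 2 * s := by
    rw [div_le_iff₀ (by positivity)] at hsa
    linarith
  have hexp : 2 * ((s : ℝ) + 2) ≤ Real.exp (a * s) := by
    have h2 := Real.quadratic_le_exp_of_nonneg (x := a * s) (by positivity)
    have h3 : 8 * (s : ℝ) ≤ (a * s) ^ 2 := by
      calc 8 * (s : ℝ) ≤ (a ^ 2 * s) * s := mul_le_mul_of_nonneg_right hsa' (by positivity)
        _ = (a * s) ^ 2 := by ring
    have h4 : 0 ≤ a * s := by positivity
    nlinarith
  set m : ℕ := ⌈c * s⌉₊ with hm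
  have hm1 : c * s ≤ m := Nat.le_ceil _
  have hm2 : (m : ℝ) < c * s + 1 := Nat.ceil_lt_add_one (by positivity)
  have hms : m ≤ s := by
    rw [hm]
    apply Nat.ceil_le.2
    calc c * (s : ℝ) ≤ 1 * s := mul_le_mul_of_nonneg_right h1 (by positivity)
      _ = s := one_mul _
  have hpow : (2 : ℝ) ^ m ≤ 2 * Real.exp (c * s * Real.log 2) := by
    have h5 : (2 : ℝ) ^ m = Real.exp (m * Real.log 2) := by
      rw [mul_comm, Real.exp_mul, Real.exp_log (by norm_num : (0 : ℝ) < 2), Real.rpow_natCast]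
    have h6 : (2 : ℝ) * Real.exp (c * s * Real.log 2) =
        Real.exp ((c * s + 1) * Real.log 2) := by
      rw [add_mul, one_mul, Real.exp_add, Real.exp_log (by norm_num : (0 : ℝ) < 2)]
      ring
    rw [h5, h6]
    apply Real.exp_le_exp.2
    exact mul_le_mul_of_nonneg_right hm2.le hlog0.le
  have hkey : (2 : ℝ) ^ m * (s + 2) ≤ k := by
    calc (2 : ℝ) ^ m * (s + 2) ≤ 2 * Real.exp (c * s * Real.log 2) * (s + 2) :=
          mul_le_mul_of_nonneg_right hpow (by positivity)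
      _ = (2 * ((s : ℝ) + 2)) * Real.exp (c * s * Real.log 2) := by ring
      _ ≤ Real.exp (a * s) * Real.exp (c * s * Real.log 2) :=
          mul_le_mul_of_nonneg_right hexp (Real.exp_pos _).le
      _ = Real.exp (c * s) := by
          rw [← Real.exp_add]
          congr 1
          rw [ha]
          ring
      _ ≤ k := hk
  have hkeyN : 2 ^ m * (s + 2) ≤ k := by exact_mod_cast hkey
  have hk1 : 2 ^ m * (s - m + 2) ≤ k + 1 := by
    calc 2 ^ m * (s - m + 2) ≤ 2 ^ m * (s + 2) := Nat.mul_le_mul_left _ (by omega)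
      _ ≤ k + 1 := by omega
  have hsk : s < k := by
    have h7 : 1 * (s + 2) ≤ 2 ^ m * (s + 2) := Nat.mul_le_mul_right _ Nat.one_le_two_pow
    omega
  have hmain := fval_upper r s m k hms hk1 hsk
  have hmain' : (fval r k s : ℝ) + m * ((r / 2 : ℕ) : ℝ) ≤ r * s := by exact_mod_cast hmain
  have hr3 : (r : ℝ) / 3 ≤ ((r / 2 : ℕ) : ℝ) := by
    have h8 : r ≤ 3 * (r / 2) := by omega
    have h9 : (r : ℝ) ≤ 3 * ((r / 2 : ℕ) : ℝ) := by exact_mod_cast h8
    linarith
  have h10 : c * s * ((r : ℝ) / 3) ≤ m * ((r / 2 : ℕ) : ℝ) :=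
    mul_le_mul hm1 hr3 (by positivity) (by positivity)
  have h11 : (1 - c / 3) * ((r : ℝ) * s) = r * s - c * s * (r / 3) := by ring
  rw [h11]
  linarith

end LocTr
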