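import Pool.Agent.Work.MP_a8cb64_co.FDefs
import Pool.Agent.Work.MP_a8cb64_co.LE1

/-!
MP_a8cb64_co, Theorem C, module F1 (helper94): random `r`-graphs with few low-bad edges.
-/

namespace LocTr

open Finset RandG

namespace RandG

theorem choose_le_exp (a r j : ℕ) (ha : 1 ≤ a) (hj : 256 * a ^ 2 * j ≤ r) :
    (r.choose j : ℝ) ≤ Real.exp (r / (8 * a)) := by
  have ha' : (1 : ℝ) ≤ a := by exact_mod_cast ha
  have hapos : (0 : ℝ) < a := by linarith
  set x : ℝ := 1 / (16 * a) with hx
  have hxpos : 0 < x := by positivity
  have hjr : j ≤ r := by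
    have h1 : 1 ≤ 256 * a ^ 2 := by
      have : 1 ≤ a ^ 2 := Nat.one_le_pow _ _ ha
      omega
    exact (Nat.le_mul_of_pos_left j h1).trans hj
  have h1 : (r.choose j : ℝ) * x ^ j ≤ (1 + x) ^ r := by
    rw [add_comm 1 x, add_pow]
    have h2 := Finset.single_le_sum (f := fun i : ℕ => x ^ i * 1 ^ (r - i) * (r.choose i : ℝ))
      (s := range (r + 1)) (fun i _ => by positivity) (mem_range.2 (Nat.lt_succ_of_le hjr))
    simp only [one_pow, mul_one] at h2 ⊢
    linarith
  have h3 : (1 + x) ^ r ≤ Real.exp (r / (16 * a)) := by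
    calc (1 + x) ^ r ≤ (Real.exp x) ^ r := by
          refine pow_le_pow_left₀ (by positivity) ?_ _
          have := Real.add_one_le_exp x
          linarith
      _ = Real.exp (r / (16 * a)) := by
          rw [← Real.exp_nat_mul, hx]
          congr 1
          ring
  have h4 : (16 * (a : ℝ)) ^ j ≤ Real.exp (r / (16 * a)) := by
    calc (16 * (a : ℝ)) ^ j ≤ (Real.exp (16 * a)) ^ j := by
          refine pow_le_pow_left₀ (by positivity) ?_ _
          have := Real.add_one_le_exp (16 * (a : ℝ))
          linarith
      _ = Real.exp (j * (16 * a)) := by rw [← Real.exp_nat_mul]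
      _ ≤ Real.exp (r / (16 * a)) := by
          refine Real.exp_le_exp.2 ?_
          rw [le_div_iff₀ (by positivity)]
          have h5 : (256 : ℝ) * a ^ 2 * j ≤ r := by exact_mod_cast hj
          nlinarith
  have h6 : x ^ j * (16 * (a : ℝ)) ^ j = 1 := by
    rw [← mul_pow, hx]
    have : 1 / (16 * (a : ℝ)) * (16 * a) = 1 := by field_simp
    rw [this, one_pow]
  calc (r.choose j : ℝ) = (r.choose j : ℝ) * x ^ j * (16 * (a : ℝ)) ^ j := by
        rw [mul_assoc, h6, mul_one]
    _ ≤ (1 + x) ^ r * (16 * (a : ℝ)) ^ j := mul_le_mul_of_nonneg_right h1 (by positivity)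
    _ ≤ Real.exp (r / (16 * a)) * Real.exp (r / (16 * a)) :=
        mul_le_mul h3 h4 (by positivity) (by positivity)
    _ = Real.exp (r / (8 * a)) := by
        rw [← Real.exp_add]
        congr 1
        field_simp
        ring

end RandG

theorem exists_low (a b : ℕ) (ha : 1 ≤ a) (hb : 1 ≤ b) : ∃ d g : ℕ, 1 ≤ d ∧ 1 ≤ g ∧
    ∀ k W m : ℕ, 4 ≤ W → m ≤ W → 2 ≤ m → (W - m) * g ≤ W → ∃ r0 : ℕ, ∀ r : ℕ, r0 ≤ r →
    ∃ H : Finset (Finset ℕ), (∀ e ∈ H, e ⊆ range (W * r) ∧ e.card = r) ∧
      (∀ Q : Finset ℕ, Q ⊆ range (W * r) → Q.card = m * r → ∃ e ∈ H, e ⊆ Q) ∧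
      (∀ J : Finset (Finset ℕ), J ⊆ H → J.card ≤ k →
        b * ((H \ J).filter
          (fun e => W * r ≤ a * (loPts d W (range (W * r)) J e).card)).card ≤ J.card) := by
  classical
  have ha' : (1 : ℝ) ≤ a := by exact_mod_cast ha
  have hapos : (0 : ℝ) < a := by linarith
  set d := 256 * a ^ 2 with hd
  set g := 36 * a * (b + 1) with hg
  have ha2 : 1 ≤ a ^ 2 := Nat.one_le_pow _ _ ha
  have hd1 : 256 ≤ d := by omega
  have hg1 : 36 ≤ g := by
    rw [hg]
    have : 1 ≤ a * (b + 1) := Nat.mul_pos ha (by omega)
    calc 36 = 36 * 1 := by norm_num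
      _ ≤ 36 * (a * (b + 1)) := Nat.mul_le_mul_left _ this
      _ = 36 * a * (b + 1) := by ring
  refine ⟨d, g, by omega, by omega, ?_⟩
  intro k W m hW4 hmW hm hWg
  have hW1 : 1 ≤ W := by omega
  have hW2 : W ≤ 2 * (m - 1) := by
    have : (W - m) * 36 ≤ W := (Nat.mul_le_mul_left _ hg1).trans hWg
    omega
  -- the choice of `r0`
  set K : ℝ := (k + 1) * ((3 * W : ℝ) ^ (b + 1) * 2 ^ 2 ^ k) with hK
  have hKpos : 0 < K := by
    have : (0 : ℝ) < W := by exact_mod_cast hW1
    positivity
  set ρ : ℝ := Real.exp (-(1 / (4 * a))) with hρ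
  have hρ0 : 0 < ρ := Real.exp_pos _
  have hlim : Filter.Tendsto (fun r : ℕ => (r : ℝ) ^ (b + 1) * ρ ^ r) Filter.atTop
      (nhds 0) := by
    refine tendsto_pow_const_mul_const_pow_of_abs_lt_one (b + 1) ?_
    rw [abs_of_pos hρ0, hρ]
    have : -(1 / (4 * (a : ℝ))) < 0 := by
      have : 0 < 1 / (4 * (a : ℝ)) := by positivity
      linarith
    calc Real.exp (-(1 / (4 * (a : ℝ)))) < Real.exp 0 := Real.exp_lt_exp.2 this
      _ = 1 := Real.exp_zero
  have hev : ∀ᶠ r : ℕ in Filter.atTop, (r : ℝ) ^ (b + 1) * ρ ^ r < 1 / (2 * K) :=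
    hlim.eventually (gt_mem_nhds (by positivity))
  obtain ⟨r1, hr1⟩ := Filter.eventually_atTop.1 hev
  refine ⟨r1 + 1, fun r hr => ?_⟩
  have hrpos : 1 ≤ r := by omega
  set n := W * r with hn
  set M := m * r with hM
  set t := r - r / d with ht
  have htr : t ≤ r := Nat.sub_le _ _
  have hn1 : 1 ≤ n := Nat.mul_pos hW1 hrpos
  have hrM : r ≤ M := Nat.le_mul_of_pos_left _ (by omega)
  have hMn : M ≤ n := Nat.mul_le_mul_right _ hmW
  have hrn : r ≤ n := hrM.trans hMn
  have hgpos : (0 : ℝ) < g := by
    have : (36 : ℝ) ≤ g := by exact_mod_cast hg1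
    linarith
  set D : ℝ := (1 + 2 / g) ^ r with hD
  have hD1 : 1 ≤ D := one_le_pow₀ (by
    have : 0 < 2 / (g : ℝ) := by positivity
    linarith)
  have hcov : (n.choose r : ℝ) ≤ D * M.choose r := by
    have h1 := mul_choose_le g (g + 2) n M r (fun i hi => by
      have e1 : n = (W - 1) * r + r := by
        rw [hn]
        obtain ⟨w, rfl⟩ : ∃ w, W = w + 1 := ⟨W - 1, by omega⟩
        simp
        ring
      have e2 : M = (m - 1) * r + r := by
        rw [hM]
        obtain ⟨w, rfl⟩ : ∃ w, m = w + 1 := ⟨m - 1, by omega⟩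
        simp
        ring
      have e3 : n - i = (W - 1) * r + (r - i) := by omega
      have e4 : M - i = (m - 1) * r + (r - i) := by omega
      rw [e3, e4, mul_add, mul_add]
      refine Nat.add_le_add ?_ (Nat.mul_le_mul_right _ (by omega))
      have h2 : g * (W - 1) ≤ (g + 2) * (m - 1) := by
        have h3 : W - 1 = (m - 1) + (W - m) := by omega
        rw [h3, mul_add, mul_comm g (W - m)]
        calc g * (m - 1) + (W - m) * g ≤ g * (m - 1) + W := Nat.add_le_add_left hWg _
          _ ≤ g * (m - 1) + 2 * (m - 1) := Nat.add_le_add_left hW2 _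
          _ = (g + 2) * (m - 1) := by ring
      calc g * ((W - 1) * r) = (g * (W - 1)) * r := by ring
        _ ≤ ((g + 2) * (m - 1)) * r := Nat.mul_le_mul_right _ h2
        _ = (g + 2) * ((m - 1) * r) := by ring)
    have h2 : (g : ℝ) ^ r * n.choose r ≤ ((g : ℝ) + 2) ^ r * M.choose r := by exact_mod_cast h1
    have h3 : D = ((g : ℝ) + 2) ^ r / (g : ℝ) ^ r := by
      rw [hD, ← div_pow]
      congr 1
      field_simp
    rw [h3, div_mul_eq_mul_div, le_div_iff₀ (by positivity)]
    linarith
  set L := ⌈2 * D * n⌉₊ with hL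
  have hLD : 2 * D * n ≤ L := Nat.le_ceil _
  have hn1' : (1 : ℝ) ≤ n := by exact_mod_cast hn1
  have hDn : 1 ≤ D * n := by nlinarith
  have hLle : (L : ℝ) ≤ 3 * D * n := by
    have := Nat.ceil_lt_add_one (show 0 ≤ 2 * D * n by positivity)
    rw [← hL] at this
    nlinarith
  set P : ℝ := 2 ^ 2 ^ k * Real.exp (-(r / (2 * a))) with hP
  have hP0 : 0 ≤ P := by positivity
  -- the counting bound
  have hjd : 256 * a ^ 2 * (r / d) ≤ r := by
    rw [← hd]
    exact Nat.mul_div_le r d
  have htR : (r : ℝ) * (255 / 256) ≤ t := by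
    have h1 : ((r / d : ℕ) : ℝ) ≤ r / 256 := by
      have h2 : 256 * (r / d) ≤ r :=
        (Nat.mul_le_mul_right _ hd1).trans (Nat.mul_div_le r d)
      have h3 : (256 : ℝ) * ((r / d : ℕ) : ℝ) ≤ r := by exact_mod_cast h2
      linarith
    have h4 : (t : ℝ) = r - ((r / d : ℕ) : ℝ) := by
      rw [ht, Nat.cast_sub (Nat.div_le_self r d)]
    rw [h4]
    linarith
  have hcount : ((a - 1 : ℕ) : ℝ) ^ t * (r.choose t : ℝ) ≤
      (a : ℝ) ^ t * Real.exp (-(r / (2 * a))) := by
    have h1 : (r.choose t : ℝ) ≤ Real.exp (r / (8 * a)) := by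
      rw [ht, Nat.choose_symm (Nat.div_le_self r d)]
      exact choose_le_exp a r (r / d) ha hjd
    have h2 : ((a - 1 : ℕ) : ℝ) ≤ a * Real.exp (-(1 / a)) := by
      rw [Nat.cast_sub ha, Nat.cast_one]
      calc (a : ℝ) - 1 = a * (1 - 1 / a) := by field_simp
        _ ≤ a * Real.exp (-(1 / a)) :=
            mul_le_mul_of_nonneg_left (Real.one_sub_le_exp_neg _) hapos.le
    calc ((a - 1 : ℕ) : ℝ) ^ t * (r.choose t : ℝ)
        ≤ (a * Real.exp (-(1 / a))) ^ t * Real.exp (r / (8 * a)) := by
          refine mul_le_mul (pow_le_pow_left₀ (by positivity) h2 _) h1 (by positivity)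
            (by positivity)
      _ = (a : ℝ) ^ t * (Real.exp (-(t / a)) * Real.exp (r / (8 * a))) := by
          rw [mul_pow, ← Real.exp_nat_mul, mul_assoc]
          congr 3
          ring
      _ ≤ (a : ℝ) ^ t * Real.exp (-(r / (2 * a))) := by
          refine mul_le_mul_of_nonneg_left ?_ (by positivity)
          rw [← Real.exp_add]
          refine Real.exp_le_exp.2 ?_
          have h5 : (r : ℝ) * (255 / 256) / a ≤ t / a :=
            div_le_div_of_nonneg_right htR hapos.le
          have h6 : (r : ℝ) / (8 * a) = (r / a) * (1 / 8) := by field_simp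
          have h7 : (r : ℝ) / (2 * a) = (r / a) * (1 / 2) := by field_simp
          have h8 : (r : ℝ) * (255 / 256) / a = (r / a) * (255 / 256) := by ring
          have h9 : 0 ≤ (r : ℝ) / a := by positivity
          rw [h6, h7]
          rw [h8] at h5
          linarith
  obtain ⟨H, hHX, hH1, hH2⟩ := exists_random n M r b k L D P
    (fun J e => n ≤ a * (loPts d W (range n) J e).card) hn1 (by linarith)
    hLD hb hcov hMn hrM hP0
    (by
      intro J hJ hJk
      have h1 := bad_count (range n) J k r t hJk (Real.exp (-(r / (2 * a))) * n.choose r)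
        (by positivity)
        ((powersetCard r (range n)).filter fun e => n ≤ a * (loPts d W (range n) J e).card)
        (filter_subset _ _) (fun T => a * T.card ≤ (a - 1) * n)
        (by
          intro e he
          rw [mem_filter, mem_powersetCard] at he
          obtain ⟨⟨heU, hec⟩, hbad⟩ := he
          set T := loPts d W (range n) J e with hT
          have hTU : T ⊆ range n := filter_subset _ _
          have hTm : ∀ x, x ∈ T ↔ x ∈ range n ∧
              d * W * (e ∩ atomJ (range n) J x).card < (atomJ (range n) J x).card := by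
            intro x
            rw [hT, loPts, mem_filter]
          have hTat : ∀ x ∈ T, atomJ (range n) J x ⊆ T := by
            intro x hx y hy
            rw [hTm] at hx ⊢
            rw [atomJ_eq hy]
            exact ⟨(mem_atomJ.1 hy).1, hx.2⟩
          have hTat' : ∀ x ∈ range n \ T, atomJ (range n) J x ⊆ range n \ T := by
            intro x hx y hy
            rw [mem_sdiff] at hx ⊢
            refine ⟨(mem_atomJ.1 hy).1, fun hyT => hx.2 ?_⟩
            rw [hTm] at hyT ⊢
            rw [atomJ_eq hy] at hyT
            exact ⟨hx.1, hyT.2⟩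
          have hTc : T.card ≤ n := by
            have := card_le_card hTU
            rwa [card_range] at this
          have hcs : (range n \ T).card = n - T.card := by
            rw [card_sdiff_of_subset hTU, card_range]
          have hsmall : d * (e ∩ T).card ≤ r := by
            have h4 := union_sum (range n) e (range n) T J (d * W) 1 hTU hTat (by
              intro x hx
              rw [hTm] at hx
              have h5 : range n ∩ atomJ (range n) J x = atomJ (range n) J x := by
                rw [inter_eq_right]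
                intro y hy
                exact (mem_atomJ.1 hy).1
              rw [h5, one_mul]
              exact hx.2.le)
            rw [inter_eq_right.2 hTU, one_mul] at h4
            have h5 : W * (d * (e ∩ T).card) ≤ W * r := by
              calc W * (d * (e ∩ T).card) = d * W * (e ∩ T).card := by ring
                _ ≤ T.card := h4
                _ ≤ W * r := hTc
            exact Nat.le_of_mul_le_mul_left h5 (by omega)
          refine ⟨range n \ T, sdiff_subset, hTat', ?_, ?_⟩
          · rw [hcs]
            have h6 : a * (n - T.card) = a * n - a * T.card := Nat.mul_sub a n T.card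
            have h7 : (a - 1) * n = a * n - n := by
              rw [Nat.sub_mul, one_mul]
            rw [h6, h7]
            omega
          · have h8 : (e ∩ T).card ≤ r / d := by
              rw [Nat.le_div_iff_mul_le (by omega)]
              calc (e ∩ T).card * d = d * (e ∩ T).card := by ring
                _ ≤ r := hsmall
            have h9 : e ∩ (range n \ T) = e \ (e ∩ T) := by
              ext x
              simp only [mem_inter, mem_sdiff]
              constructor
              · rintro ⟨h10, -, h11⟩
                exact ⟨h10, fun h => h11 h.2⟩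
              · rintro ⟨h10, h11⟩
                exact ⟨h10, heU h10, fun h => h11 ⟨h10, h⟩⟩
            rw [h9, card_sdiff_of_subset inter_subset_left, hec, ht]
            omega)
        (by
          intro T hTU hTc
          have h2 := count_big_mul (range n) T r t a (a - 1) hTU htr (by
            intro i _
            rw [card_range, Nat.mul_sub, Nat.mul_sub]
            have h3 : (a - 1) * i ≤ a * i := Nat.mul_le_mul_right _ (by omega)
            omega)
          rw [card_range] at h2
          have h4 : (a : ℝ) ^ t * (((powersetCard r (range n)).filter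
              fun e => t ≤ (e ∩ T).card).card : ℝ) ≤
              ((a - 1 : ℕ) : ℝ) ^ t * (r.choose t : ℝ) * n.choose r := by exact_mod_cast h2
          have h5 : (a : ℝ) ^ t * (((powersetCard r (range n)).filter
              fun e => t ≤ (e ∩ T).card).card : ℝ) ≤
              (a : ℝ) ^ t * (Real.exp (-(r / (2 * a))) * n.choose r) := by
            refine h4.trans ?_
            rw [← mul_assoc]
            exact mul_le_mul_of_nonneg_right hcount (by positivity)
          exact le_of_mul_le_mul_left h5 (by positivity))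
      refine h1.trans (le_of_eq ?_)
      rw [hP]
      ring)
    (by
      intro e he hbad
      rw [mem_powersetCard] at he
      have h1 : loPts d W (range n) ∅ e = ∅ := by
        rw [loPts, filter_eq_empty_iff]
        intro x hx
        have h2 : atomJ (range n) ∅ x = range n := by
          ext y
          rw [mem_atomJ]
          simp
        rw [h2, card_range, inter_eq_left.2 he.1, he.2, not_lt, mul_assoc, ← hn]
        exact Nat.le_mul_of_pos_left _ (by omega)
      rw [h1, card_empty, mul_zero] at hbad
      omega)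
    (by
      have hLe : (L : ℝ) ^ (b + 1) ≤
          (3 * W : ℝ) ^ (b + 1) * (r : ℝ) ^ (b + 1) * Real.exp (r / (18 * a)) := by
        have h1 : D ≤ Real.exp (2 * r / g) := by
          rw [hD]
          calc (1 + 2 / (g : ℝ)) ^ r ≤ (Real.exp (2 / g)) ^ r := by
                refine pow_le_pow_left₀ (by positivity) ?_ _
                have := Real.add_one_le_exp (2 / (g : ℝ))
                linarith
            _ = Real.exp (2 * r / g) := by
                rw [← Real.exp_nat_mul]
                congr 1
                ring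
        calc (L : ℝ) ^ (b + 1) ≤ (3 * D * n) ^ (b + 1) :=
              pow_le_pow_left₀ (by positivity) hLle _
          _ ≤ (3 * Real.exp (2 * r / g) * n) ^ (b + 1) := by
              refine pow_le_pow_left₀ (by positivity) ?_ _
              have : 0 ≤ (n : ℝ) := by positivity
              nlinarith
          _ = (3 * W : ℝ) ^ (b + 1) * (r : ℝ) ^ (b + 1) * (Real.exp (2 * r / g)) ^ (b + 1) := by
              rw [hn]
              push_cast
              rw [← mul_pow, ← mul_pow]
              congr 1
              ring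
          _ = _ := by
              rw [← Real.exp_nat_mul]
              congr 2
              rw [hg]
              push_cast
              field_simp
              norm_num
      have h4 := hr1 r (by omega)
      have h5 : Real.exp (r / (18 * a)) * Real.exp (-(r / (2 * a))) ≤ ρ ^ r := by
        rw [← Real.exp_add, hρ, ← Real.exp_nat_mul]
        refine Real.exp_le_exp.2 ?_
        have h6 : (r : ℝ) / (18 * a) = (r / a) * (1 / 18) := by field_simp
        have h7 : (r : ℝ) / (2 * a) = (r / a) * (1 / 2) := by field_simp
        have h8 : (r : ℝ) * -(1 / (4 * a)) = -((r / a) * (1 / 4)) := by field_simp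
        have h9 : 0 ≤ (r : ℝ) / a := by positivity
        rw [h6, h7, h8]
        linarith
      rw [hP]
      calc ((k : ℝ) + 1) * ((L : ℝ) ^ (b + 1) * (2 ^ 2 ^ k * Real.exp (-(r / (2 * a)))))
          ≤ ((k : ℝ) + 1) * (((3 * W : ℝ) ^ (b + 1) * (r : ℝ) ^ (b + 1) *
            Real.exp (r / (18 * a))) * (2 ^ 2 ^ k * Real.exp (-(r / (2 * a))))) := by
            refine mul_le_mul_of_nonneg_left ?_ (by positivity)
            exact mul_le_mul_of_nonneg_right hLe (by positivity)
        _ = K * (r : ℝ) ^ (b + 1) *
              (Real.exp (r / (18 * a)) * Real.exp (-(r / (2 * a)))) := by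
            rw [hK]
            ring
        _ ≤ K * (r : ℝ) ^ (b + 1) * ρ ^ r :=
            mul_le_mul_of_nonneg_left h5 (by positivity)
        _ = K * ((r : ℝ) ^ (b + 1) * ρ ^ r) := by ring
        _ ≤ K * (1 / (2 * K)) := mul_le_mul_of_nonneg_left h4.le hKpos.le
        _ = 1 / 2 := by field_simp)
  refine ⟨H, fun e he => mem_powersetCard.1 (hHX he), hH1, ?_⟩
  intro J hJ hJk
  exact hH2 J hJ hJk

end LocTr
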