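import Pool.Agent.Work.MP_a8cb64_co.LE4

/-!
MP_a8cb64_co, Theorem C, module F4 (helper72): the coupling of `s` particles, general form.
-/

namespace LocTr

open Finset

/-- the one-particle inequality. -/
lemma one_part_gen {t a b : ℝ} (h0 : 0 ≤ t) (h4 : t ≤ 1 / 4) (ha : 0 < a) (hb : 0 < b)
    (hab : 2 * t * (Real.sqrt a / Real.sqrt b) ≤ 1) :
    Real.exp (t * (Real.sqrt a / Real.sqrt b - 1)) * Real.sqrt b ≤
      Real.sqrt (t * a + (1 - t) * b) := by
  set y := Real.sqrt a / Real.sqrt b - 1 with hy
  have hsb : 0 < Real.sqrt b := Real.sqrt_pos.2 hb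
  have hsa : 0 < Real.sqrt a := Real.sqrt_pos.2 ha
  have hy1 : -1 < y := by
    have : 0 < Real.sqrt a / Real.sqrt b := by positivity
    linarith
  have hy2 : 2 * t * y ≤ 1 := by
    rw [hy]
    nlinarith
  have hay : a = b * (1 + y) ^ 2 := by
    have e1 : 1 + y = Real.sqrt a / Real.sqrt b := by rw [hy]; ring
    rw [e1, div_pow, Real.sq_sqrt ha.le, Real.sq_sqrt hb.le]
    field_simp
  apply Real.le_sqrt_of_sq_le
  rw [mul_pow, Real.sq_sqrt hb.le, ← Real.exp_nat_mul]
  have hz : ((2 : ℕ) : ℝ) * (t * y) ≤ 1 := by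
    push_cast
    linarith
  have hz' : |((2 : ℕ) : ℝ) * (t * y)| ≤ 1 := by
    rw [abs_le]
    constructor
    · push_cast
      nlinarith
    · exact hz
  have hexp : Real.exp (((2 : ℕ) : ℝ) * (t * y)) ≤
      1 + ((2 : ℕ) : ℝ) * (t * y) + (((2 : ℕ) : ℝ) * (t * y)) ^ 2 := by
    have := Real.abs_exp_sub_one_sub_id_le hz'
    have h2 := (abs_le.1 this).2
    linarith
  calc Real.exp (((2 : ℕ) : ℝ) * (t * y)) * b
      ≤ (1 + ((2 : ℕ) : ℝ) * (t * y) + (((2 : ℕ) : ℝ) * (t * y)) ^ 2) * b := by gcongr
    _ ≤ (1 + 2 * (t * y) + t * y ^ 2) * b := by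
        apply mul_le_mul_of_nonneg_right _ hb.le
        push_cast
        have : t * t * y ^ 2 ≤ 1 / 4 * t * y ^ 2 := by
          have h5 : t * t ≤ 1 / 4 * t := by nlinarith
          exact mul_le_mul_of_nonneg_right h5 (sq_nonneg _)
        nlinarith
    _ = t * a + (1 - t) * b := by
        rw [hay]; ring

/-- one step of the coupled process. -/
lemma step_coup_gen {s : ℕ} {τ : ℕ → Finset ℕ → ℝ} {B θ : ℝ} (hB4 : B ≤ 1 / 4)
    (h0 : ∀ i A, 0 ≤ τ i A) (h1 : ∀ i A, τ i A ≤ B) (hθ : 0 < θ) (hθB : 2 * B * Real.exp (θ * B / 2) ≤ 1) {k l : ℕ}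
    (hl : l < k) (S : Fin s → Finset ℕ) (hPsi : Psi τ θ k l S < 1) :
    ∃ T : Finset (Fin s), T.Nonempty ∧ (∀ j ∈ T, 0 < τ l (S j)) ∧
      Psi τ θ k (l + 1) (fun j => if j ∈ T then insert l (S j) else S j) < 1 := by
  -- notation
  set t : Fin s → ℝ := fun j => τ l (S j) with ht
  have ht0 : ∀ j, 0 ≤ t j := fun j => h0 _ _
  have ht4 : ∀ j, t j ≤ 1 / 4 := fun j => (h1 _ _).trans hB4
  -- the terms of the potential
  have hterm_nonneg : ∀ i, 0 ≤ Real.exp (θ / 2) * ∏ j, Real.sqrt (phi τ θ i (i - l) (S j)) := by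
    intro i
    apply mul_nonneg (Real.exp_pos _).le
    exact Finset.prod_nonneg fun j _ => Real.sqrt_nonneg _
  have hPsi_eq : Psi τ θ k l S =
      Real.exp (θ / 2) * ∏ j, Real.sqrt (phi τ θ l (l - l) (S j)) +
      ∑ i ∈ Finset.Ico (l + 1) k, Real.exp (θ / 2) *
        ∏ j, Real.sqrt (phi τ θ i (i - l) (S j)) := by
    unfold Psi
    rw [Finset.sum_eq_sum_Ico_succ_bot hl]
  have hrest_nonneg : 0 ≤ ∑ i ∈ Finset.Ico (l + 1) k, Real.exp (θ / 2) *
        ∏ j, Real.sqrt (phi τ θ i (i - l) (S j)) := Finset.sum_nonneg fun i _ => hterm_nonneg i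
  -- Λ > 1
  have hΛ : 1 ≤ ∑ j, t j := by
    by_contra hcon
    push Not at hcon
    have h2 : Real.exp (θ / 2) * ∏ j, Real.sqrt (phi τ θ l (l - l) (S j)) < 1 := by linarith
    have h3 : ∏ j, Real.sqrt (phi τ θ l (l - l) (S j)) = Real.exp (-(θ / 2) * ∑ j, t j) := by
      rw [mul_sum, Real.exp_sum]
      apply Finset.prod_congr rfl
      intro j _
      rw [Nat.sub_self, phi, ← Real.exp_half]
      congr 1
      simp only [ht]
      ring
    rw [h3, ← Real.exp_add] at h2
    have h4 : θ / 2 + -(θ / 2) * ∑ j, t j < 0 := by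
      by_contra h5
      push Not at h5
      have := Real.one_le_exp h5
      linarith
    nlinarith
  set Λ := ∑ j, t j with hΛd
  have hΛ0 : 0 < Λ := by linarith
  have hb := fun j => piw_bd hΛ (ht0 j) (ht4 j)
  -- weights
  set w : Fin s → Finset (Fin s) → ℝ := fun i T' =>
    (t i / Λ) * ((∏ j ∈ T', piw Λ (t j)) * ∏ j ∈ (univ.erase i) \ T', (1 - piw Λ (t j))) with hw
  have hw0 : ∀ i T', 0 ≤ w i T' := by
    intro i T'
    apply mul_nonneg (div_nonneg (ht0 i) hΛ0.le)
    apply mul_nonneg
    · exact Finset.prod_nonneg fun j _ => (hb j).1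
    · exact Finset.prod_nonneg fun j _ => by linarith [(hb j).2.1]
  -- expectation of a product functional
  have hexpect : ∀ α β : Fin s → ℝ, ∑ i, ∑ T' ∈ (univ.erase i).powerset,
      w i T' * ∏ j, (if j ∈ insert i T' then α j else β j) =
      ∑ i, (t i / Λ) * (α i * ∏ j ∈ univ.erase i,
        (piw Λ (t j) * α j + (1 - piw Λ (t j)) * β j)) := by
    intro α β
    apply Finset.sum_congr rfl
    intro i _
    rw [Finset.prod_add, mul_sum, mul_sum]
    apply Finset.sum_congr rfl
    intro T' hT'
    have hT'' : T' ⊆ univ.erase i := Finset.mem_powerset.1 hT'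
    have hiT' : i ∉ T' := fun h => (Finset.mem_erase.1 (hT'' h)).1 rfl
    have hsplit : ∏ j, (if j ∈ insert i T' then α j else β j) =
        α i * ((∏ j ∈ T', α j) * ∏ j ∈ (univ.erase i) \ T', β j) := by
      rw [← Finset.mul_prod_erase univ _ (Finset.mem_univ i), if_pos (Finset.mem_insert_self _ _)]
      congr 1
      rw [← Finset.prod_sdiff hT'', mul_comm]
      congr 1
      · apply Finset.prod_congr rfl
        intro j hj
        rw [if_pos (Finset.mem_insert_of_mem hj)]
      · apply Finset.prod_congr rfl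
        intro j hj
        rw [Finset.mem_sdiff, Finset.mem_erase] at hj
        rw [if_neg]
        rw [Finset.mem_insert]
        rintro (h | h)
        · exact hj.1.1 h
        · exact hj.2 h
    rw [hsplit, Finset.prod_mul_distrib, Finset.prod_mul_distrib]
    simp only [hw]
    ring
  -- total weight one
  have hw1 : ∑ i, ∑ T' ∈ (univ.erase i).powerset, w i T' = 1 := by
    have h2 := hexpect (fun _ => 1) (fun _ => 1)
    have h3 : ∀ i : Fin s, ∀ T' : Finset (Fin s),
        ∏ j, (if j ∈ insert i T' then (1 : ℝ) else 1) = 1 := by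
      intro i T'
      simp
    simp only [h3, mul_one] at h2
    rw [h2]
    have h4 : ∀ i : Fin s, ∏ j ∈ univ.erase i, (piw Λ (t j) + (1 - piw Λ (t j))) = 1 := by
      intro i
      apply Finset.prod_eq_one
      intro j _
      ring
    simp only [h4, mul_one]
    rw [← Finset.sum_div, ← hΛd, div_self hΛ0.ne']
  -- one target
  have htarget : ∀ i ∈ Finset.Ico (l + 1) k, ∑ i', ∑ T' ∈ (univ.erase i').powerset,
      w i' T' * (Real.exp (θ / 2) * ∏ j, Real.sqrt (phi τ θ i (i - (l + 1))
        (if j ∈ insert i' T' then insert l (S j) else S j))) ≤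
      Real.exp (θ / 2) * ∏ j, Real.sqrt (phi τ θ i (i - l) (S j)) := by
    intro i hi
    rw [Finset.mem_Ico] at hi
    set a : Fin s → ℝ := fun j => phi τ θ i (i - (l + 1)) (insert l (S j)) with ha
    set b : Fin s → ℝ := fun j => phi τ θ i (i - (l + 1)) (S j) with hbd
    have hlow : ∀ A n, Real.exp (-(θ * B)) ≤ phi τ θ i n A := fun A n =>
      (phi_bd hB4 h0 h1 hθ.le i n A).1
    have hup : ∀ A n, phi τ θ i n A ≤ 1 := fun A n => (phi_bd hB4 h0 h1 hθ.le i n A).2
    have ha0 : ∀ j, 0 < a j := fun j => (Real.exp_pos _).trans_le (hlow _ _)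
    have hb0 : ∀ j, 0 < b j := fun j => (Real.exp_pos _).trans_le (hlow _ _)
    have hab : ∀ j, 2 * t j * (Real.sqrt (a j) / Real.sqrt (b j)) ≤ 1 := by
      intro j
      have h2 : Real.sqrt (a j) ≤ 1 := Real.sqrt_le_one.2 (hup _ _)
      have h3 : Real.exp (-(θ * B) / 2) ≤ Real.sqrt (b j) := by
        rw [Real.exp_half]
        exact Real.sqrt_le_sqrt (hlow _ _)
      have h4 : Real.sqrt (a j) / Real.sqrt (b j) ≤ Real.exp (θ * B / 2) := by
        rw [div_le_iff₀ (Real.sqrt_pos.2 (hb0 j))]
        calc Real.sqrt (a j) ≤ 1 := h2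
          _ = Real.exp (θ * B / 2) * Real.exp (-(θ * B) / 2) := by
            rw [← Real.exp_add, ← Real.exp_zero]
            congr 1
            ring
          _ ≤ _ := mul_le_mul_of_nonneg_left h3 (Real.exp_pos _).le
      have h5 : 0 ≤ Real.sqrt (a j) / Real.sqrt (b j) := by positivity
      have h6 : t j ≤ B := h1 _ _
      calc 2 * t j * (Real.sqrt (a j) / Real.sqrt (b j))
          ≤ 2 * B * (Real.sqrt (a j) / Real.sqrt (b j)) := by
            apply mul_le_mul_of_nonneg_right _ h5
            linarith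
        _ ≤ 2 * B * Real.exp (θ * B / 2) := by
            apply mul_le_mul_of_nonneg_left h4
            linarith [ht0 j]
        _ ≤ 1 := hθB
    have hphi : ∀ j, phi τ θ i (i - l) (S j) = t j * a j + (1 - t j) * b j := by
      intro j
      have e1 : i - l = (i - (l + 1)) + 1 := by omega
      rw [e1, phi]
      have e2 : i - (i - (l + 1) + 1) = l := by omega
      rw [e2]
    have hfun : ∀ (i' : Fin s) (T' : Finset (Fin s)), ∏ j, Real.sqrt (phi τ θ i (i - (l + 1))
        (if j ∈ insert i' T' then insert l (S j) else S j)) =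
        ∏ j, (if j ∈ insert i' T' then Real.sqrt (a j) else Real.sqrt (b j)) := by
      intro i' T'
      apply Finset.prod_congr rfl
      intro j _
      split_ifs <;> rfl
    have h5 : ∑ i', ∑ T' ∈ (univ.erase i').powerset,
        w i' T' * (Real.exp (θ / 2) * ∏ j, Real.sqrt (phi τ θ i (i - (l + 1))
          (if j ∈ insert i' T' then insert l (S j) else S j))) =
        Real.exp (θ / 2) * ∑ i', ∑ T' ∈ (univ.erase i').powerset,
          w i' T' * ∏ j, (if j ∈ insert i' T' then Real.sqrt (a j) else Real.sqrt (b j)) := by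
      simp_rw [hfun, mul_sum]
      apply Finset.sum_congr rfl
      intro i' _
      apply Finset.sum_congr rfl
      intro T' _
      ring
    rw [h5, hexpect (fun j => Real.sqrt (a j)) (fun j => Real.sqrt (b j))]
    apply mul_le_mul_of_nonneg_left _ (Real.exp_pos _).le
    have h6 := coup t (fun j => Real.sqrt (a j)) (fun j => Real.sqrt (b j)) ht0 ht4 hΛ
      (fun j => Real.sqrt_nonneg _) (fun j => Real.sqrt_pos.2 (hb0 j))
    refine h6.trans ?_
    rw [Real.exp_sum, ← Finset.prod_mul_distrib]
    apply Finset.prod_le_prod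
    · intro j _
      positivity
    · intro j _
      rw [hphi j]
      have h7 := one_part_gen (ht0 j) (ht4 j) (ha0 j) (hb0 j) (hab j)
      rw [mul_comm]
      exact h7
  -- average of the potential
  have havg : ∑ i', ∑ T' ∈ (univ.erase i').powerset, w i' T' *
      Psi τ θ k (l + 1) (fun j => if j ∈ insert i' T' then insert l (S j) else S j) < 1 := by
    have h2 : ∑ i', ∑ T' ∈ (univ.erase i').powerset, w i' T' *
        Psi τ θ k (l + 1) (fun j => if j ∈ insert i' T' then insert l (S j) else S j) =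
        ∑ i ∈ Finset.Ico (l + 1) k, ∑ i', ∑ T' ∈ (univ.erase i').powerset,
          w i' T' * (Real.exp (θ / 2) * ∏ j, Real.sqrt (phi τ θ i (i - (l + 1))
            (if j ∈ insert i' T' then insert l (S j) else S j))) := by
      unfold Psi
      simp_rw [mul_sum]
      rw [Finset.sum_comm]
      apply Finset.sum_congr rfl
      intro i' _
      rw [Finset.sum_comm]
    rw [h2]
    refine lt_of_le_of_lt (Finset.sum_le_sum htarget) ?_
    have h3 := hterm_nonneg l
    rw [hPsi_eq] at hPsi
    linarith
  -- choose a good outcome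
  by_contra hcon
  push Not at hcon
  have hge : ∀ i' : Fin s, ∀ T' ∈ (univ.erase i').powerset, w i' T' ≤ w i' T' *
      Psi τ θ k (l + 1) (fun j => if j ∈ insert i' T' then insert l (S j) else S j) := by
    intro i' T' hT'
    have hT'' : T' ⊆ univ.erase i' := Finset.mem_powerset.1 hT'
    rcases (hw0 i' T').eq_or_lt with h | h
    · rw [← h]; simp
    · have hpos : ∀ j ∈ insert i' T', 0 < τ l (S j) := by
        intro j hj
        rw [Finset.mem_insert] at hj
        rcases hj with hj | hj
        · subst hj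
          by_contra h5
          have h6 : t j = 0 := le_antisymm (not_lt.1 h5) (ht0 j)
          have : w j T' = 0 := by
            simp only [hw]
            rw [h6]
            simp
          linarith
        · by_contra h5
          have h6 : t j = 0 := le_antisymm (not_lt.1 h5) (ht0 j)
          have h7 : piw Λ (t j) = 0 := by
            rw [h6]; unfold piw; simp
          have : w i' T' = 0 := by
            simp only [hw]
            rw [Finset.prod_eq_zero hj h7]
            simp
          linarith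
      have h8 := hcon (insert i' T') ⟨i', Finset.mem_insert_self _ _⟩ hpos
      nlinarith
  have hfin : (1 : ℝ) ≤ ∑ i', ∑ T' ∈ (univ.erase i').powerset, w i' T' *
      Psi τ θ k (l + 1) (fun j => if j ∈ insert i' T' then insert l (S j) else S j) := by
    rw [← hw1]
    apply Finset.sum_le_sum
    intro i' _
    apply Finset.sum_le_sum
    intro T' hT'
    exact hge i' T' hT'
  linarith

/-- F4: general form of the coupling theorem. -/
theorem chain_gen (s k : ℕ) (τ : ℕ → Finset ℕ → ℝ) (B θ : ℝ) (hB4 : B ≤ 1 / 4)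
    (h0 : ∀ i A, 0 ≤ τ i A) (h1 : ∀ i A, τ i A ≤ B) (hθ : 0 < θ)
    (hθB : 2 * B * Real.exp (θ * B / 2) ≤ 1)
    (hstart : ∑ i ∈ range k, Real.exp (θ / 2) * (Real.sqrt (∑ A ∈ (range i).powerset,
      chP τ i A * Real.exp (-(θ * τ i A)))) ^ s < 1) :
    ∃ S : Fin s → Finset ℕ, (∀ i < k, ∃ j, i ∈ S j) ∧
      ∀ j, S j ⊆ range k ∧ ∀ i ∈ S j, 0 < τ i ((S j).filter (· < i)) := by
  have hstart : Psi τ θ k 0 (fun _ : Fin s => (∅ : Finset ℕ)) < 1 := by
    refine lt_of_le_of_lt (le_of_eq ?_) hstart
    unfold Psi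
    rw [Finset.range_eq_Ico]
    apply Finset.sum_congr rfl
    intro i _
    rw [Finset.prod_const, Finset.card_univ, Fintype.card_fin, Nat.sub_zero,
      ← sum_chP_phi τ θ i i le_rfl, Nat.sub_self]
    simp only [phi]
  -- induction
  have hind : ∀ l ≤ k, ∃ S : Fin s → Finset ℕ, Psi τ θ k l S < 1 ∧ (∀ i < l, ∃ j, i ∈ S j) ∧
      ∀ j, S j ⊆ range l ∧ ∀ i ∈ S j, 0 < τ i ((S j).filter (· < i)) := by
    intro l
    induction l with
    | zero =>
      intro _
      exact ⟨fun _ => ∅, hstart, fun i hi => absurd hi (Nat.not_lt_zero i),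
        fun j => ⟨by simp, by simp⟩⟩
    | succ l ih =>
      intro hl
      obtain ⟨S, hS1, hS2, hS3⟩ := ih (by omega)
      obtain ⟨T, hT1, hT2, hT3⟩ := step_coup_gen hB4 h0 h1 hθ hθB (by omega : l < k) S hS1
      refine ⟨fun j => if j ∈ T then insert l (S j) else S j, hT3, ?_, ?_⟩
      · intro i hi
        rcases Nat.lt_succ_iff_lt_or_eq.1 hi with h | h
        · obtain ⟨j, hj⟩ := hS2 i h
          refine ⟨j, ?_⟩
          dsimp only
          split_ifs
          · exact Finset.mem_insert_of_mem hj
          · exact hj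
        · obtain ⟨j, hj⟩ := hT1
          refine ⟨j, ?_⟩
          dsimp only
          rw [if_pos hj, h]
          exact Finset.mem_insert_self _ _
      · intro j
        have hSj := (hS3 j).1
        have hSj' : S j ⊆ range (l + 1) := by
          rw [Finset.range_add_one]
          exact hSj.trans (Finset.subset_insert _ _)
        dsimp only
        split_ifs with hj
        · constructor
          · apply Finset.insert_subset _ hSj'
            exact Finset.mem_range.2 (by omega)
          · intro i hi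
            rw [Finset.mem_insert] at hi
            rcases hi with hi | hi
            · subst hi
              have : (insert i (S j)).filter (· < i) = S j := by
                rw [Finset.filter_insert, if_neg (lt_irrefl i), filter_lt_of_subset hSj]
              rw [this]
              exact hT2 j hj
            · have hil : i < l := Finset.mem_range.1 (hSj hi)
              have : (insert l (S j)).filter (· < i) = (S j).filter (· < i) := by
                rw [Finset.filter_insert, if_neg (by omega)]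
              rw [this]
              exact (hS3 j).2 i hi
        · exact ⟨hSj', (hS3 j).2⟩
  obtain ⟨S, _, hS2, hS3⟩ := hind k le_rfl
  exact ⟨S, hS2, hS3⟩

end LocTr
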