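import Pool.Agent.Work.MP_a8cb64_co.FDefs

/-!
MP_a8cb64_co, Theorem C / phase diagram (helper72, note 2355): module G1 (helper23).
Greedy covering of `[M]^g` by boxes.
-/

namespace LocTr

open Finset

/-- cyclic interval of `w` cells that starts at `a`. -/
def cyc (M w : ℕ) [NeZero M] (a : Fin M) : Finset (Fin M) :=
  univ.filter fun z => (z - a).val < w

theorem card_val_lt (M w : ℕ) (hwM : w ≤ M) : (univ.filter fun z : Fin M => z.val < w).card = w := by
  have h : (univ.filter fun z : Fin M => z.val < w) =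
      univ.image (fun i : Fin w => (⟨i.val, i.isLt.trans_le hwM⟩ : Fin M)) := by
    ext z
    simp only [mem_filter, mem_univ, true_and, mem_image]
    constructor
    · intro hz
      exact ⟨⟨z.val, hz⟩, Fin.ext rfl⟩
    · rintro ⟨i, rfl⟩
      exact i.isLt
  rw [h, card_image_of_injective, card_univ, Fintype.card_fin]
  intro i j hij
  have := congrArg Fin.val hij
  exact Fin.ext this

theorem card_cyc (M w : ℕ) [NeZero M] (hwM : w ≤ M) (a : Fin M) : (cyc M w a).card = w := by
  refine Eq.trans ?_ (card_val_lt M w hwM)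
  rw [cyc]
  apply card_bij (fun z _ => z - a)
  · intro z hz
    simpa using hz
  · intro z _ z' _ h
    exact sub_left_injective h
  · intro y hy
    refine ⟨y + a, ?_, by simp⟩
    simpa using hy

theorem card_cyc' (M w : ℕ) [NeZero M] (hwM : w ≤ M) (y : Fin M) :
    (univ.filter fun a : Fin M => y ∈ cyc M w a).card = w := by
  refine Eq.trans ?_ (card_val_lt M w hwM)
  apply card_bij (fun a _ => y - a)
  · intro a ha
    simpa [cyc] using ha
  · intro a _ a' _ h
    exact sub_right_injective h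
  · intro z hz
    refine ⟨y - z, ?_, by simp⟩
    simpa [cyc] using hz

/-- the box with corner `a`. -/
def boxOf (g M w : ℕ) [NeZero M] (a : Fin g → Fin M) : Fin g → Finset (Fin M) :=
  fun i => cyc M w (a i)

/-- greedy step: some box contains the right proportion of any set of cells. -/
theorem box_step (g M w : ℕ) [NeZero M] (hwM : w ≤ M) (R : Finset (Fin g → Fin M)) :
    ∃ a : Fin g → Fin M, R.card * w ^ g ≤
      (R.filter fun y => ∀ i, y i ∈ cyc M w (a i)).card * M ^ g := by
  classical
  have hsum : ∑ a : Fin g → Fin M, (R.filter fun y => ∀ i, y i ∈ cyc M w (a i)).card =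
      R.card * w ^ g := by
    calc ∑ a : Fin g → Fin M, (R.filter fun y => ∀ i, y i ∈ cyc M w (a i)).card
        = ∑ a : Fin g → Fin M, ∑ y ∈ R, if ∀ i, y i ∈ cyc M w (a i) then 1 else 0 := by
          refine sum_congr rfl fun a _ => ?_
          rw [card_filter]
      _ = ∑ y ∈ R, ∑ a : Fin g → Fin M, if ∀ i, y i ∈ cyc M w (a i) then 1 else 0 := sum_comm
      _ = ∑ y ∈ R, w ^ g := by
          refine sum_congr rfl fun y _ => ?_
          rw [← card_filter]
          have h : (univ.filter fun a : Fin g → Fin M => ∀ i, y i ∈ cyc M w (a i)) =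
              Fintype.piFinset fun i => univ.filter fun b : Fin M => y i ∈ cyc M w b := by
            ext a
            simp [Fintype.mem_piFinset]
          rw [h, Fintype.card_piFinset]
          simp only [card_cyc' M w hwM, prod_const, card_univ, Fintype.card_fin]
      _ = R.card * w ^ g := by rw [sum_const, smul_eq_mul]
  by_contra hcon
  push Not at hcon
  have hpos : 0 < M ^ g := Nat.pow_pos (NeZero.pos M)
  have h1 : (∑ a : Fin g → Fin M, (R.filter fun y => ∀ i, y i ∈ cyc M w (a i)).card) * M ^ g <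
      (∑ _a : Fin g → Fin M, R.card * w ^ g) := by
    rw [sum_mul]
    exact sum_lt_sum_of_nonempty ⟨fun _ => 0, mem_univ _⟩ fun a _ => hcon a
  rw [hsum, sum_const, card_univ, Fintype.card_fun, Fintype.card_fin, Fintype.card_fin,
    smul_eq_mul, mul_comm] at h1
  exact lt_irrefl _ h1

/-- after `t` greedy steps. -/
theorem box_greedy (g M w : ℕ) [NeZero M] (hwM : w ≤ M) (t : ℕ) :
    ∃ A : Finset (Fin g → Fin M), A.card ≤ t ∧
      ((univ.filter fun y : Fin g → Fin M => ∀ a ∈ A, ¬ ∀ i, y i ∈ cyc M w (a i)).card : ℝ) ≤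
        (1 - ((w : ℝ) / M) ^ g) ^ t * (M : ℝ) ^ g := by
  classical
  have hM0 : (0 : ℝ) < M := by exact_mod_cast NeZero.pos M
  have hp1 : ((w : ℝ) / M) ^ g ≤ 1 := by
    apply pow_le_one₀ (by positivity)
    rw [div_le_one hM0]
    exact_mod_cast hwM
  induction t with
  | zero =>
    refine ⟨∅, by simp, ?_⟩
    rw [pow_zero, one_mul]
    have h1 : (univ.filter fun y : Fin g → Fin M =>
        ∀ a ∈ (∅ : Finset (Fin g → Fin M)), ¬ ∀ i, y i ∈ cyc M w (a i)).card ≤ M ^ g := by
      refine (card_filter_le _ _).trans ?_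
      rw [card_univ, Fintype.card_fun, Fintype.card_fin, Fintype.card_fin]
    exact_mod_cast h1
  | succ t ih =>
    obtain ⟨A, hA, hR⟩ := ih
    set R := univ.filter fun y : Fin g → Fin M => ∀ a ∈ A, ¬ ∀ i, y i ∈ cyc M w (a i) with hRdef
    obtain ⟨a, ha⟩ := box_step g M w hwM R
    refine ⟨insert a A, (card_insert_le _ _).trans (Nat.succ_le_succ hA), ?_⟩
    have hset : (univ.filter fun y : Fin g → Fin M =>
        ∀ b ∈ insert a A, ¬ ∀ i, y i ∈ cyc M w (b i)) =
        R.filter fun y => ¬ ∀ i, y i ∈ cyc M w (a i) := by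
      ext y
      rw [hRdef, mem_filter, mem_filter, mem_filter]
      constructor
      · rintro ⟨h1, h2⟩
        exact ⟨⟨h1, fun b hb => h2 b (mem_insert_of_mem hb)⟩, h2 a (mem_insert_self _ _)⟩
      · rintro ⟨⟨h1, h2⟩, h3⟩
        refine ⟨h1, fun b hb => ?_⟩
        rcases mem_insert.1 hb with rfl | hb'
        · exact h3
        · exact h2 b hb'
    rw [hset]
    have hsplit := card_filter_add_card_filter_not (s := R)
      (fun y => ∀ i, y i ∈ cyc M w (a i))
    have hsplit' : ((R.filter fun y => ∀ i, y i ∈ cyc M w (a i)).card : ℝ) +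
        ((R.filter fun y => ¬ ∀ i, y i ∈ cyc M w (a i)).card : ℝ) = R.card := by
      exact_mod_cast hsplit
    have ha' : (R.card : ℝ) * ((w : ℝ) / M) ^ g ≤
        ((R.filter fun y => ∀ i, y i ∈ cyc M w (a i)).card : ℝ) := by
      rw [div_pow, ← mul_div_assoc, div_le_iff₀ (by positivity)]
      exact_mod_cast ha
    calc ((R.filter fun y => ¬ ∀ i, y i ∈ cyc M w (a i)).card : ℝ)
        ≤ (1 - ((w : ℝ) / M) ^ g) * R.card := by linarith
      _ ≤ (1 - ((w : ℝ) / M) ^ g) * ((1 - ((w : ℝ) / M) ^ g) ^ t * (M : ℝ) ^ g) :=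
          mul_le_mul_of_nonneg_left hR (by linarith)
      _ = (1 - ((w : ℝ) / M) ^ g) ^ (t + 1) * (M : ℝ) ^ g := by rw [pow_succ]; ring

/-- G1 (file `LG1.lean`).  Greedy covering of `[M]^g` by boxes with sides of `w` cells. -/
theorem exists_boxes (g M w : ℕ) (hw : 1 ≤ w) (hwM : w ≤ M) :
    ∃ BB : Finset (Fin g → Finset (Fin M)), (∀ β ∈ BB, ∀ i, (β i).card = w) ∧
      (∀ y : Fin g → Fin M, ∃ β ∈ BB, ∀ i, y i ∈ β i) ∧
      (BB.card : ℝ) ≤ ((M : ℝ) / w) ^ g * (1 + g * Real.log M) + 1 := by
  classical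
  have hM1 : 1 ≤ M := hw.trans hwM
  have : NeZero M := ⟨by omega⟩
  have hM0 : (0 : ℝ) < M := by exact_mod_cast hM1
  have hw0 : (0 : ℝ) < w := by exact_mod_cast hw
  set p : ℝ := ((w : ℝ) / M) ^ g with hp
  have hp0 : 0 < p := by positivity
  have hp1 : p ≤ 1 := by
    apply pow_le_one₀ (by positivity)
    rw [div_le_one hM0]
    exact_mod_cast hwM
  set t : ℕ := ⌊g * Real.log M / p⌋₊ + 1 with ht
  obtain ⟨A, hA, hR⟩ := box_greedy g M w hwM t
  have hlog : 0 ≤ Real.log M := Real.log_nonneg (by exact_mod_cast hM1)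
  have htgt : g * Real.log M < p * t := by
    have h1 : g * Real.log M / p < t := by
      rw [ht]; push_cast; exact Nat.lt_floor_add_one _
    rw [div_lt_iff₀ hp0] at h1
    linarith
  have hlt : (1 - p) ^ t * (M : ℝ) ^ g < 1 := by
    have h1 : (1 - p) ^ t ≤ Real.exp (-(p * t)) := by
      calc (1 - p) ^ t ≤ (Real.exp (-p)) ^ t := by
            apply pow_le_pow_left₀ (by linarith)
            have := Real.add_one_le_exp (-p)
            linarith
        _ = Real.exp (-(p * t)) := by
            rw [← Real.exp_nat_mul]; congr 1; ring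
    have h2 : (M : ℝ) ^ g = Real.exp (g * Real.log M) := by
      rw [Real.exp_nat_mul, Real.exp_log hM0]
    rw [h2]
    calc (1 - p) ^ t * Real.exp (g * Real.log M)
        ≤ Real.exp (-(p * t)) * Real.exp (g * Real.log M) := by gcongr
      _ = Real.exp (g * Real.log M - p * t) := by rw [← Real.exp_add]; congr 1; ring
      _ < 1 := by
          rw [Real.exp_lt_one_iff]; linarith
  have hempty : (univ.filter fun y : Fin g → Fin M =>
      ∀ a ∈ A, ¬ ∀ i, y i ∈ cyc M w (a i)) = ∅ := by
    rw [← card_eq_zero]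
    have h3 := hR.trans_lt hlt
    have h4 : (univ.filter fun y : Fin g → Fin M =>
      ∀ a ∈ A, ¬ ∀ i, y i ∈ cyc M w (a i)).card < 1 := by exact_mod_cast h3
    omega
  refine ⟨A.image (boxOf g M w), ?_, ?_, ?_⟩
  · intro β hβ i
    obtain ⟨a, -, rfl⟩ := mem_image.1 hβ
    exact card_cyc M w hwM (a i)
  · intro y
    by_contra hcon
    push Not at hcon
    have hy : y ∈ (univ.filter fun y : Fin g → Fin M =>
        ∀ a ∈ A, ¬ ∀ i, y i ∈ cyc M w (a i)) := by
      rw [mem_filter]
      refine ⟨mem_univ _, fun a ha h => ?_⟩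
      obtain ⟨i, hi⟩ := hcon (boxOf g M w a) (mem_image_of_mem (boxOf g M w) ha)
      exact hi (h i)
    rw [hempty] at hy
    exact notMem_empty _ hy
  · have h5 : ((A.image (boxOf g M w)).card : ℝ) ≤ t := by
      have h5' : (A.image (boxOf g M w)).card ≤ t := card_image_le.trans hA
      exact_mod_cast h5'
    have h6 : (t : ℝ) ≤ g * Real.log M / p + 1 := by
      rw [ht]; push_cast
      have := Nat.floor_le (show 0 ≤ g * Real.log M / p by positivity)
      linarith
    have h7 : g * Real.log M / p = ((M : ℝ) / w) ^ g * (g * Real.log M) := by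
      rw [hp, div_pow, div_pow]
      field_simp
    have h8 : 0 ≤ ((M : ℝ) / w) ^ g := by positivity
    rw [mul_add, mul_one]
    rw [h7] at h6
    have h9 := h5.trans h6
    linarith

end LocTr
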