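import Pool.Agent.Work.MP_a8cb64_co.FDefs

/-!
MP_a8cb64_co, Theorem C / phase diagram (helper72, note 2355): module G2 (helper23).
Block recursion.
-/

namespace LocTr

open Finset

/-- a finite set of naturals is cut into `M` groups of at most `⌈|e|/M⌉` points. -/
theorem exists_groups (M : ℕ) (hM : 1 ≤ M) (e : Finset ℕ) :
    ∃ c : ℕ → Fin M, ∀ a, (e.filter fun x => c x = a).card ≤ (e.card + M - 1) / M := by
  refine ⟨fun x => ⟨(e.filter (· < x)).card % M, Nat.mod_lt _ hM⟩, fun a => ?_⟩
  have hrank : ∀ x ∈ e, (e.filter (· < x)).card < e.card := by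
    intro x hx
    apply card_lt_card
    refine ⟨filter_subset _ _, fun h => ?_⟩
    have := (mem_filter.1 (h hx)).2
    exact lt_irrefl _ this
  have hmono : ∀ x ∈ e, ∀ y, x < y → (e.filter (· < x)).card < (e.filter (· < y)).card := by
    intro x hx y hxy
    apply card_lt_card
    refine ⟨fun z hz => ?_, fun h => ?_⟩
    · rw [mem_filter] at hz ⊢
      exact ⟨hz.1, hz.2.trans hxy⟩
    · have := (mem_filter.1 (h (mem_filter.2 ⟨hx, hxy⟩))).2
      exact lt_irrefl _ this
  rw [← card_range ((e.card + M - 1) / M)]
  apply card_le_card_of_injOn (fun x => (e.filter (· < x)).card / M)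
  · intro x hx
    have hx' := mem_filter.1 hx
    have h1 := hrank x hx'.1
    rw [coe_range, Set.mem_Iio]
    have h2 : (e.card + M - 1) / M = (e.card - 1) / M + 1 := by
      rw [show e.card + M - 1 = e.card - 1 + M by omega, Nat.add_div_right _ hM]
    rw [h2]
    exact Nat.lt_succ_of_le (Nat.div_le_div_right (by omega))
  · intro x hx y hy hxy
    have hx' := mem_filter.1 hx
    have hy' := mem_filter.1 hy
    have h3 : (e.filter (· < x)).card % M = (e.filter (· < y)).card % M := by
      have h4 := congrArg Fin.val hx'.2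
      have h5 := congrArg Fin.val hy'.2
      simp only at h4 h5
      rw [h4, h5]
    have h6 : (e.filter (· < x)).card = (e.filter (· < y)).card := by
      rw [← Nat.div_add_mod (e.filter (· < x)).card M, ← Nat.div_add_mod (e.filter (· < y)).card M,
        h3]
      simp only at hxy
      rw [hxy]
    rcases lt_trichotomy x y with h | h | h
    · have := hmono x hx'.1 y h
      omega
    · exact h
    · have := hmono y hy'.1 x h
      omega

/-- either few points meet all edges or there are `g` pairwise disjoint edges. -/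
theorem disjoint_edges (g r : ℕ) (H : Finset (Finset ℕ)) (hr : ∀ e ∈ H, e.card = r)
    (hne : ∀ e ∈ H, e.Nonempty) :
    (∃ T : Finset ℕ, T.card ≤ g * r ∧ IsTrans H T) ∨
      ∃ E : Fin g → Finset ℕ, (∀ i, E i ∈ H) ∧ ∀ i j, i ≠ j → Disjoint (E i) (E j) := by
  classical
  set S := H.powerset.filter fun D => ∀ a ∈ D, ∀ b ∈ D, a ≠ b → Disjoint a b with hS
  have hSne : S.Nonempty := ⟨∅, by simp [hS]⟩
  obtain ⟨D, hD, hmax⟩ := exists_max_image S card hSne
  rw [hS, mem_filter, mem_powerset] at hD
  rcases lt_or_ge D.card g with hlt | hge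
  · left
    refine ⟨D.biUnion id, ?_, ?_⟩
    · calc (D.biUnion id).card ≤ D.card * r := card_biUnion_le_card_mul _ _ _
            (fun e he => (hr e (hD.1 he)).le)
        _ ≤ g * r := Nat.mul_le_mul_right _ hlt.le
    · intro e he
      by_contra hcon
      rw [not_nonempty_iff_eq_empty] at hcon
      have hdis : ∀ a ∈ D, Disjoint e a := by
        intro a ha
        rw [disjoint_left]
        intro x hx hxa
        have : x ∈ e ∩ D.biUnion id := mem_inter.2 ⟨hx, mem_biUnion.2 ⟨a, ha, hxa⟩⟩
        rw [hcon] at this
        exact notMem_empty _ this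
      have heD : e ∉ D := by
        intro h
        have h1 := hdis e h
        rw [disjoint_self_iff_empty] at h1
        exact (hne e he).ne_empty h1
      have hin : insert e D ∈ S := by
        rw [hS, mem_filter, mem_powerset]
        refine ⟨insert_subset he hD.1, ?_⟩
        intro a ha b hb hab
        rcases mem_insert.1 ha with ha' | ha' <;> rcases mem_insert.1 hb with hb' | hb'
        · exact absurd (ha'.trans hb'.symm) hab
        · rw [ha']; exact hdis b hb'
        · rw [hb']; exact (hdis a ha').symm
        · exact hD.2 a ha' b hb' hab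
      have h2 := hmax _ hin
      rw [card_insert_of_notMem heD] at h2
      omega
  · right
    obtain ⟨D', hD', hcard⟩ := exists_subset_card_eq hge
    let φ := (D'.equivFinOfCardEq hcard).symm
    refine ⟨fun i => (φ i : Finset ℕ), fun i => hD.1 (hD' (φ i).2), fun i j hij => ?_⟩
    apply hD.2 _ (hD' (φ i).2) _ (hD' (φ j).2)
    intro h
    exact hij (φ.injective (Subtype.ext h))

/-- G2 (file `LG2.lean`).  Block recursion (note, proof of (3)).  `(r + M - 1) / M = ⌈r/M⌉`. -/
theorem block_rec (g M w N : ℕ) (hM : 1 ≤ M) (BB : Finset (Fin g → Finset (Fin M)))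
    (hBw : ∀ β ∈ BB, ∀ i, (β i).card = w) (hcov : ∀ y : Fin g → Fin M, ∃ β ∈ BB, ∀ i, y i ∈ β i)
    (hN : BB.card ≤ N) (r k k' s f : ℕ) (hgs : g ≤ s) (hk : g + N * k' ≤ k)
    (hrec : ∀ H : Finset (Finset ℕ), (∀ e ∈ H, e.card = r) → LocProp k' (s - g) H →
      ∃ T : Finset ℕ, T.card ≤ f ∧ IsTrans H T) (H : Finset (Finset ℕ))
    (hr : ∀ e ∈ H, e.card = r) (hH : LocProp k s H) :
    ∃ T : Finset ℕ, T.card ≤ max (g * r) (g * w * ((r + M - 1) / M) + f) ∧ IsTrans H T := by
  classical
  rcases Nat.eq_zero_or_pos g with hg0 | hg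
  · -- no block: monotonicity
    subst hg0
    have hBne : BB.Nonempty := by
      obtain ⟨β, hβ, -⟩ := hcov (fun i => i.elim0)
      exact ⟨β, hβ⟩
    have hN1 : 1 ≤ N := hBne.card_pos.trans_le hN
    have hkk : k' ≤ k := by
      calc k' = 1 * k' := (one_mul _).symm
        _ ≤ N * k' := Nat.mul_le_mul_right _ hN1
        _ ≤ k := by omega
    have hH' : LocProp k' (s - 0) H := fun F hF hFk => hH F hF (hFk.trans hkk)
    obtain ⟨T, hT, hTr⟩ := hrec H hr hH'
    refine ⟨T, ?_, hTr⟩
    rw [Nat.zero_mul, Nat.zero_mul, Nat.zero_mul, Nat.zero_add]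
    exact hT.trans (le_max_right _ _)
  · have hk1 : 1 ≤ k := by omega
    have hne : ∀ e ∈ H, e.Nonempty := by
      intro e he
      obtain ⟨T, -, hTr⟩ := hH {e} (singleton_subset_iff.2 he) (by simpa using hk1)
      obtain ⟨x, hx⟩ := hTr e (mem_singleton_self e)
      exact ⟨x, (mem_inter.1 hx).1⟩
    rcases disjoint_edges g r H hr hne with ⟨T, hT, hTr⟩ | ⟨E, hEH, hEd⟩
    · exact ⟨T, hT.trans (le_max_left _ _), hTr⟩
    · have hgr : ∀ i : Fin g, ∃ c : ℕ → Fin M, ∀ a,
          ((E i).filter fun x => c x = a).card ≤ (r + M - 1) / M := by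
        intro i
        have := exists_groups M hM (E i)
        rwa [hr _ (hEH i)] at this
      choose c hc using hgr
      set P : (Fin g → Finset (Fin M)) → Finset ℕ := fun β =>
        univ.biUnion fun i : Fin g => (E i).filter fun x => c i x ∈ β i with hP
      have hPcard : ∀ β ∈ BB, (P β).card ≤ g * w * ((r + M - 1) / M) := by
        intro β hβ
        have h1 : ∀ i : Fin g, ((E i).filter fun x => c i x ∈ β i).card ≤
            w * ((r + M - 1) / M) := by
          intro i
          have h2 : ((E i).filter fun x => c i x ∈ β i) ⊆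
              (β i).biUnion fun a => (E i).filter fun x => c i x = a := by
            intro x hx
            rw [mem_filter] at hx
            exact mem_biUnion.2 ⟨c i x, hx.2, mem_filter.2 ⟨hx.1, rfl⟩⟩
          calc ((E i).filter fun x => c i x ∈ β i).card ≤ _ := card_le_card h2
            _ ≤ (β i).card * ((r + M - 1) / M) :=
                card_biUnion_le_card_mul _ _ _ (fun a _ => hc i a)
            _ = w * ((r + M - 1) / M) := by rw [hBw β hβ i]
        calc (P β).card ≤ (univ : Finset (Fin g)).card * (w * ((r + M - 1) / M)) :=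
              card_biUnion_le_card_mul _ _ _ (fun i _ => h1 i)
          _ = g * w * ((r + M - 1) / M) := by rw [card_univ, Fintype.card_fin, mul_assoc]
      by_cases hex : ∃ β ∈ BB, LocProp k' (s - g) (H.filter fun e => Disjoint e (P β))
      · obtain ⟨β, hβ, hloc⟩ := hex
        obtain ⟨T, hT, hTr⟩ := hrec _ (fun e he => hr e (mem_filter.1 he).1) hloc
        refine ⟨P β ∪ T, ?_, ?_⟩
        · refine (card_union_le _ _).trans (le_trans ?_ (le_max_right _ _))
          exact Nat.add_le_add (hPcard β hβ) hT
        · intro e he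
          by_cases hd : Disjoint e (P β)
          · obtain ⟨x, hx⟩ := hTr e (mem_filter.2 ⟨he, hd⟩)
            exact ⟨x, mem_inter.2 ⟨(mem_inter.1 hx).1, mem_union_right _ (mem_inter.1 hx).2⟩⟩
          · rw [not_disjoint_iff] at hd
            obtain ⟨x, hx, hxP⟩ := hd
            exact ⟨x, mem_inter.2 ⟨hx, mem_union_left _ hxP⟩⟩
      · exfalso
        push Not at hex
        have hF : ∀ β ∈ BB, ∃ F : Finset (Finset ℕ), F ⊆ (H.filter fun e => Disjoint e (P β)) ∧
            F.card ≤ k' ∧ ∀ T : Finset ℕ, T.card ≤ s - g → ¬ IsTrans F T := by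
          intro β hβ
          have h1 := hex β hβ
          unfold LocProp at h1
          push Not at h1
          exact h1
        choose! FF hF1 hF2 hF3 using hF
        have hFsub : univ.image E ∪ BB.biUnion FF ⊆ H := by
          intro e he
          rcases mem_union.1 he with h | h
          · obtain ⟨i, -, rfl⟩ := mem_image.1 h
            exact hEH i
          · obtain ⟨β, hβ, heβ⟩ := mem_biUnion.1 h
            exact (mem_filter.1 (hF1 β hβ heβ)).1
        have hFcard : (univ.image E ∪ BB.biUnion FF).card ≤ k := by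
          have h1 : (univ.image E).card ≤ g := by
            refine card_image_le.trans ?_
            rw [card_univ, Fintype.card_fin]
          have h2 : (BB.biUnion FF).card ≤ N * k' :=
            (card_biUnion_le_card_mul _ _ _ (fun β hβ => hF2 β hβ)).trans
              (Nat.mul_le_mul_right _ hN)
          exact (card_union_le _ _).trans ((Nat.add_le_add h1 h2).trans hk)
        obtain ⟨T, hT, hTr⟩ := hH _ hFsub hFcard
        have hx : ∀ i : Fin g, ∃ x, x ∈ E i ∧ x ∈ T := by
          intro i
          obtain ⟨x, hx⟩ := hTr (E i) (mem_union_left _ (mem_image_of_mem _ (mem_univ i)))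
          exact ⟨x, (mem_inter.1 hx).1, (mem_inter.1 hx).2⟩
        choose x hxE hxT using hx
        have hxinj : Function.Injective x := by
          intro i j hij
          by_contra hne'
          have hd := hEd i j hne'
          rw [disjoint_left] at hd
          exact hd (hxE i) (hij ▸ hxE j)
        obtain ⟨β, hβ, hcell⟩ := hcov fun i => c i (x i)
        have hxP : ∀ i, x i ∈ P β := fun i =>
          mem_biUnion.2 ⟨i, mem_univ i, mem_filter.2 ⟨hxE i, hcell i⟩⟩
        have himg : univ.image x ⊆ T := by
          intro y hy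
          obtain ⟨i, -, rfl⟩ := mem_image.1 hy
          exact hxT i
        have hc1 : (univ.image x).card = g := by
          rw [card_image_of_injective _ hxinj, card_univ, Fintype.card_fin]
        refine hF3 β hβ (T \ univ.image x) ?_ ?_
        · rw [card_sdiff_of_subset himg, hc1]
          omega
        · intro e he
          obtain ⟨z, hz⟩ := hTr e (mem_union_right _ (mem_biUnion.2 ⟨β, hβ, he⟩))
          rw [mem_inter] at hz
          have hd := (mem_filter.1 (hF1 β hβ he)).2
          refine ⟨z, mem_inter.2 ⟨hz.1, mem_sdiff.2 ⟨hz.2, fun hzx => ?_⟩⟩⟩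
          obtain ⟨i, -, rfl⟩ := mem_image.1 hzx
          exact disjoint_left.1 hd hz.1 (hxP i)

end LocTr
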