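import Pool.Agent.Work.MP_a8cb64_co.LG1
import Pool.Agent.Work.MP_a8cb64_co.LG2
import Pool.Agent.Work.MP_a8cb64_co.LM4

/-!
MP_a8cb64_co, Theorem C / phase diagram (helper72, note 2355): module G3 (helper23).
-/

namespace LocTr

open Finset Filter Topology

/-- the block recursion, iterated. -/
theorem rec_iter (g M w : ℕ) (hM : 1 ≤ M) (BB : Finset (Fin g → Finset (Fin M)))
    (hBw : ∀ β ∈ BB, ∀ i, (β i).card = w) (hcov : ∀ y : Fin g → Fin M, ∃ β ∈ BB, ∀ i, y i ∈ β i)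
    (r : ℕ) : ∀ m s k : ℕ, m * g ≤ s → BB.card ^ m * (s + 1 + g) ≤ k →
    ∀ H : Finset (Finset ℕ), (∀ e ∈ H, e.card = r) → LocProp k s H →
      ∃ T : Finset ℕ, T.card ≤ m * (g * w * ((r + M - 1) / M)) +
        max (g * r) ((s - m * g) * r) ∧ IsTrans H T := by
  have hB1 : 1 ≤ BB.card := by
    obtain ⟨β, hβ, -⟩ := hcov (fun _ => ⟨0, hM⟩)
    exact card_pos.2 ⟨β, hβ⟩
  intro m
  induction m with
  | zero =>
    intro s k _ hk H hr hH
    rw [pow_zero, one_mul] at hk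
    obtain ⟨T, hT, hTr⟩ := fval_set_mem r k s (by omega) H hr hH
    refine ⟨T, ?_, hTr⟩
    rw [Nat.zero_mul, Nat.zero_mul, Nat.zero_add, Nat.sub_zero]
    exact (hT.trans (le_of_eq (mul_comm _ _))).trans (le_max_right _ _)
  | succ m ih =>
    intro s k hms hk H hr hH
    have hms' : m * g + g ≤ s := by rwa [Nat.succ_mul] at hms
    have hgs : g ≤ s := by omega
    have hk' : g + BB.card * (BB.card ^ m * (s - g + 1 + g)) ≤ k := by
      have h1 : s - g + 1 + g = s + 1 := by omega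
      rw [h1]
      have h2 : 1 ≤ BB.card ^ (m + 1) := Nat.one_le_pow _ _ hB1
      calc g + BB.card * (BB.card ^ m * (s + 1)) = g + BB.card ^ (m + 1) * (s + 1) := by
            rw [pow_succ]; ring
        _ ≤ BB.card ^ (m + 1) * g + BB.card ^ (m + 1) * (s + 1) := by
            have h3 : 1 * g ≤ BB.card ^ (m + 1) * g := Nat.mul_le_mul_right _ h2
            omega
        _ = BB.card ^ (m + 1) * (s + 1 + g) := by ring
        _ ≤ k := hk
    obtain ⟨T, hT, hTr⟩ := block_rec g M w BB.card hM BB hBw hcov le_rfl r k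
      (BB.card ^ m * (s - g + 1 + g)) s
      (m * (g * w * ((r + M - 1) / M)) + max (g * r) ((s - g - m * g) * r)) hgs hk'
      (fun H' hr' hH' => ih (s - g) _ (by omega) le_rfl H' hr' hH') H hr hH
    refine ⟨T, hT.trans (max_le ?_ ?_), hTr⟩
    · exact (le_max_left _ _).trans (Nat.le_add_left _ _)
    · have h4 : s - g - m * g = s - (m + 1) * g := by
        rw [Nat.succ_mul]; omega
      rw [h4, Nat.succ_mul m (g * w * ((r + M - 1) / M))]
      omega

/-- a small analytic fact. -/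
theorem ev_small (A B q δ : ℝ) (hq0 : 0 ≤ q) (hq1 : q < 1) (hδ : 0 < δ) :
    ∀ᶠ n : ℕ in atTop, (A + B * n) * q ^ n < δ := by
  have h1 : Tendsto (fun n : ℕ => q ^ n) atTop (𝓝 0) :=
    tendsto_pow_atTop_nhds_zero_of_lt_one hq0 hq1
  have h2 : Tendsto (fun n : ℕ => (n : ℝ) * q ^ n) atTop (𝓝 0) := by
    have := tendsto_pow_const_mul_const_pow_of_abs_lt_one 1 (r := q) (by rwa [abs_of_nonneg hq0])
    simpa using this
  have h3 : Tendsto (fun n : ℕ => (A + B * n) * q ^ n) atTop (𝓝 0) := by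
    have h4 := (h1.const_mul A).add (h2.const_mul B)
    simp only [mul_zero, add_zero] at h4
    refine h4.congr fun n => ?_
    ring
  exact h3.eventually_lt_const hδ

/-- choice of the box parameters. -/
theorem box_params (c ε : ℝ) (hc : 0 < c) (hε : 0 < ε)
    (hbox : ∀ g M w : ℕ, 1 ≤ w → w ≤ M →
      ∃ BB : Finset (Fin g → Finset (Fin M)), (∀ β ∈ BB, ∀ i, (β i).card = w) ∧
        (∀ y : Fin g → Fin M, ∃ β ∈ BB, ∀ i, y i ∈ β i) ∧
        (BB.card : ℝ) ≤ ((M : ℝ) / w) ^ g * (1 + g * Real.log M) + 1) :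
    ∃ (g M w : ℕ) (b : ℝ), 1 ≤ g ∧ 1 ≤ M ∧ (w : ℝ) ≤ (Real.exp (-c) + ε) * M ∧ 1 ≤ b ∧
      b < Real.exp c ∧ ∃ BB : Finset (Fin g → Finset (Fin M)), (∀ β ∈ BB, ∀ i, (β i).card = w) ∧
        (∀ y : Fin g → Fin M, ∃ β ∈ BB, ∀ i, y i ∈ β i) ∧ (BB.card : ℝ) ≤ b ^ g := by
  obtain ⟨M, hM⟩ := exists_nat_ge (1 / ε + 1)
  have hMr : (1 : ℝ) ≤ M := by
    have : 0 < 1 / ε := by positivity
    linarith
  have hM1 : 1 ≤ M := by exact_mod_cast hMr
  have hM0 : (0 : ℝ) < M := by linarith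
  have hεM : 1 ≤ ε * M := by
    have h1 : 1 / ε ≤ M := by linarith
    rw [div_le_iff₀ hε] at h1
    linarith
  have he0 : 0 < Real.exp (-c) := Real.exp_pos _
  have he1 : Real.exp (-c) < 1 := by
    rw [Real.exp_lt_one_iff]; linarith
  set w : ℕ := ⌊Real.exp (-c) * M⌋₊ + 1 with hw
  have hw1 : 1 ≤ w := by omega
  have hwgt : Real.exp (-c) * M < w := by
    rw [hw]; push_cast; exact Nat.lt_floor_add_one _
  have hwle : (w : ℝ) ≤ Real.exp (-c) * M + 1 := by
    rw [hw]; push_cast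
    have := Nat.floor_le (show 0 ≤ Real.exp (-c) * M by positivity)
    linarith
  have hwM : w ≤ M := by
    rw [hw, Nat.succ_le_iff, Nat.floor_lt (by positivity)]
    calc Real.exp (-c) * M < 1 * M := by gcongr
      _ = M := one_mul _
  have hw0 : (0 : ℝ) < w := by exact_mod_cast hw1
  set a : ℝ := (M : ℝ) / w with ha
  have ha1 : 1 ≤ a := by
    rw [ha, le_div_iff₀ hw0, one_mul]; exact_mod_cast hwM
  have hac : a < Real.exp c := by
    rw [ha, div_lt_iff₀ hw0]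
    have h1 : Real.exp c * (Real.exp (-c) * M) < Real.exp c * w :=
      mul_lt_mul_of_pos_left hwgt (Real.exp_pos _)
    rwa [← mul_assoc, ← Real.exp_add, add_neg_cancel, Real.exp_zero, one_mul] at h1
  obtain ⟨b, hab, hbc⟩ := exists_between hac
  have hb0 : 0 < b := by linarith
  have hev1 := ev_small 1 (Real.log M) (a / b) (1 / 2) (by positivity)
    (by rw [div_lt_one hb0]; exact hab) (by norm_num)
  have hev2 := ev_small 1 0 (1 / b) (1 / 2) (by positivity)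
    (by rw [div_lt_one hb0]; linarith) (by norm_num)
  obtain ⟨g, h1, h2, hg1⟩ := (hev1.and (hev2.and (eventually_ge_atTop 1))).exists
  obtain ⟨BB, hBw, hcov, hBc⟩ := hbox g M w hw1 hwM
  refine ⟨g, M, w, b, hg1, hM1, ?_, by linarith, hbc, BB, hBw, hcov, hBc.trans ?_⟩
  · calc (w : ℝ) ≤ Real.exp (-c) * M + 1 := hwle
      _ ≤ Real.exp (-c) * M + ε * M := by linarith
      _ = _ := by ring
  · have hbg : 0 < b ^ g := by positivity
    have h3 : a ^ g * (1 + g * Real.log M) ≤ b ^ g / 2 := by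
      have h4 : (1 + Real.log M * g) * (a / b) ^ g ≤ 1 / 2 := h1.le
      rw [div_pow, ← mul_div_assoc, div_le_iff₀ hbg] at h4
      linarith
    have h5 : 1 ≤ b ^ g / 2 := by
      have h6 : (1 + 0 * (g : ℝ)) * (1 / b) ^ g ≤ 1 / 2 := h2.le
      rw [zero_mul, add_zero, one_mul, one_div_pow, div_le_iff₀ hbg] at h6
      linarith
    linarith

/-- G3 from the covering by boxes. -/
theorem exp_upper_all_of
    (hbox : ∀ g M w : ℕ, 1 ≤ w → w ≤ M →
      ∃ BB : Finset (Fin g → Finset (Fin M)), (∀ β ∈ BB, ∀ i, (β i).card = w) ∧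
        (∀ y : Fin g → Fin M, ∃ β ∈ BB, ∀ i, y i ∈ β i) ∧
        (BB.card : ℝ) ≤ ((M : ℝ) / w) ^ g * (1 + g * Real.log M) + 1)
    (c ε : ℝ) (hc : 0 < c) (hε : 0 < ε) : ∃ s0 : ℕ, ∀ s : ℕ, s0 ≤ s →
    ∀ k : ℕ, Real.exp (c * s) ≤ k → ∃ r0 : ℕ, ∀ r : ℕ, r0 ≤ r →
      (fval r k s : ℝ) ≤ (Real.exp (-c) + ε) * (r * s) := by
  obtain ⟨g, M, w, b, hg1, hM1, hwM, hb1, hbc, BB, hBw, hcov, hBc⟩ :=
    box_params c (ε / 3) hc (by positivity) hbox
  have hb0 : 0 < b := by linarith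
  have hev := ev_small (1 + g) 1 (b / Real.exp c) 1 (by positivity)
    (by rw [div_lt_one (Real.exp_pos _)]; exact hbc) (by norm_num)
  obtain ⟨s1, hs1⟩ := eventually_atTop.1 hev
  refine ⟨max s1 (max 1 ⌈3 * g / ε⌉₊), fun s hs k hk => ⟨⌈3 * w / ε⌉₊, fun r hr => ?_⟩⟩
  have hss1 : s1 ≤ s := (le_max_left _ _).trans hs
  have hs1' : 1 ≤ s := ((le_max_left _ _).trans (le_max_right _ _)).trans hs
  have hsg : (g : ℝ) ≤ ε / 3 * s := by
    have h1 : 3 * (g : ℝ) / ε ≤ s := (Nat.le_ceil _).trans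
      (by exact_mod_cast ((le_max_right _ _).trans (le_max_right _ _)).trans hs)
    rw [div_le_iff₀ hε] at h1
    linarith
  have hrw : (w : ℝ) ≤ ε / 3 * r := by
    have h1 : 3 * (w : ℝ) / ε ≤ r := (Nat.le_ceil _).trans (by exact_mod_cast hr)
    rw [div_le_iff₀ hε] at h1
    linarith
  set m : ℕ := s / g with hm
  have hmg : m * g ≤ s := Nat.div_mul_le_self _ _
  have hmg2 : s - m * g ≤ g := by
    have h1 := Nat.div_add_mod s g
    have h2 := Nat.mod_lt s (show 0 < g by omega)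
    rw [← hm, mul_comm] at h1
    omega
  have hkey : BB.card ^ m * (s + 1 + g) ≤ k := by
    have h1 : (BB.card : ℝ) ^ m ≤ b ^ s := by
      calc (BB.card : ℝ) ^ m ≤ (b ^ g) ^ m := by gcongr
        _ = b ^ (m * g) := by rw [← pow_mul, mul_comm]
        _ ≤ b ^ s := pow_le_pow_right₀ hb1 hmg
    have h2 := (hs1 s hss1).le
    have h3 : (0 : ℝ) < Real.exp c ^ s := by positivity
    rw [div_pow, ← mul_div_assoc, div_le_iff₀ h3, one_mul] at h2
    have h4 : (BB.card : ℝ) ^ m * ((s : ℝ) + 1 + g) ≤ k := by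
      calc (BB.card : ℝ) ^ m * ((s : ℝ) + 1 + g) ≤ b ^ s * ((s : ℝ) + 1 + g) := by gcongr
        _ = (1 + g + s) * b ^ s := by ring
        _ ≤ 1 * Real.exp c ^ s := h2
        _ = Real.exp c ^ s := one_mul _
        _ = Real.exp (c * s) := by rw [mul_comm, Real.exp_nat_mul]
        _ ≤ k := hk
    exact_mod_cast h4
  have hfv : fval r k s ≤ m * (g * w * ((r + M - 1) / M)) + g * r := by
    unfold fval
    apply Nat.sInf_le
    intro H hrH hH
    obtain ⟨T, hT, hTr⟩ := rec_iter g M w hM1 BB hBw hcov r m s k hmg hkey H hrH hH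
    refine ⟨T, hT.trans ?_, hTr⟩
    have h5 : (s - m * g) * r ≤ g * r := Nat.mul_le_mul_right _ hmg2
    exact Nat.add_le_add_left (max_le le_rfl h5) _
  have hM0 : (0 : ℝ) < M := by exact_mod_cast hM1
  have hceil : (((r + M - 1) / M : ℕ) : ℝ) ≤ r / M + 1 := by
    calc (((r + M - 1) / M : ℕ) : ℝ) ≤ ((r + M - 1 : ℕ) : ℝ) / M := Nat.cast_div_le
      _ ≤ ((r : ℝ) + M) / M := by
          gcongr
          have : r + M - 1 ≤ r + M := Nat.sub_le _ _
          exact_mod_cast this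
      _ = r / M + 1 := by
          rw [add_div, div_self hM0.ne']
  have hfv' : (fval r k s : ℝ) ≤ m * (g * w * (r / M + 1)) + g * r := by
    calc (fval r k s : ℝ) ≤ ((m * (g * w * ((r + M - 1) / M)) + g * r : ℕ) : ℝ) := by
          exact_mod_cast hfv
      _ = m * (g * w * (((r + M - 1) / M : ℕ) : ℝ)) + g * r := by push_cast; ring
      _ ≤ _ := by gcongr
  have hmg' : (m : ℝ) * g ≤ s := by exact_mod_cast hmg
  have hwr : (w : ℝ) * (r / M) ≤ (Real.exp (-c) + ε / 3) * r := by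
    rw [← mul_div_assoc, div_le_iff₀ hM0]
    calc (w : ℝ) * r ≤ ((Real.exp (-c) + ε / 3) * M) * r := by gcongr
      _ = _ := by ring
  calc (fval r k s : ℝ) ≤ m * (g * w * (r / M + 1)) + g * r := hfv'
    _ = (m * g) * (w * (r / M) + w) + g * r := by ring
    _ ≤ s * ((Real.exp (-c) + ε / 3) * r + ε / 3 * r) + ε / 3 * s * r := by gcongr
    _ = (Real.exp (-c) + ε) * (r * s) := by ring

/-- G3 (file `LG3.lean`).  Part (3). -/
theorem exp_upper_all (c ε : ℝ) (hc : 0 < c) (hε : 0 < ε) : ∃ s0 : ℕ, ∀ s : ℕ, s0 ≤ s →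
    ∀ k : ℕ, Real.exp (c * s) ≤ k → ∃ r0 : ℕ, ∀ r : ℕ, r0 ≤ r →
      (fval r k s : ℝ) ≤ (Real.exp (-c) + ε) * (r * s) :=
  exp_upper_all_of (fun g M w hw hwM => exists_boxes g M w hw hwM) c ε hc hε

end LocTr
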