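import Pool.Agent.Work.MP_a8cb64_co.LG1

/-!
MP_a8cb64_co, Theorem E (helper91, note 2366): module H1 (helper23).
Greedy covering of `[M]^g`: some box catches at least `m` coordinates of `y`.
-/

namespace LocTr

open Finset

open Classical in
/-- greedy step for a relation in which every `y` has at least `D` neighbours. -/
theorem greedy_step {X Y : Type*} [Fintype X] [Nonempty X] [Fintype Y] (Rel : X → Y → Prop)
    (D : ℕ) (hD : ∀ y, D ≤ (univ.filter fun a => Rel a y).card) (R : Finset Y) :
    ∃ a, R.card * D ≤ (R.filter fun y => Rel a y).card * Fintype.card X := by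
  have hsum : R.card * D ≤ ∑ a : X, (R.filter fun y => Rel a y).card := by
    calc R.card * D = ∑ _y ∈ R, D := by rw [sum_const, smul_eq_mul]
      _ ≤ ∑ y ∈ R, (univ.filter fun a => Rel a y).card := sum_le_sum fun y _ => hD y
      _ = ∑ y ∈ R, ∑ a : X, if Rel a y then 1 else 0 := by
          refine sum_congr rfl fun y _ => ?_
          rw [card_filter]
      _ = ∑ a : X, ∑ y ∈ R, if Rel a y then 1 else 0 := sum_comm
      _ = ∑ a : X, (R.filter fun y => Rel a y).card := by
          refine sum_congr rfl fun a _ => ?_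
          rw [card_filter]
  by_contra hcon
  push Not at hcon
  have hpos : 0 < Fintype.card X := Fintype.card_pos
  have h1 : (∑ a : X, (R.filter fun y => Rel a y).card) * Fintype.card X <
      ∑ _a : X, R.card * D := by
    rw [sum_mul]
    exact sum_lt_sum_of_nonempty univ_nonempty fun a _ => hcon a
  rw [sum_const, card_univ, smul_eq_mul, mul_comm (Fintype.card X)] at h1
  exact absurd (lt_of_mul_lt_mul_right h1 (Nat.zero_le _)) (not_lt.2 hsum)

open Classical in
/-- after `t` greedy steps. -/
theorem greedy_iter {X Y : Type*} [Fintype X] [Nonempty X] [Fintype Y] (Rel : X → Y → Prop)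
    (D : ℕ) (hD : ∀ y, D ≤ (univ.filter fun a => Rel a y).card) (P : ℝ) (hP1 : P ≤ 1)
    (hPD : P * Fintype.card X ≤ D) (t : ℕ) :
    ∃ A : Finset X, A.card ≤ t ∧
      ((univ.filter fun y : Y => ∀ a ∈ A, ¬ Rel a y).card : ℝ) ≤
        (1 - P) ^ t * Fintype.card Y := by
  have hX0 : (0 : ℝ) < Fintype.card X := by exact_mod_cast Fintype.card_pos
  induction t with
  | zero =>
    refine ⟨∅, by simp, ?_⟩
    rw [pow_zero, one_mul]
    have h1 : (univ.filter fun y : Y => ∀ a ∈ (∅ : Finset X), ¬ Rel a y).card ≤
        Fintype.card Y := card_filter_le _ _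
    exact_mod_cast h1
  | succ t ih =>
    obtain ⟨A, hA, hR⟩ := ih
    set R := univ.filter fun y : Y => ∀ a ∈ A, ¬ Rel a y with hRdef
    obtain ⟨a, ha⟩ := greedy_step Rel D hD R
    refine ⟨insert a A, (card_insert_le _ _).trans (Nat.succ_le_succ hA), ?_⟩
    have hset : (univ.filter fun y : Y => ∀ b ∈ insert a A, ¬ Rel b y) =
        R.filter fun y => ¬ Rel a y := by
      ext y
      rw [hRdef, mem_filter, mem_filter, mem_filter]
      constructor
      · rintro ⟨h1, h2⟩
        exact ⟨⟨h1, fun b hb => h2 b (mem_insert_of_mem hb)⟩, h2 a (mem_insert_self _ _)⟩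
      · rintro ⟨⟨h1, h2⟩, h3⟩
        refine ⟨h1, fun b hb => ?_⟩
        rcases mem_insert.1 hb with rfl | hb'
        · exact h3
        · exact h2 b hb'
    rw [hset]
    have hsplit := card_filter_add_card_filter_not (s := R) (fun y => Rel a y)
    have hsplit' : ((R.filter fun y => Rel a y).card : ℝ) +
        ((R.filter fun y => ¬ Rel a y).card : ℝ) = R.card := by
      exact_mod_cast hsplit
    have ha' : (R.card : ℝ) * D ≤ (R.filter fun y => Rel a y).card * (Fintype.card X : ℝ) := by
      exact_mod_cast ha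
    have ha2 : (R.card : ℝ) * P ≤ ((R.filter fun y => Rel a y).card : ℝ) := by
      refine le_of_mul_le_mul_right ?_ hX0
      calc (R.card : ℝ) * P * Fintype.card X = R.card * (P * Fintype.card X) := by ring
        _ ≤ R.card * D := by gcongr
        _ ≤ _ := ha'
    calc ((R.filter fun y => ¬ Rel a y).card : ℝ) ≤ (1 - P) * R.card := by linarith
      _ ≤ (1 - P) * ((1 - P) ^ t * Fintype.card Y) :=
          mul_le_mul_of_nonneg_left hR (by linarith)
      _ = (1 - P) ^ (t + 1) * Fintype.card Y := by rw [pow_succ]; ring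

open Classical in
/-- greedy covering. -/
theorem greedy_cover {X Y : Type*} [Fintype X] [Nonempty X] [Fintype Y] [Nonempty Y]
    (Rel : X → Y → Prop) (D : ℕ) (hD : ∀ y, D ≤ (univ.filter fun a => Rel a y).card) (P : ℝ) (hP0 : 0 < P)
    (hPD : P * Fintype.card X ≤ D) :
    ∃ A : Finset X, (∀ y, ∃ a ∈ A, Rel a y) ∧
      (A.card : ℝ) ≤ Real.log (Fintype.card Y) / P + 1 := by
  have hX0 : (0 : ℝ) < Fintype.card X := by exact_mod_cast Fintype.card_pos
  have hY0 : (0 : ℝ) < Fintype.card Y := by exact_mod_cast Fintype.card_pos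
  have hY1 : (1 : ℝ) ≤ Fintype.card Y := by
    have : 1 ≤ Fintype.card Y := Fintype.card_pos
    exact_mod_cast this
  have hP1 : P ≤ 1 := by
    obtain ⟨y⟩ := (inferInstance : Nonempty Y)
    have h1 : D ≤ Fintype.card X := (hD y).trans (card_filter_le _ _)
    have h2 : (D : ℝ) ≤ Fintype.card X := by exact_mod_cast h1
    have h3 : P * Fintype.card X ≤ 1 * Fintype.card X := by linarith
    exact le_of_mul_le_mul_right h3 hX0
  set t : ℕ := ⌊Real.log (Fintype.card Y) / P⌋₊ + 1 with ht
  obtain ⟨A, hA, hR⟩ := greedy_iter Rel D hD P hP1 hPD t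
  have hlog : 0 ≤ Real.log (Fintype.card Y) := Real.log_nonneg hY1
  have htgt : Real.log (Fintype.card Y) < P * t := by
    have h1 : Real.log (Fintype.card Y) / P < t := by
      rw [ht]; push_cast; exact Nat.lt_floor_add_one _
    rw [div_lt_iff₀ hP0] at h1
    linarith
  have hlt : (1 - P) ^ t * (Fintype.card Y : ℝ) < 1 := by
    have h1 : (1 - P) ^ t ≤ Real.exp (-(P * t)) := by
      calc (1 - P) ^ t ≤ (Real.exp (-P)) ^ t := by
            apply pow_le_pow_left₀ (by linarith)
            have := Real.add_one_le_exp (-P)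
            linarith
        _ = Real.exp (-(P * t)) := by
            rw [← Real.exp_nat_mul]; congr 1; ring
    calc (1 - P) ^ t * (Fintype.card Y : ℝ)
        ≤ Real.exp (-(P * t)) * Real.exp (Real.log (Fintype.card Y)) := by
          rw [Real.exp_log hY0]; gcongr
      _ = Real.exp (Real.log (Fintype.card Y) - P * t) := by
          rw [← Real.exp_add]; congr 1; ring
      _ < 1 := by
          rw [Real.exp_lt_one_iff]; linarith
  have hempty : (univ.filter fun y : Y => ∀ a ∈ A, ¬ Rel a y) = ∅ := by
    rw [← card_eq_zero]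
    have h3 := hR.trans_lt hlt
    have h4 : (univ.filter fun y : Y => ∀ a ∈ A, ¬ Rel a y).card < 1 := by exact_mod_cast h3
    omega
  refine ⟨A, fun y => ?_, ?_⟩
  · by_contra hcon
    push Not at hcon
    have hy : y ∈ (univ.filter fun y : Y => ∀ a ∈ A, ¬ Rel a y) := by
      rw [mem_filter]
      exact ⟨mem_univ _, hcon⟩
    rw [hempty] at hy
    exact notMem_empty _ hy
  · have h5 : (A.card : ℝ) ≤ t := by exact_mod_cast hA
    have h6 : (t : ℝ) ≤ Real.log (Fintype.card Y) / P + 1 := by
      rw [ht]; push_cast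
      have := Nat.floor_le (show 0 ≤ Real.log (Fintype.card Y) / P by positivity)
      linarith
    exact h5.trans h6

/-- number of corners `a` whose box catches at least `m` coordinates of `y`. -/
theorem count_hits (g M w m : ℕ) [NeZero M] (hwM : w ≤ M) (y : Fin g → Fin M) :
    g.choose m * (w ^ m * (M - w) ^ (g - m)) ≤
      (univ.filter fun a : Fin g → Fin M =>
        m ≤ (univ.filter fun i => y i ∈ cyc M w (a i)).card).card := by
  classical
  have h1 : ∀ I ∈ powersetCard m (univ : Finset (Fin g)),
      (univ.filter fun a : Fin g → Fin M => (univ.filter fun i => y i ∈ cyc M w (a i)) = I).card =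
        w ^ m * (M - w) ^ (g - m) := by
    intro I hI
    obtain ⟨-, hIc⟩ := mem_powersetCard.1 hI
    have h2 : (univ.filter fun a : Fin g → Fin M =>
        (univ.filter fun i => y i ∈ cyc M w (a i)) = I) =
        Fintype.piFinset fun i => if i ∈ I then (univ.filter fun b : Fin M => y i ∈ cyc M w b)
          else (univ.filter fun b : Fin M => y i ∈ cyc M w b)ᶜ := by
      ext a
      rw [mem_filter, Fintype.mem_piFinset]
      constructor
      · rintro ⟨-, h⟩ i
        by_cases hi : i ∈ I
        · rw [if_pos hi, mem_filter]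
          rw [← h, mem_filter] at hi
          exact ⟨mem_univ _, hi.2⟩
        · rw [if_neg hi, mem_compl, mem_filter]
          rintro ⟨-, h3⟩
          apply hi
          rw [← h, mem_filter]
          exact ⟨mem_univ _, h3⟩
      · intro h
        refine ⟨mem_univ _, ?_⟩
        ext i
        rw [mem_filter]
        have h4 := h i
        by_cases hi : i ∈ I
        · rw [if_pos hi, mem_filter] at h4
          exact ⟨fun _ => hi, fun _ => ⟨mem_univ _, h4.2⟩⟩
        · rw [if_neg hi, mem_compl, mem_filter] at h4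
          exact ⟨fun h5 => absurd ⟨mem_univ _, h5.2⟩ h4, fun h5 => absurd h5 hi⟩
    rw [h2, Fintype.card_piFinset]
    have h3 : ∀ i : Fin g, (if i ∈ I then (univ.filter fun b : Fin M => y i ∈ cyc M w b)
          else (univ.filter fun b : Fin M => y i ∈ cyc M w b)ᶜ).card =
        if i ∈ I then w else M - w := by
      intro i
      by_cases hi : i ∈ I
      · rw [if_pos hi, if_pos hi, card_cyc' M w hwM]
      · rw [if_neg hi, if_neg hi, card_compl, card_cyc' M w hwM, Fintype.card_fin]
    rw [prod_congr rfl fun i _ => h3 i, prod_ite, prod_const, prod_const]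
    have h4 : (univ.filter fun i : Fin g => i ∈ I).card = m := by
      rw [filter_mem_eq_inter, univ_inter, hIc]
    have h5 : (univ.filter fun i : Fin g => i ∉ I).card = g - m := by
      rw [filter_not, card_sdiff_of_subset (filter_subset _ _), h4, card_univ, Fintype.card_fin]
    rw [h4, h5]
  have hsub : (powersetCard m (univ : Finset (Fin g))).biUnion
      (fun I => univ.filter fun a : Fin g → Fin M =>
        (univ.filter fun i => y i ∈ cyc M w (a i)) = I) ⊆
      (univ.filter fun a : Fin g → Fin M =>
        m ≤ (univ.filter fun i => y i ∈ cyc M w (a i)).card) := by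
    intro a ha
    obtain ⟨I, hI, haI⟩ := mem_biUnion.1 ha
    rw [mem_filter] at haI ⊢
    refine ⟨mem_univ _, ?_⟩
    rw [haI.2, (mem_powersetCard.1 hI).2]
  have hdisj : ((powersetCard m (univ : Finset (Fin g))).biUnion
      (fun I => univ.filter fun a : Fin g → Fin M =>
        (univ.filter fun i => y i ∈ cyc M w (a i)) = I)).card =
      g.choose m * (w ^ m * (M - w) ^ (g - m)) := by
    rw [card_biUnion]
    · rw [sum_congr rfl h1, sum_const, card_powersetCard, card_univ, Fintype.card_fin, smul_eq_mul]
    · intro I _ I' _ hne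
      rw [Function.onFun, disjoint_left]
      intro a ha ha'
      exact hne ((mem_filter.1 ha).2.symm.trans (mem_filter.1 ha').2)
  rw [← hdisj]
  exact card_le_card hsub

/-- H1.  Greedy covering of `[M]^g` by boxes with sides of `w` cells, every `y` has at least `m`
coordinates in some box. -/
theorem exists_boxes_ge (g M w m : ℕ) (hw : 1 ≤ w) (hwM : w < M) (hmg : m ≤ g) :
    ∃ BB : Finset (Fin g → Finset (Fin M)), (∀ β ∈ BB, ∀ i, (β i).card = w) ∧
      (∀ y : Fin g → Fin M, ∃ β ∈ BB, m ≤ (univ.filter fun i => y i ∈ β i).card) ∧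
      (BB.card : ℝ) ≤ g * Real.log M /
        (g.choose m * ((w : ℝ) / M) ^ m * (1 - (w : ℝ) / M) ^ (g - m)) + 1 := by
  classical
  have hM1 : 1 ≤ M := hw.trans hwM.le
  have hMne : NeZero M := ⟨by omega⟩
  have hM0 : (0 : ℝ) < M := by exact_mod_cast hM1
  have hw0 : (0 : ℝ) < w := by exact_mod_cast hw
  have hwM' : (w : ℝ) < M := by exact_mod_cast hwM
  have hq0 : 0 < 1 - (w : ℝ) / M := by
    rw [sub_pos, div_lt_one hM0]; exact hwM'
  have hC : (0 : ℝ) < g.choose m := by exact_mod_cast Nat.choose_pos hmg
  obtain ⟨A, hA, hAc⟩ := greedy_cover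
    (fun (a : Fin g → Fin M) (y : Fin g → Fin M) =>
      m ≤ (univ.filter fun i => y i ∈ cyc M w (a i)).card)
    (g.choose m * (w ^ m * (M - w) ^ (g - m)))
    (fun y => by have h := count_hits g M w m hwM.le y; convert h)
    (g.choose m * ((w : ℝ) / M) ^ m * (1 - (w : ℝ) / M) ^ (g - m)) (by positivity) (by
      rw [Fintype.card_fun, Fintype.card_fin, Fintype.card_fin]
      push_cast [Nat.cast_sub hwM.le]
      have h1 : (M : ℝ) ^ g = (M : ℝ) ^ m * (M : ℝ) ^ (g - m) := by
        rw [← pow_add]; congr 1; omega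
      have h2 : (1 - (w : ℝ) / M) = ((M : ℝ) - w) / M := by field_simp
      rw [h1, h2, div_pow, div_pow]
      apply le_of_eq
      field_simp)
  refine ⟨A.image (boxOf g M w), ?_, ?_, ?_⟩
  · intro β hβ i
    obtain ⟨a, -, rfl⟩ := mem_image.1 hβ
    exact card_cyc M w hwM.le (a i)
  · intro y
    obtain ⟨a, ha, h⟩ := hA y
    exact ⟨boxOf g M w a, mem_image_of_mem (boxOf g M w) ha, h⟩
  · have h5 : ((A.image (boxOf g M w)).card : ℝ) ≤ A.card := by
      have h5' : (A.image (boxOf g M w)).card ≤ A.card := card_image_le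
      exact_mod_cast h5'
    refine h5.trans (hAc.trans (le_of_eq ?_))
    rw [Fintype.card_fun, Fintype.card_fin, Fintype.card_fin, Nat.cast_pow, Real.log_pow]

end LocTr
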