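import Pool.Agent.Work.MP_a8cb64_co.LDefs

/-!
MP_a8cb64_co, Theorem A, module M1 (helper94): sparse `r`-graphs with small independence number,
by a greedy choice of edges.
-/

namespace LocTr

open Finset

namespace Sparse

theorem pow_mul_choose_le (W : ℕ) (hW : 1 ≤ W) : ∀ (j n r : ℕ), j ≤ r → W * r ≤ n →
    W ^ j * (n - j).choose (r - j) ≤ n.choose r
  | 0, n, r, _, _ => by simp
  | j + 1, n, r, hj, hn => by
    obtain ⟨r', rfl⟩ : ∃ r', r = r' + 1 := ⟨r - 1, by omega⟩
    have h1 : W * (r' + 1) = W * r' + W := by ring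
    obtain ⟨n', rfl⟩ : ∃ n', n = n' + 1 := ⟨n - 1, by omega⟩
    have ih := pow_mul_choose_le W hW j n' r' (by omega) (by omega)
    have e1 : n' + 1 - (j + 1) = n' - j := by omega
    have e2 : r' + 1 - (j + 1) = r' - j := by omega
    rw [e1, e2]
    have h2 : W * n'.choose r' ≤ (n' + 1).choose (r' + 1) := by
      have h3 := Nat.add_one_mul_choose_eq n' r'
      have h4 : (W * n'.choose r') * (r' + 1) ≤ (n' + 1).choose (r' + 1) * (r' + 1) := by
        rw [← h3]
        calc (W * n'.choose r') * (r' + 1) = (W * (r' + 1)) * n'.choose r' := by ring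
          _ ≤ (n' + 1) * n'.choose r' := Nat.mul_le_mul_right _ hn
      exact Nat.le_of_mul_le_mul_right h4 (by omega)
    calc W ^ (j + 1) * (n' - j).choose (r' - j)
        = W * (W ^ j * (n' - j).choose (r' - j)) := by ring
      _ ≤ W * n'.choose r' := Nat.mul_le_mul_left _ ih
      _ ≤ _ := h2

theorem choose_le_pow_mul (A n M r : ℕ) (h : ∀ i < r, n - i ≤ A * (M - i)) :
    n.choose r ≤ A ^ r * M.choose r := by
  have h1 : n.descFactorial r ≤ A ^ r * M.descFactorial r := by
    rw [Nat.descFactorial_eq_prod_range, Nat.descFactorial_eq_prod_range]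
    calc ∏ i ∈ range r, (n - i) ≤ ∏ i ∈ range r, (A * (M - i)) :=
          Finset.prod_le_prod' fun i hi => h i (mem_range.1 hi)
      _ = A ^ r * ∏ i ∈ range r, (M - i) := by
          rw [Finset.prod_mul_distrib, Finset.prod_const, card_range]
  rw [Nat.descFactorial_eq_factorial_mul_choose, Nat.descFactorial_eq_factorial_mul_choose] at h1
  have h2 : r.factorial * n.choose r ≤ r.factorial * (A ^ r * M.choose r) := by
    calc r.factorial * n.choose r ≤ A ^ r * (r.factorial * M.choose r) := h1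
      _ = _ := by ring
  exact Nat.le_of_mul_le_mul_left h2 (Nat.factorial_pos r)

theorem card_superset (U S : Finset ℕ) (r : ℕ) (hS : S ⊆ U) :
    ((powersetCard r U).filter fun f => S ⊆ f).card ≤ (U.card - S.card).choose (r - S.card) := by
  have h1 : (U.card - S.card).choose (r - S.card) =
      (powersetCard (r - S.card) (U \ S)).card := by
    rw [card_powersetCard, card_sdiff_of_subset hS]
  rw [h1]
  refine card_le_card_of_injOn (fun f => f \ S) ?_ ?_
  · intro f hf
    rw [mem_coe, mem_filter, mem_powersetCard] at hf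
    rw [mem_coe, mem_powersetCard]
    obtain ⟨⟨h2, h3⟩, h4⟩ := hf
    refine ⟨sdiff_subset_sdiff h2 (le_refl S), ?_⟩
    rw [card_sdiff_of_subset h4, h3]
  · intro f hf g hg hfg
    rw [mem_coe, mem_filter] at hf hg
    have h5 : f \ S = g \ S := hfg
    rw [← sdiff_union_of_subset hf.2, ← sdiff_union_of_subset hg.2, h5]

theorem card_conflict (U e : Finset ℕ) (r j : ℕ) (he : e ⊆ U) (hec : e.card = r) :
    ((powersetCard r U).filter fun f => j ≤ (e ∩ f).card).card ≤
      2 ^ r * (U.card - j).choose (r - j) := by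
  have h1 : ((powersetCard r U).filter fun f => j ≤ (e ∩ f).card) ⊆
      (powersetCard j e).biUnion fun S => (powersetCard r U).filter fun f => S ⊆ f := by
    intro f hf
    rw [mem_filter] at hf
    obtain ⟨S, hS, hSc⟩ := exists_subset_card_eq hf.2
    rw [mem_biUnion]
    refine ⟨S, ?_, ?_⟩
    · rw [mem_powersetCard]
      exact ⟨hS.trans inter_subset_left, hSc⟩
    · rw [mem_filter]
      exact ⟨hf.1, hS.trans inter_subset_right⟩
  calc ((powersetCard r U).filter fun f => j ≤ (e ∩ f).card).card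
      ≤ ((powersetCard j e).biUnion fun S => (powersetCard r U).filter fun f => S ⊆ f).card :=
        card_le_card h1
    _ ≤ ∑ S ∈ powersetCard j e, ((powersetCard r U).filter fun f => S ⊆ f).card :=
        card_biUnion_le
    _ ≤ ∑ _S ∈ powersetCard j e, (U.card - j).choose (r - j) := by
        refine sum_le_sum fun S hS => ?_
        rw [mem_powersetCard] at hS
        have h2 := card_superset U S r (hS.1.trans he)
        rw [hS.2] at h2
        exact h2
    _ = r.choose j * (U.card - j).choose (r - j) := by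
        rw [sum_const, card_powersetCard, hec, smul_eq_mul]
    _ ≤ 2 ^ r * (U.card - j).choose (r - j) := Nat.mul_le_mul_right _ (Nat.choose_le_two_pow _ _)

theorem step {n M r b A B L : ℕ}
    (hconf : ∀ e ∈ powersetCard r (range n),
      ((powersetCard r (range n)).filter fun f => ¬ b * (e ∩ f).card ≤ r).card ≤ B)
    (hLB : 2 * (L * B) ≤ M.choose r) (hA : n.choose r ≤ A ^ r * M.choose r)
    (hM : 0 < M.choose r) (H : Finset (Finset ℕ)) (hH : H ⊆ powersetCard r (range n))
    (hHL : H.card ≤ L) (Us : Finset (Finset ℕ)) (hUs : Us ⊆ powersetCard M (range n))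
    (hne : Us.Nonempty) :
    ∃ f ∈ powersetCard r (range n), (∀ e ∈ H, b * (e ∩ f).card ≤ r) ∧
      Us.card ≤ 2 * A ^ r * (Us.filter fun Q => f ⊆ Q).card := by
  classical
  by_contra hcon
  push Not at hcon
  set P := powersetCard r (range n) with hP
  set G := P.filter fun f => ∀ e ∈ H, b * (e ∩ f).card ≤ r with hG
  have hQ : ∀ Q ∈ Us, M.choose r ≤ 2 * (G.filter fun f => f ⊆ Q).card := by
    intro Q hQ
    have hQ' := hUs hQ
    rw [mem_powersetCard] at hQ'
    have h1 : powersetCard r Q ⊆ (G.filter fun f => f ⊆ Q) ∪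
        H.biUnion fun e => P.filter fun f => ¬ b * (e ∩ f).card ≤ r := by
      intro f hf
      rw [mem_powersetCard] at hf
      have hfP : f ∈ P := by
        rw [hP, mem_powersetCard]
        exact ⟨hf.1.trans hQ'.1, hf.2⟩
      rw [mem_union]
      by_cases hg : ∀ e ∈ H, b * (e ∩ f).card ≤ r
      · left
        rw [mem_filter, hG, mem_filter]
        exact ⟨⟨hfP, hg⟩, hf.1⟩
      · right
        push Not at hg
        obtain ⟨e, he, he'⟩ := hg
        rw [mem_biUnion]
        refine ⟨e, he, ?_⟩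
        rw [mem_filter]
        exact ⟨hfP, not_le.2 he'⟩
    have h2 : M.choose r ≤ (G.filter fun f => f ⊆ Q).card + H.card * B := by
      calc M.choose r = (powersetCard r Q).card := by rw [card_powersetCard, hQ'.2]
        _ ≤ _ := card_le_card h1
        _ ≤ (G.filter fun f => f ⊆ Q).card +
            (H.biUnion fun e => P.filter fun f => ¬ b * (e ∩ f).card ≤ r).card :=
            card_union_le _ _
        _ ≤ (G.filter fun f => f ⊆ Q).card + H.card * B := by
            refine Nat.add_le_add_left ?_ _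
            exact card_biUnion_le_card_mul _ _ _ fun e he => hconf e (hH he)
    have h3 : H.card * B ≤ L * B := Nat.mul_le_mul_right _ hHL
    omega
  have hdc : ∑ f ∈ G, (Us.filter fun Q => f ⊆ Q).card =
      ∑ Q ∈ Us, (G.filter fun f => f ⊆ Q).card := by
    exact sum_card_bipartiteAbove_eq_sum_card_bipartiteBelow fun (f Q : Finset ℕ) => f ⊆ Q
  have hGne : G.Nonempty := by
    obtain ⟨Q, hQ1⟩ := hne
    have h4 := hQ Q hQ1
    have h5 : 0 < (G.filter fun f => f ⊆ Q).card := by omega
    obtain ⟨f, hf⟩ := card_pos.1 h5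
    exact ⟨f, (mem_filter.1 hf).1⟩
  have h6 : Us.card * M.choose r ≤ 2 * ∑ f ∈ G, (Us.filter fun Q => f ⊆ Q).card := by
    rw [hdc, mul_sum]
    calc Us.card * M.choose r = ∑ _Q ∈ Us, M.choose r := by rw [sum_const, smul_eq_mul]
      _ ≤ _ := sum_le_sum hQ
  have h7 : ∑ f ∈ G, 2 * A ^ r * (Us.filter fun Q => f ⊆ Q).card < ∑ _f ∈ G, Us.card := by
    refine sum_lt_sum_of_nonempty hGne fun f hf => ?_
    rw [hG, mem_filter] at hf
    exact hcon f hf.1 hf.2
  rw [← mul_sum, sum_const, smul_eq_mul] at h7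
  have h8 : G.card ≤ n.choose r := by
    calc G.card ≤ P.card := card_le_card (filter_subset _ _)
      _ = n.choose r := by rw [hP, card_powersetCard, card_range]
  have h9 : G.card * Us.card ≤ A ^ r * M.choose r * Us.card :=
    Nat.mul_le_mul_right _ (h8.trans hA)
  have h10 : A ^ r * (Us.card * M.choose r) ≤
      A ^ r * (2 * ∑ f ∈ G, (Us.filter fun Q => f ⊆ Q).card) := Nat.mul_le_mul_left _ h6
  have h11 : A ^ r * (2 * ∑ f ∈ G, (Us.filter fun Q => f ⊆ Q).card) =
      2 * A ^ r * ∑ f ∈ G, (Us.filter fun Q => f ⊆ Q).card := by ring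
  have h12 : A ^ r * (Us.card * M.choose r) = A ^ r * M.choose r * Us.card := by ring
  omega

/-- The uncovered `M`-sets. -/
def uncov (n M : ℕ) (H : Finset (Finset ℕ)) : Finset (Finset ℕ) :=
  (powersetCard M (range n)).filter fun Q => ∀ e ∈ H, ¬ e ⊆ Q

theorem iter {n M r b A B L : ℕ} (hA1 : 1 ≤ A)
    (hconf : ∀ e ∈ powersetCard r (range n),
      ((powersetCard r (range n)).filter fun f => ¬ b * (e ∩ f).card ≤ r).card ≤ B)
    (hLB : 2 * (L * B) ≤ M.choose r) (hA : n.choose r ≤ A ^ r * M.choose r)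
    (hM : 0 < M.choose r) : ∀ L' ≤ L, ∃ H ⊆ powersetCard r (range n), H.card ≤ L' ∧
      (∀ e ∈ H, ∀ f ∈ H, e ≠ f → b * (e ∩ f).card ≤ r) ∧
      ((uncov n M H).card : ℝ) ≤ 2 ^ n * (1 - 1 / (2 * (A : ℝ) ^ r)) ^ L' := by
  classical
  have hAr : (1 : ℝ) ≤ (A : ℝ) ^ r := one_le_pow₀ (by exact_mod_cast hA1)
  have hq : (0 : ℝ) ≤ 1 - 1 / (2 * (A : ℝ) ^ r) := by
    rw [sub_nonneg, div_le_one (by positivity)]
    linarith
  intro L'
  induction L' with
  | zero =>
    intro _
    refine ⟨∅, empty_subset _, by simp, by simp, ?_⟩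
    rw [pow_zero, mul_one]
    have h1 : (uncov n M ∅).card ≤ 2 ^ n := by
      calc (uncov n M ∅).card ≤ (powersetCard M (range n)).card :=
            card_le_card (filter_subset _ _)
        _ = n.choose M := by rw [card_powersetCard, card_range]
        _ ≤ 2 ^ n := Nat.choose_le_two_pow _ _
    exact_mod_cast h1
  | succ l ih =>
    intro hl
    obtain ⟨H, hH, hHc, hHp, hHu⟩ := ih (by omega)
    rcases (uncov n M H).eq_empty_or_nonempty with h0 | h0
    · refine ⟨H, hH, by omega, hHp, ?_⟩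
      rw [h0]
      simp only [card_empty, Nat.cast_zero]
      positivity
    obtain ⟨f, hf, hfe, hfc⟩ := step hconf hLB hA hM H hH (by omega) (uncov n M H)
      (filter_subset _ _) h0
    refine ⟨insert f H, ?_, ?_, ?_, ?_⟩
    · exact insert_subset hf hH
    · exact (card_insert_le _ _).trans (by omega)
    · intro e he g hg heg
      rw [mem_insert] at he hg
      rcases he with rfl | he
      · rcases hg with rfl | hg
        · exact absurd rfl heg
        · rw [inter_comm]
          exact hfe g hg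
      · rcases hg with rfl | hg
        · exact hfe e he
        · exact hHp e he g hg heg
    · have h1 : uncov n M (insert f H) = (uncov n M H).filter fun Q => ¬ f ⊆ Q := by
        ext Q
        simp only [uncov, mem_filter, mem_insert, forall_eq_or_imp]
        tauto
      have h2 := card_filter_add_card_filter_not (s := uncov n M H) (fun Q => f ⊆ Q)
      rw [h1]
      have h3 : (((uncov n M H).filter fun Q => f ⊆ Q).card : ℝ) +
          (((uncov n M H).filter fun Q => ¬ f ⊆ Q).card : ℝ) = ((uncov n M H).card : ℝ) := by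
        exact_mod_cast h2
      have h4 : ((uncov n M H).card : ℝ) ≤ 2 * (A : ℝ) ^ r *
          (((uncov n M H).filter fun Q => f ⊆ Q).card : ℝ) := by
        exact_mod_cast hfc
      have h5 : ((uncov n M H).card : ℝ) / (2 * (A : ℝ) ^ r) ≤
          (((uncov n M H).filter fun Q => f ⊆ Q).card : ℝ) := by
        rw [div_le_iff₀ (by positivity)]
        linarith
      calc (((uncov n M H).filter fun Q => ¬ f ⊆ Q).card : ℝ)
          ≤ ((uncov n M H).card : ℝ) - ((uncov n M H).card : ℝ) / (2 * (A : ℝ) ^ r) := by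
            linarith
        _ = ((uncov n M H).card : ℝ) * (1 - 1 / (2 * (A : ℝ) ^ r)) := by ring
        _ ≤ (2 ^ n * (1 - 1 / (2 * (A : ℝ) ^ r)) ^ l) * (1 - 1 / (2 * (A : ℝ) ^ r)) :=
            mul_le_mul_of_nonneg_right hHu hq
        _ = _ := by ring

theorem final_lt {n r A : ℕ} (hn : 1 ≤ n) (hA1 : 1 ≤ A) :
    (2 : ℝ) ^ n * (1 - 1 / (2 * (A : ℝ) ^ r)) ^ (2 * A ^ r * n) < 1 := by
  have hAr : (1 : ℝ) ≤ (A : ℝ) ^ r := one_le_pow₀ (by exact_mod_cast hA1)
  have hq : (0 : ℝ) ≤ 1 - 1 / (2 * (A : ℝ) ^ r) := by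
    rw [sub_nonneg, div_le_one (by positivity)]
    linarith
  have h1 : (1 - 1 / (2 * (A : ℝ) ^ r)) ^ (2 * A ^ r * n) ≤ Real.exp (-(n : ℝ)) := by
    calc (1 - 1 / (2 * (A : ℝ) ^ r)) ^ (2 * A ^ r * n)
        ≤ (Real.exp (-(1 / (2 * (A : ℝ) ^ r)))) ^ (2 * A ^ r * n) :=
          pow_le_pow_left₀ hq (Real.one_sub_le_exp_neg _) _
      _ = Real.exp (-(n : ℝ)) := by
          rw [← Real.exp_nat_mul]
          congr 1
          push_cast
          field_simp
  have h2 : (2 : ℝ) ^ n < Real.exp (n : ℝ) := by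
    have h3 : Real.exp (n : ℝ) = (Real.exp 1) ^ n := by
      rw [← Real.exp_nat_mul, mul_one]
    rw [h3]
    refine pow_lt_pow_left₀ ?_ (by norm_num) (by omega)
    have := Real.exp_one_gt_d9
    linarith
  calc (2 : ℝ) ^ n * (1 - 1 / (2 * (A : ℝ) ^ r)) ^ (2 * A ^ r * n)
      ≤ (2 : ℝ) ^ n * Real.exp (-(n : ℝ)) := mul_le_mul_of_nonneg_left h1 (by positivity)
    _ < Real.exp (n : ℝ) * Real.exp (-(n : ℝ)) :=
        mul_lt_mul_of_pos_right h2 (Real.exp_pos _)
    _ = 1 := by rw [← Real.exp_add, add_neg_cancel, Real.exp_zero]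

end Sparse

open Sparse

theorem exists_sparse (A b : ℕ) (hb : 1 ≤ b) : ∃ N : ℕ, ∀ r W m : ℕ, N ≤ r → N ≤ W → 2 ≤ m →
    m ≤ W → W - 1 ≤ A * (m - 1) →
    ∃ H : Finset (Finset ℕ), (∀ e ∈ H, e ⊆ range (W * r) ∧ e.card = r) ∧
      (∀ Q : Finset ℕ, Q ⊆ range (W * r) → Q.card = m * r → ∃ e ∈ H, e ⊆ Q) ∧
      (∀ e ∈ H, ∀ f ∈ H, e ≠ f → b * (e ∩ f).card ≤ r) := by
  classical
  refine ⟨2 * b + (8 * A ^ 2) ^ (2 * b) + 1, ?_⟩
  intro r W m hr hW hm hmW hWA
  have hA1 : 1 ≤ A := by
    rcases Nat.eq_zero_or_pos A with h | h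
    · subst h
      omega
    · exact h
  have hA8 : 1 ≤ 8 * A ^ 2 := by
    have : 1 ≤ A ^ 2 := Nat.one_le_pow _ _ hA1
    omega
  have hr1 : 1 ≤ r := by omega
  have hW1 : 1 ≤ W := by omega
  set n := W * r with hn
  set M := m * r with hMdef
  set a := r / b with ha
  have hba : r < b * (a + 1) := by
    rw [ha]
    exact Nat.lt_mul_div_succ r (by omega)
  have hba2 : b * a ≤ r := by
    rw [ha]
    exact Nat.mul_div_le r b
  have hn1 : 1 ≤ n := Nat.mul_pos hW1 hr1
  -- the choose estimates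
  have hA : n.choose r ≤ A ^ r * M.choose r := by
    refine choose_le_pow_mul A n M r fun i hi => ?_
    have e1 : n = (W - 1) * r + r := by
      rw [hn]
      obtain ⟨w, rfl⟩ : ∃ w, W = w + 1 := ⟨W - 1, by omega⟩
      simp
      ring
    have e2 : M = (m - 1) * r + r := by
      rw [hMdef]
      obtain ⟨w, rfl⟩ : ∃ w, m = w + 1 := ⟨m - 1, by omega⟩
      simp
      ring
    have e3 : n - i = (W - 1) * r + (r - i) := by omega
    have e4 : M - i = (m - 1) * r + (r - i) := by omega
    rw [e3, e4, mul_add]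
    refine Nat.add_le_add ?_ (Nat.le_mul_of_pos_left _ hA1)
    calc (W - 1) * r ≤ (A * (m - 1)) * r := Nat.mul_le_mul_right _ hWA
      _ = A * ((m - 1) * r) := by ring
  have hM : 0 < M.choose r := Nat.choose_pos (Nat.le_mul_of_pos_left _ (by omega))
  set B := if a + 1 ≤ r then 2 ^ r * (n - (a + 1)).choose (r - (a + 1)) else 0 with hB
  have hconf : ∀ e ∈ powersetCard r (range n),
      ((powersetCard r (range n)).filter fun f => ¬ b * (e ∩ f).card ≤ r).card ≤ B := by
    intro e he
    rw [mem_powersetCard] at he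
    have h1 : ((powersetCard r (range n)).filter fun f => ¬ b * (e ∩ f).card ≤ r) ⊆
        (powersetCard r (range n)).filter fun f => a + 1 ≤ (e ∩ f).card := by
      intro f hf
      rw [mem_filter] at hf ⊢
      refine ⟨hf.1, ?_⟩
      by_contra hlt
      have h2 : (e ∩ f).card ≤ a := by omega
      exact hf.2 ((Nat.mul_le_mul_left b h2).trans hba2)
    by_cases har : a + 1 ≤ r
    · rw [hB, if_pos har]
      have h3 := card_conflict (range n) e r (a + 1) he.1 he.2
      rw [card_range] at h3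
      exact (card_le_card h1).trans h3
    · rw [hB, if_neg har]
      refine (card_le_card h1).trans ?_
      rw [Nat.le_zero, card_eq_zero, filter_eq_empty_iff]
      intro f _ hf
      have h4 : (e ∩ f).card ≤ e.card := card_le_card inter_subset_left
      omega
  set L := 2 * A ^ r * n with hL
  have hLB : 2 * (L * B) ≤ M.choose r := by
    by_cases har : a + 1 ≤ r
    swap
    · rw [hB, if_neg har]
      simp
    have h1 : W ^ (a + 1) * (n - (a + 1)).choose (r - (a + 1)) ≤ n.choose r :=
      pow_mul_choose_le W hW1 (a + 1) n r har (le_refl _)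
    have h2 : 4 * r * (2 * A ^ 2) ^ r ≤ W ^ a := by
      have h3 : r ≤ 2 * b * a := by
        have e5 : b * (a + 1) = b * a + b := by ring
        have e6 : 2 * b * a = 2 * (b * a) := by ring
        have e7 : 2 * b ≤ r := by omega
        omega
      have h4 : r ≤ 4 ^ (r - 1) := by
        have : r - 1 < 4 ^ (r - 1) := Nat.lt_pow_self (by norm_num)
        omega
      calc 4 * r * (2 * A ^ 2) ^ r ≤ 4 * 4 ^ (r - 1) * (2 * A ^ 2) ^ r :=
            Nat.mul_le_mul_right _ (Nat.mul_le_mul_left _ h4)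
        _ = 4 ^ r * (2 * A ^ 2) ^ r := by
            congr 1
            obtain ⟨r', hr'⟩ : ∃ r', r = r' + 1 := ⟨r - 1, by omega⟩
            rw [hr']
            simp
            ring
        _ = (8 * A ^ 2) ^ r := by
            rw [← mul_pow]
            congr 1
            ring
        _ ≤ (8 * A ^ 2) ^ (2 * b * a) := Nat.pow_le_pow_right hA8 h3
        _ = ((8 * A ^ 2) ^ (2 * b)) ^ a := by rw [pow_mul]
        _ ≤ W ^ a := Nat.pow_le_pow_left (by omega) _
    have h5 : 2 * L * 2 ^ r * A ^ r ≤ W ^ (a + 1) := by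
      calc 2 * L * 2 ^ r * A ^ r = W * (4 * r * (2 * A ^ 2) ^ r) := by
            rw [hL, hn, mul_pow, ← pow_mul]
            ring
        _ ≤ W * W ^ a := Nat.mul_le_mul_left _ h2
        _ = W ^ (a + 1) := by ring
    have h6 : (A ^ r * W ^ (a + 1)) * (2 * (L * B)) ≤ (A ^ r * W ^ (a + 1)) * M.choose r := by
      calc (A ^ r * W ^ (a + 1)) * (2 * (L * B))
          = (2 * L * 2 ^ r * A ^ r) *
              (W ^ (a + 1) * (n - (a + 1)).choose (r - (a + 1))) := by
            rw [hB, if_pos har]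
            ring
        _ ≤ W ^ (a + 1) * n.choose r := Nat.mul_le_mul h5 h1
        _ ≤ W ^ (a + 1) * (A ^ r * M.choose r) := Nat.mul_le_mul_left _ hA
        _ = _ := by ring
    exact Nat.le_of_mul_le_mul_left h6 (by positivity)
  obtain ⟨H, hH, -, hHp, hHu⟩ := iter hA1 hconf hLB hA hM L le_rfl
  refine ⟨H, ?_, ?_, hHp⟩
  · intro e he
    exact mem_powersetCard.1 (hH he)
  · intro Q hQ hQc
    have h1 : ((uncov n M H).card : ℝ) < 1 := lt_of_le_of_lt hHu (final_lt hn1 hA1)
    have h2 : (uncov n M H).card < 1 := by exact_mod_cast h1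
    have h3 : uncov n M H = ∅ := card_eq_zero.1 (by omega)
    by_contra hcon
    push Not at hcon
    have h4 : Q ∈ uncov n M H := by
      rw [uncov, mem_filter, mem_powersetCard]
      exact ⟨⟨hQ, hQc⟩, hcon⟩
    rw [h3] at h4
    exact notMem_empty _ h4

end LocTr
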