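import Pool.Agent.Work.MP_a8cb64_co.SDefs

/-!
MP_a8cb64_co, Theorem G (note 2406), step S1: stable cores.
-/

namespace LocTr

open Finset

/-- the common points of the sets of `F`. -/
private noncomputable def coreI (F : Finset (Finset ℕ)) : Finset ℕ := by
  classical
  exact (F.biUnion id).filter fun x => ∀ e ∈ F, x ∈ e

private theorem mem_coreI {F : Finset (Finset ℕ)} (hF : F.Nonempty) (x : ℕ) :
    x ∈ coreI F ↔ ∀ e ∈ F, x ∈ e := by
  classical
  unfold coreI
  rw [mem_filter]
  refine ⟨fun h => h.2, fun h => ⟨?_, h⟩⟩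
  obtain ⟨e, he⟩ := hF
  exact mem_biUnion.2 ⟨e, he, h e he⟩

/-- S1 (file `LS1.lean`).  Stable cores.  Choose `F ⊆ H_T = {e ∈ H : e ∩ T = ∅}`, nonempty,
minimising `|⋂ F| + D |F|` (finite set of candidates: `H.powerset`).  Then `|I \ e| ≤ D` by
comparing with `insert e F`, and `D |F| ≤ r + D` by comparing with a singleton. -/
theorem exists_core (H : Finset (Finset ℕ)) (r m D : ℕ) (hr : ∀ e ∈ H, e.card = r)
    (hH : NoTr H m) (hD : 1 ≤ D) (T : Finset ℕ) (hT : T.card ≤ m) :
    ∃ F ⊆ H, ∃ I : Finset ℕ, (F.card : ℝ) ≤ r / D + 1 ∧ (∀ e ∈ F, Disjoint e T) ∧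
      (∀ x, x ∈ I ↔ ∀ e ∈ F, x ∈ e) ∧ ∀ e ∈ H, Disjoint e T → (I \ e).card ≤ D := by
  classical
  obtain ⟨e0, he0, hd0⟩ := hH T hT
  set S : Finset (Finset (Finset ℕ)) :=
    H.powerset.filter fun F => F.Nonempty ∧ ∀ e ∈ F, Disjoint e T with hS
  have hmemS : ∀ F, F ∈ S ↔ F ⊆ H ∧ F.Nonempty ∧ ∀ e ∈ F, Disjoint e T := by
    intro F
    rw [hS, mem_filter, mem_powerset]
  have h0 : ({e0} : Finset (Finset ℕ)) ∈ S := by
    rw [hmemS]
    refine ⟨by simpa using he0, singleton_nonempty e0, ?_⟩
    intro e he
    rw [mem_singleton] at he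
    subst he
    exact hd0
  obtain ⟨F, hF, hmin⟩ := exists_min_image S (fun F => (coreI F).card + D * F.card) ⟨_, h0⟩
  obtain ⟨hFH, hFne, hFd⟩ := (hmemS F).1 hF
  refine ⟨F, hFH, coreI F, ?_, hFd, fun x => mem_coreI hFne x, ?_⟩
  · have h1 := hmin _ h0
    have h2 : (coreI {e0}).card ≤ r := by
      rw [← hr e0 he0]
      apply card_le_card
      intro x hx
      exact (mem_coreI (singleton_nonempty e0) x).1 hx e0 (mem_singleton_self e0)
    have h3 : D * F.card ≤ r + D := by
      have h4 : (coreI F).card + D * F.card ≤ (coreI {e0}).card + D * 1 := by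
        simpa using h1
      have h5 : D * 1 = D := Nat.mul_one D
      omega
    have hDp : (0 : ℝ) < D := by exact_mod_cast hD
    have h6 : (D : ℝ) * F.card ≤ r + D := by exact_mod_cast h3
    have h7 : (r : ℝ) / D + 1 = (r + D) / D := by
      field_simp
    rw [h7, le_div_iff₀ hDp]
    linarith
  · intro e he hde
    have hins : insert e F ∈ S := by
      rw [hmemS]
      refine ⟨insert_subset he hFH, insert_nonempty e F, ?_⟩
      intro e' he'
      rcases mem_insert.1 he' with h | h
      · subst h
        exact hde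
      · exact hFd e' h
    have h1 := hmin _ hins
    have h2 : coreI (insert e F) = coreI F ∩ e := by
      ext x
      rw [mem_coreI (insert_nonempty e F), mem_inter, mem_coreI hFne]
      constructor
      · intro h
        exact ⟨fun e' he' => h e' (mem_insert_of_mem he'), h e (mem_insert_self e F)⟩
      · rintro ⟨h, h'⟩ e' he'
        rcases mem_insert.1 he' with h3 | h3
        · subst h3
          exact h'
        · exact h e' h3
    have h3 : (insert e F).card ≤ F.card + 1 := card_insert_le e F
    have h4 : (coreI F \ e).card + (coreI F ∩ e).card = (coreI F).card :=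
      card_sdiff_add_card_inter (coreI F) e
    have h5 : D * (insert e F).card ≤ D * (F.card + 1) := Nat.mul_le_mul_left D h3
    have h6 : D * (F.card + 1) = D * F.card + D := by ring
    have h7 : (coreI F).card + D * F.card ≤
        (coreI (insert e F)).card + D * (insert e F).card := h1
    rw [h2] at h7
    omega

end LocTr
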