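import Pool.Agent.Work.MP_a8cb64_co.SDefs
import Pool.Agent.Work.MP_a8cb64_co.LD8

/-!
MP_a8cb64_co, Theorem G (helper72, note 2406): module S10 (helper71), final assembly from the
statement of S9.
-/

namespace LocTr

open Finset

/-- statement of S9 -/
def TwoCoreStmt : Prop := ∀ (ε : ℝ), 0 < ε → ∃ C : ℕ, ∀ (r m : ℕ), C ≤ m → C * m ≤ r →
    ∀ H : Finset (Finset ℕ), (∀ e ∈ H, e.card = r) → NoTr H m →
    ∃ F ⊆ H, (F.card : ℝ) ≤ (1 + ε) * ((r : ℝ) / m) ^ 2 ∧
      ∀ X : Finset ℕ, X.card ≤ 2 → ∃ e ∈ F, Disjoint e X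

/-- a bound for `fval` -/
theorem fval_le_of {r k s m : ℕ} (h : ∀ H : Finset (Finset ℕ), (∀ e ∈ H, e.card = r) →
    LocProp k s H → ∃ T : Finset ℕ, T.card ≤ m ∧ IsTrans H T) : fval r k s ≤ m :=
  Nat.sInf_le h

/-- S10.  Theorem G. -/
theorem theoremG_of (h9 : TwoCoreStmt) (ε : ℝ) (hε : 0 < ε) : ∃ C : ℕ, ∀ k r : ℕ, C ≤ k →
    C * Real.sqrt k ≤ r → (r : ℝ) / Real.sqrt k ≤ (fval r k 2 : ℝ) ∧
      (fval r k 2 : ℝ) ≤ (1 + ε) * ((r : ℝ) / Real.sqrt k) := by
  obtain ⟨C0, hC0⟩ := h9 ε hε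
  obtain ⟨C1, hC1⟩ := exists_nat_ge (max (2 / ε) (((C0 : ℝ) * (1 + ε)) ^ 2))
  refine ⟨C0 + C1 + 3, ?_⟩
  intro k r hk hr
  have hk3 : 3 ≤ k := by omega
  have hkR : (0 : ℝ) < k := by
    have : 0 < k := by omega
    exact_mod_cast this
  set q : ℝ := Real.sqrt k with hq
  have hq0 : 0 < q := Real.sqrt_pos.2 hkR
  have hqq : q * q = k := Real.mul_self_sqrt hkR.le
  have hq1 : 1 ≤ q := by
    rw [hq]
    apply Real.one_le_sqrt.2
    have : 1 ≤ k := by omega
    exact_mod_cast this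
  have hrpos : (0 : ℝ) < r := lt_of_lt_of_le (by positivity) hr
  have hr1 : 1 ≤ r := by exact_mod_cast hrpos
  constructor
  · have h8 := fval_complete r k 2 (by norm_num) (by omega) hr1
    refine le_trans (le_of_eq ?_) h8
    have : (k : ℝ) ^ (-(1 / ((2 : ℕ) : ℝ))) = q⁻¹ := by
      rw [Real.rpow_neg hkR.le, hq, Real.sqrt_eq_rpow]
      norm_num
    rw [this, div_eq_mul_inv]
  · set y : ℝ := (r : ℝ) / q with hy
    have hyC : ((C0 + C1 + 3 : ℕ) : ℝ) ≤ y := by
      rw [hy, le_div_iff₀ hq0]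
      exact hr
    push_cast at hyC
    have hC0' : (0 : ℝ) ≤ C0 := Nat.cast_nonneg _
    have hC1' : (0 : ℝ) ≤ C1 := Nat.cast_nonneg _
    have hy0 : 0 < y := by linarith
    have hC1a : 2 / ε ≤ C1 := (le_max_left _ _).trans hC1
    have hC1b : ((C0 : ℝ) * (1 + ε)) ^ 2 ≤ C1 := (le_max_right _ _).trans hC1
    set m : ℕ := ⌊(1 + ε) * y⌋₊ with hm
    have hm1 : (m : ℝ) ≤ (1 + ε) * y := Nat.floor_le (by positivity)
    have hm2 : (1 + ε) * y < m + 1 := Nat.lt_floor_add_one _
    have hm3 : (1 + ε / 2) * y ≤ m := by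
      have : 1 ≤ ε / 2 * y := by
        have h1 : 2 / ε ≤ y := by linarith
        rw [div_le_iff₀ hε] at h1
        linarith
      linarith
    have hm0 : (0 : ℝ) < m := lt_of_lt_of_le (by positivity) hm3
    have hmC : C0 ≤ m := by
      have : (C0 : ℝ) ≤ m := by
        have : y ≤ m := by nlinarith
        linarith
      exact_mod_cast this
    have hCm : C0 * m ≤ r := by
      have h1 : (C0 : ℝ) * (1 + ε) ≤ q := by
        have h2 : ((C0 : ℝ) * (1 + ε)) ^ 2 ≤ k := by
          have : ((C0 + C1 + 3 : ℕ) : ℝ) ≤ k := by exact_mod_cast hk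
          push_cast at this
          linarith
        rw [hq]
        exact Real.le_sqrt_of_sq_le h2
      have h3 : (C0 : ℝ) * m ≤ r := by
        calc (C0 : ℝ) * m ≤ C0 * ((1 + ε) * y) := mul_le_mul_of_nonneg_left hm1 hC0'
          _ = (C0 * (1 + ε)) * y := by ring
          _ ≤ q * y := mul_le_mul_of_nonneg_right h1 hy0.le
          _ = r := by rw [hy]; field_simp
      exact_mod_cast h3
    have hle : fval r k 2 ≤ m := by
      apply fval_le_of
      intro H hH hloc
      by_contra hno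
      push Not at hno
      have hNo : NoTr H m := by
        intro T hT
        have h1 := hno T hT
        unfold IsTrans at h1
        push Not at h1
        obtain ⟨e, he, h2⟩ := h1
        refine ⟨e, he, ?_⟩
        rw [Finset.disjoint_iff_inter_eq_empty]
        exact Finset.not_nonempty_iff_eq_empty.1 (by simpa using h2)
      obtain ⟨F, hF, hFc, hX⟩ := hC0 r m hmC hCm H hH hNo
      have hFk : F.card ≤ k := by
        have h1 : (r : ℝ) / m ≤ q / (1 + ε / 2) := by
          rw [div_le_div_iff₀ hm0 (by positivity)]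
          have : (r : ℝ) = q * y := by rw [hy]; field_simp
          rw [this]
          nlinarith
        have h2 : ((r : ℝ) / m) ^ 2 ≤ (q / (1 + ε / 2)) ^ 2 :=
          pow_le_pow_left₀ (by positivity) h1 2
        have h3 : (1 + ε) * (q / (1 + ε / 2)) ^ 2 ≤ k := by
          rw [div_pow, mul_div_assoc', div_le_iff₀ (by positivity), ← hqq]
          have : 0 ≤ q * q * (ε / 2) ^ 2 := by positivity
          nlinarith
        have h4 : (F.card : ℝ) ≤ k :=
          hFc.trans ((mul_le_mul_of_nonneg_left h2 (by positivity)).trans h3)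
        exact_mod_cast h4
      obtain ⟨T, hT, hTr⟩ := hloc F hF hFk
      obtain ⟨e, he, hd⟩ := hX T hT
      obtain ⟨x, hx⟩ := hTr e he
      rw [mem_inter] at hx
      exact (disjoint_left.1 hd hx.1) hx.2
    calc (fval r k 2 : ℝ) ≤ m := by exact_mod_cast hle
      _ ≤ (1 + ε) * y := hm1

end LocTr
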