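import Pool.Agent.Work.MP_a8cb64_co.SDefs

/-!
MP_a8cb64_co, Theorem G (note 2406), step S2: the flat core.
-/

namespace LocTr

open Finset

/-- S2 (file `LS2.lean`).  The flat core.  `g i = max {|I| : ∃ T, |T| ≤ i h, ∀ e ∈ H missing T,
|I \ e| ≤ D i}` (bounded by `r + D i` since some `e ∈ H` misses `T`), `g` is monotone and
`g q ≤ r + D q`, so `q (g (i+1) - g i) ≤ r + D q` for some `i < q`; take `A`, `T0` for `g i`. -/
theorem exists_flat (H : Finset (Finset ℕ)) (r m h q : ℕ) (D : ℕ → ℕ)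
    (hr : ∀ e ∈ H, e.card = r) (hH : NoTr H m) (hq : 1 ≤ q) (hqh : q * h ≤ m) (hD : Monotone D) :
    ∃ i < q, ∃ T0 A : Finset ℕ, T0.card ≤ i * h ∧
      (∀ e ∈ H, Disjoint e T0 → (A \ e).card ≤ D i) ∧
      ∀ P I : Finset ℕ, P.card ≤ h → (∀ e ∈ H, Disjoint e (T0 ∪ P) → (I \ e).card ≤ D (i + 1)) →
        q * I.card ≤ q * A.card + (r + D q) := by
  classical
  set G : ℕ → ℕ → Prop := fun i n => ∃ T A : Finset ℕ, T.card ≤ i * h ∧
    (∀ e ∈ H, Disjoint e T → (A \ e).card ≤ D i) ∧ A.card = n with hG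
  have hG0 : ∀ i, G i 0 := fun i => ⟨∅, ∅, by simp, by simp, by simp⟩
  have hGb : ∀ i n, i ≤ q → G i n → n ≤ r + D q := by
    rintro i n hi ⟨T, A, hT, hA, rfl⟩
    have h1 : T.card ≤ m := hT.trans ((Nat.mul_le_mul_right h hi).trans hqh)
    obtain ⟨e, he, hde⟩ := hH T h1
    have h2 := hA e he hde
    have h3 : (A \ e).card + (A ∩ e).card = A.card := card_sdiff_add_card_inter A e
    have h4 : (A ∩ e).card ≤ e.card := card_le_card inter_subset_right
    have h5 := hr e he
    have h6 : D i ≤ D q := hD hi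
    omega
  set g : ℕ → ℕ := fun i => Nat.findGreatest (G i) (r + D q) with hg
  have hgs : ∀ i, G i (g i) := fun i => Nat.findGreatest_spec (P := G i) (Nat.zero_le _) (hG0 i)
  have hgm : ∀ i n, i ≤ q → G i n → n ≤ g i := fun i n hi hn =>
    Nat.le_findGreatest (hGb i n hi hn) hn
  have hgb : g q ≤ r + D q := Nat.findGreatest_le _
  have hex : ∃ i < q, q * g (i + 1) ≤ q * g i + (r + D q) := by
    by_contra hcon
    push Not at hcon
    have hind : ∀ i, i ≤ q → i * (r + D q + 1) ≤ q * g i := by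
      intro i
      induction i with
      | zero => intro _; simp
      | succ i ih =>
        intro hi
        have h1 := ih (by omega)
        have h2 := hcon i (by omega)
        have h3 : (i + 1) * (r + D q + 1) = i * (r + D q + 1) + (r + D q + 1) := by ring
        omega
    have h4 := hind q le_rfl
    have h5 : r + D q + 1 ≤ g q := Nat.le_of_mul_le_mul_left h4 hq
    omega
  obtain ⟨i, hi, hle⟩ := hex
  obtain ⟨T0, A, hT0, hA, hAc⟩ := hgs i
  refine ⟨i, hi, T0, A, hT0, hA, ?_⟩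
  intro P I hP hI
  have h1 : (T0 ∪ P).card ≤ (i + 1) * h := by
    have := card_union_le T0 P
    have h2 : (i + 1) * h = i * h + h := by ring
    omega
  have h2 : G (i + 1) I.card := ⟨T0 ∪ P, I, h1, hI, rfl⟩
  have h3 := hgm (i + 1) I.card (by omega) h2
  have h4 : q * I.card ≤ q * g (i + 1) := Nat.mul_le_mul_left q h3
  rw [hAc]
  exact h4.trans hle

end LocTr
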