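import Pool.Agent.Work.MP_a8cb64_co.SDefs

/-!
MP_a8cb64_co, Theorem G, module S3 (helper72): the Kővári–Sós–Turán step.
-/

namespace LocTr

open Finset

/-- one more group. -/
theorem dense_one (J : ℕ) (R : ℕ → Finset ℕ) (κ : ℝ) (S V : Finset ℕ) (l : ℕ)
    (_hS : S ⊆ range J) (hSl : S.card ≤ l) (hJ : 2 * l ≤ κ * J) (hJ0 : 1 ≤ J)
    (hV : ∀ v ∈ V, κ * J ≤ (((range J).filter fun j => v ∈ R j).card : ℝ)) :
    V = ∅ ∨ ∃ j ∈ range J, j ∉ S ∧ κ / 2 * V.card ≤ ((V.filter fun v => v ∈ R j).card : ℝ) := by
  classical
  by_contra hcon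
  push Not at hcon
  obtain ⟨hVne, hcon⟩ := hcon
  have hVpos : (0 : ℝ) < V.card := by exact_mod_cast Finset.card_pos.2 hVne
  have hJR : (0 : ℝ) < J := by exact_mod_cast hJ0
  -- double counting
  have hdc : ∑ j ∈ range J \ S, ((V.filter fun v => v ∈ R j).card : ℝ) =
      ∑ v ∈ V, ((((range J) \ S).filter fun j => v ∈ R j).card : ℝ) := by
    have h := Finset.sum_card_bipartiteAbove_eq_sum_card_bipartiteBelow
      (s := range J \ S) (t := V) (fun j v => v ∈ R j)
    unfold Finset.bipartiteAbove Finset.bipartiteBelow at h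
    exact_mod_cast h
  have hlow : ∀ v ∈ V, κ / 2 * J ≤ ((((range J) \ S).filter fun j => v ∈ R j).card : ℝ) := by
    intro v hv
    have h1 := hV v hv
    have h2 : (range J).filter (fun j => v ∈ R j) ⊆
        ((range J \ S).filter fun j => v ∈ R j) ∪ S := by
      intro j hj
      rw [mem_filter] at hj
      by_cases hjS : j ∈ S
      · exact mem_union_right _ hjS
      · exact mem_union_left _ (mem_filter.2 ⟨mem_sdiff.2 ⟨hj.1, hjS⟩, hj.2⟩)
    have h3 : (((range J).filter fun j => v ∈ R j).card : ℝ) ≤
        ((((range J) \ S).filter fun j => v ∈ R j).card : ℝ) + S.card := by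
      exact_mod_cast (card_le_card h2).trans (card_union_le _ _)
    have h4 : (S.card : ℝ) ≤ l := by exact_mod_cast hSl
    linarith
  have hsumlow : (V.card : ℝ) * (κ / 2 * J) ≤
      ∑ v ∈ V, ((((range J) \ S).filter fun j => v ∈ R j).card : ℝ) := by
    calc (V.card : ℝ) * (κ / 2 * J) = ∑ _v ∈ V, κ / 2 * J := by
          rw [sum_const, nsmul_eq_mul]
      _ ≤ _ := sum_le_sum hlow
  have hκ0 : 0 ≤ κ := by
    by_contra h
    push Not at h
    have : κ * J < 0 := mul_neg_of_neg_of_pos h hJR
    have h2 : (0 : ℝ) ≤ 2 * l := by positivity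
    linarith
  by_cases hne : (range J \ S).Nonempty
  · have hsumup : ∑ j ∈ range J \ S, ((V.filter fun v => v ∈ R j).card : ℝ) <
        ((range J \ S).card : ℝ) * (κ / 2 * V.card) := by
      calc ∑ j ∈ range J \ S, ((V.filter fun v => v ∈ R j).card : ℝ)
          < ∑ _j ∈ range J \ S, κ / 2 * V.card := by
            apply sum_lt_sum_of_nonempty hne
            intro j hj
            rw [mem_sdiff] at hj
            exact hcon j hj.1 hj.2
        _ = _ := by rw [sum_const, nsmul_eq_mul]
    have hc : ((range J \ S).card : ℝ) ≤ J := by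
      have : (range J \ S).card ≤ J := by
        calc (range J \ S).card ≤ (range J).card := card_le_card sdiff_subset
          _ = J := card_range J
      exact_mod_cast this
    have h5 : ((range J \ S).card : ℝ) * (κ / 2 * V.card) ≤ J * (κ / 2 * V.card) := by
      apply mul_le_mul_of_nonneg_right hc
      positivity
    rw [hdc] at hsumup
    have h6 : (V.card : ℝ) * (κ / 2 * J) = J * (κ / 2 * V.card) := by ring
    linarith
  · rw [not_nonempty_iff_eq_empty] at hne
    -- all groups are in `S`, but `S` is small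
    have hJS : J ≤ S.card := by
      have : range J ⊆ S := sdiff_eq_empty_iff_subset.1 hne
      simpa using card_le_card this
    obtain ⟨v, hv⟩ := hVne
    have h7 := hlow v hv
    rw [hne] at h7
    simp only [filter_empty, card_empty, Nat.cast_zero] at h7
    have h8 : (J : ℝ) ≤ l := by exact_mod_cast hJS.trans hSl
    have h9 : κ * J ≤ 0 := by linarith
    have h10 : 2 * (l : ℝ) ≤ 0 := hJ.trans h9
    linarith

theorem dense_step (J l : ℕ) (W : Finset ℕ) (R : ℕ → Finset ℕ) (κ : ℝ) (hκ : 0 < κ)
    (hκ1 : κ ≤ 1) (hR : ∀ j < J, R j ⊆ W) (hJ : 2 * l ≤ κ * J)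
    (hd : 2 * κ * J * W.card ≤ ∑ j ∈ range J, ((R j).card : ℝ)) :
    ∃ S ⊆ range J, S.card = l ∧ ∃ T' : Finset ℕ, T' ⊆ W ∧ (∀ j ∈ S, T' ⊆ R j) ∧
      κ * (κ / 2) ^ l * W.card ≤ T'.card := by
  classical
  rcases Nat.eq_zero_or_pos J with hJ0 | hJ0
  · subst hJ0
    have hl : l = 0 := by
      have : 2 * (l : ℝ) ≤ 0 := by simpa using hJ
      have h2 : (l : ℝ) ≤ 0 := by linarith
      have h3 : l ≤ 0 := by exact_mod_cast h2
      omega
    subst hl
    refine ⟨∅, by simp, by simp, W, Subset.rfl, by simp, ?_⟩
    rw [pow_zero, mul_one]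
    have : (0 : ℝ) ≤ W.card := Nat.cast_nonneg _
    nlinarith
  have hJR : (0 : ℝ) < J := by exact_mod_cast hJ0
  set W' := W.filter fun v => κ * J ≤ (((range J).filter fun j => v ∈ R j).card : ℝ) with hW'
  -- `W'` is large
  have hdc : ∑ j ∈ range J, ((R j).card : ℝ) =
      ∑ v ∈ W, (((range J).filter fun j => v ∈ R j).card : ℝ) := by
    have h := Finset.sum_card_bipartiteAbove_eq_sum_card_bipartiteBelow
      (s := range J) (t := W) (fun j v => v ∈ R j)
    unfold Finset.bipartiteAbove Finset.bipartiteBelow at h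
    have h2 : ∑ j ∈ range J, (R j).card = ∑ j ∈ range J, (W.filter fun v => v ∈ R j).card := by
      apply sum_congr rfl
      intro j hj
      congr 1
      ext v
      rw [mem_filter]
      exact ⟨fun h => ⟨hR j (mem_range.1 hj) h, h⟩, fun h => h.2⟩
    have h3 : ∑ j ∈ range J, (R j).card =
        ∑ v ∈ W, ((range J).filter fun j => v ∈ R j).card := h2.trans h
    exact_mod_cast h3
  have hW'big : κ * W.card ≤ (W'.card : ℝ) := by
    have h1 : ∑ v ∈ W, (((range J).filter fun j => v ∈ R j).card : ℝ) ≤
        (W'.card : ℝ) * J + W.card * (κ * J) := by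
      calc ∑ v ∈ W, (((range J).filter fun j => v ∈ R j).card : ℝ)
          ≤ ∑ v ∈ W, ((if v ∈ W' then (J : ℝ) else 0) + κ * J) := by
            apply sum_le_sum
            intro v hv
            split_ifs with h
            · have : (((range J).filter fun j => v ∈ R j).card : ℝ) ≤ J := by
                have h2 : ((range J).filter fun j => v ∈ R j).card ≤ J := by
                  simpa using card_filter_le (range J) fun j => v ∈ R j
                exact_mod_cast h2
              have h3 : 0 ≤ κ * J := by positivity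
              linarith
            · rw [hW', mem_filter] at h
              push Not at h
              have := h hv
              linarith
        _ = (W'.card : ℝ) * J + W.card * (κ * J) := by
          rw [sum_add_distrib, sum_const, nsmul_eq_mul, ← sum_filter, sum_const, nsmul_eq_mul]
          congr 3
          rw [filter_mem_eq_inter, inter_eq_right.2 (filter_subset _ _)]
    rw [← hdc] at h1
    have h2 : (κ * W.card) * J ≤ (W'.card : ℝ) * J := by nlinarith
    exact le_of_mul_le_mul_right h2 hJR
  -- iterate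
  have hiter : ∀ i ≤ l, ∃ S ⊆ range J, S.card = i ∧ ∃ T' ⊆ W', (∀ j ∈ S, T' ⊆ R j) ∧
      (κ / 2) ^ i * W'.card ≤ (T'.card : ℝ) := by
    intro i
    induction i with
    | zero =>
      intro _
      exact ⟨∅, by simp, by simp, W', Subset.rfl, by simp, by simp⟩
    | succ i ih =>
      intro hi
      obtain ⟨S, hS, hSi, T', hT', hTR, hTc⟩ := ih (by omega)
      rcases dense_one J R κ S T' l hS (by omega) hJ hJ0 (fun v hv =>
        (mem_filter.1 (hT' hv)).2) with h | ⟨j, hj, hjS, hjc⟩
      · -- empty: any new group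
        subst h
        have hlJ : S.card < J := by
          have h1 : 2 * (l : ℝ) ≤ J := by
            calc 2 * (l : ℝ) ≤ κ * J := hJ
              _ ≤ 1 * J := mul_le_mul_of_nonneg_right hκ1 hJR.le
              _ = J := one_mul _
          have h2 : 2 * l ≤ J := by exact_mod_cast h1
          omega
        obtain ⟨j, hj, hjS⟩ : ∃ j ∈ range J, j ∉ S := by
          by_contra hcon
          push Not at hcon
          have : (range J).card ≤ S.card := card_le_card hcon
          rw [card_range] at this
          omega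
        have h0 : (κ / 2) ^ i * (W'.card : ℝ) = 0 := by
          apply le_antisymm _ (by positivity)
          simpa using hTc
        refine ⟨insert j S, insert_subset hj hS, by rw [card_insert_of_notMem hjS, hSi],
          ∅, by simp, by simp, ?_⟩
        rw [pow_succ, mul_right_comm, h0]
        simp
      · refine ⟨insert j S, insert_subset hj hS, by rw [card_insert_of_notMem hjS, hSi],
          T'.filter (fun v => v ∈ R j), (filter_subset _ _).trans hT', ?_, ?_⟩
        · intro j' hj'
          rcases mem_insert.1 hj' with h | h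
          · subst h
            intro v hv
            exact (mem_filter.1 hv).2
          · exact (filter_subset _ _).trans (hTR j' h)
        · calc (κ / 2) ^ (i + 1) * (W'.card : ℝ) = κ / 2 * ((κ / 2) ^ i * W'.card) := by ring
            _ ≤ κ / 2 * T'.card := by gcongr
            _ ≤ _ := hjc
  obtain ⟨S, hS, hSl, T', hT', hTR, hTc⟩ := hiter l le_rfl
  refine ⟨S, hS, hSl, T', hT'.trans (filter_subset _ _), hTR, ?_⟩
  calc κ * (κ / 2) ^ l * (W.card : ℝ) = (κ / 2) ^ l * (κ * W.card) := by ring
    _ ≤ (κ / 2) ^ l * W'.card := by gcongr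
    _ ≤ _ := hTc

end LocTr
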