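import Pool.Agent.Work.MP_a8cb64_co.LS3

/-!
MP_a8cb64_co, Theorem G, module S4 (helper72): greedy rectangles.
-/

namespace LocTr

open Finset

theorem greedy_rect_aux (J l m' : ℕ) (c : ℝ) (W : Finset ℕ) (κ : ℝ) (hκ : 0 < κ)
    (hκ1 : κ ≤ 1) (hl : 1 ≤ l) (hm' : 1 ≤ m') (hJ : 2 * l ≤ κ * J)
    (hW : (W.card : ℝ) ≤ c) (hbig : (m' : ℝ) ≤ κ * (κ / 2) ^ l * (2 * κ * c)) (n : ℕ) :
    ∀ R : ℕ → Finset ℕ, (∀ j < J, R j ⊆ W) → ∑ j ∈ range J, (R j).card ≤ n →
    ∃ Q : Finset (Finset ℕ × Finset ℕ), ∃ R' : ℕ → Finset ℕ,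
      (∀ p ∈ Q, p.1 ⊆ range J ∧ p.1.card = l ∧ p.2.card = m') ∧
      (∀ j < J, R' j ⊆ R j) ∧ (∀ j < J, ∀ v ∈ R j, v ∈ R' j ∨ ∃ p ∈ Q, j ∈ p.1 ∧ v ∈ p.2) ∧
      (∑ j ∈ range J, ((R' j).card : ℝ)) ≤ 2 * κ * J * c ∧
      Q.card * (l * m') ≤ ∑ j ∈ range J, (R j).card := by
  classical
  induction n using Nat.strong_induction_on with
  | _ n ih =>
    intro R hR hn
    by_cases hsmall : (∑ j ∈ range J, ((R j).card : ℝ)) ≤ 2 * κ * J * c
    · exact ⟨∅, R, by simp, fun j _ => Subset.rfl, fun j _ v hv => Or.inl hv, hsmall, by simp⟩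
    push Not at hsmall
    have hJR0 : (0 : ℝ) ≤ J := Nat.cast_nonneg _
    have hd : 2 * κ * J * W.card ≤ ∑ j ∈ range J, ((R j).card : ℝ) := by
      have : 2 * κ * J * W.card ≤ 2 * κ * J * c :=
        mul_le_mul_of_nonneg_left hW (by positivity)
      linarith
    obtain ⟨S, hS, hSl, T', hT'W, hTR, hTc⟩ := dense_step J l W R κ hκ hκ1 hR hJ hd
    -- `W` is large
    have hWbig : 2 * κ * c ≤ W.card := by
      have h1 : ∑ j ∈ range J, ((R j).card : ℝ) ≤ J * W.card := by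
        calc ∑ j ∈ range J, ((R j).card : ℝ) ≤ ∑ _j ∈ range J, (W.card : ℝ) := by
              apply sum_le_sum
              intro j hj
              exact_mod_cast card_le_card (hR j (mem_range.1 hj))
          _ = J * W.card := by rw [sum_const, card_range, nsmul_eq_mul]
      by_contra hcon
      push Not at hcon
      have h2 : (J : ℝ) * W.card ≤ J * (2 * κ * c) := mul_le_mul_of_nonneg_left hcon.le hJR0
      have h3 : (J : ℝ) * (2 * κ * c) = 2 * κ * J * c := by ring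
      linarith
    have hT'm : m' ≤ T'.card := by
      have h1 : (m' : ℝ) ≤ T'.card := by
        calc (m' : ℝ) ≤ κ * (κ / 2) ^ l * (2 * κ * c) := hbig
          _ ≤ κ * (κ / 2) ^ l * W.card := by gcongr
          _ ≤ T'.card := hTc
      exact_mod_cast h1
    obtain ⟨T, hT, hTm⟩ := exists_subset_card_eq hT'm
    set R1 : ℕ → Finset ℕ := fun j => if j ∈ S then R j \ T else R j with hR1
    have hR1R : ∀ j, R1 j ⊆ R j := by
      intro j
      simp only [hR1]
      split_ifs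
      · exact sdiff_subset
      · exact Subset.rfl
    have hsum : ∑ j ∈ range J, (R1 j).card + l * m' = ∑ j ∈ range J, (R j).card := by
      have h1 : ∀ j ∈ range J, (R j).card = (R1 j).card + (if j ∈ S then m' else 0) := by
        intro j _
        simp only [hR1]
        split_ifs with h
        · have h2 : T ⊆ R j := hT.trans (hTR j h)
          rw [card_sdiff_of_subset h2, hTm]
          have := card_le_card h2
          omega
        · simp
      rw [sum_congr rfl h1, sum_add_distrib]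
      congr 1
      rw [← sum_filter, sum_const, smul_eq_mul]
      have h3 : (range J).filter (fun j => j ∈ S) = S := by
        rw [filter_mem_eq_inter, inter_eq_right.2 hS]
      rw [h3, hSl]
    have hlm : 1 ≤ l * m' := Nat.mul_pos hl hm'
    obtain ⟨Q, R', hQ, hR', hcov, hR's, hQc⟩ := ih (∑ j ∈ range J, (R1 j).card) (by omega) R1
      (fun j hj => (hR1R j).trans (hR j hj)) le_rfl
    refine ⟨insert (S, T) Q, R', ?_, fun j hj => (hR' j hj).trans (hR1R j), ?_, hR's, ?_⟩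
    · intro p hp
      rcases mem_insert.1 hp with h | h
      · subst h
        exact ⟨hS, hSl, hTm⟩
      · exact hQ p h
    · intro j hj v hv
      by_cases hjS : j ∈ S
      · by_cases hvT : v ∈ T
        · exact Or.inr ⟨(S, T), mem_insert_self _ _, hjS, hvT⟩
        · have hv1 : v ∈ R1 j := by
            simp only [hR1]
            rw [if_pos hjS]
            exact mem_sdiff.2 ⟨hv, hvT⟩
          rcases hcov j hj v hv1 with h | ⟨p, hp, h⟩
          · exact Or.inl h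
          · exact Or.inr ⟨p, mem_insert_of_mem hp, h⟩
      · have hv1 : v ∈ R1 j := by
          simp only [hR1]
          rw [if_neg hjS]
          exact hv
        rcases hcov j hj v hv1 with h | ⟨p, hp, h⟩
        · exact Or.inl h
        · exact Or.inr ⟨p, mem_insert_of_mem hp, h⟩
    · have h1 : (insert (S, T) Q).card ≤ Q.card + 1 := card_insert_le _ _
      calc (insert (S, T) Q).card * (l * m') ≤ (Q.card + 1) * (l * m') :=
            Nat.mul_le_mul_right _ h1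
        _ = Q.card * (l * m') + l * m' := by ring
        _ ≤ ∑ j ∈ range J, (R1 j).card + l * m' := Nat.add_le_add_right hQc _
        _ = _ := hsum

theorem greedy_rect (J l m' : ℕ) (c : ℝ) (W : Finset ℕ) (R : ℕ → Finset ℕ) (κ : ℝ) (hκ : 0 < κ)
    (hκ1 : κ ≤ 1) (hl : 1 ≤ l) (hm' : 1 ≤ m') (hR : ∀ j < J, R j ⊆ W) (hJ : 2 * l ≤ κ * J)
    (hW : (W.card : ℝ) ≤ c) (hbig : (m' : ℝ) ≤ κ * (κ / 2) ^ l * (2 * κ * c)) :
    ∃ Q : Finset (Finset ℕ × Finset ℕ), ∃ R' : ℕ → Finset ℕ,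
      (∀ p ∈ Q, p.1 ⊆ range J ∧ p.1.card = l ∧ p.2.card = m') ∧
      (∀ j < J, R' j ⊆ R j) ∧ (∀ j < J, ∀ v ∈ R j, v ∈ R' j ∨ ∃ p ∈ Q, j ∈ p.1 ∧ v ∈ p.2) ∧
      (∑ j ∈ range J, ((R' j).card : ℝ)) ≤ 2 * κ * J * c ∧
      (Q.card : ℝ) * (l * m') ≤ ∑ j ∈ range J, ((R j).card : ℝ) := by
  obtain ⟨Q, R', h1, h2, h3, h4, h5⟩ := greedy_rect_aux J l m' c W κ hκ hκ1 hl hm' hJ hW hbig
    (∑ j ∈ range J, (R j).card) R hR le_rfl
  exact ⟨Q, R', h1, h2, h3, h4, by exact_mod_cast h5⟩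

end LocTr
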