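import Pool.Agent.Work.MP_a8cb64_co.SDefs

/-!
MP_a8cb64_co, Theorem G, module S5 (helper94): the sum of the light lists.
-/

namespace LocTr

open Finset

namespace LS5

/-- `(1-x)^l ≤ 1 - l x + (l x)^2 / 2`. -/
theorem pow_le (x : ℝ) (h0 : 0 ≤ x) (h1 : x ≤ 1) (l : ℕ) :
    (1 - x) ^ l ≤ 1 - l * x + (l * x) ^ 2 / 2 := by
  induction l with
  | zero => simp
  | succ l ih =>
    have h2 : (1 - x) ^ (l + 1) ≤ (1 - l * x + (l * x) ^ 2 / 2) * (1 - x) := by
      rw [pow_succ]
      exact mul_le_mul_of_nonneg_right ih (by linarith)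
    refine h2.trans ?_
    push_cast
    have h3 : 0 ≤ (l : ℝ) ^ 2 * x ^ 2 * x := by positivity
    have h4 : 0 ≤ x ^ 2 := by positivity
    nlinarith

/-- number of `s : Fin l → Fin J` whose union of lists misses `v`. -/
theorem card_miss (J l : ℕ) (L : ℕ → Finset ℕ) (v : ℕ) :
    ((univ : Finset (Fin l → Fin J)).filter
      (fun s : Fin l → Fin J => ∀ a, v ∉ L ((s a : Fin J) : ℕ))).card =
      ((univ : Finset (Fin J)).filter (fun j : Fin J => v ∉ L (j : ℕ))).card ^ l := by
  classical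
  have h : (univ : Finset (Fin l → Fin J)).filter
      (fun s : Fin l → Fin J => ∀ a, v ∉ L ((s a : Fin J) : ℕ)) =
      Fintype.piFinset (fun _ : Fin l => (univ : Finset (Fin J)).filter
        (fun j : Fin J => v ∉ L (j : ℕ))) := by
    ext s
    simp [Fintype.mem_piFinset]
  rw [h, Fintype.card_piFinset]
  simp

theorem card_fin_filter (J : ℕ) (p : ℕ → Prop) [DecidablePred p] :
    ((univ : Finset (Fin J)).filter (fun j : Fin J => p (j : ℕ))).card =
      ((range J).filter p).card := by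
  classical
  refine card_bij (fun j _ => (j : ℕ)) ?_ ?_ ?_
  · intro j hj
    rw [mem_filter] at hj ⊢
    exact ⟨mem_range.2 j.2, hj.2⟩
  · intro a _ b _ h
    exact Fin.ext h
  · intro b hb
    rw [mem_filter] at hb
    exact ⟨⟨b, mem_range.1 hb.1⟩, by simp [hb.2], rfl⟩

theorem card_hit (J l : ℕ) (L : ℕ → Finset ℕ) (v : ℕ) :
    (((univ : Finset (Fin l → Fin J)).filter
      (fun s : Fin l → Fin J => ∃ a, v ∈ L ((s a : Fin J) : ℕ))).card : ℝ) =
      (J : ℝ) ^ l - ((J : ℝ) - (((range J).filter fun j => v ∈ L j).card : ℝ)) ^ l := by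
  classical
  have h1 : ((range J).filter fun j => v ∉ L j).card +
      ((range J).filter fun j => v ∈ L j).card = J := by
    have := card_filter_add_card_filter_not (s := range J) (fun j => v ∈ L j)
    rw [card_range] at this
    omega
  have h2 : (((range J).filter fun j => v ∉ L j).card : ℝ) =
      (J : ℝ) - (((range J).filter fun j => v ∈ L j).card : ℝ) := by
    have h1' : ((((range J).filter fun j => v ∉ L j).card : ℕ) : ℝ) +
      ((((range J).filter fun j => v ∈ L j).card : ℕ) : ℝ) = (J : ℝ) := by exact_mod_cast h1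
    linarith
  have h3 := card_miss J l L v
  rw [card_fin_filter J (fun j => v ∉ L j)] at h3
  have h4 := card_filter_add_card_filter_not (s := (univ : Finset (Fin l → Fin J)))
    (fun s : Fin l → Fin J => ∃ a, v ∈ L ((s a : Fin J) : ℕ))
  have h5 : (univ : Finset (Fin l → Fin J)).card = J ^ l := by simp
  have h6 : (univ : Finset (Fin l → Fin J)).filter
      (fun s : Fin l → Fin J => ¬ ∃ a, v ∈ L ((s a : Fin J) : ℕ)) =
      (univ : Finset (Fin l → Fin J)).filter
      (fun s : Fin l → Fin J => ∀ a, v ∉ L ((s a : Fin J) : ℕ)) := by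
    ext s
    simp
  rw [h6, h3, h5] at h4
  have h7 : (((univ : Finset (Fin l → Fin J)).filter
      (fun s : Fin l → Fin J => ∃ a, v ∈ L ((s a : Fin J) : ℕ))).card : ℝ) +
      (((range J).filter fun j => v ∉ L j).card : ℝ) ^ l = (J : ℝ) ^ l := by exact_mod_cast h4
  rw [← h2]
  linarith

end LS5

/-- S5.  The sum of the light lists. -/
theorem light_sum (J l : ℕ) (L : ℕ → Finset ℕ) (κ z : ℝ) (hJ : 1 ≤ J) (hκ : 0 ≤ κ)
    (hdeg : ∀ v : ℕ, (((range J).filter fun j => v ∈ L j).card : ℝ) ≤ κ * J)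
    (hz : ∀ S ⊆ range J, S.card ≤ l → ((S.biUnion L).card : ℝ) ≤ z) :
    l * (1 - l * κ / 2) * ∑ j ∈ range J, ((L j).card : ℝ) ≤ J * z := by
  classical
  set V : Finset ℕ := (range J).biUnion L with hV
  set d : ℕ → ℝ := fun v => (((range J).filter fun j => v ∈ L j).card : ℝ) with hd
  have hJ0 : (0 : ℝ) < J := by exact_mod_cast hJ
  -- double counting of the incidences
  have hsum : ∑ j ∈ range J, ((L j).card : ℝ) = ∑ v ∈ V, d v := by
    have h1 : ∑ j ∈ range J, (L j).card = ∑ v ∈ V, ((range J).filter fun j => v ∈ L j).card := by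
      have h2 : ∀ j ∈ range J, (L j).card = ∑ v ∈ V, if v ∈ L j then 1 else 0 := by
        intro j hj
        rw [← card_filter]
        congr 1
        ext v
        rw [mem_filter, hV, mem_biUnion]
        exact ⟨fun h => ⟨⟨j, hj, h⟩, h⟩, fun h => h.2⟩
      rw [sum_congr rfl h2, sum_comm]
      refine sum_congr rfl fun v _ => ?_
      rw [← card_filter]
    simp only [hd]
    exact_mod_cast h1
  -- average over all functions
  have hav : ∑ v ∈ V, ((J : ℝ) ^ l - ((J : ℝ) - d v) ^ l) ≤ (J : ℝ) ^ l * z := by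
    have h1 : ∀ v ∈ V, ((J : ℝ) ^ l - ((J : ℝ) - d v) ^ l) =
        ∑ s : Fin l → Fin J, if (∃ a, v ∈ L ((s a : Fin J) : ℕ)) then (1 : ℝ) else 0 := by
      intro v _
      rw [← LS5.card_hit J l L v, card_filter]
      push_cast
      rfl
    rw [sum_congr rfl h1, sum_comm]
    have h2 : ∀ s : Fin l → Fin J, ∑ v ∈ V, (if (∃ a, v ∈ L ((s a : Fin J) : ℕ)) then
        (1 : ℝ) else 0) ≤ z := by
      intro s
      have h3 : ((image (fun a => ((s a : Fin J) : ℕ)) univ).biUnion L).card ≤ z := by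
        refine hz _ ?_ ?_
        · intro j hj
          obtain ⟨a, -, rfl⟩ := mem_image.1 hj
          exact mem_range.2 (s a).2
        · exact card_image_le.trans (by simp)
      refine le_trans ?_ h3
      have h4 : ∑ v ∈ V, (if (∃ a, v ∈ L ((s a : Fin J) : ℕ)) then (1 : ℝ) else 0) =
          ((V.filter fun v => ∃ a, v ∈ L ((s a : Fin J) : ℕ)).card : ℝ) := by
        rw [card_filter]
        push_cast
        rfl
      rw [h4]
      have h5 : (V.filter fun v => ∃ a, v ∈ L ((s a : Fin J) : ℕ)) ⊆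
          (image (fun a => ((s a : Fin J) : ℕ)) univ).biUnion L := by
        intro v hv
        obtain ⟨-, a, ha⟩ := mem_filter.1 hv
        exact mem_biUnion.2 ⟨_, mem_image_of_mem _ (mem_univ a), ha⟩
      exact_mod_cast card_le_card h5
    calc ∑ s : Fin l → Fin J, ∑ v ∈ V, (if (∃ a, v ∈ L ((s a : Fin J) : ℕ)) then
        (1 : ℝ) else 0) ≤ ∑ _s : Fin l → Fin J, z := sum_le_sum fun s _ => h2 s
      _ = (J : ℝ) ^ l * z := by simp
  -- lower bound for the terms
  have hterm : ∀ v ∈ V, (J : ℝ) ^ l * (l * (1 - l * κ / 2) * (d v / J)) ≤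
      (J : ℝ) ^ l - ((J : ℝ) - d v) ^ l := by
    intro v _
    set φ : ℝ := d v / J with hφ
    have hd0 : 0 ≤ d v := by simp only [hd]; positivity
    have hdJ : d v ≤ J := by
      simp only [hd]
      have : ((range J).filter fun j => v ∈ L j).card ≤ J := by
        simpa using card_filter_le (range J) (fun j => v ∈ L j)
      exact_mod_cast this
    have hφ0 : 0 ≤ φ := div_nonneg hd0 hJ0.le
    have hφ1 : φ ≤ 1 := (div_le_one hJ0).2 hdJ
    have hφκ : φ ≤ κ := (div_le_iff₀ hJ0).2 (hdeg v)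
    have h1 := LS5.pow_le φ hφ0 hφ1 l
    have h2 : ((J : ℝ) - d v) ^ l = (J : ℝ) ^ l * (1 - φ) ^ l := by
      rw [← mul_pow]
      congr 1
      rw [hφ]
      field_simp
    rw [h2]
    have h3 : (l : ℝ) * (1 - l * κ / 2) * φ ≤ 1 - (1 - φ) ^ l := by
      have h4 : 0 ≤ (l : ℝ) ^ 2 * φ * (κ - φ) := by
        have := sub_nonneg.2 hφκ
        positivity
      nlinarith
    have h5 : (0 : ℝ) ≤ (J : ℝ) ^ l := by positivity
    nlinarith [mul_le_mul_of_nonneg_left h3 h5]
  have hfin : (J : ℝ) ^ l * (l * (1 - l * κ / 2) * ((∑ v ∈ V, d v) / J)) ≤ (J : ℝ) ^ l * z := by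
    refine le_trans (le_of_eq ?_) ((sum_le_sum hterm).trans hav)
    rw [sum_div, mul_sum, mul_sum]
  have hpow : (0 : ℝ) < (J : ℝ) ^ l := by positivity
  have h6 := le_of_mul_le_mul_left hfin hpow
  rw [hsum]
  have h7 : l * (1 - l * κ / 2) * ((∑ v ∈ V, d v) / J) * J =
      l * (1 - l * κ / 2) * ∑ v ∈ V, d v := by
    field_simp
  rw [← h7]
  nlinarith [mul_le_mul_of_nonneg_right h6 hJ0.le]

end LocTr
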