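import Pool.Agent.Work.MP_a8cb64_co.LS6a

/-!
MP_a8cb64_co, Theorem G, module S6 (helper80): the covering lemma.
The statements of S4 and S5 are Props here (`GreedyRectStmt`, `LightSumStmt`).
-/

namespace LocTr

open Finset

def GreedyRectStmt : Prop :=
  ∀ (J l m' : ℕ) (c : ℝ) (W : Finset ℕ) (R : ℕ → Finset ℕ) (κ : ℝ), 0 < κ →
    κ ≤ 1 → 1 ≤ l → 1 ≤ m' → (∀ j < J, R j ⊆ W) → 2 * l ≤ κ * J →
    (W.card : ℝ) ≤ c → (m' : ℝ) ≤ κ * (κ / 2) ^ l * (2 * κ * c) →
      ∃ Q : Finset (Finset ℕ × Finset ℕ), ∃ R' : ℕ → Finset ℕ,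
      (∀ p ∈ Q, p.1 ⊆ range J ∧ p.1.card = l ∧ p.2.card = m') ∧
      (∀ j < J, R' j ⊆ R j) ∧ (∀ j < J, ∀ v ∈ R j, v ∈ R' j ∨ ∃ p ∈ Q, j ∈ p.1 ∧ v ∈ p.2) ∧
      (∑ j ∈ range J, ((R' j).card : ℝ)) ≤ 2 * κ * J * c ∧
      (Q.card : ℝ) * (l * m') ≤ ∑ j ∈ range J, ((R j).card : ℝ)

def LightSumStmt : Prop :=
  ∀ (J l : ℕ) (L : ℕ → Finset ℕ) (κ z : ℝ), 1 ≤ J → 0 ≤ κ →
    (∀ v : ℕ, (((range J).filter fun j => v ∈ L j).card : ℝ) ≤ κ * J) →
    (∀ S ⊆ range J, S.card ≤ l → ((S.biUnion L).card : ℝ) ≤ z) →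
    l * (1 - l * κ / 2) * ∑ j ∈ range J, ((L j).card : ℝ) ≤ J * z

/-- double counting: a point of degree at least `κ J` for `κ J > 0`. -/
theorem heavy_card (J : ℕ) (L : ℕ → Finset ℕ) (κ b : ℝ) (W : Finset ℕ)
    (hb : ∀ j < J, ((L j).card : ℝ) ≤ b)
    (hW : ∀ v ∈ W, κ * J ≤ (((range J).filter fun j => v ∈ L j).card : ℝ)) :
    (W.card : ℝ) * (κ * J) ≤ J * b := by
  classical
  have h1 : ∑ v ∈ W, (((range J).filter fun j => v ∈ L j).card : ℝ) =
      ∑ j ∈ range J, ((W.filter fun v => v ∈ L j).card : ℝ) := by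
    have := sum_card_bipartiteAbove_eq_sum_card_bipartiteBelow (s := W) (t := range J)
      (fun v j => v ∈ L j)
    unfold bipartiteAbove bipartiteBelow at this
    exact_mod_cast this
  have h2 : (W.card : ℝ) * (κ * J) ≤ ∑ v ∈ W, (((range J).filter fun j => v ∈ L j).card : ℝ) := by
    have := card_nsmul_le_sum W (fun v => (((range J).filter fun j => v ∈ L j).card : ℝ))
      (κ * J) hW
    simpa [nsmul_eq_mul] using this
  have h3 : ∑ j ∈ range J, ((W.filter fun v => v ∈ L j).card : ℝ) ≤ ∑ j ∈ range J, b := by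
    refine sum_le_sum fun j hj => ?_
    refine le_trans ?_ (hb j (mem_range.1 hj))
    exact_mod_cast card_le_card fun v hv => (mem_filter.1 hv).2
  rw [sum_const, card_range, nsmul_eq_mul] at h3
  linarith [h1.le, h1.ge]

/-- S6 (the covering lemma) from S4 and S5. -/
theorem cover_lists_of (h4 : GreedyRectStmt) (h5 : LightSumStmt) (ρ η : ℝ) (hρ : 0 < ρ)
    (hρ1 : ρ ≤ 1 / 8) (hη : 0 < η) (hη1 : η ≤ ρ) :
    ∃ C : ℕ, ∀ (r m J : ℕ) (b z : ℝ) (L : ℕ → Finset ℕ), C ≤ m → C * m ≤ r →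
      (J : ℝ) * ⌊η * m⌋₊ ≤ 3 * r → 0 ≤ b → b ≤ 2 * r → 0 ≤ z → z ≤ 2 * r →
      (∀ j < J, ((L j).card : ℝ) ≤ b) →
      (∀ S ⊆ range J, (S.card : ℝ) * ⌊η * m⌋₊ ≤ (1 - ρ) * m → ((S.biUnion L).card : ℝ) ≤ z) →
      ∃ Q : Finset (Finset ℕ × Finset ℕ),
        (∀ p ∈ Q, p.1.card * ⌊η * m⌋₊ + p.2.card ≤ m) ∧
        (∀ j < J, ∀ v ∈ L j, ∃ p ∈ Q, j ∈ p.1 ∧ v ∈ p.2) ∧
        (Q.card : ℝ) ≤ J * ⌊η * m⌋₊ * z / m ^ 2 + 50 * b * r / m ^ 2 +
          60 * ρ * ((r : ℝ) / m) ^ 2 := by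
  classical
  obtain ⟨κ, hκ⟩ : ∃ κ : ℝ, κ = ρ * η := ⟨_, rfl⟩
  have hκ0 : 0 < κ := by rw [hκ]; positivity
  obtain ⟨κ2, hκ2⟩ : ∃ κ2 : ℝ, κ2 = κ * (ρ * η) / 28 := ⟨_, rfl⟩
  have hκ20 : 0 < κ2 := by rw [hκ2]; positivity
  have hη8 : η ≤ 1 / 8 := hη1.trans hρ1
  have hρη : ρ * η ≤ 1 / 64 := by nlinarith
  have hκ21 : κ2 ≤ 1 := by rw [hκ2, hκ]; nlinarith
  obtain ⟨N, hN⟩ : ∃ N : ℕ, N = ⌈1 / η⌉₊ := ⟨_, rfl⟩
  obtain ⟨K, hK⟩ : ∃ K : ℝ, K = κ2 * (κ2 / 2) ^ N * (2 * κ2 * (2 / κ)) := ⟨_, rfl⟩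
  have hK0 : 0 < K := by rw [hK]; positivity
  obtain ⟨C, hC⟩ : ∃ C : ℕ, C = ⌈2 / η + 8 + 6 / (ρ * η) + 5 / (ρ * η * κ2) + 1 / K⌉₊ :=
    ⟨_, rfl⟩
  have hCge : 2 / η + 8 + 6 / (ρ * η) + 5 / (ρ * η * κ2) + 1 / K ≤ (C : ℝ) := by
    rw [hC]; exact Nat.le_ceil _
  have p1 : 0 < 2 / η := by positivity
  have p2 : 0 < 6 / (ρ * η) := by positivity
  have p3 : 0 < 5 / (ρ * η * κ2) := by positivity
  have p4 : 0 < 1 / K := by positivity
  refine ⟨C, ?_⟩
  intro r m J b z L hCm hCr hJh hb0 hb2 hz0 hz2 hLb hLz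
  have hmC : (C : ℝ) ≤ m := by exact_mod_cast hCm
  have hm8 : (8 : ℝ) ≤ m := by linarith
  have hmpos : (0 : ℝ) < m := by linarith
  have hm8' : 8 ≤ m := by exact_mod_cast hm8
  have hηm : 2 ≤ η * m := by
    have : 2 / η ≤ m := by linarith
    rw [div_le_iff₀ hη] at this
    linarith
  obtain ⟨h, hh⟩ : ∃ h : ℕ, h = ⌊η * m⌋₊ := ⟨_, rfl⟩
  rw [← hh] at hJh hLz ⊢
  have hh1 : (h : ℝ) ≤ η * m := by
    rw [hh]; exact Nat.floor_le (by positivity)
  have hh2 : η * m / 2 ≤ h := by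
    have := (Nat.lt_floor_add_one (η * m)).le
    rw [← hh] at this
    linarith
  have hhpos : (0 : ℝ) < h := by linarith
  have hh8 : (h : ℝ) ≤ m / 8 := by nlinarith
  have hhm : (h : ℝ) ≤ ρ * m := hh1.trans (by nlinarith)
  obtain ⟨x, hx⟩ : ∃ x : ℝ, x = (r : ℝ) / m := ⟨_, rfl⟩
  have hrx : (r : ℝ) = x * m := by rw [hx]; field_simp
  have hxC : (C : ℝ) ≤ x := by
    rw [hx, le_div_iff₀ hmpos]; exact_mod_cast hCr
  have hxpos : 0 < x := by linarith
  rw [← hx]
  -- the number of groups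
  have hJ6 : (J : ℝ) ≤ 6 * x / η := by
    rw [le_div_iff₀ hη]
    have h1 : (J : ℝ) * (η * m / 2) ≤ 3 * (x * m) := by
      rw [← hrx]
      exact (mul_le_mul_of_nonneg_left hh2 (by positivity)).trans hJh
    have h2 : (J : ℝ) * η * m ≤ 6 * x * m := by linarith
    exact le_of_mul_le_mul_right h2 hmpos
  have hx6 : 6 / (ρ * η) ≤ x := by linarith
  have hJx : (J : ℝ) ≤ ρ * x ^ 2 := by
    refine hJ6.trans ?_
    rw [div_le_iff₀ (by positivity)] at hx6
    rw [div_le_iff₀ hη]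
    nlinarith
  by_cases hJ0 : J = 0
  · refine ⟨∅, by simp, ?_, ?_⟩
    · intro j hj
      omega
    · have : 0 ≤ (J : ℝ) * h * z / m ^ 2 + 50 * b * r / m ^ 2 + 60 * ρ * x ^ 2 := by positivity
      simpa using this
  have hJ1 : 1 ≤ J := Nat.one_le_iff_ne_zero.2 hJ0
  -- light and heavy parts
  set D : ℕ → ℝ := fun v => (((range J).filter fun j => v ∈ L j).card : ℝ) with hD
  set L1 : ℕ → Finset ℕ := fun j => (L j).filter fun v => D v ≤ κ * J with hL1
  set L2 : ℕ → Finset ℕ := fun j => (L j).filter fun v => ¬ D v ≤ κ * J with hL2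
  -- the room left by one group
  obtain ⟨t, ht⟩ : ∃ t : ℕ, t = m - h := ⟨_, rfl⟩
  have hhm' : h ≤ m := by
    have : (h : ℝ) ≤ m := by linarith
    exact_mod_cast this
  have htr : (t : ℝ) = m - h := by rw [ht, Nat.cast_sub hhm']
  have htρ : (1 - ρ) * m ≤ t := by rw [htr]; linarith
  have ht78 : 7 / 8 * (m : ℝ) ≤ t := by rw [htr]; linarith
  have htpos : (0 : ℝ) < t := by linarith
  have ht1 : 1 ≤ t := by
    have : (0 : ℕ) < t := by exact_mod_cast htpos
    exact this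
  -- light part
  obtain ⟨Q1, hQ1a, hQ1b, hQ1c⟩ := single_rects J t ht1 L1
  have hlight : (∑ j ∈ range J, ((L1 j).card : ℝ)) * (1 - 4 * ρ) ≤ J * h * z / m * (1 - ρ) := by
    obtain ⟨l, hl⟩ : ∃ l : ℕ, l = ⌊(1 - ρ) * m / h⌋₊ := ⟨_, rfl⟩
    have hl1 : (l : ℝ) ≤ (1 - ρ) * m / h := by
      rw [hl]
      refine Nat.floor_le ?_
      have : 0 ≤ 1 - ρ := by linarith
      positivity
    have hl1' : (l : ℝ) * h ≤ (1 - ρ) * m := by rwa [le_div_iff₀ hhpos] at hl1
    have hl2 : (1 - ρ) * m / h ≤ l + 1 := by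
      rw [hl]; exact (Nat.lt_floor_add_one _).le
    have hl2' : (1 - ρ) * m ≤ (l + 1) * h := by rwa [div_le_iff₀ hhpos] at hl2
    have hl3 : (1 - 2 * ρ) * m ≤ l * h := by nlinarith
    have hlκ : (l : ℝ) * κ / 2 ≤ ρ := by
      -- `l ≤ 2 (1-ρ)/η`
      have h1 : (l : ℝ) * (η * m / 2) ≤ (1 - ρ) * m :=
        (mul_le_mul_of_nonneg_left hh2 (by positivity)).trans hl1'
      have h2 : (l : ℝ) * η * m ≤ 2 * m := by nlinarith
      have h3 : (l : ℝ) * η ≤ 2 := le_of_mul_le_mul_right h2 hmpos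
      rw [hκ]
      nlinarith
    have hs := h5 J l L1 κ z hJ1 hκ0.le (by
      intro v
      by_cases hv : D v ≤ κ * J
      · refine le_trans ?_ hv
        simp only [hD]
        exact_mod_cast card_le_card (by
          intro j hj
          rw [mem_filter] at hj ⊢
          exact ⟨hj.1, (mem_filter.1 hj.2).1⟩)
      · have : ((range J).filter fun j => v ∈ L1 j) = ∅ := by
          refine filter_eq_empty_iff.2 fun j hj hvj => hv (mem_filter.1 hvj).2
        rw [this]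
        simp
        positivity) (by
      intro S hS hSl
      have h1 : (S.card : ℝ) * h ≤ (1 - ρ) * m := by
        refine le_trans (mul_le_mul_of_nonneg_right ?_ hhpos.le) hl1'
        exact_mod_cast hSl
      refine le_trans ?_ (hLz S hS h1)
      exact_mod_cast card_le_card (biUnion_mono fun j _ => filter_subset _ _))
    set Λ : ℝ := ∑ j ∈ range J, ((L1 j).card : ℝ) with hΛ
    have hΛ0 : 0 ≤ Λ := sum_nonneg fun j _ => Nat.cast_nonneg _
    -- `(1-2ρ)(1-ρ) m/h Λ ≤ J z`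
    have h1 : (l : ℝ) * (1 - ρ) * Λ ≤ J * z := by
      refine le_trans ?_ hs
      refine mul_le_mul_of_nonneg_right ?_ hΛ0
      refine mul_le_mul_of_nonneg_left ?_ (by positivity)
      linarith
    have h2 : (1 - 2 * ρ) * m * ((1 - ρ) * Λ) ≤ J * h * z := by
      have h3 : (l : ℝ) * h * ((1 - ρ) * Λ) ≤ J * h * z := by
        have := mul_le_mul_of_nonneg_right h1 hhpos.le
        linarith
      refine le_trans (mul_le_mul_of_nonneg_right hl3 ?_) h3
      exact mul_nonneg (by linarith) hΛ0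
    have h4' : (1 - 2 * ρ) * (1 - ρ) * Λ ≤ J * h * z / m := by
      rw [le_div_iff₀ hmpos]
      linarith
    have h5' : (1 - 4 * ρ) * Λ ≤ (1 - 2 * ρ) * (1 - ρ) * Λ * (1 - ρ) := by
      have h6 : (1 - 4 * ρ) ≤ (1 - 2 * ρ) * (1 - ρ) * (1 - ρ) := by
        have h7 : 0 ≤ ρ ^ 2 * (5 - 2 * ρ) := mul_nonneg (by positivity) (by linarith)
        linarith
      have := mul_le_mul_of_nonneg_right h6 hΛ0
      linarith
    have h6' : (1 - 2 * ρ) * (1 - ρ) * Λ * (1 - ρ) ≤ J * h * z / m * (1 - ρ) :=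
      mul_le_mul_of_nonneg_right h4' (by linarith)
    linarith
  have hQ1d : (Q1.card : ℝ) ≤ J * h * z / m ^ 2 + 49 * ρ * x ^ 2 := by
    set Λ : ℝ := ∑ j ∈ range J, ((L1 j).card : ℝ) with hΛ
    have hΛ0 : 0 ≤ Λ := sum_nonneg fun j _ => Nat.cast_nonneg _
    -- `Λ / t ≤ Λ / ((1-ρ) m)`
    have hρ1' : 0 < 1 - ρ := by linarith
    have h1 : Λ / t ≤ Λ / ((1 - ρ) * m) :=
      div_le_div_of_nonneg_left hΛ0 (by positivity) htρ
    -- main term
    set M : ℝ := J * h * z / m ^ 2 with hM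
    have hM0 : 0 ≤ M := by positivity
    have h2 : Λ / ((1 - ρ) * m) * (1 - 4 * ρ) ≤ M := by
      rw [div_mul_eq_mul_div, div_le_iff₀ (by positivity)]
      refine hlight.trans (le_of_eq ?_)
      rw [hM]
      field_simp
    have hM6 : M ≤ 6 * x ^ 2 := by
      rw [hM, div_le_iff₀ (by positivity)]
      have h3 : (J : ℝ) * h * z ≤ 3 * r * (2 * r) := by
        exact mul_le_mul hJh hz2 hz0 (by positivity)
      rw [hrx] at h3
      nlinarith
    have h3 : Λ / ((1 - ρ) * m) ≤ M * (1 + 8 * ρ) := by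
      have h4' : 0 < 1 - 4 * ρ := by linarith
      have h5' : M ≤ M * (1 + 8 * ρ) * (1 - 4 * ρ) := by
        have h6 : 1 ≤ (1 + 8 * ρ) * (1 - 4 * ρ) := by nlinarith
        have := mul_le_mul_of_nonneg_left h6 hM0
        linarith
      exact le_of_mul_le_mul_right (h2.trans h5') h4'
    have h4' : M * (8 * ρ) ≤ 48 * ρ * x ^ 2 := by
      have := mul_le_mul_of_nonneg_right hM6 (by positivity : (0:ℝ) ≤ 8 * ρ)
      linarith
    linarith
  -- heavy part
  have hQ2 : ∃ Q : Finset (Finset ℕ × Finset ℕ),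
      (∀ p ∈ Q, p.1.card * h + p.2.card ≤ m) ∧
      (∀ j < J, ∀ v ∈ L2 j, ∃ p ∈ Q, j ∈ p.1 ∧ v ∈ p.2) ∧
      (Q.card : ℝ) ≤ 50 * b * r / m ^ 2 + 2 * ρ * x ^ 2 := by
    obtain ⟨l, hl⟩ : ∃ l : ℕ, l = m / (2 * h) := ⟨_, rfl⟩
    have hhpos' : 0 < h := by exact_mod_cast hhpos
    have hlh : l * h ≤ m / 2 := by
      rw [hl, Nat.le_div_iff_mul_le (by norm_num)]
      have := Nat.div_mul_le_self m (2 * h)
      calc m / (2 * h) * h * 2 = m / (2 * h) * (2 * h) := by ring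
        _ ≤ m := this
    have hlη : (l : ℝ) ≤ 1 / η := by
      have h1 : ((l * h : ℕ) : ℝ) ≤ m / 2 := by
        refine le_trans (Nat.cast_le.2 hlh) ?_
        have := @Nat.cast_div_le ℝ _ _ _ m 2
        simpa using this
      push_cast at h1
      have h2 : (l : ℝ) * (η * m / 2) ≤ m / 2 :=
        (mul_le_mul_of_nonneg_left hh2 (by positivity)).trans h1
      rw [le_div_iff₀ hη]
      have h3 : (l : ℝ) * η * m ≤ 1 * m := by linarith
      exact le_of_mul_le_mul_right h3 hmpos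
    have hl38 : 3 / 8 * (m : ℝ) ≤ l * h := by
      have h1 : m < (l + 1) * (2 * h) := by
        rw [hl]
        exact Nat.lt_mul_of_div_lt (Nat.lt_succ_self _) (by omega)
      have h2 : (m : ℝ) ≤ (l + 1) * (2 * h) := by exact_mod_cast h1.le
      nlinarith
    have hm'38 : 3 / 8 * (m : ℝ) ≤ ((m / 2 : ℕ) : ℝ) := by
      have h1 : m ≤ 2 * (m / 2) + 1 := by omega
      have h2 : (m : ℝ) ≤ 2 * ((m / 2 : ℕ) : ℝ) + 1 := by exact_mod_cast h1
      linarith
    have hl1 : 1 ≤ l := by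
      rcases Nat.eq_zero_or_pos l with h0 | h0
      · rw [h0] at hl38
        simp at hl38
        linarith
      · exact h0
    by_cases hcase : (2 * l : ℝ) ≤ κ2 * J
    · -- Case 2
      set W : Finset ℕ := (range J).biUnion L2 with hW
      have hWc : (W.card : ℝ) ≤ 2 * r / κ := by
        have h1 := heavy_card J L κ b W hLb (by
          intro v hv
          obtain ⟨j, hj, hvj⟩ := mem_biUnion.1 hv
          have := (mem_filter.1 hvj).2
          exact (not_le.1 this).le)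
        have hJpos : (0 : ℝ) < J := by exact_mod_cast hJ1
        rw [le_div_iff₀ hκ0]
        have h2 : (W.card : ℝ) * κ * J ≤ b * J := by linarith
        have h3 := le_of_mul_le_mul_right h2 hJpos
        linarith
      obtain ⟨Qa, R', hQa, hR', hcov, hR'sum, hQaC⟩ := h4 J l (m / 2) (2 * r / κ) W L2 κ2 hκ20
        hκ21 hl1 (by omega) (fun j hj => subset_biUnion_of_mem L2 (mem_range.2 hj)) hcase hWc (by
          have h1 : ((m / 2 : ℕ) : ℝ) ≤ m := by
            exact_mod_cast Nat.div_le_self m 2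
          refine h1.trans ?_
          have h2 : (κ2 / 2) ^ N ≤ (κ2 / 2) ^ l := by
            refine pow_le_pow_of_le_one (by positivity) (by linarith) ?_
            have : (l : ℝ) ≤ N := hlη.trans (by rw [hN]; exact Nat.le_ceil _)
            exact_mod_cast this
          have h3 : κ2 * (κ2 / 2) ^ N * (2 * κ2 * (2 * r / κ)) ≤
              κ2 * (κ2 / 2) ^ l * (2 * κ2 * (2 * r / κ)) := by gcongr
          refine le_trans ?_ h3
          have h4' : κ2 * (κ2 / 2) ^ N * (2 * κ2 * (2 * r / κ)) = K * r := by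
            rw [hK]; ring
          rw [h4', hrx]
          have h5' : 1 ≤ K * x := by
            have : 1 / K ≤ x := by linarith
            rwa [div_le_iff₀ hK0, mul_comm] at this
          nlinarith)
      obtain ⟨Qb, hQba, hQbb, hQbc⟩ := single_rects J t ht1 R'
      refine ⟨Qa ∪ Qb, ?_, ?_, ?_⟩
      · intro p hp
        rcases mem_union.1 hp with hp | hp
        · obtain ⟨-, h1, h2⟩ := hQa p hp
          rw [h1, h2]
          omega
        · obtain ⟨h1, h2⟩ := hQba p hp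
          rw [h1]
          omega
      · intro j hj v hv
        rcases hcov j hj v hv with h1 | ⟨p, hp, h1, h2⟩
        · obtain ⟨p, hp, h2, h3⟩ := hQbb j hj v h1
          exact ⟨p, mem_union_right _ hp, h2, h3⟩
        · exact ⟨p, mem_union_left _ hp, h1, h2⟩
      · have h1 : (((Qa ∪ Qb).card : ℕ) : ℝ) ≤ Qa.card + Qb.card := by
          exact_mod_cast card_union_le Qa Qb
        -- `|Qa|`
        have h2 : (Qa.card : ℝ) ≤ 50 * b * r / m ^ 2 := by
          have h3 : ∑ j ∈ range J, ((L2 j).card : ℝ) ≤ J * b := by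
            have h4' : ∑ j ∈ range J, ((L2 j).card : ℝ) ≤ ∑ j ∈ range J, b := by
              refine sum_le_sum fun j hj => ?_
              refine le_trans ?_ (hLb j (mem_range.1 hj))
              exact_mod_cast card_le_card (filter_subset _ _)
            rw [sum_const, card_range, nsmul_eq_mul] at h4'
            exact h4'
          have h5' : (Qa.card : ℝ) * (3 / 8 * m * (3 / 8 * m)) ≤ J * b * h := by
            have h6 : (Qa.card : ℝ) * (3 / 8 * m * (3 / 8 * m)) ≤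
                Qa.card * (l * h * ((m / 2 : ℕ) : ℝ)) := by
              refine mul_le_mul_of_nonneg_left ?_ (Nat.cast_nonneg _)
              exact mul_le_mul hl38 hm'38 (by positivity) (by positivity)
            have h7 : (Qa.card : ℝ) * (l * h * ((m / 2 : ℕ) : ℝ)) =
                Qa.card * (l * ((m / 2 : ℕ) : ℝ)) * h := by ring
            rw [h7] at h6
            exact h6.trans (mul_le_mul_of_nonneg_right (hQaC.trans h3) hhpos.le)
          have h8 : (J : ℝ) * b * h ≤ 3 * r * b := by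
            have := mul_le_mul_of_nonneg_right hJh hb0
            linarith
          rw [le_div_iff₀ (by positivity)]
          have h9 : (0 : ℝ) ≤ b * r := by positivity
          nlinarith
        -- `|Qb|`
        have h3 : (Qb.card : ℝ) ≤ 2 * ρ * x ^ 2 := by
          have h4' : (∑ j ∈ range J, ((R' j).card : ℝ)) / t ≤ ρ * x ^ 2 := by
            rw [div_le_iff₀ htpos]
            refine hR'sum.trans ?_
            have h5' : 2 * κ2 * J * (2 * r / κ) ≤ 2 * κ2 * (6 * x / η) * (2 * r / κ) := by gcongr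
            refine h5'.trans ?_
            have h6 : 2 * κ2 * (6 * x / η) * (2 * r / κ) = 24 / 28 * ρ * x ^ 2 * m := by
              rw [hκ2, hrx]
              field_simp
              ring
            rw [h6]
            have h7 : ρ * x ^ 2 * (7 / 8 * m) ≤ ρ * x ^ 2 * t := by gcongr
            have h8 : 0 ≤ ρ * x ^ 2 * m := by positivity
            linarith
          linarith
        linarith
    · -- Case 1
      obtain ⟨Qb, hQba, hQbb, hQbc⟩ := single_rects J t ht1 L2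
      refine ⟨Qb, ?_, hQbb, ?_⟩
      · intro p hp
        obtain ⟨h1, h2⟩ := hQba p hp
        rw [h1]
        omega
      · have hJs : κ2 * J ≤ 2 / η := by
          have := (not_le.1 hcase).le
          have h1 : (2 * l : ℝ) ≤ 2 / η := by
            have h2 := mul_le_mul_of_nonneg_left hlη (by norm_num : (0:ℝ) ≤ 2)
            have h3 : 2 * (1 / η) = 2 / η := by ring
            linarith
          linarith
        have h3 : ∑ j ∈ range J, ((L2 j).card : ℝ) ≤ J * b := by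
          have h4' : ∑ j ∈ range J, ((L2 j).card : ℝ) ≤ ∑ j ∈ range J, b := by
            refine sum_le_sum fun j hj => ?_
            refine le_trans ?_ (hLb j (mem_range.1 hj))
            exact_mod_cast card_le_card (filter_subset _ _)
          rw [sum_const, card_range, nsmul_eq_mul] at h4'
          exact h4'
        have h4' : (∑ j ∈ range J, ((L2 j).card : ℝ)) / t ≤ ρ * x ^ 2 := by
          rw [div_le_iff₀ htpos]
          refine h3.trans ?_
          -- `J b ≤ J 2 r`, `κ2 J ≤ 2/η`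
          have h5' : (J : ℝ) * b ≤ J * (2 * (x * m)) := by
            rw [← hrx]; gcongr
          have h6 : (J : ℝ) ≤ 2 / (η * κ2) := by
            rw [le_div_iff₀ (by positivity)]
            rw [le_div_iff₀ hη] at hJs
            linarith
          have h7 : 5 / (ρ * η * κ2) ≤ x := by linarith
          rw [div_le_iff₀ (by positivity)] at h7
          have h8 : (J : ℝ) * (2 * (x * m)) ≤ 2 / (η * κ2) * (2 * (x * m)) := by gcongr
          have h9 : 2 / (η * κ2) * (2 * (x * m)) ≤ 4 / 5 * (ρ * x ^ 2 * m) := by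
            have h10 : 2 / (η * κ2) * (2 * (x * m)) = 4 * (x * m) / (η * κ2) := by ring
            rw [h10, div_le_iff₀ (by positivity)]
            have h11 := mul_le_mul_of_nonneg_left h7 (by positivity : (0:ℝ) ≤ 4 / 5 * (x * m))
            linarith
          have h12 : ρ * x ^ 2 * (7 / 8 * m) ≤ ρ * x ^ 2 * t := by gcongr
          have h13 : 0 ≤ ρ * x ^ 2 * m := by positivity
          linarith
        have h14 : 0 ≤ 50 * b * r / (m : ℝ) ^ 2 := by positivity
        linarith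
  obtain ⟨Q2, hQ2a, hQ2b, hQ2c⟩ := hQ2
  refine ⟨Q1 ∪ Q2, ?_, ?_, ?_⟩
  · intro p hp
    rcases mem_union.1 hp with hp | hp
    · obtain ⟨h1, h2⟩ := hQ1a p hp
      rw [h1]
      omega
    · exact hQ2a p hp
  · intro j hj v hv
    by_cases hvD : D v ≤ κ * J
    · obtain ⟨p, hp, h1, h2⟩ := hQ1b j hj v (mem_filter.2 ⟨hv, hvD⟩)
      exact ⟨p, mem_union_left _ hp, h1, h2⟩
    · obtain ⟨p, hp, h1, h2⟩ := hQ2b j hj v (mem_filter.2 ⟨hv, hvD⟩)
      exact ⟨p, mem_union_right _ hp, h1, h2⟩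
  · have h1 : (((Q1 ∪ Q2).card : ℕ) : ℝ) ≤ Q1.card + Q2.card := by
      exact_mod_cast card_union_le Q1 Q2
    have h2 : 0 ≤ ρ * x ^ 2 := by positivity
    linarith

end LocTr
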