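import Pool.Agent.Work.MP_a8cb64_co.SDefs

/-!
MP_a8cb64_co: cutting a finite set into pieces (helper80, split off from `LS6.lean`).
-/

namespace LocTr

open Finset

/-- cut a set of at most `n t` points into `n` pieces of at most `t` points. -/
theorem chunks6 (t n : ℕ) : ∀ L : Finset ℕ, L.card ≤ n * t →
    ∃ P : Finset (Finset ℕ), P.card ≤ n ∧ (∀ T ∈ P, T.card ≤ t) ∧ ∀ v ∈ L, ∃ T ∈ P, v ∈ T := by
  classical
  induction n with
  | zero =>
    intro L hL
    refine ⟨∅, by simp, by simp, ?_⟩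
    intro v hv
    have : 0 < L.card := card_pos.2 ⟨v, hv⟩
    omega
  | succ n ih =>
    intro L hL
    by_cases h : L.card ≤ t
    · refine ⟨{L}, by simp, by simpa using h, ?_⟩
      intro v hv
      exact ⟨L, mem_singleton_self L, hv⟩
    · obtain ⟨T, hTL, hT⟩ := exists_subset_card_eq (s := L) (n := t) (by omega)
      obtain ⟨P, hP, hPt, hPc⟩ := ih (L \ T) (by
        rw [card_sdiff_of_subset hTL, hT]
        rw [Nat.add_mul] at hL
        omega)
      refine ⟨insert T P, (card_insert_le T P).trans (by omega), ?_, ?_⟩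
      · intro U hU
        rcases mem_insert.1 hU with rfl | hU
        · exact hT.le
        · exact hPt U hU
      · intro v hv
        by_cases hvT : v ∈ T
        · exact ⟨T, mem_insert_self T P, hvT⟩
        · obtain ⟨U, hU, hvU⟩ := hPc v (mem_sdiff.2 ⟨hv, hvT⟩)
          exact ⟨U, mem_insert_of_mem hU, hvU⟩

/-- the rectangles `{j} × T'`. -/
theorem single_rects (J t : ℕ) (ht : 1 ≤ t) (L : ℕ → Finset ℕ) :
    ∃ Q : Finset (Finset ℕ × Finset ℕ), (∀ p ∈ Q, p.1.card = 1 ∧ p.2.card ≤ t) ∧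
      (∀ j < J, ∀ v ∈ L j, ∃ p ∈ Q, j ∈ p.1 ∧ v ∈ p.2) ∧
      (Q.card : ℝ) ≤ (∑ j ∈ range J, ((L j).card : ℝ)) / t + J := by
  classical
  have hc : ∀ j, ∃ P : Finset (Finset ℕ), P.card ≤ (L j).card / t + 1 ∧ (∀ T ∈ P, T.card ≤ t) ∧
      ∀ v ∈ L j, ∃ T ∈ P, v ∈ T := by
    intro j
    refine chunks6 t _ (L j) ?_
    have h1 := Nat.div_add_mod (L j).card t
    have h2 := Nat.mod_lt (L j).card ht
    rw [Nat.add_mul, Nat.mul_comm ((L j).card / t) t]
    omega
  choose P hP hPt hPc using hc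
  refine ⟨(range J).biUnion fun j => (P j).image fun T => ({j}, T), ?_, ?_, ?_⟩
  · intro p hp
    obtain ⟨j, hj, hp⟩ := mem_biUnion.1 hp
    obtain ⟨T, hT, rfl⟩ := mem_image.1 hp
    exact ⟨card_singleton j, hPt j T hT⟩
  · intro j hj v hv
    obtain ⟨T, hT, hvT⟩ := hPc j v hv
    exact ⟨({j}, T), mem_biUnion.2 ⟨j, mem_range.2 hj, mem_image_of_mem _ hT⟩,
      mem_singleton_self j, hvT⟩
  · have h1 : ((range J).biUnion fun j => (P j).image fun T => (({j} : Finset ℕ), T)).card ≤
        ∑ j ∈ range J, ((L j).card / t + 1) := by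
      refine card_biUnion_le.trans (sum_le_sum fun j hj => ?_)
      exact card_image_le.trans (hP j)
    have h2 : (((range J).biUnion fun j => (P j).image fun T => (({j} : Finset ℕ), T)).card : ℝ) ≤
        ∑ j ∈ range J, (((L j).card : ℝ) / t + 1) := by
      refine le_trans (Nat.cast_le.2 h1) ?_
      push_cast
      refine sum_le_sum fun j hj => ?_
      have := @Nat.cast_div_le ℝ _ _ _ (L j).card t
      linarith
    rw [sum_add_distrib, ← sum_div] at h2
    simpa using h2

end LocTr
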