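import Pool.Agent.Work.MP_a8cb64_co.LS4
import Pool.Agent.Work.MP_a8cb64_co.LS5
import Pool.Agent.Work.MP_a8cb64_co.LS6

/-!
MP_a8cb64_co, Theorem G, module S6 (helper80): the covering lemma, unconditional.
-/

namespace LocTr

open Finset

theorem cover_lists (ρ η : ℝ) (hρ : 0 < ρ) (hρ1 : ρ ≤ 1 / 8) (hη : 0 < η) (hη1 : η ≤ ρ) :
    ∃ C : ℕ, ∀ (r m J : ℕ) (b z : ℝ) (L : ℕ → Finset ℕ), C ≤ m → C * m ≤ r →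
      (J : ℝ) * ⌊η * m⌋₊ ≤ 3 * r → 0 ≤ b → b ≤ 2 * r → 0 ≤ z → z ≤ 2 * r →
      (∀ j < J, ((L j).card : ℝ) ≤ b) →
      (∀ S ⊆ range J, (S.card : ℝ) * ⌊η * m⌋₊ ≤ (1 - ρ) * m → ((S.biUnion L).card : ℝ) ≤ z) →
      ∃ Q : Finset (Finset ℕ × Finset ℕ),
        (∀ p ∈ Q, p.1.card * ⌊η * m⌋₊ + p.2.card ≤ m) ∧
        (∀ j < J, ∀ v ∈ L j, ∃ p ∈ Q, j ∈ p.1 ∧ v ∈ p.2) ∧
        (Q.card : ℝ) ≤ J * ⌊η * m⌋₊ * z / m ^ 2 + 50 * b * r / m ^ 2 +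
          60 * ρ * ((r : ℝ) / m) ^ 2 :=
  cover_lists_of
    (fun J l m' c W R κ h1 h2 h3 h4 h5 h6 h7 h8 =>
      greedy_rect J l m' c W R κ h1 h2 h3 h4 h5 h6 h7 h8)
    (fun J l L κ z h1 h2 h3 h4 => light_sum J l L κ z h1 h2 h3 h4) ρ η hρ hρ1 hη hη1

end LocTr
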