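import Pool.Agent.Work.MP_a8cb64_co.SDefs

/-!
MP_a8cb64_co, Theorem G (helper72, note 2406): module S7 (helper23).
The pair design.
-/

namespace LocTr

open Finset

/-- cells of `w` points. -/
theorem cell_card (A : Finset ℕ) (w : ℕ) (hw : 1 ≤ w) (K : ℕ) :
    (A.filter fun u => (A.filter (· < u)).card / w = K).card ≤ w := by
  have hmono : ∀ x ∈ A, ∀ y, x < y → (A.filter (· < x)).card < (A.filter (· < y)).card := by
    intro x hx y hxy
    apply card_lt_card
    refine ⟨fun z hz => ?_, fun h => ?_⟩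
    · rw [mem_filter] at hz ⊢
      exact ⟨hz.1, hz.2.trans hxy⟩
    · have := (mem_filter.1 (h (mem_filter.2 ⟨hx, hxy⟩))).2
      exact lt_irrefl _ this
  calc (A.filter fun u => (A.filter (· < u)).card / w = K).card ≤ (range w).card := by
        apply card_le_card_of_injOn (fun u => (A.filter (· < u)).card % w)
        · intro u _
          rw [coe_range, Set.mem_Iio]
          exact Nat.mod_lt _ hw
        · intro x hx y hy hxy
          have hx' := mem_filter.1 hx
          have hy' := mem_filter.1 hy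
          have h6 : (A.filter (· < x)).card = (A.filter (· < y)).card := by
            rw [← Nat.div_add_mod (A.filter (· < x)).card w,
              ← Nat.div_add_mod (A.filter (· < y)).card w, hx'.2, hy'.2]
            simp only at hxy
            rw [hxy]
          rcases lt_trichotomy x y with h | h | h
          · have := hmono x hx'.1 y h
            omega
          · exact h
          · have := hmono y hy'.1 x h
            omega
    _ = w := card_range w

/-- a set whose points lie in `g` cells. -/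
theorem card_of_cells (A T : Finset ℕ) (w : ℕ) (hw : 1 ≤ w) (KK : Finset ℕ) (hT : T ⊆ A)
    (hK : ∀ u ∈ T, (A.filter (· < u)).card / w ∈ KK) : T.card ≤ KK.card * w := by
  classical
  have h1 : T ⊆ KK.biUnion fun K => A.filter fun u => (A.filter (· < u)).card / w = K := by
    intro u hu
    exact mem_biUnion.2 ⟨_, hK u hu, mem_filter.2 ⟨hT hu, rfl⟩⟩
  exact (card_le_card h1).trans (card_biUnion_le_card_mul _ _ _ fun K _ => cell_card A w hw K)

/-- combinatorial part of the design. -/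
theorem design_comb (A : Finset ℕ) (h N m G : ℕ) (hh : 1 ≤ h) (hN : ∃ K, N = K * (2 * h).factorial + 1)
    (hm : 2 * h ≤ m) (hA : A.card ≤ N * (m - 2 * h)) (_hG : G = 2 * h) :
    ∃ Q : Finset (Finset ℕ), (∀ T ∈ Q, T.card ≤ m) ∧
      (∀ u ∈ A, ∀ v ∈ A, ∃ T ∈ Q, u ∈ T ∧ v ∈ T) ∧
      Q.card ≤ N ^ 2 + 2 * h * (N / h + 1) ^ 2 := by
  classical
  obtain ⟨K0, hK0⟩ := hN
  have hN1 : 1 ≤ N := by omega
  have : NeZero N := ⟨by omega⟩
  have hgN : 0 < 2 * h * N := Nat.mul_pos (by omega) hN1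
  set w : ℕ := A.card / (2 * h * N) + 1 with hw
  have hw1 : 1 ≤ w := Nat.le_add_left 1 _
  have hwm : 2 * h * w ≤ m := by
    have h1 : 2 * h * (A.card / (2 * h * N)) ≤ m - 2 * h := by
      have h2 : 2 * h * (A.card / (2 * h * N)) * N ≤ (m - 2 * h) * N := by
        calc 2 * h * (A.card / (2 * h * N)) * N = (A.card / (2 * h * N)) * (2 * h * N) := by ring
          _ ≤ A.card := Nat.div_mul_le_self _ _
          _ ≤ (m - 2 * h) * N := by rw [mul_comm]; exact hA
      exact Nat.le_of_mul_le_mul_right h2 hN1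
    calc 2 * h * w = 2 * h * (A.card / (2 * h * N)) + 2 * h := by rw [hw]; ring
      _ ≤ (m - 2 * h) + 2 * h := Nat.add_le_add_right h1 _
      _ = m := Nat.sub_add_cancel hm
  set cell : ℕ → ℕ := fun u => (A.filter (· < u)).card / w with hcell
  have hcelllt : ∀ u ∈ A, cell u < 2 * h * N := by
    intro u hu
    have h1 : (A.filter (· < u)).card < A.card := by
      apply card_lt_card
      refine ⟨filter_subset _ _, fun h => ?_⟩
      exact lt_irrefl _ (mem_filter.1 (h hu)).2
    have h2 : A.card < 2 * h * N * w := by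
      rw [hw]
      exact Nat.lt_mul_div_succ _ hgN
    exact Nat.div_lt_of_lt_mul (by rw [mul_comm]; exact h1.trans h2)
  -- first family
  set T1 : ZMod N × ZMod N → Finset ℕ := fun p =>
    A.filter fun u => ((cell u % N : ℕ) : ZMod N) = p.1 * ((cell u / N : ℕ) : ZMod N) + p.2 with hT1
  set T2 : ℕ × ℕ × ℕ → Finset ℕ := fun p =>
    A.filter fun u => cell u / N = p.1 ∧ (cell u % N / h = p.2.1 ∨ cell u % N / h = p.2.2) with hT2
  refine ⟨univ.image T1 ∪ (range (2 * h) ×ˢ (range (N / h + 1) ×ˢ range (N / h + 1))).image T2,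
    ?_, ?_, ?_⟩
  · intro T hT
    rcases mem_union.1 hT with hT' | hT'
    · obtain ⟨p, -, rfl⟩ := mem_image.1 hT'
      have h1 := card_of_cells A (T1 p) w hw1
        ((range (2 * h)).image fun i => i * N + (p.1 * ((i : ℕ) : ZMod N) + p.2).val)
        (filter_subset _ _) (by
          intro u hu
          obtain ⟨huA, hu2⟩ := mem_filter.1 hu
          refine mem_image.2 ⟨cell u / N, mem_range.2 ?_, ?_⟩
          · exact Nat.div_lt_of_lt_mul (by rw [mul_comm]; exact hcelllt u huA)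
          · rw [← hu2, ZMod.val_natCast, Nat.mod_mod, mul_comm]
            exact Nat.div_add_mod (cell u) N)
      refine h1.trans (le_trans (Nat.mul_le_mul_right _ card_image_le) ?_)
      rw [card_range]
      exact hwm
    · obtain ⟨p, -, rfl⟩ := mem_image.1 hT'
      have h1 := card_of_cells A (T2 p) w hw1
        (((range h).image fun c => p.1 * N + (p.2.1 * h + c)) ∪
          ((range h).image fun c => p.1 * N + (p.2.2 * h + c)))
        (filter_subset _ _) (by
          intro u hu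
          obtain ⟨huA, hu1, hu2⟩ := mem_filter.1 hu
          have h3 : cell u / N * N + cell u % N = cell u := by
            rw [mul_comm]; exact Nat.div_add_mod _ _
          have h4 : cell u % N / h * h + cell u % N % h = cell u % N := by
            rw [mul_comm]; exact Nat.div_add_mod _ _
          have h5 : cell u % N % h < h := Nat.mod_lt _ hh
          rcases hu2 with hu2 | hu2
          · refine mem_union_left _ (mem_image.2 ⟨cell u % N % h, mem_range.2 h5, ?_⟩)
            rw [← hu1, ← hu2, h4, h3]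
          · refine mem_union_right _ (mem_image.2 ⟨cell u % N % h, mem_range.2 h5, ?_⟩)
            rw [← hu1, ← hu2, h4, h3])
      refine h1.trans (le_trans (Nat.mul_le_mul_right _ ?_) hwm)
      refine (card_union_le _ _).trans ?_
      have h2 : ∀ f : ℕ → ℕ, ((range h).image f).card ≤ h := fun f =>
        card_image_le.trans (card_range h).le
      have h3 := h2 fun c => p.1 * N + (p.2.1 * h + c)
      have h4 := h2 fun c => p.1 * N + (p.2.2 * h + c)
      omega
  · intro u hu v hv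
    by_cases hcol : cell u / N = cell v / N
    · refine ⟨T2 (cell u / N, cell u % N / h, cell v % N / h), mem_union_right _
        (mem_image_of_mem _ ?_), ?_, ?_⟩
      · rw [mem_product, mem_product]
        have h1 : ∀ z, cell z % N / h ∈ range (N / h + 1) := by
          intro z
          rw [mem_range]
          exact Nat.lt_succ_of_le (Nat.div_le_div_right (Nat.mod_lt _ hN1).le)
        exact ⟨mem_range.2 (Nat.div_lt_of_lt_mul (by rw [mul_comm]; exact hcelllt u hu)),
          h1 u, h1 v⟩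
      · exact mem_filter.2 ⟨hu, rfl, Or.inl rfl⟩
      · exact mem_filter.2 ⟨hv, hcol.symm, Or.inr rfl⟩
    · set i := cell u / N with hi
      set j := cell v / N with hj
      have hilt : i < 2 * h := Nat.div_lt_of_lt_mul (by rw [mul_comm]; exact hcelllt u hu)
      have hjlt : j < 2 * h := Nat.div_lt_of_lt_mul (by rw [mul_comm]; exact hcelllt v hv)
      have hunit : ∀ a b : ℕ, a < 2 * h → b < a → IsUnit ((a : ZMod N) - (b : ZMod N)) := by
        intro a b ha hb
        have h1 : ((a : ZMod N) - (b : ZMod N)) = ((a - b : ℕ) : ZMod N) := by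
          rw [Nat.cast_sub hb.le]
        rw [h1, ZMod.isUnit_iff_coprime]
        have h2 : (a - b) ∣ (2 * h).factorial := Nat.dvd_factorial (by omega) (by omega)
        have h3 : Nat.Coprime (2 * h).factorial N := by
          rw [hK0]
          have : Nat.Coprime (2 * h).factorial (1 + K0 * (2 * h).factorial) :=
            (Nat.coprime_add_mul_right_right _ _ _).2 (Nat.coprime_one_right _)
          rwa [add_comm] at this
        exact Nat.Coprime.coprime_dvd_left h2 h3
      have hun : IsUnit ((i : ZMod N) - (j : ZMod N)) := by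
        rcases lt_or_gt_of_ne hcol with hlt | hgt
        · have := hunit j i hjlt hlt
          have h4 : ((i : ZMod N) - (j : ZMod N)) = -((j : ZMod N) - (i : ZMod N)) := by ring
          rw [h4]
          exact this.neg
        · exact hunit i j hilt hgt
      obtain ⟨y, hy⟩ := hun.exists_left_inv
      set c : ZMod N := ((cell u % N : ℕ) : ZMod N) with hc
      set d : ZMod N := ((cell v % N : ℕ) : ZMod N) with hd
      refine ⟨T1 ((c - d) * y, c - (c - d) * y * i), mem_union_left _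
        (mem_image_of_mem _ (mem_univ _)), ?_, ?_⟩
      · refine mem_filter.2 ⟨hu, ?_⟩
        simp only
        rw [← hi, ← hc]
        ring
      · refine mem_filter.2 ⟨hv, ?_⟩
        simp only
        rw [← hj, ← hd]
        have h5 : (c - d) * y * i - (c - d) * y * j = c - d := by
          calc (c - d) * y * i - (c - d) * y * j = (c - d) * (y * ((i : ZMod N) - j)) := by ring
            _ = c - d := by rw [hy, mul_one]
        calc d = c - (c - d) := by ring
          _ = c - ((c - d) * y * i - (c - d) * y * j) := by rw [h5]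
          _ = (c - d) * y * j + (c - (c - d) * y * i) := by ring
  · refine (card_union_le _ _).trans (Nat.add_le_add ?_ ?_)
    · refine card_image_le.trans ?_
      rw [card_univ, Fintype.card_prod, ZMod.card, pow_two]
    · refine card_image_le.trans ?_
      rw [card_product, card_product, card_range, card_range, pow_two]

theorem design_num1 (δ : ℝ) (h0 : 0 < δ) (h1 : δ ≤ 1) : (1 + δ / 4) * (1 + δ / 8) ^ 2 ≤ 1 + δ := by
  have h2 : δ ^ 2 ≤ δ := by nlinarith
  have h3 : δ ^ 3 ≤ δ := by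
    calc δ ^ 3 = δ ^ 2 * δ := by ring
      _ ≤ δ * δ := by gcongr
      _ = δ ^ 2 := by ring
      _ ≤ δ := h2
  nlinarith

theorem design_num2 (δ : ℝ) (h0 : 0 < δ) (h1 : δ ≤ 1) :
    (1 + δ / 4) * (2 * (1 + δ / 8)) ≤ 8 := by
  have h2 : δ ^ 2 ≤ 1 := by nlinarith
  nlinarith

theorem design_num3 (G S h x : ℝ) (hG : 0 ≤ G) (hS : 0 ≤ S) (hh : 0 ≤ h) (hx : 0 ≤ x) :
    (8 * G + 8) * x + (2 * G ^ 2 + 4 * G + 2 * h) ≤
      (8 * G + 8 + (2 * G ^ 2 + 4 * G + 2 * h) + S) * (x + 1) := by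
  have h1 : 0 ≤ (2 * G ^ 2 + 4 * G + 2 * h + S) * x := by positivity
  have h2 : (8 * G + 8 + (2 * G ^ 2 + 4 * G + 2 * h) + S) * (x + 1) -
      ((8 * G + 8) * x + (2 * G ^ 2 + 4 * G + 2 * h)) =
      (2 * G ^ 2 + 4 * G + 2 * h + S) * x + (8 * G + 8 + S) := by ring
  have h3 : 0 ≤ 8 * G + 8 + S := by positivity
  linarith

/-- S7 (file `LS7.lean`).  The pair design (note 2406, (5)).  `g` large (`9/g ≤ ε/2`),
`N ≡ 1 mod g!`, `a/(m-g) ≤ N ≤ a/(m-g) + g!`; cells `(i,c) ∈ [g] × Z_N` of size `≤ ⌈a/(gN)⌉`,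
blocks `{(i, s i + b) : i < g}` for `s, b ∈ Z_N`, and unions of two super-cells (`⌊g/2⌋` cells)
inside every column. -/
theorem pair_design (ε : ℝ) (hε : 0 < ε) : ∃ C : ℕ, ∀ (m : ℕ) (A : Finset ℕ), C ≤ m →
    ∃ Q : Finset (Finset ℕ), (∀ T ∈ Q, T.card ≤ m) ∧
      (∀ u ∈ A, ∀ v ∈ A, ∃ T ∈ Q, u ∈ T ∧ v ∈ T) ∧
      (Q.card : ℝ) ≤ (1 + ε) * ((A.card : ℝ) / m) ^ 2 + C * ((A.card : ℝ) / m + 1) := by
  set δ : ℝ := min ε 1 with hδ
  have hδ0 : 0 < δ := lt_min hε one_pos
  have hδ1 : δ ≤ 1 := min_le_right _ _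
  have hδε : δ ≤ ε := min_le_left _ _
  set h : ℕ := ⌈8 / δ⌉₊ with hh
  have hh8 : 8 / δ ≤ h := Nat.le_ceil _
  have hhr : (0 : ℝ) < h := lt_of_lt_of_le (by positivity) hh8
  have hh1 : 1 ≤ h := by exact_mod_cast hhr
  have h2h : 2 / (h : ℝ) ≤ δ / 4 := by
    rw [div_le_iff₀ hδ0] at hh8
    rw [div_le_iff₀ hhr]
    linarith
  set G : ℕ := (2 * h).factorial + 1 with hG
  set C : ℕ := 8 * G + 8 + (2 * G ^ 2 + 4 * G + 2 * h) + ⌈2 * h + 16 * h / δ⌉₊ with hC
  refine ⟨C, fun m A hm => ?_⟩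
  have hmC : (2 * h + 16 * h / δ : ℝ) ≤ m := by
    calc (2 * h + 16 * h / δ : ℝ) ≤ (⌈2 * h + 16 * h / δ⌉₊ : ℝ) := Nat.le_ceil _
      _ ≤ m := by
          have : ⌈2 * h + 16 * h / δ⌉₊ ≤ m := by omega
          exact_mod_cast this
  have h16 : 0 < 16 * (h : ℝ) / δ := by positivity
  have hm2h : 2 * h < m := by
    have : (2 * (h : ℝ)) < m := by linarith
    exact_mod_cast this
  have hm0 : (0 : ℝ) < m := by
    have : 0 < m := by omega
    exact_mod_cast this
  set a : ℕ := A.card with ha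
  set N : ℕ := (a / (m - 2 * h) / (2 * h).factorial + 1) * (2 * h).factorial + 1 with hN
  have hfac : 0 < (2 * h).factorial := Nat.factorial_pos _
  have hNlow : a / (m - 2 * h) < N := by
    have h1 : a / (m - 2 * h) <
        (a / (m - 2 * h) / (2 * h).factorial + 1) * (2 * h).factorial := by
      have h2 := Nat.lt_mul_div_succ (a / (m - 2 * h)) hfac
      rwa [Nat.mul_comm (2 * h).factorial] at h2
    omega
  have hNup : N ≤ a / (m - 2 * h) + G := by
    have h1 : a / (m - 2 * h) / (2 * h).factorial * (2 * h).factorial ≤ a / (m - 2 * h) :=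
      Nat.div_mul_le_self _ _
    rw [hN, hG, Nat.add_mul, Nat.one_mul]
    omega
  have haN : a ≤ N * (m - 2 * h) := by
    have h1 : a < (m - 2 * h) * N := by
      have h2 := Nat.lt_mul_div_succ a (show 0 < m - 2 * h by omega)
      exact h2.trans_le (Nat.mul_le_mul_left _ hNlow)
    rw [mul_comm]
    exact h1.le
  obtain ⟨Q, hQ1, hQ2, hQ3⟩ := design_comb A h N m (2 * h) hh1 ⟨_, hN⟩ hm2h.le haN rfl
  refine ⟨Q, hQ1, hQ2, ?_⟩
  set x : ℝ := (a : ℝ) / m with hx
  have hx0 : 0 ≤ x := by positivity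
  -- upper bound for N
  have hN1 : (N : ℝ) ≤ (1 + δ / 8) * x + G := by
    have h1 : (N : ℝ) ≤ ((a / (m - 2 * h) : ℕ) : ℝ) + G := by exact_mod_cast hNup
    have h2 : ((a / (m - 2 * h) : ℕ) : ℝ) ≤ (a : ℝ) / ((m - 2 * h : ℕ) : ℝ) := Nat.cast_div_le
    have h3 : ((m - 2 * h : ℕ) : ℝ) = (m : ℝ) - 2 * h := by
      rw [Nat.cast_sub hm2h.le]; push_cast; ring
    have h4 : (0 : ℝ) < (m : ℝ) - 2 * h := by linarith
    have h5 : (a : ℝ) / ((m : ℝ) - 2 * h) ≤ (1 + δ / 8) * x := by
      rw [hx, div_le_iff₀ h4]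
      have h6 : (m : ℝ) ≤ (1 + δ / 8) * (m - 2 * h) := by
        have h7 : 16 * (h : ℝ) / δ ≤ m - 2 * h := by linarith
        rw [div_le_iff₀ hδ0] at h7
        linarith
      calc (a : ℝ) = a / m * m := by field_simp
        _ ≤ a / m * ((1 + δ / 8) * (m - 2 * h)) := by gcongr
        _ = (1 + δ / 8) * (a / m) * (m - 2 * h) := by ring
    rw [h3] at h2
    linarith
  have hQ4 : (Q.card : ℝ) ≤ (N : ℝ) ^ 2 + 2 * h * ((N : ℝ) / h + 1) ^ 2 := by
    calc (Q.card : ℝ) ≤ ((N ^ 2 + 2 * h * (N / h + 1) ^ 2 : ℕ) : ℝ) := by exact_mod_cast hQ3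
      _ = (N : ℝ) ^ 2 + 2 * h * (((N / h : ℕ) : ℝ) + 1) ^ 2 := by push_cast; ring
      _ ≤ _ := by
          have : ((N / h : ℕ) : ℝ) ≤ (N : ℝ) / h := Nat.cast_div_le
          gcongr
  have hexp : (N : ℝ) ^ 2 + 2 * h * ((N : ℝ) / h + 1) ^ 2 =
      (1 + 2 / h) * (N : ℝ) ^ 2 + 4 * N + 2 * h := by
    field_simp
    ring
  rw [hexp] at hQ4
  have hG0 : (0 : ℝ) ≤ G := Nat.cast_nonneg _
  have hN0 : (0 : ℝ) ≤ N := Nat.cast_nonneg _
  have hNsq : (N : ℝ) ^ 2 ≤ ((1 + δ / 8) * x + G) ^ 2 := by gcongr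
  have hC' : (C : ℝ) = 8 * G + 8 + (2 * (G : ℝ) ^ 2 + 4 * G + 2 * h) +
      (⌈2 * h + 16 * h / δ⌉₊ : ℝ) := by
    rw [hC]; push_cast; ring
  have hceil0 : (0 : ℝ) ≤ (⌈2 * (h : ℝ) + 16 * h / δ⌉₊ : ℝ) := Nat.cast_nonneg _
  have hCx : (8 * G + 8 : ℝ) * x + (2 * (G : ℝ) ^ 2 + 4 * G + 2 * h) ≤ C * (x + 1) := by
    rw [hC']
    exact design_num3 _ _ _ _ hG0 hceil0 hhr.le hx0
  have h2h0 : 0 ≤ 2 / (h : ℝ) := by positivity
  have hmain : (1 + 2 / h) * (N : ℝ) ^ 2 ≤ (1 + δ) * x ^ 2 + 8 * G * x + 2 * (G : ℝ) ^ 2 := by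
    calc (1 + 2 / h) * (N : ℝ) ^ 2 ≤ (1 + δ / 4) * ((1 + δ / 8) * x + G) ^ 2 := by gcongr
      _ = (1 + δ / 4) * (1 + δ / 8) ^ 2 * x ^ 2 + (1 + δ / 4) * (2 * (1 + δ / 8)) * (G * x) +
          (1 + δ / 4) * (G : ℝ) ^ 2 := by ring
      _ ≤ (1 + δ) * x ^ 2 + 8 * (G * x) + 2 * (G : ℝ) ^ 2 := by
          have e1 := mul_le_mul_of_nonneg_right (design_num1 δ hδ0 hδ1) (sq_nonneg x)
          have e2 := mul_le_mul_of_nonneg_right (design_num2 δ hδ0 hδ1)
            (mul_nonneg hG0 hx0)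
          have e3 : (1 + δ / 4) * (G : ℝ) ^ 2 ≤ 2 * (G : ℝ) ^ 2 :=
            mul_le_mul_of_nonneg_right (by linarith) (sq_nonneg _)
          linarith
      _ = _ := by ring
  have hδx : (1 + δ) * x ^ 2 ≤ (1 + ε) * x ^ 2 := by gcongr
  have h4N : 4 * (N : ℝ) ≤ 8 * x + 4 * G := by
    have h5 : δ / 8 * x ≤ 1 * x := mul_le_mul_of_nonneg_right (by linarith) hx0
    linarith
  linarith

end LocTr
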