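import Pool.Agent.Work.MP_a8cb64_co.SDefs

/-!
MP_a8cb64_co, Theorem G, module S8 (helper72): `core_main`, assembly of S1, S2, S6
(note 2406, (1)-(3), (6)).
-/

namespace LocTr

open Finset

/-- the statement of S1. -/
def CoreStmt : Prop := ∀ (H : Finset (Finset ℕ)) (r m D : ℕ) (_ : ∀ e ∈ H, e.card = r)
    (_ : NoTr H m) (_ : 1 ≤ D) (T : Finset ℕ) (_ : T.card ≤ m),
    ∃ F ⊆ H, ∃ I : Finset ℕ, (F.card : ℝ) ≤ r / D + 1 ∧ (∀ e ∈ F, Disjoint e T) ∧
      (∀ x, x ∈ I ↔ ∀ e ∈ F, x ∈ e) ∧ ∀ e ∈ H, Disjoint e T → (I \ e).card ≤ D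

/-- the statement of S2. -/
def FlatStmt : Prop := ∀ (H : Finset (Finset ℕ)) (r m h q : ℕ) (D : ℕ → ℕ)
    (_ : ∀ e ∈ H, e.card = r) (_ : NoTr H m) (_ : 1 ≤ q) (_ : q * h ≤ m) (_ : Monotone D),
    ∃ i < q, ∃ T0 A : Finset ℕ, T0.card ≤ i * h ∧
      (∀ e ∈ H, Disjoint e T0 → (A \ e).card ≤ D i) ∧
      ∀ P I : Finset ℕ, P.card ≤ h → (∀ e ∈ H, Disjoint e (T0 ∪ P) → (I \ e).card ≤ D (i + 1)) →
        q * I.card ≤ q * A.card + (r + D q)

/-- the statement of S6. -/
def CoverListsStmt : Prop := ∀ (ρ η : ℝ) (_ : 0 < ρ) (_ : ρ ≤ 1 / 8) (_ : 0 < η) (_ : η ≤ ρ),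
    ∃ C : ℕ, ∀ (r m J : ℕ) (b z : ℝ) (L : ℕ → Finset ℕ), C ≤ m → C * m ≤ r →
      (J : ℝ) * ⌊η * m⌋₊ ≤ 3 * r → 0 ≤ b → b ≤ 2 * r → 0 ≤ z → z ≤ 2 * r →
      (∀ j < J, ((L j).card : ℝ) ≤ b) →
      (∀ S ⊆ range J, (S.card : ℝ) * ⌊η * m⌋₊ ≤ (1 - ρ) * m → ((S.biUnion L).card : ℝ) ≤ z) →
      ∃ Q : Finset (Finset ℕ × Finset ℕ),
        (∀ p ∈ Q, p.1.card * ⌊η * m⌋₊ + p.2.card ≤ m) ∧
        (∀ j < J, ∀ v ∈ L j, ∃ p ∈ Q, j ∈ p.1 ∧ v ∈ p.2) ∧
        (Q.card : ℝ) ≤ J * ⌊η * m⌋₊ * z / m ^ 2 + 50 * b * r / m ^ 2 +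
          60 * ρ * ((r : ℝ) / m) ^ 2

/-- cutting a set into groups. -/
theorem exists_groups (h : ℕ) (J : ℕ) : ∀ B : Finset ℕ, B.card ≤ J * h →
    ∃ P : ℕ → Finset ℕ, (∀ j, (P j).card ≤ h) ∧ ∀ u ∈ B, ∃ j < J, u ∈ P j := by
  induction J with
  | zero =>
    intro B hB
    have hB0 : B = ∅ := by
      rw [← Finset.card_eq_zero]
      omega
    exact ⟨fun _ => ∅, by simp, by simp [hB0]⟩
  | succ J ih =>
    intro B hB
    by_cases hc : B.card ≤ h
    · refine ⟨fun _ => B, fun _ => hc, fun u hu => ⟨0, by omega, hu⟩⟩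
    · obtain ⟨S, hS, hSc⟩ := Finset.exists_subset_card_eq (n := h) (s := B) (by omega)
      have h1 : (B \ S).card ≤ J * h := by
        rw [card_sdiff_of_subset hS, hSc]
        rw [Nat.succ_mul] at hB
        omega
      obtain ⟨P, hP, hPu⟩ := ih (B \ S) h1
      refine ⟨fun j => if j = J then S else P j, ?_, ?_⟩
      · intro j
        dsimp only
        split_ifs
        · exact hSc.le
        · exact hP j
      · intro u hu
        by_cases huS : u ∈ S
        · exact ⟨J, by omega, by simp [huS]⟩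
        · obtain ⟨j, hj, huj⟩ := hPu u (mem_sdiff.2 ⟨hu, huS⟩)
          refine ⟨j, by omega, ?_⟩
          dsimp only
          rw [if_neg (by omega)]
          exact huj

theorem core_main_of (h1 : CoreStmt) (h2 : FlatStmt) (h6 : CoverListsStmt) (ρ : ℝ) (hρ : 0 < ρ) :
    ∃ C : ℕ, ∀ (r m : ℕ), C ≤ m → C * m ≤ r →
    ∀ H : Finset (Finset ℕ), (∀ e ∈ H, e.card = r) → NoTr H m →
    ∃ T0 A : Finset ℕ, T0.card ≤ m ∧ (∀ e ∈ H, Disjoint e T0 → ((A \ e).card : ℝ) ≤ ρ * r) ∧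
      ∀ B : Finset ℕ, B.card ≤ 2 * r →
        Kill H ((B.card : ℝ) * ((r : ℝ) - A.card) / m ^ 2 + ρ * ((r : ℝ) / m) ^ 2)
          (fun u v => u ∈ B ∧ v ∉ A) := by
  classical
  -- constants
  set ρ1 : ℝ := min ρ 1 / 1000 with hρ1d
  have hρ10 : 0 < ρ1 := by
    rw [hρ1d]
    have := lt_min hρ one_pos
    positivity
  have hρ1ρ : 1000 * ρ1 ≤ ρ := by
    rw [hρ1d]
    linarith [min_le_left ρ 1]
  have hρ11 : 1000 * ρ1 ≤ 1 := by
    rw [hρ1d]
    linarith [min_le_right ρ 1]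
  set q : ℕ := ⌈1 / ρ1⌉₊ with hqd
  have hqR : 1 / ρ1 ≤ (q : ℝ) := Nat.le_ceil _
  have hq1 : 1 ≤ q := Nat.one_le_iff_ne_zero.2 (by
    intro h0
    rw [h0] at hqR
    have : 0 < 1 / ρ1 := by positivity
    simp only [Nat.cast_zero] at hqR
    linarith)
  have hq0 : (0 : ℝ) < q := by exact_mod_cast hq1
  have hqρ : 1 / (q : ℝ) ≤ ρ1 := by
    rw [div_le_iff₀ hq0]
    rw [div_le_iff₀ hρ10] at hqR
    linarith
  set η : ℝ := ρ1 / (q + 1) with hηd
  have hη0 : 0 < η := by rw [hηd]; positivity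
  have hηq : (q : ℝ) * η ≤ ρ1 := by
    rw [hηd, mul_div_assoc', div_le_iff₀ (by positivity)]
    nlinarith
  have hηρ : η ≤ ρ1 := by
    have : η ≤ (q : ℝ) * η := by
      have : (1 : ℝ) ≤ q := by exact_mod_cast hq1
      nlinarith
    linarith
  set M : ℕ := ⌈1 / (ρ1 * η)⌉₊ with hMd
  have hMR : 1 / (ρ1 * η) ≤ (M : ℝ) := Nat.le_ceil _
  have hM0 : (0 : ℝ) < M := lt_of_lt_of_le (by positivity) hMR
  have hM1 : 1 ≤ M := by
    have : (0 : ℝ) < M := hM0
    exact_mod_cast this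
  obtain ⟨C6, h6'⟩ := h6 ρ1 η hρ10 (by linarith) hη0 hηρ
  -- the constant
  set C1 : ℕ := ⌈2 / η⌉₊ + 1 with hC1
  set C2 : ℕ := ⌈2 * ((M : ℝ) * q ^ q) / (ρ1 * η)⌉₊ + 1 with hC2
  set C3 : ℕ := ⌈6 / (η * ρ1)⌉₊ + 1 with hC3
  refine ⟨C6 + C1 + C2 + C3 + 1, fun r m hCm hCr H hr hH => ?_⟩
  have hm1 : 1 ≤ m := by omega
  have hmR : (0 : ℝ) < m := by exact_mod_cast hm1
  have hm0 : (m : ℝ) ≠ 0 := hmR.ne'
  have hC6m : C6 ≤ m := by omega
  have hC6r : C6 * m ≤ r := le_trans (Nat.mul_le_mul_right m (by omega)) hCr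
  have hC2r : (2 * ((M : ℝ) * q ^ q) / (ρ1 * η)) * m ≤ r := by
    have e1 : (C2 : ℝ) * m ≤ r := by
      exact_mod_cast le_trans (Nat.mul_le_mul_right m (by omega)) hCr
    have e2 : 2 * ((M : ℝ) * q ^ q) / (ρ1 * η) ≤ C2 := by
      rw [hC2]
      push_cast
      linarith [Nat.le_ceil (2 * ((M : ℝ) * q ^ q) / (ρ1 * η))]
    nlinarith
  have hC3r : (6 / (η * ρ1)) * m ≤ r := by
    have e1 : (C3 : ℝ) * m ≤ r := by
      exact_mod_cast le_trans (Nat.mul_le_mul_right m (by omega)) hCr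
    have e2 : 6 / (η * ρ1) ≤ C3 := by
      rw [hC3]
      push_cast
      linarith [Nat.le_ceil (6 / (η * ρ1))]
    nlinarith
  have hmr : m ≤ r := by
    have : 1 * m ≤ r := le_trans (Nat.mul_le_mul_right m (by omega)) hCr
    omega
  have hmrR : (m : ℝ) ≤ r := by exact_mod_cast hmr
  have hrR : (0 : ℝ) < r := lt_of_lt_of_le hmR hmrR
  have hρ1r : 1000 * (ρ1 * r) ≤ r := by
    calc 1000 * (ρ1 * r) = (1000 * ρ1) * r := by ring
      _ ≤ 1 * r := mul_le_mul_of_nonneg_right hρ11 hrR.le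
      _ = r := one_mul _
  have hρ1r0 : 0 < ρ1 * r := mul_pos hρ10 hrR
  -- the size of the groups
  set h : ℕ := ⌊η * m⌋₊ with hhd
  have hhle : (h : ℝ) ≤ η * m := Nat.floor_le (by positivity)
  have hhlt : η * m < h + 1 := Nat.lt_floor_add_one _
  have hηm : 2 ≤ η * m := by
    have e1 : 2 / η ≤ (m : ℝ) := by
      have e2 : (C1 : ℝ) ≤ m := by exact_mod_cast (by omega : C1 ≤ m)
      have e3 : 2 / η ≤ C1 := by
        rw [hC1]
        push_cast
        linarith [Nat.le_ceil (2 / η)]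
      linarith
    rw [div_le_iff₀ hη0] at e1
    linarith
  have hhge : η * m / 2 ≤ h := by linarith
  have hh0 : (0 : ℝ) < h := lt_of_lt_of_le (by positivity) hhge
  have hh1 : 1 ≤ h := by exact_mod_cast hh0
  have hqh : q * h ≤ m := by
    have : (q : ℝ) * h ≤ m := by
      calc (q : ℝ) * h ≤ q * (η * m) := by gcongr
        _ = (q * η) * m := by ring
        _ ≤ 1 * m := by
          apply mul_le_mul_of_nonneg_right _ hmR.le
          linarith
        _ = m := one_mul _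
    exact_mod_cast this
  -- the levels
  set D : ℕ → ℕ := fun i => M * m * q ^ i with hDd
  have hDmono : Monotone D := by
    intro i j hij
    exact Nat.mul_le_mul_left _ (Nat.pow_le_pow_right hq1 hij)
  have hDq : 2 / η * (D q : ℝ) ≤ ρ1 * r := by
    have e : (D q : ℝ) = (M : ℝ) * m * q ^ q := by simp [hDd]
    rw [e]
    have e2 : 2 / η * ((M : ℝ) * m * q ^ q) = ρ1 * ((2 * ((M : ℝ) * q ^ q) / (ρ1 * η)) * m) := by
      field_simp
    rw [e2]
    exact mul_le_mul_of_nonneg_left hC2r hρ10.le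
  have hη2 : 1 ≤ 2 / η := by
    rw [le_div_iff₀ hη0]
    linarith
  have hDq0 : (0 : ℝ) ≤ D q := Nat.cast_nonneg _
  have hDq1 : (D q : ℝ) ≤ ρ1 * r := by
    have : 1 * (D q : ℝ) ≤ 2 / η * (D q : ℝ) := mul_le_mul_of_nonneg_right hη2 hDq0
    linarith
  obtain ⟨i, hiq, T0, A, hT0, hA, hflat⟩ := h2 H r m h q D hr hH hq1 hqh hDmono
  have hDi : (D i : ℝ) ≤ D q := by exact_mod_cast hDmono hiq.le
  have hDi1 : (D (i + 1) : ℝ) ≤ D q := by exact_mod_cast hDmono (by omega : i + 1 ≤ q)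
  have hD1 : 1 ≤ D (i + 1) := by
    have : 0 < M * m * q ^ (i + 1) := by positivity
    exact this
  have hD10 : (0 : ℝ) < D (i + 1) := by exact_mod_cast hD1
  have hDii : (D (i + 1) : ℝ) = q * D i := by
    simp only [hDd]
    push_cast
    ring
  have hDM : (M : ℝ) * m ≤ D (i + 1) := by
    have : M * m ≤ M * m * q ^ (i + 1) := Nat.le_mul_of_pos_right _ (by positivity)
    exact_mod_cast this
  have hT0m : T0.card ≤ m := by
    refine hT0.trans ((Nat.mul_le_mul_right h hiq.le).trans hqh)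
  refine ⟨T0, A, hT0m, ?_, ?_⟩
  · intro e he hd
    have e1 : ((A \ e).card : ℝ) ≤ D i := by exact_mod_cast hA e he hd
    have e2 : ρ1 * r ≤ ρ * r := mul_le_mul_of_nonneg_right (by linarith) hrR.le
    linarith
  intro B hB
  have hBR : (B.card : ℝ) ≤ 2 * r := by exact_mod_cast hB
  -- groups
  set J : ℕ := B.card / h + 1 with hJd
  have hJB : B.card ≤ J * h := by
    rw [hJd]
    have := Nat.div_add_mod B.card h
    have h3 := Nat.mod_lt B.card (by omega : 0 < h)
    nlinarith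
  have hJh : (J : ℝ) * h ≤ B.card + h := by
    have : J * h ≤ B.card + h := by
      rw [hJd, Nat.add_mul, one_mul]
      have := Nat.div_mul_le_self B.card h
      omega
    exact_mod_cast this
  obtain ⟨P, hPc, hPu⟩ := exists_groups h J B hJB
  -- cores
  have hcore : ∀ j, ∃ F ⊆ H, ∃ I : Finset ℕ, (F.card : ℝ) ≤ r / (D (i + 1) : ℕ) + 1 ∧
      (∀ e ∈ F, Disjoint e (T0 ∪ P j)) ∧ (∀ x, x ∈ I ↔ ∀ e ∈ F, x ∈ e) ∧
      ∀ e ∈ H, Disjoint e (T0 ∪ P j) → (I \ e).card ≤ D (i + 1) := by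
    intro j
    apply h1 H r m (D (i + 1)) hr hH hD1
    calc (T0 ∪ P j).card ≤ T0.card + (P j).card := card_union_le _ _
      _ ≤ i * h + h := Nat.add_le_add hT0 (hPc j)
      _ = (i + 1) * h := by ring
      _ ≤ q * h := Nat.mul_le_mul_right h hiq
      _ ≤ m := hqh
  choose F hFH I hFc hFd hI hIs using hcore
  set L : ℕ → Finset ℕ := fun j => I j \ A with hLd
  -- bound for one list
  have hLb : ∀ j < J, ((L j).card : ℝ) ≤ 4 * ρ1 * r := by
    intro j _
    have e1 := hflat (P j) (I j) (hPc j) (hIs j)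
    have e2 : (q : ℝ) * (I j).card ≤ q * A.card + (r + D q) := by exact_mod_cast e1
    -- `A \ I j` is covered by the `A \ e`, `e ∈ F j`
    have e3 : A \ I j ⊆ (F j).biUnion fun e => A \ e := by
      intro x hx
      rw [mem_sdiff] at hx
      rw [hI] at hx
      obtain ⟨hxA, hxI⟩ := hx
      push Not at hxI
      obtain ⟨e, he, hxe⟩ := hxI
      exact mem_biUnion.2 ⟨e, he, mem_sdiff.2 ⟨hxA, hxe⟩⟩
    have e4 : ((A \ I j).card : ℝ) ≤ (F j).card * D i := by
      have : (A \ I j).card ≤ (F j).card * D i := by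
        refine (card_le_card e3).trans (card_biUnion_le_card_mul _ _ _ ?_)
        intro e he
        refine hA e (hFH j he) ?_
        exact (hFd j e he).mono_right subset_union_left
      exact_mod_cast this
    have e5 : ((F j).card : ℝ) * D i ≤ r / q + D i := by
      have h3 := mul_le_mul_of_nonneg_right (hFc j) (Nat.cast_nonneg (α := ℝ) (D i))
      have h4 : ((r : ℝ) / (D (i + 1) : ℕ) + 1) * D i = r / q + D i := by
        rw [hDii]
        have hDi0 : (D i : ℝ) ≠ 0 := by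
          intro h0
          rw [hDii, h0, mul_zero] at hD10
          exact lt_irrefl _ hD10
        field_simp
      linarith
    have e6 : (L j).card + (I j ∩ A).card = (I j).card := card_sdiff_add_card_inter _ _
    have e7 : (A \ I j).card + (A ∩ I j).card = A.card := card_sdiff_add_card_inter _ _
    rw [inter_comm] at e7
    have e6' : ((L j).card : ℝ) + (I j ∩ A).card = (I j).card := by exact_mod_cast e6
    have e7' : ((A \ I j).card : ℝ) + (I j ∩ A).card = A.card := by exact_mod_cast e7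
    have e8 : ((I j).card : ℝ) ≤ A.card + (r + D q) / q := by
      rw [← sub_le_iff_le_add', le_div_iff₀ hq0]
      linarith
    have e9 : ((r : ℝ) + D q) / q ≤ ρ1 * r + ρ1 * r := by
      have h3 : ((r : ℝ) + D q) / q = (r + D q) * (1 / q) := by ring
      rw [h3]
      calc ((r : ℝ) + D q) * (1 / q) ≤ (r + D q) * ρ1 := by gcongr
        _ ≤ (r + r) * ρ1 := by
          apply mul_le_mul_of_nonneg_right _ hρ10.le
          linarith
        _ = _ := by ring
    have e10 : (r : ℝ) / q ≤ ρ1 * r := by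
      have h3 : (r : ℝ) / q = r * (1 / q) := by ring
      rw [h3]
      calc (r : ℝ) * (1 / q) ≤ r * ρ1 := by gcongr
        _ = _ := by ring
    linarith
  -- bound for the unions
  have hLz : ∀ S ⊆ range J, (S.card : ℝ) * h ≤ (1 - ρ1) * m →
      ((S.biUnion L).card : ℝ) ≤ (r : ℝ) - A.card + 2 * ρ1 * r := by
    intro S _ hSh
    have e1 : (T0 ∪ S.biUnion P).card ≤ m := by
      have h3 : (T0 ∪ S.biUnion P).card ≤ i * h + S.card * h := by
        refine (card_union_le _ _).trans (Nat.add_le_add hT0 ?_)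
        exact card_biUnion_le_card_mul _ _ _ fun j _ => hPc j
      have h4 : ((i * h + S.card * h : ℕ) : ℝ) ≤ m := by
        push_cast
        have h5 : (i : ℝ) * h ≤ ρ1 * m := by
          calc (i : ℝ) * h ≤ q * (η * m) := by
                have : (i : ℝ) ≤ q := by exact_mod_cast hiq.le
                gcongr
            _ = (q * η) * m := by ring
            _ ≤ ρ1 * m := mul_le_mul_of_nonneg_right hηq hmR.le
        linarith
      exact h3.trans (by exact_mod_cast h4)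
    obtain ⟨e, he, hde⟩ := hH _ e1
    have e2 : S.biUnion L ⊆ (e \ A) ∪ S.biUnion fun j => I j \ e := by
      intro x hx
      obtain ⟨j, hj, hxj⟩ := mem_biUnion.1 hx
      simp only [hLd, mem_sdiff] at hxj
      by_cases hxe : x ∈ e
      · exact mem_union_left _ (mem_sdiff.2 ⟨hxe, hxj.2⟩)
      · exact mem_union_right _ (mem_biUnion.2 ⟨j, hj, mem_sdiff.2 ⟨hxj.1, hxe⟩⟩)
    have e3 : ((S.biUnion L).card : ℝ) ≤ (e \ A).card + S.card * D (i + 1) := by
      have h3 : (S.biUnion L).card ≤ (e \ A).card + S.card * D (i + 1) := by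
        refine (card_le_card e2).trans ((card_union_le _ _).trans (Nat.add_le_add_left ?_ _))
        apply card_biUnion_le_card_mul
        intro j hj
        apply hIs j e he
        rw [disjoint_union_right] at hde ⊢
        refine ⟨hde.1, ?_⟩
        exact hde.2.mono_right (subset_biUnion_of_mem P hj)
      exact_mod_cast h3
    have e4 : (e \ A).card + (e ∩ A).card = e.card := card_sdiff_add_card_inter _ _
    have e5 : (A \ e).card + (A ∩ e).card = A.card := card_sdiff_add_card_inter _ _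
    rw [inter_comm] at e5
    have e4' : ((e \ A).card : ℝ) + (e ∩ A).card = r := by
      rw [hr e he] at e4
      exact_mod_cast e4
    have e5' : ((A \ e).card : ℝ) + (e ∩ A).card = A.card := by exact_mod_cast e5
    have e6 : ((A \ e).card : ℝ) ≤ D i := by
      have := hA e he (hde.mono_right subset_union_left)
      exact_mod_cast this
    have e7 : (S.card : ℝ) * D (i + 1) ≤ ρ1 * r := by
      have h3 : (S.card : ℝ) ≤ 2 / η := by
        rw [le_div_iff₀ hη0]
        have h4 : (S.card : ℝ) * (η * m / 2) ≤ 1 * m := by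
          calc (S.card : ℝ) * (η * m / 2) ≤ S.card * h := by gcongr
            _ ≤ (1 - ρ1) * m := hSh
            _ ≤ 1 * m := by
              apply mul_le_mul_of_nonneg_right _ hmR.le
              linarith
        have h5 : (S.card : ℝ) * (η * m / 2) = (S.card * η / 2) * m := by ring
        rw [h5] at h4
        have h6 := le_of_mul_le_mul_right h4 hmR
        linarith
      calc (S.card : ℝ) * D (i + 1) ≤ 2 / η * D q := by gcongr
        _ ≤ ρ1 * r := hDq
    have hS0 : (D i : ℝ) ≤ ρ1 * r := by linarith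
    linarith
  -- `z`
  have hz0 : 0 ≤ (r : ℝ) - A.card + 2 * ρ1 * r := by
    have h3 := hLz ∅ (empty_subset _) (by
      simp only [card_empty, Nat.cast_zero, zero_mul]
      apply mul_nonneg _ hmR.le
      linarith)
    simp only [biUnion_empty, card_empty, Nat.cast_zero] at h3
    exact h3
  have hA0 : (0 : ℝ) ≤ A.card := Nat.cast_nonneg _
  have hηm_r : η * m ≤ ρ1 * r := by
    calc η * m ≤ ρ1 * m := mul_le_mul_of_nonneg_right hηρ hmR.le
      _ ≤ ρ1 * r := mul_le_mul_of_nonneg_left hmrR hρ10.le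
  obtain ⟨Q, hQm, hQc, hQn⟩ := h6' r m J (4 * ρ1 * r) ((r : ℝ) - A.card + 2 * ρ1 * r) L hC6m hC6r
    (by
      refine hJh.trans ?_
      linarith) (by positivity) (by linarith) hz0 (by linarith) hLb hLz
  -- the two kills
  have k1 : Kill H (J * ((r : ℝ) / (D (i + 1) : ℕ) + 1))
      (fun u v => ∃ j < J, u ∈ P j ∧ v ∉ I j) := by
    apply Kill.iUnion J
    intro j _
    refine ⟨F j, hFH j, hFc j, ?_⟩
    rintro u v ⟨hu, hv⟩
    rw [hI] at hv
    push Not at hv
    obtain ⟨e, he, hve⟩ := hv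
    refine ⟨e, he, ?_, hve⟩
    intro hue
    have := (disjoint_union_right.1 (hFd j e he)).2
    exact disjoint_left.1 this hue hu
  have k2 : Kill H Q.card (fun u v => ∃ j < J, u ∈ P j ∧ v ∈ L j) := by
    have h3 := Kill.of_sets hH (Q.image fun p => p.1.biUnion P ∪ p.2) (by
      intro T hT
      obtain ⟨p, hp, rfl⟩ := mem_image.1 hT
      refine le_trans ?_ (hQm p hp)
      refine (card_union_le _ _).trans (Nat.add_le_add_right ?_ _)
      exact card_biUnion_le_card_mul _ _ _ fun j _ => hPc j)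
    refine h3.mono ?_ ?_
    · exact_mod_cast card_image_le
    · rintro u v ⟨j, hj, hu, hv⟩
      obtain ⟨p, hp, hjp, hvp⟩ := hQc j hj v hv
      refine ⟨p.1.biUnion P ∪ p.2, mem_image_of_mem _ hp, ?_, ?_⟩
      · exact mem_union_left _ (mem_biUnion.2 ⟨j, hjp, hu⟩)
      · exact mem_union_right _ hvp
  refine (k1.or k2).mono ?_ ?_
  · -- numbers
    have hJle : (J : ℝ) ≤ 6 * r / (η * m) := by
      rw [le_div_iff₀ (by positivity)]
      have h3 : (J : ℝ) * (η * m / 2) ≤ 3 * r := by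
        calc (J : ℝ) * (η * m / 2) ≤ J * h := by gcongr
          _ ≤ B.card + h := hJh
          _ ≤ 3 * r := by linarith
      linarith
    have n1 : (J : ℝ) * ((r : ℝ) / (D (i + 1) : ℕ) + 1) ≤ 7 * ρ1 * ((r : ℝ) / m) ^ 2 := by
      have h3 : (r : ℝ) / (D (i + 1) : ℕ) ≤ ρ1 * η * (r / m) := by
        calc (r : ℝ) / (D (i + 1) : ℕ) ≤ r / (M * m) := by gcongr
          _ = (1 / M) * (r / m) := by field_simp
          _ ≤ (ρ1 * η) * (r / m) := by
            apply mul_le_mul_of_nonneg_right _ (by positivity)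
            rw [div_le_iff₀ hM0]
            rw [div_le_iff₀ (by positivity)] at hMR
            linarith
      have h4 : 1 ≤ η * ρ1 / 6 * (r / m) := by
        have h5 : (6 / (η * ρ1)) ≤ r / m := by
          rw [le_div_iff₀ hmR]
          exact hC3r
        calc (1 : ℝ) = η * ρ1 / 6 * (6 / (η * ρ1)) := by field_simp
          _ ≤ _ := by gcongr
      calc (J : ℝ) * ((r : ℝ) / (D (i + 1) : ℕ) + 1)
          ≤ (6 * r / (η * m)) * (ρ1 * η * (r / m) + η * ρ1 / 6 * (r / m)) := by gcongr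
        _ = 7 * ρ1 * ((r : ℝ) / m) ^ 2 := by
          field_simp
          ring
    have n2 : (J : ℝ) * h * ((r : ℝ) - A.card + 2 * ρ1 * r) / m ^ 2 ≤
        (B.card : ℝ) * ((r : ℝ) - A.card) / m ^ 2 + 6 * ρ1 * ((r : ℝ) / m) ^ 2 := by
      have h3 : (J : ℝ) * h * ((r : ℝ) - A.card + 2 * ρ1 * r) ≤
          (B.card : ℝ) * ((r : ℝ) - A.card) + 6 * ρ1 * r ^ 2 := by
        calc (J : ℝ) * h * ((r : ℝ) - A.card + 2 * ρ1 * r)
            ≤ (B.card + h) * ((r : ℝ) - A.card + 2 * ρ1 * r) := by gcongr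
          _ = (B.card : ℝ) * ((r : ℝ) - A.card) + (B.card : ℝ) * (2 * ρ1 * r) +
              h * ((r : ℝ) - A.card + 2 * ρ1 * r) := by ring
          _ ≤ (B.card : ℝ) * ((r : ℝ) - A.card) + (2 * r) * (2 * ρ1 * r) +
              (ρ1 * r) * (2 * r) := by
            have h4 : (h : ℝ) ≤ ρ1 * r := hhle.trans hηm_r
            have h5 : (r : ℝ) - A.card + 2 * ρ1 * r ≤ 2 * r := by linarith
            have h6 : (h : ℝ) * ((r : ℝ) - A.card + 2 * ρ1 * r) ≤ (ρ1 * r) * (2 * r) := by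
              gcongr
            have h7 : (B.card : ℝ) * (2 * ρ1 * r) ≤ (2 * r) * (2 * ρ1 * r) := by gcongr
            linarith
          _ = _ := by ring
      calc (J : ℝ) * h * ((r : ℝ) - A.card + 2 * ρ1 * r) / m ^ 2
          ≤ ((B.card : ℝ) * ((r : ℝ) - A.card) + 6 * ρ1 * r ^ 2) / m ^ 2 := by gcongr
        _ = _ := by
          field_simp
    have n3 : 50 * (4 * ρ1 * r) * (r : ℝ) / m ^ 2 = 200 * ρ1 * ((r : ℝ) / m) ^ 2 := by
      field_simp
      ring
    have n4 : 273 * ρ1 * ((r : ℝ) / m) ^ 2 ≤ ρ * ((r : ℝ) / m) ^ 2 := by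
      apply mul_le_mul_of_nonneg_right _ (by positivity)
      linarith
    rw [n3] at hQn
    linarith
  · rintro u v ⟨hu, hv⟩
    obtain ⟨j, hj, huj⟩ := hPu u hu
    by_cases hvI : v ∈ I j
    · exact Or.inr ⟨j, hj, huj, mem_sdiff.2 ⟨hvI, hv⟩⟩
    · exact Or.inl ⟨j, hj, huj, hvI⟩

end LocTr
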