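import Pool.Agent.Work.MP_a8cb64_co.SDefs

/-!
MP_a8cb64_co, Theorem G, module S9 (helper57): the main statement `(*)` of note 2406 from the pair
design (S7) and the flat core (S8).
-/

namespace LocTr

open Finset

/-- the arithmetic of S9 -/
lemma s9_arith {r m a b1 ρ : ℝ} (hm : 0 < m) (hr : 0 < r) (hρ : 0 < ρ) (hρ1 : ρ ≤ 1)
    (ha : 0 ≤ a) (ha1 : a ≤ (1 + ρ) * r) (hb : 0 ≤ b1) (hb1 : b1 ≤ r - a + ρ * r) :
    a * (r - a) / m ^ 2 + b1 * (r - a) / m ^ 2 + (1 + ρ) * (a / m) ^ 2 ≤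
      (1 + 7 * ρ) * (r / m) ^ 2 := by
  have h1 : b1 * (r - a) ≤ (r - a) ^ 2 + ρ * r ^ 2 := by
    rcases le_or_gt 0 (r - a) with h | h
    · have e1 : b1 * (r - a) ≤ (r - a + ρ * r) * (r - a) := mul_le_mul_of_nonneg_right hb1 h
      have e2 : ρ * r * (r - a) ≤ ρ * r * r := mul_le_mul_of_nonneg_left (by linarith) (by positivity)
      nlinarith
    · have e1 : b1 * (r - a) ≤ 0 := mul_nonpos_of_nonneg_of_nonpos hb h.le
      have e2 : 0 ≤ ρ * r ^ 2 := by positivity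
      nlinarith [sq_nonneg (r - a)]
  have h2 : a * (r - a) + b1 * (r - a) + (1 + ρ) * a ^ 2 ≤ (1 + 7 * ρ) * r ^ 2 := by
    have e1 : a * (r - a) + b1 * (r - a) + (1 + ρ) * a ^ 2 ≤
        r ^ 2 + a * (a - r) + ρ * a ^ 2 + ρ * r ^ 2 := by nlinarith
    have e2 : a ^ 2 ≤ 4 * r ^ 2 := by
      have : a ≤ 2 * r := by nlinarith
      nlinarith
    have e3 : a * (a - r) ≤ 2 * ρ * r ^ 2 := by
      rcases le_or_gt a r with h | h
      · have : a * (a - r) ≤ 0 := mul_nonpos_of_nonneg_of_nonpos ha (by linarith)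
        have : 0 ≤ 2 * ρ * r ^ 2 := by positivity
        linarith
      · have f1 : a - r ≤ ρ * r := by linarith
        have f2 : a ≤ 2 * r := by nlinarith
        calc a * (a - r) ≤ 2 * r * (ρ * r) := mul_le_mul f2 f1 (by linarith) (by linarith)
          _ = 2 * ρ * r ^ 2 := by ring
    have e4 : ρ * a ^ 2 ≤ ρ * (4 * r ^ 2) := mul_le_mul_of_nonneg_left e2 hρ.le
    nlinarith
  have h3 : a * (r - a) / m ^ 2 + b1 * (r - a) / m ^ 2 + (1 + ρ) * (a / m) ^ 2 =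
      (a * (r - a) + b1 * (r - a) + (1 + ρ) * a ^ 2) / m ^ 2 := by
    field_simp
  have h4 : (1 + 7 * ρ) * (r / m) ^ 2 = (1 + 7 * ρ) * r ^ 2 / m ^ 2 := by
    field_simp
  rw [h3, h4]
  exact div_le_div_of_nonneg_right h2 (by positivity)

theorem two_core_of
    (h7 : ∀ ε : ℝ, 0 < ε → ∃ C : ℕ, ∀ (m : ℕ) (A : Finset ℕ), C ≤ m →
      ∃ Q : Finset (Finset ℕ), (∀ T ∈ Q, T.card ≤ m) ∧
        (∀ u ∈ A, ∀ v ∈ A, ∃ T ∈ Q, u ∈ T ∧ v ∈ T) ∧
        (Q.card : ℝ) ≤ (1 + ε) * ((A.card : ℝ) / m) ^ 2 + C * ((A.card : ℝ) / m + 1))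
    (h8 : ∀ ρ : ℝ, 0 < ρ → ∃ C : ℕ, ∀ (r m : ℕ), C ≤ m → C * m ≤ r →
      ∀ H : Finset (Finset ℕ), (∀ e ∈ H, e.card = r) → NoTr H m →
      ∃ T0 A : Finset ℕ, T0.card ≤ m ∧ (∀ e ∈ H, Disjoint e T0 → ((A \ e).card : ℝ) ≤ ρ * r) ∧
        ∀ B : Finset ℕ, B.card ≤ 2 * r →
          Kill H ((B.card : ℝ) * ((r : ℝ) - A.card) / m ^ 2 + ρ * ((r : ℝ) / m) ^ 2)
            (fun u v => u ∈ B ∧ v ∉ A))
    (ε : ℝ) (hε : 0 < ε) : ∃ C : ℕ, ∀ (r m : ℕ), C ≤ m → C * m ≤ r →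
    ∀ H : Finset (Finset ℕ), (∀ e ∈ H, e.card = r) → NoTr H m →
    ∃ F ⊆ H, (F.card : ℝ) ≤ (1 + ε) * ((r : ℝ) / m) ^ 2 ∧
      ∀ X : Finset ℕ, X.card ≤ 2 → ∃ e ∈ F, Disjoint e X := by
  classical
  obtain ⟨ρ, hρ, hρ1, hρε⟩ : ∃ ρ : ℝ, 0 < ρ ∧ ρ ≤ 1 ∧ 10 * ρ ≤ ε :=
    ⟨min (ε / 10) 1, by positivity, min_le_right _ _, by
      have := min_le_left (ε / 10) 1
      linarith⟩
  obtain ⟨C7, hC7⟩ := h7 ρ hρ
  obtain ⟨C8, hC8⟩ := h8 ρ hρ
  obtain ⟨K, hK⟩ : ∃ K : ℕ, (3 * (C7 : ℝ) + 1) / ρ ≤ K := exists_nat_ge _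
  refine ⟨C7 + C8 + K + 1, ?_⟩
  intro r m hm hr H hH hT
  have hm1 : 1 ≤ m := by omega
  have hmR : (0 : ℝ) < m := by exact_mod_cast hm1
  obtain ⟨T0, A, hT0, hA, hB⟩ := hC8 r m (by omega)
    (le_trans (Nat.mul_le_mul_right m (by omega)) hr) H hH hT
  obtain ⟨Q, hQ1, hQ2, hQ3⟩ := hC7 m A (by omega)
  obtain ⟨e1, he1, hd1⟩ := hT T0 hT0
  have hcard1 : e1.card = r := hH e1 he1
  -- x = r / m is large
  have hx : ((3 * C7 + 1) / ρ : ℝ) ≤ (r : ℝ) / m := by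
    rw [le_div_iff₀ hmR]
    have e2 : ((K * m : ℕ) : ℝ) ≤ r := by
      exact_mod_cast le_trans (Nat.mul_le_mul_right m (by omega)) hr
    push_cast at e2
    nlinarith
  have hx1 : (1 : ℝ) ≤ (r : ℝ) / m := by
    rw [le_div_iff₀ hmR, one_mul]
    have : 1 * m ≤ r := le_trans (Nat.mul_le_mul_right m (by omega)) hr
    exact_mod_cast (by omega : m ≤ r)
  have hrR : (0 : ℝ) < r := by
    have := (one_le_div hmR).1 hx1
    linarith
  -- sizes
  have hAe := hA e1 he1 hd1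
  have hAc : (A.card : ℝ) = (A ∩ e1).card + (A \ e1).card := by
    exact_mod_cast (card_inter_add_card_sdiff A e1).symm
  have hec : (r : ℝ) = (A ∩ e1).card + (e1 \ A).card := by
    rw [← hcard1, inter_comm]
    exact_mod_cast (card_inter_add_card_sdiff e1 A).symm
  have hi0 : (0 : ℝ) ≤ (A ∩ e1).card := by positivity
  have hb0 : (0 : ℝ) ≤ (e1 \ A).card := by positivity
  have ha0 : (0 : ℝ) ≤ A.card := by positivity
  have hA2 : (A.card : ℝ) ≤ (1 + ρ) * r := by linarith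
  have hb1 : ((e1 \ A).card : ℝ) ≤ r - A.card + ρ * r := by linarith
  have hA2r : A.card ≤ 2 * r := by
    have : (A.card : ℝ) ≤ 2 * r := by nlinarith
    exact_mod_cast this
  have hb2r : (e1 \ A).card ≤ 2 * r := by
    have : (e1 \ A).card ≤ e1.card := card_le_card sdiff_subset
    omega
  have k1 := hB A hA2r
  have k2 := hB (e1 \ A) hb2r
  have k3 := Kill.of_sets hT Q hQ1
  obtain ⟨F, hF, hFc, hFk⟩ := (k1.or k2).or k3
  refine ⟨insert e1 F, insert_subset he1 hF, ?_, ?_⟩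
  · have hins : ((insert e1 F).card : ℝ) ≤ F.card + 1 := by exact_mod_cast card_insert_le e1 F
    have har := s9_arith hmR hrR hρ hρ1 ha0 hA2 hb0 hb1
    have hAm : (A.card : ℝ) / m ≤ 2 * ((r : ℝ) / m) := by
      rw [← mul_div_assoc]
      exact div_le_div_of_nonneg_right (by nlinarith) hmR.le
    have hsmall : (C7 : ℝ) * ((A.card : ℝ) / m + 1) + 1 ≤ ρ * ((r : ℝ) / m) ^ 2 := by
      have hC0 : (0 : ℝ) ≤ C7 := by positivity
      have e1 : (C7 : ℝ) * ((A.card : ℝ) / m + 1) ≤ C7 * (3 * ((r : ℝ) / m)) :=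
        mul_le_mul_of_nonneg_left (by linarith) hC0
      have e2 : (3 * (C7 : ℝ) + 1) * ((r : ℝ) / m) ≤ ρ * ((r : ℝ) / m) ^ 2 := by
        have : (3 * (C7 : ℝ) + 1) ≤ ρ * ((r : ℝ) / m) := by
          rw [div_le_iff₀ hρ] at hx
          linarith
        nlinarith
      nlinarith
    have hpos : (0 : ℝ) ≤ ((r : ℝ) / m) ^ 2 := by positivity
    have hfin : (1 + 10 * ρ) * ((r : ℝ) / m) ^ 2 ≤ (1 + ε) * ((r : ℝ) / m) ^ 2 :=
      mul_le_mul_of_nonneg_right (by linarith) hpos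
    linarith
  · intro X hX
    by_cases hXe : Disjoint e1 X
    · exact ⟨e1, mem_insert_self _ _, hXe⟩
    · rw [not_disjoint_iff] at hXe
      obtain ⟨u, hu1, huX⟩ := hXe
      obtain ⟨v, hv⟩ : ∃ v, X ⊆ {u, v} := by
        have h1 : (X.erase u).card ≤ 1 := by
          rw [card_erase_of_mem huX]; omega
        rcases Nat.lt_or_ge (X.erase u).card 1 with h2 | h2
        · have h3 : X.erase u = ∅ := card_eq_zero.1 (by omega)
          refine ⟨u, ?_⟩
          intro x hx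
          by_contra hc
          have : x ∈ X.erase u := mem_erase.2 ⟨fun h => hc (by simp [h]), hx⟩
          rw [h3] at this
          exact absurd this (notMem_empty x)
        · obtain ⟨v, hv⟩ := card_eq_one.1 (le_antisymm h1 h2)
          refine ⟨v, ?_⟩
          intro x hx
          by_cases hxu : x = u
          · simp [hxu]
          · have : x ∈ X.erase u := mem_erase.2 ⟨hxu, hx⟩
            rw [hv] at this
            simp only [mem_singleton] at this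
            simp [this]
      have key : ∃ e ∈ F, u ∉ e ∧ v ∉ e := by
        by_cases huA : u ∈ A
        · by_cases hvA : v ∈ A
          · exact hFk u v (Or.inr (hQ2 u huA v hvA))
          · exact hFk u v (Or.inl (Or.inl ⟨huA, hvA⟩))
        · by_cases hvA : v ∈ A
          · obtain ⟨e, he, h1, h2⟩ := hFk v u (Or.inl (Or.inl ⟨hvA, huA⟩))
            exact ⟨e, he, h2, h1⟩
          · exact hFk u v (Or.inl (Or.inr ⟨mem_sdiff.2 ⟨hu1, huA⟩, hvA⟩))
      obtain ⟨e, he, hue, hve⟩ := key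
      refine ⟨e, mem_insert_of_mem he, ?_⟩
      rw [disjoint_right]
      intro x hx
      have := hv hx
      simp only [mem_insert, mem_singleton] at this
      rcases this with rfl | rfl
      · exact hue
      · exact hve

end LocTr
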