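import Pool.Agent.Work.MP_a8cb64_co.LDefs

/-!
MP_a8cb64_co, Theorem A (helper72, note 2314): skeleton.  Nobody imports this file; every module
is its own file `LM1.lean`, `LM2.lean`, ... in this folder with exactly the statement below.
-/

namespace LocTr

open Finset

/-- M1 (file `LM1.lean`).  Sparse `r`-graphs by counting `L`-tuples of `r`-sets.
Proof.  `n = W r`, `M = m r`, `a = r / b` (floor), `L = n (2A)^r` or so.
* `C(M,r)/C(n,r) ≥ ((m-1)/(W-1))^r ≥ A^{-r}` since `(M-i)/(n-i) ≥ (M-r)/(n-r)` for `i < r`.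
* number of bad tuples for a fixed `Q`: `(C(n,r) - C(M,r))^L ≤ C(n,r)^L exp(-L A^{-r})`.
* number of `r`-sets `f` with `|e ∩ f| ≥ a+1`, `e` fixed: at most `2^r C(n-a-1, r-a-1)
  ≤ 2^r W^{-(a+1)} C(n,r)` as `(r-i)/(n-i) ≤ r/n = 1/W`.
* `2^n e^{-n} + L^2 2^r W^{-(a+1)} < 1`, where `b (a+1) > r`, so `W^{b(a+1)} ≥ W^r`.
(or the greedy variant: choose edges one at a time, each covering a `C(M,r)/(2C(n,r))` fraction of
the uncovered `M`-sets.) -/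
theorem exists_sparse (A b : ℕ) (hb : 1 ≤ b) : ∃ N : ℕ, ∀ r W m : ℕ, N ≤ r → N ≤ W → 2 ≤ m →
    m ≤ W → W - 1 ≤ A * (m - 1) →
    ∃ H : Finset (Finset ℕ), (∀ e ∈ H, e ⊆ range (W * r) ∧ e.card = r) ∧
      (∀ Q : Finset ℕ, Q ⊆ range (W * r) → Q.card = m * r → ∃ e ∈ H, e ⊆ Q) ∧
      (∀ e ∈ H, ∀ f ∈ H, e ≠ f → b * (e ∩ f).card ≤ r) := by
  sorry

/-- M2 (file `LM2.lean`, helper72).  The weighted greedy (potential `Ψ`). -/
theorem nibble (R : ℕ) (η : ℝ) (h0 : 0 < η) (h1 : η < 1) : ∃ δ : ℝ, 0 < δ ∧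
    ∀ (I Y : Type) [Fintype I] [DecidableEq I] [Fintype Y] [DecidableEq Y]
      (D : Y → Finset I) (r : ℕ), 1 ≤ r →
      (∀ y, (D y).card ≤ R) → (∀ y, (D y).Nonempty) →
      (∀ i, (univ.filter fun y => i ∈ D y).card = r) →
      (∀ i j, i ≠ j → ((univ.filter fun y => i ∈ D y ∧ j ∈ D y).card : ℝ) ≤ δ * r) →
      (1 : ℝ) ≤ δ * ((Fintype.card Y : ℝ) / r) →
      ∃ P : Finset Y, (P.card : ℝ) ≤ (Fintype.card Y : ℝ) / r ∧
        ((univ \ P.biUnion D).card : ℝ) ≤ 4 * R * η * Fintype.card I := by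
  sorry

/-- M3 (file `LM3.lean`).  Cut the types `D_x = {e ∈ F : x ∈ e}` into pieces of size `≤ R`,
`R ≥ 8K/ε`, and apply `nibble` with `η = ε / (32 R K)` or so (`|F| > s` w.l.o.g., so
`|Y|/r ≥ |F|/R ≥ s/R`).  One point per chosen piece and one point per uncovered edge. -/
theorem cover_lemma (K : ℕ) (ε : ℝ) (hε : 0 < ε) : ∃ b N : ℕ, 1 ≤ b ∧
    ∀ (r s : ℕ) (U : Finset ℕ) (F : Finset (Finset ℕ)), 1 ≤ r → N ≤ s →
      (∀ e ∈ F, e ⊆ U ∧ e.card = r) → (U.card : ℝ) ≤ (1 - ε) * s * r → F.card ≤ K * s →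
      (∀ e ∈ F, ∀ f ∈ F, e ≠ f → b * (e ∩ f).card ≤ r) →
      ∃ T : Finset ℕ, T.card ≤ s ∧ IsTrans F T := by
  sorry

/-- M4a (file `LM4.lean`).  The trivial matching bound: the set in the definition of `fval`
contains `r * s`. -/
theorem fval_set_mem (r k s : ℕ) (hsk : s < k) : ∀ H : Finset (Finset ℕ), (∀ e ∈ H, e.card = r) →
    LocProp k s H → ∃ T : Finset ℕ, T.card ≤ r * s ∧ IsTrans H T := by
  sorry

theorem fval_le (r k s : ℕ) (hsk : s < k) : fval r k s ≤ r * s := by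
  sorry

/-- M4b.  A construction gives a lower bound. -/
theorem lt_fval (r k s t : ℕ) (hsk : s < k) (H : Finset (Finset ℕ)) (hr : ∀ e ∈ H, e.card = r)
    (hH : LocProp k s H) (ht : ∀ T : Finset ℕ, T.card ≤ t → ¬ IsTrans H T) :
    t < fval r k s := by
  sorry

/-- M4c.  Assembly: `W = ⌊(1-ε/2)s⌋`, `m = ⌈ε s/4⌉ + 1`, `A = ⌈8/ε⌉`; `U = range (W r)`. -/
theorem theoremA (K : ℕ) (ε : ℝ) (hε : 0 < ε) : ∃ N : ℕ, ∀ r s k : ℕ, N ≤ r → N ≤ s → s < k →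
    k ≤ K * s → (1 - ε) * (r * s) ≤ (fval r k s : ℝ) ∧ (fval r k s : ℝ) ≤ r * s := by
  sorry

end LocTr
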