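import Pool.Agent.Work.MP_a8cb64_co.LDefs

/-!
MP_a8cb64_co, Theorem G (helper72, note 2406: sharp asymptotics for `s = 2`): definitions used in
the proof and their first properties.
-/

namespace LocTr

open Finset

/-- every set of at most `m` points is missed by an edge of `H`. -/
def NoTr (H : Finset (Finset ℕ)) (m : ℕ) : Prop :=
  ∀ T : Finset ℕ, T.card ≤ m → ∃ e ∈ H, Disjoint e T

/-- at most `N` edges of `H` suffice so that every pair `(u,v)` with `R u v` is missed by one of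
them. -/
def Kill (H : Finset (Finset ℕ)) (N : ℝ) (R : ℕ → ℕ → Prop) : Prop :=
  ∃ F ⊆ H, (F.card : ℝ) ≤ N ∧ ∀ u v, R u v → ∃ e ∈ F, u ∉ e ∧ v ∉ e

theorem Kill.mono {H : Finset (Finset ℕ)} {N N' : ℝ} {R R' : ℕ → ℕ → Prop} (h : Kill H N R)
    (hN : N ≤ N') (hR : ∀ u v, R' u v → R u v) : Kill H N' R' := by
  obtain ⟨F, hF, hc, hk⟩ := h
  exact ⟨F, hF, hc.trans hN, fun u v huv => hk u v (hR u v huv)⟩

theorem Kill.or {H : Finset (Finset ℕ)} {N N' : ℝ} {R R' : ℕ → ℕ → Prop} (h : Kill H N R)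
    (h' : Kill H N' R') : Kill H (N + N') (fun u v => R u v ∨ R' u v) := by
  classical
  obtain ⟨F, hF, hc, hk⟩ := h
  obtain ⟨F', hF', hc', hk'⟩ := h'
  refine ⟨F ∪ F', union_subset hF hF', ?_, ?_⟩
  · have : ((F ∪ F').card : ℝ) ≤ F.card + F'.card := by exact_mod_cast card_union_le F F'
    linarith
  · rintro u v (huv | huv)
    · obtain ⟨e, he, h1⟩ := hk u v huv
      exact ⟨e, mem_union_left _ he, h1⟩
    · obtain ⟨e, he, h1⟩ := hk' u v huv
      exact ⟨e, mem_union_right _ he, h1⟩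

/-- `J` sets of pairs, at most `N` edges each. -/
theorem Kill.iUnion {H : Finset (Finset ℕ)} {N : ℝ} (J : ℕ) {R : ℕ → ℕ → ℕ → Prop}
    (h : ∀ j < J, Kill H N (R j)) : Kill H (J * N) (fun u v => ∃ j < J, R j u v) := by
  induction J with
  | zero =>
    refine ⟨∅, by simp, by simp, ?_⟩
    rintro u v ⟨j, hj, -⟩
    exact absurd hj (Nat.not_lt_zero j)
  | succ J ih =>
    have h1 := (ih fun j hj => h j (by omega)).or (h J (by omega))
    refine h1.mono (by push_cast; linarith) ?_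
    rintro u v ⟨j, hj, hR⟩
    rcases Nat.lt_succ_iff_lt_or_eq.1 hj with h2 | h2
    · exact Or.inl ⟨j, h2, hR⟩
    · subst h2
      exact Or.inr hR

/-- a family `Q` of sets of at most `m` points: one edge for each of them. -/
theorem Kill.of_sets {H : Finset (Finset ℕ)} {m : ℕ} (hH : NoTr H m) (Q : Finset (Finset ℕ))
    (hQ : ∀ T ∈ Q, T.card ≤ m) : Kill H Q.card (fun u v => ∃ T ∈ Q, u ∈ T ∧ v ∈ T) := by
  classical
  choose! f hf using hH
  refine ⟨Q.image f, ?_, ?_, ?_⟩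
  · intro e he
    obtain ⟨T, hT, rfl⟩ := mem_image.1 he
    exact (hf T (hQ T hT)).1
  · exact_mod_cast card_image_le
  · rintro u v ⟨T, hT, hu, hv⟩
    refine ⟨f T, mem_image_of_mem f hT, ?_, ?_⟩
    · exact fun h => (disjoint_left.1 (hf T (hQ T hT)).2) h hu
    · exact fun h => (disjoint_left.1 (hf T (hQ T hT)).2) h hv

end LocTr
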