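import Pool.Agent.Work.MP_a8cb64_co.SDefs

/-!
MP_a8cb64_co, Theorem G (helper72, note 2406: sharp asymptotics for `s = 2`): skeleton.
Nobody imports this file; every module is its own file `LS1.lean`, ... in this folder with exactly
the statement below.
-/

namespace LocTr

open Finset

/-- S1 (file `LS1.lean`).  Stable cores.  Choose `F ⊆ H_T = {e ∈ H : e ∩ T = ∅}`, nonempty,
minimising `|⋂ F| + D |F|` (finite set of candidates: `H.powerset`).  Then `|I \ e| ≤ D` by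
comparing with `insert e F`, and `D |F| ≤ r + D` by comparing with a singleton. -/
theorem exists_core (H : Finset (Finset ℕ)) (r m D : ℕ) (hr : ∀ e ∈ H, e.card = r)
    (hH : NoTr H m) (hD : 1 ≤ D) (T : Finset ℕ) (hT : T.card ≤ m) :
    ∃ F ⊆ H, ∃ I : Finset ℕ, (F.card : ℝ) ≤ r / D + 1 ∧ (∀ e ∈ F, Disjoint e T) ∧
      (∀ x, x ∈ I ↔ ∀ e ∈ F, x ∈ e) ∧ ∀ e ∈ H, Disjoint e T → (I \ e).card ≤ D := by
  sorry

/-- S2 (file `LS2.lean`).  The flat core.  `g i = max {|I| : ∃ T, |T| ≤ i h, ∀ e ∈ H missing T,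
|I \ e| ≤ D i}` (bounded by `r + D i` since some `e ∈ H` misses `T`), `g` is monotone and
`g q ≤ r + D q`, so `q (g (i+1) - g i) ≤ r + D q` for some `i < q`; take `A`, `T0` for `g i`. -/
theorem exists_flat (H : Finset (Finset ℕ)) (r m h q : ℕ) (D : ℕ → ℕ)
    (hr : ∀ e ∈ H, e.card = r) (hH : NoTr H m) (hq : 1 ≤ q) (hqh : q * h ≤ m) (hD : Monotone D) :
    ∃ i < q, ∃ T0 A : Finset ℕ, T0.card ≤ i * h ∧
      (∀ e ∈ H, Disjoint e T0 → (A \ e).card ≤ D i) ∧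
      ∀ P I : Finset ℕ, P.card ≤ h → (∀ e ∈ H, Disjoint e (T0 ∪ P) → (I \ e).card ≤ D (i + 1)) →
        q * I.card ≤ q * A.card + (r + D q) := by
  sorry

/-- S3 (file `LS3.lean`).  Kővári–Sós–Turán step.  `W' = {v ∈ W : deg v ≥ κ J}` has
`|W'| ≥ κ |W|`; choose the elements of `S` one after the other: if all `v ∈ W_i` are common
neighbours of `S_i` and have degree `≥ κ J`, some `j ∉ S_i` is adjacent to at least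
`(κ/2) |W_i|` of them (`J ≥ 2 l / κ`). -/
theorem dense_step (J l : ℕ) (W : Finset ℕ) (R : ℕ → Finset ℕ) (κ : ℝ) (hκ : 0 < κ)
    (hκ1 : κ ≤ 1) (hR : ∀ j < J, R j ⊆ W) (hJ : 2 * l ≤ κ * J)
    (hd : 2 * κ * J * W.card ≤ ∑ j ∈ range J, ((R j).card : ℝ)) :
    ∃ S ⊆ range J, S.card = l ∧ ∃ T' : Finset ℕ, T' ⊆ W ∧ (∀ j ∈ S, T' ⊆ R j) ∧
      κ * (κ / 2) ^ l * W.card ≤ T'.card := by
  sorry

/-- S4 (file `LS4.lean`).  Greedy rectangles: repeat S3 (`T'` shrunk to exactly `m'` points) as long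
as at least `2 κ J c` incidences are uncovered.  Every rectangle covers `l m'` new incidences. -/
theorem greedy_rect (J l m' : ℕ) (c : ℝ) (W : Finset ℕ) (R : ℕ → Finset ℕ) (κ : ℝ) (hκ : 0 < κ)
    (hκ1 : κ ≤ 1) (hl : 1 ≤ l) (hm' : 1 ≤ m') (hR : ∀ j < J, R j ⊆ W) (hJ : 2 * l ≤ κ * J)
    (hW : (W.card : ℝ) ≤ c) (hbig : (m' : ℝ) ≤ κ * (κ / 2) ^ l * (2 * κ * c)) :
    ∃ Q : Finset (Finset ℕ × Finset ℕ), ∃ R' : ℕ → Finset ℕ,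
      (∀ p ∈ Q, p.1 ⊆ range J ∧ p.1.card = l ∧ p.2.card = m') ∧
      (∀ j < J, R' j ⊆ R j) ∧ (∀ j < J, ∀ v ∈ R j, v ∈ R' j ∨ ∃ p ∈ Q, j ∈ p.1 ∧ v ∈ p.2) ∧
      (∑ j ∈ range J, ((R' j).card : ℝ)) ≤ 2 * κ * J * c ∧
      (Q.card : ℝ) * (l * m') ≤ ∑ j ∈ range J, ((R j).card : ℝ) := by
  sorry

/-- S5 (file `LS5.lean`).  The sum of the light lists.  Average of `|⋃_{a} L (s a)|` over all
functions `s : Fin l → Fin J`: a point `v` of degree `d = φ J` is in the union for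
`J^l - (J-d)^l ≥ J^l (l φ - (l φ)^2/2)` of them. -/
theorem light_sum (J l : ℕ) (L : ℕ → Finset ℕ) (κ z : ℝ) (hJ : 1 ≤ J) (hκ : 0 ≤ κ)
    (hdeg : ∀ v : ℕ, (((range J).filter fun j => v ∈ L j).card : ℝ) ≤ κ * J)
    (hz : ∀ S ⊆ range J, S.card ≤ l → ((S.biUnion L).card : ℝ) ≤ z) :
    l * (1 - l * κ / 2) * ∑ j ∈ range J, ((L j).card : ℝ) ≤ J * z := by
  sorry

/-- S6 (file `LS6.lean`).  The covering lemma (note 2406, (6)), assembly of S4, S5 and of the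
rectangles `{j} × T'`.  `h = ⌊η m⌋ ≥ η m / 2`, `J ≤ 3r/h`, `κ = ρ η`,
heavy set `W = {v : deg v ≥ κ J}`, `|W| ≤ b/κ ≤ 2r/κ =: c`; S4 with `l = ⌊m/(2h)⌋ ≥ m/(4h)`,
`m' = ⌊m/2⌋` and `κ'' = κ κ' /4`, `κ' = ρη/7` (if `κ'' J < 2 l` all lists are covered by
`J (b/(m-h) + 1)` rectangles `{j} × T'`); light part by S5 with `l = ⌊(1-ρ) m/h⌋`. -/
theorem cover_lists (ρ η : ℝ) (hρ : 0 < ρ) (hρ1 : ρ ≤ 1 / 8) (hη : 0 < η) (hη1 : η ≤ ρ) :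
    ∃ C : ℕ, ∀ (r m J : ℕ) (b z : ℝ) (L : ℕ → Finset ℕ), C ≤ m → C * m ≤ r →
      (J : ℝ) * ⌊η * m⌋₊ ≤ 3 * r → 0 ≤ b → b ≤ 2 * r → 0 ≤ z → z ≤ 2 * r →
      (∀ j < J, ((L j).card : ℝ) ≤ b) →
      (∀ S ⊆ range J, (S.card : ℝ) * ⌊η * m⌋₊ ≤ (1 - ρ) * m → ((S.biUnion L).card : ℝ) ≤ z) →
      ∃ Q : Finset (Finset ℕ × Finset ℕ),
        (∀ p ∈ Q, p.1.card * ⌊η * m⌋₊ + p.2.card ≤ m) ∧
        (∀ j < J, ∀ v ∈ L j, ∃ p ∈ Q, j ∈ p.1 ∧ v ∈ p.2) ∧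
        (Q.card : ℝ) ≤ J * ⌊η * m⌋₊ * z / m ^ 2 + 50 * b * r / m ^ 2 +
          60 * ρ * ((r : ℝ) / m) ^ 2 := by
  sorry

/-- S7 (file `LS7.lean`).  The pair design (note 2406, (5)).  `g` large (`9/g ≤ ε/2`),
`N ≡ 1 mod g!`, `a/(m-g) ≤ N ≤ a/(m-g) + g!`; cells `(i,c) ∈ [g] × Z_N` of size `≤ ⌈a/(gN)⌉`,
blocks `{(i, s i + b) : i < g}` for `s, b ∈ Z_N`, and unions of two super-cells (`⌊g/2⌋` cells)
inside every column. -/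
theorem pair_design (ε : ℝ) (hε : 0 < ε) : ∃ C : ℕ, ∀ (m : ℕ) (A : Finset ℕ), C ≤ m →
    ∃ Q : Finset (Finset ℕ), (∀ T ∈ Q, T.card ≤ m) ∧
      (∀ u ∈ A, ∀ v ∈ A, ∃ T ∈ Q, u ∈ T ∧ v ∈ T) ∧
      (Q.card : ℝ) ≤ (1 + ε) * ((A.card : ℝ) / m) ^ 2 + C * ((A.card : ℝ) / m + 1) := by
  sorry

/-- S8 (file `LS8.lean`, helper72).  Assembly of S1, S2, S6 (note 2406, (1)-(3), (6)). -/
theorem core_main (ρ : ℝ) (hρ : 0 < ρ) : ∃ C : ℕ, ∀ (r m : ℕ), C ≤ m → C * m ≤ r →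
    ∀ H : Finset (Finset ℕ), (∀ e ∈ H, e.card = r) → NoTr H m →
    ∃ T0 A : Finset ℕ, T0.card ≤ m ∧ (∀ e ∈ H, Disjoint e T0 → ((A \ e).card : ℝ) ≤ ρ * r) ∧
      ∀ B : Finset ℕ, B.card ≤ 2 * r →
        Kill H ((B.card : ℝ) * ((r : ℝ) - A.card) / m ^ 2 + ρ * ((r : ℝ) / m) ^ 2)
          (fun u v => u ∈ B ∧ v ∉ A) := by
  sorry

/-- S9 (file `LS9.lean`).  Note 2406, (*): assembly of S7 and S8 (steps (4), (5), (7)). -/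
theorem two_core (ε : ℝ) (hε : 0 < ε) : ∃ C : ℕ, ∀ (r m : ℕ), C ≤ m → C * m ≤ r →
    ∀ H : Finset (Finset ℕ), (∀ e ∈ H, e.card = r) → NoTr H m →
    ∃ F ⊆ H, (F.card : ℝ) ≤ (1 + ε) * ((r : ℝ) / m) ^ 2 ∧
      ∀ X : Finset ℕ, X.card ≤ 2 → ∃ e ∈ F, Disjoint e X := by
  sorry

/-- S10 (file `LS10.lean`).  Theorem G: `m = ⌊(1+ε) r/√k⌋` in S9 (with a smaller `ε`), and
`fval_complete` (`LD8.lean`). -/
theorem theoremG (ε : ℝ) (hε : 0 < ε) : ∃ C : ℕ, ∀ k r : ℕ, C ≤ k → C * Real.sqrt k ≤ r →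
    (r : ℝ) / Real.sqrt k ≤ (fval r k 2 : ℝ) ∧
      (fval r k 2 : ℝ) ≤ (1 + ε) * ((r : ℝ) / Real.sqrt k) := by
  sorry

end LocTr
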