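import Mathlib

/-!
MP_a8cb64_co, Theorem S (all fixed `s`): the polynomial design (helper23; L6 of note 2479).
Labels `[g] × Z_N`, `N ≡ 1 mod g!`; blocks: graphs of polynomials of degree `< s` over `Z_N`,
and unions of `s` super-cells two of which lie in the same column.
-/

namespace LocTr

open Finset

/-- graph of the polynomial with coefficients `a`. -/
noncomputable def polyBlock (g s N : ℕ) (a : Fin s → ZMod N) : Finset (Fin g × ZMod N) :=
  (univ : Finset (Fin g)).image fun i => (i, ∑ l : Fin s, ((i : ℕ) : ZMod N) ^ (l : ℕ) * a l)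

theorem polyBlock_card (g s N : ℕ) (a : Fin s → ZMod N) : (polyBlock g s N a).card ≤ g :=
  card_image_le.trans (by simp)

/-- super-cell number `q` in column `i`: the `y` with `y.val / w = q`. -/
def superCell (g N w : ℕ) [NeZero N] (p : Fin g × ℕ) : Finset (Fin g × ZMod N) :=
  ((univ : Finset (ZMod N)).filter fun y => y.val / w = p.2).image fun y => (p.1, y)

theorem superCell_card (g N w : ℕ) [NeZero N] (hw : 1 ≤ w) (p : Fin g × ℕ) :
    (superCell g N w p).card ≤ w := by
  refine card_image_le.trans ?_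
  calc (univ.filter fun y : ZMod N => y.val / w = p.2).card ≤ (range w).card := by
        apply card_le_card_of_injOn (fun y : ZMod N => y.val % w)
        · intro y _
          rw [coe_range, Set.mem_Iio]
          exact Nat.mod_lt _ hw
        · intro x hx y hy hxy
          have hx' := (mem_filter.1 hx).2
          have hy' := (mem_filter.1 hy).2
          apply ZMod.val_injective N
          rw [← Nat.div_add_mod x.val w, ← Nat.div_add_mod y.val w, hx', hy']
          simp only at hxy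
          rw [hxy]
    _ = w := card_range w

theorem mem_superCell {g N w : ℕ} [NeZero N] (u : Fin g × ZMod N) :
    u ∈ superCell g N w (u.1, u.2.val / w) :=
  mem_image.2 ⟨u.2, mem_filter.2 ⟨mem_univ _, rfl⟩, rfl⟩

/-- unit differences. -/
theorem unit_diff (g N a b : ℕ) (hN : N.Coprime g.factorial) (ha : a < g) (hb : b < a) :
    IsUnit ((a : ZMod N) - (b : ZMod N)) := by
  have h1 : ((a : ZMod N) - (b : ZMod N)) = ((a - b : ℕ) : ZMod N) := by
    rw [Nat.cast_sub hb.le]
  rw [h1, ZMod.isUnit_iff_coprime]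
  have h2 : (a - b) ∣ g.factorial := Nat.dvd_factorial (by omega) (by omega)
  exact Nat.Coprime.coprime_dvd_left h2 hN.symm

/-- interpolation. -/
theorem interp (g s N : ℕ) (hN : N.Coprime g.factorial) (e : Fin s → ℕ)
    (hmono : StrictMono e) (hlt : ∀ j, e j < g) (y : Fin s → ZMod N) :
    ∃ a : Fin s → ZMod N, ∀ j, ∑ l : Fin s, ((e j : ℕ) : ZMod N) ^ (l : ℕ) * a l = y j := by
  set M : Matrix (Fin s) (Fin s) (ZMod N) := Matrix.vandermonde fun j => ((e j : ℕ) : ZMod N)
    with hM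
  have hdet : IsUnit M.det := by
    rw [hM, Matrix.det_vandermonde]
    refine (IsUnit.prod_univ_iff).2 fun i => ?_
    rw [IsUnit.prod_iff]
    intro j hj
    exact unit_diff g N _ _ hN (hlt j) (hmono (mem_Ioi.1 hj))
  refine ⟨M⁻¹.mulVec y, fun j => ?_⟩
  have h1 : M.mulVec (M⁻¹.mulVec y) = y := by
    rw [Matrix.mulVec_mulVec, Matrix.mul_nonsing_inv _ hdet, Matrix.one_mulVec]
  have h2 := congrFun h1 j
  rw [Matrix.mulVec, dotProduct] at h2
  simpa only [hM, Matrix.vandermonde_apply] using h2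

/-- sets with at most one label in every column. -/
theorem cover_transversal (g s N : ℕ) (hs : s ≤ g) (hN : N.Coprime g.factorial)
    (S : Finset (Fin g × ZMod N)) (hS : S.card ≤ s) (hinj : Set.InjOn Prod.fst (S : Set (Fin g × ZMod N))) :
    ∃ a : Fin s → ZMod N, S ⊆ polyBlock g s N a := by
  classical
  have hC : (S.image Prod.fst).card ≤ s := card_image_le.trans hS
  obtain ⟨C', hC1, -, hC2⟩ := exists_subsuperset_card_eq (subset_univ (S.image Prod.fst)) hC
    (by simpa using hs)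
  set e : Fin s ↪o Fin g := C'.orderEmbOfFin hC2 with he
  have hrange : ∀ i ∈ C', ∃ j, e j = i := by
    intro i hi
    have : i ∈ Set.range (C'.orderEmbOfFin hC2) := by
      rw [range_orderEmbOfFin]; exact hi
    exact this
  obtain ⟨a, ha⟩ := interp g s N hN (fun j => ((e j : Fin g) : ℕ))
    (fun i j hij => by
      have := e.strictMono hij
      exact this) (fun j => (e j).2)
    (fun j => if h : ∃ z, (e j, z) ∈ S then h.choose else 0)
  refine ⟨a, fun u hu => ?_⟩
  obtain ⟨j, hj⟩ := hrange u.1 (hC1 (mem_image_of_mem _ hu))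
  refine mem_image.2 ⟨u.1, mem_univ _, ?_⟩
  have h1 : ∃ z, (e j, z) ∈ S := ⟨u.2, by rw [hj]; exact hu⟩
  have h2 := ha j
  simp only [dif_pos h1] at h2
  have h3 : (e j, h1.choose) ∈ S := h1.choose_spec
  have h4 : (e j, h1.choose) = u := hinj h3 hu hj
  have h5 : h1.choose = u.2 := congrArg Prod.snd h4
  apply Prod.ext
  · rfl
  · change ∑ l : Fin s, (((u.1 : Fin g) : ℕ) : ZMod N) ^ (l : ℕ) * a l = u.2
    rw [← hj, h2, h5]

/-- union of super-cells, the first two in the same column. -/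
def cellBlock (g n N w : ℕ) [NeZero N] (p : (Fin g × ℕ × ℕ) × (Fin n → Fin g × ℕ)) :
    Finset (Fin g × ZMod N) :=
  (superCell g N w (p.1.1, p.1.2.1) ∪ superCell g N w (p.1.1, p.1.2.2)) ∪
    univ.biUnion fun j : Fin n => superCell g N w (p.2 j)

theorem cellBlock_card (g n N w : ℕ) [NeZero N] (hw : 1 ≤ w) (hg : (n + 2) * w ≤ g)
    (p : (Fin g × ℕ × ℕ) × (Fin n → Fin g × ℕ)) : (cellBlock g n N w p).card ≤ g := by
  have h1 : (univ.biUnion fun j : Fin n => superCell g N w (p.2 j)).card ≤ n * w := by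
    have := card_biUnion_le_card_mul (univ : Finset (Fin n))
      (fun j => superCell g N w (p.2 j)) w (fun j _ => superCell_card g N w hw _)
    simpa using this
  have h2 := superCell_card g N w hw (p.1.1, p.1.2.1)
  have h3 := superCell_card g N w hw (p.1.1, p.1.2.2)
  have h4 := card_union_le (superCell g N w (p.1.1, p.1.2.1)) (superCell g N w (p.1.1, p.1.2.2))
  have h5 := card_union_le (superCell g N w (p.1.1, p.1.2.1) ∪ superCell g N w (p.1.1, p.1.2.2))
    (univ.biUnion fun j : Fin n => superCell g N w (p.2 j))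
  have h6 : (n + 2) * w = w + w + n * w := by ring
  unfold cellBlock
  omega

/-- sets with two labels in one column. -/
theorem cover_column (g n N w : ℕ) [NeZero N] (S : Finset (Fin g × ZMod N))
    (hS : S.card ≤ n + 2) (hinj : ¬ Set.InjOn Prod.fst (S : Set (Fin g × ZMod N))) :
    ∃ p ∈ ((univ : Finset (Fin g)) ×ˢ (range (N / w + 1) ×ˢ range (N / w + 1))) ×ˢ
      (Fintype.piFinset fun _ : Fin n => (univ : Finset (Fin g)) ×ˢ range (N / w + 1)),
      S ⊆ cellBlock g n N w p := by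
  classical
  rw [Set.InjOn] at hinj
  push Not at hinj
  obtain ⟨u, hu, v, hv, huv, hne⟩ := hinj
  have hu' : u ∈ S := hu
  have hv' : v ∈ S := hv
  set S' : Finset (Fin g × ZMod N) := (S.erase u).erase v with hS'
  have hcard : S'.card ≤ n := by
    have h1 : v ∈ S.erase u := mem_erase.2 ⟨fun h => hne h.symm, hv'⟩
    have h2 : S'.card = (S.erase u).card - 1 := card_erase_of_mem h1
    have h3 := card_erase_of_mem hu'
    omega
  have hq : ∀ x : Fin g × ZMod N, x.2.val / w ∈ range (N / w + 1) := by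
    intro x
    rw [mem_range]
    exact Nat.lt_succ_of_le (Nat.div_le_div_right (ZMod.val_lt _).le)
  refine ⟨((u.1, (u.2.val / w, v.2.val / w)),
    fun j => ((S'.toList.getD j u).1, (S'.toList.getD j u).2.val / w)), ?_, ?_⟩
  · refine mem_product.2 ⟨mem_product.2 ⟨mem_univ _, mem_product.2 ⟨hq u, hq v⟩⟩, ?_⟩
    rw [Fintype.mem_piFinset]
    intro j
    exact mem_product.2 ⟨mem_univ _, hq _⟩
  · intro x hx
    by_cases hxu : x = u
    · refine mem_union_left _ (mem_union_left _ ?_)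
      rw [hxu]; exact mem_superCell u
    by_cases hxv : x = v
    · refine mem_union_left _ (mem_union_right _ ?_)
      simp only
      rw [hxv, huv]; exact mem_superCell v
    · refine mem_union_right _ ?_
      have hx' : x ∈ S'.toList := mem_toList.2 (mem_erase.2 ⟨hxv, mem_erase.2 ⟨hxu, hx⟩⟩)
      obtain ⟨k, hk, hkx⟩ := List.getElem_of_mem hx'
      have hkn : k < n := by
        have : k < S'.card := by simpa using hk
        omega
      refine mem_biUnion.2 ⟨⟨k, hkn⟩, mem_univ _, ?_⟩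
      simp only
      rw [List.getD_eq_getElem _ _ hk, hkx]
      exact mem_superCell x

theorem card_index (g n N w : ℕ) :
    (((univ : Finset (Fin g)) ×ˢ (range (N / w + 1) ×ˢ range (N / w + 1))) ×ˢ
      (Fintype.piFinset fun _ : Fin n => (univ : Finset (Fin g)) ×ˢ range (N / w + 1))).card =
      g * (N / w + 1) ^ 2 * (g * (N / w + 1)) ^ n := by
  simp only [card_product, Fintype.card_piFinset, card_range, card_univ, Fintype.card_fin,
    prod_const]
  ring

/-- combinatorial part. -/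
theorem design_comb_s (g n N w : ℕ) (hN0 : 0 < N) (hN : N.Coprime g.factorial) (hw : 1 ≤ w)
    (hg : (n + 2) * w ≤ g) :
    ∃ WW : Finset (Finset (Fin g × ZMod N)), (∀ W ∈ WW, W.card ≤ g) ∧
      WW.card ≤ N ^ (n + 2) + g * (N / w + 1) ^ 2 * (g * (N / w + 1)) ^ n ∧
      ∀ S : Finset (Fin g × ZMod N), S.card ≤ n + 2 → ∃ W ∈ WW, S ⊆ W := by
  classical
  have : NeZero N := ⟨hN0.ne'⟩
  have hgn : n + 2 ≤ g := le_trans (Nat.le_mul_of_pos_right _ hw) hg
  refine ⟨(univ : Finset (Fin (n + 2) → ZMod N)).image (polyBlock g (n + 2) N) ∪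
    (((univ : Finset (Fin g)) ×ˢ (range (N / w + 1) ×ˢ range (N / w + 1))) ×ˢ
      (Fintype.piFinset fun _ : Fin n => (univ : Finset (Fin g)) ×ˢ range (N / w + 1))).image
        (cellBlock g n N w), ?_, ?_, ?_⟩
  · intro W hW
    rcases mem_union.1 hW with hW | hW
    · obtain ⟨a, -, rfl⟩ := mem_image.1 hW
      exact polyBlock_card g (n + 2) N a
    · obtain ⟨p, -, rfl⟩ := mem_image.1 hW
      exact cellBlock_card g n N w hw hg p
  · refine (card_union_le _ _).trans (Nat.add_le_add ?_ ?_)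
    · refine card_image_le.trans ?_
      rw [card_univ, Fintype.card_fun, ZMod.card, Fintype.card_fin]
    · exact card_image_le.trans (card_index g n N w).le
  · intro S hS
    by_cases hinj : Set.InjOn Prod.fst (S : Set (Fin g × ZMod N))
    · obtain ⟨a, ha⟩ := cover_transversal g (n + 2) N hgn hN S hS hinj
      exact ⟨_, mem_union_left _ (mem_image_of_mem _ (mem_univ a)), ha⟩
    · obtain ⟨p, hp, hSp⟩ := cover_column g n N w S hS hinj
      exact ⟨_, mem_union_right _ (mem_image_of_mem _ hp), hSp⟩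

/-- `s = 1`. -/
theorem design_one (g N : ℕ) (hg : 1 ≤ g) (hN0 : 0 < N) (hN : N.Coprime g.factorial) :
    ∃ WW : Finset (Finset (Fin g × ZMod N)), (∀ W ∈ WW, W.card ≤ g) ∧
      WW.card ≤ N ^ 1 ∧
      ∀ S : Finset (Fin g × ZMod N), S.card ≤ 1 → ∃ W ∈ WW, S ⊆ W := by
  classical
  have : NeZero N := ⟨hN0.ne'⟩
  refine ⟨(univ : Finset (Fin 1 → ZMod N)).image (polyBlock g 1 N), ?_, ?_, ?_⟩
  · intro W hW
    obtain ⟨a, -, rfl⟩ := mem_image.1 hW
    exact polyBlock_card g 1 N a
  · refine card_image_le.trans ?_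
    rw [card_univ, Fintype.card_fun, ZMod.card, Fintype.card_fin]
  · intro S hS
    obtain ⟨a, ha⟩ := cover_transversal g 1 N hg hN S hS (by
      intro x hx y hy _
      exact card_le_one.1 hS x hx y hy)
    exact ⟨_, mem_image_of_mem _ (mem_univ a), ha⟩

/-- **The polynomial design**, version for all large `g` and all `N ≥ g` coprime to `g!`. -/
theorem poly_design_ge (s : ℕ) (hs : 1 ≤ s) (ρ : ℝ) (hρ : 0 < ρ) : ∃ g0 : ℕ, ∀ g ≥ g0,
    ∀ N ≥ g, N.Coprime g.factorial → 0 < N →
    ∃ WW : Finset (Finset (Fin g × ZMod N)), (∀ W ∈ WW, W.card ≤ g) ∧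
      (WW.card : ℝ) ≤ (1 + ρ) * (N : ℝ) ^ s ∧
      ∀ S : Finset (Fin g × ZMod N), S.card ≤ s → ∃ W ∈ WW, S ⊆ W := by
  rcases Nat.lt_or_ge 1 s with hs1 | hs1
  · obtain ⟨n, hsdef⟩ : ∃ n, s = n + 2 := ⟨s - 2, by omega⟩
    refine ⟨s + ⌈(4 * s : ℝ) ^ s / ρ⌉₊, fun g hg N hN hcop hN0 => ?_⟩
    have hgs : s ≤ g := by omega
    have hs0 : 0 < s := by omega
    set w : ℕ := g / s with hwdef
    have hw1 : 1 ≤ w := (Nat.one_le_div_iff hs0).2 hgs
    have hwg : s * w ≤ g := Nat.mul_div_le g s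
    have hg2 : g ≤ 2 * s * w := by
      have h1 := Nat.lt_mul_div_succ g hs0
      have h2 : s * (g / s + 1) ≤ s * (2 * w) := by
        apply Nat.mul_le_mul_left
        omega
      calc g ≤ s * (g / s + 1) := h1.le
        _ ≤ s * (2 * w) := h2
        _ = 2 * s * w := by ring
    obtain ⟨WW, h1, h2, h3⟩ := design_comb_s g n N w hN0 hcop hw1 (by rw [← hsdef]; exact hwg)
    rw [← hsdef] at h2 h3
    refine ⟨WW, h1, ?_, h3⟩
    have hgR : (0 : ℝ) < g := by
      have : 0 < g := by omega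
      exact_mod_cast this
    have hwR : (0 : ℝ) < w := by exact_mod_cast hw1
    have hNR : (0 : ℝ) < N := by exact_mod_cast hN0
    have hceil : (4 * (s : ℝ)) ^ s / ρ ≤ g := by
      have e1 : (4 * s : ℝ) ^ s / ρ ≤ (⌈(4 * s : ℝ) ^ s / ρ⌉₊ : ℝ) := Nat.le_ceil _
      have e2 : (⌈(4 * s : ℝ) ^ s / ρ⌉₊ : ℝ) ≤ g := by
        have : ⌈(4 * s : ℝ) ^ s / ρ⌉₊ ≤ g := by omega
        exact_mod_cast this
      exact e1.trans e2
    -- number of super-cells
    have hQ : ((N / w + 1 : ℕ) : ℝ) ≤ 4 * s * N / g := by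
      have e1 : ((N / w : ℕ) : ℝ) ≤ (N : ℝ) / w := Nat.cast_div_le
      have e2 : (1 : ℝ) ≤ (N : ℝ) / w := by
        rw [le_div_iff₀ hwR, one_mul]
        have : w ≤ N := le_trans (Nat.div_le_self _ _) hN
        exact_mod_cast this
      have e3 : (N : ℝ) / w ≤ 2 * s * N / g := by
        rw [div_le_div_iff₀ hwR hgR]
        have e4 : (g : ℝ) ≤ 2 * s * w := by exact_mod_cast hg2
        calc (N : ℝ) * g ≤ N * (2 * s * w) := by gcongr
          _ = 2 * s * N * w := by ring
      have e5 : (4 : ℝ) * s * N / g = 2 * s * N / g + 2 * s * N / g := by ring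
      rw [e5]
      push_cast
      linarith
    have hcount : ((g * (N / w + 1) ^ 2 * (g * (N / w + 1)) ^ n : ℕ) : ℝ) ≤ ρ * (N : ℝ) ^ s := by
      set Q : ℝ := ((N / w + 1 : ℕ) : ℝ) with hQdef
      have hQ0 : 0 ≤ Q := Nat.cast_nonneg _
      have e0 : ((g * (N / w + 1) ^ 2 * (g * (N / w + 1)) ^ n : ℕ) : ℝ) =
          g * Q ^ 2 * (g * Q) ^ n := by
        rw [hQdef]; push_cast; ring
      calc ((g * (N / w + 1) ^ 2 * (g * (N / w + 1)) ^ n : ℕ) : ℝ)
          = g ^ (n + 1) * Q ^ (n + 2) := by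
            rw [e0, mul_pow]; ring
        _ ≤ g ^ (n + 1) * (4 * s * N / g) ^ (n + 2) := by gcongr
        _ = ((4 * s) ^ s / g) * (N : ℝ) ^ s := by
            rw [← hsdef, div_pow, mul_pow (4 * (s : ℝ)) (N : ℝ) s]
            have e6 : (g : ℝ) ^ s = g ^ (n + 1) * g := by
              rw [hsdef]; ring
            rw [e6]
            field_simp
        _ ≤ ρ * (N : ℝ) ^ s := by
            have e7 : (4 * (s : ℝ)) ^ s / g ≤ ρ := by
              rw [div_le_iff₀ hρ] at hceil
              rw [div_le_iff₀ hgR]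
              linarith
            gcongr
    calc (WW.card : ℝ) ≤ ((N ^ s + g * (N / w + 1) ^ 2 * (g * (N / w + 1)) ^ n : ℕ) : ℝ) := by
          exact_mod_cast h2
      _ = (N : ℝ) ^ s + ((g * (N / w + 1) ^ 2 * (g * (N / w + 1)) ^ n : ℕ) : ℝ) := by
          push_cast; ring
      _ ≤ (N : ℝ) ^ s + ρ * (N : ℝ) ^ s := by gcongr
      _ = _ := by ring
  · obtain rfl : s = 1 := by omega
    refine ⟨1, fun g hg N hN hcop hN0 => ?_⟩
    obtain ⟨WW, h1, h2, h3⟩ := design_one g N hg hN0 hcop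
    refine ⟨WW, h1, ?_, h3⟩
    have h4 : (WW.card : ℝ) ≤ (N : ℝ) ^ 1 := by exact_mod_cast h2
    have h5 : (0 : ℝ) ≤ ρ * (N : ℝ) ^ 1 := by positivity
    linarith

/-- **The polynomial design** (L6 of note 2479). -/
theorem poly_design (s : ℕ) (hs : 1 ≤ s) (ρ : ℝ) (hρ : 0 < ρ) : ∃ g : ℕ, 1 ≤ g ∧
    ∃ N0 : ℕ, ∀ N ≥ N0, N % g.factorial = 1 % g.factorial →
    ∃ WW : Finset (Finset (Fin g × ZMod N)), (∀ W ∈ WW, W.card ≤ g) ∧
      (WW.card : ℝ) ≤ (1 + ρ) * (N : ℝ) ^ s ∧
      ∀ S : Finset (Fin g × ZMod N), S.card ≤ s → ∃ W ∈ WW, S ⊆ W := by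
  obtain ⟨g0, hg0⟩ := poly_design_ge s hs ρ hρ
  refine ⟨g0 + 1, by omega, g0 + 1, fun N hN hmod => ?_⟩
  have hmod' : N ≡ 1 [MOD (g0 + 1).factorial] := hmod
  have hcop : N.Coprime (g0 + 1).factorial := by
    have h1 := hmod'.gcd_eq
    rw [Nat.gcd_one_left] at h1
    exact h1
  exact hg0 (g0 + 1) (by omega) N hN hcop (by omega)

end LocTr
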