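import Pool.Agent.Work.MP_a8cb64_co.SDefs

/-!
MP_a8cb64_co, Theorem S (note 2485, helper94): pieces of a finite set, the trivial lemma (D), the
greedy choice of pieces.
-/

namespace LocTr

open Finset

/-- the edges of `H` which miss `Z`. -/
def missing (H : Finset (Finset ℕ)) (Z : Finset ℕ) : Finset (Finset ℕ) :=
  H.filter fun e => Disjoint e Z

theorem mem_missing {H : Finset (Finset ℕ)} {Z e : Finset ℕ} :
    e ∈ missing H Z ↔ e ∈ H ∧ Disjoint e Z := by
  simp [missing]

theorem missing_subset (H : Finset (Finset ℕ)) (Z : Finset ℕ) : missing H Z ⊆ H :=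
  filter_subset _ _

theorem NoTr.mono {H : Finset (Finset ℕ)} {m m' : ℕ} (h : NoTr H m) (hm : m' ≤ m) : NoTr H m' :=
  fun T hT => h T (hT.trans hm)

theorem NoTr.missing {H : Finset (Finset ℕ)} {m m' : ℕ} {Z : Finset ℕ} (h : NoTr H m)
    (hm : m' + Z.card ≤ m) : NoTr (missing H Z) m' := by
  intro T hT
  obtain ⟨e, he, hd⟩ := h (T ∪ Z) ((card_union_le T Z).trans (by omega))
  rw [disjoint_union_right] at hd
  exact ⟨e, mem_missing.2 ⟨he, hd.2⟩, hd.1⟩

/-- the rank of `v` in `L`. -/
def rk (L : Finset ℕ) (v : ℕ) : ℕ := (L.filter fun u => u < v).card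

theorem rk_lt {L : Finset ℕ} {v : ℕ} (hv : v ∈ L) : rk L v < L.card := by
  apply card_lt_card
  rw [Finset.ssubset_iff_of_subset (filter_subset _ _)]
  exact ⟨v, hv, by simp⟩

theorem rk_strictMono {L : Finset ℕ} {u v : ℕ} (hu : u ∈ L) (h : u < v) : rk L u < rk L v := by
  apply card_lt_card
  rw [Finset.ssubset_iff_of_subset]
  · exact ⟨u, by simp [hu, h], by simp⟩
  · intro w hw
    rw [mem_filter] at hw ⊢
    exact ⟨hw.1, hw.2.trans h⟩

theorem rk_injOn (L : Finset ℕ) : Set.InjOn (rk L) L := by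
  intro u hu v hv h
  rcases lt_trichotomy u v with h1 | h1 | h1
  · exact absurd h (rk_strictMono hu h1).ne
  · exact h1
  · exact absurd h.symm (rk_strictMono hv h1).ne

/-- the `j`-th piece of `L` when it is cut into pieces of `h` points. -/
def piece (L : Finset ℕ) (h j : ℕ) : Finset ℕ := L.filter fun v => rk L v / h = j

theorem piece_subset (L : Finset ℕ) (h j : ℕ) : piece L h j ⊆ L := filter_subset _ _

theorem piece_card_le (L : Finset ℕ) {h : ℕ} (hh : 1 ≤ h) (j : ℕ) : (piece L h j).card ≤ h := by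
  classical
  have h1 : (piece L h j).card = ((piece L h j).image (rk L)).card := by
    rw [card_image_of_injOn]
    exact (rk_injOn L).mono (by exact_mod_cast piece_subset L h j)
  have h2 : (piece L h j).image (rk L) ⊆ Ico (j * h) (j * h + h) := by
    intro a ha
    obtain ⟨v, hv, rfl⟩ := mem_image.1 ha
    have h3 : rk L v / h = j := (mem_filter.1 hv).2
    rw [mem_Ico]
    constructor
    · rw [← h3]
      exact Nat.div_mul_le_self _ _
    · have h4 := Nat.lt_div_mul_add (a := rk L v) (by omega : 0 < h)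
      rw [h3] at h4
      exact h4
  rw [h1]
  refine (card_le_card h2).trans ?_
  simp

theorem exists_piece {L : Finset ℕ} (h : ℕ) {v : ℕ} (hv : v ∈ L) :
    ∃ j < L.card / h + 1, v ∈ piece L h j := by
  refine ⟨rk L v / h, ?_, by simp [piece, hv]⟩
  exact Nat.lt_succ_of_le (Nat.div_le_div_right (rk_lt hv).le)

/-- (D) the trivial lemma. -/
theorem trivial_kill (r b : ℕ) (hb : 1 ≤ b) : ∀ (p : ℕ) (H : Finset (Finset ℕ)),
    (∀ e ∈ H, e.card = r) → NoTr H (p * b) →
    ∃ F ⊆ H, F.card ≤ (r / b + 2) ^ p ∧ ∀ V : Finset ℕ, V.card ≤ p → ∃ e ∈ F, Disjoint e V := by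
  classical
  intro p
  induction p with
  | zero =>
    intro H _ hH
    obtain ⟨e, he, -⟩ := hH ∅ (by simp)
    refine ⟨{e}, by simpa using he, by simp, ?_⟩
    intro V hV
    have hV0 : V = ∅ := card_eq_zero.1 (Nat.le_zero.1 hV)
    exact ⟨e, by simp, by simp [hV0]⟩
  | succ p ih =>
    intro H hr hH
    obtain ⟨e0, he0, -⟩ := hH ∅ (by simp)
    have hQ : ∀ Z : Finset ℕ, Z.card ≤ b → ∃ F ⊆ missing H Z, F.card ≤ (r / b + 2) ^ p ∧
        ∀ V : Finset ℕ, V.card ≤ p → ∃ e ∈ F, Disjoint e V := by
      intro Z hZ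
      refine ih (missing H Z) (fun e he => hr e (missing_subset H Z he)) ?_
      refine hH.missing ?_
      rw [Nat.add_mul, one_mul]
      omega
    choose! G hG1 hG2 hG3 using hQ
    refine ⟨insert e0 ((range (r / b + 1)).biUnion fun j => G (piece e0 b j)), ?_, ?_, ?_⟩
    · intro e he
      rcases mem_insert.1 he with h | h
      · exact h ▸ he0
      · obtain ⟨j, -, h2⟩ := mem_biUnion.1 h
        exact missing_subset _ _ (hG1 _ (piece_card_le e0 hb j) h2)
    · calc (insert e0 ((range (r / b + 1)).biUnion fun j => G (piece e0 b j))).card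
          ≤ ((range (r / b + 1)).biUnion fun j => G (piece e0 b j)).card + 1 := card_insert_le _ _
        _ ≤ (r / b + 1) * (r / b + 2) ^ p + 1 := by
            refine Nat.add_le_add_right ?_ 1
            refine card_biUnion_le.trans ?_
            calc ∑ j ∈ range (r / b + 1), (G (piece e0 b j)).card
                ≤ ∑ _j ∈ range (r / b + 1), (r / b + 2) ^ p :=
                  sum_le_sum fun j _ => hG2 _ (piece_card_le e0 hb j)
              _ = (r / b + 1) * (r / b + 2) ^ p := by simp
        _ ≤ (r / b + 2) ^ (p + 1) := by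
            have h1 : 1 ≤ (r / b + 2) ^ p := Nat.one_le_pow _ _ (Nat.succ_pos _)
            have h2 : (r / b + 2) ^ (p + 1) = (r / b + 1) * (r / b + 2) ^ p + (r / b + 2) ^ p := by
              ring
            omega
    · intro V hV
      by_cases hd : Disjoint e0 V
      · exact ⟨e0, mem_insert_self _ _, hd⟩
      · rw [not_disjoint_iff] at hd
        obtain ⟨v, hv0, hvV⟩ := hd
        obtain ⟨j, hj, hvj⟩ := exists_piece b hv0
        rw [hr e0 he0] at hj
        have hcard : (V \ piece e0 b j).card ≤ p := by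
          have h1 : (V \ piece e0 b j).card < V.card := by
            apply card_lt_card
            rw [Finset.ssubset_iff_of_subset sdiff_subset]
            exact ⟨v, hvV, by simp [hvj]⟩
          omega
        obtain ⟨e, he, hde⟩ := hG3 _ (piece_card_le e0 hb j) _ hcard
        refine ⟨e, mem_insert_of_mem (mem_biUnion.2 ⟨j, mem_range.2 hj, he⟩), ?_⟩
        have h2 := (mem_missing.1 (hG1 _ (piece_card_le e0 hb j) he)).2
        rw [disjoint_left] at hde h2 ⊢
        intro w hwe hwV
        by_cases hwj : w ∈ piece e0 b j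
        · exact h2 hwe hwj
        · exact hde hwe (mem_sdiff.2 ⟨hwV, hwj⟩)

/-- greedy choice of `l` pieces. -/
theorem greedy_pieces (J : ℕ) (A : ℕ → Finset ℕ) (R : Finset ℕ) (κ : ℝ) (hJ : 1 ≤ J)
    (hR : ∀ v ∈ R, κ * J ≤ (((range J).filter fun j => v ∈ A j).card : ℝ)) (hκ1 : κ ≤ 1) :
    ∀ l : ℕ, ∃ S ⊆ range J, S.card ≤ l ∧
      ((R \ S.biUnion A).card : ℝ) ≤ (1 - κ) ^ l * R.card := by
  classical
  have hJ0 : (0 : ℝ) < J := by exact_mod_cast hJ
  intro l
  induction l with
  | zero => exact ⟨∅, by simp, by simp, by simp⟩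
  | succ l ih =>
    obtain ⟨S, hS, hSl, hSc⟩ := ih
    set Z : Finset ℕ := R \ S.biUnion A with hZ
    -- averaging
    have h1 : κ * J * Z.card ≤ ∑ j ∈ range J, ((Z ∩ A j).card : ℝ) := by
      have h2 : ∑ j ∈ range J, (Z ∩ A j).card = ∑ v ∈ Z, ((range J).filter fun j => v ∈ A j).card := by
        have h3 : ∀ j ∈ range J, (Z ∩ A j).card = ∑ v ∈ Z, if v ∈ A j then 1 else 0 := by
          intro j _
          rw [← card_filter, filter_mem_eq_inter]
        rw [sum_congr rfl h3, sum_comm]
        exact sum_congr rfl fun v _ => by rw [← card_filter]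
      have h4 : ∑ j ∈ range J, ((Z ∩ A j).card : ℝ) =
          ∑ v ∈ Z, (((range J).filter fun j => v ∈ A j).card : ℝ) := by exact_mod_cast h2
      rw [h4]
      calc κ * J * Z.card = ∑ _v ∈ Z, κ * J := by rw [sum_const, nsmul_eq_mul]; ring
        _ ≤ _ := sum_le_sum fun v hv => hR v (mem_sdiff.1 hv).1
    have h5 : ∃ j ∈ range J, κ * Z.card ≤ ((Z ∩ A j).card : ℝ) := by
      by_contra hcon
      push Not at hcon
      have h6 : ∑ j ∈ range J, ((Z ∩ A j).card : ℝ) < ∑ _j ∈ range J, κ * Z.card :=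
        sum_lt_sum_of_nonempty ⟨0, mem_range.2 hJ⟩ fun j hj => hcon j hj
      rw [sum_const, card_range, nsmul_eq_mul] at h6
      nlinarith
    obtain ⟨j, hj, hjc⟩ := h5
    refine ⟨insert j S, ?_, ?_, ?_⟩
    · intro a ha
      rcases mem_insert.1 ha with h | h
      · exact h ▸ hj
      · exact hS h
    · exact (card_insert_le _ _).trans (by omega)
    · have h7 : R \ (insert j S).biUnion A = Z \ A j := by
        rw [biUnion_insert, hZ]
        ext v
        simp only [mem_sdiff, mem_union, not_or]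
        tauto
      rw [h7]
      have h8 : ((Z \ A j).card : ℝ) = Z.card - (Z ∩ A j).card := by
        have := card_sdiff_add_card_inter Z (A j)
        have h9 : ((Z \ A j).card : ℝ) + (Z ∩ A j).card = Z.card := by exact_mod_cast this
        linarith
      rw [h8, pow_succ]
      nlinarith [mul_le_mul_of_nonneg_left hSc (sub_nonneg.2 hκ1)]

end LocTr
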