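import Pool.Agent.Work.MP_a8cb64_co.LS4
import Pool.Agent.Work.MP_a8cb64_co.LS6a

/-!
MP_a8cb64_co, Theorem S (note 2485), module TE2 (helper80): the sparse cover (S).
-/

namespace LocTr

open Finset

theorem sparse_cover (K κ η : ℝ) (hK : 0 < K) (hκ : 0 < κ) (hκ1 : κ ≤ 1) (hη : 0 < η)
    (hη1 : η ≤ 1 / 8) : ∃ X0 : ℕ, ∀ (r m J : ℕ) (W : Finset ℕ) (Q R : ℕ → Finset ℕ),
      X0 ≤ m → X0 * m ≤ r → J = r / ⌊η * m⌋₊ + 1 → (W.card : ℝ) ≤ K * r →
      (∀ j < J, (Q j).card ≤ ⌊η * m⌋₊) → (∀ j < J, R j ⊆ W) →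
      (∑ j ∈ range J, ((R j).card : ℝ)) ≤ κ * J * (K * r) →
      ∃ TT : Finset (Finset ℕ), (∀ T ∈ TT, 2 * T.card ≤ m) ∧
        (∀ j < J, ∀ v ∈ R j, ∃ T ∈ TT, Q j ⊆ T ∧ v ∈ T) ∧
        (TT.card : ℝ) ≤ 200 * K * κ * ((r : ℝ) / m) ^ 2 := by
  classical
  obtain ⟨κ2, hκ2⟩ : ∃ κ2 : ℝ, κ2 = κ * η / 64 := ⟨_, rfl⟩
  have hκ20 : 0 < κ2 := by rw [hκ2]; positivity
  have hκη : κ * η ≤ 1 / 8 := by
    have := mul_le_mul hκ1 hη1 hη.le zero_le_one
    linarith
  have hκ21 : κ2 ≤ 1 := by rw [hκ2]; linarith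
  obtain ⟨N, hN⟩ : ∃ N : ℕ, N = ⌈1 / η⌉₊ := ⟨_, rfl⟩
  obtain ⟨K1, hK1⟩ : ∃ K1 : ℝ, K1 = κ2 * (κ2 / 2) ^ N * (2 * κ2 * K) := ⟨_, rfl⟩
  have hK10 : 0 < K1 := by rw [hK1]; positivity
  obtain ⟨C, hC⟩ : ∃ C : ℕ, C = ⌈2 / η + 16 + 1 / κ2 + 1 / K1 + 3 / (η * κ * K)⌉₊ := ⟨_, rfl⟩
  have hCge : 2 / η + 16 + 1 / κ2 + 1 / K1 + 3 / (η * κ * K) ≤ (C : ℝ) := by
    rw [hC]; exact Nat.le_ceil _
  have p1 : 0 < 2 / η := by positivity
  have p2 : 0 < 1 / κ2 := by positivity
  have p3 : 0 < 1 / K1 := by positivity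
  have p4 : 0 < 3 / (η * κ * K) := by positivity
  refine ⟨C, ?_⟩
  intro r m J W Q R hCm hCr hJ hW hQ hR hsum
  have hmC : (C : ℝ) ≤ m := by exact_mod_cast hCm
  have hm16 : (16 : ℝ) ≤ m := by linarith
  have hmpos : (0 : ℝ) < m := by linarith
  have hm16' : 16 ≤ m := by exact_mod_cast hm16
  have hηm : 2 ≤ η * m := by
    have : 2 / η ≤ m := by linarith
    rw [div_le_iff₀ hη] at this
    linarith
  obtain ⟨h, hh⟩ : ∃ h : ℕ, h = ⌊η * m⌋₊ := ⟨_, rfl⟩
  rw [← hh] at hJ hQ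
  have hh1 : (h : ℝ) ≤ η * m := by
    rw [hh]; exact Nat.floor_le (by positivity)
  have hh2 : η * m / 2 ≤ h := by
    have := (Nat.lt_floor_add_one (η * m)).le
    rw [← hh] at this
    linarith
  have hhpos : (0 : ℝ) < h := by linarith
  have hhpos' : 0 < h := by exact_mod_cast hhpos
  have hh8 : (h : ℝ) ≤ m / 8 := by
    have := mul_le_mul_of_nonneg_right hη1 hmpos.le
    linarith
  have hh8' : 8 * h ≤ m := by
    have : (8 : ℝ) * h ≤ m := by linarith
    exact_mod_cast this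
  obtain ⟨x, hx⟩ : ∃ x : ℝ, x = (r : ℝ) / m := ⟨_, rfl⟩
  have hrx : (r : ℝ) = x * m := by rw [hx]; field_simp
  have hxC : (C : ℝ) ≤ x := by
    rw [hx, le_div_iff₀ hmpos]; exact_mod_cast hCr
  have hx16 : 16 ≤ x := by linarith
  have hxpos : 0 < x := by linarith
  rw [← hx]
  -- `J`
  have hJ1 : (J : ℝ) * h ≤ r + h := by
    have h1 : r / h * h ≤ r := Nat.div_mul_le_self r h
    have h2 : J * h ≤ r + h := by
      rw [hJ, Nat.add_mul, one_mul]; omega
    exact_mod_cast h2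
  have hJ2 : (r : ℝ) ≤ J * h := by
    have h1 : r < (r / h + 1) * h := Nat.lt_mul_of_div_lt (Nat.lt_succ_self _) hhpos'
    rw [← hJ] at h1
    exact_mod_cast h1.le
  have hJ3 : x / η ≤ J := by
    rw [div_le_iff₀ hη]
    have h1 : x * m ≤ J * η * m := by
      rw [← hrx]
      have := mul_le_mul_of_nonneg_left hh1 (Nat.cast_nonneg J : (0:ℝ) ≤ J)
      linarith
    exact le_of_mul_le_mul_right h1 hmpos
  have hJ4 : (J : ℝ) ≤ 3 * x / η := by
    rw [le_div_iff₀ hη]
    have h1 : (J : ℝ) * (η * m / 2) ≤ r + h :=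
      (mul_le_mul_of_nonneg_left hh2 (Nat.cast_nonneg J)).trans hJ1
    have h2 : (J : ℝ) * η * m ≤ 3 * x * m := by
      rw [hrx] at h1
      have h3 : 1 * (m : ℝ) ≤ x * m := mul_le_mul_of_nonneg_right (by linarith) hmpos.le
      have h4 : (J : ℝ) * η * m = 2 * (J * (η * m / 2)) := by ring
      have h5 : 3 * x * m = 3 * (x * m) := by ring
      rw [h4, h5]
      linarith
    exact le_of_mul_le_mul_right h2 hmpos
  have hJ0 : (0 : ℝ) ≤ J := Nat.cast_nonneg J
  -- parameters of the rectangles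
  obtain ⟨l, hl⟩ : ∃ l : ℕ, l = m / (4 * h) := ⟨_, rfl⟩
  have hlh : l * h ≤ m / 4 := by
    rw [hl, Nat.le_div_iff_mul_le (by norm_num)]
    calc m / (4 * h) * h * 4 = m / (4 * h) * (4 * h) := by ring
      _ ≤ m := Nat.div_mul_le_self m (4 * h)
  have hlη : (l : ℝ) ≤ 1 / (2 * η) := by
    have h1 : ((l * h : ℕ) : ℝ) ≤ m / 4 := by
      refine le_trans (Nat.cast_le.2 hlh) ?_
      have := @Nat.cast_div_le ℝ _ _ _ m 4
      simpa using this
    push_cast at h1
    have h2 : (l : ℝ) * (η * m / 2) ≤ m / 4 :=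
      (mul_le_mul_of_nonneg_left hh2 (Nat.cast_nonneg l)).trans h1
    rw [le_div_iff₀ (by positivity)]
    have h3 : (l : ℝ) * (2 * η) * m ≤ 1 * m := by linarith
    exact le_of_mul_le_mul_right h3 hmpos
  have hl8 : (m : ℝ) / 8 ≤ l * h := by
    have h1 : m < (l + 1) * (4 * h) := by
      rw [hl]
      exact Nat.lt_mul_of_div_lt (Nat.lt_succ_self _) (by omega)
    have h2 : (m : ℝ) ≤ (l + 1) * (4 * h) := by exact_mod_cast h1.le
    have h3 : ((l : ℝ) + 1) * (4 * h) = 4 * (l * h) + 4 * h := by ring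
    rw [h3] at h2
    linarith
  have hm'5 : (m : ℝ) / 5 ≤ ((m / 4 : ℕ) : ℝ) := by
    have h1 : m ≤ 4 * (m / 4) + 3 := by omega
    have h2 : (m : ℝ) ≤ 4 * ((m / 4 : ℕ) : ℝ) + 3 := by exact_mod_cast h1
    linarith
  have hl1 : 1 ≤ l := by
    rcases Nat.eq_zero_or_pos l with h0 | h0
    · rw [h0] at hl8
      simp at hl8
      linarith
    · exact h0
  -- greedy rectangles
  obtain ⟨Qa, R', hQa, hR', hcov, hR'sum, hQaC⟩ := greedy_rect J l (m / 4) (K * r) W R κ2 hκ20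
    hκ21 hl1 (by omega) hR (by
      have h1 : 1 / κ2 ≤ x := by linarith
      rw [div_le_iff₀ hκ20] at h1
      have h2 : κ2 * (x / η) ≤ κ2 * J := mul_le_mul_of_nonneg_left hJ3 hκ20.le
      have h3 : 1 / η ≤ κ2 * (x / η) := by
        rw [← mul_div_assoc, div_le_div_iff_of_pos_right hη]
        linarith
      have h4 : 2 * (l : ℝ) ≤ 1 / η := by
        have h5 : 2 * (1 / (2 * η)) = 1 / η := by field_simp
        linarith
      linarith) hW (by
      have h1 : ((m / 4 : ℕ) : ℝ) ≤ m := by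
        exact_mod_cast Nat.div_le_self m 4
      refine h1.trans ?_
      have h2 : (κ2 / 2) ^ N ≤ (κ2 / 2) ^ l := by
        refine pow_le_pow_of_le_one (by positivity) (by linarith) ?_
        have h5 : 1 / (2 * η) ≤ 1 / η := by
          apply div_le_div_of_nonneg_left zero_le_one hη
          linarith
        have : (l : ℝ) ≤ N := (hlη.trans h5).trans (by rw [hN]; exact Nat.le_ceil _)
        exact_mod_cast this
      have h3 : κ2 * (κ2 / 2) ^ N * (2 * κ2 * (K * r)) ≤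
          κ2 * (κ2 / 2) ^ l * (2 * κ2 * (K * r)) := by gcongr
      refine le_trans ?_ h3
      have h4' : κ2 * (κ2 / 2) ^ N * (2 * κ2 * (K * r)) = K1 * r := by
        rw [hK1]; ring
      rw [h4', hrx]
      have h5' : 1 ≤ K1 * x := by
        have : 1 / K1 ≤ x := by linarith
        rwa [div_le_iff₀ hK10, mul_comm] at this
      calc (m : ℝ) = 1 * m := (one_mul _).symm
        _ ≤ K1 * x * m := mul_le_mul_of_nonneg_right h5' hmpos.le
        _ = K1 * (x * m) := by ring)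
  -- pieces of the rest
  have ht1 : 1 ≤ m / 4 := by omega
  have hc : ∀ j, ∃ P : Finset (Finset ℕ), P.card ≤ (R' j).card / (m / 4) + 1 ∧
      (∀ T ∈ P, T.card ≤ m / 4) ∧ ∀ v ∈ R' j, ∃ T ∈ P, v ∈ T := by
    intro j
    refine chunks6 (m / 4) _ (R' j) ?_
    have h1 := Nat.div_add_mod (R' j).card (m / 4)
    have h2 := Nat.mod_lt (R' j).card ht1
    rw [Nat.add_mul, Nat.mul_comm ((R' j).card / (m / 4)) (m / 4)]
    omega
  choose P hP hPt hPc using hc
  set TT1 : Finset (Finset ℕ) := Qa.image fun p => p.1.biUnion Q ∪ p.2 with hTT1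
  set TT2 : Finset (Finset ℕ) :=
    (range J).biUnion fun j => (P j).image fun T => Q j ∪ T with hTT2
  refine ⟨TT1 ∪ TT2, ?_, ?_, ?_⟩
  · intro T hT
    rcases mem_union.1 hT with hT | hT
    · obtain ⟨p, hp, rfl⟩ := mem_image.1 hT
      obtain ⟨h1, h2, h3⟩ := hQa p hp
      have h4 : (p.1.biUnion Q).card ≤ l * h := by
        rw [← h2]
        refine card_biUnion_le_card_mul _ _ _ fun j hj => hQ j (mem_range.1 (h1 hj))
      have h5 := card_union_le (p.1.biUnion Q) p.2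
      omega
    · obtain ⟨j, hj, hT⟩ := mem_biUnion.1 hT
      obtain ⟨T', hT', rfl⟩ := mem_image.1 hT
      have h1 := card_union_le (Q j) T'
      have h2 := hQ j (mem_range.1 hj)
      have h3 := hPt j T' hT'
      omega
  · intro j hj v hv
    rcases hcov j hj v hv with h1 | ⟨p, hp, h1, h2⟩
    · obtain ⟨T, hT, hvT⟩ := hPc j v h1
      exact ⟨Q j ∪ T, mem_union_right _ (mem_biUnion.2 ⟨j, mem_range.2 hj,
        mem_image_of_mem _ hT⟩), subset_union_left, mem_union_right _ hvT⟩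
    · exact ⟨p.1.biUnion Q ∪ p.2, mem_union_left _ (mem_image_of_mem _ hp),
        (subset_biUnion_of_mem Q h1).trans subset_union_left, mem_union_right _ h2⟩
  · have h1 : (((TT1 ∪ TT2).card : ℕ) : ℝ) ≤ TT1.card + TT2.card := by
      exact_mod_cast card_union_le TT1 TT2
    have h2 : (TT1.card : ℝ) ≤ 60 * K * κ * x ^ 2 := by
      have h3 : (TT1.card : ℝ) ≤ Qa.card := by exact_mod_cast card_image_le
      have h4 : (Qa.card : ℝ) * (m / 8 * (m / 5)) ≤ κ * J * (K * r) * h := by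
        have h6 : (Qa.card : ℝ) * (m / 8 * (m / 5)) ≤
            Qa.card * (l * h * ((m / 4 : ℕ) : ℝ)) := by
          refine mul_le_mul_of_nonneg_left ?_ (Nat.cast_nonneg _)
          exact mul_le_mul hl8 hm'5 (by positivity) (by positivity)
        have h7 : (Qa.card : ℝ) * (l * h * ((m / 4 : ℕ) : ℝ)) =
            Qa.card * (l * ((m / 4 : ℕ) : ℝ)) * h := by ring
        rw [h7] at h6
        exact h6.trans (mul_le_mul_of_nonneg_right (hQaC.trans hsum) hhpos.le)
      have h5 : κ * J * (K * r) * h ≤ κ * (K * (x * m)) * (3 / 2 * (x * m)) := by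
        have h6 : (J : ℝ) * h ≤ 3 / 2 * (x * m) := by
          rw [hrx] at hJ1
          have h9 : 1 * (m : ℝ) ≤ x * m := mul_le_mul_of_nonneg_right (by linarith) hmpos.le
          linarith
        have h7 : κ * J * (K * r) * h = κ * (K * (x * m)) * (J * h) := by rw [hrx]; ring
        rw [h7]
        exact mul_le_mul_of_nonneg_left h6 (by positivity)
      have h8 : (Qa.card : ℝ) * (m ^ 2) ≤ 60 * K * κ * x ^ 2 * m ^ 2 := by
        have h9 := h4.trans h5
        have e1 : (Qa.card : ℝ) * (m / 8 * (m / 5)) = Qa.card * m ^ 2 / 40 := by ring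
        have e2 : κ * (K * (x * m)) * (3 / 2 * (x * m)) = 3 / 2 * (K * κ * x ^ 2 * m ^ 2) := by
          ring
        have e3 : 60 * K * κ * x ^ 2 * m ^ 2 = 60 * (K * κ * x ^ 2 * m ^ 2) := by ring
        rw [e1, e2] at h9
        rw [e3]
        linarith
      exact h3.trans (le_of_mul_le_mul_right h8 (by positivity))
    have h3 : (TT2.card : ℝ) ≤ 2 * K * κ * x ^ 2 := by
      have h4 : TT2.card ≤ ∑ j ∈ range J, ((R' j).card / (m / 4) + 1) := by
        refine card_biUnion_le.trans (sum_le_sum fun j hj => ?_)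
        exact card_image_le.trans (hP j)
      have h5 : (TT2.card : ℝ) ≤ ∑ j ∈ range J, (((R' j).card : ℝ) / ((m / 4 : ℕ) : ℝ) + 1) := by
        refine le_trans (Nat.cast_le.2 h4) ?_
        push_cast
        refine sum_le_sum fun j hj => ?_
        have := @Nat.cast_div_le ℝ _ _ _ (R' j).card (m / 4)
        linarith
      rw [sum_add_distrib, ← sum_div] at h5
      have h6 : (∑ j ∈ range J, ((R' j).card : ℝ)) / ((m / 4 : ℕ) : ℝ) ≤ K * κ * x ^ 2 := by
        have ht : (0 : ℝ) < ((m / 4 : ℕ) : ℝ) := by linarith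
        rw [div_le_iff₀ ht]
        refine hR'sum.trans ?_
        have h7 : 2 * κ2 * J * (K * r) ≤ 2 * κ2 * (3 * x / η) * (K * (x * m)) := by
          rw [← hrx]
          have : 2 * κ2 * (J : ℝ) ≤ 2 * κ2 * (3 * x / η) := by gcongr
          exact mul_le_mul_of_nonneg_right this (by positivity)
        refine h7.trans ?_
        have h8 : 2 * κ2 * (3 * x / η) * (K * (x * m)) = 3 / 32 * (K * κ * x ^ 2 * m) := by
          rw [hκ2]
          field_simp
          ring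
        rw [h8]
        have h9 : K * κ * x ^ 2 * (m / 5) ≤ K * κ * x ^ 2 * ((m / 4 : ℕ) : ℝ) := by gcongr
        have h10 : 0 ≤ K * κ * x ^ 2 * m := by positivity
        linarith
      have h7 : (J : ℝ) ≤ K * κ * x ^ 2 := by
        refine hJ4.trans ?_
        have h8 : 3 / (η * κ * K) ≤ x := by linarith
        rw [div_le_iff₀ (by positivity)] at h8
        rw [div_le_iff₀ hη]
        calc 3 * x ≤ x * (η * κ * K) * x := mul_le_mul_of_nonneg_right h8 hxpos.le
          _ = K * κ * x ^ 2 * η := by ring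
      have h8 : (∑ j ∈ range J, (1 : ℝ)) = J := by simp
      rw [h8] at h5
      linarith
    have h4 : 0 ≤ K * κ * x ^ 2 := by positivity
    linarith

end LocTr
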