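import Pool.Agent.Work.MP_a8cb64_co.TEDefs
import Pool.Agent.Work.MP_a8cb64_co.TE2
import Pool.Agent.Work.MP_a8cb64_co.LS1

/-!
MP_a8cb64_co, Theorem S (note 2485, helper94): Lemma E.
-/

namespace LocTr

open Finset

/-- The statement of `sparse_cover` (TE2). -/
def SparseCoverStmt : Prop := ∀ (K κ η : ℝ), 0 < K → 0 < κ → κ ≤ 1 → 0 < η → η ≤ 1 / 8 →
  ∃ X0 : ℕ, ∀ (r m J : ℕ) (W : Finset ℕ) (Q R : ℕ → Finset ℕ), X0 ≤ m → X0 * m ≤ r →
    J = r / ⌊η * m⌋₊ + 1 → (W.card : ℝ) ≤ K * r → (∀ j < J, (Q j).card ≤ ⌊η * m⌋₊) →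
    (∀ j < J, R j ⊆ W) → (∑ j ∈ range J, ((R j).card : ℝ)) ≤ κ * J * (K * r) →
    ∃ TT : Finset (Finset ℕ), (∀ T ∈ TT, 2 * T.card ≤ m) ∧
      (∀ j < J, ∀ v ∈ R j, ∃ T ∈ TT, Q j ⊆ T ∧ v ∈ T) ∧
      (TT.card : ℝ) ≤ 200 * K * κ * ((r : ℝ) / m) ^ 2

theorem core_nonempty {F : Finset (Finset ℕ)} {I : Finset ℕ}
    (hI : ∀ x, x ∈ I ↔ ∀ e ∈ F, x ∈ e) : F.Nonempty := by
  by_contra hF
  rw [not_nonempty_iff_eq_empty] at hF
  subst hF
  obtain ⟨x, hx⟩ := I.exists_notMem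
  exact hx ((hI x).2 (by simp))

theorem coreStmt_one : CoreStmt 1 := by
  intro K κ θ τ _ hκ hθ hτ
  obtain ⟨X0, hX0⟩ := exists_nat_ge (max (2 / κ) ((2 / κ + 1) / θ))
  refine ⟨X0 + 1, ?_⟩
  intro r m H B hm hr hHr hH _
  have hm1 : 1 ≤ m := by omega
  have hmR : (1 : ℝ) ≤ m := by exact_mod_cast hm1
  have hm0 : (0 : ℝ) < m := by linarith
  have hrR : (X0 : ℝ) * m ≤ r := by
    have : X0 * m ≤ r := le_trans (Nat.mul_le_mul_right _ (by omega)) hr
    exact_mod_cast this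
  have hXa : 2 / κ ≤ X0 := (le_max_left _ _).trans hX0
  have hXb : (2 / κ + 1) / θ ≤ X0 := (le_max_right _ _).trans hX0
  set D : ℕ := ⌈2 * m / κ⌉₊ with hD
  have hD1 : 2 * m / κ ≤ D := Nat.le_ceil _
  have hD0 : (0 : ℝ) < D := lt_of_lt_of_le (by positivity) hD1
  have hD2 : (D : ℝ) ≤ 2 * m / κ + 1 := (Nat.ceil_lt_add_one (by positivity)).le
  have hDn : 1 ≤ D := by exact_mod_cast hD0
  obtain ⟨F, hF, I, hFc, -, hI, hst⟩ := exists_core H r m D hHr hH hDn ∅ (by simp)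
  have hne := core_nonempty hI
  refine ⟨∅, F, I, hF, by simp; positivity, ?_, ?_, ?_⟩
  · refine hFc.trans ?_
    rw [pow_one]
    have h1 : (r : ℝ) / D ≤ κ * (r / m) / 2 := by
      rw [div_le_iff₀ hD0]
      have : κ * (r / m) / 2 * D ≥ κ * (r / m) / 2 * (2 * m / κ) :=
        mul_le_mul_of_nonneg_left hD1 (by positivity)
      have h2 : κ * ((r : ℝ) / m) / 2 * (2 * m / κ) = r := by
        field_simp
      linarith
    have h3 : 1 ≤ κ * ((r : ℝ) / m) / 2 := by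
      have h4 : 2 / κ ≤ (r : ℝ) / m := by
        rw [le_div_iff₀ hm0]
        exact (mul_le_mul_of_nonneg_right hXa hm0.le).trans hrR
      rw [div_le_iff₀ hκ] at h4
      linarith
    linarith
  · intro e he _
    have h1 : ((I \ e).card : ℝ) ≤ D := by exact_mod_cast hst e he (by simp)
    refine h1.trans (hD2.trans ?_)
    have h2 : (2 / κ + 1) * m ≤ θ * r := by
      rw [div_le_iff₀ hθ] at hXb
      calc (2 / κ + 1) * m ≤ (X0 * θ) * m := mul_le_mul_of_nonneg_right hXb hm0.le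
        _ = θ * (X0 * m) := by ring
        _ ≤ θ * r := mul_le_mul_of_nonneg_left hrR hθ.le
    have h3 : 2 * (m : ℝ) / κ + 1 ≤ (2 / κ + 1) * m := by
      have : 2 * (m : ℝ) / κ = 2 / κ * m := by ring
      rw [this]
      linarith
    linarith
  · intro V hV hhit
    have key : ∀ v ∈ V, v ∈ I := by
      intro v hv
      rw [hI]
      intro e he
      obtain ⟨w, hwe, hwV⟩ := not_disjoint_iff.1 (hhit e he)
      have : w = v := card_le_one.1 hV w hwV v hv
      exact this ▸ hwe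
    refine ⟨fun v hv => key v (mem_inter.1 hv).1, ?_⟩
    obtain ⟨e, he⟩ := hne
    obtain ⟨w, hwe, hwV⟩ := not_disjoint_iff.1 (hhit e he)
    exact ⟨w, mem_inter.2 ⟨hwV, key w hwV⟩⟩

/-- the combinatorial data of one step of Lemma E. -/
theorem step_hit (t h J : ℕ) (H F1 : Finset (Finset ℕ)) (r : ℕ) (I B' : Finset ℕ)
    (hh : 1 ≤ h) (hHr : ∀ e ∈ H, e.card = r) (hF1 : F1 ⊆ H) (hJ : J = r / h + 1)
    (hI : ∀ x, x ∈ I ↔ ∀ e ∈ F1, x ∈ e)
    (FF : Finset ℕ → Finset (Finset ℕ)) (AA : Finset ℕ → Finset ℕ)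
    (hFF : ∀ Z : Finset ℕ, Z.card ≤ h → FF Z ⊆ missing H Z)
    (hAA : ∀ Z : Finset ℕ, Z.card ≤ h → ∀ V : Finset ℕ, V.card ≤ t →
      (∀ e ∈ FF Z, ¬ Disjoint e V) → V ∩ B' ⊆ AA Z ∧ (V ∩ AA Z).Nonempty)
    (R : Finset ℕ → Finset ℕ)
    (TT : Finset ℕ → Finset (Finset ℕ)) (G : Finset ℕ → Finset (Finset ℕ))
    (hTT : ∀ e ∈ F1, ∀ j < J, ∀ v ∈ AA (piece e h j) ∩ (B' \ R e), ∃ T ∈ TT e,
      piece e h j ⊆ T ∧ v ∈ T)
    (hG1 : ∀ e ∈ F1, ∀ T ∈ TT e, G T ⊆ missing H T)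
    (hG2 : ∀ e ∈ F1, ∀ T ∈ TT e, ∀ V : Finset ℕ, V.card ≤ t - 1 → ∃ e ∈ G T, Disjoint e V)
    (V : Finset ℕ) (hV : V.card ≤ t + 1)
    (hhit : ∀ e ∈ F1 ∪ (F1.biUnion fun e => (range J).biUnion fun j => FF (piece e h j)) ∪
      (F1.biUnion fun e => (TT e).biUnion G), ¬ Disjoint e V) :
    V ∩ B' ⊆ I ∪ F1.biUnion R := by
  classical
  intro v hv
  obtain ⟨hvV, hvB⟩ := mem_inter.1 hv
  by_cases hvI : v ∈ I
  · exact mem_union_left _ hvI
  have h1 : ∃ e ∈ F1, v ∉ e := by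
    by_contra hcon
    push Not at hcon
    exact hvI ((hI v).2 hcon)
  obtain ⟨e, he, hve⟩ := h1
  obtain ⟨v1, hv1e, hv1V⟩ := not_disjoint_iff.1
    (hhit e (mem_union_left _ (mem_union_left _ he)))
  have hv1v : v1 ≠ v := fun h => hve (h ▸ hv1e)
  obtain ⟨j, hj, hv1j⟩ := exists_piece h hv1e
  rw [hHr e (hF1 he), ← hJ] at hj
  have hZ : (piece e h j).card ≤ h := piece_card_le e hh j
  have hvZ : v ∉ piece e h j := fun h2 => hve (piece_subset e h j h2)
  have hcard : (V \ piece e h j).card ≤ t := by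
    have h2 : (V \ piece e h j).card < V.card := by
      apply card_lt_card
      rw [Finset.ssubset_iff_of_subset sdiff_subset]
      exact ⟨v1, hv1V, by simp [hv1j]⟩
    omega
  have hhit' : ∀ e' ∈ FF (piece e h j), ¬ Disjoint e' (V \ piece e h j) := by
    intro e' he' hd
    have h2 := (mem_missing.1 (hFF _ hZ he')).2
    have h3 : e' ∈ F1 ∪ (F1.biUnion fun e => (range J).biUnion fun j => FF (piece e h j)) ∪
      (F1.biUnion fun e => (TT e).biUnion G) :=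
      mem_union_left _ (mem_union_right _ (mem_biUnion.2 ⟨e, he, mem_biUnion.2
        ⟨j, mem_range.2 hj, he'⟩⟩))
    apply hhit e' h3
    rw [disjoint_left] at hd h2 ⊢
    intro w hwe hwV
    by_cases hw : w ∈ piece e h j
    · exact h2 hwe hw
    · exact hd hwe (mem_sdiff.2 ⟨hwV, hw⟩)
  have hvA : v ∈ AA (piece e h j) :=
    (hAA _ hZ _ hcard hhit').1 (mem_inter.2 ⟨mem_sdiff.2 ⟨hvV, hvZ⟩, hvB⟩)
  by_cases hvR : v ∈ R e
  · exact mem_union_right _ (mem_biUnion.2 ⟨e, he, hvR⟩)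
  exfalso
  obtain ⟨T, hT, hZT, hvT⟩ := hTT e he j hj v (mem_inter.2 ⟨hvA, mem_sdiff.2 ⟨hvB, hvR⟩⟩)
  have hv1T : v1 ∈ T := hZT hv1j
  have hcard2 : (V \ T).card ≤ t - 1 := by
    have h2 : ({v1, v} : Finset ℕ) ⊆ V ∩ T := by
      intro w hw
      rcases mem_insert.1 hw with h3 | h3
      · exact h3 ▸ mem_inter.2 ⟨hv1V, hv1T⟩
      · exact (mem_singleton.1 h3) ▸ mem_inter.2 ⟨hvV, hvT⟩
    have h3 := card_le_card h2
    rw [card_pair hv1v] at h3
    have h4 := card_sdiff_add_card_inter V T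
    omega
  obtain ⟨e', he', hd⟩ := hG2 e he T hT _ hcard2
  have h2 := (mem_missing.1 (hG1 e he T hT he')).2
  apply hhit e' (mem_union_right _ (mem_biUnion.2 ⟨e, he, mem_biUnion.2 ⟨T, hT, he'⟩⟩))
  rw [disjoint_left] at hd h2 ⊢
  intro w hwe hwV
  by_cases hw : w ∈ T
  · exact h2 hwe hw
  · exact hd hwe (mem_sdiff.2 ⟨hwV, hw⟩)


/-- the stability of `A` in one step of Lemma E. -/
theorem step_stable (h l : ℕ) (F1 : Finset (Finset ℕ)) (I : Finset ℕ)
    (TT AA : Finset ℕ → Finset ℕ) (R : Finset ℕ → Finset ℕ) (S : Finset ℕ → Finset ℕ)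
    (e : Finset ℕ) (x y z k1 : ℝ) (hx : ((I \ e).card : ℝ) ≤ x) (hk1 : (F1.card : ℝ) ≤ k1)
    (hy : ∀ f ∈ F1, ((R f \ (S f).biUnion fun j => AA (piece f h j)).card : ℝ) ≤ y)
    (hSl : ∀ f ∈ F1, (S f).card ≤ l) (hy0 : 0 ≤ y) (hz0 : 0 ≤ z)
    (hz : ∀ f ∈ F1, ∀ j ∈ S f, Disjoint e (piece f h j) → Disjoint e (TT (piece f h j)) →
      ((AA (piece f h j) \ e).card : ℝ) ≤ z)
    (hd : Disjoint e (F1.biUnion fun f => (S f).biUnion fun j =>
      piece f h j ∪ TT (piece f h j))) :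
    (((I ∪ F1.biUnion R) \ e).card : ℝ) ≤ x + k1 * (y + l * z) := by
  classical
  have hdisj : ∀ f ∈ F1, ∀ j ∈ S f, Disjoint e (piece f h j) ∧ Disjoint e (TT (piece f h j)) := by
    intro f hf j hj
    rw [disjoint_biUnion_right] at hd
    have h1 := hd f hf
    rw [disjoint_biUnion_right] at h1
    have h2 := h1 j hj
    rw [disjoint_union_right] at h2
    exact h2
  have hsub : (I ∪ F1.biUnion R) \ e ⊆ (I \ e) ∪ F1.biUnion fun f =>
      (R f \ (S f).biUnion fun j => AA (piece f h j)) ∪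
        (S f).biUnion fun j => AA (piece f h j) \ e := by
    intro v hv
    obtain ⟨hv1, hve⟩ := mem_sdiff.1 hv
    rcases mem_union.1 hv1 with h1 | h1
    · exact mem_union_left _ (mem_sdiff.2 ⟨h1, hve⟩)
    · obtain ⟨f, hf, hvf⟩ := mem_biUnion.1 h1
      refine mem_union_right _ (mem_biUnion.2 ⟨f, hf, ?_⟩)
      by_cases h2 : v ∈ (S f).biUnion fun j => AA (piece f h j)
      · obtain ⟨j, hj, hvj⟩ := mem_biUnion.1 h2
        exact mem_union_right _ (mem_biUnion.2 ⟨j, hj, mem_sdiff.2 ⟨hvj, hve⟩⟩)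
      · exact mem_union_left _ (mem_sdiff.2 ⟨hvf, h2⟩)
  have h3 : (((I ∪ F1.biUnion R) \ e).card : ℝ) ≤ ((I \ e).card : ℝ) + ∑ f ∈ F1,
      (((R f \ (S f).biUnion fun j => AA (piece f h j)).card : ℝ) +
        ∑ j ∈ S f, ((AA (piece f h j) \ e).card : ℝ)) := by
    have h4 : ((I ∪ F1.biUnion R) \ e).card ≤ (I \ e).card + ∑ f ∈ F1,
      ((R f \ (S f).biUnion fun j => AA (piece f h j)).card +
        ∑ j ∈ S f, (AA (piece f h j) \ e).card) := by
      refine (card_le_card hsub).trans ((card_union_le _ _).trans ?_)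
      refine Nat.add_le_add_left (card_biUnion_le.trans (sum_le_sum fun f _ => ?_)) _
      exact (card_union_le _ _).trans (Nat.add_le_add_left card_biUnion_le _)
    exact_mod_cast h4
  have h5 : ∑ f ∈ F1, (((R f \ (S f).biUnion fun j => AA (piece f h j)).card : ℝ) +
        ∑ j ∈ S f, ((AA (piece f h j) \ e).card : ℝ)) ≤ ∑ _f ∈ F1, (y + l * z) := by
    refine sum_le_sum fun f hf => add_le_add (hy f hf) ?_
    calc ∑ j ∈ S f, ((AA (piece f h j) \ e).card : ℝ) ≤ ∑ _j ∈ S f, z :=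
          sum_le_sum fun j hj => hz f hf j hj (hdisj f hf j hj).1 (hdisj f hf j hj).2
      _ = (S f).card * z := by rw [sum_const, nsmul_eq_mul]
      _ ≤ l * z := mul_le_mul_of_nonneg_right (by exact_mod_cast hSl f hf) hz0
  rw [sum_const, nsmul_eq_mul] at h5
  have h6 : (F1.card : ℝ) * (y + l * z) ≤ k1 * (y + l * z) :=
    mul_le_mul_of_nonneg_right hk1 (by positivity)
  linarith

/-- the size of `T0` in one step of Lemma E. -/
theorem step_T0 (h l : ℕ) (hh : 1 ≤ h) (F1 : Finset (Finset ℕ)) (TT : Finset ℕ → Finset ℕ)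
    (S : Finset ℕ → Finset ℕ) (y k1 : ℝ) (hk1 : (F1.card : ℝ) ≤ k1) (hy0 : 0 ≤ y)
    (hSl : ∀ f ∈ F1, (S f).card ≤ l)
    (hTT : ∀ Z : Finset ℕ, Z.card ≤ h → ((TT Z).card : ℝ) ≤ y) :
    ((F1.biUnion fun f => (S f).biUnion fun j => piece f h j ∪ TT (piece f h j)).card : ℝ) ≤
      k1 * (l * (h + y)) := by
  classical
  have h1 : ((F1.biUnion fun f => (S f).biUnion fun j =>
      piece f h j ∪ TT (piece f h j)).card : ℝ) ≤ ∑ f ∈ F1, ∑ j ∈ S f,
        (((piece f h j).card : ℝ) + ((TT (piece f h j)).card : ℝ)) := by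
    have h2 : (F1.biUnion fun f => (S f).biUnion fun j =>
      piece f h j ∪ TT (piece f h j)).card ≤ ∑ f ∈ F1, ∑ j ∈ S f,
        ((piece f h j).card + (TT (piece f h j)).card) := by
      refine card_biUnion_le.trans (sum_le_sum fun f _ => card_biUnion_le.trans
        (sum_le_sum fun j _ => card_union_le _ _))
    exact_mod_cast h2
  refine h1.trans ?_
  calc ∑ f ∈ F1, ∑ j ∈ S f, (((piece f h j).card : ℝ) + ((TT (piece f h j)).card : ℝ))
      ≤ ∑ f ∈ F1, ∑ _j ∈ S f, ((h : ℝ) + y) := by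
        refine sum_le_sum fun f _ => sum_le_sum fun j _ => add_le_add ?_ ?_
        · exact_mod_cast piece_card_le f hh j
        · exact hTT _ (piece_card_le f hh j)
    _ ≤ ∑ _f ∈ F1, (l * ((h : ℝ) + y)) := by
        refine sum_le_sum fun f hf => ?_
        rw [sum_const, nsmul_eq_mul]
        exact mul_le_mul_of_nonneg_right (by exact_mod_cast hSl f hf) (by positivity)
    _ = F1.card * (l * ((h : ℝ) + y)) := by rw [sum_const, nsmul_eq_mul]
    _ ≤ k1 * (l * ((h : ℝ) + y)) := mul_le_mul_of_nonneg_right hk1 (by positivity)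

/-- the number of edges used in one step of Lemma E. -/
theorem step_count (h J : ℕ) (hh : 1 ≤ h) (F1 : Finset (Finset ℕ))
    (FF : Finset ℕ → Finset (Finset ℕ)) (TT : Finset ℕ → Finset (Finset ℕ))
    (G : Finset ℕ → Finset (Finset ℕ)) (k1 a b c : ℝ) (hk1 : (F1.card : ℝ) ≤ k1)
    (ha : ∀ Z : Finset ℕ, Z.card ≤ h → ((FF Z).card : ℝ) ≤ a) (ha0 : 0 ≤ a) (hc0 : 0 ≤ c)
    (hb0 : 0 ≤ b)
    (hb : ∀ e ∈ F1, ((TT e).card : ℝ) ≤ b) (hc : ∀ e ∈ F1, ∀ T ∈ TT e, ((G T).card : ℝ) ≤ c) :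
    ((F1 ∪ (F1.biUnion fun e => (range J).biUnion fun j => FF (piece e h j)) ∪
      (F1.biUnion fun e => (TT e).biUnion G)).card : ℝ) ≤ k1 + k1 * (J * a) + k1 * (b * c) := by
  classical
  have h1 : ((F1 ∪ (F1.biUnion fun e => (range J).biUnion fun j => FF (piece e h j)) ∪
      (F1.biUnion fun e => (TT e).biUnion G)).card : ℝ) ≤ F1.card +
      ∑ e ∈ F1, ∑ j ∈ range J, ((FF (piece e h j)).card : ℝ) +
      ∑ e ∈ F1, ∑ T ∈ TT e, ((G T).card : ℝ) := by
    have h2 : (F1 ∪ (F1.biUnion fun e => (range J).biUnion fun j => FF (piece e h j)) ∪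
      (F1.biUnion fun e => (TT e).biUnion G)).card ≤ F1.card +
      ∑ e ∈ F1, ∑ j ∈ range J, (FF (piece e h j)).card +
      ∑ e ∈ F1, ∑ T ∈ TT e, (G T).card := by
      refine (card_union_le _ _).trans (Nat.add_le_add ((card_union_le _ _).trans
        (Nat.add_le_add_left ?_ _)) ?_)
      · exact card_biUnion_le.trans (sum_le_sum fun e _ => card_biUnion_le)
      · exact card_biUnion_le.trans (sum_le_sum fun e _ => card_biUnion_le)
    exact_mod_cast h2
  refine h1.trans (add_le_add (add_le_add hk1 ?_) ?_)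
  · calc ∑ e ∈ F1, ∑ j ∈ range J, ((FF (piece e h j)).card : ℝ)
        ≤ ∑ _e ∈ F1, ∑ _j ∈ range J, a :=
          sum_le_sum fun e _ => sum_le_sum fun j _ => ha _ (piece_card_le e hh j)
      _ = F1.card * (J * a) := by simp
      _ ≤ k1 * (J * a) := mul_le_mul_of_nonneg_right hk1 (by positivity)
  · calc ∑ e ∈ F1, ∑ T ∈ TT e, ((G T).card : ℝ) ≤ ∑ _e ∈ F1, (b * c) := by
          refine sum_le_sum fun e he => ?_
          calc ∑ T ∈ TT e, ((G T).card : ℝ) ≤ ∑ _T ∈ TT e, c := sum_le_sum (hc e he)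
            _ = (TT e).card * c := by rw [sum_const, nsmul_eq_mul]
            _ ≤ b * c := mul_le_mul_of_nonneg_right (hb e he) hc0
      _ = F1.card * (b * c) := by rw [sum_const, nsmul_eq_mul]
      _ ≤ k1 * (b * c) := mul_le_mul_of_nonneg_right hk1 (by positivity)

/-- the sparse pairs. -/
theorem step_sparse (h J : ℕ) (AA : Finset ℕ → Finset ℕ) (B' : Finset ℕ) (e : Finset ℕ)
    (κ1 : ℝ) (hκ1 : 0 ≤ κ1) :
    ∑ j ∈ range J, ((AA (piece e h j) ∩ (B' \ B'.filter fun v =>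
      κ1 * J ≤ (((range J).filter fun j => v ∈ AA (piece e h j)).card : ℝ))).card : ℝ) ≤
      κ1 * J * B'.card := by
  classical
  set W : Finset ℕ := B' \ B'.filter fun v =>
      κ1 * J ≤ (((range J).filter fun j => v ∈ AA (piece e h j)).card : ℝ) with hW
  have h1 : ∑ j ∈ range J, (AA (piece e h j) ∩ W).card =
      ∑ v ∈ W, ((range J).filter fun j => v ∈ AA (piece e h j)).card := by
    have h3 : ∀ j ∈ range J, (AA (piece e h j) ∩ W).card =
        ∑ v ∈ W, if v ∈ AA (piece e h j) then 1 else 0 := by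
      intro j _
      rw [← card_filter, filter_mem_eq_inter, inter_comm]
    rw [sum_congr rfl h3, sum_comm]
    exact sum_congr rfl fun v _ => by rw [← card_filter]
  have h4 : ∑ j ∈ range J, ((AA (piece e h j) ∩ W).card : ℝ) =
      ∑ v ∈ W, (((range J).filter fun j => v ∈ AA (piece e h j)).card : ℝ) := by
    exact_mod_cast h1
  rw [h4]
  calc ∑ v ∈ W, (((range J).filter fun j => v ∈ AA (piece e h j)).card : ℝ)
      ≤ ∑ _v ∈ W, κ1 * J := by
        refine sum_le_sum fun v hv => ?_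
        rw [hW, mem_sdiff, mem_filter] at hv
        by_contra hcon
        push Not at hcon
        exact hv.2 ⟨hv.1, hcon.le⟩
    _ = κ1 * J * W.card := by rw [sum_const, nsmul_eq_mul]; ring
    _ ≤ κ1 * J * B'.card := by
        refine mul_le_mul_of_nonneg_left ?_ (by positivity)
        exact_mod_cast card_le_card sdiff_subset


theorem step_numeric (t : ℕ) (ht : 1 ≤ t) (x κ k1 K2 κ1 κ' η Ct J y : ℝ) (hx : 1 ≤ x)
    (hκ : 0 < κ) (hk1 : 0 < k1) (hK2 : 0 < K2) (hη : 0 < η) (hCt : 0 < Ct)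
    (hκ1 : κ1 ≤ κ / (600 * k1 * K2 * Ct ^ (t - 1))) (hκ' : κ' = κ * η / (12 * k1 * 3 ^ t))
    (hJ : J ≤ 4 / η * x) (hy0 : 0 ≤ y) (hy : y ≤ 3 * x) (hxk : 3 * k1 / κ ≤ x) :
    k1 + k1 * (J * (κ' * y ^ t)) + k1 * (200 * K2 * κ1 * x ^ 2 * (Ct * x) ^ (t - 1)) ≤
      κ * x ^ (t + 1) := by
  have hx0 : 0 < x := by linarith
  have hκ'0 : 0 < κ' := by rw [hκ']; positivity
  have hxt : x ≤ x ^ (t + 1) := by
    calc x = x ^ 1 := (pow_one x).symm
      _ ≤ x ^ (t + 1) := pow_le_pow_right₀ hx (by omega)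
  have h1 : k1 ≤ κ / 3 * x ^ (t + 1) := by
    rw [div_le_iff₀ hκ] at hxk
    nlinarith [mul_le_mul_of_nonneg_left hxt hκ.le]
  have h2 : k1 * (J * (κ' * y ^ t)) ≤ κ / 3 * x ^ (t + 1) := by
    have h3 : y ^ t ≤ (3 * x) ^ t := pow_le_pow_left₀ hy0 hy t
    have h4 : J * (κ' * y ^ t) ≤ (4 / η * x) * (κ' * (3 * x) ^ t) := by
      calc J * (κ' * y ^ t) ≤ (4 / η * x) * (κ' * y ^ t) :=
            mul_le_mul_of_nonneg_right hJ (by positivity)
        _ ≤ (4 / η * x) * (κ' * (3 * x) ^ t) :=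
            mul_le_mul_of_nonneg_left (mul_le_mul_of_nonneg_left h3 hκ'0.le) (by positivity)
    have h5 : k1 * ((4 / η * x) * (κ' * (3 * x) ^ t)) = κ / 3 * x ^ (t + 1) := by
      rw [hκ', mul_pow, pow_succ]
      field_simp
      ring
    calc k1 * (J * (κ' * y ^ t)) ≤ k1 * ((4 / η * x) * (κ' * (3 * x) ^ t)) :=
          mul_le_mul_of_nonneg_left h4 hk1.le
      _ = _ := h5
  have h6 : k1 * (200 * K2 * κ1 * x ^ 2 * (Ct * x) ^ (t - 1)) ≤ κ / 3 * x ^ (t + 1) := by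
    have h7 : x ^ (t + 1) = x ^ 2 * x ^ (t - 1) := by
      rw [← pow_add]
      congr 1
      omega
    rw [le_div_iff₀ (by positivity)] at hκ1
    have h8 : 0 ≤ x ^ 2 * x ^ (t - 1) := by positivity
    rw [mul_pow, h7]
    nlinarith [mul_le_mul_of_nonneg_right hκ1 h8]
  linarith

/-- one step of Lemma E. -/
theorem coreStmt_succ (hS : SparseCoverStmt) (t : ℕ) (ht : 1 ≤ t) (ih : CoreStmt t) :
    CoreStmt (t + 1) := by
  classical
  intro K κ θ τ hK hκ hθ hτ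
  -- the constants
  set k1 : ℝ := 8 / θ + 1 with hk1
  have hk10 : 0 < k1 := by positivity
  set K2 : ℝ := K + k1 with hK2
  have hK20 : 0 < K2 := by positivity
  set Ct : ℝ := 4 * (t + 1) + 2 with hCt
  have hCt0 : 0 < Ct := by positivity
  set κ1 : ℝ := min 1 (κ / (600 * k1 * K2 * Ct ^ (t - 1))) with hκ1
  have hκ10 : 0 < κ1 := lt_min one_pos (by positivity)
  have hκ11 : κ1 ≤ 1 := min_le_left _ _
  have hκ12 : κ1 ≤ κ / (600 * k1 * K2 * Ct ^ (t - 1)) := min_le_right _ _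
  obtain ⟨l, hl⟩ := exists_pow_lt_of_lt_one (show (0 : ℝ) < θ / (4 * k1 * K2) by positivity)
    (show 1 - κ1 < 1 by linarith)
  set η : ℝ := min (1 / 8) (τ / (2 * k1 * (l + 1))) with hη
  have hη0 : 0 < η := lt_min (by norm_num) (by positivity)
  have hη1 : η ≤ 1 / 8 := min_le_left _ _
  have hη2 : η ≤ τ / (2 * k1 * (l + 1)) := min_le_right _ _
  set τ' : ℝ := τ / (2 * k1 * (l + 1)) with hτ'
  have hτ'0 : 0 < τ' := by positivity
  set θ' : ℝ := θ / (4 * k1 * (l + 1)) with hθ'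
  have hθ'0 : 0 < θ' := by positivity
  set κ' : ℝ := κ * η / (12 * k1 * 3 ^ t) with hκ'
  have hκ'0 : 0 < κ' := by positivity
  obtain ⟨X1, hX1⟩ := ih K2 κ' θ' τ' hK20 hκ'0 hθ'0 hτ'0
  obtain ⟨X2, hX2⟩ := hS K2 κ1 η hK20 hκ10 hκ11 hη0 hη1
  obtain ⟨X3, hX3⟩ := exists_nat_ge (max (3 * k1 / κ) (max (8 / θ) (2 / η)))
  refine ⟨2 * X1 + X2 + X3 + 4 * (t + 1) + 4, ?_⟩
  intro r m H B hm hr hHr hH hB
  -- sizes
  have hmR : ((2 * X1 + X2 + X3 + 4 * (t + 1) + 4 : ℕ) : ℝ) ≤ m := by exact_mod_cast hm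
  have hrR : ((2 * X1 + X2 + X3 + 4 * (t + 1) + 4 : ℕ) : ℝ) * m ≤ r := by exact_mod_cast hr
  have hm4 : (4 : ℝ) ≤ m := by
    have : 4 ≤ m := by omega
    exact_mod_cast this
  have hm0 : (0 : ℝ) < m := by linarith
  have hX3m : (X3 : ℝ) ≤ m := by
    have : X3 ≤ m := by omega
    exact_mod_cast this
  have hX3r : (X3 : ℝ) * m ≤ r := by
    have : X3 * m ≤ r := (Nat.mul_le_mul_right _ (by omega)).trans hr
    exact_mod_cast this
  have hXa : 3 * k1 / κ ≤ X3 := (le_max_left _ _).trans hX3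
  have hXb : 8 / θ ≤ X3 := ((le_max_left _ _).trans (le_max_right _ _)).trans hX3
  have hXc : 2 / η ≤ X3 := ((le_max_right _ _).trans (le_max_right _ _)).trans hX3
  have hmr : (m : ℝ) ≤ r := by
    have : 1 * m ≤ r := (Nat.mul_le_mul_right _ (by omega)).trans hr
    rw [one_mul] at this
    exact_mod_cast this
  have hr0 : (0 : ℝ) < r := by linarith
  set x : ℝ := (r : ℝ) / m with hx
  have hx1 : 1 ≤ x := by rw [hx, le_div_iff₀ hm0]; linarith
  have hxX3 : (X3 : ℝ) ≤ x := by rw [hx, le_div_iff₀ hm0]; exact hX3r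
  have hxm : x * m = r := by rw [hx]; field_simp
  -- `h`
  set h : ℕ := ⌊η * m⌋₊ with hh
  have hηm : 2 ≤ η * m := by
    rw [div_le_iff₀ hη0] at hXc
    calc (2 : ℝ) ≤ X3 * η := hXc
      _ ≤ m * η := mul_le_mul_of_nonneg_right hX3m hη0.le
      _ = η * m := mul_comm _ _
  have hh1 : (h : ℝ) ≤ η * m := Nat.floor_le (by positivity)
  have hh2 : η * m < h + 1 := Nat.lt_floor_add_one _
  have hh3 : η * m / 2 ≤ h := by linarith
  have hhn : 1 ≤ h := by
    have : (1 : ℝ) ≤ h := by linarith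
    exact_mod_cast this
  have hh0 : (0 : ℝ) < h := by exact_mod_cast hhn
  have h8h : 8 * h ≤ m := by
    have : (8 : ℝ) * h ≤ m := by
      have : η * m ≤ 1 / 8 * m := mul_le_mul_of_nonneg_right hη1 hm0.le
      linarith
    exact_mod_cast this
  -- the edges `F1`
  set D : ℕ := ⌊θ * r / 4⌋₊ with hD
  have hθr : 8 ≤ θ * r := by
    rw [div_le_iff₀ hθ] at hXb
    have h1 : (X3 : ℝ) ≤ r := hX3m.trans hmr
    calc (8 : ℝ) ≤ X3 * θ := hXb
      _ ≤ r * θ := mul_le_mul_of_nonneg_right h1 hθ.le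
      _ = θ * r := mul_comm _ _
  have hD1 : (D : ℝ) ≤ θ * r / 4 := Nat.floor_le (by positivity)
  have hD2 : θ * r / 4 < D + 1 := Nat.lt_floor_add_one _
  have hD3 : θ * r / 8 ≤ D := by linarith
  have hDn : 1 ≤ D := by
    have : (1 : ℝ) ≤ D := by linarith
    exact_mod_cast this
  have hD0 : (0 : ℝ) < D := by exact_mod_cast hDn
  obtain ⟨F1, hF1, I, hF1c, -, hI, hst⟩ := exists_core H r m D hHr hH hDn ∅ (by simp)
  have hF1k : (F1.card : ℝ) ≤ k1 := by
    refine hF1c.trans ?_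
    have : (r : ℝ) / D ≤ 8 / θ := by
      rw [div_le_div_iff₀ hD0 hθ]
      linarith
    linarith
  have hne := core_nonempty hI
  -- the target set
  set B' : Finset ℕ := B ∪ F1.biUnion id with hB'
  have hB'e : ∀ e ∈ F1, e ⊆ B' := fun e he v hv =>
    mem_union_right _ (mem_biUnion.2 ⟨e, he, hv⟩)
  have hB'c : (B'.card : ℝ) ≤ K2 * r := by
    have h1 : (F1.biUnion id).card ≤ F1.card * r := by
      refine card_biUnion_le.trans ?_
      calc ∑ e ∈ F1, (id e).card ≤ ∑ _e ∈ F1, r :=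
            sum_le_sum fun e he => (hHr e (hF1 he)).le
        _ = F1.card * r := by rw [sum_const, smul_eq_mul]
    have h2 : ((F1.biUnion id).card : ℝ) ≤ F1.card * r := by exact_mod_cast h1
    have h3 : (B'.card : ℝ) ≤ B.card + (F1.biUnion id).card := by
      exact_mod_cast card_union_le B (F1.biUnion id)
    have h4 : (F1.card : ℝ) * r ≤ k1 * r := mul_le_mul_of_nonneg_right hF1k hr0.le
    rw [hK2, add_mul]
    linarith
  -- the induction hypothesis for `missing H Z`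
  have hZ : ∀ Z : Finset ℕ, Z.card ≤ h →
      ∃ (T0 : Finset ℕ) (F : Finset (Finset ℕ)) (A : Finset ℕ), F ⊆ missing H Z ∧
      (T0.card : ℝ) ≤ τ' * (m / 2 : ℕ) ∧ (F.card : ℝ) ≤ κ' * ((r : ℝ) / (m / 2 : ℕ)) ^ t ∧
      (∀ e ∈ missing H Z, Disjoint e T0 → ((A \ e).card : ℝ) ≤ θ' * r) ∧
      ∀ V : Finset ℕ, V.card ≤ t → (∀ e ∈ F, ¬ Disjoint e V) →
        V ∩ B' ⊆ A ∧ (V ∩ A).Nonempty := by
    intro Z hZ
    refine hX1 r (m / 2) (missing H Z) B' (by omega) ?_ (fun e he => hHr e (missing_subset _ _ he))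
      (hH.missing (by omega)) hB'c
    calc X1 * (m / 2) ≤ (2 * X1 + X2 + X3 + 4 * (t + 1) + 4) * m :=
          Nat.mul_le_mul (by omega) (Nat.div_le_self _ _)
      _ ≤ r := hr
  choose! TT FF AA hFF hTTc hFFc hAst hAV using hZ
  set J : ℕ := r / h + 1 with hJ
  have hJ1 : (1 : ℕ) ≤ J := by
    rw [hJ]
    exact Nat.succ_pos _
  have hJx : (J : ℝ) ≤ 4 / η * x := by
    have h1 : ((r / h : ℕ) : ℝ) ≤ (r : ℝ) / h := Nat.cast_div_le
    have h2 : (r : ℝ) / h ≤ 2 / η * x := by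
      rw [div_le_iff₀ hh0]
      calc (r : ℝ) = 2 / η * x * (η * m / 2) := by rw [← hxm]; field_simp
        _ ≤ 2 / η * x * h := mul_le_mul_of_nonneg_left hh3 (by positivity)
    have h3 : 1 ≤ 2 / η * x := by
      have : 1 ≤ 2 / η := by
        rw [le_div_iff₀ hη0]
        linarith
      nlinarith
    have h4 : (J : ℝ) = ((r / h : ℕ) : ℝ) + 1 := by rw [hJ]; push_cast; ring
    rw [h4]
    have h5 : 4 / η * x = 2 / η * x + 2 / η * x := by ring
    rw [h5]
    linarith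
  -- heavy points
  set R : Finset ℕ → Finset ℕ := fun e => B'.filter fun v =>
      κ1 * J ≤ (((range J).filter fun j => v ∈ AA (piece e h j)).card : ℝ) with hR
  -- sparse pairs
  have hcov : ∀ e : Finset ℕ, ∃ TS : Finset (Finset ℕ), (∀ T ∈ TS, 2 * T.card ≤ m) ∧
      (∀ j < J, ∀ v ∈ AA (piece e h j) ∩ (B' \ R e), ∃ T ∈ TS, piece e h j ⊆ T ∧ v ∈ T) ∧
      (TS.card : ℝ) ≤ 200 * K2 * κ1 * x ^ 2 := by
    intro e
    refine hX2 r m J (B' \ R e) (fun j => piece e h j) (fun j => AA (piece e h j) ∩ (B' \ R e))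
      (by omega) ((Nat.mul_le_mul_right _ (by omega)).trans hr) hJ ?_ (fun j _ =>
        piece_card_le e hhn j) (fun j _ => inter_subset_right) ?_
    · refine le_trans ?_ hB'c
      exact_mod_cast card_le_card sdiff_subset
    · refine (step_sparse h J AA B' e κ1 hκ10.le).trans ?_
      exact mul_le_mul_of_nonneg_left hB'c (by positivity)
  choose TS hTS1 hTS2 hTS3 using hcov
  -- the trivial lemma
  set b : ℕ := m / (2 * (t + 1)) with hb
  have hb2 : 2 * (t + 1) * b ≤ m := Nat.mul_div_le _ _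
  have ht0 : (0 : ℝ) < 2 * (t + 1) := by positivity
  have hb3 : (m : ℝ) / (4 * (t + 1)) ≤ b := by
    have h1 : (m : ℝ) / (2 * (t + 1)) < b + 1 := by
      have h2 : m < 2 * (t + 1) * (b + 1) := by
        rw [hb]
        exact Nat.lt_mul_div_succ m (by omega)
      rw [div_lt_iff₀ ht0]
      have h3 : (m : ℝ) < 2 * (t + 1) * (b + 1) := by exact_mod_cast h2
      linarith
    have h4 : (2 : ℝ) ≤ (m : ℝ) / (2 * (t + 1)) := by
      rw [le_div_iff₀ ht0]
      have : 4 * (t + 1) ≤ m := by omega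
      have : ((4 * (t + 1) : ℕ) : ℝ) ≤ m := by exact_mod_cast this
      push_cast at this
      linarith
    have h5 : (m : ℝ) / (4 * (t + 1)) = (m : ℝ) / (2 * (t + 1)) / 2 := by
      field_simp
      ring
    rw [h5]
    linarith
  have hb0 : (0 : ℝ) < b := lt_of_lt_of_le (by positivity) hb3
  have hbn : 1 ≤ b := by exact_mod_cast hb0
  have hG : ∀ T : Finset ℕ, 2 * T.card ≤ m → ∃ F ⊆ missing H T,
      F.card ≤ (r / b + 2) ^ (t - 1) ∧
      ∀ V : Finset ℕ, V.card ≤ t - 1 → ∃ e ∈ F, Disjoint e V := by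
    intro T hT
    refine trivial_kill r b hbn (t - 1) (missing H T)
      (fun e he => hHr e (missing_subset _ _ he)) (hH.missing ?_)
    have h1 : 2 * ((t - 1) * b) ≤ m := by
      calc 2 * ((t - 1) * b) = 2 * (t - 1) * b := by ring
        _ ≤ 2 * (t + 1) * b := Nat.mul_le_mul_right _ (by omega)
        _ ≤ m := hb2
    omega
  choose! G hG1 hG2 hG3 using hG
  have hGc : ∀ T : Finset ℕ, 2 * T.card ≤ m → ((G T).card : ℝ) ≤ (Ct * x) ^ (t - 1) := by
    intro T hT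
    have h1 : ((G T).card : ℝ) ≤ (((r / b : ℕ) : ℝ) + 2) ^ (t - 1) := by
      exact_mod_cast hG2 T hT
    refine h1.trans (pow_le_pow_left₀ (by positivity) ?_ _)
    have h2 : ((r / b : ℕ) : ℝ) ≤ (r : ℝ) / b := Nat.cast_div_le
    have h3 : (r : ℝ) / b ≤ 4 * (t + 1) * x := by
      rw [div_le_iff₀ hb0]
      calc (r : ℝ) = 4 * (t + 1) * x * (m / (4 * (t + 1))) := by rw [← hxm]; field_simp
        _ ≤ 4 * (t + 1) * x * b := mul_le_mul_of_nonneg_left hb3 (by positivity)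
    have h4 : Ct * x = 4 * (t + 1) * x + 2 * x := by rw [hCt]; ring
    rw [h4]
    linarith
  -- the greedy pieces
  have hgr : ∀ e : Finset ℕ, ∃ S ⊆ range J, S.card ≤ l ∧
      ((R e \ S.biUnion fun j => AA (piece e h j)).card : ℝ) ≤ (1 - κ1) ^ l * (R e).card := by
    intro e
    exact greedy_pieces J (fun j => AA (piece e h j)) (R e) κ1 hJ1
      (fun v hv => (mem_filter.1 hv).2) hκ11 l
  choose S hS1 hS2 hS3 using hgr
  refine ⟨F1.biUnion fun f => (S f).biUnion fun j => piece f h j ∪ TT (piece f h j),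
    F1 ∪ (F1.biUnion fun e => (range J).biUnion fun j => FF (piece e h j)) ∪
      (F1.biUnion fun e => (TS e).biUnion G), I ∪ F1.biUnion R, ?_, ?_, ?_, ?_, ?_⟩
  · -- `F ⊆ H`
    intro e he
    rcases mem_union.1 he with h1 | h1
    · rcases mem_union.1 h1 with h2 | h2
      · exact hF1 h2
      · obtain ⟨f, -, h3⟩ := mem_biUnion.1 h2
        obtain ⟨j, -, h4⟩ := mem_biUnion.1 h3
        exact missing_subset _ _ (hFF _ (piece_card_le f hhn j) h4)
    · obtain ⟨f, -, h3⟩ := mem_biUnion.1 h1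
      obtain ⟨T, hT, h4⟩ := mem_biUnion.1 h3
      exact missing_subset _ _ (hG1 T (hTS1 f T hT) h4)
  · -- `T0`
    have hm2 : ((m / 2 : ℕ) : ℝ) ≤ m := by exact_mod_cast Nat.div_le_self m 2
    refine (step_T0 h l hhn F1 TT S (τ' * (m / 2 : ℕ)) k1 hF1k (by positivity)
      (fun f _ => hS2 f) hTTc).trans ?_
    have h1 : (h : ℝ) + τ' * (m / 2 : ℕ) ≤ 2 * τ' * m := by
      have h2 : η * m ≤ τ' * m := mul_le_mul_of_nonneg_right hη2 hm0.le
      have h3 : τ' * (m / 2 : ℕ) ≤ τ' * m := mul_le_mul_of_nonneg_left hm2 hτ'0.le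
      linarith
    have h4 : (l : ℝ) * (h + τ' * (m / 2 : ℕ)) ≤ (l + 1) * (2 * τ' * m) :=
      mul_le_mul (by linarith) h1 (by positivity) (by positivity)
    calc k1 * (l * (h + τ' * (m / 2 : ℕ))) ≤ k1 * ((l + 1) * (2 * τ' * m)) :=
          mul_le_mul_of_nonneg_left h4 hk10.le
      _ = τ * m := by rw [hτ']; field_simp
  · -- the number of edges
    have hy : (r : ℝ) / (m / 2 : ℕ) ≤ 3 * x := by
      have h1 : (m : ℝ) / 3 ≤ (m / 2 : ℕ) := by
        have : m ≤ 3 * (m / 2) := by omega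
        have : (m : ℝ) ≤ 3 * (m / 2 : ℕ) := by exact_mod_cast this
        linarith
      have h2 : (0 : ℝ) < (m / 2 : ℕ) := lt_of_lt_of_le (by positivity) h1
      rw [div_le_iff₀ h2]
      calc (r : ℝ) = 3 * x * (m / 3) := by rw [← hxm]; ring
        _ ≤ 3 * x * (m / 2 : ℕ) := mul_le_mul_of_nonneg_left h1 (by positivity)
    refine (step_count h J hhn F1 FF TS G k1 _ _ _ hF1k hFFc (by positivity) (by positivity)
      (by positivity) (fun e _ => hTS3 e) (fun e _ T hT => hGc T (hTS1 e T hT))).trans ?_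
    exact step_numeric t ht x κ k1 K2 κ1 κ' η Ct J _ hx1 hκ hk10 hK20 hη0 hCt0 hκ12 hκ'
      hJx (by positivity) hy (hXa.trans hxX3)
  · -- stability
    intro e he hd
    have hIe : ((I \ e).card : ℝ) ≤ θ * r / 4 := by
      have : ((I \ e).card : ℝ) ≤ D := by exact_mod_cast hst e he (by simp)
      exact this.trans hD1
    have hyR : ∀ f ∈ F1, ((R f \ (S f).biUnion fun j => AA (piece f h j)).card : ℝ) ≤
        θ / (4 * k1) * r := by
      intro f _
      refine (hS3 f).trans ?_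
      have h1 : ((R f).card : ℝ) ≤ K2 * r := by
        refine le_trans ?_ hB'c
        exact_mod_cast card_le_card (filter_subset _ _)
      calc (1 - κ1) ^ l * ((R f).card : ℝ) ≤ θ / (4 * k1 * K2) * (K2 * r) :=
            mul_le_mul hl.le h1 (by positivity) (by positivity)
        _ = θ / (4 * k1) * r := by field_simp
    have h1 := step_stable h l F1 I TT AA R S e (θ * r / 4) (θ / (4 * k1) * r) (θ' * r) k1 hIe hF1k
      hyR (fun f _ => hS2 f) (by positivity) (by positivity) (fun f _ j _ hd1 hd2 =>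
        hAst _ (piece_card_le f hhn j) e (mem_missing.2 ⟨he, hd1⟩) hd2) hd
    refine h1.trans ?_
    have h2 : k1 * (θ / (4 * k1) * r + l * (θ' * r)) = θ * r / 4 + θ * r / 4 * (l / (l + 1)) := by
      rw [hθ']
      field_simp
    have h3 : (l : ℝ) / (l + 1) ≤ 1 := by
      rw [div_le_one (by positivity)]
      linarith
    have h4 : θ * r / 4 * (l / (l + 1)) ≤ θ * r / 4 :=
      mul_le_of_le_one_right (by positivity) h3
    have h5 : 0 ≤ θ * r := by positivity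
    rw [h2]
    linarith
  · -- hitting sets
    intro V hV hhit
    have h1 := step_hit t h J H F1 r I B' hhn hHr hF1 hJ hI FF AA hFF hAV R TS G
      (fun e _ j hj v hv => hTS2 e j hj v hv) (fun e _ T hT => hG1 T (hTS1 e T hT))
      (fun e _ T hT => hG3 T (hTS1 e T hT)) V hV hhit
    refine ⟨fun v hv => h1 (mem_inter.2 ⟨(mem_inter.1 hv).1,
      mem_union_left _ (mem_inter.1 hv).2⟩), ?_⟩
    obtain ⟨e, he⟩ := hne
    obtain ⟨w, hwe, hwV⟩ := not_disjoint_iff.1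
      (hhit e (mem_union_left _ (mem_union_left _ he)))
    exact ⟨w, mem_inter.2 ⟨hwV, h1 (mem_inter.2 ⟨hwV, hB'e e he hwe⟩)⟩⟩

theorem lemmaE_of (hS : SparseCoverStmt) (t : ℕ) (ht : 1 ≤ t) : CoreStmt t := by
  induction t, ht using Nat.le_induction with
  | base => exact coreStmt_one
  | succ t ht ih => exact coreStmt_succ hS t ht ih

/-- Lemma E(t) (note 2485). -/
theorem lemmaE (t : ℕ) (ht : 1 ≤ t) : CoreStmt t := lemmaE_of sparse_cover t ht

end LocTr
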