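import Pool.Agent.Work.MP_a8cb64_co.TE1

/-!
MP_a8cb64_co, Theorem S (helper94, note 2485): the statement of Lemma E(t).
-/

namespace LocTr

open Finset

/-- Lemma E(t) (interface). -/
def CoreStmt (t : ℕ) : Prop := ∀ K κ θ τ : ℝ, 0 < K → 0 < κ → 0 < θ → 0 < τ → ∃ X0 : ℕ,
  ∀ (r m : ℕ) (H : Finset (Finset ℕ)) (B : Finset ℕ), X0 ≤ m → X0 * m ≤ r →
    (∀ e ∈ H, e.card = r) → NoTr H m → (B.card : ℝ) ≤ K * r →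
    ∃ (T0 : Finset ℕ) (F : Finset (Finset ℕ)) (A : Finset ℕ), F ⊆ H ∧ (T0.card : ℝ) ≤ τ * m ∧
      (F.card : ℝ) ≤ κ * ((r : ℝ) / m) ^ t ∧
      (∀ e ∈ H, Disjoint e T0 → ((A \ e).card : ℝ) ≤ θ * r) ∧
      ∀ V : Finset ℕ, V.card ≤ t → (∀ e ∈ F, ¬ Disjoint e V) → V ∩ B ⊆ A ∧ (V ∩ A).Nonempty

end LocTr
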