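import Pool.Agent.Work.MP_a8cb64_co.TM3

/-!
MP_a8cb64_co, Theorem S (helper94, note 2485): union bound over blocks and levels (helper91).
-/

namespace LocTr

open Finset

section Union

variable {ι Λ κ : Type*} [Fintype ι] [DecidableEq ι] [Fintype Λ] [DecidableEq Λ]

/-- a labelling which is good for finitely many stopping sets. -/
theorem exists_good_labelling [Nonempty Λ] (I : Finset κ) (Φ : κ → (ι → Λ) → Finset ι)
    (W : κ → Finset Λ) (hΦ : ∀ i ∈ I, IsStop (Φ i)) (r m ρ : ℝ)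
    (hr : 0 < r) (hm : 0 ≤ m) (hρ : 0 < ρ) (hρ1 : ρ ≤ 1 / 20)
    (hR : ∀ i ∈ I, ∀ c, ((Φ i c).card : ℝ) ≤ (1 + ρ) * r)
    (hp : ∀ i ∈ I, ((W i).card : ℝ) * ((1 + 5 * ρ) * r) ≤ m * Fintype.card Λ)
    (hI : (I.card : ℝ) < Real.exp (ρ ^ 2 * m / 2)) :
    ∃ c : ι → Λ, ∀ i ∈ I, (((Φ i c).filter fun v => c v ∈ W i).card : ℝ) ≤ (1 - ρ) * m := by
  classical
  by_contra hcon
  push Not at hcon
  have hL : (0 : ℝ) < Fintype.card Λ := by exact_mod_cast Fintype.card_pos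
  have hcov : (univ : Finset (ι → Λ)) ⊆ I.biUnion fun i => univ.filter fun c : ι → Λ =>
      (1 - ρ) * m < (((Φ i c).filter fun v => c v ∈ W i).card : ℝ) := by
    intro c _
    obtain ⟨i, hi, hlt⟩ := hcon c
    exact mem_biUnion.2 ⟨i, hi, mem_filter.2 ⟨mem_univ _, hlt⟩⟩
  have h1 : (Fintype.card (ι → Λ) : ℝ) ≤ ∑ i ∈ I, ((univ.filter fun c : ι → Λ =>
      (1 - ρ) * m < (((Φ i c).filter fun v => c v ∈ W i).card : ℝ)).card : ℝ) := by
    have h2 := (card_le_card hcov).trans card_biUnion_le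
    rw [card_univ] at h2
    exact_mod_cast h2
  have h3 : ∑ i ∈ I, ((univ.filter fun c : ι → Λ =>
      (1 - ρ) * m < (((Φ i c).filter fun v => c v ∈ W i).card : ℝ)).card : ℝ) ≤
      ∑ _i ∈ I, Real.exp (-(ρ ^ 2 * m / 2)) * (Fintype.card Λ : ℝ) ^ Fintype.card ι :=
    sum_le_sum fun i hi => stop_tail (hΦ i hi) r m ρ hr hm hρ hρ1 (hR i hi) (W i) (hp i hi)
  rw [sum_const, nsmul_eq_mul, ← mul_assoc] at h3
  have h4 : (Fintype.card (ι → Λ) : ℝ) = (Fintype.card Λ : ℝ) ^ Fintype.card ι := by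
    rw [Fintype.card_fun]
    push_cast
    rfl
  rw [h4] at h1
  have h5 : (0 : ℝ) < (Fintype.card Λ : ℝ) ^ Fintype.card ι := by positivity
  have h6 : (I.card : ℝ) * Real.exp (-(ρ ^ 2 * m / 2)) < 1 := by
    rw [Real.exp_neg, ← div_eq_mul_inv, div_lt_one (Real.exp_pos _)]
    exact hI
  nlinarith [h1.trans h3]

end Union

end LocTr
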