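import Pool.Agent.Work.MP_a8cb64_co.TM3

/-!
MP_a8cb64_co, Theorem S (helper94, note 2485): union bound over blocks and levels (helper49).
-/

namespace LocTr

open Finset

section Union

variable {ι Λ : Type*} [Fintype ι] [DecidableEq ι] [Fintype Λ] [DecidableEq Λ]

/-- A labelling which is good for all stopping sets and blocks of a finite family. -/
theorem exists_good_label [Nonempty Λ] {I : Type*} (s : Finset I) (Φ : I → (ι → Λ) → Finset ι)
    (W : I → Finset Λ) (hΦ : ∀ i ∈ s, IsStop (Φ i)) (r m ρ : ℝ)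
    (hr : 0 < r) (hm : 0 ≤ m) (hρ : 0 < ρ) (hρ1 : ρ ≤ 1 / 20)
    (hR : ∀ i ∈ s, ∀ c, ((Φ i c).card : ℝ) ≤ (1 + ρ) * r)
    (hp : ∀ i ∈ s, ((W i).card : ℝ) * ((1 + 5 * ρ) * r) ≤ m * Fintype.card Λ)
    (hs : (s.card : ℝ) * Real.exp (-(ρ ^ 2 * m / 2)) < 1) :
    ∃ c : ι → Λ, ∀ i ∈ s, ((((Φ i c).filter fun v => c v ∈ W i).card : ℕ) : ℝ) ≤ (1 - ρ) * m := by
  classical
  have hL : (0 : ℝ) < Fintype.card Λ := by exact_mod_cast Fintype.card_pos
  by_contra hcon
  push Not at hcon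
  set B : I → Finset (ι → Λ) := fun i => univ.filter fun c : ι → Λ =>
      (1 - ρ) * m < (((Φ i c).filter fun v => c v ∈ W i).card : ℝ) with hB
  have h1 : (univ : Finset (ι → Λ)) ⊆ s.biUnion B := by
    intro c _
    obtain ⟨i, hi, hc⟩ := hcon c
    exact mem_biUnion.2 ⟨i, hi, mem_filter.2 ⟨mem_univ _, hc⟩⟩
  have h2 : (Fintype.card Λ : ℝ) ^ Fintype.card ι ≤ ∑ i ∈ s, ((B i).card : ℝ) := by
    have h3 := (card_le_card h1).trans card_biUnion_le
    rw [card_univ, Fintype.card_fun] at h3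
    exact_mod_cast h3
  have h3 : ∑ i ∈ s, ((B i).card : ℝ) ≤
      s.card * (Real.exp (-(ρ ^ 2 * m / 2)) * (Fintype.card Λ : ℝ) ^ Fintype.card ι) := by
    rw [← nsmul_eq_mul]
    exact sum_le_card_nsmul _ _ _ fun i hi =>
      stop_tail (hΦ i hi) r m ρ hr hm hρ hρ1 (hR i hi) (W i) (hp i hi)
  have h4 : (0 : ℝ) < (Fintype.card Λ : ℝ) ^ Fintype.card ι := by positivity
  have h5 := h2.trans h3
  rw [← mul_assoc] at h5
  have h6 := mul_lt_mul_of_pos_right hs h4
  rw [one_mul] at h6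
  exact absurd (h5.trans_lt h6) (lt_irrefl _)

end Union

/-- the numbers of the union bound: `m ≥ C (1 + log x)` is enough. -/
theorem union_num (s : ℕ) (A ρ : ℝ) (hA : 0 ≤ A) (hρ : 0 < ρ) : ∃ C : ℝ, 1 ≤ C ∧
    ∀ x m : ℝ, 1 ≤ x → C * (1 + Real.log x) ≤ m →
      A * x ^ s * Real.exp (-(ρ ^ 2 * m / 2)) < 1 := by
  refine ⟨2 * (s + A + 1) / ρ ^ 2 + 1, ?_, ?_⟩
  · have : 0 ≤ 2 * (s + A + 1) / ρ ^ 2 := by positivity
    linarith
  · intro x m hx hm
    have hx0 : 0 < x := by linarith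
    have hl : 0 ≤ Real.log x := Real.log_nonneg hx
    have h1 : (s : ℝ) * Real.log x + A ≤ ρ ^ 2 * m / 2 := by
      have h2 : 2 * (s + A + 1) / ρ ^ 2 * (1 + Real.log x) ≤ m := by
        refine le_trans ?_ hm
        exact mul_le_mul_of_nonneg_right (by linarith) (by linarith)
      rw [div_mul_eq_mul_div, div_le_iff₀ (by positivity)] at h2
      have h3 : (s : ℝ) * Real.log x + A ≤ (s + A + 1) * (1 + Real.log x) := by
        have h4 : 0 ≤ (A + 1) * Real.log x := by positivity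
        have h5 : (0 : ℝ) ≤ s := Nat.cast_nonneg _
        linarith
      linarith
    have h2 : Real.exp (-(ρ ^ 2 * m / 2)) ≤ Real.exp (-((s : ℝ) * Real.log x + A)) :=
      Real.exp_le_exp.2 (by linarith)
    have h3 : Real.exp ((s : ℝ) * Real.log x) = x ^ s := by
      rw [mul_comm, Real.exp_mul, Real.exp_log hx0, Real.rpow_natCast]
    have h4 : Real.exp (-((s : ℝ) * Real.log x + A)) = (x ^ s)⁻¹ * (Real.exp A)⁻¹ := by
      rw [neg_add, Real.exp_add, Real.exp_neg, Real.exp_neg, h3]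
    have h5 : A < Real.exp A := by
      have := Real.add_one_le_exp A
      linarith
    calc A * x ^ s * Real.exp (-(ρ ^ 2 * m / 2))
        ≤ A * x ^ s * ((x ^ s)⁻¹ * (Real.exp A)⁻¹) := by
          rw [← h4]; exact mul_le_mul_of_nonneg_left h2 (by positivity)
      _ = A / Real.exp A := by field_simp
      _ < 1 := (div_lt_one (Real.exp_pos _)).2 h5

end LocTr
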