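import Pool.Agent.Work.MP_a8cb64_co.TEDefs

/-!
MP_a8cb64_co, Theorem S (helper94, note 2485), main part: definitions (helper21).

`proc A h b W c j` is the exploration for the set of labels `W` and the labelling `c` after `j`
levels: its first component is the set of nodes (bases `Z`) of level `j`, its second component is
the exposed set `Φ_j`.
-/

namespace LocTr

open Finset

/-- core data at all levels `j < s` and all bases `Z` with `2 |Z| ≤ m`. -/
structure CoreData (H : Finset (Finset ℕ)) (r m s : ℕ) (κ θ τ : ℝ)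
    (T A : ℕ → Finset ℕ → Finset ℕ) (F : ℕ → Finset ℕ → Finset (Finset ℕ)) : Prop where
  subA : ∀ j Z, A j Z ⊆ H.biUnion id
  subF : ∀ j < s, ∀ Z, 2 * Z.card ≤ m → F j Z ⊆ missing H Z
  cardT : ∀ j < s, ∀ Z, 2 * Z.card ≤ m → ((T j Z).card : ℝ) ≤ τ * m
  cardF : ∀ j < s, ∀ Z, 2 * Z.card ≤ m → ((F j Z).card : ℝ) ≤ κ * (3 * (r : ℝ) / m) ^ (s - j)
  near : ∀ j < s, ∀ Z, 2 * Z.card ≤ m → ∀ e ∈ H, Disjoint e Z → Disjoint e (T j Z) →
    ((A j Z \ e).card : ℝ) ≤ θ * r
  hit : ∀ j < s, ∀ Z, 2 * Z.card ≤ m → ∀ V : Finset ℕ, V.card ≤ s - j →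
    (∀ e ∈ F j Z, ¬ Disjoint e V) → (V ∩ A j Z).Nonempty

section Process

variable {Λ : Type} [DecidableEq Λ]

/-- the children of the base `Z` (with core `L`): `Z ∪ P`, where `P` runs through the pieces of
the label classes of `L` with label in `W`. -/
def children (h : ℕ) (W : Finset Λ) (c : ℕ → Λ) (L Z : Finset ℕ) : Finset (Finset ℕ) :=
  W.biUnion fun a => (range ((L.filter fun v => c v = a).card / h + 1)).image fun i =>
    Z ∪ piece (L.filter fun v => c v = a) h i

/-- the exploration: (nodes, exposed set) after `j` levels, truncated as soon as more than `b`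
exposed points have a label in `W`. -/
def proc (A : ℕ → Finset ℕ → Finset ℕ) (h b : ℕ) (W : Finset Λ) (c : ℕ → Λ) :
    ℕ → Finset (Finset ℕ) × Finset ℕ
  | 0 => ({∅}, ∅)
  | j + 1 =>
    (if (((proc A h b W c j).2 ∪ (proc A h b W c j).1.biUnion (A j)).filter
        fun v => c v ∈ W).card ≤ b then
      (proc A h b W c j).1.biUnion fun Z => children h W c (A j Z) Z
     else ∅, (proc A h b W c j).2 ∪ (proc A h b W c j).1.biUnion (A j))

/-- the nodes of level `j` -/
def nodes (A : ℕ → Finset ℕ → Finset ℕ) (h b : ℕ) (W : Finset Λ) (c : ℕ → Λ) (j : ℕ) :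
    Finset (Finset ℕ) := (proc A h b W c j).1

/-- the exposed set before the nodes of level `j` are looked at -/
def expo (A : ℕ → Finset ℕ → Finset ℕ) (h b : ℕ) (W : Finset Λ) (c : ℕ → Λ) (j : ℕ) :
    Finset ℕ := (proc A h b W c j).2

variable (A : ℕ → Finset ℕ → Finset ℕ) (h b : ℕ) (W : Finset Λ) (c : ℕ → Λ) (j : ℕ)

theorem nodes_zero : nodes A h b W c 0 = {∅} := rfl

theorem expo_zero : expo A h b W c 0 = ∅ := rfl

theorem expo_succ : expo A h b W c (j + 1) =
    expo A h b W c j ∪ (nodes A h b W c j).biUnion (A j) := rfl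

theorem nodes_succ : nodes A h b W c (j + 1) =
    if ((expo A h b W c (j + 1)).filter fun v => c v ∈ W).card ≤ b then
      (nodes A h b W c j).biUnion fun Z => children h W c (A j Z) Z
    else ∅ := rfl

variable {h W c}

theorem mem_children {L Z Y : Finset ℕ} : Y ∈ children h W c L Z ↔
    ∃ a ∈ W, ∃ i < (L.filter fun v => c v = a).card / h + 1,
      Y = Z ∪ piece (L.filter fun v => c v = a) h i := by
  unfold children
  simp only [mem_biUnion, mem_image, mem_range]
  constructor
  · rintro ⟨a, ha, i, hi, rfl⟩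
    exact ⟨a, ha, i, hi, rfl⟩
  · rintro ⟨a, ha, i, hi, rfl⟩
    exact ⟨a, ha, i, hi, rfl⟩

end Process

end LocTr
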