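import Pool.Agent.Work.MP_a8cb64_co.UP1

/-!
MP_a8cb64_co, Theorem S (helper94, note 2485), main part, module UP3 (helper91): the exposed set is
hardly larger than an edge.
-/

namespace LocTr

open Finset

theorem expo_card_step {Λ : Type} [DecidableEq Λ] {H : Finset (Finset ℕ)} {r m s : ℕ} {κ θ τ : ℝ}
    {T A : ℕ → Finset ℕ → Finset ℕ} {F : ℕ → Finset ℕ → Finset (Finset ℕ)}
    (hD : CoreData H r m s κ θ τ T A F) (hr : ∀ e ∈ H, e.card = r) (hH : NoTr H m)
    (hθ : 0 ≤ θ) (hτ : 0 ≤ τ) {h b : ℕ} (hh : 1 ≤ h) (hhm : 2 * (s * h) ≤ m) (W : Finset Λ)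
    (G : ℕ) (hG : b / h + W.card ≤ G) (hG1 : 1 ≤ G)
    (hb : (b : ℝ) + s * (G : ℝ) ^ s * (τ * m) ≤ m) (c : ℕ → Λ) (j : ℕ) (hj : j < s)
    (hne : (nodes A h b W c j).Nonempty) :
    ((expo A h b W c (j + 1)).card : ℝ) ≤ r + s * (G : ℝ) ^ s * (θ * r) := by
  classical
  have hG1' : (1 : ℝ) ≤ G := by exact_mod_cast hG1
  -- number of nodes of level i
  have hcount : ∀ i ≤ s, ((nodes A h b W c i).card : ℝ) ≤ (G : ℝ) ^ s := by
    intro i hi
    have h1 : (nodes A h b W c i).card ≤ G ^ s :=
      (nodes_count hh i).trans ((Nat.pow_le_pow_left hG i).trans (Nat.pow_le_pow_right hG1 hi))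
    exact_mod_cast h1
  -- a weighted sum over all nodes of level at most j
  have hsum : ∀ x : ℝ, 0 ≤ x →
      ∑ i ∈ range (j + 1), ((nodes A h b W c i).card : ℝ) * x ≤ s * (G : ℝ) ^ s * x := by
    intro x hx
    calc ∑ i ∈ range (j + 1), ((nodes A h b W c i).card : ℝ) * x
        ≤ ∑ _i ∈ range (j + 1), (G : ℝ) ^ s * x := by
          refine sum_le_sum fun i hi => ?_
          have h1 : i < j + 1 := mem_range.1 hi
          exact mul_le_mul_of_nonneg_right (hcount i (by omega)) hx
      _ = ((j + 1 : ℕ) : ℝ) * ((G : ℝ) ^ s * x) := by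
          rw [sum_const, card_range, nsmul_eq_mul]
      _ ≤ s * ((G : ℝ) ^ s * x) := by
          refine mul_le_mul_of_nonneg_right ?_ (by positivity)
          exact_mod_cast (by omega : j + 1 ≤ s)
      _ = s * (G : ℝ) ^ s * x := by ring
  -- the bases are small
  have hZ : ∀ i ≤ j, ∀ Z ∈ nodes A h b W c i, 2 * Z.card ≤ m := by
    intro i hi Z hZi
    have h1 := node_card hh i Z hZi
    have h2 : i * h ≤ s * h := Nat.mul_le_mul_right h (by omega)
    omega
  -- a set which is missed by an edge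
  set U : Finset ℕ := (expo A h b W c j).filter fun v => c v ∈ W with hU
  set TT : Finset ℕ := (range (j + 1)).biUnion fun i => (nodes A h b W c i).biUnion (T i) with hTT
  have hUc : U.card ≤ b := labelled_card_le hne
  have hTTc : (TT.card : ℝ) ≤ s * (G : ℝ) ^ s * (τ * m) := by
    have h1 : (TT.card : ℝ) ≤ ∑ i ∈ range (j + 1), ((nodes A h b W c i).card : ℝ) * (τ * m) := by
      calc (TT.card : ℝ) ≤ ∑ i ∈ range (j + 1), (((nodes A h b W c i).biUnion (T i)).card : ℝ) := by
            exact_mod_cast card_biUnion_le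
        _ ≤ ∑ i ∈ range (j + 1), ((nodes A h b W c i).card : ℝ) * (τ * m) := by
            refine sum_le_sum fun i hi => ?_
            have hi' : i < j + 1 := mem_range.1 hi
            calc (((nodes A h b W c i).biUnion (T i)).card : ℝ)
                ≤ ∑ Z ∈ nodes A h b W c i, ((T i Z).card : ℝ) := by
                  exact_mod_cast card_biUnion_le
              _ ≤ ∑ _Z ∈ nodes A h b W c i, τ * m :=
                  sum_le_sum fun Z hZi => hD.cardT i (by omega) Z (hZ i (by omega) Z hZi)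
              _ = _ := by rw [sum_const, nsmul_eq_mul]
    exact h1.trans (hsum _ (by positivity))
  have hcard : (U ∪ TT).card ≤ m := by
    have h1 : ((U ∪ TT).card : ℝ) ≤ m := by
      have h2 : ((U ∪ TT).card : ℝ) ≤ U.card + TT.card := by exact_mod_cast card_union_le U TT
      have h3 : (U.card : ℝ) ≤ b := by exact_mod_cast hUc
      linarith
    exact_mod_cast h1
  obtain ⟨e, he, hde⟩ := hH (U ∪ TT) hcard
  rw [disjoint_union_right] at hde
  -- the cores are almost contained in e
  have hnear : ∀ i ≤ j, ∀ Z ∈ nodes A h b W c i, ((A i Z \ e).card : ℝ) ≤ θ * r := by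
    intro i hi Z hZi
    refine hD.near i (by omega) Z (hZ i hi Z hZi) e he ?_ ?_
    · refine Disjoint.mono_right ?_ hde.1
      intro v hv
      have h1 := node_subset i Z hZi hv
      rw [mem_filter] at h1
      exact mem_filter.2 ⟨expo_mono hi h1.1, h1.2⟩
    · refine Disjoint.mono_right ?_ hde.2
      intro v hv
      exact mem_biUnion.2 ⟨i, mem_range.2 (by omega), mem_biUnion.2 ⟨Z, hZi, hv⟩⟩
  have hsub : expo A h b W c (j + 1) ⊆
      e ∪ (range (j + 1)).biUnion fun i => (nodes A h b W c i).biUnion fun Z => A i Z \ e := by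
    rw [expo_eq]
    intro v hv
    obtain ⟨i, hi, hv2⟩ := mem_biUnion.1 hv
    obtain ⟨Z, hZi, hv3⟩ := mem_biUnion.1 hv2
    by_cases hve : v ∈ e
    · exact mem_union_left _ hve
    · exact mem_union_right _ (mem_biUnion.2 ⟨i, hi, mem_biUnion.2 ⟨Z, hZi, mem_sdiff.2 ⟨hv3, hve⟩⟩⟩)
  have hfin : (((range (j + 1)).biUnion fun i =>
      (nodes A h b W c i).biUnion fun Z => A i Z \ e).card : ℝ) ≤ s * (G : ℝ) ^ s * (θ * r) := by
    refine le_trans ?_ (hsum (θ * r) (by positivity))
    calc (((range (j + 1)).biUnion fun i =>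
        (nodes A h b W c i).biUnion fun Z => A i Z \ e).card : ℝ)
        ≤ ∑ i ∈ range (j + 1), (((nodes A h b W c i).biUnion fun Z => A i Z \ e).card : ℝ) := by
          exact_mod_cast card_biUnion_le
      _ ≤ ∑ i ∈ range (j + 1), ((nodes A h b W c i).card : ℝ) * (θ * r) := by
          refine sum_le_sum fun i hi => ?_
          have hi' : i < j + 1 := mem_range.1 hi
          calc (((nodes A h b W c i).biUnion fun Z => A i Z \ e).card : ℝ)
              ≤ ∑ Z ∈ nodes A h b W c i, ((A i Z \ e).card : ℝ) := by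
                exact_mod_cast card_biUnion_le
            _ ≤ ∑ _Z ∈ nodes A h b W c i, θ * r :=
                sum_le_sum fun Z hZi => hnear i (by omega) Z hZi
            _ = _ := by rw [sum_const, nsmul_eq_mul]
  calc ((expo A h b W c (j + 1)).card : ℝ)
      ≤ ((e ∪ (range (j + 1)).biUnion fun i =>
          (nodes A h b W c i).biUnion fun Z => A i Z \ e).card : ℝ) := by
        exact_mod_cast card_le_card hsub
    _ ≤ (e.card : ℝ) + (((range (j + 1)).biUnion fun i =>
          (nodes A h b W c i).biUnion fun Z => A i Z \ e).card : ℝ) := by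
        exact_mod_cast card_union_le _ _
    _ ≤ r + s * (G : ℝ) ^ s * (θ * r) := by rw [hr e he]; linarith

/-! ### UP3: the exposed set is hardly larger than an edge. -/
theorem expo_card {Λ : Type} [DecidableEq Λ] {H : Finset (Finset ℕ)} {r m s : ℕ} {κ θ τ : ℝ}
    {T A : ℕ → Finset ℕ → Finset ℕ} {F : ℕ → Finset ℕ → Finset (Finset ℕ)}
    (hD : CoreData H r m s κ θ τ T A F) (hr : ∀ e ∈ H, e.card = r) (hH : NoTr H m)
    (hθ : 0 ≤ θ) (hτ : 0 ≤ τ) {h b : ℕ} (hh : 1 ≤ h) (hhm : 2 * (s * h) ≤ m) (W : Finset Λ)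
    (G : ℕ) (hG : b / h + W.card ≤ G) (hG1 : 1 ≤ G)
    (hb : (b : ℝ) + s * (G : ℝ) ^ s * (τ * m) ≤ m) (c : ℕ → Λ) :
    ∀ j ≤ s, ((expo A h b W c j).card : ℝ) ≤ r + s * (G : ℝ) ^ s * (θ * r) := by
  intro j
  induction j with
  | zero =>
    intro _
    rw [expo_zero, card_empty, Nat.cast_zero]
    positivity
  | succ j ih =>
    intro hj
    rcases (nodes A h b W c j).eq_empty_or_nonempty with h0 | hne
    · have h1 : expo A h b W c (j + 1) = expo A h b W c j := by
        rw [expo_succ, h0, biUnion_empty, union_empty]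
      rw [h1]
      exact ih (by omega)
    · exact expo_card_step hD hr hH hθ hτ hh hhm W G hG hG1 hb c j (by omega) hne

end LocTr
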