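import Pool.Agent.Work.MP_a8cb64_co.UDefs

/-!
MP_a8cb64_co, Theorem S (helper94, note 2485), main part, module UP5 (helper9): the exploration for
all labels contains the exploration for every set of labels, and its number of nodes is small.
-/

namespace LocTr

open Finset

section

variable {Λ : Type} [DecidableEq Λ]

private theorem children_mono {h : ℕ} {W W' : Finset Λ} (hW : W ⊆ W') (c : ℕ → Λ)
    (L Z : Finset ℕ) : children h W c L Z ⊆ children h W' c L Z := by
  intro Y hY
  obtain ⟨a, ha, i, hi, rfl⟩ := mem_children.1 hY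
  exact mem_children.2 ⟨a, hW ha, i, hi, rfl⟩

private theorem node_card5 {A : ℕ → Finset ℕ → Finset ℕ} {h b : ℕ} {W : Finset Λ}
    {c : ℕ → Λ} (hh : 1 ≤ h) : ∀ j, ∀ Z ∈ nodes A h b W c j, Z.card ≤ j * h := by
  intro j
  induction j with
  | zero =>
    intro Z hZ
    rw [nodes_zero, mem_singleton] at hZ
    simp [hZ]
  | succ j ih =>
    intro Z hZ
    rw [nodes_succ] at hZ
    split_ifs at hZ with hb
    · obtain ⟨Y, hY, hZY⟩ := mem_biUnion.1 hZ
      obtain ⟨a, -, i, -, rfl⟩ := mem_children.1 hZY
      have h1 := ih Y hY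
      have h2 := piece_card_le ((A j Y).filter fun v => c v = a) hh i
      have h3 := card_union_le Y (piece ((A j Y).filter fun v => c v = a) h i)
      rw [Nat.add_mul, one_mul]
      omega
    · simp at hZ

private theorem proc_subset_univ [Fintype Λ]
    {A : ℕ → Finset ℕ → Finset ℕ} {V : Finset ℕ} (hA : ∀ j Z, A j Z ⊆ V) (h b : ℕ)
    (W : Finset Λ) (c : ℕ → Λ) (j : ℕ) :
    nodes A h b W c j ⊆ nodes A h V.card univ c j := by
  have hV : ∀ i, expo A h V.card univ c i ⊆ V := by
    intro i
    induction i with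
    | zero => simp [expo_zero]
    | succ i ih =>
      rw [expo_succ]
      exact union_subset ih (biUnion_subset.2 fun Z _ => hA i Z)
  induction j with
  | zero => simp [nodes_zero]
  | succ j ih =>
    intro Z hZ
    rw [nodes_succ] at hZ ⊢
    split_ifs at hZ with hb
    · have h1 : ((expo A h V.card univ c (j + 1)).filter fun v => c v ∈ (univ : Finset Λ)).card ≤
          V.card := (card_filter_le _ _).trans (card_le_card (hV (j + 1)))
      rw [if_pos h1]
      obtain ⟨Y, hY, hZY⟩ := mem_biUnion.1 hZ
      exact mem_biUnion.2 ⟨Y, ih hY, children_mono (subset_univ W) c _ _ hZY⟩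
    · simp at hZ

end

theorem nodes_subset_univ {Λ : Type} [DecidableEq Λ] [Fintype Λ]
    {A : ℕ → Finset ℕ → Finset ℕ} {V : Finset ℕ} (hA : ∀ j Z, A j Z ⊆ V) (h b : ℕ)
    (W : Finset Λ) (c : ℕ → Λ) (j : ℕ) :
    nodes A h b W c j ⊆ nodes A h V.card univ c j :=
  proc_subset_univ hA h b W c j

private theorem children_card_univ {Λ : Type} [DecidableEq Λ] [Fintype Λ] {h : ℕ} (hh : 1 ≤ h)
    (c : ℕ → Λ) (L Z : Finset ℕ) :
    ((children h univ c L Z).card : ℝ) ≤ (L.card : ℝ) / h + Fintype.card Λ := by
  have hh0 : (0 : ℝ) < h := by exact_mod_cast hh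
  have h1 : (children h univ c L Z).card ≤
      ∑ a : Λ, ((L.filter fun v => c v = a).card / h + 1) := by
    unfold children
    refine card_biUnion_le.trans (sum_le_sum fun a _ => ?_)
    refine card_image_le.trans ?_
    rw [card_range]
  have h2 : ∑ a : Λ, (L.filter fun v => c v = a).card = L.card := by
    rw [← card_eq_sum_card_fiberwise (f := c) (s := L) (t := univ)]
    intro v _
    simp
  have h3 : (((∑ a : Λ, ((L.filter fun v => c v = a).card / h + 1) : ℕ)) : ℝ) ≤
      (L.card : ℝ) / h + Fintype.card Λ := by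
    push_cast
    rw [sum_add_distrib]
    have h4 : ∑ a : Λ, (((L.filter fun v => c v = a).card / h : ℕ) : ℝ) ≤ (L.card : ℝ) / h := by
      calc ∑ a : Λ, (((L.filter fun v => c v = a).card / h : ℕ) : ℝ)
          ≤ ∑ a : Λ, ((L.filter fun v => c v = a).card : ℝ) / h :=
            sum_le_sum fun a _ => Nat.cast_div_le
        _ = (∑ a : Λ, ((L.filter fun v => c v = a).card : ℝ)) / h := by rw [sum_div]
        _ = (L.card : ℝ) / h := by rw [← h2]; push_cast; rfl
    have h5 : ∑ _a : Λ, (1 : ℝ) = Fintype.card Λ := by simp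
    rw [h5]
    linarith
  calc ((children h univ c L Z).card : ℝ)
      ≤ (((∑ a : Λ, ((L.filter fun v => c v = a).card / h + 1) : ℕ)) : ℝ) := by exact_mod_cast h1
    _ ≤ _ := h3

/-- `|A j Z| ≤ |e| + θ r ≤ 2 r` for an edge `e` which misses `Z` and `T j Z`, `|Z| ≤ s h ≤ m/2`. -/
theorem nodes_univ_count {Λ : Type} [DecidableEq Λ] [Fintype Λ] {H : Finset (Finset ℕ)}
    {r m s : ℕ} {κ θ τ : ℝ}
    {T A : ℕ → Finset ℕ → Finset ℕ} {F : ℕ → Finset ℕ → Finset (Finset ℕ)}
    (hD : CoreData H r m s κ θ τ T A F) (hr : ∀ e ∈ H, e.card = r) (hH : NoTr H m)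
    (hθ : θ ≤ 1) (hτ : τ ≤ 1 / 2) {h : ℕ} (hh : 1 ≤ h) (hhm : 2 * (s * h) ≤ m) (b : ℕ)
    (c : ℕ → Λ) : ∀ j ≤ s, ((nodes A h b univ c j).card : ℝ) ≤
      (2 * (r : ℝ) / h + Fintype.card Λ) ^ j := by
  have hh0 : (0 : ℝ) < h := by exact_mod_cast hh
  intro j
  induction j with
  | zero =>
    intro _
    simp [nodes_zero]
  | succ j ih =>
    intro hj
    have hj' : j < s := by omega
    have hbase : (0 : ℝ) ≤ 2 * (r : ℝ) / h + Fintype.card Λ := by positivity
    rw [nodes_succ]
    split_ifs with hb
    · -- every core is small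
      have hcore : ∀ Z ∈ nodes A h b univ c j, ((A j Z).card : ℝ) ≤ 2 * r := by
        intro Z hZ
        have h1 : Z.card ≤ j * h := node_card5 hh j Z hZ
        have h2 : 2 * Z.card ≤ m := by
          have h3 : j * h ≤ s * h := Nat.mul_le_mul_right h hj'.le
          omega
        have h4 := hD.cardT j hj' Z h2
        have h5 : (T j Z ∪ Z).card ≤ m := by
          have h6 : ((T j Z).card : ℝ) ≤ m / 2 := by
            have hm0 : (0 : ℝ) ≤ m := by positivity
            nlinarith
          have h7 : 2 * (T j Z).card ≤ m := by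
            have : (2 * (T j Z).card : ℝ) ≤ m := by linarith
            exact_mod_cast this
          have h8 := card_union_le (T j Z) Z
          omega
        obtain ⟨e, he, hde⟩ := hH _ h5
        rw [disjoint_union_right] at hde
        have h9 := hD.near j hj' Z h2 e he hde.2 hde.1
        have h10 : (A j Z).card ≤ e.card + (A j Z \ e).card := by
          have h11 : A j Z ⊆ e ∪ (A j Z \ e) := by
            intro v hv
            by_cases hve : v ∈ e
            · exact mem_union_left _ hve
            · exact mem_union_right _ (mem_sdiff.2 ⟨hv, hve⟩)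
          exact (card_le_card h11).trans (card_union_le _ _)
        have h12 : ((A j Z).card : ℝ) ≤ e.card + (A j Z \ e).card := by exact_mod_cast h10
        rw [hr e he] at h12
        have hr0 : (0 : ℝ) ≤ r := by positivity
        nlinarith
      have h13 : (((nodes A h b univ c j).biUnion fun Z => children h univ c (A j Z) Z).card : ℝ) ≤
          ∑ Z ∈ nodes A h b univ c j, ((children h univ c (A j Z) Z).card : ℝ) := by
        exact_mod_cast card_biUnion_le
      refine h13.trans ?_
      calc ∑ Z ∈ nodes A h b univ c j, ((children h univ c (A j Z) Z).card : ℝ)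
          ≤ ∑ _Z ∈ nodes A h b univ c j, (2 * (r : ℝ) / h + Fintype.card Λ) := by
            refine sum_le_sum fun Z hZ => ?_
            refine (children_card_univ hh c (A j Z) Z).trans ?_
            have h14 : ((A j Z).card : ℝ) / h ≤ 2 * (r : ℝ) / h :=
              div_le_div_of_nonneg_right (hcore Z hZ) hh0.le
            linarith
        _ = ((nodes A h b univ c j).card : ℝ) * (2 * (r : ℝ) / h + Fintype.card Λ) := by
            rw [sum_const, nsmul_eq_mul]
        _ ≤ (2 * (r : ℝ) / h + Fintype.card Λ) ^ j * (2 * (r : ℝ) / h + Fintype.card Λ) :=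
            mul_le_mul_of_nonneg_right (ih hj'.le) hbase
        _ = (2 * (r : ℝ) / h + Fintype.card Λ) ^ (j + 1) := by rw [pow_succ]
    · simp only [card_empty, Nat.cast_zero]
      positivity

end LocTr
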