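import Pool.Agent.Work.MP_a8cb64_co.UDefs

/-!
MP_a8cb64_co, Theorem S (note 2485, helper94): module UP6 (helper23): core data from Lemma E.
-/

namespace LocTr

open Finset

theorem exists_coreData (hE : ∀ t, 1 ≤ t → CoreStmt t) (s : ℕ) (κ θ τ : ℝ) (hκ : 0 < κ)
    (hθ : 0 < θ) (hτ : 0 < τ) : ∃ X0 : ℕ, ∀ (r m : ℕ) (H : Finset (Finset ℕ)), X0 ≤ m →
      X0 * m ≤ r → (∀ e ∈ H, e.card = r) → NoTr H m →
      ∃ (T A : ℕ → Finset ℕ → Finset ℕ) (F : ℕ → Finset ℕ → Finset (Finset ℕ)),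
        CoreData H r m s κ θ τ T A F := by
  classical
  have h1 : ∀ t : ℕ, ∃ X0 : ℕ, 1 ≤ t →
      ∀ (r m : ℕ) (H : Finset (Finset ℕ)) (B : Finset ℕ), X0 ≤ m → X0 * m ≤ r →
    (∀ e ∈ H, e.card = r) → NoTr H m → (B.card : ℝ) ≤ (1 : ℝ) * r →
    ∃ (T0 : Finset ℕ) (F : Finset (Finset ℕ)) (A : Finset ℕ), F ⊆ H ∧ (T0.card : ℝ) ≤ τ * m ∧
      (F.card : ℝ) ≤ κ * ((r : ℝ) / m) ^ t ∧
      (∀ e ∈ H, Disjoint e T0 → ((A \ e).card : ℝ) ≤ θ * r) ∧
      ∀ V : Finset ℕ, V.card ≤ t → (∀ e ∈ F, ¬ Disjoint e V) → V ∩ B ⊆ A ∧ (V ∩ A).Nonempty := by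
    intro t
    by_cases ht : 1 ≤ t
    · obtain ⟨X0, hX0⟩ := hE t ht 1 κ θ τ one_pos hκ hθ hτ
      exact ⟨X0, fun _ => hX0⟩
    · exact ⟨0, fun h => absurd h ht⟩
  choose X hX using h1
  refine ⟨2 * (∑ t ∈ range (s + 1), X t) + 2, fun r m H hm hr hH hNo => ?_⟩
  have key : ∀ (j : ℕ) (Z : Finset ℕ), ∃ (T A : Finset ℕ) (F : Finset (Finset ℕ)),
      A ⊆ H.biUnion id ∧ (j < s → 2 * Z.card ≤ m → F ⊆ missing H Z ∧ (T.card : ℝ) ≤ τ * m ∧
        (F.card : ℝ) ≤ κ * (3 * (r : ℝ) / m) ^ (s - j) ∧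
        (∀ e ∈ H, Disjoint e Z → Disjoint e T → ((A \ e).card : ℝ) ≤ θ * r) ∧
        ∀ V : Finset ℕ, V.card ≤ s - j → (∀ e ∈ F, ¬ Disjoint e V) → (V ∩ A).Nonempty) := by
    intro j Z
    by_cases hj : j < s ∧ 2 * Z.card ≤ m
    · obtain ⟨hj, hZ⟩ := hj
      have hXle : X (s - j) ≤ ∑ t ∈ range (s + 1), X t :=
        single_le_sum (f := X) (fun i _ => Nat.zero_le _) (mem_range.2 (by omega))
      have hm2 : X (s - j) ≤ m / 2 := by omega
      have hr2 : X (s - j) * (m / 2) ≤ r := by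
        calc X (s - j) * (m / 2) ≤ (2 * (∑ t ∈ range (s + 1), X t) + 2) * m :=
              Nat.mul_le_mul (by omega) (by omega)
          _ ≤ r := hr
      obtain ⟨T0, F, A, hF, hT, hFc, hnear, hhit⟩ := hX (s - j) (by omega) r (m / 2)
        (missing H Z) ∅ hm2 hr2 (fun e he => hH e (mem_missing.1 he).1)
        (hNo.missing (by omega)) (by simp)
      refine ⟨T0, A ∩ H.biUnion id, F, inter_subset_right, fun _ _ => ⟨hF, ?_, ?_, ?_, ?_⟩⟩
      · refine hT.trans ?_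
        have : ((m / 2 : ℕ) : ℝ) ≤ m := by exact_mod_cast Nat.div_le_self m 2
        gcongr
      · refine hFc.trans ?_
        have hm3 : (m : ℝ) ≤ 3 * ((m / 2 : ℕ) : ℝ) := by
          have : m ≤ 3 * (m / 2) := by omega
          exact_mod_cast this
        have hm0 : (0 : ℝ) < m := by
          have : 0 < m := by omega
          exact_mod_cast this
        have hm20 : (0 : ℝ) < ((m / 2 : ℕ) : ℝ) := by
          have : 0 < m / 2 := by omega
          exact_mod_cast this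
        have h5 : (r : ℝ) / ((m / 2 : ℕ) : ℝ) ≤ 3 * (r : ℝ) / m := by
          rw [div_le_div_iff₀ hm20 hm0]
          have hr0 : (0 : ℝ) ≤ r := Nat.cast_nonneg _
          calc (r : ℝ) * m ≤ r * (3 * ((m / 2 : ℕ) : ℝ)) := by gcongr
            _ = 3 * (r : ℝ) * ((m / 2 : ℕ) : ℝ) := by ring
        gcongr
      · intro e he heZ heT
        refine le_trans ?_ (hnear e (mem_missing.2 ⟨he, heZ⟩) heT)
        exact_mod_cast card_le_card (sdiff_subset_sdiff inter_subset_left Subset.rfl)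
      · intro V hV hVF
        have hV' : ∀ e ∈ F, ¬ Disjoint e (V ∩ H.biUnion id) := by
          intro e he hd
          apply hVF e he
          rw [disjoint_left] at hd ⊢
          intro x hxe hxV
          refine hd hxe (mem_inter.2 ⟨hxV, mem_biUnion.2 ⟨e, (mem_missing.1 (hF he)).1, hxe⟩⟩)
        obtain ⟨x, hx⟩ := (hhit (V ∩ H.biUnion id)
          ((card_le_card inter_subset_left).trans hV) hV').2
        rw [mem_inter, mem_inter] at hx
        exact ⟨x, mem_inter.2 ⟨hx.1.1, mem_inter.2 ⟨hx.2, hx.1.2⟩⟩⟩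
    · exact ⟨∅, ∅, ∅, empty_subset _, fun h1 h2 => absurd ⟨h1, h2⟩ hj⟩
  choose T A F hA hrest using key
  refine ⟨T, A, F, ?_⟩
  exact
    { subA := hA
      subF := fun j hj Z hZ => (hrest j Z hj hZ).1
      cardT := fun j hj Z hZ => (hrest j Z hj hZ).2.1
      cardF := fun j hj Z hZ => (hrest j Z hj hZ).2.2.1
      near := fun j hj Z hZ => (hrest j Z hj hZ).2.2.2.1
      hit := fun j hj Z hZ => (hrest j Z hj hZ).2.2.2.2 }

end LocTr
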