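import Pool.Agent.Work.MP_a8cb64_co.UP1
import Pool.Agent.Work.MP_a8cb64_co.UP2
import Pool.Agent.Work.MP_a8cb64_co.TUnion

/-!
MP_a8cb64_co, Theorem S (helper94, note 2485): module UP7 (helper49), a labelling which is good for
all blocks and all levels.
-/

namespace LocTr

open Finset

section UP7

variable {Λ : Type} [DecidableEq Λ] [Fintype Λ] [Nonempty Λ]

/-- the extension of a labelling of `V` to all naturals. -/
noncomputable def extLab (V : Finset ℕ) (c : V → Λ) (v : ℕ) : Λ :=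
  if h : v ∈ V then c ⟨v, h⟩ else Classical.arbitrary Λ

omit [DecidableEq Λ] [Fintype Λ] in
theorem extLab_mem (V : Finset ℕ) (c : V → Λ) {v : ℕ} (h : v ∈ V) :
    extLab V c v = c ⟨v, h⟩ := dif_pos h

theorem exists_labelling
    {A : ℕ → Finset ℕ → Finset ℕ} {V : Finset ℕ} (hA : ∀ j Z, A j Z ⊆ V) (h s : ℕ)
    (WW : Finset (Finset Λ)) (r m ρ : ℝ) (hr : 0 < r) (hm : 0 ≤ m) (hρ : 0 < ρ) (hρ1 : ρ ≤ 1 / 20)
    (hR : ∀ W ∈ WW, ∀ (c : ℕ → Λ), ∀ j ≤ s,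
      ((expo A h ⌊(1 - ρ) * m⌋₊ W c j).card : ℝ) ≤ (1 + ρ) * r)
    (hp : ∀ W ∈ WW, (W.card : ℝ) * ((1 + 5 * ρ) * r) ≤ m * Fintype.card Λ)
    (hlt : (WW.card : ℝ) * (s + 1) * Real.exp (-(ρ ^ 2 * m / 2)) < 1) :
    ∃ c : ℕ → Λ, ∀ W ∈ WW, ∀ j ≤ s,
      ((expo A h ⌊(1 - ρ) * m⌋₊ W c j).filter fun v => c v ∈ W).card ≤ ⌊(1 - ρ) * m⌋₊ := by
  set b : ℕ := ⌊(1 - ρ) * m⌋₊ with hb
  set Φ : Finset Λ × ℕ → (V → Λ) → Finset V := fun i c =>
    (expo A h b i.1 (extLab V c) i.2).subtype (· ∈ V) with hΦ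
  have hmem : ∀ (i : Finset Λ × ℕ) (c : V → Λ) (v : V), v ∈ Φ i c ↔
      (v : ℕ) ∈ expo A h b i.1 (extLab V c) i.2 := by
    intro i c v
    simp only [hΦ, mem_subtype]
  have hstop : ∀ i ∈ WW ×ˢ range (s + 1), IsStop (Φ i) := by
    intro i _ c c' hcc
    have h1 : expo A h b i.1 (extLab V c') i.2 = expo A h b i.1 (extLab V c) i.2 := by
      refine expo_stop i.2 fun v hv => ?_
      have hvV : v ∈ V := expo_subset hA i.2 hv
      rw [extLab_mem V c' hvV, extLab_mem V c hvV]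
      exact hcc ⟨v, hvV⟩ ((hmem _ _ _).2 hv)
    simp only [hΦ, h1]
  have hcard : ∀ i ∈ WW ×ˢ range (s + 1), ∀ c, ((Φ i c).card : ℝ) ≤ (1 + ρ) * r := by
    intro i hi c
    rw [mem_product, mem_range] at hi
    refine le_trans ?_ (hR i.1 hi.1 (extLab V c) i.2 (Nat.le_of_lt_succ hi.2))
    simp only [hΦ, card_subtype]
    exact_mod_cast card_le_card (filter_subset _ _)
  have hlt' : ((WW ×ˢ range (s + 1)).card : ℝ) * Real.exp (-(ρ ^ 2 * m / 2)) < 1 := by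
    rw [card_product, card_range]
    push_cast
    exact hlt
  obtain ⟨c, hc⟩ := exists_good_label (WW ×ˢ range (s + 1)) Φ (fun i => i.1) hstop r m ρ hr hm hρ
    hρ1 hcard (fun i hi => hp i.1 (mem_product.1 hi).1) hlt'
  refine ⟨extLab V c, fun W hW j hj => Nat.le_floor ?_⟩
  have h1 := hc (W, j) (mem_product.2 ⟨hW, mem_range.2 (Nat.lt_succ_of_le hj)⟩)
  refine le_trans ?_ h1
  have h2 : ((expo A h b W (extLab V c) j).filter fun v => extLab V c v ∈ W) ⊆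
      ((Φ (W, j) c).filter fun v => c v ∈ W).image Subtype.val := by
    intro v hv
    rw [mem_filter] at hv
    have hvV : v ∈ V := expo_subset hA j hv.1
    refine mem_image.2 ⟨⟨v, hvV⟩, mem_filter.2 ⟨(hmem _ _ _).2 hv.1, ?_⟩, rfl⟩
    rw [← extLab_mem V c hvV]
    exact hv.2
  exact_mod_cast (card_le_card h2).trans card_image_le

end UP7

end LocTr
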