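import Pool.Agent.Work.MP_a8cb64_co.UP1
import Pool.Agent.Work.MP_a8cb64_co.UP3
import Pool.Agent.Work.MP_a8cb64_co.UP4
import Pool.Agent.Work.MP_a8cb64_co.UP5
import Pool.Agent.Work.MP_a8cb64_co.UP6
import Pool.Agent.Work.MP_a8cb64_co.UP7
import Pool.Agent.Work.MP_a8cb64_co.TDesign
import Pool.Agent.Work.MP_a8cb64_co.TFinal

/-!
MP_a8cb64_co, Theorem S (helper94, note 2485), main part: module UP8 (helper21), assembly.
-/

namespace LocTr

open Finset

theorem one_add_pow_le (y : ℝ) (hy : 0 ≤ y) (n : ℕ) (h : n * y ≤ 1) :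
    (1 + y) ^ n ≤ 1 + 2 * (n * y) := by
  have h0 : (0 : ℝ) ≤ n * y := by positivity
  have h1 : (1 + y) ^ n ≤ Real.exp (n * y) := by
    rw [Real.exp_nat_mul]
    refine pow_le_pow_left₀ (by positivity) ?_ n
    have := Real.add_one_le_exp y
    linarith
  have h2 := Real.abs_exp_sub_one_sub_id_le (x := (n : ℝ) * y) (by rw [abs_of_nonneg h0]; exact h)
  have h3 := (abs_le.1 h2).2
  have h4 : ((n : ℝ) * y) ^ 2 ≤ n * y := by nlinarith
  linarith

/-- the choice of `N`. -/
theorem exists_modulus (g : ℕ) (N0 : ℕ) (ρ x : ℝ) (hρ : 0 < ρ) (hx0 : (N0 : ℝ) ≤ x)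
    (hx : ((g.factorial : ℝ) + 2) ≤ 2 * ρ * x) : ∃ N : ℕ, N0 ≤ N ∧ 1 ≤ N ∧
      N % g.factorial = 1 % g.factorial ∧ (1 + 5 * ρ) * x ≤ N ∧ (N : ℝ) ≤ (1 + 7 * ρ) * x := by
  have hx1 : 0 ≤ x := (Nat.cast_nonneg N0).trans hx0
  have hfac : 0 < g.factorial := Nat.factorial_pos g
  set a : ℕ := ⌈(1 + 5 * ρ) * x⌉₊ with ha
  have ha1 : (1 + 5 * ρ) * x ≤ a := Nat.le_ceil _
  have ha2 : (a : ℝ) < (1 + 5 * ρ) * x + 1 := Nat.ceil_lt_add_one (by positivity)
  have h1 : a < a / g.factorial * g.factorial + g.factorial := Nat.lt_div_mul_add hfac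
  have h2 : a / g.factorial * g.factorial ≤ a := Nat.div_mul_le_self _ _
  refine ⟨g.factorial * (a / g.factorial + 1) + 1, ?_, ?_, ?_, ?_, ?_⟩
  · have h3 : N0 ≤ a := by
      have : (N0 : ℝ) ≤ a := by nlinarith
      exact_mod_cast this
    nlinarith
  · omega
  · rw [Nat.mul_add_mod]
  · have h3 : a ≤ g.factorial * (a / g.factorial + 1) + 1 := by nlinarith
    have h4 : (a : ℝ) ≤ ((g.factorial * (a / g.factorial + 1) + 1 : ℕ) : ℝ) := by exact_mod_cast h3
    exact ha1.trans h4
  · have h3 : g.factorial * (a / g.factorial + 1) + 1 ≤ a + g.factorial + 1 := by nlinarith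
    have h4 : ((g.factorial * (a / g.factorial + 1) + 1 : ℕ) : ℝ) ≤ a + g.factorial + 1 := by
      exact_mod_cast h3
    refine h4.trans ?_
    linarith

theorem s_core (hE : ∀ t, 1 ≤ t → CoreStmt t) (s : ℕ) (hs : 1 ≤ s) : SharpStmt s := by
  classical
  intro ε0 hε0
  set ε : ℝ := min ε0 1 with hε
  have hεpos : 0 < ε := lt_min hε0 one_pos
  have hε1 : ε ≤ 1 := min_le_right _ _
  have hεε : ε ≤ ε0 := min_le_left _ _
  have hsR : (1 : ℝ) ≤ s := by exact_mod_cast hs
  set ρ : ℝ := ε / (28 * (s + 1)) with hρdef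
  have hρ : 0 < ρ := by positivity
  have hρs : 28 * (s + 1) * ρ = ε := by rw [hρdef]; field_simp
  have hρs1 : 56 * ρ ≤ 28 * (s + 1) * ρ := by
    apply mul_le_mul_of_nonneg_right _ hρ.le
    linarith
  have hρ1 : ρ ≤ 1 / 56 := by linarith
  obtain ⟨g, hg, N0, hdes⟩ := poly_design s hs ρ hρ
  set G : ℕ := 8 * s + g with hG
  have hGR : (1 : ℝ) ≤ G := by
    have : 1 ≤ G := by omega
    exact_mod_cast this
  have hGs : (1 : ℝ) ≤ s * (G : ℝ) ^ s := by
    have h1 : (1 : ℝ) ≤ (G : ℝ) ^ s := one_le_pow₀ hGR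
    exact one_le_mul_of_one_le_of_one_le hsR h1
  set θ : ℝ := ρ / (s * (G : ℝ) ^ s) with hθ
  have hθpos : 0 < θ := by positivity
  have hθ1 : θ ≤ ρ := div_le_self hρ.le hGs
  have hθG : s * (G : ℝ) ^ s * θ = ρ := by rw [hθ]; field_simp
  set D : ℝ := 16 * s + 2 * g + 3 with hD
  have hDpos : 0 < D := by positivity
  set κ : ℝ := ε / (2 * s * D ^ s) with hκ
  have hκpos : 0 < κ := by positivity
  have hκD : s * κ * D ^ s = ε / 2 := by rw [hκ]; field_simp
  obtain ⟨X0, hX0⟩ := exists_coreData hE s κ θ θ hκpos hθpos hθpos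
  set C : ℝ := X0 + 8 * s + N0 + (g.factorial + 2) / (2 * ρ) + 4 * (2 * (s + 1)) / ρ ^ 2 with hC
  have hX0' : (0 : ℝ) ≤ X0 := Nat.cast_nonneg _
  have hN0' : (0 : ℝ) ≤ N0 := Nat.cast_nonneg _
  have hC1 : (0 : ℝ) ≤ (g.factorial + 2) / (2 * ρ) := by positivity
  have hC2 : (0 : ℝ) ≤ 4 * (2 * ((s : ℝ) + 1)) / ρ ^ 2 := by positivity
  have hCpos : 0 < C := by rw [hC]; linarith
  refine ⟨C, hCpos, ?_⟩
  intro r m hCm hCr hClog H hHr hH
  have hmR : (0 : ℝ) < m := hCpos.trans_le hCm
  have hrR : (0 : ℝ) < r := lt_of_lt_of_le (by positivity) hCr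
  set x : ℝ := (r : ℝ) / m with hx
  have hxC : C ≤ x := by rw [hx, le_div_iff₀ hmR]; exact hCr
  have hx0 : 0 < x := hCpos.trans_le hxC
  have hrx : (r : ℝ) = x * m := by rw [hx]; field_simp
  -- the core data
  have hm1 : X0 ≤ m := by
    have : (X0 : ℝ) ≤ m := by linarith
    exact_mod_cast this
  have hr1 : X0 * m ≤ r := by
    have : (X0 : ℝ) * m ≤ r := by
      rw [hrx]
      exact mul_le_mul_of_nonneg_right (by linarith) hmR.le
    exact_mod_cast this
  obtain ⟨T, A, F, hcore⟩ := hX0 r m H hm1 hr1 hHr hH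
  -- the modulus
  obtain ⟨N, hN0, hN1, hNmod, hNx, hNx'⟩ := exists_modulus g N0 ρ x hρ (by linarith) (by
    have h1 : (g.factorial + 2) / (2 * ρ) ≤ x := by linarith
    rw [div_le_iff₀ (by positivity)] at h1
    linarith)
  have : NeZero N := ⟨by omega⟩
  have : Nonempty (Fin g × ZMod N) := ⟨⟨⟨0, by omega⟩, 0⟩⟩
  obtain ⟨WW, hWg, hWc, hWS⟩ := hdes N hN0 hNmod
  have hcardΛ : (Fintype.card (Fin g × ZMod N) : ℝ) = g * N := by
    rw [Fintype.card_prod, Fintype.card_fin, ZMod.card]
    push_cast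
    ring
  -- sizes
  set h : ℕ := m / (4 * s) with hh
  have h8s : 8 * s ≤ m := by
    have : (8 * (s : ℝ)) ≤ m := by linarith
    exact_mod_cast this
  have hh1 : 1 ≤ h := by
    rw [hh, Nat.le_div_iff_mul_le (by omega)]
    omega
  have hh4 : h * (4 * s) ≤ m := Nat.div_mul_le_self _ _
  have hhm : 2 * (s * h) ≤ m := by
    have h1 : h * (4 * s) = 4 * (s * h) := by ring
    omega
  have hhlow : (m : ℝ) ≤ 8 * s * h := by
    have h1 : m < m / (4 * s) * (4 * s) + 4 * s := Nat.lt_div_mul_add (by omega)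
    rw [← hh] at h1
    have h3 : 1 * (4 * s) ≤ h * (4 * s) := Nat.mul_le_mul_right _ hh1
    have h4 : 8 * s * h = 2 * (h * (4 * s)) := by ring
    have h2 : m ≤ 8 * s * h := by omega
    exact_mod_cast h2
  set b : ℕ := ⌊(1 - ρ) * (m : ℝ)⌋₊ with hb
  have hbR : (b : ℝ) ≤ (1 - ρ) * m := Nat.floor_le (mul_nonneg (by linarith) hmR.le)
  have hρm : 0 < ρ * m := mul_pos hρ hmR
  have hbm : b ≤ m := by
    have : (b : ℝ) ≤ m := by linarith
    exact_mod_cast this
  have hbG : b / h ≤ 8 * s := by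
    have h1 : m ≤ 8 * s * h := by exact_mod_cast hhlow
    apply Nat.div_le_of_le_mul
    rw [mul_comm h]
    omega
  have hhR : (0 : ℝ) < h := by exact_mod_cast hh1
  have hNpos : (0 : ℝ) < N := by
    have : 0 < N := by omega
    exact_mod_cast this
  -- good labelling
  have hNs : (1 + ρ) * (N : ℝ) ^ s ≤ (1 + ε / 2) * x ^ s := by
    have h1 : (N : ℝ) ^ s ≤ ((1 + 7 * ρ) * x) ^ s := pow_le_pow_left₀ hNpos.le hNx' s
    rw [mul_pow] at h1
    have h2 := one_add_pow_le (7 * ρ) (by positivity) (s + 1) (by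
      have h3 : ((s + 1 : ℕ) : ℝ) * (7 * ρ) = 28 * (s + 1) * ρ / 4 := by push_cast; ring
      rw [h3, hρs]
      linarith)
    have h3 : (1 + ρ) * (1 + 7 * ρ) ^ s ≤ 1 + ε / 2 := by
      calc (1 + ρ) * (1 + 7 * ρ) ^ s ≤ (1 + 7 * ρ) * (1 + 7 * ρ) ^ s := by
            apply mul_le_mul_of_nonneg_right _ (by positivity)
            linarith
        _ = (1 + 7 * ρ) ^ (s + 1) := by ring
        _ ≤ 1 + 2 * (((s + 1 : ℕ) : ℝ) * (7 * ρ)) := h2
        _ = 1 + ε / 2 := by
            push_cast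
            rw [← hρs]
            ring
    calc (1 + ρ) * (N : ℝ) ^ s ≤ (1 + ρ) * ((1 + 7 * ρ) ^ s * x ^ s) :=
          mul_le_mul_of_nonneg_left h1 (by positivity)
      _ = ((1 + ρ) * (1 + 7 * ρ) ^ s) * x ^ s := by ring
      _ ≤ (1 + ε / 2) * x ^ s := mul_le_mul_of_nonneg_right h3 (by positivity)
  have hWWc : (WW.card : ℝ) ≤ (1 + ε / 2) * x ^ s := hWc.trans hNs
  have hlt : (WW.card : ℝ) * (s + 1) * Real.exp (-(ρ ^ 2 * m / 2)) < 1 := by
    have h1 : (WW.card : ℝ) * (s + 1) ≤ (2 * (s + 1)) * x ^ s := by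
      have h0 : (1 + ε / 2) * x ^ s ≤ 2 * x ^ s :=
        mul_le_mul_of_nonneg_right (by linarith) (by positivity)
      calc (WW.card : ℝ) * (s + 1) ≤ (2 * x ^ s) * (s + 1) :=
            mul_le_mul_of_nonneg_right (hWWc.trans h0) (by linarith)
        _ = (2 * (s + 1)) * x ^ s := by ring
    have h2 : (2 * ((s : ℝ) + 1)) * x ^ s < Real.exp (ρ ^ 2 * m / 2) := by
      have h3 : x ^ s = Real.exp (s * Real.log x) := by
        rw [Real.exp_nat_mul, Real.exp_log hx0]
      have h4 : 2 * ((s : ℝ) + 1) < Real.exp (2 * (s + 1)) := by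
        have := Real.add_one_le_exp (2 * ((s : ℝ) + 1))
        linarith
      have h5 : (4 * (2 * ((s : ℝ) + 1)) / ρ ^ 2) ≤ C := by rw [hC]; linarith
      have h6 : 4 * (2 * ((s : ℝ) + 1)) ≤ C * ρ ^ 2 := by
        rw [div_le_iff₀ (by positivity)] at h5
        exact h5
      have h7 : 2 * ((s : ℝ) + 1) ≤ ρ ^ 2 * m / 4 := by
        have := mul_le_mul_of_nonneg_right hCm (sq_nonneg ρ)
        linarith
      have h8 : (s : ℝ) * Real.log x ≤ ρ ^ 2 * m / 4 := by
        have hx1 : 1 ≤ x := by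
          have : (1 : ℝ) ≤ 8 * s := by linarith
          linarith
        have hl : 0 ≤ Real.log x := Real.log_nonneg hx1
        have h9 : (4 * (s : ℝ)) * Real.log x ≤ ρ ^ 2 * m := by
          calc (4 * (s : ℝ)) * Real.log x ≤ (C * ρ ^ 2) * Real.log x :=
                mul_le_mul_of_nonneg_right (by linarith) hl
            _ = ρ ^ 2 * (C * Real.log x) := by ring
            _ ≤ ρ ^ 2 * m := mul_le_mul_of_nonneg_left hClog (by positivity)
        linarith
      rw [h3]
      calc 2 * ((s : ℝ) + 1) * Real.exp (s * Real.log x)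
          < Real.exp (2 * (s + 1)) * Real.exp (s * Real.log x) :=
            mul_lt_mul_of_pos_right h4 (Real.exp_pos _)
        _ = Real.exp (2 * (s + 1) + s * Real.log x) := by rw [Real.exp_add]
        _ ≤ Real.exp (ρ ^ 2 * m / 2) := Real.exp_le_exp.2 (by linarith)
    calc (WW.card : ℝ) * (s + 1) * Real.exp (-(ρ ^ 2 * m / 2))
        ≤ (2 * (s + 1)) * x ^ s * Real.exp (-(ρ ^ 2 * m / 2)) :=
          mul_le_mul_of_nonneg_right h1 (Real.exp_pos _).le
      _ < Real.exp (ρ ^ 2 * m / 2) * Real.exp (-(ρ ^ 2 * m / 2)) :=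
          mul_lt_mul_of_pos_right h2 (Real.exp_pos _)
      _ = 1 := by rw [← Real.exp_add]; simp
  set V : Finset ℕ := H.biUnion id with hV
  obtain ⟨c, hc⟩ := exists_labelling (Λ := Fin g × ZMod N) hcore.subA h s WW (r : ℝ) (m : ℝ) ρ hrR
    hmR.le hρ (by linarith) (by
      intro W hW c j hj
      have h1 := expo_card hcore hHr hH hθpos.le hθpos.le hh1 hhm W G (by
        have := hWg W hW
        omega) (by omega) (b := b) (by
        have : s * (G : ℝ) ^ s * (θ * m) = ρ * m := by rw [← hθG]; ring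
        rw [this]
        linarith) c j hj
      refine h1.trans (le_of_eq ?_)
      have : s * (G : ℝ) ^ s * (θ * r) = ρ * r := by rw [← hθG]; ring
      rw [this]
      ring) (by
      intro W hW
      rw [hcardΛ]
      have h1 : (W.card : ℝ) ≤ g := by exact_mod_cast hWg W hW
      have h2 : (1 + 5 * ρ) * (r : ℝ) ≤ N * m := by
        rw [hrx, ← mul_assoc]
        exact mul_le_mul_of_nonneg_right hNx hmR.le
      calc (W.card : ℝ) * ((1 + 5 * ρ) * r) ≤ g * (N * m) :=
            mul_le_mul h1 h2 (by positivity) (by positivity)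
        _ = m * (g * N) := by ring) hlt
  rw [← hb] at hc
  -- the edges for the blocks
  have hU : ∀ W ∈ WW, ∃ e ∈ H, Disjoint e ((expo A h b W c s).filter fun v => c v ∈ W) := by
    intro W hW
    exact hH _ ((hc W hW s le_rfl).trans hbm)
  choose! eW heW1 heW2 using hU
  have hnode : ∀ j < s, ∀ Z ∈ nodes A h V.card univ c j, 2 * Z.card ≤ m := by
    intro j hj Z hZ
    have h1 := node_card hh1 j Z hZ
    have h2 : j * h ≤ s * h := Nat.mul_le_mul_right h hj.le
    omega
  refine ⟨((range s).biUnion fun j => (nodes A h V.card univ c j).biUnion (F j)) ∪ WW.image eW,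
    ?_, ?_, ?_⟩
  · intro e he
    rcases mem_union.1 he with he | he
    · obtain ⟨j, hj, he⟩ := mem_biUnion.1 he
      obtain ⟨Z, hZ, he⟩ := mem_biUnion.1 he
      exact missing_subset H Z (hcore.subF j (mem_range.1 hj) Z (hnode j (mem_range.1 hj) Z hZ) he)
    · obtain ⟨W, hW, rfl⟩ := mem_image.1 he
      exact heW1 W hW
  · have h1 : (((range s).biUnion fun j => (nodes A h V.card univ c j).biUnion (F j)).card : ℝ) ≤
        ε / 2 * x ^ s := by
      have h2 : ∀ j ∈ range s, (((nodes A h V.card univ c j).biUnion (F j)).card : ℝ) ≤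
          κ * (D * x) ^ s := by
        intro j hj
        have hj' := mem_range.1 hj
        have h3 : (((nodes A h V.card univ c j).biUnion (F j)).card : ℝ) ≤
            ∑ Z ∈ nodes A h V.card univ c j, ((F j Z).card : ℝ) := by
          exact_mod_cast card_biUnion_le
        have h4 : ∑ Z ∈ nodes A h V.card univ c j, ((F j Z).card : ℝ) ≤
            ∑ _Z ∈ nodes A h V.card univ c j, κ * (3 * (r : ℝ) / m) ^ (s - j) :=
          sum_le_sum fun Z hZ => hcore.cardF j hj' Z (hnode j hj' Z hZ)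
        rw [sum_const, nsmul_eq_mul] at h4
        have h5 := nodes_univ_count hcore hHr hH (by linarith) (by linarith) hh1 hhm V.card c j
          hj'.le
        have h6 : 2 * (r : ℝ) / h + Fintype.card (Fin g × ZMod N) ≤ D * x := by
          rw [hcardΛ]
          have h7 : 2 * (r : ℝ) / h ≤ 16 * s * x := by
            rw [div_le_iff₀ hhR, hrx]
            calc 2 * (x * m) = (2 * x) * m := by ring
              _ ≤ (2 * x) * (8 * s * h) := mul_le_mul_of_nonneg_left hhlow (by linarith)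
              _ = 16 * s * x * h := by ring
          have h8 : (g : ℝ) * N ≤ 2 * g * x := by
            have h9 : (N : ℝ) ≤ 2 * x := hNx'.trans
              (mul_le_mul_of_nonneg_right (by linarith) hx0.le)
            calc (g : ℝ) * N ≤ g * (2 * x) := mul_le_mul_of_nonneg_left h9 (Nat.cast_nonneg _)
              _ = 2 * g * x := by ring
          have h9 : D * x = 16 * s * x + 2 * g * x + 3 * x := by rw [hD]; ring
          rw [h9]
          linarith
        have h7 : 3 * (r : ℝ) / m ≤ D * x := by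
          have : 3 * (r : ℝ) / m = 3 * x := by rw [hx]; ring
          rw [this]
          apply mul_le_mul_of_nonneg_right _ hx0.le
          rw [hD]
          have : (0 : ℝ) ≤ g := Nat.cast_nonneg _
          linarith
        calc (((nodes A h V.card univ c j).biUnion (F j)).card : ℝ)
            ≤ ((nodes A h V.card univ c j).card : ℝ) * (κ * (3 * (r : ℝ) / m) ^ (s - j)) :=
              h3.trans h4
          _ ≤ (D * x) ^ j * (κ * (D * x) ^ (s - j)) := by
              apply mul_le_mul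
              · exact h5.trans (pow_le_pow_left₀ (by positivity) h6 j)
              · apply mul_le_mul_of_nonneg_left _ hκpos.le
                exact pow_le_pow_left₀ (by positivity) h7 _
              · positivity
              · positivity
          _ = κ * ((D * x) ^ j * (D * x) ^ (s - j)) := by ring
          _ = κ * (D * x) ^ s := by rw [← pow_add, Nat.add_sub_cancel' hj'.le]
      have h3 : (((range s).biUnion fun j => (nodes A h V.card univ c j).biUnion (F j)).card : ℝ) ≤
          ∑ j ∈ range s, (((nodes A h V.card univ c j).biUnion (F j)).card : ℝ) := by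
        exact_mod_cast card_biUnion_le
      refine h3.trans ((sum_le_sum h2).trans (le_of_eq ?_))
      rw [sum_const, card_range, nsmul_eq_mul, mul_pow, ← hκD]
      ring
    have h2 : ((WW.image eW).card : ℝ) ≤ (1 + ε / 2) * x ^ s :=
      le_trans (by exact_mod_cast card_image_le) hWWc
    calc ((((range s).biUnion fun j => (nodes A h V.card univ c j).biUnion (F j)) ∪
          WW.image eW).card : ℝ)
        ≤ (((range s).biUnion fun j => (nodes A h V.card univ c j).biUnion (F j)).card : ℝ) +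
          ((WW.image eW).card : ℝ) := by exact_mod_cast card_union_le _ _
      _ ≤ ε / 2 * x ^ s + (1 + ε / 2) * x ^ s := add_le_add h1 h2
      _ = (1 + ε) * x ^ s := by ring
      _ ≤ (1 + ε0) * x ^ s := mul_le_mul_of_nonneg_right (by linarith) (by positivity)
  · intro X hX
    by_contra hcon
    push Not at hcon
    obtain ⟨W, hW, hSW⟩ := hWS (X.image c) (card_image_le.trans hX)
    have h1 := descend hcore hh1 hhm (hc W hW) X hX
      (fun v hv => hSW (mem_image_of_mem c hv)) (by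
        intro j hj Z hZ e he
        refine hcon e (mem_union_left _ ?_)
        refine mem_biUnion.2 ⟨j, mem_range.2 hj, mem_biUnion.2 ⟨Z, ?_, he⟩⟩
        exact nodes_subset_univ hcore.subA h b W c j hZ)
    exact hcon (eW W) (mem_union_right _ (mem_image_of_mem _ hW))
      (disjoint_of_subset_right h1 (heW2 W hW))

end LocTr
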