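import Pool.Agent.Work.MP_a8cb64_co.UDefs
import Pool.Agent.Work.MP_a8cb64_co.LDefs

/-!
MP_a8cb64_co, Theorem S (helper94, note 2485), main part: skeleton (helper21).  Nobody imports this
file in the end; every module is its own file `UP1.lean`, `UP2.lean`, ... in this folder with
exactly the statements below.
-/

namespace LocTr

open Finset

section UP1

variable {Λ : Type} [DecidableEq Λ] {A : ℕ → Finset ℕ → Finset ℕ} {h b : ℕ} {W : Finset Λ}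
  {c : ℕ → Λ}

/-! ### UP1: first facts about the exploration -/

theorem node_card (hh : 1 ≤ h) : ∀ j, ∀ Z ∈ nodes A h b W c j, Z.card ≤ j * h := by
  sorry

theorem node_subset : ∀ j, ∀ Z ∈ nodes A h b W c j,
    Z ⊆ (expo A h b W c j).filter fun v => c v ∈ W := by
  sorry

theorem expo_mono {i j : ℕ} (hij : i ≤ j) : expo A h b W c i ⊆ expo A h b W c j := by
  sorry

theorem subset_expo {i j : ℕ} (hij : i < j) {Z : Finset ℕ} (hZ : Z ∈ nodes A h b W c i) :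
    A i Z ⊆ expo A h b W c j := by
  sorry

theorem expo_eq (j : ℕ) : expo A h b W c j =
    (range j).biUnion fun i => (nodes A h b W c i).biUnion (A i) := by
  sorry

theorem labelled_card_le {j : ℕ} (hne : (nodes A h b W c j).Nonempty) :
    ((expo A h b W c j).filter fun v => c v ∈ W).card ≤ b := by
  sorry

theorem expo_subset {V : Finset ℕ} (hA : ∀ j Z, A j Z ⊆ V) (j : ℕ) : expo A h b W c j ⊆ V := by
  sorry

/-- use `∑_{a ∈ W} |L_a| / h ≤ |⋃ L_a| / h` (truncated division is superadditive) and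
`A j Z ∩ c⁻¹(W) ⊆ expo (j+1) ∩ c⁻¹(W)`, which has at most `b` points if not truncated. -/
theorem nodes_count (hh : 1 ≤ h) : ∀ j, (nodes A h b W c j).card ≤ (b / h + W.card) ^ j := by
  sorry

/-! ### UP2: stopping sets -/

theorem expo_stop {c' : ℕ → Λ} (j : ℕ) (hc : ∀ v ∈ expo A h b W c j, c' v = c v) :
    expo A h b W c' j = expo A h b W c j := by
  sorry

end UP1

/-! ### UP3: the exposed set is hardly larger than an edge.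
Induction on `j` (statement: `|expo j| ≤ r + (∑_{i<j} |nodes i|) θ r`): if `nodes j = ∅` nothing
happens; otherwise `|expo j ∩ c⁻¹(W)| ≤ b`, an edge `e` misses `expo j ∩ c⁻¹(W)` and all `T i Z`,
`Z ∈ nodes i`, `i ≤ j` (`(∑_{i≤j} |nodes i|) τ m ≤ m - b`), and all `Z ∈ nodes i`, `i ≤ j`, since
`Z ⊆ expo i ∩ c⁻¹(W)`; so `|A i Z \ e| ≤ θ r` for all of them and `expo (j+1) = ⋃ A i Z`. -/
theorem expo_card {Λ : Type} [DecidableEq Λ] {H : Finset (Finset ℕ)} {r m s : ℕ} {κ θ τ : ℝ}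
    {T A : ℕ → Finset ℕ → Finset ℕ} {F : ℕ → Finset ℕ → Finset (Finset ℕ)}
    (hD : CoreData H r m s κ θ τ T A F) (hr : ∀ e ∈ H, e.card = r) (hH : NoTr H m)
    (hθ : 0 ≤ θ) (hτ : 0 ≤ τ) {h b : ℕ} (hh : 1 ≤ h) (hhm : 2 * (s * h) ≤ m) (W : Finset Λ)
    (G : ℕ) (hG : b / h + W.card ≤ G) (hG1 : 1 ≤ G)
    (hb : (b : ℝ) + s * (G : ℝ) ^ s * (τ * m) ≤ m) (c : ℕ → Λ) :
    ∀ j ≤ s, ((expo A h b W c j).card : ℝ) ≤ r + s * (G : ℝ) ^ s * (θ * r) := by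
  sorry

/-! ### UP4: a set which is hit everywhere is explored.
Induction on `j ≤ s`: there is `Z ∈ nodes j` with `|X \ Z| ≤ s - j`. -/
theorem descend {Λ : Type} [DecidableEq Λ] {H : Finset (Finset ℕ)} {r m s : ℕ} {κ θ τ : ℝ}
    {T A : ℕ → Finset ℕ → Finset ℕ} {F : ℕ → Finset ℕ → Finset (Finset ℕ)}
    (hD : CoreData H r m s κ θ τ T A F) {h b : ℕ} (hh : 1 ≤ h) (hhm : 2 * (s * h) ≤ m)
    {W : Finset Λ} {c : ℕ → Λ}
    (hb : ∀ j ≤ s, ((expo A h b W c j).filter fun v => c v ∈ W).card ≤ b)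
    (X : Finset ℕ) (hX : X.card ≤ s) (hXW : ∀ v ∈ X, c v ∈ W)
    (hhit : ∀ j < s, ∀ Z ∈ nodes A h b W c j, ∀ e ∈ F j Z, ¬ Disjoint e X) :
    X ⊆ (expo A h b W c s).filter fun v => c v ∈ W := by
  sorry

/-! ### UP5: the exploration for all labels (never truncated) -/

theorem nodes_subset_univ {Λ : Type} [DecidableEq Λ] [Fintype Λ]
    {A : ℕ → Finset ℕ → Finset ℕ} {V : Finset ℕ} (hA : ∀ j Z, A j Z ⊆ V) (h b : ℕ)
    (W : Finset Λ) (c : ℕ → Λ) (j : ℕ) :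
    nodes A h b W c j ⊆ nodes A h V.card univ c j := by
  sorry

/-- `|A j Z| ≤ |e| + θ r ≤ 2 r` for an edge `e` which misses `Z` and `T j Z`, `|Z| ≤ s h ≤ m/2`. -/
theorem nodes_univ_count {Λ : Type} [DecidableEq Λ] [Fintype Λ] {H : Finset (Finset ℕ)}
    {r m s : ℕ} {κ θ τ : ℝ}
    {T A : ℕ → Finset ℕ → Finset ℕ} {F : ℕ → Finset ℕ → Finset (Finset ℕ)}
    (hD : CoreData H r m s κ θ τ T A F) (hr : ∀ e ∈ H, e.card = r) (hH : NoTr H m)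
    (hθ : θ ≤ 1) (hτ : τ ≤ 1 / 2) {h : ℕ} (hh : 1 ≤ h) (hhm : 2 * (s * h) ≤ m) (b : ℕ)
    (c : ℕ → Λ) : ∀ j ≤ s, ((nodes A h b univ c j).card : ℝ) ≤
      (2 * (r : ℝ) / h + Fintype.card Λ) ^ j := by
  sorry

/-! ### UP6: core data from Lemma E (with `B = ∅`, for `missing H Z` and `m / 2`).
`A j Z := A ∩ H.biUnion id` if `2 |Z| ≤ m` and `j < s`, `∅` otherwise. -/
theorem exists_coreData (hE : ∀ t, 1 ≤ t → CoreStmt t) (s : ℕ) (κ θ τ : ℝ) (hκ : 0 < κ)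
    (hθ : 0 < θ) (hτ : 0 < τ) : ∃ X0 : ℕ, ∀ (r m : ℕ) (H : Finset (Finset ℕ)), X0 ≤ m →
      X0 * m ≤ r → (∀ e ∈ H, e.card = r) → NoTr H m →
      ∃ (T A : ℕ → Finset ℕ → Finset ℕ) (F : ℕ → Finset ℕ → Finset (Finset ℕ)),
        CoreData H r m s κ θ τ T A F := by
  sorry

/-! ### UP7: a labelling which is good for all blocks and all levels (from `TM3.lean`:
`stop_tail` with `ι = ↥V` and the stopping set `(expo A h b W (extension of c) j).subtype`) -/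
theorem exists_labelling {Λ : Type} [DecidableEq Λ] [Fintype Λ] [Nonempty Λ]
    {A : ℕ → Finset ℕ → Finset ℕ} {V : Finset ℕ} (hA : ∀ j Z, A j Z ⊆ V) (h s : ℕ)
    (WW : Finset (Finset Λ)) (r m ρ : ℝ) (hr : 0 < r) (hm : 0 ≤ m) (hρ : 0 < ρ) (hρ1 : ρ ≤ 1 / 20)
    (hR : ∀ W ∈ WW, ∀ (c : ℕ → Λ), ∀ j ≤ s,
      ((expo A h ⌊(1 - ρ) * m⌋₊ W c j).card : ℝ) ≤ (1 + ρ) * r)
    (hp : ∀ W ∈ WW, (W.card : ℝ) * ((1 + 5 * ρ) * r) ≤ m * Fintype.card Λ)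
    (hlt : (WW.card : ℝ) * (s + 1) * Real.exp (-(ρ ^ 2 * m / 2)) < 1) :
    ∃ c : ℕ → Λ, ∀ W ∈ WW, ∀ j ≤ s,
      ((expo A h ⌊(1 - ρ) * m⌋₊ W c j).filter fun v => c v ∈ W).card ≤ ⌊(1 - ρ) * m⌋₊ := by
  sorry

/-! ### TDesign (helper23) -/
theorem poly_design (s : ℕ) (hs : 1 ≤ s) (ρ : ℝ) (hρ : 0 < ρ) : ∃ g : ℕ, 1 ≤ g ∧ ∃ N0 : ℕ,
    ∀ N ≥ N0, N % g.factorial = 1 % g.factorial →
      ∃ WW : Finset (Finset (Fin g × ZMod N)), (∀ W ∈ WW, W.card ≤ g) ∧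
        (WW.card : ℝ) ≤ (1 + ρ) * (N : ℝ) ^ s ∧
        ∀ S : Finset (Fin g × ZMod N), S.card ≤ s → ∃ W ∈ WW, S ⊆ W := by
  sorry

/-! ### UP8: assembly -/

/-- statement of the assembly -/
def SCoreStmt (s : ℕ) : Prop := ∀ ε : ℝ, 0 < ε → ∃ C : ℝ, 0 < C ∧ ∀ (r m : ℕ)
    (H : Finset (Finset ℕ)), C ≤ m → C * m ≤ r → C * Real.log ((r : ℝ) / m) ≤ m →
    (∀ e ∈ H, e.card = r) → NoTr H m →
    ∃ F ⊆ H, (F.card : ℝ) ≤ (1 + ε) * ((r : ℝ) / m) ^ s ∧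
      ∀ X : Finset ℕ, X.card ≤ s → ∃ e ∈ F, Disjoint e X

theorem s_core (hE : ∀ t, 1 ≤ t → CoreStmt t) (s : ℕ) (hs : 1 ≤ s) : SCoreStmt s := by
  sorry

/-! ### UP9: final theorem (pattern: `LS10.lean`; lower bound `fval_complete` in `LD8.lean`) -/
theorem theoremS_of (s : ℕ) (hs : 1 ≤ s) (h : SCoreStmt s) (ε : ℝ) (hε : 0 < ε) :
    ∃ C : ℕ, ∀ k r : ℕ, C ≤ k → C * (k : ℝ) ^ (1 / (s : ℝ)) * Real.log k ≤ r →
      (r : ℝ) * (k : ℝ) ^ (-(1 / (s : ℝ))) ≤ (fval r k s : ℝ) ∧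
        (fval r k s : ℝ) ≤ (1 + ε) * ((r : ℝ) * (k : ℝ) ^ (-(1 / (s : ℝ)))) := by
  sorry

end LocTr
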