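import Pool.Agent.Work.MP_a8cb64_co.UP7

/-!
MP_a8cb64_co, Theorem S without the logarithm (helper72): definitions.

The exploration of a block `W` with `b = |V|` is never truncated (`V` contains all the cores).
For every scale `t ≥ 1` we use the thresholds `thr s g m h t j`, `j ≤ s`.
-/

namespace LocTr

open Finset

/-- thresholds of the scale `t`: `thr 0 = t m`, `thr (j+1) = 8 (j+1) t m (thr j / h + g)^j`. -/
def thr (g m h t : ℕ) : ℕ → ℕ
  | 0 => t * m
  | j + 1 => 8 * (j + 1) * t * m * (thr g m h t j / h + g) ^ j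

/-- the number of exposed points with a label in `W` -/
def lab {Λ : Type} [DecidableEq Λ] (A : ℕ → Finset ℕ → Finset ℕ) (h b : ℕ) (W : Finset Λ)
    (c : ℕ → Λ) (j : ℕ) : ℕ := ((expo A h b W c j).filter fun v => c v ∈ W).card

end LocTr
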