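import Pool.Agent.Work.MP_a8cb64_co.VDefs
import Pool.Agent.Work.MP_a8cb64_co.TM3
import Pool.Agent.Work.MP_a8cb64_co.TFinal

/-!
MP_a8cb64_co, Theorem S without the logarithm (helper72): skeleton.  Nobody imports this file; every
module is its own file `VP1.lean`, ... with exactly the statements below.
-/

namespace LocTr

open Finset

/-! ### VP1 (copy of UP4 `descend`, the `key` claim at `j = s`) -/
theorem descend_node {Λ : Type} [DecidableEq Λ] {H : Finset (Finset ℕ)} {r m s : ℕ} {κ θ τ : ℝ}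
    {T A : ℕ → Finset ℕ → Finset ℕ} {F : ℕ → Finset ℕ → Finset (Finset ℕ)}
    (hD : CoreData H r m s κ θ τ T A F) {h b : ℕ} (hh : 1 ≤ h) (hhm : 2 * (s * h) ≤ m)
    {W : Finset Λ} {c : ℕ → Λ} (hb : ∀ j ≤ s, lab A h b W c j ≤ b)
    (X : Finset ℕ) (hX : X.card ≤ s) (hXW : ∀ v ∈ X, c v ∈ W)
    (hhit : ∀ j < s, ∀ Z ∈ nodes A h b W c j, ∀ e ∈ F j Z, ¬ Disjoint e X) :
    ∃ Z ∈ nodes A h b W c s, X ⊆ Z := by
  sorry

/-! ### VP2: truncation does not matter as long as nothing is truncated -/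
theorem trunc_agree {Λ : Type} [DecidableEq Λ] {A : ℕ → Finset ℕ → Finset ℕ} {h b b' : ℕ}
    {W : Finset Λ} {c : ℕ → Λ} (hbb : b ≤ b') (j : ℕ) (hj : ∀ i ≤ j, lab A h b' W c i ≤ b) :
    nodes A h b W c j = nodes A h b' W c j ∧ expo A h b W c (j + 1) = expo A h b' W c (j + 1) := by
  sorry

/-! ### VP3: growth of the thresholds -/
theorem thr_mono (g m h t : ℕ) (hg : 1 ≤ g) (ht : 1 ≤ t) (hh : 1 ≤ h) (hhm : h ≤ m) {i j : ℕ}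
    (hij : i ≤ j) : thr g m h t i ≤ thr g m h t j := by
  sorry

theorem le_thr (g m h t : ℕ) (hg : 1 ≤ g) (j : ℕ) : t * m ≤ thr g m h t j := by
  sorry

/-- `(thr s / h + g)^s ≤ K t^D`. -/
theorem thr_growth (s g : ℕ) : ∃ K D : ℕ, ∀ m h t : ℕ, 1 ≤ h → m ≤ 8 * s * h → 1 ≤ t →
    (thr g m h t s / h + g) ^ s ≤ K * t ^ D := by
  sorry

/-! ### VP4: the tail of one level and of one scale -/
theorem scale_tail {Λ : Type} [DecidableEq Λ] [Fintype Λ] [Nonempty Λ]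
    {A : ℕ → Finset ℕ → Finset ℕ} {V : Finset ℕ} (hA : ∀ j Z, A j Z ⊆ V) (s g r m h t : ℕ)
    (hg : 1 ≤ g) (hm : 1 ≤ m) (hh : 1 ≤ h) (hhm : h ≤ m) (ht : 1 ≤ t) (W : Finset Λ)
    (hW : W.card ≤ g) (hp : (W.card : ℝ) * r ≤ m * Fintype.card Λ)
    (hA2 : ∀ j < s, ∀ Z : Finset ℕ, Z.card ≤ s * h → (A j Z).card ≤ 2 * r) :
    ((univ.filter fun c : V → Λ => ¬ ∀ j ≤ s,
      lab A h V.card W (extLab V c) j ≤ thr g m h t j).card : ℝ) ≤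
      s * Real.exp (-(t * m : ℝ)) * (Fintype.card Λ : ℝ) ^ V.card := by
  sorry

/-! ### VP5: summation over the scales (pure finite sums; `(t+1)^D ≤ D! e^(t+1)`).
For `c ∈ B` let `t` be the least `t ≥ 1` with `c ∈ G t`: `N c ≤ K` if `t = 1`, otherwise
`N c ≤ K t^D` and `c ∉ G (t-1)`. -/
theorem multi_scale {Ω : Type*} [Fintype Ω] [DecidableEq Ω] (N : Ω → ℝ) (B : Finset Ω)
    (G : ℕ → Finset Ω) (K D s : ℕ) (m : ℝ) (hm : 2 ≤ m)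
    (hN : ∀ t, 1 ≤ t → ∀ c ∈ G t, N c ≤ K * (t : ℝ) ^ D)
    (hG : ∀ t : ℕ, 1 ≤ t →
      (((univ : Finset Ω) \ G t).card : ℝ) ≤ s * Real.exp (-(t * m)) * Fintype.card Ω)
    (ht0 : ∃ t0, 1 ≤ t0 ∧ G t0 = univ) :
    ∑ c ∈ B, N c ≤ K * B.card +
      K * s * (2 * D.factorial * Real.exp 2) * Real.exp (-m) * Fintype.card Ω := by
  sorry

/-! ### VP5': the expected number of leaves of the bad blocks (`trunc_agree`, `nodes_count`,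
`thr_growth`, `scale_tail`, `stop_tail`, `multi_scale`) -/
theorem bad_cost (s g : ℕ) (hs : 1 ≤ s) (hg : 1 ≤ g) (ρ ρ' : ℝ) (hρ : 0 < ρ) (hρ1 : ρ ≤ 1 / 20)
    (hρ' : 0 < ρ') : ∃ C : ℝ, 0 < C ∧ ∀ {Λ : Type} [DecidableEq Λ] [Fintype Λ] [Nonempty Λ]
      (A : ℕ → Finset ℕ → Finset ℕ) (V : Finset ℕ) (r m h : ℕ) (W : Finset Λ), C ≤ m → 1 ≤ r →
      (∀ j Z, A j Z ⊆ V) → 1 ≤ h → h ≤ m → m ≤ 8 * s * h → W.card ≤ g →
      (W.card : ℝ) * ((1 + 5 * ρ) * r) ≤ m * Fintype.card Λ →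
      (∀ j < s, ∀ Z : Finset ℕ, Z.card ≤ s * h → (A j Z).card ≤ 2 * r) →
      (∀ (c : ℕ → Λ), ∀ j ≤ s,
        ((expo A h ⌊(1 - ρ) * m⌋₊ W c j).card : ℝ) ≤ (1 + ρ) * r) →
      (∑ c : V → Λ, if ∀ j ≤ s,
          lab A h ⌊(1 - ρ) * m⌋₊ W (extLab V c) j ≤ ⌊(1 - ρ) * m⌋₊ then (0 : ℝ)
        else ((nodes A h V.card W (extLab V c) s).card : ℝ)) ≤
        ρ' * (Fintype.card Λ : ℝ) ^ V.card := by
  sorry

/-! ### VP6: assembly (copy of UP8; instead of the union bound choose `c` with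
`∑_{W ∈ WW} [leaves of W if W is bad] ≤ ρ |WW|`) -/

/-- the combinatorial form, without logarithm -/
def SharpStmtN (s : ℕ) : Prop := ∀ ε : ℝ, 0 < ε → ∃ C : ℝ, 0 < C ∧ ∀ r m : ℕ, C ≤ m → C * m ≤ r →
    ∀ H : Finset (Finset ℕ), (∀ e ∈ H, e.card = r) → NoTr H m →
    ∃ F ⊆ H, (F.card : ℝ) ≤ (1 + ε) * ((r : ℝ) / m) ^ s ∧
      ∀ X : Finset ℕ, X.card ≤ s → ∃ e ∈ F, Disjoint e X

theorem s_core_nolog (hE : ∀ t, 1 ≤ t → CoreStmt t) (s : ℕ) (hs : 1 ≤ s) : SharpStmtN s := by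
  sorry

/-! ### VP7 (copy of TFinal) -/
theorem theoremS_nolog_of (s : ℕ) (hs : 1 ≤ s) (hmain : SharpStmtN s) (ε : ℝ) (hε : 0 < ε) :
    ∃ C : ℝ, 0 < C ∧ ∀ k r : ℕ, C ≤ k → C * (k : ℝ) ^ (1 / (s : ℝ)) ≤ r →
      (r : ℝ) / (k : ℝ) ^ (1 / (s : ℝ)) ≤ (fval r k s : ℝ) ∧
        (fval r k s : ℝ) ≤ (1 + ε) * ((r : ℝ) / (k : ℝ) ^ (1 / (s : ℝ))) := by
  sorry

end LocTr
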